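import Mathlib
import Pool.Agent.Lib.MP_d2b992_gt.T.Defs

/-!
# Dynamics of the ergodic sphere: definitions

Text: `/team-store/MP_d2b992_gt_DYN.md`.

State space `St = ℝ × ℝ ∋ (Θ, c)`; the fundamental domain `Dom` of `ℝ/4π × (-1,1)` is
`-π/2 ≤ Θ < 7π/2`, `|c| < 1`.  A state is the oriented great circle with normal
`nn Θ c = (x, D, c) = (√(1-c²) sin Θ, -√(1-c²) cos Θ, c)`.
It is NEAR if `cos Θ > 0` (`D < 0`); near state number `0` for `-π/2 < Θ < π/2`,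
number `2` for `3π/2 < Θ < 5π/2`.
-/

set_option autoImplicit false

open MeasureTheory

namespace Pool.Agent.Lib.MP_d2b992_gt.Dyn

/-- states `(Θ, c)` -/
abbrev St : Type := ℝ × ℝ

/-- fundamental domain of `ℝ/4π × (-1, 1)` -/
def Dom : Set St := {z | -(Real.pi / 2) ≤ z.1 ∧ z.1 < 7 * Real.pi / 2 ∧ |z.2| < 1}

/-- the area `dΘ dc` on the fundamental domain -/
noncomputable def muY : Measure St := (volume : Measure (ℝ × ℝ)).restrict Dom

theorem four_pi_pos : (0 : ℝ) < 4 * Real.pi := by positivity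

/-- reduction of an angle mod `4π` to `[-π/2, 7π/2)` -/
noncomputable def red (Θ : ℝ) : ℝ := toIcoMod four_pi_pos (-(Real.pi / 2)) Θ

/-- The map `P (Θ, c) = (π - Θ - F c, - c)` of `ℝ/4π × (-1,1)`. -/
noncomputable def pMap (F : ℝ → ℝ) (z : St) : St := (red (Real.pi - z.1 - F z.2), -z.2)

/-- the height `c` after the kick of `q` and the choice of the normal with `D ≤ 0` -/
noncomputable def qC (G : ℝ → ℝ) (z : St) : ℝ :=
  let x := Real.sqrt (1 - z.2 ^ 2) * Real.sin z.1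
  let D := -(Real.sqrt (1 - z.2 ^ 2) * Real.cos z.1)
  if D * Real.cos (G x) - z.2 * Real.sin (G x) ≤ 0 then
    D * Real.sin (G x) + z.2 * Real.cos (G x)
  else -(D * Real.sin (G x) + z.2 * Real.cos (G x))

open Classical in
/-- The map `Q`: near states with `|x| < b` are kicked, all others are fixed. -/
noncomputable def qMap (b : ℝ) (G : ℝ → ℝ) (z : St) : St :=
  if 0 < Real.cos z.1 ∧ |Real.sqrt (1 - z.2 ^ 2) * Real.sin z.1| < b then
    ((if 0 < Real.cos (z.1 / 2) then 0 else 2 * Real.pi) +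
      Real.arcsin (Real.sqrt (1 - z.2 ^ 2) * Real.sin z.1 / Real.sqrt (1 - qC G z ^ 2)), qC G z)
  else z

/-- The map `T = P ∘ Q` (state = after the `P`-event, before the `Q`-event). -/
noncomputable def tMap (b : ℝ) (F G : ℝ → ℝ) (z : St) : St := pMap F (qMap b G z)

/-! ## Sphere level -/

/-- vectors `(x, D, c)` of `ℝ³` -/
abbrev V3 : Type := ℝ × ℝ × ℝ

def dot (u v : V3) : ℝ := u.1 * v.1 + u.2.1 * v.2.1 + u.2.2 * v.2.2

def det3 (u v w : V3) : ℝ :=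
  u.1 * (v.2.1 * w.2.2 - v.2.2 * w.2.1) - u.2.1 * (v.1 * w.2.2 - v.2.2 * w.1)
    + u.2.2 * (v.1 * w.2.1 - v.2.1 * w.1)

/-- the normal of a state -/
noncomputable def nn (Θ c : ℝ) : V3 :=
  (Real.sqrt (1 - c ^ 2) * Real.sin Θ, -(Real.sqrt (1 - c ^ 2) * Real.cos Θ), c)

/-- rotation by `π` about the axis `q` -/
def rho (n : V3) : V3 := (n.1, -n.2.1, -n.2.2)

/-- the kick of the cap `p`: rotation of `(x, D)` by `Φ c` -/
noncomputable def Kp (Φ : ℝ → ℝ) (n : V3) : V3 :=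
  (n.1 * Real.cos (Φ n.2.2) - n.2.1 * Real.sin (Φ n.2.2),
   n.1 * Real.sin (Φ n.2.2) + n.2.1 * Real.cos (Φ n.2.2), n.2.2)

/-- the kick of the caps `q`: rotation of `(D, c)` by `Φ x` -/
noncomputable def Kq (Φ : ℝ → ℝ) (n : V3) : V3 :=
  (n.1, n.2.1 * Real.cos (Φ n.1) - n.2.2 * Real.sin (Φ n.1),
   n.2.1 * Real.sin (Φ n.1) + n.2.2 * Real.cos (Φ n.1))

/-- the derivative of `Kp` at `n` in the direction `m` -/
noncomputable def dKp (Φ : ℝ → ℝ) (n m : V3) : V3 :=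
  (m.1 * Real.cos (Φ n.2.2) - m.2.1 * Real.sin (Φ n.2.2)
      - deriv Φ n.2.2 * m.2.2 * (n.1 * Real.sin (Φ n.2.2) + n.2.1 * Real.cos (Φ n.2.2)),
   m.1 * Real.sin (Φ n.2.2) + m.2.1 * Real.cos (Φ n.2.2)
      + deriv Φ n.2.2 * m.2.2 * (n.1 * Real.cos (Φ n.2.2) - n.2.1 * Real.sin (Φ n.2.2)), m.2.2)

/-- the derivative of `Kq` at `n` in the direction `m` -/
noncomputable def dKq (Φ : ℝ → ℝ) (n m : V3) : V3 :=
  (m.1,
   m.2.1 * Real.cos (Φ n.1) - m.2.2 * Real.sin (Φ n.1)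
      - deriv Φ n.1 * m.1 * (n.2.1 * Real.sin (Φ n.1) + n.2.2 * Real.cos (Φ n.1)),
   m.2.1 * Real.sin (Φ n.1) + m.2.2 * Real.cos (Φ n.1)
      + deriv Φ n.1 * m.1 * (n.2.1 * Real.cos (Φ n.1) - n.2.2 * Real.sin (Φ n.1)))

/-- speed of a curve -/
noncomputable def vel (κ : ℝ → V3) (t : ℝ) : ℝ := Real.sqrt (dot (deriv κ t) (deriv κ t))

/-- `det (κ, κ', κ'')` -/
noncomputable def crv (κ : ℝ → V3) (t : ℝ) : ℝ := det3 (κ t) (deriv κ t) (deriv (deriv κ) t)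

/-- The cone form in the region `|c| < s`:
`- dc (dΘ - lam dc)`, `dΘ = (x dD - D dx)/(1-c²)`, `lam = c sin Θ cos Θ / max (D², s²-c²)`. -/
noncomputable def NsqP (s : ℝ) (n m : V3) : ℝ :=
  -m.2.2 * ((n.1 * m.2.1 - n.2.1 * m.1)
    + n.2.2 * n.1 * n.2.1 * m.2.2 / max (n.2.1 ^ 2) (s ^ 2 - n.2.2 ^ 2)) / (1 - n.2.2 ^ 2)

/-- The cone form in the region `|x| < b`:
`dx (dψ - lam dx)`, `dψ = (D dc - c dD)/(1-x²)`, `lam = x sin ψ cos ψ / max (D², b²-x²)`. -/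
noncomputable def NsqQ (b : ℝ) (n m : V3) : ℝ :=
  m.1 * ((n.2.1 * m.2.2 - n.2.2 * m.2.1)
    - n.1 * n.2.1 * n.2.2 * m.1 / max (n.2.1 ^ 2) (b ^ 2 - n.1 ^ 2)) / (1 - n.1 ^ 2)

open Classical in
/-- the cone form -/
noncomputable def Nsq (b s : ℝ) (n m : V3) : ℝ := if |n.2.2| < s then NsqP s n m else NsqQ b n m

end Pool.Agent.Lib.MP_d2b992_gt.Dyn
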