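import Mathlib
import Pool.Agent.Lib.MP_d2b992_gt.Dyn.Defs

/-!
# Dynamics of the ergodic sphere: Specs, part 1 (independent modules)

Text: `/team-store/MP_d2b992_gt_DYN.md`.
-/

set_option autoImplicit false

open MeasureTheory Filter Topology
open scoped ContDiff

namespace Pool.Agent.Lib.MP_d2b992_gt.Dyn

open Pool.Agent.Lib.MP_d2b992_gt.T (Tw)

/-- JET (section 2).  Both kicks: speed, `det (κ,κ',κ'')` and logarithmic distortion. -/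
def SpecJET : Prop := ∀ Φ : ℝ → ℝ, ContDiff ℝ ∞ Φ → ∃ C : ℝ, 1 ≤ C ∧
  ∀ (K : V3 → V3) (dK : V3 → V3 → V3), (K = Kp Φ ∧ dK = dKp Φ) ∨ (K = Kq Φ ∧ dK = dKq Φ) →
  ∀ (κ : ℝ → V3) (t : ℝ), ContDiffAt ℝ 2 κ t → (∀ᶠ r in 𝓝 t, dot (κ r) (κ r) = 1) →
    deriv κ t ≠ 0 →
    ContDiffAt ℝ 2 (fun r => K (κ r)) t ∧
    (∀ᶠ r in 𝓝 t, dot (K (κ r)) (K (κ r)) = 1) ∧
    (∀ᶠ r in 𝓝 t, deriv (fun r => K (κ r)) r = dK (κ r) (deriv κ r)) ∧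
    0 < vel κ t ∧ 0 < vel (fun r => K (κ r)) t ∧
    vel (fun r => K (κ r)) t ≤ C * vel κ t ∧
    vel κ t ≤ C * vel (fun r => K (κ r)) t ∧
    |crv (fun r => K (κ r)) t - crv κ t| ≤ C * vel κ t ^ 3 ∧
    ∃ d : ℝ, HasDerivAt (fun r => Real.log (vel (fun r => K (κ r)) r) - Real.log (vel κ r)) d t ∧
      |d| ≤ C * (vel κ t + |crv κ t| / vel κ t ^ 2)

/-- DETK (section 2): the kicks preserve the area form of the sphere. -/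
def SpecDETK : Prop := ∀ (Φ : ℝ → ℝ) (n u w : V3), dot n n = 1 → dot n u = 0 → dot n w = 0 →
  dot (Kp Φ n) (Kp Φ n) = 1 ∧ dot (Kp Φ n) (dKp Φ n u) = 0 ∧
  det3 (Kp Φ n) (dKp Φ n u) (dKp Φ n w) = det3 n u w ∧
  dot (Kq Φ n) (Kq Φ n) = 1 ∧ dot (Kq Φ n) (dKq Φ n u) = 0 ∧
  det3 (Kq Φ n) (dKq Φ n u) (dKq Φ n w) = det3 n u w

/-- NORM (section 1): the cone form. -/
def SpecNORM : Prop := ∀ (b s : ℝ) (F G : ℝ → ℝ), Tw b s F G →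
  (∀ n m : V3, dot n n = 1 → dot n m = 0 → (|n.2.2| < s ∨ |n.1| < b) →
    Nsq b s n m ≤ Nsq b s (Kp F n) (dKp F n m) ∧ Nsq b s n m ≤ Nsq b s (Kq G n) (dKq G n m)) ∧
  (∀ n m : V3, dot n n = 1 → dot n m = 0 → |n.2.2| < s → |n.1| < b →
    Nsq b s n m = m.1 * m.2.2 / n.2.1) ∧
  (∀ n m : V3, Nsq b s (rho n) (rho m) = Nsq b s n m) ∧
  (∀ x1 c1 : ℝ, x1 < b → c1 < s → ∃ η : ℝ, 0 < η ∧
    ∀ n m : V3, dot n n = 1 → dot n m = 0 →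
      (|n.2.2| ≤ c1 → Nsq b s n m + η * m.2.2 ^ 2 ≤ Nsq b s (Kp F n) (dKp F n m)) ∧
      (|n.1| ≤ x1 → Nsq b s n m + η * m.1 ^ 2 ≤ Nsq b s (Kq G n) (dKq G n m)))

/-- AREA (section 5).  Area swept by short verticals over a curve. -/
def SpecAREA : Prop := ∀ (O L : Set ℝ) (X C X' : ℝ → ℝ) (B : ℝ), IsOpen O →
  (∀ t ∈ O, HasDerivAt X (X' t) t) → ContinuousOn X' O → (∀ t ∈ O, X' t ≠ 0) →
  ContinuousOn C O → 0 ≤ B → MeasurableSet L → L ⊆ O →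
  volume {p : ℝ × ℝ | ∃ t ∈ L, p.1 = X t ∧ |p.2 - C t| ≤ B / |X' t|} ≤
    ENNReal.ofReal (2 * B) * volume L

/-- CROSS (section 5).  A decreasing and an increasing Lipschitz curve intersect. -/
def SpecCROSS : Prop := ∀ (M δ r : ℝ) (s1 s2 r1 r2 s0 r0 : ℝ) (p q x c : ℝ → ℝ), 0 ≤ M → 0 < r →
  2 * r * (1 + M) ^ 2 ≤ δ →
  s0 ∈ Set.Icc s1 s2 → r0 ∈ Set.Icc r1 r2 →
  ContinuousOn p (Set.Icc s1 s2) → ContinuousOn q (Set.Icc s1 s2) →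
  ContinuousOn x (Set.Icc r1 r2) → ContinuousOn c (Set.Icc r1 r2) →
  (∀ a ∈ Set.Icc s1 s2, ∀ a' ∈ Set.Icc s1 s2,
    (p a - p a') * (q a - q a') ≤ 0 ∧ |q a - q a'| ≤ M * |p a - p a'|) →
  (∀ a ∈ Set.Icc r1 r2, ∀ a' ∈ Set.Icc r1 r2,
    0 ≤ (x a - x a') * (c a - c a') ∧ |x a - x a'| ≤ M * |c a - c a'|) →
  Set.Icc (p s0 - δ) (p s0 + δ) ⊆ p '' Set.Icc s1 s2 →
  Set.Icc (c r0 - δ) (c r0 + δ) ⊆ c '' Set.Icc r1 r2 →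
  |p s0 - x r0| ≤ 2 * r → |q s0 - c r0| ≤ 2 * r →
  ∃ a ∈ Set.Icc s1 s2, ∃ a' ∈ Set.Icc r1 r2, p a = x a' ∧ q a = c a'

/-- The set of times `{n | p n}` is infinite, contains `0` and its `i`-th gap is `≤ K + ε i`. -/
def Good (p : ℕ → Prop) (K ε : ℝ) : Prop :=
  p 0 ∧ (∀ m : ℕ, ∃ n : ℕ, m ≤ n ∧ p n) ∧
    ∀ i : ℕ, (Nat.nth p (i + 1) : ℝ) - (Nat.nth p i : ℝ) ≤ K + ε * (i : ℝ)

/-- RET (section 6). -/
def SpecRET : Prop := ∀ (X : Type) [MeasurableSpace X] (μ : Measure X) [IsFiniteMeasure μ]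
  (T : X ≃ᵐ X), MeasurePreserving T μ μ → ∀ U : Set X, MeasurableSet U →
  (∀ K ε : ℝ, MeasurableSet {z : X | Good (fun n => T^[n] z ∈ U) K ε}) ∧
  (∀ ε : ℝ, 0 < ε → ∀ᵐ z ∂(μ.restrict U), ∃ K : ℕ, Good (fun n => T^[n] z ∈ U) (K : ℝ) ε) ∧
  -- waiting times, uniformly in the starting time
  (∀ δ : ℝ, 0 < δ → ∃ m : ℕ, ∀ t : ℕ,
    μ {z : X | z ∈ U ∧ (∀ k : ℕ, ∃ n : ℕ, k ≤ n ∧ T^[n] z ∈ U) ∧
      ∀ n : ℕ, t ≤ n → n ≤ t + m → T^[n] z ∉ U} ≤ ENNReal.ofReal δ)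

/-- VN (section 7): von Neumann's theorem, an exactly invariant version of the limit. -/
def SpecVN : Prop := ∀ (X : Type) [MeasurableSpace X] (μ : Measure X) [IsFiniteMeasure μ]
  (T : X ≃ᵐ X), MeasurePreserving T μ μ → ∀ (φ : X → ℝ) (B : ℝ), Measurable φ →
  (∀ z, |φ z| ≤ B) →
  ∃ (f : X → ℝ) (n : ℕ → ℕ), Measurable f ∧ (∀ z, |f z| ≤ B) ∧ (∀ z, f (T z) = f z) ∧
    StrictMono n ∧ (∀ i, 0 < n i) ∧
    (∀ᵐ z ∂μ, Tendsto (fun i => (∑ k ∈ Finset.range (n i), φ (T^[k] z)) / (n i : ℝ)) atTop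
      (𝓝 (f z))) ∧
    (∀ A : Set X, MeasurableSet A → T ⁻¹' A = A → ∫ z in A, f z ∂μ = ∫ z in A, φ z ∂μ)

/-- LEB (section 7): one dimensional Lebesgue points, intervals containing the point. -/
def SpecLEB : Prop := ∀ (f : ℝ → ℝ) (B a b : ℝ), Measurable f → (∀ x, |f x| ≤ B) → a < b →
  ∀ᵐ x ∂(volume.restrict (Set.Ioo a b)), ∀ ε : ℝ, 0 < ε → ∀ ζ : ℝ, 0 < ζ → ∃ δ : ℝ, 0 < δ ∧
    ∀ u w : ℝ, u ≤ x → x ≤ w → u < w → w - u ≤ δ →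
      volume {y ∈ Set.Icc u w | ε < |f y - f x|} ≤ ENNReal.ofReal (ζ * (w - u))

end Pool.Agent.Lib.MP_d2b992_gt.Dyn
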