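import Mathlib
import Pool.Agent.Lib.MP_d2b992_gt.Dyn.Spec1

/-!
# Dynamics of the ergodic sphere: Specs, part 2 (abstract modules)

Text: `/team-store/MP_d2b992_gt_DYN.md`, sections 3-8.  Everything here is real analysis and
measure theory for an abstract invertible map with two near squares
`E j p q`, `j : Bool`, `|p| < βp`, `|q| < βq`, `βp² + βq² = 1`.

For `S = T`: `E j p q = e j p q`, `(p,q) = (x,c)`, `(βp,βq) = (b,s)`, `sg = -1`.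
For `S = T⁻¹`: `E j p q = e j q p`, `(p,q) = (c,x)`, `(βp,βq) = (s,b)`, `sg = 1`.
-/

set_option autoImplicit false

open MeasureTheory Filter Topology Set

namespace Pool.Agent.Lib.MP_d2b992_gt.Dyn

/-- the charts are injective with disjoint images -/
def ChartInj {X : Type} (E : Bool → ℝ → ℝ → X) (βp βq : ℝ) : Prop :=
  ∀ (j j' : Bool) (p q p' q' : ℝ), |p| < βp → |q| < βq → |p'| < βp → |q'| < βq →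
    E j p q = E j' p' q' → j = j' ∧ p = p' ∧ q = q'

/-- the core `|p| ≤ a`, `|q| ≤ d` of the near squares -/
def core {X : Type} (E : Bool → ℝ → ℝ → X) (a d : ℝ) : Set X :=
  {z | ∃ (j : Bool) (p q : ℝ), |p| ≤ a ∧ |q| ≤ d ∧ z = E j p q}

/-- Section 3: the evolution of the segment `σ ↦ E j0 (p0 + σ) q0` under `S`.
`v k σ` speed, `A k σ` curvature determinant, `N k σ`, `N' k σ` norms before and after the kick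
which acts first in `S`. -/
structure Evo {X : Type} (S : X → X) (E : Bool → ℝ → ℝ → X) (βp βq sg p1 q1 C η : ℝ)
    (j0 : Bool) (p0 q0 : ℝ) (v A N N' : ℕ → ℝ → ℝ) : Prop where
  v_pos : ∀ (k : ℕ) (σ : ℝ), |p0 + σ| < βp → 0 < v k σ
  v_cont : ∀ k : ℕ, ContinuousOn (v k) {σ | |p0 + σ| < βp}
  v_up : ∀ (k : ℕ) (σ : ℝ), |p0 + σ| < βp → v (k + 1) σ ≤ C * v k σ
  v_down : ∀ (k : ℕ) (σ : ℝ), |p0 + σ| < βp → v k σ ≤ C * v (k + 1) σ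
  A_step : ∀ (k : ℕ) (σ : ℝ), |p0 + σ| < βp → |A (k + 1) σ - A k σ| ≤ C * v k σ ^ 3
  log_step : ∀ (k : ℕ) (σ : ℝ), |p0 + σ| < βp → ∃ d : ℝ,
    HasDerivAt (fun r => Real.log (v (k + 1) r) - Real.log (v k r)) d σ ∧
      |d| ≤ C * (v k σ + |A k σ| / v k σ ^ 2)
  N_mono : ∀ (k : ℕ) (σ : ℝ), |p0 + σ| < βp →
    0 ≤ N k σ ∧ N k σ ≤ N' k σ ∧ N' k σ ≤ N (k + 1) σ
  init : ∀ σ : ℝ, |p0 + σ| ≤ p1 → 1 ≤ v 0 σ ∧ v 0 σ ≤ C ∧ |A 0 σ| ≤ C ∧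
    ∃ d : ℝ, HasDerivAt (fun r => Real.log (v 0 r)) d σ ∧ |d| ≤ C
  chart : ∀ (k : ℕ) (σ : ℝ) (j : Bool) (p q : ℝ), |p0 + σ| < βp → |p| < βp → |q| < βq →
    S^[k] (E j0 (p0 + σ) q0) = E j p q →
    ∃ P Q P' Q' : ℝ → ℝ, P σ = p ∧ Q σ = q ∧
      (∀ᶠ r in 𝓝 σ, S^[k] (E j0 (p0 + r) q0) = E j (P r) (Q r) ∧
        HasDerivAt P (P' r) r ∧ HasDerivAt Q (Q' r) r) ∧
      ContinuousAt P' σ ∧ ContinuousAt Q' σ ∧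
      0 ≤ sg * (P' σ * Q' σ) ∧ (P' σ) ^ 2 + (Q' σ) ^ 2 ≤ v k σ ^ 2 ∧
      N k σ ^ 2 * Real.sqrt (1 - p ^ 2 - q ^ 2) = |P' σ * Q' σ| ∧
      (|p| ≤ p1 → |q| ≤ q1 → v k σ ≤ C * (|P' σ| + |Q' σ|) ∧
        N k σ ^ 2 + η * (P' σ) ^ 2 ≤ N' k σ ^ 2 ∧
        (∀ i : ℕ, k = i + 1 → N' i σ ^ 2 + η * (Q' σ) ^ 2 ≤ N k σ ^ 2))
  path : ∀ (k : ℕ) (σ₁ σ₂ δ : ℝ) (j : Bool) (p q : ℝ), |p0 + σ₁| < βp → |p0 + σ₂| < βp →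
    |p| + δ < βp → |q| + δ < βq → S^[k] (E j0 (p0 + σ₁) q0) = E j p q →
    |∫ r in σ₁..σ₂, v k r| ≤ δ →
    ∀ σ ∈ uIcc σ₁ σ₂, ∃ p' q' : ℝ, |p' - p| ≤ δ ∧ |q' - q| ≤ δ ∧
      S^[k] (E j0 (p0 + σ) q0) = E j p' q'

/-- all segments in the core have an evolution with uniform constants -/
def EvoAx {X : Type} (S : X → X) (E : Bool → ℝ → ℝ → X) (βp βq sg p1 q1 C η : ℝ) : Prop :=
  ∀ (j0 : Bool) (p0 q0 : ℝ), |p0| ≤ p1 → |q0| ≤ q1 →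
    ∃ v A N N' : ℕ → ℝ → ℝ, Evo S E βp βq sg p1 q1 C η j0 p0 q0 v A N N'

/-- the constants of a pair of cores -/
structure Csts (βp βq sg a d p1 q1 C η : ℝ) : Prop where
  a0 : 0 < a
  ap : a < p1
  pb : p1 < βp
  d0 : 0 < d
  dq : d < q1
  qb : q1 < βq
  bb : βp ^ 2 + βq ^ 2 = 1
  sg1 : sg = 1 ∨ sg = -1
  C1 : 1 ≤ C
  η0 : 0 < η

/-- Section 4 (a), (b): the curve `S^t J` near `S^t (J 0)`. -/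
structure UCurve {X : Type} (S : X → X) (E : Bool → ℝ → ℝ → X) (sg p1 q1 M δ C4 θ : ℝ)
    (v : ℕ → ℝ → ℝ) (j0 : Bool) (p0 q0 : ℝ) (t n : ℕ) (kk : ℕ → ℕ) (σm σp : ℝ)
    (j : Bool) (P Q P' Q' : ℝ → ℝ) : Prop where
  neg : σm < 0
  pos : 0 < σp
  dom : ∀ σ ∈ Icc σm σp, |p0 + σ| ≤ p1
  eq : ∀ σ ∈ Icc σm σp, S^[t] (E j0 (p0 + σ) q0) = E j (P σ) (Q σ)
  inP : ∀ σ ∈ Icc σm σp, |P σ| ≤ p1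
  inQ : ∀ σ ∈ Icc σm σp, |Q σ| ≤ q1
  dP : ∀ σ ∈ Icc σm σp, HasDerivAt P (P' σ) σ
  dQ : ∀ σ ∈ Icc σm σp, HasDerivAt Q (Q' σ) σ
  contP : ContinuousOn P' (Icc σm σp)
  nz : ∀ σ ∈ Icc σm σp, P' σ ≠ 0
  sgn : ∀ σ ∈ Icc σm σp, 0 ≤ sg * (P' σ * Q' σ)
  slope : ∀ σ ∈ Icc σm σp, |Q' σ| ≤ M * |P' σ|
  vP : ∀ σ ∈ Icc σm σp, |P' σ| ≤ v t σ ∧ v t σ ≤ M * |P' σ|
  sides : (P σm ≤ P 0 - δ ∧ P 0 + δ ≤ P σp) ∨ (P 0 + δ ≤ P σm ∧ P σp ≤ P 0 - δ)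
  len : ∀ σ ∈ Icc σm σp, |∫ r in (0 : ℝ)..σ, v t r| ≤ 1
  vis : ∀ i ≤ n, ∀ σ ∈ Icc σm σp, S^[kk i] (E j0 (p0 + σ) q0) ∈ core E p1 q1
  contr : ∀ i l : ℕ, i ≤ l → l ≤ n → ∀ σ ∈ Icc σm σp,
    v (kk l) σ ≤ C4 * θ ^ (l - i) * v (kk i) σ

/-- UC (section 4 (a), (b)). -/
def SpecUC : Prop := ∀ βp βq sg a d p1 q1 C η : ℝ, Csts βp βq sg a d p1 q1 C η →
  ∃ (M δ C4 θ : ℝ) (n0 : ℕ), 1 ≤ M ∧ 0 < δ ∧ 1 ≤ C4 ∧ 0 < θ ∧ θ < 1 ∧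
  ∀ (X : Type) (S : X → X) (E : Bool → ℝ → ℝ → X) (j0 : Bool) (p0 q0 : ℝ)
    (v A N N' : ℕ → ℝ → ℝ), ChartInj E βp βq → |p0| ≤ a → |q0| ≤ d →
    Evo S E βp βq sg p1 q1 C η j0 p0 q0 v A N N' →
    ∀ (t n : ℕ) (kk : ℕ → ℕ), n0 ≤ n → kk 0 = t → kk n = 0 → (∀ i < n, kk (i + 1) < kk i) →
      (∀ i ≤ n, S^[kk i] (E j0 p0 q0) ∈ core E a d) →
      ∃ (σm σp : ℝ) (j : Bool) (P Q P' Q' : ℝ → ℝ),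
        UCurve S E sg p1 q1 M δ C4 θ v j0 p0 q0 t n kk σm σp j P Q P' Q'

/-- DIST (section 4 (c)): distortion under good gaps. -/
def SpecDIST : Prop := ∀ C C4 θ M : ℝ, 1 ≤ C → 1 ≤ C4 → 0 < θ → θ < 1 → 1 ≤ M →
  ∃ ε : ℝ, 0 < ε ∧ ∀ K : ℝ, 0 ≤ K → ∃ B : ℝ, 1 ≤ B ∧
  ∀ (βp βq sg p1 q1 η δ : ℝ) (X : Type) (S : X → X) (E : Bool → ℝ → ℝ → X) (j0 : Bool)
    (p0 q0 : ℝ) (v A N N' : ℕ → ℝ → ℝ) (t n : ℕ) (kk : ℕ → ℕ) (σm σp : ℝ) (j : Bool)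
    (P Q P' Q' : ℝ → ℝ), p1 < βp → Evo S E βp βq sg p1 q1 C η j0 p0 q0 v A N N' →
    UCurve S E sg p1 q1 M δ C4 θ v j0 p0 q0 t n kk σm σp j P Q P' Q' →
    kk 0 = t → kk n = 0 → (∀ i < n, kk (i + 1) < kk i) →
    (∀ i < n, ((kk i : ℝ) - (kk (i + 1) : ℝ)) ≤ K + ε * (i : ℝ)) →
    ∀ σ ∈ Icc σm σp, ∀ σ' ∈ Icc σm σp, v t σ ≤ B * v t σ'

/-- CLOS (section 4 (d)): lengths at all intermediate times under good gaps. -/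
def SpecCLOS : Prop := ∀ C C4 θ M : ℝ, 1 ≤ C → 1 ≤ C4 → 0 < θ → θ < 1 → 1 ≤ M →
  ∃ ε θ' : ℝ, 0 < ε ∧ 0 < θ' ∧ θ' < 1 ∧ ∀ K : ℝ, 0 ≤ K → ∃ B : ℝ, 1 ≤ B ∧
  ∀ (βp βq sg p1 q1 η δ : ℝ) (X : Type) (S : X → X) (E : Bool → ℝ → ℝ → X) (j0 : Bool)
    (p0 q0 : ℝ) (v A N N' : ℕ → ℝ → ℝ) (t n : ℕ) (kk : ℕ → ℕ) (σm σp : ℝ) (j : Bool)
    (P Q P' Q' : ℝ → ℝ), p1 < βp → Evo S E βp βq sg p1 q1 C η j0 p0 q0 v A N N' →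
    UCurve S E sg p1 q1 M δ C4 θ v j0 p0 q0 t n kk σm σp j P Q P' Q' →
    kk 0 = t → kk n = 0 → (∀ i < n, kk (i + 1) < kk i) →
    ∀ (ε' : ℝ), 0 ≤ ε' → ε' ≤ ε →
    (∀ i < n, ((kk i : ℝ) - (kk (i + 1) : ℝ)) ≤ K + ε' * (i : ℝ)) →
    ∀ i < n, ∀ k : ℕ, kk (i + 1) < k → k ≤ kk i → ∀ σ ∈ Icc σm σp,
      |∫ r in (0 : ℝ)..σ, v k r| ≤ B * θ' ^ i

end Pool.Agent.Lib.MP_d2b992_gt.Dyn
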