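import Mathlib
import Pool.Agent.Lib.MP_d2b992_gt.Dyn.Spec2

/-!
# Dynamics of the ergodic sphere: Specs, part 3 (abstract modules)

Text: `/team-store/MP_d2b992_gt_DYN.md`, sections 4-8.
-/

set_option autoImplicit false

open MeasureTheory Filter Topology Set

namespace Pool.Agent.Lib.MP_d2b992_gt.Dyn

/-- exchange of the two coordinates of a chart -/
def flp {X : Type} (e : Bool → ℝ → ℝ → X) : Bool → ℝ → ℝ → X := fun j p q => e j q p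

/-- The open near squares. -/
def sqs {X : Type} (e : Bool → ℝ → ℝ → X) (b s : ℝ) (j : Bool) : Set X :=
  {z | ∃ x c : ℝ, |x| < b ∧ |c| < s ∧ z = e j x c}

/-- CROSSING (section 3): invariance of the area form, read on a curve `T^t J` (`J` horizontal)
and a curve `T^{-t'} J'` (`J'` vertical) through the same point. -/
def CrossAx {X : Type} (T T' : X → X) (e : Bool → ℝ → ℝ → X) (b s : ℝ) : Prop :=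
  ∀ (t t' : ℕ) (j0 j1 j : Bool) (x0 c0 σ x1 c1 r x c : ℝ) (X1 C1 X2 C2 X3 C3 : ℝ → ℝ)
    (x1' c1' x2' c2' x3' : ℝ),
    |x0 + σ| < b → |c0| < s → |x1| < b → |c1 + r| < s → |x| < b → |c| < s →
    T^[t] (e j0 (x0 + σ) c0) = e j x c → T'^[t'] (e j1 x1 (c1 + r)) = e j x c →
    (∀ᶠ u in 𝓝 σ, T^[t] (e j0 (x0 + u) c0) = e j (X1 u) (C1 u)) →
    HasDerivAt X1 x1' σ → HasDerivAt C1 c1' σ → X1 σ = x → C1 σ = c →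
    (∀ᶠ u in 𝓝 r, T'^[t'] (e j1 x1 (c1 + u)) = e j (X2 u) (C2 u)) →
    HasDerivAt X2 x2' r → HasDerivAt C2 c2' r → X2 r = x → C2 r = c →
    (∀ᶠ u in 𝓝 σ, T^[t + t'] (e j0 (x0 + u) c0) = e j1 (X3 u) (C3 u)) →
    HasDerivAt X3 x3' σ → ContinuousAt C3 σ → X3 σ = x1 → C3 σ = c1 + r →
    |x1' * c2' - c1' * x2'| * Real.sqrt (1 - x1 ^ 2 - (c1 + r) ^ 2) =
      |x3'| * Real.sqrt (1 - x ^ 2 - c ^ 2)

/-- The abstract system: everything that the Hopf argument uses. -/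
structure IsSys {X : Type} [MeasurableSpace X] (μ : Measure X) (T : X ≃ᵐ X)
    (e : Bool → ℝ → ℝ → X) (b s : ℝ) : Prop where
  b0 : 0 < b
  s0 : 0 < s
  sb : s ^ 2 + b ^ 2 = 1
  fin : IsFiniteMeasure μ
  mp : MeasurePreserving T μ μ
  inj : ChartInj e b s
  meas : ∀ j : Bool, Measurable (fun p : ℝ × ℝ => e j p.1 p.2)
  area : ∀ (j : Bool) (A : Set (ℝ × ℝ)), MeasurableSet A → (∀ p ∈ A, |p.1| < b ∧ |p.2| < s) →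
    MeasurableSet ((fun p : ℝ × ℝ => e j p.1 p.2) '' A) ∧
    μ ((fun p : ℝ × ℝ => e j p.1 p.2) '' A) =
      ∫⁻ p in A, ENNReal.ofReal (1 / Real.sqrt (1 - p.1 ^ 2 - p.2 ^ 2))
  evo : ∀ x1 c1 : ℝ, 0 < x1 → x1 < b → 0 < c1 → c1 < s → ∃ C η : ℝ, 1 ≤ C ∧ 0 < η ∧
    EvoAx T e b s (-1) x1 c1 C η ∧ EvoAx T.symm (flp e) s b 1 c1 x1 C η
  cross : CrossAx T T.symm e b s
  vis : ∀ᵐ z ∂μ, ∃ (n : ℕ) (j : Bool), T^[n] z ∈ sqs e b s j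
  s02 : 0 < μ {z | z ∈ sqs e b s false ∧ T z ∈ sqs e b s true}

/-- The curve `S^t J` near `z = S^t (E j0 p0 q0)`, as it is used by the Hopf argument.
`S'` is the inverse of `S`; `S'^[n] z ∈ core E a d` are the visits. -/
structure Leaf {X : Type} (S S' : X → X) (E : Bool → ℝ → ℝ → X)
    (βp βq sg a d p1 q1 M δ B θ : ℝ) (t m : ℕ) (z : X) (j0 : Bool) (p0 q0 σm σp : ℝ)
    (j : Bool) (P Q P' Q' : ℝ → ℝ) : Prop where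
  ha : |p0| ≤ a
  hd : |q0| ≤ d
  start : S^[t] (E j0 p0 q0) = z
  time : t = Nat.nth (fun n => S'^[n] z ∈ core E a d) m
  neg : σm < 0
  pos : 0 < σp
  dom : ∀ σ ∈ Icc σm σp, |p0 + σ| ≤ p1
  eq : ∀ σ ∈ Icc σm σp, S^[t] (E j0 (p0 + σ) q0) = E j (P σ) (Q σ)
  inP : ∀ σ ∈ Icc σm σp, |P σ| ≤ p1
  inQ : ∀ σ ∈ Icc σm σp, |Q σ| ≤ q1
  dP : ∀ σ ∈ Icc σm σp, HasDerivAt P (P' σ) σ
  dQ : ∀ σ ∈ Icc σm σp, HasDerivAt Q (Q' σ) σ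
  nz : ∀ σ ∈ Icc σm σp, P' σ ≠ 0
  sgn : ∀ σ ∈ Icc σm σp, 0 ≤ sg * (P' σ * Q' σ)
  slope : ∀ σ ∈ Icc σm σp, |Q' σ| ≤ M * |P' σ|
  sides : (P σm ≤ P 0 - δ ∧ P 0 + δ ≤ P σp) ∨ (P 0 + δ ≤ P σm ∧ P σp ≤ P 0 - δ)
  dist : ∀ σ ∈ Icc σm σp, ∀ σ' ∈ Icc σm σp, |P' σ| ≤ B * |P' σ'|
  small : σp - σm ≤ B * θ ^ m
  close : ∀ i k : ℕ, Nat.nth (fun n => S'^[n] z ∈ core E a d) i ≤ k →
    k < Nat.nth (fun n => S'^[n] z ∈ core E a d) (i + 1) → k ≤ t → ∀ σ ∈ Icc σm σp,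
    ∀ (j' : Bool) (p' q' : ℝ), |p'| + B * θ ^ i < βp → |q'| + B * θ ^ i < βq →
    (S^[t - k] (E j0 p0 q0) = E j' p' q' → ∃ p'' q'' : ℝ, |p'' - p'| ≤ B * θ ^ i ∧
      |q'' - q'| ≤ B * θ ^ i ∧ S^[t - k] (E j0 (p0 + σ) q0) = E j' p'' q'') ∧
    (S^[t - k] (E j0 (p0 + σ) q0) = E j' p' q' → ∃ p'' q'' : ℝ, |p'' - p'| ≤ B * θ ^ i ∧
      |q'' - q'| ≤ B * θ ^ i ∧ S^[t - k] (E j0 p0 q0) = E j' p'' q'')

/-- LEAF: assembly of UC, DIST, CLOS. -/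
def SpecLEAF : Prop := ∀ βp βq sg a d p1 q1 C η : ℝ, Csts βp βq sg a d p1 q1 C η →
  ∃ (M δ ε θ : ℝ) (n0 : ℕ), 1 ≤ M ∧ 0 < δ ∧ 0 < ε ∧ 0 < θ ∧ θ < 1 ∧
  ∀ K : ℝ, 0 ≤ K → ∃ B : ℝ, 1 ≤ B ∧
  ∀ (X : Type) (S S' : X → X) (E : Bool → ℝ → ℝ → X), (∀ z, S' (S z) = z) →
    (∀ z, S (S' z) = z) → ChartInj E βp βq → EvoAx S E βp βq sg p1 q1 C η →
    ∀ (z : X) (m : ℕ), Good (fun n => S'^[n] z ∈ core E a d) K ε → n0 ≤ m →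
    ∃ (t : ℕ) (j0 : Bool) (p0 q0 σm σp : ℝ) (j : Bool) (P Q P' Q' : ℝ → ℝ),
      Leaf S S' E βp βq sg a d p1 q1 M δ B θ t m z j0 p0 q0 σm σp j P Q P' Q'

/-- EXIST (section 5): the leaves of two close points intersect. -/
def SpecEXIST : Prop := ∀ (X : Type) (T T' : X → X) (e : Bool → ℝ → ℝ → X)
  (b s a d x1 c1 M δ B θ r : ℝ) (t m t' m' : ℕ) (z z' : X)
  (j0 : Bool) (p0 q0 σm σp : ℝ) (j : Bool) (P Q P' Q' : ℝ → ℝ)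
  (i0 : Bool) (u0 w0 ρm ρp : ℝ) (i : Bool) (U W U' W' : ℝ → ℝ), 1 ≤ M → 0 < r →
  2 * r * (1 + M) ^ 2 ≤ δ →
  Leaf T T' e b s (-1) a d x1 c1 M δ B θ t m z j0 p0 q0 σm σp j P Q P' Q' →
  Leaf T' T (flp e) s b 1 d a c1 x1 M δ B θ t' m' z' i0 u0 w0 ρm ρp i U W U' W' →
  j = i → |P 0 - W 0| ≤ 2 * r → |Q 0 - U 0| ≤ 2 * r →
  ∃ σ ∈ Icc σm σp, ∃ ρ ∈ Icc ρm ρp,
    T^[t] (e j0 (p0 + σ) q0) = T'^[t'] (flp e i0 (u0 + ρ) w0)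

/-- ACT (section 5): absolute continuity at a fixed time. -/
def SpecACT : Prop := ∀ b s a d x1 c1 M δ B θ : ℝ, a < x1 → x1 < b → d < c1 → c1 < s →
  s ^ 2 + b ^ 2 = 1 → 1 ≤ M → 0 < δ → 1 ≤ B → ∃ C' : ℝ, 0 ≤ C' ∧
  ∀ (X : Type) [MeasurableSpace X] (μ : Measure X) (T : X ≃ᵐ X) (e : Bool → ℝ → ℝ → X),
  IsSys μ T e b s →
  ∀ (t m : ℕ) (z : X) (j0 : Bool) (p0 q0 σm σp : ℝ) (j : Bool) (P Q P' Q' : ℝ → ℝ),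
  Leaf T T.symm e b s (-1) a d x1 c1 M δ B θ t m z j0 p0 q0 σm σp j P Q P' Q' →
  ∀ L : Set ℝ, MeasurableSet L → L ⊆ Icc σm σp → ∀ t' : ℕ,
  μ {z' | ∃ (m' : ℕ) (i0 : Bool) (u0 w0 ρm ρp : ℝ) (i : Bool) (U W U' W' : ℝ → ℝ),
      Leaf T.symm T (flp e) s b 1 d a c1 x1 M δ B θ t' m' z' i0 u0 w0 ρm ρp i U W U' W' ∧
      ∃ σ ∈ L, ∃ ρ ∈ Icc ρm ρp,
        T^[t] (e j0 (p0 + σ) q0) = T.symm^[t'] (flp e i0 (u0 + ρ) w0)} ≤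
    ENNReal.ofReal (C' / (σp - σm)) * volume L

/-- Test functions supported in the near squares. -/
structure Test {X : Type} (e : Bool → ℝ → ℝ → X) (b s a d : ℝ) (g : Bool → ℝ × ℝ → ℝ)
    (φ : X → ℝ) : Prop where
  a0 : 0 < a
  ab : a < b
  d0 : 0 < d
  ds : d < s
  cont : ∀ j : Bool, Continuous (g j)
  supp : ∀ (j : Bool) (p : ℝ × ℝ), (a ≤ |p.1| ∨ d ≤ |p.2|) → g j p = 0
  on : ∀ (j : Bool) (x c : ℝ), |x| < b → |c| < s → φ (e j x c) = g j (x, c)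
  off : ∀ z : X, (∀ j : Bool, z ∉ sqs e b s j) → φ z = 0

/-- CLF (section 4 (d)): Birkhoff sums along a stable leaf. -/
def SpecCLF : Prop := ∀ (b s a d c1 x1 M δ B θ K ε : ℝ) (g : Bool → ℝ × ℝ → ℝ), 0 < θ → θ < 1 →
  1 ≤ B → 0 ≤ K → 0 ≤ ε → ∀ κ : ℝ, 0 < κ → ∃ n1 : ℕ,
  ∀ (X : Type) (T T' : X → X) (e : Bool → ℝ → ℝ → X) (φ : X → ℝ), (∀ z, T' (T z) = z) →
  (∀ z, T (T' z) = z) → ChartInj e b s → Test e b s a d g φ →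
  ∀ (n t' m' : ℕ) (z' : X) (i0 : Bool) (u0 w0 ρm ρp : ℝ) (i : Bool) (U W U' W' : ℝ → ℝ),
  n1 ≤ n → n ≤ t' → Good (fun n => T^[n] z' ∈ core (flp e) d a) K ε →
  Leaf T' T (flp e) s b 1 d a c1 x1 M δ B θ t' m' z' i0 u0 w0 ρm ρp i U W U' W' →
  ∀ ρ ∈ Icc ρm ρp,
    |(∑ k ∈ Finset.range n, φ (T^[k] z')) / (n : ℝ) -
      (∑ k ∈ Finset.range n, φ (T^[k] (T'^[t'] (flp e i0 (u0 + ρ) w0)))) / (n : ℝ)| ≤ κ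

/-- `f` is the exactly invariant limit of the Birkhoff averages of `φ` along `n`. -/
structure IsLim {X : Type} [MeasurableSpace X] (μ : Measure X) (T : X ≃ᵐ X) (φ f : X → ℝ)
    (n : ℕ → ℕ) (B : ℝ) : Prop where
  mf : Measurable f
  bf : ∀ z, |f z| ≤ B
  inv : ∀ z, f (T z) = f z
  mono : StrictMono n
  pos : ∀ i, 0 < n i
  lim : ∀ᵐ z ∂μ, Tendsto (fun i => (∑ k ∈ Finset.range (n i), φ (T^[k] z)) / (n i : ℝ)) atTop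
      (𝓝 (f z))
  int : ∀ A : Set X, MeasurableSet A → T ⁻¹' A = A → ∫ z in A, f z ∂μ = ∫ z in A, φ z ∂μ

/-- HOPF (section 7): `f` is a.e. constant on small boxes. -/
def SpecHOPF : Prop := ∀ (X : Type) [MeasurableSpace X] (μ : Measure X) (T : X ≃ᵐ X)
  (e : Bool → ℝ → ℝ → X) (b s a d : ℝ) (g : Bool → ℝ × ℝ → ℝ) (φ f : X → ℝ) (n : ℕ → ℕ)
  (B : ℝ), IsSys μ T e b s → Test e b s a d g φ → IsLim μ T φ f n B →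
  ∀ (j : Bool) (x0 c0 : ℝ), |x0| < b → |c0| < s → ∃ (r κ : ℝ), 0 < r ∧
    ∀ᵐ z ∂μ, (∃ x c : ℝ, |x - x0| < r ∧ |c - c0| < r ∧ z = e j x c) → f z = κ

/-- SQC (section 8): from boxes to squares (connectedness). -/
def SpecSQC : Prop := ∀ (X : Type) [MeasurableSpace X] (μ : Measure X) (T : X ≃ᵐ X)
  (e : Bool → ℝ → ℝ → X) (b s : ℝ) (f : X → ℝ), IsSys μ T e b s →
  (∀ (j : Bool) (x0 c0 : ℝ), |x0| < b → |c0| < s → ∃ (r κ : ℝ), 0 < r ∧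
    ∀ᵐ z ∂μ, (∃ x c : ℝ, |x - x0| < r ∧ |c - c0| < r ∧ z = e j x c) → f z = κ) →
  ∀ j : Bool, ∃ κ : ℝ, ∀ᵐ z ∂μ, z ∈ sqs e b s j → f z = κ

/-- FIN (section 8): ergodicity. -/
def SpecFIN : Prop := ∀ (X : Type) [MeasurableSpace X] (μ : Measure X) (T : X ≃ᵐ X)
  (e : Bool → ℝ → ℝ → X) (b s : ℝ), IsSys μ T e b s →
  (∀ (a d : ℝ) (g : Bool → ℝ × ℝ → ℝ) (φ f : X → ℝ) (n : ℕ → ℕ) (B : ℝ),
    Test e b s a d g φ → IsLim μ T φ f n B →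
    ∀ j : Bool, ∃ κ : ℝ, ∀ᵐ z ∂μ, z ∈ sqs e b s j → f z = κ) →
  ∀ A : Set X, MeasurableSet A → T ⁻¹' A =ᵐ[μ] A → μ A = 0 ∨ μ Aᶜ = 0

/-- The abstract theorem. -/
def SpecABS : Prop := ∀ (X : Type) [MeasurableSpace X] (μ : Measure X) (T : X ≃ᵐ X)
  (e : Bool → ℝ → ℝ → X) (b s : ℝ), IsSys μ T e b s →
  ∀ A : Set X, MeasurableSet A → T ⁻¹' A =ᵐ[μ] A → μ A = 0 ∨ μ Aᶜ = 0

end Pool.Agent.Lib.MP_d2b992_gt.Dyn
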