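import Mathlib
import Pool.Agent.Lib.MP_d2b992_gt.Dyn.Spec3

/-!
# Dynamics of the ergodic sphere: Specs, part 4 (the concrete surface)

The surface `X` of `/team-store/MP_d2b992_gt_DYN.md`, section 0.  A point is a pair `(j, n)`,
`j ∈ {0,1,2,3}`, `n = (x, D, c)` a unit vector with `D ≤ 0` for `j` even (near) and `0 ≤ D` for
`j` odd (far).  On `D = 0` two pairs represent the same point; `Can` selects one of them
(corners `|x| = b, |c| = s, D = 0` are excluded).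
-/

set_option autoImplicit false

open MeasureTheory Filter Topology Set
open scoped ContDiff

namespace Pool.Agent.Lib.MP_d2b992_gt.Dyn

open Pool.Agent.Lib.MP_d2b992_gt.T (Tw)

/-- labelled unit vectors -/
abbrev XS : Type := ℤ × V3

/-- Canonical representatives of the points of the surface. -/
def Can (b s : ℝ) (z : XS) : Prop :=
  dot z.2 z.2 = 1 ∧
  ((z.1 = 0 ∨ z.1 = 2) ∧ (z.2.2.1 < 0 ∨ (z.2.2.1 = 0 ∧
      ((|z.2.2.2| < s ∧ z.2.1 < 0) ∨ (s ≤ |z.2.2.2| ∧ |z.2.1| < b ∧ 0 < z.2.2.2)))) ∨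
   (z.1 = 1 ∨ z.1 = 3) ∧ (0 < z.2.2.1 ∨ (z.2.2.1 = 0 ∧
      ((|z.2.2.2| < s ∧ 0 < z.2.1) ∨ (s ≤ |z.2.2.2| ∧ |z.2.1| < b ∧ z.1 = 1)))))

/-- the label of the angle `Θ` -/
noncomputable def lab (Θ : ℝ) : ℤ := ⌊(Θ + Real.pi / 2) / Real.pi⌋ % 4

/-- section of the annulus `|c| < s` -/
noncomputable def secP (Θ c : ℝ) : XS := (lab Θ, nn Θ c)

open Classical in
/-- section of the near annulus `j` (`j = 0, 2`), `|x| < b` -/
noncomputable def secQ (j : ℤ) (κ : V3) : XS :=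
  if κ.2.1 < 0 ∨ (κ.2.1 = 0 ∧ 0 < κ.2.2) then (j, κ) else (j, rho κ)

open Classical in
/-- section of the far annulus `|x| < b` -/
noncomputable def secF (κ : V3) : XS := if 0 ≤ κ.2.1 then (1, κ) else (3, rho κ)

/-- the angle `Θ = j π + θ`, `θ ∈ [-π/2, π/2]`, of a pair `(j, n)` -/
noncomputable def ang (z : XS) : ℝ :=
  (z.1 : ℝ) * Real.pi +
    (if z.1 % 2 = 0 then Complex.arg ⟨-z.2.2.1, z.2.1⟩ else Complex.arg ⟨z.2.2.1, -z.2.1⟩)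

open Classical in
/-- canonical form of a pair with `s ≤ |c|` -/
noncomputable def canC (j : ℤ) (n : V3) : XS :=
  if j % 2 = 0 then secQ j n else if j % 4 = 1 then secF n else secF (rho n)

open Classical in
/-- The map `P` for a twist function `Φ` which is `≡ 0` or `≡ -2π` on `c ≤ -s` and on `s ≤ c`.
`P = PP s F`, `P⁻¹ = PP s (fun c => F (-c))`. -/
noncomputable def PP (s : ℝ) (Φ : ℝ → ℝ) (z : XS) : XS :=
  if |z.2.2.2| < s then secP (Real.pi - ang z - Φ z.2.2.2) (-z.2.2.2)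
  else if Φ z.2.2.2 = 0 then canC ((1 - z.1) % 4) (rho z.2)
  else canC ((3 - z.1) % 4) (rho z.2)

open Classical in
/-- The map `Q` for a twist function `Ψ`; `Q = QQ b G`, `Q⁻¹ = QQ b (-G)`. -/
noncomputable def QQ (b : ℝ) (Ψ : ℝ → ℝ) (z : XS) : XS :=
  if z.1 % 2 = 0 ∧ |z.2.1| < b then secQ z.1 (Kq Ψ z.2) else z

/-- twist functions allowed in `PP` -/
structure TwP (s : ℝ) (Φ : ℝ → ℝ) : Prop where
  smooth : ContDiff ℝ ∞ Φ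
  sym : ∀ c, Φ (-c) = -(2 * Real.pi) - Φ c
  lo : (∀ c, c ≤ -s → Φ c = 0) ∨ (∀ c, c ≤ -s → Φ c = -(2 * Real.pi))
  hi : (∀ c, s ≤ c → Φ c = 0) ∨ (∀ c, s ≤ c → Φ c = -(2 * Real.pi))

/-- twist functions allowed in `QQ` -/
structure TwQ (b : ℝ) (Ψ : ℝ → ℝ) : Prop where
  smooth : ContDiff ℝ ∞ Ψ
  lo : ∀ x, x ≤ -b → Ψ x = 0
  hi : (∀ x, b ≤ x → Ψ x = Real.pi) ∨ (∀ x, b ≤ x → Ψ x = -Real.pi)

/-- SX1: the maps act on canonical states and are inverse to each other. -/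
def SpecSX1 : Prop := ∀ (b s : ℝ) (F G : ℝ → ℝ), Tw b s F G →
  TwP s F ∧ TwP s (fun c => F (-c)) ∧ TwQ b G ∧ TwQ b (fun x => -G x) ∧
  (∀ Φ : ℝ → ℝ, TwP s Φ → ∀ z : XS, Can b s z → Can b s (PP s Φ z)) ∧
  (∀ Ψ : ℝ → ℝ, TwQ b Ψ → ∀ z : XS, Can b s z → Can b s (QQ b Ψ z)) ∧
  (∀ z : XS, Can b s z → PP s (fun c => F (-c)) (PP s F z) = z ∧
    PP s F (PP s (fun c => F (-c)) z) = z) ∧
  (∀ z : XS, Can b s z → QQ b (fun x => -G x) (QQ b G z) = z ∧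
    QQ b G (QQ b (fun x => -G x) z) = z) ∧
  MeasurableSet {z : XS | Can b s z} ∧
  Measurable (PP s F) ∧ Measurable (PP s (fun c => F (-c))) ∧
  Measurable (QQ b G) ∧ Measurable (QQ b (fun x => -G x))

/-- the surface as a type -/
def XX (b s : ℝ) : Type := {z : XS // Can b s z}

instance (b s : ℝ) : MeasurableSpace (XX b s) := Subtype.instMeasurableSpace

/-- the state in `St` of a pair -/
noncomputable def toSt (z : XS) : St := (red (ang z), z.2.2.2)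

/-- the pair of a state in `St` -/
noncomputable def ofSt (w : St) : XS := secP w.1 w.2

/-- the chart of the near square `j` -/
noncomputable def chX (j : Bool) (x c : ℝ) : XS :=
  (if j then 2 else 0, (x, -Real.sqrt (1 - x ^ 2 - c ^ 2), c))

/-- SX2: link with `St`: off a null set `ofSt` is a bijection from `Dom` to the canonical states
conjugating `PP`, `QQ` with `pMap`, `qMap`. -/
def SpecSX2 : Prop := ∀ (b s : ℝ) (F G : ℝ → ℝ), Tw b s F G →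
  Measurable ofSt ∧ Measurable toSt ∧
  (∀ᵐ w ∂muY, Can b s (ofSt w) ∧ toSt (ofSt w) = w ∧
    PP s F (ofSt w) = ofSt (pMap F w) ∧ QQ b G (ofSt w) = ofSt (qMap b G w) ∧
    toSt (PP s F (QQ b G (ofSt w))) = tMap b F G w)

/-- MPP, MPQ: `P` and `Q` preserve the area of `St`. -/
def SpecMPP : Prop := ∀ (b s : ℝ) (F G : ℝ → ℝ), Tw b s F G →
  MeasurePreserving (pMap F) muY muY

def SpecMPQ : Prop := ∀ (b s : ℝ) (F G : ℝ → ℝ), Tw b s F G →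
  MeasurePreserving (qMap b G) muY muY

/-- SX3: area of the images of the charts. -/
def SpecSX3 : Prop := ∀ (b s : ℝ), 0 < b → 0 < s → s ^ 2 + b ^ 2 = 1 →
  (∀ j : Bool, Measurable (fun p : ℝ × ℝ => chX j p.1 p.2)) ∧
  (∀ (j : Bool) (x c : ℝ), |x| < b → |c| < s → Can b s (chX j x c)) ∧
  ChartInj chX b s ∧
  (∀ (j : Bool) (A : Set (ℝ × ℝ)), MeasurableSet A → (∀ p ∈ A, |p.1| < b ∧ |p.2| < s) →
    MeasurableSet ((fun p : ℝ × ℝ => chX j p.1 p.2) '' A) ∧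
    muY (ofSt ⁻¹' ((fun p : ℝ × ℝ => chX j p.1 p.2) '' A)) =
      ∫⁻ p in A, ENNReal.ofReal (1 / Real.sqrt (1 - p.1 ^ 2 - p.2 ^ 2)))

/-- `κ` is a local lift to the sphere of the path of states `z` near the parameter `t`. -/
def Lift (b s : ℝ) (z : ℝ → XS) (κ : ℝ → V3) (t : ℝ) : Prop :=
  ContDiffAt ℝ 2 κ t ∧ (∀ᶠ r in 𝓝 t, dot (κ r) (κ r) = 1) ∧
  ((|(κ t).2.2| < s ∧ ∃ Θ : ℝ → ℝ, ContDiffAt ℝ 2 Θ t ∧
      ∀ᶠ r in 𝓝 t, z r = secP (Θ r) (κ r).2.2 ∧ κ r = nn (Θ r) (κ r).2.2) ∨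
   (|(κ t).1| < b ∧ ∃ j : ℤ, (j = 0 ∨ j = 2) ∧ ∀ᶠ r in 𝓝 t, z r = secQ j (κ r)) ∨
   (|(κ t).1| < b ∧ ((∀ᶠ r in 𝓝 t, z r = secF (κ r)) ∨
      (∀ᶠ r in 𝓝 t, z r = secF (rho (κ r))))))

/-- L1: uniqueness, openness and the points with `D ≠ 0`. -/
def SpecL1 : Prop := ∀ (b s : ℝ), 0 < b → 0 < s → s ^ 2 + b ^ 2 = 1 →
  -- openness
  (∀ (z : ℝ → XS) (κ : ℝ → V3) (t : ℝ), Lift b s z κ t → ∀ᶠ r in 𝓝 t, Lift b s z κ r) ∧
  -- uniqueness up to rho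
  (∀ (z : ℝ → XS) (κ κ' : ℝ → V3) (t : ℝ), Lift b s z κ t → Lift b s z κ' t →
    (∀ᶠ r in 𝓝 t, κ' r = κ r) ∨ (∀ᶠ r in 𝓝 t, κ' r = rho (κ r))) ∧
  -- from a lift to a constant label, D ≠ 0
  (∀ (z : ℝ → XS) (κ : ℝ → V3) (t : ℝ), Lift b s z κ t → (κ t).2.1 ≠ 0 →
    ∃ (j : ℤ) (κ' : ℝ → V3), ((∀ r, κ' r = κ r) ∨ (∀ r, κ' r = rho (κ r))) ∧
      Lift b s z κ' t ∧ (∀ᶠ r in 𝓝 t, z r = (j, κ' r)) ∧
      (((j = 0 ∨ j = 2) ∧ (κ' t).2.1 < 0) ∨ ((j = 1 ∨ j = 3) ∧ 0 < (κ' t).2.1))) ∧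
  -- and conversely, in the annulus chart and in the other charts
  (∀ (z : ℝ → XS) (κ : ℝ → V3) (t : ℝ) (j : ℤ), ContDiffAt ℝ 2 κ t →
    (∀ᶠ r in 𝓝 t, dot (κ r) (κ r) = 1) → (∀ᶠ r in 𝓝 t, z r = (j, κ r)) →
    (((j = 0 ∨ j = 2) ∧ (κ t).2.1 < 0) ∨ ((j = 1 ∨ j = 3) ∧ 0 < (κ t).2.1)) →
    Lift b s z κ t ∧
    (|(κ t).2.2| < s → ∃ Θ : ℝ → ℝ, ContDiffAt ℝ 2 Θ t ∧
      ∀ᶠ r in 𝓝 t, z r = secP (Θ r) (κ r).2.2 ∧ κ r = nn (Θ r) (κ r).2.2))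

/-- STEPP: `P` maps paths to paths. -/
def SpecSTEPP : Prop := ∀ (b s : ℝ) (Φ : ℝ → ℝ), 0 < b → 0 < s → s ^ 2 + b ^ 2 = 1 → TwP s Φ →
  ∀ (z : ℝ → XS) (κ : ℝ → V3) (t : ℝ), (∀ᶠ r in 𝓝 t, Can b s (z r)) → Lift b s z κ t →
    Lift b s (fun r => PP s Φ (z r)) (fun r => rho (Kp Φ (κ r))) t ∨
    Lift b s (fun r => PP s Φ (z r)) (fun r => Kp Φ (κ r)) t

/-- STEPQ: `Q` maps paths to paths; far points are not kicked. -/
def SpecSTEPQ : Prop := ∀ (b s : ℝ) (Ψ : ℝ → ℝ), 0 < b → 0 < s → s ^ 2 + b ^ 2 = 1 → TwQ b Ψ →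
  ∀ (z : ℝ → XS) (κ : ℝ → V3) (t : ℝ), (∀ᶠ r in 𝓝 t, Can b s (z r)) → Lift b s z κ t →
    (Lift b s (fun r => QQ b Ψ (z r)) (fun r => rho (Kq Ψ (κ r))) t ∨
     Lift b s (fun r => QQ b Ψ (z r)) (fun r => Kq Ψ (κ r)) t ∨
     Lift b s (fun r => QQ b Ψ (z r)) κ t) ∧
    -- on near states with `|x| < b` the kick acts
    (((z t).1 = 0 ∨ (z t).1 = 2) → |(z t).2.1| < b →
      Lift b s (fun r => QQ b Ψ (z r)) (fun r => Kq Ψ (κ r)) t)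

end Pool.Agent.Lib.MP_d2b992_gt.Dyn
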