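import Mathlib
import Pool.Agent.Lib.MP_d2b992_gt.Dyn.Spec4

/-!
# Dynamics of the ergodic sphere: Specs, part 5 (paths on the surface, assembly)
-/

set_option autoImplicit false

open MeasureTheory Filter Topology Set
open scoped ContDiff

namespace Pool.Agent.Lib.MP_d2b992_gt.Dyn

open Pool.Agent.Lib.MP_d2b992_gt.T (Tw)

/-- the map `T` on pairs -/
noncomputable def TX (b s : ℝ) (F G : ℝ → ℝ) (z : XS) : XS := PP s F (QQ b G z)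

/-- the inverse map on pairs -/
noncomputable def TX' (b s : ℝ) (F G : ℝ → ℝ) (z : XS) : XS :=
  QQ b (fun x => -G x) (PP s (fun c => F (-c)) z)

/-- CHRT: coordinates of a path in a near square. -/
def SpecCHRT : Prop := ∀ (b s : ℝ), 0 < b → 0 < s → s ^ 2 + b ^ 2 = 1 →
  ∀ (z : ℝ → XS) (κ : ℝ → V3) (t : ℝ) (j : Bool) (x c : ℝ), Lift b s z κ t →
    |x| < b → |c| < s → z t = chX j x c →
    ∃ X C : ℝ → ℝ, X t = x ∧ C t = c ∧ ContDiffAt ℝ 2 X t ∧ ContDiffAt ℝ 2 C t ∧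
      (∀ᶠ r in 𝓝 t, z r = chX j (X r) (C r)) ∧
      vel κ t ^ 2 = deriv X t ^ 2 + deriv C t ^ 2 +
        (x * deriv X t + c * deriv C t) ^ 2 / (1 - x ^ 2 - c ^ 2) ∧
      Nsq b s (κ t) (deriv κ t) = -(deriv X t * deriv C t) / Real.sqrt (1 - x ^ 2 - c ^ 2)

/-- PTH: a short path starting in a near square stays there. -/
def SpecPTH : Prop := ∀ (b s : ℝ), 0 < b → 0 < s → s ^ 2 + b ^ 2 = 1 →
  ∀ (z : ℝ → XS) (v : ℝ → ℝ) (r₁ r₂ δ : ℝ) (j : Bool) (x c : ℝ),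
    (∀ r ∈ uIcc r₁ r₂, ∃ κ : ℝ → V3, Lift b s z κ r) →
    (∀ r ∈ uIcc r₁ r₂, ∀ κ : ℝ → V3, Lift b s z κ r → v r = vel κ r) →
    |x| + δ < b → |c| + δ < s → z r₁ = chX j x c → |∫ r in r₁..r₂, v r| ≤ δ →
    ∀ r ∈ uIcc r₁ r₂, ∃ x' c' : ℝ, |x' - x| ≤ δ ∧ |c' - c| ≤ δ ∧ z r = chX j x' c'

/-- INI: horizontal and vertical segments in a near square. -/
def SpecINI : Prop := ∀ (b s x1 c1 : ℝ), 0 < b → 0 < s → s ^ 2 + b ^ 2 = 1 → 0 < x1 → x1 < b →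
  0 < c1 → c1 < s → ∃ C : ℝ, 1 ≤ C ∧ ∀ (j : Bool) (x0 c0 : ℝ),
    (|c0| ≤ c1 → ∃ κ : ℝ → V3,
      (∀ σ : ℝ, |x0 + σ| < b → Lift b s (fun r => chX j (x0 + r) c0) κ σ ∧
        deriv κ σ ≠ 0 ∧ Nsq b s (κ σ) (deriv κ σ) = 0) ∧
      (∀ σ : ℝ, |x0 + σ| ≤ x1 → 1 ≤ vel κ σ ∧ vel κ σ ≤ C ∧ |crv κ σ| ≤ C ∧
        ∃ d : ℝ, HasDerivAt (fun r => Real.log (vel κ r)) d σ ∧ |d| ≤ C)) ∧
    (|x0| ≤ x1 → ∃ κ : ℝ → V3,
      (∀ σ : ℝ, |c0 + σ| < s → Lift b s (fun r => chX j x0 (c0 + r)) κ σ ∧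
        deriv κ σ ≠ 0 ∧ Nsq b s (κ σ) (deriv κ σ) = 0) ∧
      (∀ σ : ℝ, |c0 + σ| ≤ c1 → 1 ≤ vel κ σ ∧ vel κ σ ≤ C ∧ |crv κ σ| ≤ C ∧
        ∃ d : ℝ, HasDerivAt (fun r => Real.log (vel κ r)) d σ ∧ |d| ≤ C))

/-- EVO: evolution of horizontal segments under `T` and of vertical segments under `T⁻¹`
(from JET, NORM, L1, STEPP, STEPQ, CHRT, PTH, INI, SX1). -/
def SpecEVO : Prop := ∀ (b s : ℝ) (F G : ℝ → ℝ), Tw b s F G → ∀ x1 c1 : ℝ, 0 < x1 → x1 < b →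
  0 < c1 → c1 < s → ∃ C η : ℝ, 1 ≤ C ∧ 0 < η ∧
    EvoAx (TX b s F G) chX b s (-1) x1 c1 C η ∧
    EvoAx (TX' b s F G) (flp chX) s b 1 c1 x1 C η

/-- CRS: the crossing determinant (from DETK, L1, STEPP, STEPQ, CHRT, INI, SX1). -/
def SpecCRS : Prop := ∀ (b s : ℝ) (F G : ℝ → ℝ), Tw b s F G →
  CrossAx (TX b s F G) (TX' b s F G) chX b s

/-- the near square region of `St` (both squares) -/
def nearSq (b s : ℝ) : Set St :=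
  {w | 0 < Real.cos w.1 ∧ |Real.sqrt (1 - w.2 ^ 2) * Real.sin w.1| < b ∧ |w.2| < s}

/-- VIS (section 8): almost every orbit visits the near squares. -/
def SpecVIS : Prop := ∀ (b s : ℝ) (F G : ℝ → ℝ), Tw b s F G →
  ∀ᵐ w ∂muY, ∃ n : ℕ, (tMap b F G)^[n] w ∈ nearSq b s

/-- S02 (section 8): a part of the square `0` is mapped into the square `2`. -/
def SpecS02 : Prop := ∀ (b s : ℝ) (F G : ℝ → ℝ), Tw b s F G →
  0 < muY {w | w ∈ nearSq b s ∧ 0 < Real.cos (w.1 / 2) ∧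
    tMap b F G w ∈ nearSq b s ∧ Real.cos ((tMap b F G w).1 / 2) < 0}

/-- SYS: the abstract system exists. -/
def SpecSYS : Prop := ∀ (b s : ℝ) (F G : ℝ → ℝ), Tw b s F G →
  ∃ (X : Type) (_ : MeasurableSpace X) (μ : Measure X) (T : X ≃ᵐ X) (e : Bool → ℝ → ℝ → X)
    (π : X → St), IsSys μ T e b s ∧ MeasurePreserving π μ muY ∧
    (∀ᵐ z ∂μ, π (T z) = tMap b F G (π z)) ∧ Measurable (tMap b F G)

/-- ERG: the dynamics theorem. -/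
def SpecERG : Prop := ∀ (b s : ℝ) (F G : ℝ → ℝ), Tw b s F G →
  MeasurePreserving (tMap b F G) muY muY ∧
  ∀ A : Set St, MeasurableSet A → (tMap b F G) ⁻¹' A =ᵐ[muY] A → muY A = 0 ∨ muY Aᶜ = 0

end Pool.Agent.Lib.MP_d2b992_gt.Dyn
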