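import Pool.Agent.Lib.MP_d2b992_gt.Dyn.Spec5
import Mathlib
import Pool.Agent.Lib.MP_d2b992_gt.Dyn.Spec4

section
/-!
# Dynamics of the ergodic sphere: module CHRT (coordinates of a path in a near square)
-/
set_option autoImplicit false

open MeasureTheory Filter Topology Set
open scoped ContDiff

namespace Pool.Agent.Lib.MP_d2b992_gt.Dyn.ChrtM

theorem rho_rho (n : V3) : rho (rho n) = n := by
  simp [rho]

/-- the vector of a path is its lift up to `rho` -/
theorem lift_snd (b s : ℝ) (z : ℝ → XS) (κ : ℝ → V3) (t : ℝ) (h : Lift b s z κ t) :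
    (z t).2 = κ t ∨ (z t).2 = rho (κ t) := by
  obtain ⟨-, -, h⟩ := h
  rcases h with ⟨-, Θ, -, h⟩ | ⟨-, j, -, h⟩ | ⟨-, h | h⟩
  · have hr := h.self_of_nhds
    left
    rw [hr.1]
    exact hr.2.symm
  · have hr := h.self_of_nhds
    rw [hr]
    unfold secQ
    split_ifs
    · exact Or.inl rfl
    · exact Or.inr rfl
  · have hr := h.self_of_nhds
    rw [hr]
    unfold secF
    split_ifs
    · exact Or.inl rfl
    · exact Or.inr rfl
  · have hr := h.self_of_nhds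
    rw [hr]
    unfold secF
    split_ifs
    · exact Or.inr rfl
    · exact Or.inl (rho_rho _)

/-- a unit vector with `D < 0` in terms of `x`, `c` -/
theorem eq_chart (n : V3) (h1 : dot n n = 1) (h2 : n.2.1 < 0) :
    n = (n.1, -Real.sqrt (1 - n.1 ^ 2 - n.2.2 ^ 2), n.2.2) := by
  have h3 : 1 - n.1 ^ 2 - n.2.2 ^ 2 = (-n.2.1) ^ 2 := by
    unfold dot at h1
    nlinarith
  rw [h3, Real.sqrt_sq (by linarith), neg_neg]

/-- the cone form on the squares -/
theorem Nsq_square (b s : ℝ) (hb : 0 < b) (hs : 0 < s) (hbs : s ^ 2 + b ^ 2 = 1) (n m : V3)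
    (hn : dot n n = 1) (hm : dot n m = 0) (hc : |n.2.2| < s) (hx : |n.1| < b) :
    Nsq b s n m = m.1 * m.2.2 / n.2.1 := by
  obtain ⟨n1, n2, n3⟩ := n
  obtain ⟨m1, m2, m3⟩ := m
  simp only [dot] at hn hm
  simp only at hc hx
  have h1 : n3 ^ 2 < s ^ 2 := by
    rw [← sq_abs n3]
    have := abs_nonneg n3
    gcongr
  have h2 : n1 ^ 2 < b ^ 2 := by
    rw [← sq_abs n1]
    have := abs_nonneg n1
    gcongr
  have h3 : s ^ 2 - n3 ^ 2 < n2 ^ 2 := by nlinarith
  have h4 : n2 ≠ 0 := by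
    rintro rfl
    nlinarith
  have h5 : 1 - n3 ^ 2 ≠ 0 := by nlinarith
  unfold Nsq NsqP
  simp only
  rw [if_pos hc, max_eq_left h3.le]
  rw [div_eq_div_iff h5 h4]
  field_simp
  have h6 : n1 ^ 2 + n2 ^ 2 = 1 - n3 ^ 2 := by nlinarith
  have h7 : n1 * (n1 * m1 + n2 * m2 + n3 * m3) = 0 := by rw [hm, mul_zero]
  linear_combination (-m3) * h7 + (m1 * m3) * h6

end Pool.Agent.Lib.MP_d2b992_gt.Dyn.ChrtM

namespace Pool.Agent.Lib.MP_d2b992_gt.Dyn

open ChrtM in
/-- CHRT: coordinates of a path in a near square. -/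
theorem specCHRT (hL1 : SpecL1) : SpecCHRT := by
  intro b s hb hs hbs z κ t j x c hL hx hc hz
  have hx2 : x ^ 2 < b ^ 2 := by
    rw [← sq_abs x]
    have := abs_nonneg x
    gcongr
  have hc2 : c ^ 2 < s ^ 2 := by
    rw [← sq_abs c]
    have := abs_nonneg c
    gcongr
  have hpos : 0 < 1 - x ^ 2 - c ^ 2 := by linarith
  have hsq : 0 < Real.sqrt (1 - x ^ 2 - c ^ 2) := Real.sqrt_pos.2 hpos
  have hzt : (z t).2 = (x, -Real.sqrt (1 - x ^ 2 - c ^ 2), c) := by rw [hz]; rfl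
  have hD : (κ t).2.1 ≠ 0 := by
    intro h0
    rcases lift_snd b s z κ t hL with h | h
    · rw [hzt] at h
      have h2 := congrArg (fun n : V3 => n.2.1) h
      simp only at h2
      rw [h0] at h2
      linarith
    · rw [hzt] at h
      have h2 := congrArg (fun n : V3 => n.2.1) h
      simp only [rho] at h2
      rw [h0] at h2
      linarith
  obtain ⟨j0, κ', hκ', hL', hz', hsg⟩ := (hL1 b s hb hs hbs).2.2.1 z κ t hL hD
  have hzt' := hz'.self_of_nhds
  rw [hz] at hzt'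
  have hj0 : j0 = if j then 2 else 0 := (congrArg Prod.fst hzt').symm
  have hκt : κ' t = (x, -Real.sqrt (1 - x ^ 2 - c ^ 2), c) := (congrArg Prod.snd hzt').symm
  have hneg : (κ' t).2.1 < 0 := by
    rw [hκt]
    simpa using hsq
  have hcd := hL'.1
  have hcont : ContinuousAt κ' t := hcd.continuousAt
  have hneg' : ∀ᶠ r in 𝓝 t, (κ' r).2.1 < 0 := by
    have h2 : ContinuousAt (fun r => (κ' r).2.1) t := by fun_prop
    exact h2.eventually_lt_const hneg
  have hd : HasDerivAt κ' (deriv κ' t) t := (hcd.differentiableAt (by norm_num)).hasDerivAt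
  have hd1 : HasDerivAt (fun r => (κ' r).1) (deriv κ' t).1 t :=
    (ContinuousLinearMap.fst ℝ ℝ (ℝ × ℝ)).hasFDerivAt.comp_hasDerivAt t hd
  have hd2 : HasDerivAt (fun r => (κ' r).2.1) (deriv κ' t).2.1 t :=
    ((ContinuousLinearMap.fst ℝ ℝ ℝ).comp
      (ContinuousLinearMap.snd ℝ ℝ (ℝ × ℝ))).hasFDerivAt.comp_hasDerivAt t hd
  have hd3 : HasDerivAt (fun r => (κ' r).2.2) (deriv κ' t).2.2 t :=
    ((ContinuousLinearMap.snd ℝ ℝ ℝ).comp
      (ContinuousLinearMap.snd ℝ ℝ (ℝ × ℝ))).hasFDerivAt.comp_hasDerivAt t hd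
  have hdot : dot (κ' t) (deriv κ' t) = 0 := by
    have h1 : HasDerivAt (fun r => dot (κ' r) (κ' r))
        (((deriv κ' t).1 * (κ' t).1 + (κ' t).1 * (deriv κ' t).1) +
          ((deriv κ' t).2.1 * (κ' t).2.1 + (κ' t).2.1 * (deriv κ' t).2.1) +
          ((deriv κ' t).2.2 * (κ' t).2.2 + (κ' t).2.2 * (deriv κ' t).2.2)) t :=
      ((hd1.mul hd1).add (hd2.mul hd2)).add (hd3.mul hd3)
    have h2 : (fun r => dot (κ' r) (κ' r)) =ᶠ[𝓝 t] fun _ => (1 : ℝ) := hL'.2.1
    have h3 := h1.deriv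
    rw [h2.deriv_eq, deriv_const] at h3
    unfold dot
    linarith
  have hone : dot (κ' t) (κ' t) = 1 := hL'.2.1.self_of_nhds
  refine ⟨fun r => (κ' r).1, fun r => (κ' r).2.2, ?_, ?_, ?_, ?_, ?_, ?_, ?_⟩
  · simp only [hκt]
  · simp only [hκt]
  · exact hcd.fst
  · exact hcd.snd.snd
  · filter_upwards [hneg', hL'.2.1, hz'] with r h1 h2 h3
    rw [h3, hj0]
    unfold chX
    rw [← eq_chart (κ' r) h2 h1]
  · rw [hd1.deriv, hd3.deriv]
    have hvel : vel κ t = vel κ' t := by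
      rcases hκ' with h | h
      · have : κ' = κ := funext h
        rw [this]
      · have h4 : κ = fun r => rho (κ' r) := by
          funext r
          rw [h r, rho_rho]
        have h5 : deriv κ t = rho (deriv κ' t) := by
          rw [h4]
          exact (hd1.prodMk (hd2.neg.prodMk hd3.neg)).deriv
        unfold vel
        rw [h5]
        unfold dot rho
        congr 1
        ring
    rw [hvel]
    unfold vel
    rw [Real.sq_sqrt]
    · have h6 : (κ' t).2.1 * (deriv κ' t).2.1 =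
          -(x * (deriv κ' t).1 + c * (deriv κ' t).2.2) := by
        unfold dot at hdot
        rw [hκt] at hdot ⊢
        simp only at hdot ⊢
        linarith
      have h7 : (κ' t).2.1 ^ 2 = 1 - x ^ 2 - c ^ 2 := by
        rw [hκt]
        simp only
        rw [neg_sq, Real.sq_sqrt hpos.le]
      have h8 : (deriv κ' t).2.1 ^ 2 =
          (x * (deriv κ' t).1 + c * (deriv κ' t).2.2) ^ 2 / (1 - x ^ 2 - c ^ 2) := by
        rw [eq_div_iff hpos.ne', ← h7, ← mul_pow, mul_comm, h6, neg_sq]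
      unfold dot
      rw [← h8]
      ring
    · unfold dot
      nlinarith [sq_nonneg (deriv κ' t).1, sq_nonneg (deriv κ' t).2.1, sq_nonneg (deriv κ' t).2.2]
  · rw [hd1.deriv, hd3.deriv]
    rcases hκ' with h | h
    · have h9 : κ' = κ := funext h
      rw [← h9, Nsq_square b s hb hs hbs _ _ hone hdot (by rw [hκt]; exact hc)
        (by rw [hκt]; exact hx), hκt]
      simp only
      rw [div_neg, neg_div]
    · have h4 : κ = fun r => rho (κ' r) := by
        funext r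
        rw [h r, rho_rho]
      have h5 : deriv κ t = rho (deriv κ' t) := by
        rw [h4]
        exact (hd1.prodMk (hd2.neg.prodMk hd3.neg)).deriv
      have h10 : κ t = rho (κ' t) := by rw [h4]
      rw [h5, h10, Nsq_square b s hb hs hbs]
      · simp only [rho, hκt]
        rw [neg_neg, mul_neg]
      · rw [← hone]
        unfold dot rho
        ring
      · rw [← hdot]
        unfold dot rho
        ring
      · rw [hκt]
        simp only [rho, abs_neg]
        exact hc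
      · rw [hκt]
        simp only [rho]
        exact hx

end Pool.Agent.Lib.MP_d2b992_gt.Dyn
end

section
/-!
# Module INI: horizontal and vertical segments in a near square
-/
set_option autoImplicit false

open MeasureTheory Filter Topology Set
open scoped ContDiff

namespace Pool.Agent.Lib.MP_d2b992_gt.Dyn

namespace IniM

/-- the function `w = A - (a + r)²` -/
def W (w : ℝ → ℝ) (A a : ℝ) : Prop := ∀ r, w r = A - (a + r) ^ 2

variable {w : ℝ → ℝ} {A a : ℝ}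

theorem W.hasDerivAt (h : W w A a) (σ : ℝ) : HasDerivAt w (-(2 * (a + σ))) σ := by
  have h1 : w = fun r => A - (a + r) ^ 2 := funext h
  rw [h1]
  have h2 : HasDerivAt (fun r : ℝ => a + r) 1 σ := (hasDerivAt_id σ).const_add a
  have h3 := (h2.pow 2).const_sub A
  exact h3.congr_deriv (by ring)

theorem W.contDiff (h : W w A a) : ContDiff ℝ 2 w := by
  have h1 : w = fun r => A - (a + r) ^ 2 := funext h
  rw [h1]
  fun_prop

theorem W.continuous (h : W w A a) : Continuous w := h.contDiff.continuous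

theorem W.ev (h : W w A a) {σ : ℝ} (hσ : 0 < w σ) : ∀ᶠ r in 𝓝 σ, 0 < w r :=
  h.continuous.continuousAt.eventually (lt_mem_nhds hσ)

theorem W.sqrt_deriv (h : W w A a) {σ : ℝ} (hσ : 0 < w σ) :
    HasDerivAt (fun r => -Real.sqrt (w r)) ((a + σ) / Real.sqrt (w σ)) σ := by
  have h1 := ((h.hasDerivAt σ).sqrt hσ.ne').neg
  have h2 : Real.sqrt (w σ) ≠ 0 := (Real.sqrt_pos.2 hσ).ne'
  exact h1.congr_deriv (by field_simp)

theorem W.sqrt_contDiffAt (h : W w A a) {σ : ℝ} (hσ : 0 < w σ) :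
    ContDiffAt ℝ 2 (fun r => -Real.sqrt (w r)) σ :=
  ((h.contDiff.contDiffAt).sqrt hσ.ne').neg

theorem W.second (h : W w A a) {σ : ℝ} (hσ : 0 < w σ) :
    HasDerivAt (fun r => (a + r) / Real.sqrt (w r)) (A / (w σ * Real.sqrt (w σ))) σ := by
  have h2 : HasDerivAt (fun r : ℝ => a + r) 1 σ := (hasDerivAt_id σ).const_add a
  have h3 : 0 < Real.sqrt (w σ) := Real.sqrt_pos.2 hσ
  have h1 := h2.div ((h.hasDerivAt σ).sqrt hσ.ne') h3.ne'
  refine h1.congr_deriv ?_
  have h4 : Real.sqrt (w σ) ^ 2 = w σ := Real.sq_sqrt hσ.le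
  have h5 : A = w σ + (a + σ) ^ 2 := by rw [h σ]; ring
  have key : ∀ S : ℝ, 0 < S → S ^ 2 = w σ →
      (1 * S - (a + σ) * (-(2 * (a + σ)) / (2 * S))) / S ^ 2 = A / (w σ * S) := by
    intro S hS hS2
    rw [h5, ← hS2]
    field_simp
    ring
  exact key _ h3 h4

/-- `vel ^ 2` -/
theorem W.velsq (h : W w A a) {σ : ℝ} (hσ : 0 < w σ) :
    1 + ((a + σ) / Real.sqrt (w σ)) ^ 2 = A / w σ := by
  have h4 : Real.sqrt (w σ) ^ 2 = w σ := Real.sq_sqrt hσ.le
  rw [div_pow, h4, h σ]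
  have h5 : A - (a + σ) ^ 2 ≠ 0 := by rw [← h σ]; exact hσ.ne'
  field_simp
  ring

theorem W.Apos (h : W w A a) {σ : ℝ} (hσ : 0 < w σ) : 0 < A := by
  have := h σ
  nlinarith [sq_nonneg (a + σ)]

theorem W.logvel (h : W w A a) {σ : ℝ} (hσ : 0 < w σ) {f : ℝ → ℝ}
    (hf : ∀ r, 0 < w r → f r = Real.sqrt (A / w r)) :
    HasDerivAt (fun r => Real.log (f r)) ((a + σ) / w σ) σ := by
  have h1 : HasDerivAt (fun r => (Real.log A - Real.log (w r)) / 2) ((a + σ) / w σ) σ := by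
    have h2 := (((h.hasDerivAt σ).log hσ.ne').const_sub (Real.log A)).div_const 2
    exact h2.congr_deriv (by field_simp)
  refine h1.congr_of_eventuallyEq ?_
  filter_upwards [h.ev hσ] with r hr
  rw [hf r hr, Real.log_sqrt (div_pos (h.Apos hr) hr).le, Real.log_div (h.Apos hr).ne' hr.ne']

/-- bounds -/
theorem bounds {D0 x : ℝ} (hD : 0 < D0) (hD1 : D0 ≤ 1) (hA0 : 0 < A) (hA : A ≤ 1) {y k : ℝ}
    (hy : D0 ≤ y) (hyA : y ≤ A) (hx : |x| ≤ 1) (hk : |k| ≤ 1) :
    1 ≤ Real.sqrt (A / y) ∧ Real.sqrt (A / y) ≤ 1 / D0 ^ 2 ∧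
      |k * (A / (y * Real.sqrt y))| ≤ 1 / D0 ^ 2 ∧ |x / y| ≤ 1 / D0 ^ 2 := by
  have hy0 : 0 < y := lt_of_lt_of_le hD hy
  have hD2 : 1 ≤ 1 / D0 := by rw [le_div_iff₀ hD]; linarith
  have hD3 : 1 / D0 ≤ 1 / D0 ^ 2 := by
    apply one_div_le_one_div_of_le (by positivity)
    nlinarith
  have h1 : A / y ≤ 1 / D0 := by
    rw [div_le_div_iff₀ hy0 hD]
    nlinarith
  have h2 : 1 ≤ A / y := by rw [le_div_iff₀ hy0]; linarith
  refine ⟨?_, ?_, ?_, ?_⟩
  · rw [show (1 : ℝ) = Real.sqrt 1 by simp]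
    exact Real.sqrt_le_sqrt h2
  · refine le_trans ?_ hD3
    rw [Real.sqrt_le_left (by positivity)]
    refine le_trans h1 ?_
    rw [div_pow, one_pow]
    exact hD3
  · have hsy : D0 ≤ Real.sqrt y := (Real.le_sqrt' hD).2 (by nlinarith)
    rw [abs_mul, abs_of_nonneg (a := A / (y * Real.sqrt y))
      (div_nonneg hA0.le (mul_nonneg hy0.le (Real.sqrt_nonneg y)))]
    have h3 : A / (y * Real.sqrt y) ≤ 1 / D0 ^ 2 := by
      rw [div_le_div_iff₀ (by positivity) (by positivity)]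
      have h4 : D0 ^ 2 ≤ y * Real.sqrt y := by
        rw [sq]
        exact mul_le_mul hy hsy hD.le hy0.le
      have h5 : 0 ≤ D0 ^ 2 := by positivity
      nlinarith
    have h4 : 0 ≤ A / (y * Real.sqrt y) := by positivity
    calc |k| * (A / (y * Real.sqrt y)) ≤ 1 * (A / (y * Real.sqrt y)) :=
          mul_le_mul_of_nonneg_right hk h4
      _ ≤ 1 / D0 ^ 2 := by rw [one_mul]; exact h3
  · rw [abs_div, abs_of_pos hy0]
    refine le_trans ?_ hD3
    rw [div_le_div_iff₀ hy0 hD]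
    nlinarith [abs_nonneg x]

theorem secQ_neg {j : ℤ} {κ : V3} (h : κ.2.1 < 0) : secQ j κ = (j, κ) := by
  unfold secQ
  rw [if_pos (Or.inl h)]

theorem chX_eq (j : Bool) (x c : ℝ) (h : 0 < 1 - x ^ 2 - c ^ 2) :
    chX j x c = secQ (if j then 2 else 0) (x, -Real.sqrt (1 - x ^ 2 - c ^ 2), c) := by
  rw [secQ_neg]
  · unfold chX
    rfl
  · have := Real.sqrt_pos.2 h
    simpa using this

theorem pos_of {b s x c : ℝ} (hbs : s ^ 2 + b ^ 2 = 1) (hx : |x| < b) (hc : |c| < s) :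
    0 < 1 - x ^ 2 - c ^ 2 := by
  have h1 : x ^ 2 < b ^ 2 := sq_lt_sq' (by linarith [neg_abs_le x]) (by linarith [le_abs_self x])
  have h2 : c ^ 2 < s ^ 2 := sq_lt_sq' (by linarith [neg_abs_le c]) (by linarith [le_abs_self c])
  linarith

/-- horizontal curve -/
noncomputable def kh (x0 c0 : ℝ) (r : ℝ) : V3 :=
  (x0 + r, -Real.sqrt (1 - (x0 + r) ^ 2 - c0 ^ 2), c0)

/-- vertical curve -/
noncomputable def kv (x0 c0 : ℝ) (r : ℝ) : V3 :=
  (x0, -Real.sqrt (1 - x0 ^ 2 - (c0 + r) ^ 2), c0 + r)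

theorem Wh (x0 c0 : ℝ) : W (fun r => 1 - (x0 + r) ^ 2 - c0 ^ 2) (1 - c0 ^ 2) x0 :=
  fun r => by ring

theorem Wv (x0 c0 : ℝ) : W (fun r => 1 - x0 ^ 2 - (c0 + r) ^ 2) (1 - x0 ^ 2) c0 :=
  fun r => by ring

theorem kh_deriv {x0 c0 σ : ℝ} (h : 0 < 1 - (x0 + σ) ^ 2 - c0 ^ 2) :
    HasDerivAt (kh x0 c0) (1, (x0 + σ) / Real.sqrt (1 - (x0 + σ) ^ 2 - c0 ^ 2), 0) σ := by
  have h2 : HasDerivAt (fun r : ℝ => x0 + r) 1 σ := (hasDerivAt_id σ).const_add x0
  exact h2.prodMk (((Wh x0 c0).sqrt_deriv (σ := σ) h).prodMk (hasDerivAt_const σ c0))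

theorem kv_deriv {x0 c0 σ : ℝ} (h : 0 < 1 - x0 ^ 2 - (c0 + σ) ^ 2) :
    HasDerivAt (kv x0 c0) (0, (c0 + σ) / Real.sqrt (1 - x0 ^ 2 - (c0 + σ) ^ 2), 1) σ := by
  have h2 : HasDerivAt (fun r : ℝ => c0 + r) 1 σ := (hasDerivAt_id σ).const_add c0
  exact (hasDerivAt_const σ x0).prodMk (((Wv x0 c0).sqrt_deriv (σ := σ) h).prodMk h2)

theorem kh_deriv2 {x0 c0 σ : ℝ} (h : 0 < 1 - (x0 + σ) ^ 2 - c0 ^ 2) :
    deriv (deriv (kh x0 c0)) σ = (0, (1 - c0 ^ 2) /
      ((1 - (x0 + σ) ^ 2 - c0 ^ 2) * Real.sqrt (1 - (x0 + σ) ^ 2 - c0 ^ 2)), 0) := by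
  have h1 : deriv (kh x0 c0) =ᶠ[𝓝 σ]
      fun r => (1, (x0 + r) / Real.sqrt (1 - (x0 + r) ^ 2 - c0 ^ 2), 0) := by
    filter_upwards [(Wh x0 c0).ev (σ := σ) h] with r hr
    exact (kh_deriv hr).deriv
  rw [h1.deriv_eq]
  exact ((hasDerivAt_const σ (1 : ℝ)).prodMk
    (((Wh x0 c0).second (σ := σ) h).prodMk (hasDerivAt_const σ (0 : ℝ)))).deriv

theorem kv_deriv2 {x0 c0 σ : ℝ} (h : 0 < 1 - x0 ^ 2 - (c0 + σ) ^ 2) :
    deriv (deriv (kv x0 c0)) σ = (0, (1 - x0 ^ 2) /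
      ((1 - x0 ^ 2 - (c0 + σ) ^ 2) * Real.sqrt (1 - x0 ^ 2 - (c0 + σ) ^ 2)), 0) := by
  have h1 : deriv (kv x0 c0) =ᶠ[𝓝 σ]
      fun r => (0, (c0 + r) / Real.sqrt (1 - x0 ^ 2 - (c0 + r) ^ 2), 1) := by
    filter_upwards [(Wv x0 c0).ev (σ := σ) h] with r hr
    exact (kv_deriv hr).deriv
  rw [h1.deriv_eq]
  exact ((hasDerivAt_const σ (0 : ℝ)).prodMk
    (((Wv x0 c0).second (σ := σ) h).prodMk (hasDerivAt_const σ (1 : ℝ)))).deriv

theorem kh_vel {x0 c0 σ : ℝ} (h : 0 < 1 - (x0 + σ) ^ 2 - c0 ^ 2) :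
    vel (kh x0 c0) σ = Real.sqrt ((1 - c0 ^ 2) / (1 - (x0 + σ) ^ 2 - c0 ^ 2)) := by
  rw [vel, (kh_deriv h).deriv]
  congr 1
  have := (Wh x0 c0).velsq (σ := σ) h
  simp only [dot]
  rw [← this]
  ring

theorem kv_vel {x0 c0 σ : ℝ} (h : 0 < 1 - x0 ^ 2 - (c0 + σ) ^ 2) :
    vel (kv x0 c0) σ = Real.sqrt ((1 - x0 ^ 2) / (1 - x0 ^ 2 - (c0 + σ) ^ 2)) := by
  rw [vel, (kv_deriv h).deriv]
  congr 1
  have := (Wv x0 c0).velsq (σ := σ) h
  simp only [dot]
  rw [← this]
  ring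

theorem kh_lift {b s x0 c0 σ : ℝ} (j : Bool) (hbs : s ^ 2 + b ^ 2 = 1) (hx : |x0 + σ| < b)
    (hc : |c0| < s) : Lift b s (fun r => chX j (x0 + r) c0) (kh x0 c0) σ := by
  have h := pos_of hbs hx hc
  have hW := Wh x0 c0
  refine ⟨?_, ?_, Or.inr (Or.inl ⟨hx, (if j then 2 else 0), ?_, ?_⟩)⟩
  · exact (contDiffAt_const.add contDiffAt_id).prodMk
      ((hW.sqrt_contDiffAt (σ := σ) h).prodMk contDiffAt_const)
  · filter_upwards [hW.ev (σ := σ) h] with r hr
    have h1 := Real.sq_sqrt hr.le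
    simp only [kh, dot]
    nlinarith
  · cases j <;> simp
  · filter_upwards [hW.ev (σ := σ) h] with r hr
    exact chX_eq j _ _ hr

theorem kv_lift {b s x0 c0 σ : ℝ} (j : Bool) (hbs : s ^ 2 + b ^ 2 = 1) (hx : |x0| < b)
    (hc : |c0 + σ| < s) : Lift b s (fun r => chX j x0 (c0 + r)) (kv x0 c0) σ := by
  have h := pos_of hbs hx hc
  have hW := Wv x0 c0
  refine ⟨?_, ?_, Or.inr (Or.inl ⟨hx, (if j then 2 else 0), ?_, ?_⟩)⟩
  · exact contDiffAt_const.prodMk
      ((hW.sqrt_contDiffAt (σ := σ) h).prodMk (contDiffAt_const.add contDiffAt_id))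
  · filter_upwards [hW.ev (σ := σ) h] with r hr
    have h1 := Real.sq_sqrt hr.le
    simp only [kv, dot]
    nlinarith
  · cases j <;> simp
  · filter_upwards [hW.ev (σ := σ) h] with r hr
    exact chX_eq j _ _ hr

theorem kh_nsq {b s x0 c0 σ : ℝ} (hbs : s ^ 2 + b ^ 2 = 1) (hx : |x0 + σ| < b)
    (hc : |c0| < s) : Nsq b s (kh x0 c0 σ) (deriv (kh x0 c0) σ) = 0 := by
  have h := pos_of hbs hx hc
  rw [(kh_deriv h).deriv, Nsq, if_pos (show |(kh x0 c0 σ).2.2| < s from hc), NsqP]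
  simp

theorem kv_nsq {b s x0 c0 σ : ℝ} (hbs : s ^ 2 + b ^ 2 = 1) (hx : |x0| < b)
    (hc : |c0 + σ| < s) : Nsq b s (kv x0 c0 σ) (deriv (kv x0 c0) σ) = 0 := by
  have h := pos_of hbs hx hc
  rw [(kv_deriv h).deriv, Nsq, if_pos (show |(kv x0 c0 σ).2.2| < s from hc), NsqP]
  have h1 : (kv x0 c0 σ).2.1 ^ 2 = 1 - x0 ^ 2 - (c0 + σ) ^ 2 := by
    simp only [kv, neg_sq]
    exact Real.sq_sqrt h.le
  have h2 : max ((kv x0 c0 σ).2.1 ^ 2) (s ^ 2 - (kv x0 c0 σ).2.2 ^ 2) =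
      1 - x0 ^ 2 - (c0 + σ) ^ 2 := by
    rw [h1]
    apply max_eq_left
    have h3 : x0 ^ 2 < b ^ 2 :=
      sq_lt_sq' (by linarith [neg_abs_le x0]) (by linarith [le_abs_self x0])
    simp only [kv]
    linarith
  rw [h2]
  simp only [kv]
  have h3 := Real.sqrt_pos.2 h
  have h4 := Real.sq_sqrt h.le
  set S := Real.sqrt (1 - x0 ^ 2 - (c0 + σ) ^ 2) with hS
  rw [← h4]
  field_simp
  ring

theorem kh_crv {x0 c0 σ : ℝ} (h : 0 < 1 - (x0 + σ) ^ 2 - c0 ^ 2) :
    crv (kh x0 c0) σ = c0 * ((1 - c0 ^ 2) /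
      ((1 - (x0 + σ) ^ 2 - c0 ^ 2) * Real.sqrt (1 - (x0 + σ) ^ 2 - c0 ^ 2))) := by
  rw [crv, kh_deriv2 h, (kh_deriv h).deriv]
  simp [det3, kh]

theorem kv_crv {x0 c0 σ : ℝ} (h : 0 < 1 - x0 ^ 2 - (c0 + σ) ^ 2) :
    crv (kv x0 c0) σ = (-x0) * ((1 - x0 ^ 2) /
      ((1 - x0 ^ 2 - (c0 + σ) ^ 2) * Real.sqrt (1 - x0 ^ 2 - (c0 + σ) ^ 2))) := by
  rw [crv, kv_deriv2 h, (kv_deriv h).deriv]
  simp [det3, kv]

end IniM

open IniM in
theorem specINI : SpecINI := by
  intro b s x1 c1 hb hs hbs hx1 hx1b hc1 hc1s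
  have hD : 0 < 1 - x1 ^ 2 - c1 ^ 2 := by
    apply pos_of hbs
    · rw [abs_of_pos hx1]; exact hx1b
    · rw [abs_of_pos hc1]; exact hc1s
  set D0 := 1 - x1 ^ 2 - c1 ^ 2 with hD0
  have hD1 : D0 ≤ 1 := by rw [hD0]; nlinarith [sq_nonneg x1, sq_nonneg c1]
  refine ⟨1 / D0 ^ 2, ?_, fun j x0 c0 => ⟨fun hc => ⟨kh x0 c0, ?_, ?_⟩,
    fun hx => ⟨kv x0 c0, ?_, ?_⟩⟩⟩
  · rw [le_div_iff₀ (by positivity)]
    nlinarith
  · intro σ hσ
    have hc' : |c0| < s := lt_of_le_of_lt hc hc1s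
    have h := pos_of hbs hσ hc'
    refine ⟨kh_lift j hbs hσ hc', ?_, kh_nsq hbs hσ hc'⟩
    rw [(kh_deriv h).deriv]
    intro h0
    exact one_ne_zero (congrArg Prod.fst h0)
  · intro σ hσ
    have hc' : |c0| < s := lt_of_le_of_lt hc hc1s
    have hx' : |x0 + σ| < b := lt_of_le_of_lt hσ hx1b
    have h := pos_of hbs hx' hc'
    have hxs : (x0 + σ) ^ 2 ≤ x1 ^ 2 := sq_le_sq' (by linarith [neg_abs_le (x0 + σ)])
      (by linarith [le_abs_self (x0 + σ)])
    have hcs : c0 ^ 2 ≤ c1 ^ 2 := sq_le_sq' (by linarith [neg_abs_le c0])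
      (by linarith [le_abs_self c0])
    have hb1 : b ≤ 1 := by nlinarith [sq_nonneg s]
    have hs1 : s ≤ 1 := by nlinarith [sq_nonneg b]
    have hB := bounds (A := 1 - c0 ^ 2) (x := x0 + σ) (y := 1 - (x0 + σ) ^ 2 - c0 ^ 2) (k := c0)
      hD hD1 ((Wh x0 c0).Apos (σ := σ) h) (by nlinarith [sq_nonneg c0])
      (by rw [hD0]; linarith) (by nlinarith [sq_nonneg (x0 + σ)]) (by linarith) (by linarith)
    refine ⟨?_, ?_, ?_, (x0 + σ) / (1 - (x0 + σ) ^ 2 - c0 ^ 2), ?_, hB.2.2.2⟩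
    · rw [kh_vel h]; exact hB.1
    · rw [kh_vel h]; exact hB.2.1
    · rw [kh_crv h]; exact hB.2.2.1
    · exact (Wh x0 c0).logvel (σ := σ) h fun r hr => kh_vel hr
  · intro σ hσ
    have hx' : |x0| < b := lt_of_le_of_lt hx hx1b
    have h := pos_of hbs hx' hσ
    refine ⟨kv_lift j hbs hx' hσ, ?_, kv_nsq hbs hx' hσ⟩
    rw [(kv_deriv h).deriv]
    intro h0
    exact one_ne_zero (congrArg (fun p : V3 => p.2.2) h0)
  · intro σ hσ
    have hx' : |x0| < b := lt_of_le_of_lt hx hx1b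
    have hc' : |c0 + σ| < s := lt_of_le_of_lt hσ hc1s
    have h := pos_of hbs hx' hc'
    have hcs : (c0 + σ) ^ 2 ≤ c1 ^ 2 := sq_le_sq' (by linarith [neg_abs_le (c0 + σ)])
      (by linarith [le_abs_self (c0 + σ)])
    have hxs : x0 ^ 2 ≤ x1 ^ 2 := sq_le_sq' (by linarith [neg_abs_le x0])
      (by linarith [le_abs_self x0])
    have hb1 : b ≤ 1 := by nlinarith [sq_nonneg s]
    have hs1 : s ≤ 1 := by nlinarith [sq_nonneg b]
    have hB := bounds (A := 1 - x0 ^ 2) (x := c0 + σ) (y := 1 - x0 ^ 2 - (c0 + σ) ^ 2) (k := -x0)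
      hD hD1 ((Wv x0 c0).Apos (σ := σ) h) (by nlinarith [sq_nonneg x0])
      (by rw [hD0]; linarith) (by nlinarith [sq_nonneg (c0 + σ)]) (by linarith)
      (by rw [abs_neg]; linarith)
    refine ⟨?_, ?_, ?_, (c0 + σ) / (1 - x0 ^ 2 - (c0 + σ) ^ 2), ?_, hB.2.2.2⟩
    · rw [kv_vel h]; exact hB.1
    · rw [kv_vel h]; exact hB.2.1
    · rw [kv_crv h]; exact hB.2.2.1
    · exact (Wv x0 c0).logvel (σ := σ) h fun r hr => kv_vel hr

end Pool.Agent.Lib.MP_d2b992_gt.Dyn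
end

section
/-!
# Ergodic sphere, module L1: local lifts (openness, uniqueness up to `rho`, points with `D ≠ 0`)
-/
set_option autoImplicit false

open MeasureTheory Filter Topology Set
open scoped ContDiff

namespace Pool.Agent.Lib.MP_d2b992_gt.Dyn

namespace L1M

theorem rho_rho (n : V3) : rho (rho n) = n := by
  simp [rho]

theorem cont_rho {κ : ℝ → V3} {t : ℝ} (h : ContinuousAt κ t) :
    ContinuousAt (fun r => rho (κ r)) t := by
  unfold rho
  exact (h.fst).prodMk ((h.snd.fst.neg).prodMk (h.snd.snd.neg))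

theorem contDiff_rho {κ : ℝ → V3} {t : ℝ} (h : ContDiffAt ℝ 2 κ t) :
    ContDiffAt ℝ 2 (fun r => rho (κ r)) t := by
  unfold rho
  have h1 : ContDiffAt ℝ 2 (fun r => (κ r).1) t := contDiffAt_fst.comp t h
  have h2 : ContDiffAt ℝ 2 (fun r => (κ r).2) t := contDiffAt_snd.comp t h
  have h21 : ContDiffAt ℝ 2 (fun r => (κ r).2.1) t := contDiffAt_fst.comp t h2
  have h22 : ContDiffAt ℝ 2 (fun r => (κ r).2.2) t := contDiffAt_snd.comp t h2
  exact h1.prodMk (h21.neg.prodMk h22.neg)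

theorem dot_rho (n : V3) : dot (rho n) (rho n) = dot n n := by
  simp [dot, rho]

/-- openness -/
theorem openness (b s : ℝ) (z : ℝ → XS) (κ : ℝ → V3) (t : ℝ) (h : Lift b s z κ t) :
    ∀ᶠ r in 𝓝 t, Lift b s z κ r := by
  obtain ⟨h1, h2, h3⟩ := h
  have e1 : ∀ᶠ r in 𝓝 t, ContDiffAt ℝ 2 κ r := h1.eventually (by simp)
  have e2 : ∀ᶠ r in 𝓝 t, ∀ᶠ u in 𝓝 r, dot (κ u) (κ u) = 1 := eventually_eventually_nhds.mpr h2
  have hc := h1.continuousAt
  have ec : |(κ t).2.2| < s → ∀ᶠ r in 𝓝 t, |(κ r).2.2| < s := fun h =>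
    (hc.snd.snd.abs).eventually (gt_mem_nhds h)
  have ex : |(κ t).1| < b → ∀ᶠ r in 𝓝 t, |(κ r).1| < b := fun h =>
    (hc.fst.abs).eventually (gt_mem_nhds h)
  rcases h3 with ⟨hc', Θ, hΘ, hz⟩ | ⟨hx, j, hj, hz⟩ | ⟨hx, hz | hz⟩
  · have e4 : ∀ᶠ r in 𝓝 t, ContDiffAt ℝ 2 Θ r := hΘ.eventually (by simp)
    have e5 := eventually_eventually_nhds.mpr hz
    filter_upwards [e1, e2, ec hc', e4, e5] with r a1 a2 a3 a4 a5
    exact ⟨a1, a2, Or.inl ⟨a3, Θ, a4, a5⟩⟩
  · have e5 := eventually_eventually_nhds.mpr hz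
    filter_upwards [e1, e2, ex hx, e5] with r a1 a2 a3 a5
    exact ⟨a1, a2, Or.inr (Or.inl ⟨a3, j, hj, a5⟩)⟩
  · have e5 := eventually_eventually_nhds.mpr hz
    filter_upwards [e1, e2, ex hx, e5] with r a1 a2 a3 a5
    exact ⟨a1, a2, Or.inr (Or.inr ⟨a3, Or.inl a5⟩)⟩
  · have e5 := eventually_eventually_nhds.mpr hz
    filter_upwards [e1, e2, ex hx, e5] with r a1 a2 a3 a5
    exact ⟨a1, a2, Or.inr (Or.inr ⟨a3, Or.inr a5⟩)⟩

/-- the vector of the state is `κ` or `rho κ` -/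
theorem vec (b s : ℝ) (z : ℝ → XS) (κ : ℝ → V3) (t : ℝ) (h : Lift b s z κ t) :
    (∀ᶠ r in 𝓝 t, (z r).2 = κ r) ∨
      (|(κ t).1| < b ∧ ∀ᶠ r in 𝓝 t, (z r).2 = κ r ∨ (z r).2 = rho (κ r)) := by
  obtain ⟨h1, h2, h3⟩ := h
  rcases h3 with ⟨hc', Θ, hΘ, hz⟩ | ⟨hx, j, hj, hz⟩ | ⟨hx, hz | hz⟩
  · left
    filter_upwards [hz] with r hr
    rw [hr.1]
    exact hr.2.symm
  · right
    refine ⟨hx, ?_⟩
    filter_upwards [hz] with r hr
    rw [hr]
    unfold secQ
    split_ifs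
    · exact Or.inl rfl
    · exact Or.inr rfl
  · right
    refine ⟨hx, ?_⟩
    filter_upwards [hz] with r hr
    rw [hr]
    unfold secF
    split_ifs
    · exact Or.inl rfl
    · exact Or.inr rfl
  · right
    refine ⟨hx, ?_⟩
    filter_upwards [hz] with r hr
    rw [hr]
    unfold secF
    split_ifs
    · exact Or.inr rfl
    · left
      exact rho_rho _

theorem fst_rho (n : V3) : (rho n).1 = n.1 := rfl

theorem ne_rho (b : ℝ) (hb : b < 1) (n : V3) (hn : dot n n = 1) (hx : |n.1| < b) :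
    rho n ≠ n := by
  intro h
  have h1 : -n.2.1 = n.2.1 := by
    have := congrArg (fun m : V3 => m.2.1) h
    simpa [rho] using this
  have h2 : -n.2.2 = n.2.2 := by
    have := congrArg (fun m : V3 => m.2.2) h
    simpa [rho] using this
  have h3 : n.2.1 = 0 := by linarith
  have h4 : n.2.2 = 0 := by linarith
  unfold dot at hn
  rw [h3, h4] at hn
  have h5 : n.1 ^ 2 = 1 := by nlinarith
  have h6 : |n.1| ^ 2 = 1 := by rw [sq_abs]; exact h5
  have h7 : |n.1| < 1 := lt_trans hx hb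
  nlinarith [abs_nonneg n.1]

theorem ev_ne {f g : ℝ → V3} {t : ℝ} (hf : ContinuousAt f t) (hg : ContinuousAt g t)
    (h : f t ≠ g t) : ∀ᶠ r in 𝓝 t, f r ≠ g r :=
  (hf.prodMk hg).eventually ((isOpen_ne_fun continuous_fst continuous_snd).mem_nhds h)

theorem sep {κ κ' : ℝ → V3} {t : ℝ} (hc : ContinuousAt κ t) (hc' : ContinuousAt κ' t)
    (hne : rho (κ t) ≠ κ t)
    (h : ∀ᶠ r in 𝓝 t, κ' r = κ r ∨ κ' r = rho (κ r)) :
    (∀ᶠ r in 𝓝 t, κ' r = κ r) ∨ (∀ᶠ r in 𝓝 t, κ' r = rho (κ r)) := by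
  rcases h.self_of_nhds with h0 | h0
  · left
    have h1 : κ' t ≠ rho (κ t) := by rw [h0]; exact hne.symm
    have h2 : ∀ᶠ r in 𝓝 t, κ' r ≠ rho (κ r) := ev_ne hc' (cont_rho hc) h1
    filter_upwards [h, h2] with r a1 a2
    exact a1.resolve_right a2
  · right
    have h1 : κ' t ≠ κ t := by rw [h0]; exact hne
    have h2 : ∀ᶠ r in 𝓝 t, κ' r ≠ κ r := ev_ne hc' hc h1
    filter_upwards [h, h2] with r a1 a2
    exact a1.resolve_left a2

/-- uniqueness up to `rho` -/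
theorem uniq (b s : ℝ) (hb : b < 1) (z : ℝ → XS) (κ κ' : ℝ → V3) (t : ℝ)
    (h : Lift b s z κ t) (h' : Lift b s z κ' t) :
    (∀ᶠ r in 𝓝 t, κ' r = κ r) ∨ (∀ᶠ r in 𝓝 t, κ' r = rho (κ r)) := by
  have hc := h.1.continuousAt
  have hc' := h'.1.continuousAt
  rcases vec b s z κ t h with hv | ⟨hx, hv⟩
  · rcases vec b s z κ' t h' with hv' | ⟨hx', hv'⟩
    · left
      filter_upwards [hv, hv'] with r a1 a2
      rw [← a1, ← a2]
    · -- `κ = κ'` or `κ = rho κ'`
      have h1 : ∀ᶠ r in 𝓝 t, κ r = κ' r ∨ κ r = rho (κ' r) := by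
        filter_upwards [hv, hv'] with r a1 a2
        rwa [a1] at a2
      rcases sep hc' hc (ne_rho b hb _ h'.2.1.self_of_nhds hx') h1 with h2 | h2
      · left
        filter_upwards [h2] with r a1 using a1.symm
      · right
        filter_upwards [h2] with r a1
        rw [a1, rho_rho]
  · have h1 : ∀ᶠ r in 𝓝 t, κ' r = κ r ∨ κ' r = rho (κ r) := by
      rcases vec b s z κ' t h' with hv' | ⟨hx', hv'⟩
      · filter_upwards [hv, hv'] with r a1 a2
        rw [← a2]; exact a1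
      · filter_upwards [hv, hv'] with r a1 a2
        rcases a1 with a1 | a1 <;> rcases a2 with a2 | a2
        · left; rw [← a1, ← a2]
        · right; rw [← a1, a2, rho_rho]
        · right; rw [← a1, ← a2]
        · left
          rw [← rho_rho (κ' r), ← a2, a1, rho_rho]
    exact sep hc hc' (ne_rho b hb _ h.2.1.self_of_nhds hx) h1

theorem nn_D (Θ c : ℝ) : (nn Θ c).2.1 = -(Real.sqrt (1 - c ^ 2) * Real.cos Θ) := rfl

/-- the label and the angle -/
theorem lab_of_mem (m : ℤ) (Θ : ℝ) (h1 : (m : ℝ) * Real.pi - Real.pi / 2 < Θ)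
    (h2 : Θ < (m : ℝ) * Real.pi + Real.pi / 2) : lab Θ = m % 4 := by
  unfold lab
  have : ⌊(Θ + Real.pi / 2) / Real.pi⌋ = m := by
    rw [Int.floor_eq_iff]
    constructor
    · rw [le_div_iff₀ Real.pi_pos]; linarith
    · rw [div_lt_iff₀ Real.pi_pos]; linarith
  rw [this]

theorem cos_sign (m : ℤ) (Θ : ℝ) (h1 : (m : ℝ) * Real.pi - Real.pi / 2 < Θ)
    (h2 : Θ < (m : ℝ) * Real.pi + Real.pi / 2) :
    (m % 2 = 0 → 0 < Real.cos Θ) ∧ (m % 2 = 1 → Real.cos Θ < 0) := by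
  have h3 : 0 < Real.cos (Θ - m * Real.pi) :=
    Real.cos_pos_of_mem_Ioo ⟨by linarith, by linarith⟩
  rw [Real.cos_sub_int_mul_pi] at h3
  constructor
  · intro hm
    have : Even m := Int.even_iff.mpr hm
    rw [this.neg_one_zpow, one_mul] at h3
    exact h3
  · intro hm
    have : Odd m := Int.odd_iff.mpr hm
    rw [this.neg_one_zpow] at h3
    linarith

theorem rho_D (n : V3) : (rho n).2.1 = -n.2.1 := rfl

theorem lift_rho (b s : ℝ) (z : ℝ → XS) (κ : ℝ → V3) (t : ℝ) (h1 : ContDiffAt ℝ 2 κ t)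
    (h2 : ∀ᶠ r in 𝓝 t, dot (κ r) (κ r) = 1) (hx : |(κ t).1| < b)
    (h : (∃ j : ℤ, (j = 0 ∨ j = 2) ∧ ∀ᶠ r in 𝓝 t, z r = secQ j (rho (κ r))) ∨
      (∀ᶠ r in 𝓝 t, z r = secF (rho (κ r))) ∨ (∀ᶠ r in 𝓝 t, z r = secF (κ r))) :
    Lift b s z (fun r => rho (κ r)) t := by
  refine ⟨contDiff_rho h1, ?_, ?_⟩
  · filter_upwards [h2] with r a
    rw [dot_rho]; exact a
  · rcases h with h | h | h
    · exact Or.inr (Or.inl ⟨hx, h⟩)
    · exact Or.inr (Or.inr ⟨hx, Or.inl h⟩)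
    · refine Or.inr (Or.inr ⟨hx, Or.inr ?_⟩)
      filter_upwards [h] with r a
      rw [rho_rho]; exact a

/-- points with `D ≠ 0` -/
theorem noD (b s : ℝ) (hs : s < 1) (z : ℝ → XS) (κ : ℝ → V3) (t : ℝ)
    (h : Lift b s z κ t) (hD : (κ t).2.1 ≠ 0) :
    ∃ (j : ℤ) (κ' : ℝ → V3), ((∀ r, κ' r = κ r) ∨ (∀ r, κ' r = rho (κ r))) ∧
      Lift b s z κ' t ∧ (∀ᶠ r in 𝓝 t, z r = (j, κ' r)) ∧
      (((j = 0 ∨ j = 2) ∧ (κ' t).2.1 < 0) ∨ ((j = 1 ∨ j = 3) ∧ 0 < (κ' t).2.1)) := by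
  obtain ⟨h1, h2, h3⟩ := id h
  have hc := h1.continuousAt
  have eneg : (κ t).2.1 < 0 → ∀ᶠ r in 𝓝 t, (κ r).2.1 < 0 := fun h =>
    (hc.snd.fst).eventually (gt_mem_nhds h)
  have epos : 0 < (κ t).2.1 → ∀ᶠ r in 𝓝 t, 0 < (κ r).2.1 := fun h =>
    (hc.snd.fst).eventually (lt_mem_nhds h)
  rcases h3 with ⟨hc', Θ, hΘ, hz⟩ | ⟨hx, j, hj, hz⟩ | ⟨hx, hz | hz⟩
  · have hk := hz.self_of_nhds
    have hD' : (κ t).2.1 = -(Real.sqrt (1 - (κ t).2.2 ^ 2) * Real.cos (Θ t)) :=
      congrArg (fun m : V3 => m.2.1) hk.2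
    have hw : 0 < Real.sqrt (1 - (κ t).2.2 ^ 2) := by
      apply Real.sqrt_pos.mpr
      have h5 : |(κ t).2.2| < 1 := lt_trans hc' hs
      have h6 : (κ t).2.2 ^ 2 < 1 := by
        rw [← sq_abs]; nlinarith [abs_nonneg (κ t).2.2]
      linarith
    have hcos : Real.cos (Θ t) ≠ 0 := by
      intro h0
      rw [h0, mul_zero, neg_zero] at hD'
      exact hD hD'
    set m : ℤ := ⌊(Θ t + Real.pi / 2) / Real.pi⌋ with hm
    have hf1 := Int.floor_le ((Θ t + Real.pi / 2) / Real.pi)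
    have hf2 := Int.lt_floor_add_one ((Θ t + Real.pi / 2) / Real.pi)
    rw [← hm] at hf1 hf2
    rw [le_div_iff₀ Real.pi_pos] at hf1
    rw [div_lt_iff₀ Real.pi_pos] at hf2
    have hlo : (m : ℝ) * Real.pi - Real.pi / 2 < Θ t := by
      rcases lt_or_eq_of_le (by linarith : (m : ℝ) * Real.pi - Real.pi / 2 ≤ Θ t) with h5 | h5
      · exact h5
      · exfalso
        apply hcos
        rw [← h5, Real.cos_int_mul_pi_sub]
        simp
    have hhi : Θ t < (m : ℝ) * Real.pi + Real.pi / 2 := by linarith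
    have e1 : ∀ᶠ r in 𝓝 t, (m : ℝ) * Real.pi - Real.pi / 2 < Θ r :=
      hΘ.continuousAt.eventually (lt_mem_nhds hlo)
    have e2 : ∀ᶠ r in 𝓝 t, Θ r < (m : ℝ) * Real.pi + Real.pi / 2 :=
      hΘ.continuousAt.eventually (gt_mem_nhds hhi)
    have hs1 := cos_sign m (Θ t) hlo hhi
    refine ⟨m % 4, κ, Or.inl (fun r => rfl), h, ?_, ?_⟩
    · filter_upwards [hz, e1, e2] with r a1 a2 a3
      rw [a1.1]
      unfold secP
      rw [lab_of_mem m (Θ r) a2 a3, ← a1.2]
    · rcases (by omega : m % 2 = 0 ∨ m % 2 = 1) with h5 | h5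
      · left
        refine ⟨by omega, ?_⟩
        rw [hD']
        have := mul_pos hw (hs1.1 h5)
        linarith
      · right
        refine ⟨by omega, ?_⟩
        rw [hD']
        have := mul_pos_of_neg_of_neg (neg_lt_zero.mpr hw) (hs1.2 h5)
        linarith
  · rcases lt_or_gt_of_ne hD with hneg | hpos
    · refine ⟨j, κ, Or.inl (fun r => rfl), h, ?_, Or.inl ⟨hj, hneg⟩⟩
      filter_upwards [hz, eneg hneg] with r a1 a2
      rw [a1]; unfold secQ; rw [if_pos (Or.inl a2)]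
    · have e1 : ∀ᶠ r in 𝓝 t, z r = (j, rho (κ r)) := by
        filter_upwards [hz, epos hpos] with r a1 a2
        rw [a1]; unfold secQ
        rw [if_neg]
        rintro (a3 | a3)
        · linarith
        · linarith [a3.1]
      refine ⟨j, fun r => rho (κ r), Or.inr (fun r => rfl), ?_, e1,
        Or.inl ⟨hj, by show -(κ t).2.1 < 0; linarith⟩⟩
      apply lift_rho b s z κ t h1 h2 hx
      refine Or.inl ⟨j, hj, ?_⟩
      filter_upwards [e1, epos hpos] with r a1 a2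
      rw [a1]; unfold secQ
      rw [if_pos]
      left
      show -(κ r).2.1 < 0
      linarith
  · rcases lt_or_gt_of_ne hD with hneg | hpos
    · refine ⟨3, fun r => rho (κ r), Or.inr (fun r => rfl), ?_, ?_,
        Or.inr ⟨Or.inr rfl, by show 0 < -(κ t).2.1; linarith⟩⟩
      · exact lift_rho b s z κ t h1 h2 hx (Or.inr (Or.inr hz))
      · filter_upwards [hz, eneg hneg] with r a1 a2
        rw [a1]; unfold secF
        rw [if_neg (by linarith)]
    · refine ⟨1, κ, Or.inl (fun r => rfl), h, ?_, Or.inr ⟨Or.inl rfl, hpos⟩⟩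
      filter_upwards [hz, epos hpos] with r a1 a2
      rw [a1]; unfold secF
      rw [if_pos (by linarith)]
  · rcases lt_or_gt_of_ne hD with hneg | hpos
    · refine ⟨1, fun r => rho (κ r), Or.inr (fun r => rfl), ?_, ?_,
        Or.inr ⟨Or.inl rfl, by show 0 < -(κ t).2.1; linarith⟩⟩
      · exact lift_rho b s z κ t h1 h2 hx (Or.inr (Or.inl hz))
      · filter_upwards [hz, eneg hneg] with r a1 a2
        rw [a1]; unfold secF
        rw [if_pos (by rw [rho_D]; linarith)]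
    · refine ⟨3, κ, Or.inl (fun r => rfl), h, ?_, Or.inr ⟨Or.inr rfl, hpos⟩⟩
      filter_upwards [hz, epos hpos] with r a1 a2
      rw [a1]; unfold secF
      rw [if_neg (by rw [rho_D]; linarith), rho_rho]

/-- the angle at points with `D ≠ 0` -/
theorem angle (z : ℝ → XS) (κ : ℝ → V3) (t : ℝ) (j : ℤ) (h1 : ContDiffAt ℝ 2 κ t)
    (h2 : ∀ᶠ r in 𝓝 t, dot (κ r) (κ r) = 1) (h3 : ∀ᶠ r in 𝓝 t, z r = (j, κ r))
    (h4 : ((j = 0 ∨ j = 2) ∧ (κ t).2.1 < 0) ∨ ((j = 1 ∨ j = 3) ∧ 0 < (κ t).2.1)) :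
    ∃ Θ : ℝ → ℝ, ContDiffAt ℝ 2 Θ t ∧
      ∀ᶠ r in 𝓝 t, z r = secP (Θ r) (κ r).2.2 ∧ κ r = nn (Θ r) (κ r).2.2 := by
  have hc := h1.continuousAt
  have hx1 : ContDiffAt ℝ 2 (fun r => (κ r).1) t := contDiffAt_fst.comp t h1
  have hx2 : ContDiffAt ℝ 2 (fun r => (κ r).2) t := contDiffAt_snd.comp t h1
  have hx3 : ContDiffAt ℝ 2 (fun r => (κ r).2.2) t := contDiffAt_snd.comp t hx2
  -- elementary facts at a point with `D ≠ 0`
  have fact : ∀ n : V3, dot n n = 1 → n.2.1 ≠ 0 → 0 < 1 - n.2.2 ^ 2 ∧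
      0 < Real.sqrt (1 - n.2.2 ^ 2) ∧ |n.1 / Real.sqrt (1 - n.2.2 ^ 2)| < 1 ∧
      Real.sqrt (1 - n.2.2 ^ 2) * Real.sqrt (1 - (n.1 / Real.sqrt (1 - n.2.2 ^ 2)) ^ 2)
        = |n.2.1| := by
    intro n hn hD
    unfold dot at hn
    have hD2 : 0 < n.2.1 ^ 2 := by positivity
    have ha : 0 < 1 - n.2.2 ^ 2 := by nlinarith [sq_nonneg n.1]
    have hb := Real.sqrt_pos.mpr ha
    have hsq := Real.sq_sqrt ha.le
    refine ⟨ha, hb, ?_, ?_⟩
    · rw [abs_div, abs_of_pos hb, div_lt_one hb]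
      apply abs_lt_of_sq_lt_sq _ hb.le
      rw [hsq]; nlinarith
    · rw [← Real.sqrt_mul ha.le, ← Real.sqrt_sq_eq_abs]
      congr 1
      rw [div_pow, hsq]
      field_simp
      nlinarith
  have hD : (κ t).2.1 ≠ 0 := by
    rcases h4 with h4 | h4
    · exact h4.2.ne
    · exact h4.2.ne'
  obtain ⟨f1, f2, f3, f4⟩ := fact (κ t) h2.self_of_nhds hD
  have hu : ContDiffAt ℝ 2 (fun r => (κ r).1 / Real.sqrt (1 - (κ r).2.2 ^ 2)) t :=
    hx1.div ((contDiffAt_const.sub (hx3.pow 2)).sqrt f1.ne') f2.ne'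
  have habs := abs_lt.mp f3
  have ha0 : ContDiffAt ℝ 2 Real.arcsin ((κ t).1 / Real.sqrt (1 - (κ t).2.2 ^ 2)) :=
    Real.contDiffAt_arcsin (habs.1.ne') (habs.2.ne)
  have hθ : ContDiffAt ℝ 2 (fun r => Real.arcsin ((κ r).1 / Real.sqrt (1 - (κ r).2.2 ^ 2))) t :=
    ContDiffAt.comp (g := Real.arcsin)
      (f := fun r => (κ r).1 / Real.sqrt (1 - (κ r).2.2 ^ 2)) t ha0 hu
  rcases h4 with ⟨hj, hneg⟩ | ⟨hj, hpos⟩
  · refine ⟨fun r => Real.arcsin ((κ r).1 / Real.sqrt (1 - (κ r).2.2 ^ 2)) + (j : ℝ) * Real.pi,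
      hθ.add contDiffAt_const, ?_⟩
    have e1 : ∀ᶠ r in 𝓝 t, (κ r).2.1 < 0 := (hc.snd.fst).eventually (gt_mem_nhds hneg)
    have hev : Even j := by rcases hj with rfl | rfl <;> decide
    filter_upwards [e1, h2, h3] with r a1 a2 a3
    obtain ⟨g1, g2, g3, g4⟩ := fact (κ r) a2 a1.ne
    have hab := abs_lt.mp g3
    have h5 : -(Real.pi / 2) < Real.arcsin ((κ r).1 / Real.sqrt (1 - (κ r).2.2 ^ 2)) :=
      Real.neg_pi_div_two_lt_arcsin.mpr hab.1
    have h6 : Real.arcsin ((κ r).1 / Real.sqrt (1 - (κ r).2.2 ^ 2)) < Real.pi / 2 :=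
      Real.arcsin_lt_pi_div_two.mpr hab.2
    have hn : κ r = nn (Real.arcsin ((κ r).1 / Real.sqrt (1 - (κ r).2.2 ^ 2))
        + (j : ℝ) * Real.pi) (κ r).2.2 := by
      unfold nn
      rw [Real.sin_add_int_mul_pi, Real.cos_add_int_mul_pi, hev.neg_one_zpow, one_mul, one_mul,
        Real.sin_arcsin hab.1.le hab.2.le, Real.cos_arcsin, g4, abs_of_neg a1, neg_neg,
        mul_div_cancel₀ _ g2.ne']
    refine ⟨?_, hn⟩
    unfold secP
    rw [lab_of_mem j _ (by linarith) (by linarith), ← hn, a3]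
    congr 1
    rcases hj with rfl | rfl <;> decide
  · refine ⟨fun r => -Real.arcsin ((κ r).1 / Real.sqrt (1 - (κ r).2.2 ^ 2)) + (j : ℝ) * Real.pi,
      hθ.neg.add contDiffAt_const, ?_⟩
    have e1 : ∀ᶠ r in 𝓝 t, 0 < (κ r).2.1 := (hc.snd.fst).eventually (lt_mem_nhds hpos)
    have hev : Odd j := by rcases hj with rfl | rfl <;> decide
    filter_upwards [e1, h2, h3] with r a1 a2 a3
    obtain ⟨g1, g2, g3, g4⟩ := fact (κ r) a2 a1.ne'
    have hab := abs_lt.mp g3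
    have h5 : -(Real.pi / 2) < Real.arcsin ((κ r).1 / Real.sqrt (1 - (κ r).2.2 ^ 2)) :=
      Real.neg_pi_div_two_lt_arcsin.mpr hab.1
    have h6 : Real.arcsin ((κ r).1 / Real.sqrt (1 - (κ r).2.2 ^ 2)) < Real.pi / 2 :=
      Real.arcsin_lt_pi_div_two.mpr hab.2
    have hn : κ r = nn (-Real.arcsin ((κ r).1 / Real.sqrt (1 - (κ r).2.2 ^ 2))
        + (j : ℝ) * Real.pi) (κ r).2.2 := by
      unfold nn
      rw [Real.sin_add_int_mul_pi, Real.cos_add_int_mul_pi, hev.neg_one_zpow, Real.sin_neg,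
        Real.cos_neg, Real.sin_arcsin hab.1.le hab.2.le, Real.cos_arcsin]
      have h7 : -(Real.sqrt (1 - (κ r).2.2 ^ 2) *
          (-1 * Real.sqrt (1 - ((κ r).1 / Real.sqrt (1 - (κ r).2.2 ^ 2)) ^ 2))) = (κ r).2.1 := by
        have : -(Real.sqrt (1 - (κ r).2.2 ^ 2) *
          (-1 * Real.sqrt (1 - ((κ r).1 / Real.sqrt (1 - (κ r).2.2 ^ 2)) ^ 2)))
          = Real.sqrt (1 - (κ r).2.2 ^ 2) *
            Real.sqrt (1 - ((κ r).1 / Real.sqrt (1 - (κ r).2.2 ^ 2)) ^ 2) := by ring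
        rw [this, g4, abs_of_pos a1]
      have h8 : Real.sqrt (1 - (κ r).2.2 ^ 2) *
          (-1 * -((κ r).1 / Real.sqrt (1 - (κ r).2.2 ^ 2))) = (κ r).1 := by
        field_simp
      rw [h7, h8]
    refine ⟨?_, hn⟩
    unfold secP
    rw [lab_of_mem j _ (by linarith) (by linarith), ← hn, a3]
    congr 1
    rcases hj with rfl | rfl <;> decide

/-- from a constant label to a lift -/
theorem conv (b s : ℝ) (hb : 0 < b) (hs : 0 < s) (hsb : s ^ 2 + b ^ 2 = 1) (z : ℝ → XS) (κ : ℝ → V3) (t : ℝ)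
    (j : ℤ) (h1 : ContDiffAt ℝ 2 κ t)
    (h2 : ∀ᶠ r in 𝓝 t, dot (κ r) (κ r) = 1) (h3 : ∀ᶠ r in 𝓝 t, z r = (j, κ r))
    (h4 : ((j = 0 ∨ j = 2) ∧ (κ t).2.1 < 0) ∨ ((j = 1 ∨ j = 3) ∧ 0 < (κ t).2.1)) :
    Lift b s z κ t := by
  by_cases hcs : |(κ t).2.2| < s
  · exact ⟨h1, h2, Or.inl ⟨hcs, angle z κ t j h1 h2 h3 h4⟩⟩
  · have hD : (κ t).2.1 ≠ 0 := by
      rcases h4 with h4 | h4
      · exact h4.2.ne
      · exact h4.2.ne'
    have hx : |(κ t).1| < b := by
      apply abs_lt_of_sq_lt_sq _ hb.le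
      have h5 := h2.self_of_nhds
      unfold dot at h5
      have h6 : 0 < (κ t).2.1 ^ 2 := by positivity
      have h7 : s ^ 2 ≤ (κ t).2.2 ^ 2 := by
        rw [← sq_abs (κ t).2.2]
        exact pow_le_pow_left₀ hs.le (not_lt.mp hcs) 2
      nlinarith
    have hc := h1.continuousAt
    rcases h4 with ⟨hj, hneg⟩ | ⟨hj, hpos⟩
    · have e1 : ∀ᶠ r in 𝓝 t, (κ r).2.1 < 0 := (hc.snd.fst).eventually (gt_mem_nhds hneg)
      refine ⟨h1, h2, Or.inr (Or.inl ⟨hx, j, hj, ?_⟩)⟩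
      filter_upwards [h3, e1] with r a1 a2
      rw [a1]; unfold secQ; rw [if_pos (Or.inl a2)]
    · have e1 : ∀ᶠ r in 𝓝 t, 0 < (κ r).2.1 := (hc.snd.fst).eventually (lt_mem_nhds hpos)
      refine ⟨h1, h2, Or.inr (Or.inr ⟨hx, ?_⟩)⟩
      rcases hj with rfl | rfl
      · left
        filter_upwards [h3, e1] with r a1 a2
        rw [a1]; unfold secF; rw [if_pos a2.le]
      · right
        filter_upwards [h3, e1] with r a1 a2
        rw [a1]; unfold secF
        rw [if_neg (by rw [rho_D]; linarith), rho_rho]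

end L1M

theorem specL1 : SpecL1 := by
  intro b s hb hs hsb
  have hs1 : s < 1 := by nlinarith
  have hb1 : b < 1 := by nlinarith
  exact ⟨fun z κ t h => L1M.openness b s z κ t h,
    fun z κ κ' t h h' => L1M.uniq b s hb1 z κ κ' t h h',
    fun z κ t h hD => L1M.noD b s hs1 z κ t h hD,
    fun z κ t j h1 h2 h3 h4 => ⟨L1M.conv b s hb hs hsb z κ t j h1 h2 h3 h4,
      fun _ => L1M.angle z κ t j h1 h2 h3 h4⟩⟩

end Pool.Agent.Lib.MP_d2b992_gt.Dyn
end

section
/-!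
# Modules MPP and MPQ: the maps `P` and `Q` preserve the area
-/
set_option autoImplicit false

open MeasureTheory Set Filter Topology
open scoped ContDiff ENNReal

namespace Pool.Agent.Lib.MP_d2b992_gt.Dyn

open Pool.Agent.Lib.MP_d2b992_gt.T (Tw)

namespace MppM

lemma measurable_toIcoMod' {T : ℝ} (hT : 0 < T) (t : ℝ) : Measurable (toIcoMod hT t) := by
  have : toIcoMod hT t = fun x => x - (⌊(x - t) / T⌋ : ℝ) * T := by
    funext x
    rw [toIcoMod, toIcoDiv_eq_floor]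
    simp
  rw [this]
  fun_prop

/-- A reflection of a circle preserves the length. -/
lemma mp_refl {T : ℝ} (hT : 0 < T) (t a : ℝ) :
    MeasurePreserving (fun x => toIcoMod hT t (a - x))
      (volume.restrict (Ico t (t + T))) (volume.restrict (Ico t (t + T))) := by
  have hm : Measurable (fun x => toIcoMod hT t (a - x)) :=
    (measurable_toIcoMod' hT t).comp (measurable_const.sub measurable_id)
  refine ⟨hm, ?_⟩
  ext S hS
  rw [Measure.map_apply hm hS, Measure.restrict_apply (hm hS), Measure.restrict_apply hS]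
  set A : Set ℝ := (fun x => toIcoMod hT t (a - x)) ⁻¹' S with hA
  have h1 : volume (A ∩ Ico t (t + T)) = volume (A ∩ Ioc t (t + T)) :=
    measure_congr (Filter.EventuallyEq.rfl.inter Ico_ae_eq_Ioc)
  have hF : ∀ u : ℝ, IsAddFundamentalDomain (AddSubgroup.zmultiples T) (Ioc u (u + T)) volume :=
    fun u => isAddFundamentalDomain_Ioc hT u
  have hper : ∀ g : AddSubgroup.zmultiples T, (fun x => g +ᵥ x) ⁻¹' A = A := by
    rintro ⟨g, hg⟩
    obtain ⟨k, rfl⟩ := AddSubgroup.mem_zmultiples_iff.mp hg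
    ext x
    simp only [hA, mem_preimage, AddSubgroup.mk_vadd, vadd_eq_add]
    have : a - (k • T + x) = (a - x) - k • T := by ring
    rw [this, toIcoMod_sub_zsmul]
  have h2 : volume (A ∩ Ioc t (t + T)) = volume (A ∩ Ioc (a - t - T) (a - t - T + T)) :=
    (hF t).measure_set_eq (hF (a - t - T)) (hm hS) hper
  have h3 : A ∩ Ioc (a - t - T) (a - t - T + T) = (fun x => a - x) ⁻¹' (S ∩ Ico t (t + T)) := by
    ext x
    simp only [hA, mem_inter_iff, mem_preimage, mem_Ioc, mem_Ico]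
    constructor
    · rintro ⟨hx, hx1, hx2⟩
      have hx3 : t ≤ a - x ∧ a - x < t + T := ⟨by linarith, by linarith⟩
      have : toIcoMod hT t (a - x) = a - x := (toIcoMod_eq_self hT).mpr ⟨hx3.1, hx3.2⟩
      rw [this] at hx
      exact ⟨hx, hx3⟩
    · rintro ⟨hx, hx1, hx2⟩
      have : toIcoMod hT t (a - x) = a - x := (toIcoMod_eq_self hT).mpr ⟨hx1, hx2⟩
      rw [this]
      exact ⟨hx, by linarith, by linarith⟩
  rw [h1, h2, h3]
  exact (Measure.measurePreserving_sub_left volume a).measure_preimage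
    (hS.inter measurableSet_Ico).nullMeasurableSet

/-- The circle of the angles. -/
def Ang : Set ℝ := Ico (-(Real.pi / 2)) (-(Real.pi / 2) + 4 * Real.pi)

lemma Dom_eq : Dom = Ang ×ˢ {c : ℝ | |c| < 1} := by
  ext z
  simp only [Dom, Ang, mem_ofPred_eq, mem_prod, mem_Ico]
  constructor
  · rintro ⟨h1, h2, h3⟩
    exact ⟨⟨h1, by linarith⟩, h3⟩
  · rintro ⟨⟨h1, h2⟩, h3⟩
    exact ⟨h1, by linarith, h3⟩

lemma muY_eq : muY = (volume.restrict Ang).prod (volume.restrict {c : ℝ | |c| < 1}) := by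
  rw [muY, Dom_eq, Measure.prod_restrict, Measure.volume_eq_prod]

lemma measurable_red : Measurable red := measurable_toIcoMod' four_pi_pos _

end MppM

open MppM in
theorem specMPP : SpecMPP := by
  intro b s F G h
  have hF : Measurable F := h.F_smooth.continuous.measurable
  rw [muY_eq]
  have h1 : MeasurePreserving (fun c : ℝ => -c) (volume.restrict {c : ℝ | |c| < 1})
      (volume.restrict {c : ℝ | |c| < 1}) := by
    have := (Measure.measurePreserving_neg (volume : Measure ℝ)).restrict_preimage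
      (s := {c : ℝ | |c| < 1}) (isOpen_lt continuous_abs continuous_const).measurableSet
    have h2 : (fun c : ℝ => -c) ⁻¹' {c : ℝ | |c| < 1} = {c : ℝ | |c| < 1} := by
      ext c
      simp
    rwa [h2] at this
  have h2 : MeasurePreserving (fun p : ℝ × ℝ => (-p.1, red (Real.pi - F p.1 - p.2)))
      ((volume.restrict {c : ℝ | |c| < 1}).prod (volume.restrict Ang))
      ((volume.restrict {c : ℝ | |c| < 1}).prod (volume.restrict Ang)) := by
    refine h1.skew_product (g := fun c Θ => red (Real.pi - F c - Θ)) ?_ ?_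
    · exact measurable_red.comp (by fun_prop)
    · exact Filter.Eventually.of_forall fun c =>
        (mp_refl four_pi_pos (-(Real.pi / 2)) (Real.pi - F c)).map_eq
  have h3 : pMap F = Prod.swap ∘ (fun p : ℝ × ℝ => (-p.1, red (Real.pi - F p.1 - p.2))) ∘
      Prod.swap := by
    funext z
    simp only [pMap, Function.comp_apply, Prod.swap_prod_mk, Prod.fst_swap, Prod.snd_swap,
      Prod.mk.injEq, and_true]
    congr 1
    ring
  rw [h3]
  exact Measure.measurePreserving_swap.comp (h2.comp Measure.measurePreserving_swap)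

end Pool.Agent.Lib.MP_d2b992_gt.Dyn
end

section
/-!
# Module MPQ: the map `Q` preserves the area
-/
set_option autoImplicit false

open MeasureTheory Set Filter Topology Real
open scoped ContDiff ENNReal

namespace Pool.Agent.Lib.MP_d2b992_gt.Dyn

open Pool.Agent.Lib.MP_d2b992_gt.T (Tw)

namespace MpqM

/-- the half circle of the angles of one near square -/
def Hf : Set ℝ := Ioo (-(π / 2)) (π / 2)

/-- The arcsine law. -/
lemma arcs {r : ℝ} (hr : 0 < r) {S : Set ℝ} (hS : MeasurableSet S) :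
    volume {Θ | Θ ∈ Hf ∧ r * sin Θ ∈ S} =
      ∫⁻ x in S ∩ Ioo (-r) r, ENNReal.ofReal (1 / √(r ^ 2 - x ^ 2)) := by
  set s : Set ℝ := S ∩ Ioo (-r) r with hs
  have hsm : MeasurableSet s := hS.inter measurableSet_Ioo
  have hd : ∀ x ∈ s, HasDerivWithinAt (fun x => arcsin (x / r)) (1 / √(r ^ 2 - x ^ 2)) s x := by
    intro x hx
    obtain ⟨-, hx1, hx2⟩ := hx
    have h1 : x / r ≠ -1 := by
      rw [Ne, div_eq_iff hr.ne']
      intro h
      linarith
    have h2 : x / r ≠ 1 := by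
      rw [Ne, div_eq_iff hr.ne']
      intro h
      linarith
    have h3 := (Real.hasDerivAt_arcsin h1 h2).comp x ((hasDerivAt_id x).div_const r)
    have h4 : 1 / √(1 - (x / r) ^ 2) * (1 / r) = 1 / √(r ^ 2 - x ^ 2) := by
      have h5 : r ^ 2 - x ^ 2 = r ^ 2 * (1 - (x / r) ^ 2) := by
        field_simp
      rw [h5, Real.sqrt_mul (sq_nonneg r), Real.sqrt_sq hr.le]
      rw [one_div_mul_one_div, mul_comm]
    rw [← h4]
    exact h3.hasDerivWithinAt
  have hinj : InjOn (fun x => arcsin (x / r)) s := by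
    intro x hx y hy hxy
    have hx' : x / r ∈ Icc (-1 : ℝ) 1 := by
      constructor
      · rw [le_div_iff₀ hr]; linarith [hx.2.1]
      · rw [div_le_iff₀ hr]; linarith [hx.2.2]
    have hy' : y / r ∈ Icc (-1 : ℝ) 1 := by
      constructor
      · rw [le_div_iff₀ hr]; linarith [hy.2.1]
      · rw [div_le_iff₀ hr]; linarith [hy.2.2]
    have := Real.injOn_arcsin hx' hy' hxy
    rwa [div_left_inj' hr.ne'] at this
  have key := lintegral_image_eq_lintegral_abs_deriv_mul hsm hd hinj (fun _ => 1)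
  have himg : (fun x => arcsin (x / r)) '' s = {Θ | Θ ∈ Hf ∧ r * sin Θ ∈ S} := by
    ext Θ
    constructor
    · rintro ⟨x, ⟨hxS, hx1, hx2⟩, rfl⟩
      have hx3 : -1 < x / r := by rw [lt_div_iff₀ hr]; linarith
      have hx4 : x / r < 1 := by rw [div_lt_iff₀ hr]; linarith
      refine ⟨⟨Real.neg_pi_div_two_lt_arcsin.mpr hx3, Real.arcsin_lt_pi_div_two.mpr hx4⟩, ?_⟩
      rw [Real.sin_arcsin hx3.le hx4.le, mul_div_cancel₀ _ hr.ne']
      exact hxS
    · rintro ⟨⟨h1, h2⟩, hS'⟩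
      have h3 : sin Θ < 1 := by
        rw [← Real.sin_pi_div_two]
        exact Real.sin_lt_sin_of_lt_of_le_pi_div_two h1.le le_rfl h2
      have h4 : -1 < sin Θ := by
        rw [← Real.sin_pi_div_two, ← Real.sin_neg]
        exact Real.sin_lt_sin_of_lt_of_le_pi_div_two (by linarith) h2.le (by linarith)
      refine ⟨r * sin Θ, ⟨hS', by nlinarith, by nlinarith⟩, ?_⟩
      simp only
      rw [mul_div_cancel_left₀ _ hr.ne', Real.arcsin_sin h1.le h2.le]
  rw [himg] at key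
  rw [lintegral_one, Measure.restrict_apply_univ] at key
  rw [key]
  refine lintegral_congr fun x => ?_
  rw [mul_one, abs_of_nonneg (by positivity)]

/-- density of the area over the disc `x² + c² < 1` -/
noncomputable def hh (E : Set (ℝ × ℝ)) (x c : ℝ) : ℝ≥0∞ :=
  (E ∩ {p : ℝ × ℝ | p.1 ^ 2 + p.2 ^ 2 < 1}).indicator
    (fun p => ENNReal.ofReal (1 / √(1 - p.1 ^ 2 - p.2 ^ 2))) (x, c)

lemma measurable_hh {E : Set (ℝ × ℝ)} (hE : MeasurableSet E) :
    Measurable (Function.uncurry (hh E)) := by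
  have h1 : MeasurableSet {p : ℝ × ℝ | p.1 ^ 2 + p.2 ^ 2 < 1} :=
    (isOpen_lt (by fun_prop) continuous_const).measurableSet
  have : Function.uncurry (hh E) = (E ∩ {p : ℝ × ℝ | p.1 ^ 2 + p.2 ^ 2 < 1}).indicator
    (fun p => ENNReal.ofReal (1 / √(1 - p.1 ^ 2 - p.2 ^ 2))) := by
    funext p
    rfl
  rw [this]
  refine Measurable.indicator ?_ (hE.inter h1)
  fun_prop

lemma fibre {r : ℝ} (hr : 0 < r) {S : Set ℝ} (hS : MeasurableSet S) {g : ℝ → ℝ≥0∞}
    (hg : ∀ x, g x = (S ∩ Ioo (-r) r).indicator (fun x => ENNReal.ofReal (1 / √(r ^ 2 - x ^ 2))) x) :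
    (volume.restrict Hf) {Θ | r * sin Θ ∈ S} = ∫⁻ x, g x := by
  have hm : MeasurableSet {Θ : ℝ | r * sin Θ ∈ S} :=
    (measurable_const.mul Real.measurable_sin) hS
  rw [Measure.restrict_apply hm]
  have : {Θ : ℝ | r * sin Θ ∈ S} ∩ Hf = {Θ | Θ ∈ Hf ∧ r * sin Θ ∈ S} := by
    ext Θ
    exact ⟨fun h => ⟨h.2, h.1⟩, fun h => ⟨h.2, h.1⟩⟩
  rw [this, arcs hr hS, ← lintegral_indicator (hS.inter measurableSet_Ioo)]
  exact lintegral_congr fun x => (hg x).symm

/-- coordinates `(x, c)` from `(Θ, c)` -/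
noncomputable def al (z : ℝ × ℝ) : ℝ × ℝ := (√(1 - z.2 ^ 2) * sin z.1, z.2)

/-- coordinates `(x, c)` from `(x, ψ)` -/
noncomputable def be (z : ℝ × ℝ) : ℝ × ℝ := (z.1, √(1 - z.1 ^ 2) * sin z.2)

lemma measurable_al : Measurable al := by
  unfold al
  fun_prop

lemma measurable_be : Measurable be := by
  unfold be
  fun_prop

lemma sq_of_mem {c : ℝ} (hc : c ∈ Ioo (-1 : ℝ) 1) : 0 < 1 - c ^ 2 := by
  nlinarith [hc.1, hc.2]

lemma disc_iff {x c : ℝ} (hc : c ∈ Ioo (-1 : ℝ) 1) :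
    x ^ 2 + c ^ 2 < 1 ↔ x ∈ Ioo (-√(1 - c ^ 2)) (√(1 - c ^ 2)) := by
  have h := sq_of_mem hc
  rw [mem_Ioo, ← abs_lt, ← Real.sqrt_sq_eq_abs, Real.sqrt_lt_sqrt_iff (sq_nonneg x)]
  constructor <;> intro h1 <;> linarith

lemma mapA {E : Set (ℝ × ℝ)} (hE : MeasurableSet E) :
    ((volume.restrict Hf).prod (volume.restrict (Ioo (-1 : ℝ) 1))) (al ⁻¹' E) =
      ∫⁻ c, ∫⁻ x, hh E x c := by
  rw [Measure.prod_apply_symm (measurable_al hE), ← lintegral_indicator measurableSet_Ioo]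
  refine lintegral_congr fun c => ?_
  by_cases hc : c ∈ Ioo (-1 : ℝ) 1
  · rw [indicator_of_mem hc]
    have hr : 0 < √(1 - c ^ 2) := Real.sqrt_pos.mpr (sq_of_mem hc)
    have hr2 : √(1 - c ^ 2) ^ 2 = 1 - c ^ 2 := Real.sq_sqrt (sq_of_mem hc).le
    have hS : MeasurableSet {x : ℝ | (x, c) ∈ E} := measurable_prodMk_right hE
    refine fibre hr hS fun x => ?_
    unfold hh
    by_cases hx : (x, c) ∈ E ∩ {p : ℝ × ℝ | p.1 ^ 2 + p.2 ^ 2 < 1}
    · have h5 : x ∈ {x : ℝ | (x, c) ∈ E} ∩ Ioo (-√(1 - c ^ 2)) (√(1 - c ^ 2)) :=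
        ⟨hx.1, (disc_iff hc).mp hx.2⟩
      rw [indicator_of_mem hx, indicator_of_mem h5, hr2]
      congr 3
      ring
    · rw [indicator_of_notMem hx, indicator_of_notMem]
      rintro ⟨h1, h2⟩
      exact hx ⟨h1, (disc_iff hc).mpr h2⟩
  · rw [indicator_of_notMem hc]
    symm
    rw [lintegral_eq_zero_iff' (by
      exact ((measurable_hh hE).comp measurable_prodMk_right).aemeasurable)]
    refine Filter.Eventually.of_forall fun x => ?_
    refine indicator_of_notMem ?_ _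
    rintro ⟨-, h2⟩
    apply hc
    have h3 : x ^ 2 + c ^ 2 < 1 := h2
    constructor <;> nlinarith [sq_nonneg x]

lemma mapB {E : Set (ℝ × ℝ)} (hE : MeasurableSet E) :
    ((volume.restrict (Ioo (-1 : ℝ) 1)).prod (volume.restrict Hf)) (be ⁻¹' E) =
      ∫⁻ x, ∫⁻ c, hh E x c := by
  rw [Measure.prod_apply (measurable_be hE), ← lintegral_indicator measurableSet_Ioo]
  refine lintegral_congr fun x => ?_
  by_cases hc : x ∈ Ioo (-1 : ℝ) 1
  · rw [indicator_of_mem hc]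
    have hr : 0 < √(1 - x ^ 2) := Real.sqrt_pos.mpr (sq_of_mem hc)
    have hr2 : √(1 - x ^ 2) ^ 2 = 1 - x ^ 2 := Real.sq_sqrt (sq_of_mem hc).le
    have hS : MeasurableSet {c : ℝ | (x, c) ∈ E} := measurable_prodMk_left hE
    refine fibre hr hS fun c => ?_
    unfold hh
    by_cases hx : (x, c) ∈ E ∩ {p : ℝ × ℝ | p.1 ^ 2 + p.2 ^ 2 < 1}
    · have h3 : c ^ 2 + x ^ 2 < 1 := by
        have h4 : x ^ 2 + c ^ 2 < 1 := hx.2
        linarith
      have h5 : c ∈ {c : ℝ | (x, c) ∈ E} ∩ Ioo (-√(1 - x ^ 2)) (√(1 - x ^ 2)) :=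
        ⟨hx.1, (disc_iff hc).mp h3⟩
      rw [indicator_of_mem hx, indicator_of_mem h5, hr2]
    · rw [indicator_of_notMem hx, indicator_of_notMem]
      rintro ⟨h1, h2⟩
      refine hx ⟨h1, ?_⟩
      have h4 := (disc_iff hc).mpr h2
      show x ^ 2 + c ^ 2 < 1
      linarith
  · rw [indicator_of_notMem hc]
    symm
    rw [lintegral_eq_zero_iff' (by
      exact ((measurable_hh hE).comp measurable_prodMk_left).aemeasurable)]
    refine Filter.Eventually.of_forall fun c => ?_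
    refine indicator_of_notMem ?_ _
    rintro ⟨-, h2⟩
    apply hc
    have h3 : x ^ 2 + c ^ 2 < 1 := h2
    constructor <;> nlinarith [sq_nonneg c]

/-- The two pushed forward measures on the disc agree. -/
lemma maps_eq :
    ((volume.restrict Hf).prod (volume.restrict (Ioo (-1 : ℝ) 1))).map al =
      ((volume.restrict (Ioo (-1 : ℝ) 1)).prod (volume.restrict Hf)).map be := by
  ext E hE
  rw [Measure.map_apply measurable_al hE, Measure.map_apply measurable_be hE, mapA hE, mapB hE]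
  exact (lintegral_lintegral_swap (measurable_hh hE).aemeasurable).symm

lemma mp_rot {T : ℝ} (hT : 0 < T) (t a : ℝ) :
    MeasurePreserving (fun x => toIcoMod hT t (x - a))
      (volume.restrict (Ico t (t + T))) (volume.restrict (Ico t (t + T))) := by
  have h1 := (MppM.mp_refl hT t (-a)).comp (MppM.mp_refl hT t 0)
  have h2 : (fun x => toIcoMod hT t (-a - x)) ∘ (fun x => toIcoMod hT t (0 - x)) =
      fun x => toIcoMod hT t (x - a) := by
    funext x
    simp only [Function.comp_apply]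
    have h3 : toIcoMod hT t (0 - x) = (0 - x) - toIcoDiv hT t (0 - x) • T := rfl
    rw [h3, show -a - ((0 - x) - toIcoDiv hT t (0 - x) • T) =
      (x - a) + toIcoDiv hT t (0 - x) • T by ring, toIcoMod_add_zsmul]
  rwa [h2] at h1

/-- rotation of the half circle by `-a`, modulo `π` -/
noncomputable def hrot (a ψ : ℝ) : ℝ :=
  if 0 ≤ cos (ψ - a) then arcsin (sin (ψ - a)) else arcsin (-sin (ψ - a))

lemma hrot_eq {a ψ : ℝ} (h : cos (ψ - a) ≠ 0) :
    hrot a ψ = toIcoMod pi_pos (-(π / 2)) (ψ - a) := by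
  set y := ψ - a with hy
  set k := toIcoDiv pi_pos (-(π / 2)) y with hk
  have h1 : toIcoMod pi_pos (-(π / 2)) y = y - k * π := by
    rw [toIcoMod, zsmul_eq_mul]
  have hmem := toIcoMod_mem_Ico pi_pos (-(π / 2)) y
  rw [h1] at hmem ⊢
  have hc : cos (y - k * π) = (-1) ^ k * cos y := Real.cos_sub_int_mul_pi y k
  have hs : sin (y - k * π) = (-1) ^ k * sin y := Real.sin_sub_int_mul_pi y k
  have hlo : -(π / 2) ≤ y - k * π := hmem.1
  have hhi : y - k * π < π / 2 := by linarith [hmem.2]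
  have hc0 : 0 ≤ cos (y - k * π) := cos_nonneg_of_neg_pi_div_two_le_of_le hlo hhi.le
  have has : arcsin (sin (y - k * π)) = y - k * π := arcsin_sin hlo hhi.le
  rcases Int.even_or_odd k with he | ho
  · have h2 : ((-1 : ℝ)) ^ k = 1 := he.neg_one_zpow
    rw [h2, one_mul] at hc hs
    unfold hrot
    rw [← hy, if_pos (by rwa [← hc]), ← hs, has]
  · have h2 : ((-1 : ℝ)) ^ k = -1 := ho.neg_one_zpow
    rw [h2, neg_one_mul] at hc hs
    have h3 : cos y < 0 := lt_of_le_of_ne (by linarith) h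
    unfold hrot
    rw [← hy, if_neg (by linarith), ← hs, has]

lemma measurable_hrot {f g : ℝ × ℝ → ℝ} (hf : Measurable f) (hg : Measurable g) :
    Measurable (fun p : ℝ × ℝ => hrot (f p) (g p)) := by
  have h1 : Measurable (fun p : ℝ × ℝ => cos (g p - f p)) := by fun_prop
  have h2 : Measurable (fun p : ℝ × ℝ => sin (g p - f p)) := by fun_prop
  exact Measurable.ite (measurableSet_le measurable_const h1)
    (Real.measurable_arcsin.comp h2) (Real.measurable_arcsin.comp h2.neg)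

lemma restrict_Hf : (volume.restrict Hf : Measure ℝ) =
    volume.restrict (Ico (-(π / 2)) (-(π / 2) + π)) := by
  have : -(π / 2) + π = π / 2 := by ring
  rw [this]
  exact Measure.restrict_congr_set Ioo_ae_eq_Ico

lemma map_hrot (a : ℝ) : (volume.restrict Hf).map (hrot a) = volume.restrict Hf := by
  rw [restrict_Hf, ← (mp_rot pi_pos (-(π / 2)) a).map_eq]
  conv_rhs => rw [(mp_rot pi_pos (-(π / 2)) a).map_eq]
  rw [(mp_rot pi_pos (-(π / 2)) a).map_eq]
  conv_rhs => rw [← (mp_rot pi_pos (-(π / 2)) a).map_eq]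
  apply Measure.map_congr
  apply ae_restrict_of_ae
  have hz : volume {ψ : ℝ | cos (ψ - a) = 0} = 0 := by
    apply Set.Countable.measure_zero
    have : {ψ : ℝ | cos (ψ - a) = 0} ⊆ range (fun k : ℤ => a + (2 * (k : ℝ) + 1) * π / 2) := by
      intro ψ hψ
      obtain ⟨k, hk⟩ := Real.cos_eq_zero_iff.mp hψ
      exact ⟨k, by simp only; linarith⟩
    exact (countable_range _).mono this
  have hae : ∀ᵐ ψ : ℝ, cos (ψ - a) ≠ 0 := by
    rw [ae_iff]
    simpa using hz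
  filter_upwards [hae] with ψ hψ
  exact hrot_eq hψ

/-- the kick in the coordinates `(x, ψ)` -/
noncomputable def rr (b : ℝ) (G : ℝ → ℝ) (z : ℝ × ℝ) : ℝ × ℝ :=
  (z.1, if |z.1| < b then hrot (G z.1) z.2 else z.2)

/-- the kick in the coordinates `(x, c)` -/
noncomputable def kap (b : ℝ) (G : ℝ → ℝ) (z : ℝ × ℝ) : ℝ × ℝ :=
  (z.1, if |z.1| < b then
    (if -√(1 - z.1 ^ 2 - z.2 ^ 2) * cos (G z.1) - z.2 * sin (G z.1) ≤ 0 then
      -√(1 - z.1 ^ 2 - z.2 ^ 2) * sin (G z.1) + z.2 * cos (G z.1)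
    else -(-√(1 - z.1 ^ 2 - z.2 ^ 2) * sin (G z.1) + z.2 * cos (G z.1)))
    else z.2)

/-- the inverse of `al` -/
noncomputable def ali (z : ℝ × ℝ) : ℝ × ℝ := (arcsin (z.1 / √(1 - z.2 ^ 2)), z.2)

lemma measurable_ali : Measurable ali := by
  unfold ali
  exact (Real.measurable_arcsin.comp (by fun_prop)).prodMk measurable_snd

lemma measurableSet_abs (b : ℝ) : MeasurableSet {z : ℝ × ℝ | |z.1| < b} :=
  (isOpen_lt (by fun_prop) continuous_const).measurableSet

lemma measurable_if2 {b : ℝ} {f g : ℝ × ℝ → ℝ} (hf : Measurable f) (hg : Measurable g) :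
    Measurable (fun z : ℝ × ℝ => if |z.1| < b then f z else g z) :=
  Measurable.ite (measurableSet_abs b) hf hg

lemma measurable_rr2 {b : ℝ} {G : ℝ → ℝ} (hG : Measurable G) :
    Measurable (fun z : ℝ × ℝ => if |z.1| < b then hrot (G z.1) z.2 else z.2) :=
  measurable_if2 (measurable_hrot (hG.comp measurable_fst) measurable_snd) measurable_snd

lemma measurable_rr {b : ℝ} {G : ℝ → ℝ} (hG : Measurable G) : Measurable (rr b G) :=
  measurable_fst.prodMk (measurable_rr2 hG)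

lemma measurable_if {α : Type*} [MeasurableSpace α] {f g : α → ℝ} (hf : Measurable f)
    (hg : Measurable g) : Measurable (fun z => if f z ≤ 0 then g z else -g z) :=
  Measurable.ite (measurableSet_le hf measurable_const) hg hg.neg

lemma measurable_kap {b : ℝ} {G : ℝ → ℝ} (hG : Measurable G) : Measurable (kap b G) := by
  have h1 : Measurable (fun z : ℝ × ℝ =>
      -√(1 - z.1 ^ 2 - z.2 ^ 2) * cos (G z.1) - z.2 * sin (G z.1)) := by fun_prop
  have h2 : Measurable (fun z : ℝ × ℝ =>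
      -√(1 - z.1 ^ 2 - z.2 ^ 2) * sin (G z.1) + z.2 * cos (G z.1)) := by fun_prop
  exact measurable_fst.prodMk
    (Measurable.ite (measurableSet_abs b) (measurable_if h1 h2) measurable_snd)

lemma mp_rr {b : ℝ} {G : ℝ → ℝ} (hG : Measurable G) :
    MeasurePreserving (rr b G) ((volume.restrict (Ioo (-1 : ℝ) 1)).prod (volume.restrict Hf))
      ((volume.restrict (Ioo (-1 : ℝ) 1)).prod (volume.restrict Hf)) := by
  refine (MeasurePreserving.id (volume.restrict (Ioo (-1 : ℝ) 1))).skew_product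
    (g := fun x ψ => if |x| < b then hrot (G x) ψ else ψ) ?_ ?_
  · exact measurable_rr2 hG
  · refine Filter.Eventually.of_forall fun x => ?_
    by_cases hx : |x| < b
    · simp only [hx, if_true]
      exact map_hrot (G x)
    · simp only [hx, if_false]
      exact Measure.map_id

lemma kap_be {b : ℝ} {G : ℝ → ℝ} {x ψ : ℝ} (hx : x ∈ Ioo (-1 : ℝ) 1) (hψ : ψ ∈ Hf) :
    kap b G (be (x, ψ)) = be (rr b G (x, ψ)) := by
  have hr : 0 < 1 - x ^ 2 := sq_of_mem hx
  have hc : 0 < cos ψ := cos_pos_of_mem_Ioo hψ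
  have hs : √(1 - x ^ 2) ^ 2 = 1 - x ^ 2 := Real.sq_sqrt hr.le
  have hs0 : 0 < √(1 - x ^ 2) := Real.sqrt_pos.mpr hr
  have hD : √(1 - x ^ 2 - (√(1 - x ^ 2) * sin ψ) ^ 2) = √(1 - x ^ 2) * cos ψ := by
    have : 1 - x ^ 2 - (√(1 - x ^ 2) * sin ψ) ^ 2 = (√(1 - x ^ 2) * cos ψ) ^ 2 := by
      rw [mul_pow, mul_pow, hs, Real.sin_sq]
      ring
    rw [this, Real.sqrt_sq (by positivity)]
  unfold kap be rr
  simp only
  by_cases hb : |x| < b
  · rw [if_pos hb, if_pos hb, hD]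
    have e1 : -(√(1 - x ^ 2) * cos ψ) * cos (G x) - √(1 - x ^ 2) * sin ψ * sin (G x) =
        -(√(1 - x ^ 2) * cos (ψ - G x)) := by
      rw [Real.cos_sub]
      ring
    have e2 : -(√(1 - x ^ 2) * cos ψ) * sin (G x) + √(1 - x ^ 2) * sin ψ * cos (G x) =
        √(1 - x ^ 2) * sin (ψ - G x) := by
      rw [Real.sin_sub]
      ring
    rw [e1, e2]
    have hl := Real.neg_one_le_sin (ψ - G x)
    have hu := Real.sin_le_one (ψ - G x)
    unfold hrot
    by_cases h0 : 0 ≤ cos (ψ - G x)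
    · rw [if_pos (by nlinarith), if_pos h0, Real.sin_arcsin hl hu]
    · rw [if_neg (by
        intro h1
        apply h0
        by_contra h2
        push Not at h2
        nlinarith), if_neg h0, Real.sin_arcsin (by linarith) (by linarith)]
      rw [mul_neg]
  · rw [if_neg hb, if_neg hb]

lemma ali_al {Θ c : ℝ} (hΘ : Θ ∈ Hf) (hc : c ∈ Ioo (-1 : ℝ) 1) : ali (al (Θ, c)) = (Θ, c) := by
  have hs0 : 0 < √(1 - c ^ 2) := Real.sqrt_pos.mpr (sq_of_mem hc)
  unfold ali al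
  simp only
  rw [mul_div_cancel_left₀ _ hs0.ne', Real.arcsin_sin hΘ.1.le hΘ.2.le]

lemma qMap_eq {b : ℝ} {G : ℝ → ℝ} {Θ c : ℝ} (hΘ : Θ ∈ Hf) (hc : c ∈ Ioo (-1 : ℝ) 1) :
    qMap b G (Θ, c) = ali (kap b G (al (Θ, c))) := by
  have hr : 0 < 1 - c ^ 2 := sq_of_mem hc
  have hcos : 0 < cos Θ := cos_pos_of_mem_Ioo hΘ
  have hcos2 : 0 < cos (Θ / 2) := by
    apply cos_pos_of_mem_Ioo
    have h1 := hΘ.1
    have h2 := hΘ.2
    have := pi_pos
    constructor <;> linarith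
  have hs : √(1 - c ^ 2) ^ 2 = 1 - c ^ 2 := Real.sq_sqrt hr.le
  have hs0 : 0 < √(1 - c ^ 2) := Real.sqrt_pos.mpr hr
  have hD : √(1 - (√(1 - c ^ 2) * sin Θ) ^ 2 - c ^ 2) = √(1 - c ^ 2) * cos Θ := by
    have : 1 - (√(1 - c ^ 2) * sin Θ) ^ 2 - c ^ 2 = (√(1 - c ^ 2) * cos Θ) ^ 2 := by
      rw [mul_pow, mul_pow, hs, Real.sin_sq]
      ring
    rw [this, Real.sqrt_sq (by positivity)]
  by_cases hb : |√(1 - c ^ 2) * sin Θ| < b
  · have hq : qC G (Θ, c) = (kap b G (al (Θ, c))).2 := by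
      unfold qC kap al
      simp only
      rw [if_pos hb, hD]
    unfold qMap
    simp only
    rw [if_pos ⟨hcos, hb⟩, if_pos hcos2, hq, zero_add]
    rfl
  · have hk : kap b G (al (Θ, c)) = al (Θ, c) := by
      unfold kap al
      simp only
      rw [if_neg hb]
    rw [hk, ali_al hΘ hc]
    unfold qMap
    simp only
    rw [if_neg]
    rintro ⟨-, h2⟩
    exact hb h2

/-- the first near square -/
def Z0 : Set (ℝ × ℝ) := Hf ×ˢ Ioo (-1 : ℝ) 1

lemma measurableSet_Z0 : MeasurableSet Z0 := measurableSet_Ioo.prod measurableSet_Ioo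

lemma vol_Z0 : (volume : Measure (ℝ × ℝ)).restrict Z0 =
    (volume.restrict Hf).prod (volume.restrict (Ioo (-1 : ℝ) 1)) := by
  rw [Measure.prod_restrict, ← Measure.volume_eq_prod, Z0]

lemma map_q0 {b : ℝ} {G : ℝ → ℝ} (hG : Measurable G) :
    ((volume : Measure (ℝ × ℝ)).restrict Z0).map (qMap b G) = volume.restrict Z0 := by
  have h1 : ((volume : Measure (ℝ × ℝ)).restrict Z0).map (qMap b G) =
      ((volume : Measure (ℝ × ℝ)).restrict Z0).map (ali ∘ kap b G ∘ al) := by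
    apply Measure.map_congr
    refine (ae_restrict_iff' measurableSet_Z0).mpr (Filter.Eventually.of_forall ?_)
    rintro ⟨Θ, c⟩ ⟨h1, h2⟩
    exact qMap_eq h1 h2
  rw [h1]
  have h2 : ((volume : Measure (ℝ × ℝ)).restrict Z0).map (ali ∘ kap b G ∘ al) =
      ((((volume : Measure (ℝ × ℝ)).restrict Z0).map al).map (kap b G)).map ali := by
    rw [Measure.map_map (measurable_kap hG) measurable_al,
      Measure.map_map measurable_ali ((measurable_kap hG).comp measurable_al)]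
  have h3 : (((volume.restrict (Ioo (-1 : ℝ) 1)).prod (volume.restrict Hf)).map be).map
      (kap b G) = ((volume.restrict (Ioo (-1 : ℝ) 1)).prod (volume.restrict Hf)).map be := by
    rw [Measure.map_map (measurable_kap hG) measurable_be]
    have h4 : ((volume.restrict (Ioo (-1 : ℝ) 1)).prod (volume.restrict Hf)).map
        (kap b G ∘ be) =
        ((volume.restrict (Ioo (-1 : ℝ) 1)).prod (volume.restrict Hf)).map (be ∘ rr b G) := by
      apply Measure.map_congr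
      rw [Measure.prod_restrict]
      refine (ae_restrict_iff' (measurableSet_Ioo.prod measurableSet_Ioo)).mpr
        (Filter.Eventually.of_forall ?_)
      rintro ⟨x, ψ⟩ ⟨h1, h2⟩
      exact kap_be h1 h2
    rw [h4, ← Measure.map_map measurable_be (measurable_rr hG), (mp_rr hG).map_eq]
  rw [h2, vol_Z0, maps_eq, h3, ← maps_eq, Measure.map_map measurable_ali measurable_al,
    ← vol_Z0]
  have h5 : ((volume : Measure (ℝ × ℝ)).restrict Z0).map (ali ∘ al) =
      ((volume : Measure (ℝ × ℝ)).restrict Z0).map id := by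
    apply Measure.map_congr
    refine (ae_restrict_iff' measurableSet_Z0).mpr (Filter.Eventually.of_forall ?_)
    rintro ⟨Θ, c⟩ ⟨h1, h2⟩
    exact ali_al h1 h2
  rw [h5, Measure.map_id]

lemma measurable_qC {G : ℝ → ℝ} (hG : Measurable G) : Measurable (qC G) := by
  have h1 : Measurable (fun z : ℝ × ℝ => -(√(1 - z.2 ^ 2) * cos z.1) *
      cos (G (√(1 - z.2 ^ 2) * sin z.1)) - z.2 * sin (G (√(1 - z.2 ^ 2) * sin z.1))) := by
    fun_prop
  have h2 : Measurable (fun z : ℝ × ℝ => -(√(1 - z.2 ^ 2) * cos z.1) *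
      sin (G (√(1 - z.2 ^ 2) * sin z.1)) + z.2 * cos (G (√(1 - z.2 ^ 2) * sin z.1))) := by
    fun_prop
  exact measurable_if h1 h2

lemma measurable_qMap {b : ℝ} {G : ℝ → ℝ} (hG : Measurable G) : Measurable (qMap b G) := by
  classical
  have h1 : Measurable (fun z : ℝ × ℝ => cos z.1) := by fun_prop
  have h2 : Measurable (fun z : ℝ × ℝ => |√(1 - z.2 ^ 2) * sin z.1|) := by fun_prop
  have h3 : Measurable (fun z : ℝ × ℝ => cos (z.1 / 2)) := by fun_prop
  have hq := measurable_qC hG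
  have h4 : Measurable (fun z : ℝ × ℝ => arcsin (√(1 - z.2 ^ 2) * sin z.1 /
      √(1 - qC G z ^ 2))) := by
    refine Real.measurable_arcsin.comp ?_
    fun_prop
  have h5 : Measurable (fun z : ℝ × ℝ => if 0 < cos (z.1 / 2) then (0 : ℝ) else 2 * π) :=
    Measurable.ite (measurableSet_lt measurable_const h3) measurable_const measurable_const
  unfold qMap
  exact Measurable.ite ((measurableSet_lt measurable_const h1).inter
      (measurableSet_lt h2 measurable_const)) ((h5.add h4).prodMk hq) measurable_id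

/-- the shift between the two near squares -/
noncomputable def ta (z : ℝ × ℝ) : ℝ × ℝ := z + ((2 * π, 0) : ℝ × ℝ)

lemma measurable_ta : Measurable ta := measurable_id.add_const _

/-- the second near square -/
def Z2 : Set (ℝ × ℝ) := Ioo (3 * π / 2) (5 * π / 2) ×ˢ Ioo (-1 : ℝ) 1

lemma ta_pre : ta ⁻¹' Z2 = Z0 := by
  ext z
  simp only [ta, Z2, Z0, Hf, mem_preimage, mem_prod, mem_Ioo, Prod.fst_add, Prod.snd_add,
    add_zero]
  constructor
  · rintro ⟨⟨h1, h2⟩, h3⟩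
    exact ⟨⟨by linarith, by linarith⟩, h3⟩
  · rintro ⟨⟨h1, h2⟩, h3⟩
    exact ⟨⟨by linarith, by linarith⟩, h3⟩

lemma measurableSet_Z2 : MeasurableSet Z2 := measurableSet_Ioo.prod measurableSet_Ioo

lemma map_ta : ((volume : Measure (ℝ × ℝ)).restrict Z0).map ta = volume.restrict Z2 := by
  have h := (measurePreserving_add_right (volume : Measure (ℝ × ℝ)) ((2 * π, 0) : ℝ × ℝ))
  have h2 := h.restrict_preimage measurableSet_Z2
  have h3 : (fun z : ℝ × ℝ => z + ((2 * π, 0) : ℝ × ℝ)) ⁻¹' Z2 = Z0 := ta_pre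
  rw [h3] at h2
  exact h2.map_eq

lemma q_ta {b : ℝ} {G : ℝ → ℝ} {z : ℝ × ℝ} (hz : z ∈ Z0) :
    qMap b G (ta z) = ta (qMap b G z) := by
  obtain ⟨Θ, c⟩ := z
  obtain ⟨hΘ, hc⟩ := hz
  have e : ta (Θ, c) = (Θ + 2 * π, c) := by
    simp [ta]
  have hcos2 : 0 < cos (Θ / 2) := by
    apply cos_pos_of_mem_Ioo
    have h1 := hΘ.1
    have h2 := hΘ.2
    simp only at h1 h2
    have := pi_pos
    constructor <;> linarith
  have h1 : cos ((Θ + 2 * π) / 2) = -cos (Θ / 2) := by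
    rw [show (Θ + 2 * π) / 2 = Θ / 2 + π by ring, Real.cos_add_pi]
  have h2 : sin (Θ + 2 * π) = sin Θ := Real.sin_add_two_pi Θ
  have h3 : cos (Θ + 2 * π) = cos Θ := Real.cos_add_two_pi Θ
  have h4 : qC G (Θ + 2 * π, c) = qC G (Θ, c) := by
    unfold qC
    simp only [h2, h3]
  rw [e]
  unfold qMap
  simp only [h2, h3, h4]
  by_cases hk : 0 < cos Θ ∧ |√(1 - c ^ 2) * sin Θ| < b
  · rw [if_pos hk, if_pos hk, if_neg (by rw [h1]; linarith), if_pos hcos2]
    simp [ta]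
    ring
  · rw [if_neg hk, if_neg hk, ← e]

lemma map_q2 {b : ℝ} {G : ℝ → ℝ} (hG : Measurable G) :
    ((volume : Measure (ℝ × ℝ)).restrict Z2).map (qMap b G) = volume.restrict Z2 := by
  rw [← map_ta, Measure.map_map (measurable_qMap hG) measurable_ta]
  have h : ((volume : Measure (ℝ × ℝ)).restrict Z0).map (qMap b G ∘ ta) =
      ((volume : Measure (ℝ × ℝ)).restrict Z0).map (ta ∘ qMap b G) := by
    apply Measure.map_congr
    refine (ae_restrict_iff' measurableSet_Z0).mpr (Filter.Eventually.of_forall ?_)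
    intro z hz
    exact q_ta hz
  rw [h, ← Measure.map_map measurable_ta (measurable_qMap hG), map_q0 hG]

lemma cos_rest {z : ℝ × ℝ} (hz : z ∈ Dom) (h0 : z ∉ Z0) (h2 : z ∉ Z2) : cos z.1 ≤ 0 := by
  obtain ⟨h3, h4, h5⟩ := hz
  have hc : z.2 ∈ Ioo (-1 : ℝ) 1 := abs_lt.mp h5
  have hp := pi_pos
  have h6 : ¬ (z.1 < π / 2 ∧ -(π / 2) < z.1) := fun h => h0 ⟨⟨h.2, h.1⟩, hc⟩
  have h7 : ¬ (3 * π / 2 < z.1 ∧ z.1 < 5 * π / 2) := fun h => h2 ⟨h, hc⟩
  by_cases h8 : z.1 = -(π / 2)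
  · rw [h8, Real.cos_neg, Real.cos_pi_div_two]
  have h9 : π / 2 ≤ z.1 := by
    by_contra h
    push Not at h
    exact h6 ⟨h, lt_of_le_of_ne h3 (Ne.symm h8)⟩
  by_cases h10 : z.1 ≤ 3 * π / 2
  · exact Real.cos_nonpos_of_pi_div_two_le_of_le h9 (by linarith)
  · push Not at h10
    have h11 : 5 * π / 2 ≤ z.1 := by
      by_contra h
      push Not at h
      exact h7 ⟨h10, h⟩
    rw [← Real.cos_sub_two_pi]
    exact Real.cos_nonpos_of_pi_div_two_le_of_le (by linarith) (by linarith)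

lemma map_qR {b : ℝ} {G : ℝ → ℝ} :
    ((volume : Measure (ℝ × ℝ)).restrict (Dom \ (Z0 ∪ Z2))).map (qMap b G) =
      volume.restrict (Dom \ (Z0 ∪ Z2)) := by
  have hD : MeasurableSet Dom := by
    rw [MppM.Dom_eq]
    exact measurableSet_Ico.prod (isOpen_lt continuous_abs continuous_const).measurableSet
  have h : ((volume : Measure (ℝ × ℝ)).restrict (Dom \ (Z0 ∪ Z2))).map (qMap b G) =
      ((volume : Measure (ℝ × ℝ)).restrict (Dom \ (Z0 ∪ Z2))).map id := by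
    apply Measure.map_congr
    refine (ae_restrict_iff' (hD.diff (measurableSet_Z0.union measurableSet_Z2))).mpr
      (Filter.Eventually.of_forall ?_)
    rintro z ⟨hz, hz2⟩
    have := cos_rest hz (fun h => hz2 (Or.inl h)) (fun h => hz2 (Or.inr h))
    unfold qMap
    rw [if_neg]
    · rfl
    · rintro ⟨h1, -⟩
      linarith
  rw [h, Measure.map_id]

end MpqM

open MpqM in
theorem specMPQ : SpecMPQ := by
  intro b s F G h
  have hG : Measurable G := h.G_smooth.continuous.measurable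
  refine ⟨measurable_qMap hG, ?_⟩
  have hD : MeasurableSet Dom := by
    rw [MppM.Dom_eq]
    exact measurableSet_Ico.prod (isOpen_lt continuous_abs continuous_const).measurableSet
  have hp := pi_pos
  have hsub : Z0 ∪ Z2 ⊆ Dom := by
    rintro z (⟨⟨h1, h2⟩, h3⟩ | ⟨⟨h1, h2⟩, h3⟩)
    · exact ⟨h1.le, by linarith, abs_lt.mpr h3⟩
    · exact ⟨by linarith, by linarith, abs_lt.mpr h3⟩
  have hdis : Disjoint Z0 Z2 := by
    rw [Set.disjoint_left]
    rintro z ⟨⟨h1, h2⟩, h3⟩ ⟨⟨h4, h5⟩, h6⟩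
    linarith
  have hdec : muY = volume.restrict Z0 + volume.restrict Z2 +
      volume.restrict (Dom \ (Z0 ∪ Z2)) := by
    have h1 : Dom = (Z0 ∪ Z2) ∪ (Dom \ (Z0 ∪ Z2)) := (union_sdiff_cancel hsub).symm
    rw [muY]
    conv_lhs => rw [h1]
    rw [Measure.restrict_union disjoint_sdiff_right
      (hD.diff (measurableSet_Z0.union measurableSet_Z2)),
      Measure.restrict_union hdis measurableSet_Z2]
  rw [hdec, Measure.map_add _ _ (measurable_qMap hG), Measure.map_add _ _ (measurable_qMap hG),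
    map_q0 hG, map_q2 hG, map_qR]

end Pool.Agent.Lib.MP_d2b992_gt.Dyn
end

section
/-!
# Dynamics of the ergodic sphere: module PTH (short paths stay in the near square)
-/
set_option autoImplicit false

open MeasureTheory Filter Topology Set
open scoped ContDiff

namespace Pool.Agent.Lib.MP_d2b992_gt.Dyn.PthM

theorem rho_rho (n : V3) : rho (rho n) = n := by
  simp [rho]

/-- the vector of a path is its lift up to `rho` -/
theorem lift_snd (b s : ℝ) (z : ℝ → XS) (κ : ℝ → V3) (t : ℝ) (h : Lift b s z κ t) :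
    ∀ᶠ r in 𝓝 t, (z r).2 = κ r ∨ (z r).2 = rho (κ r) := by
  obtain ⟨-, -, h⟩ := h
  rcases h with ⟨-, Θ, -, h⟩ | ⟨-, j, -, h⟩ | ⟨-, h | h⟩
  · filter_upwards [h] with r hr
    left
    rw [hr.1]
    exact hr.2.symm
  · filter_upwards [h] with r hr
    rw [hr]
    unfold secQ
    split_ifs
    · exact Or.inl rfl
    · exact Or.inr rfl
  · filter_upwards [h] with r hr
    rw [hr]
    unfold secF
    split_ifs
    · exact Or.inl rfl
    · exact Or.inr rfl
  · filter_upwards [h] with r hr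
    rw [hr]
    unfold secF
    split_ifs
    · exact Or.inr rfl
    · exact Or.inl (rho_rho _)

/-- a unit vector with `D < 0` in terms of `x`, `c` -/
theorem eq_chart (n : V3) (h1 : dot n n = 1) (h2 : n.2.1 < 0) :
    n = (n.1, -Real.sqrt (1 - n.1 ^ 2 - n.2.2 ^ 2), n.2.2) := by
  have h3 : 1 - n.1 ^ 2 - n.2.2 ^ 2 = (-n.2.1) ^ 2 := by
    unfold dot at h1
    nlinarith
  rw [h3, Real.sqrt_sq (by linarith), neg_neg]

theorem abs_le_vel (κ : ℝ → V3) (t : ℝ) :
    |(deriv κ t).1| ≤ vel κ t ∧ |(deriv κ t).2.2| ≤ vel κ t := by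
  unfold vel dot
  constructor
  · apply Real.abs_le_sqrt
    nlinarith [sq_nonneg (deriv κ t).2.1, sq_nonneg (deriv κ t).2.2]
  · apply Real.abs_le_sqrt
    nlinarith [sq_nonneg (deriv κ t).2.1, sq_nonneg (deriv κ t).1]

theorem continuousAt_vel (κ : ℝ → V3) (t : ℝ) (h : ContDiffAt ℝ 2 κ t) :
    ContinuousAt (vel κ) t := by
  have h1 : ContinuousAt (fderiv ℝ κ) t :=
    (h.fderiv_right (m := 1) (by norm_num)).continuousAt
  have h2 : ContinuousAt (deriv κ) t := by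
    have h3 : deriv κ = fun r => fderiv ℝ κ r 1 := by
      funext r
      exact (fderiv_apply_one_eq_deriv).symm
    rw [h3]
    exact h1.clm_apply continuousAt_const
  unfold vel dot
  fun_prop

/-- The chart near a parameter with a lift whose point has `D ≠ 0`: constant label. -/
theorem local_chart (hL1 : SpecL1) (b s : ℝ) (hb : 0 < b) (hs : 0 < s) (hbs : s ^ 2 + b ^ 2 = 1)
    (z : ℝ → XS) (κ : ℝ → V3) (t : ℝ) (h : Lift b s z κ t) (hD : (κ t).2.1 ≠ 0) (j : Bool)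
    (hj : ∃ᶠ r in 𝓝 t, ∃ x c : ℝ, z r = chX j x c) :
    ∃ κ' : ℝ → V3, (∀ᶠ r in 𝓝 t, Lift b s z κ' r) ∧
      (∀ᶠ r in 𝓝 t, z r = chX j (κ' r).1 (κ' r).2.2) ∧ ContinuousAt κ' t := by
  obtain ⟨j0, κ', -, hL, hz, hsg⟩ := (hL1 b s hb hs hbs).2.2.1 z κ t h hD
  have hopen := (hL1 b s hb hs hbs).1 z κ' t hL
  have hcont : ContinuousAt κ' t := hL.1.continuousAt
  refine ⟨κ', hopen, ?_, hcont⟩
  -- the label
  have hj0 : j0 = if j then 2 else 0 := by
    obtain ⟨r, ⟨x, c, hr⟩, hr'⟩ := (hj.and_eventually hz).exists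
    rw [hr] at hr'
    have := congrArg Prod.fst hr'
    simpa [chX] using this.symm
  have hneg : (κ' t).2.1 < 0 := by
    rcases hsg with ⟨-, h1⟩ | ⟨h1, -⟩
    · exact h1
    · exfalso
      cases j <;> simp at hj0 <;> omega
  have hneg' : ∀ᶠ r in 𝓝 t, (κ' r).2.1 < 0 := by
    have h2 : ContinuousAt (fun r => (κ' r).2.1) t := by fun_prop
    exact h2.eventually_lt_const hneg
  filter_upwards [hneg', hL.2.1, hz] with r h1 h2 h3
  rw [h3, hj0]
  unfold chX
  rw [← eq_chart (κ' r) h2 h1]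

end Pool.Agent.Lib.MP_d2b992_gt.Dyn.PthM

namespace Pool.Agent.Lib.MP_d2b992_gt.Dyn

open PthM in
/-- PTH: a short path starting in a near square stays there. -/
theorem specPTH (hL1 : SpecL1) : SpecPTH := by
  intro b s hb hs hbs z v r₁ r₂ δ j x c hlift hv hx hc hz hint
  have hδ : 0 ≤ δ := (abs_nonneg _).trans hint
  set L := r₂ - r₁ with hLdef
  set γ : ℝ → ℝ := fun σ => r₁ + σ * L with hγ
  have hγI : ∀ σ ∈ Icc (0 : ℝ) 1, γ σ ∈ uIcc r₁ r₂ := by
    intro σ hσ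
    rw [← segment_eq_uIcc, segment_eq_image']
    exact ⟨σ, hσ, by simp [hγ, hLdef]⟩
  have hγc : Continuous γ := by fun_prop
  -- `v` is continuous and nonnegative on the interval
  have hv0 : ∀ r ∈ uIcc r₁ r₂, 0 ≤ v r := by
    intro r hr
    obtain ⟨κ, hκ⟩ := hlift r hr
    rw [hv r hr κ hκ]
    exact Real.sqrt_nonneg _
  have hvc : ContinuousOn v (uIcc r₁ r₂) := by
    intro r hr
    obtain ⟨κ, hκ⟩ := hlift r hr
    have h1 : ContinuousWithinAt (vel κ) (uIcc r₁ r₂) r :=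
      (continuousAt_vel κ r hκ.1).continuousWithinAt
    refine h1.congr_of_eventuallyEq ?_ (hv r hr κ hκ)
    have h2 := (hL1 b s hb hs hbs).1 z κ r hκ
    filter_upwards [self_mem_nhdsWithin, nhdsWithin_le_nhds h2] with r' hr' h3
    exact hv r' hr' κ h3
  -- the speed on `[0,1]`, extended continuously
  set w0 : Icc (0 : ℝ) 1 → ℝ := fun τ => v (γ τ) * |L| with hw0
  have hw0c : Continuous w0 := by
    have h1 : Continuous fun τ : Icc (0 : ℝ) 1 => v (γ τ) := by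
      have h2 : ContinuousOn (fun τ : ℝ => v (γ τ)) (Icc 0 1) :=
        hvc.comp hγc.continuousOn fun τ hτ => hγI τ hτ
      exact continuousOn_iff_continuous_domRestrict.1 h2
    exact h1.mul continuous_const
  set w : ℝ → ℝ := IccExtend (zero_le_one : (0 : ℝ) ≤ 1) w0 with hw
  have hwc : Continuous w := hw0c.Icc_extend'
  have hwe : ∀ τ ∈ Icc (0 : ℝ) 1, w τ = v (γ τ) * |L| := by
    intro τ hτ
    rw [hw, IccExtend_of_mem _ _ hτ]
  have hwn : ∀ τ, 0 ≤ w τ := by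
    intro τ
    rw [hw, IccExtend]
    exact mul_nonneg (hv0 _ (hγI _ (projIcc (0 : ℝ) 1 zero_le_one τ).2)) (abs_nonneg _)
  set h : ℝ → ℝ := fun σ => ∫ τ in (0 : ℝ)..σ, w τ with hh
  have hhd : ∀ σ, HasDerivAt h (w σ) σ := fun σ => by
    exact intervalIntegral.integral_hasDerivAt_right (hwc.intervalIntegrable _ _)
      hwc.aestronglyMeasurable.stronglyMeasurableAtFilter hwc.continuousAt
  have hhc : Continuous h := continuous_iff_continuousAt.2 fun σ => (hhd σ).continuousAt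
  have hmono : Monotone h := by
    apply monotone_of_deriv_nonneg
    · exact fun σ => (hhd σ).differentiableAt
    · intro σ
      rw [(hhd σ).deriv]
      exact hwn σ
  have hh0 : h 0 = 0 := by simp [hh]
  have hh1 : h 1 ≤ δ := by
    refine le_trans (le_of_eq ?_) hint
    have h1 : h 1 = (∫ τ in (0 : ℝ)..1, v (γ τ)) * |L| := by
      rw [hh, ← intervalIntegral.integral_mul_const]
      apply intervalIntegral.integral_congr
      intro τ hτ
      rw [uIcc_of_le zero_le_one] at hτ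
      exact hwe τ hτ
    have h2 : L * ∫ τ in (0 : ℝ)..1, v (γ τ) = ∫ r in r₁..r₂, v r := by
      have h3 := intervalIntegral.mul_integral_comp_add_mul (f := v) (a := 0) (b := 1) L r₁
      rw [mul_zero, mul_one, add_zero, show r₁ + L = r₂ by rw [hLdef]; ring] at h3
      rw [← h3]
      congr 1
      apply intervalIntegral.integral_congr
      intro τ _
      simp only [hγ]
      rw [mul_comm]
    have h4 : 0 ≤ ∫ τ in (0 : ℝ)..1, v (γ τ) := by
      apply intervalIntegral.integral_nonneg zero_le_one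
      exact fun τ hτ => hv0 _ (hγI τ hτ)
    rw [← h2, h1, abs_mul, abs_of_nonneg h4, mul_comm]
  -- the good set
  set S : Set ℝ := {σ | ∃ x' c' : ℝ, |x' - x| ≤ h σ ∧ |c' - c| ≤ h σ ∧ z (γ σ) = chX j x' c'}
    with hS
  have hbd : ∀ σ ≤ 1, ∀ x' c' : ℝ, |x' - x| ≤ h σ → |c' - c| ≤ h σ →
      |x'| ≤ |x| + δ ∧ |c'| ≤ |c| + δ := by
    intro σ hσ x' c' h1 h2
    have h3 := (hmono hσ).trans hh1
    have h4 := abs_sub_abs_le_abs_sub x' x
    have h5 := abs_sub_abs_le_abs_sub c' c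
    constructor <;> linarith
  have hm : 0 < 1 - (|x| + δ) ^ 2 - (|c| + δ) ^ 2 := by
    have h1 : (|x| + δ) ^ 2 < b ^ 2 := by
      have := abs_nonneg x
      gcongr
    have h2 : (|c| + δ) ^ 2 < s ^ 2 := by
      have := abs_nonneg c
      gcongr
    linarith
  set m := Real.sqrt (1 - (|x| + δ) ^ 2 - (|c| + δ) ^ 2) with hmdef
  have hm0 : 0 < m := Real.sqrt_pos.2 hm
  have hDm : ∀ x' c' : ℝ, |x'| ≤ |x| + δ → |c'| ≤ |c| + δ →
      m ≤ |(chX j x' c').2.2.1| := by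
    intro x' c' h1 h2
    unfold chX
    simp only [abs_neg]
    rw [abs_of_nonneg (Real.sqrt_nonneg _), hmdef]
    apply Real.sqrt_le_sqrt
    have h3 : x' ^ 2 ≤ (|x| + δ) ^ 2 := by
      rw [← sq_abs x']
      gcongr
    have h4 : c' ^ 2 ≤ (|c| + δ) ^ 2 := by
      rw [← sq_abs c']
      gcongr
    linarith
  -- the chart near a limit point of good parameters
  have key : ∀ σ ∈ Icc (0 : ℝ) 1, (∃ᶠ τ in 𝓝 σ, τ ∈ S ∩ Icc (0 : ℝ) 1) →
      ∃ κ' : ℝ → V3, (∀ᶠ r in 𝓝 (γ σ), Lift b s z κ' r) ∧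
        (∀ᶠ r in 𝓝 (γ σ), z r = chX j (κ' r).1 (κ' r).2.2) ∧ ContinuousAt κ' (γ σ) := by
    intro σ hσ hfr
    obtain ⟨κ, hκ⟩ := hlift (γ σ) (hγI σ hσ)
    have hsnd := lift_snd b s z κ _ hκ
    have hγt : Tendsto γ (𝓝 σ) (𝓝 (γ σ)) := hγc.continuousAt
    have hD : m ≤ |(κ (γ σ)).2.1| := by
      have h1 : ContinuousAt (fun τ => |(κ (γ τ)).2.1|) σ := by
        have h2 : ContinuousAt κ (γ σ) := hκ.1.continuousAt
        have h3 : ContinuousAt (fun τ => κ (γ τ)) σ := h2.comp hγc.continuousAt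
        fun_prop
      refine isClosed_Ici.mem_of_frequently_of_tendsto ?_ h1
      refine (hfr.and_eventually (hγt.eventually hsnd)).mono fun τ hτ => ?_
      obtain ⟨⟨⟨x', c', h2, h3, h4⟩, h5⟩, h6⟩ := hτ
      have h7 := hbd τ h5.2 x' c' h2 h3
      have h8 := hDm x' c' h7.1 h7.2
      rw [← h4] at h8
      refine h8.trans (le_of_eq ?_)
      rcases h6 with h6 | h6
      · rw [h6]
      · rw [h6]
        simp [rho]
    have hD' : (κ (γ σ)).2.1 ≠ 0 := by
      intro h0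
      rw [h0, abs_zero] at hD
      linarith
    refine local_chart hL1 b s hb hs hbs z κ _ hκ hD' j ?_
    refine hγt.frequently (hfr.mono fun τ hτ => ?_)
    obtain ⟨⟨x', c', -, -, h4⟩, -⟩ := hτ
    exact ⟨x', c', h4⟩
  have hall : Icc (0 : ℝ) 1 ⊆ S := by
    apply IsClosed.Icc_subset_of_forall_mem_nhdsWithin
    · -- closedness
      rw [isClosed_iff_frequently]
      intro σ hfr
      have hσ : σ ∈ Icc (0 : ℝ) 1 :=
        isClosed_Icc.mem_of_frequently_of_tendsto (hfr.mono fun τ hτ => hτ.2) tendsto_id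
      refine ⟨?_, hσ⟩
      obtain ⟨κ', -, hz', hcont⟩ := key σ hσ hfr
      have hγt : Tendsto γ (𝓝 σ) (𝓝 (γ σ)) := hγc.continuousAt
      have hκγ : ContinuousAt (fun τ => κ' (γ τ)) σ :=
        ContinuousAt.comp (f := γ) (g := κ') hcont hγc.continuousAt
      refine ⟨(κ' (γ σ)).1, (κ' (γ σ)).2.2, ?_, ?_, hz'.self_of_nhds⟩
      · have h1 : ContinuousAt (fun τ => h τ - |(κ' (γ τ)).1 - x|) σ := by
          have := hhc.continuousAt (x := σ)
          fun_prop
        have h2 : 0 ≤ h σ - |(κ' (γ σ)).1 - x| := by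
          refine isClosed_Ici.mem_of_frequently_of_tendsto ?_ h1
          refine (hfr.and_eventually (hγt.eventually hz')).mono fun τ hτ => ?_
          obtain ⟨⟨⟨x', c', h2, h3, h4⟩, h5⟩, h6⟩ := hτ
          rw [h4] at h6
          have h7 := congrArg (fun p : XS => p.2.1) h6
          simp only [chX] at h7
          rw [← h7]
          exact sub_nonneg.2 h2
        linarith
      · have h1 : ContinuousAt (fun τ => h τ - |(κ' (γ τ)).2.2 - c|) σ := by
          have := hhc.continuousAt (x := σ)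
          fun_prop
        have h2 : 0 ≤ h σ - |(κ' (γ σ)).2.2 - c| := by
          refine isClosed_Ici.mem_of_frequently_of_tendsto ?_ h1
          refine (hfr.and_eventually (hγt.eventually hz')).mono fun τ hτ => ?_
          obtain ⟨⟨⟨x', c', h2, h3, h4⟩, h5⟩, h6⟩ := hτ
          rw [h4] at h6
          have h7 := congrArg (fun p : XS => p.2.2.2) h6
          simp only [chX] at h7
          rw [← h7]
          exact sub_nonneg.2 h3
        linarith
    · exact ⟨x, c, by simp [hh0], by simp [hh0], by simpa [hγ] using hz⟩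
    · -- to the right of a good parameter
      intro σ hσ
      have hσI : σ ∈ Icc (0 : ℝ) 1 := ⟨hσ.2.1, hσ.2.2.le⟩
      have hfr : ∃ᶠ τ in 𝓝 σ, τ ∈ S ∩ Icc (0 : ℝ) 1 := by
        apply Filter.Frequently.filter_mono _ (pure_le_nhds σ)
        rw [frequently_pure]
        exact ⟨hσ.1, hσI⟩
      obtain ⟨κ', hL, hz', hcont⟩ := key σ hσI hfr
      have hγt : Tendsto γ (𝓝 σ) (𝓝 (γ σ)) := hγc.continuousAt
      have hev := (hγt.eventually hL).and (hγt.eventually hz')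
      obtain ⟨ε, hε, hball⟩ := Metric.eventually_nhds_iff_ball.1 hev
      obtain ⟨x', c', hx', hc', hzσ⟩ := hσ.1
      have hzσ' := (hball σ (Metric.mem_ball_self hε)).2
      rw [hzσ] at hzσ'
      have hx1 : x' = (κ' (γ σ)).1 := congrArg (fun p : XS => p.2.1) hzσ'
      have hc1 : c' = (κ' (γ σ)).2.2 := congrArg (fun p : XS => p.2.2.2) hzσ'
      have hmem : Ioo σ (min (σ + ε) 1) ∈ 𝓝[>] σ :=
        Ioo_mem_nhdsGT (lt_min (by linarith) hσ.2.2)
      refine mem_of_superset hmem fun τ hτ => ?_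
      have hτ1 : τ < σ + ε := hτ.2.trans_le (min_le_left _ _)
      have hτ2 : τ < 1 := hτ.2.trans_le (min_le_right _ _)
      have hin : ∀ y ∈ Icc σ τ, y ∈ Metric.ball σ ε ∧ y ∈ Icc (0 : ℝ) 1 := by
        intro y hy
        refine ⟨?_, hσI.1.trans hy.1, hy.2.trans hτ2.le⟩
        rw [Metric.mem_ball, Real.dist_eq, abs_of_nonneg (by linarith [hy.1])]
        linarith [hy.2]
      -- the derivative of the path
      have hder : ∀ y ∈ Icc σ τ, HasDerivAt (fun y => κ' (γ y)) (L • deriv κ' (γ y)) y := by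
        intro y hy
        have h1 := (hball y (hin y hy).1).1.1
        have h2 : HasDerivAt κ' (deriv κ' (γ y)) (γ y) :=
          (h1.differentiableAt (by norm_num)).hasDerivAt
        have h3 : HasDerivAt γ L y := by
          have h4 := ((hasDerivAt_id y).mul_const L).const_add r₁
          rw [one_mul] at h4
          exact h4
        exact h2.scomp y h3
      have hvel : ∀ y ∈ Icc σ τ, |L| * vel κ' (γ y) = w y := by
        intro y hy
        rw [hwe y (hin y hy).2, hv (γ y) (hγI y (hin y hy).2) κ' (hball y (hin y hy).1).1, mul_comm]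
      have hfst : ∀ y ∈ Icc σ τ, HasDerivAt (fun y => (κ' (γ y)).1 - x)
          (L * (deriv κ' (γ y)).1) y := by
        intro y hy
        have h1 := (ContinuousLinearMap.fst ℝ ℝ (ℝ × ℝ)).hasFDerivAt.comp_hasDerivAt y (hder y hy)
        have h2 := h1.sub_const x
        exact h2
      have hthd : ∀ y ∈ Icc σ τ, HasDerivAt (fun y => (κ' (γ y)).2.2 - c)
          (L * (deriv κ' (γ y)).2.2) y := by
        intro y hy
        have h1 := ((ContinuousLinearMap.snd ℝ ℝ ℝ).comp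
          (ContinuousLinearMap.snd ℝ ℝ (ℝ × ℝ))).hasFDerivAt.comp_hasDerivAt y (hder y hy)
        have h2 := h1.sub_const c
        exact h2
      refine ⟨(κ' (γ τ)).1, (κ' (γ τ)).2.2, ?_, ?_, (hball τ (hin τ ⟨hτ.1.le, le_rfl⟩).1).2⟩
      · have h1 := image_norm_le_of_norm_deriv_right_le_deriv_boundary'
          (f := fun y => (κ' (γ y)).1 - x) (f' := fun y => L * (deriv κ' (γ y)).1) (a := σ)
          (b := τ) (B := h) (B' := w)
          (fun y hy => (hfst y hy).continuousAt.continuousWithinAt)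
          (fun y hy => (hfst y ⟨hy.1, hy.2.le⟩).hasDerivWithinAt)
          (by rw [Real.norm_eq_abs, ← hx1]; exact hx') hhc.continuousOn
          (fun y _ => (hhd y).hasDerivWithinAt)
          (fun y hy => by
            rw [Real.norm_eq_abs, abs_mul, ← hvel y ⟨hy.1, hy.2.le⟩]
            exact mul_le_mul_of_nonneg_left (abs_le_vel κ' _).1 (abs_nonneg _))
          (x := τ) ⟨hτ.1.le, le_rfl⟩
        exact h1
      · have h1 := image_norm_le_of_norm_deriv_right_le_deriv_boundary'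
          (f := fun y => (κ' (γ y)).2.2 - c) (f' := fun y => L * (deriv κ' (γ y)).2.2) (a := σ)
          (b := τ) (B := h) (B' := w)
          (fun y hy => (hthd y hy).continuousAt.continuousWithinAt)
          (fun y hy => (hthd y ⟨hy.1, hy.2.le⟩).hasDerivWithinAt)
          (by rw [Real.norm_eq_abs, ← hc1]; exact hc') hhc.continuousOn
          (fun y _ => (hhd y).hasDerivWithinAt)
          (fun y hy => by
            rw [Real.norm_eq_abs, abs_mul, ← hvel y ⟨hy.1, hy.2.le⟩]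
            exact mul_le_mul_of_nonneg_left (abs_le_vel κ' _).2 (abs_nonneg _))
          (x := τ) ⟨hτ.1.le, le_rfl⟩
        exact h1
  intro r hr
  rw [← segment_eq_uIcc, segment_eq_image'] at hr
  obtain ⟨σ, hσ, rfl⟩ := hr
  obtain ⟨x', c', h1, h2, h3⟩ := hall hσ
  have h4 := (hmono hσ.2).trans hh1
  exact ⟨x', c', h1.trans h4, h2.trans h4, h3⟩

end Pool.Agent.Lib.MP_d2b992_gt.Dyn
end

section
/-!
# Dynamics of the ergodic sphere: module SX2 (link of the surface with the state space `St`)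
-/
set_option autoImplicit false

open MeasureTheory Filter Topology Set
open scoped ContDiff

namespace Pool.Agent.Lib.MP_d2b992_gt.Dyn

open Pool.Agent.Lib.MP_d2b992_gt.T (Tw)

namespace SX2M

/-! ## Angles -/

theorem exists_dec (Θ : ℝ) : ∃ (k : ℤ) (θ : ℝ), -(Real.pi / 2) ≤ θ ∧ θ < Real.pi / 2 ∧
    Θ = k * Real.pi + θ := by
  have hp := Real.pi_pos
  refine ⟨⌊(Θ + Real.pi / 2) / Real.pi⌋, Θ - ⌊(Θ + Real.pi / 2) / Real.pi⌋ * Real.pi, ?_, ?_,
    by ring⟩
  · have h := Int.floor_le ((Θ + Real.pi / 2) / Real.pi)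
    rw [le_div_iff₀ hp] at h
    linarith
  · have h := Int.lt_floor_add_one ((Θ + Real.pi / 2) / Real.pi)
    rw [div_lt_iff₀ hp] at h
    linarith

theorem lab_eq (k : ℤ) (θ : ℝ) (h1 : -(Real.pi / 2) ≤ θ) (h2 : θ < Real.pi / 2) :
    lab (k * Real.pi + θ) = k % 4 := by
  have hp := Real.pi_pos
  have h : ⌊((k : ℝ) * Real.pi + θ + Real.pi / 2) / Real.pi⌋ = k := by
    rw [Int.floor_eq_iff]
    constructor
    · rw [le_div_iff₀ hp]; linarith
    · rw [div_lt_iff₀ hp]; linarith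
  unfold lab
  rw [h]

theorem red_eq (k : ℤ) (θ : ℝ) (h1 : -(Real.pi / 2) ≤ θ) (h2 : θ < Real.pi / 2) :
    red (k * Real.pi + θ) = ((k % 4 : ℤ) : ℝ) * Real.pi + θ := by
  have hp := Real.pi_pos
  unfold red
  rw [toIcoMod_eq_iff]
  have h0 : 0 ≤ k % 4 := Int.emod_nonneg _ (by norm_num)
  have h3 : k % 4 ≤ 3 := by omega
  have h0' : (0 : ℝ) ≤ ((k % 4 : ℤ) : ℝ) := by exact_mod_cast h0
  have h3' : ((k % 4 : ℤ) : ℝ) ≤ 3 := by exact_mod_cast h3
  refine ⟨⟨?_, ?_⟩, k / 4, ?_⟩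
  · nlinarith
  · nlinarith
  · have hk : (k : ℝ) = ((k % 4 : ℤ) : ℝ) + 4 * ((k / 4 : ℤ) : ℝ) := by
      have := Int.emod_add_mul_ediv k 4
      exact_mod_cast this.symm
    rw [zsmul_eq_mul]
    linear_combination Real.pi * hk

theorem sin_dec_even (k : ℤ) (θ : ℝ) (hk : k % 2 = 0) :
    Real.sin (k * Real.pi + θ) = Real.sin θ := by
  rw [add_comm, Real.sin_add_int_mul_pi]
  have h : Even k := Int.even_iff.2 hk
  rw [h.neg_one_zpow, one_mul]

theorem cos_dec_even (k : ℤ) (θ : ℝ) (hk : k % 2 = 0) :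
    Real.cos (k * Real.pi + θ) = Real.cos θ := by
  rw [add_comm, Real.cos_add_int_mul_pi]
  have h : Even k := Int.even_iff.2 hk
  rw [h.neg_one_zpow, one_mul]

theorem sin_dec_odd (k : ℤ) (θ : ℝ) (hk : k % 2 = 1) :
    Real.sin (k * Real.pi + θ) = -Real.sin θ := by
  rw [add_comm, Real.sin_add_int_mul_pi]
  have h : Odd k := Int.odd_iff.2 hk
  rw [h.neg_one_zpow]; ring

theorem cos_dec_odd (k : ℤ) (θ : ℝ) (hk : k % 2 = 1) :
    Real.cos (k * Real.pi + θ) = -Real.cos θ := by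
  rw [add_comm, Real.cos_add_int_mul_pi]
  have h : Odd k := Int.odd_iff.2 hk
  rw [h.neg_one_zpow]; ring

theorem sq_pos {c : ℝ} (hc : |c| < 1) : 0 < Real.sqrt (1 - c ^ 2) := by
  apply Real.sqrt_pos.2
  have := (sq_lt_one_iff_abs_lt_one c).2 hc
  linarith

theorem sq_sq {c : ℝ} (hc : |c| < 1) : Real.sqrt (1 - c ^ 2) ^ 2 = 1 - c ^ 2 := by
  apply Real.sq_sqrt
  have := (sq_lt_one_iff_abs_lt_one c).2 hc
  linarith

theorem arg_eq {r θ : ℝ} (hr : 0 < r) (h1 : -(Real.pi / 2) ≤ θ) (h2 : θ < Real.pi / 2) :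
    Complex.arg ⟨r * Real.cos θ, r * Real.sin θ⟩ = θ := by
  have hp := Real.pi_pos
  have h := Complex.arg_mul_cos_add_sin_mul_I hr (θ := θ) ⟨by linarith, by linarith⟩
  have h2 : ((r : ℂ) * (Complex.cos θ + Complex.sin θ * Complex.I)) =
      ⟨r * Real.cos θ, r * Real.sin θ⟩ := by
    apply Complex.ext
    · simp [← Complex.ofReal_cos, ← Complex.ofReal_sin]
    · simp [← Complex.ofReal_cos, ← Complex.ofReal_sin]
  rw [h2] at h
  exact h

/-- the angle of a section -/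
theorem ang_secP (Θ c : ℝ) (hc : |c| < 1) : ang (secP Θ c) = red Θ := by
  obtain ⟨k, θ, h1, h2, rfl⟩ := exists_dec Θ
  rw [red_eq k θ h1 h2]
  unfold ang secP
  rw [lab_eq k θ h1 h2]
  have hr := sq_pos hc
  rcases Int.emod_two_eq_zero_or_one k with hk | hk
  · have h4 : (k % 4) % 2 = 0 := by omega
    simp only [nn, h4, if_true, sin_dec_even k θ hk, cos_dec_even k θ hk, neg_neg]
    rw [arg_eq hr h1 h2]
  · have h4 : (k % 4) % 2 = 1 := by omega
    have h5 : ¬ ((1 : ℤ) = 0) := by norm_num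
    simp only [nn, h4, if_neg h5, sin_dec_odd k θ hk, cos_dec_odd k θ hk, neg_neg, mul_neg]
    rw [arg_eq hr h1 h2]

theorem lab_red (Θ : ℝ) : lab (red Θ) = lab Θ := by
  obtain ⟨k, θ, h1, h2, rfl⟩ := exists_dec Θ
  rw [red_eq k θ h1 h2, lab_eq k θ h1 h2, lab_eq (k % 4) θ h1 h2]
  omega

theorem nn_red (Θ c : ℝ) : nn (red Θ) c = nn Θ c := by
  obtain ⟨k, θ, h1, h2, rfl⟩ := exists_dec Θ
  rw [red_eq k θ h1 h2]
  rcases Int.emod_two_eq_zero_or_one k with hk | hk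
  · have h4 : (k % 4) % 2 = 0 := by omega
    simp only [nn, sin_dec_even k θ hk, cos_dec_even k θ hk, sin_dec_even (k % 4) θ h4,
      cos_dec_even (k % 4) θ h4]
  · have h4 : (k % 4) % 2 = 1 := by omega
    simp only [nn, sin_dec_odd k θ hk, cos_dec_odd k θ hk, sin_dec_odd (k % 4) θ h4,
      cos_dec_odd (k % 4) θ h4]

theorem secP_red (Θ c : ℝ) : secP (red Θ) c = secP Θ c := by
  unfold secP
  rw [lab_red, nn_red]

theorem red_mem (Θ : ℝ) : -(Real.pi / 2) ≤ red Θ ∧ red Θ < 7 * Real.pi / 2 := by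
  have h := toIcoMod_mem_Ico four_pi_pos (-(Real.pi / 2)) Θ
  refine ⟨h.1, lt_of_lt_of_eq h.2 ?_⟩
  ring

theorem red_of_mem {Θ : ℝ} (h1 : -(Real.pi / 2) ≤ Θ) (h2 : Θ < 7 * Real.pi / 2) :
    red Θ = Θ := by
  unfold red
  rw [toIcoMod_eq_self]
  exact ⟨h1, lt_of_lt_of_eq h2 (by ring)⟩

theorem toSt_ofSt (w : St) (hc : |w.2| < 1) : toSt (ofSt w) = (red w.1, w.2) := by
  unfold toSt ofSt
  have h : (secP w.1 w.2).2.2.2 = w.2 := by simp [secP, nn]
  rw [ang_secP _ _ hc, h, red_of_mem (red_mem w.1).1 (red_mem w.1).2]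

/-! ## Decomposition of the states of `Dom` off `cos Θ = 0` -/

theorem dec_dom {Θ : ℝ} (h1 : -(Real.pi / 2) ≤ Θ) (h2 : Θ < 7 * Real.pi / 2)
    (h0 : Real.cos Θ ≠ 0) : ∃ (k : ℤ) (θ : ℝ), (k = 0 ∨ k = 1 ∨ k = 2 ∨ k = 3) ∧
      -(Real.pi / 2) < θ ∧ θ < Real.pi / 2 ∧ Θ = k * Real.pi + θ := by
  have hp := Real.pi_pos
  obtain ⟨k, θ, g1, g2, rfl⟩ := exists_dec Θ
  refine ⟨k, θ, ?_, ?_, g2, rfl⟩
  · have h3 : (-1 : ℝ) < k := by
      by_contra h
      push Not at h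
      nlinarith
    have h4 : (k : ℝ) < 4 := by
      by_contra h
      push Not at h
      nlinarith
    have h3' : -1 < k := by exact_mod_cast h3
    have h4' : k < 4 := by exact_mod_cast h4
    omega
  · rcases lt_or_eq_of_le g1 with h | h
    · exact h
    · exfalso
      apply h0
      rw [← h]
      rcases Int.emod_two_eq_zero_or_one k with hk | hk
      · rw [cos_dec_even _ _ hk, Real.cos_neg, Real.cos_pi_div_two]
      · rw [cos_dec_odd _ _ hk, Real.cos_neg, Real.cos_pi_div_two, neg_zero]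

theorem ofSt_dec (k : ℤ) (θ c : ℝ) (h1 : -(Real.pi / 2) < θ) (h2 : θ < Real.pi / 2) :
    ofSt (k * Real.pi + θ, c) = (k % 4, if k % 2 = 0 then
      (Real.sqrt (1 - c ^ 2) * Real.sin θ, -(Real.sqrt (1 - c ^ 2) * Real.cos θ), c) else
      (-(Real.sqrt (1 - c ^ 2) * Real.sin θ), Real.sqrt (1 - c ^ 2) * Real.cos θ, c)) := by
  unfold ofSt secP
  simp only
  rw [lab_eq k θ h1.le h2]
  rcases Int.emod_two_eq_zero_or_one k with hk | hk
  · simp only [nn, hk, if_true, sin_dec_even k θ hk, cos_dec_even k θ hk]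
  · have h5 : ¬ ((1 : ℤ) = 0) := by norm_num
    simp only [nn, hk, if_neg h5, sin_dec_odd k θ hk, cos_dec_odd k θ hk, neg_neg, mul_neg]

theorem dot_nn (Θ c : ℝ) (hc : |c| < 1) : dot (nn Θ c) (nn Θ c) = 1 := by
  have h := sq_sq hc
  have h2 := Real.sin_sq_add_cos_sq Θ
  simp only [dot, nn]
  linear_combination (Real.sin Θ ^ 2 + Real.cos Θ ^ 2) * h + (1 - c ^ 2) * h2

theorem can_ofSt (b s : ℝ) (w : St) (hw : w ∈ Dom) (h0 : Real.cos w.1 ≠ 0) :
    Can b s (ofSt w) := by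
  obtain ⟨Θ, c⟩ := w
  obtain ⟨h1, h2, hc⟩ := hw
  simp only at h1 h2 hc h0
  obtain ⟨k, θ, hk, g1, g2, rfl⟩ := dec_dom h1 h2 h0
  have hr := sq_pos hc
  have hcos : 0 < Real.cos θ := Real.cos_pos_of_mem_Ioo ⟨g1, g2⟩
  have hpos : 0 < Real.sqrt (1 - c ^ 2) * Real.cos θ := mul_pos hr hcos
  refine ⟨dot_nn _ _ hc, ?_⟩
  rw [ofSt_dec k θ c g1 g2]
  rcases hk with rfl | rfl | rfl | rfl
  · left
    refine ⟨Or.inl (by norm_num), Or.inl ?_⟩
    norm_num
    exact hpos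
  · right
    refine ⟨Or.inl (by norm_num), Or.inl ?_⟩
    norm_num
    exact hpos
  · left
    refine ⟨Or.inr (by norm_num), Or.inl ?_⟩
    norm_num
    exact hpos
  · right
    refine ⟨Or.inr (by norm_num), Or.inl ?_⟩
    norm_num
    exact hpos

/-! ## The map `P` -/

theorem F_hi {b s : ℝ} {F G : ℝ → ℝ} (h : Tw b s F G) {c : ℝ} (hc : s ≤ c) :
    F c = -(2 * Real.pi) := by
  have h1 := h.F_neg (-c)
  rw [neg_neg, h.F_zero (-c) (by linarith)] at h1
  linarith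

theorem PP_ofSt {b s : ℝ} {F G : ℝ → ℝ} (h : Tw b s F G) (w : St) (hw : w ∈ Dom)
    (h0 : Real.cos w.1 ≠ 0) : PP s F (ofSt w) = ofSt (pMap F w) := by
  obtain ⟨Θ, c⟩ := w
  obtain ⟨h1, h2, hc⟩ := hw
  simp only at h1 h2 hc h0
  have hc' : |(-c)| < 1 := by rwa [abs_neg]
  have hang : ang (ofSt (Θ, c)) = Θ := by
    unfold ofSt
    rw [ang_secP _ _ hc, red_of_mem h1 h2]
  have hcc : (ofSt (Θ, c)).2.2.2 = c := by simp [ofSt, secP, nn]
  unfold PP
  rw [hcc, hang]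
  by_cases hs : |c| < s
  · rw [if_pos hs]
    unfold ofSt pMap
    simp only
    rw [secP_red]
  rw [if_neg hs]
  push Not at hs
  obtain ⟨k, θ, hk, g1, g2, rfl⟩ := dec_dom h1 h2 h0
  have hr := sq_pos hc
  have hcos : 0 < Real.cos θ := Real.cos_pos_of_mem_Ioo ⟨g1, g2⟩
  have hpos : 0 < Real.sqrt (1 - c ^ 2) * Real.cos θ := mul_pos hr hcos
  have hn1 : ¬ (0 ≤ -(Real.sqrt (1 - c ^ 2) * Real.cos θ)) := by linarith
  have hpi := Real.pi_pos
  -- the angle of the image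
  have key : ∀ m : ℤ, (m + k) % 2 = 1 → Real.pi - (k * Real.pi + θ) - F c = m * Real.pi + -θ →
      canC (m % 4) (rho (ofSt (k * Real.pi + θ, c)).2) =
        ofSt (pMap F (k * Real.pi + θ, c)) := by
    intro m hmk hm
    have e1 : ofSt (pMap F (k * Real.pi + θ, c)) = ofSt (m * Real.pi + -θ, -c) := by
      unfold pMap
      simp only
      rw [hm]
      unfold ofSt
      simp only
      rw [secP_red]
    rw [e1, ofSt_dec m (-θ) (-c) (by linarith) (by linarith), ofSt_dec k θ c g1 g2]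
    have hsq : (-c) ^ 2 = c ^ 2 := by ring
    rw [hsq, Real.sin_neg, Real.cos_neg]
    set S := Real.sqrt (1 - c ^ 2) * Real.sin θ with hS
    set R := Real.sqrt (1 - c ^ 2) * Real.cos θ with hR
    have hS' : Real.sqrt (1 - c ^ 2) * -Real.sin θ = -S := by rw [hS]; ring
    rw [hS']
    have h5 : ¬ ((1 : ℤ) = 0) := by norm_num
    rcases Int.emod_two_eq_zero_or_one m with hm2 | hm2
    · have hk2 : k % 2 = 1 := by omega
      have hm4 : (m % 4) % 2 = 0 := by omega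
      have hneg : -R < 0 := by linarith
      simp only [canC, hm4, hm2, hk2, if_true, if_neg h5, secQ, rho, hneg, true_or]
    · have hk2 : k % 2 = 0 := by omega
      have hm4 : (m % 4) % 2 = 1 := by omega
      have hnn : 0 ≤ R := hpos.le
      rcases (by omega : m % 4 = 1 ∨ m % 4 = 3) with h1' | h1'
      · have e4 : (1 : ℤ) % 4 = 1 := by norm_num
        have e2 : (1 : ℤ) % 2 = 1 := by norm_num
        simp only [canC, h1', e4, e2, hm2, hk2, if_true, if_neg h5, secF, rho, hnn, neg_neg]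
      · have e4 : ¬ ((3 : ℤ) % 4 = 1) := by norm_num
        have e2 : ¬ ((3 : ℤ) % 2 = 0) := by norm_num
        simp only [canC, h1', if_neg e4, if_neg e2, hm2, hk2, if_true, if_neg h5, secF, rho,
          if_neg hn1, neg_neg]
  have hs0 := h.s0
  rcases le_abs.1 hs with hs | hs
  · -- `s ≤ c`
    have hF := F_hi h hs
    have hF0 : ¬ (F c = 0) := by rw [hF]; linarith
    rw [if_neg hF0]
    have : (ofSt (k * Real.pi + θ, c)).1 = k % 4 := by rw [ofSt_dec k θ c g1 g2]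
    rw [this]
    have h3 := key (3 - k) (by omega) (by rw [hF]; push_cast; ring)
    rw [← h3]
    congr 1
    omega
  · have hF := h.F_zero c (by linarith)
    rw [if_pos hF]
    have : (ofSt (k * Real.pi + θ, c)).1 = k % 4 := by rw [ofSt_dec k θ c g1 g2]
    rw [this]
    have h3 := key (1 - k) (by omega) (by rw [hF]; push_cast; ring)
    rw [← h3]
    congr 1
    omega

/-! ## The map `Q` -/

/-- the vector `D cos G - c sin G` of the kicked state -/
noncomputable def kD (G : ℝ → ℝ) (z : St) : ℝ :=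
  -(Real.sqrt (1 - z.2 ^ 2) * Real.cos z.1) *
      Real.cos (G (Real.sqrt (1 - z.2 ^ 2) * Real.sin z.1)) -
    z.2 * Real.sin (G (Real.sqrt (1 - z.2 ^ 2) * Real.sin z.1))

/-- the vector `D sin G + c cos G` of the kicked state -/
noncomputable def kC (G : ℝ → ℝ) (z : St) : ℝ :=
  -(Real.sqrt (1 - z.2 ^ 2) * Real.cos z.1) *
      Real.sin (G (Real.sqrt (1 - z.2 ^ 2) * Real.sin z.1)) +
    z.2 * Real.cos (G (Real.sqrt (1 - z.2 ^ 2) * Real.sin z.1))

theorem qC_eq (G : ℝ → ℝ) (z : St) : qC G z = if kD G z ≤ 0 then kC G z else -kC G z := rfl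

theorem k_norm (G : ℝ → ℝ) (z : St) (hc : |z.2| < 1) :
    (Real.sqrt (1 - z.2 ^ 2) * Real.sin z.1) ^ 2 + kD G z ^ 2 + kC G z ^ 2 = 1 := by
  have h1 := sq_sq hc
  have h2 := Real.sin_sq_add_cos_sq z.1
  have h3 := Real.sin_sq_add_cos_sq (G (Real.sqrt (1 - z.2 ^ 2) * Real.sin z.1))
  unfold kD kC
  set g := G (Real.sqrt (1 - z.2 ^ 2) * Real.sin z.1)
  set r := Real.sqrt (1 - z.2 ^ 2)
  linear_combination (r ^ 2 * Real.cos z.1 ^ 2 + z.2 ^ 2) * h3 + r ^ 2 * h2 + h1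

/-- the state `(j π + arcsin (x / √(1 - C²)), C)` with `j` even -/
theorem ofSt_arcsin (j : ℤ) (x D C : ℝ) (hj : j % 2 = 0) (hD : D ≠ 0)
    (h : x ^ 2 + D ^ 2 + C ^ 2 = 1) :
    ofSt (j * Real.pi + Real.arcsin (x / Real.sqrt (1 - C ^ 2)), C) = (j % 4, (x, -|D|, C)) ∧
    |C| < 1 ∧ 0 < Real.cos (Real.arcsin (x / Real.sqrt (1 - C ^ 2))) := by
  have hD2 : 0 < D ^ 2 := by positivity
  have hC : |C| < 1 := by
    rw [← sq_lt_one_iff_abs_lt_one]
    nlinarith [sq_nonneg x]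
  have hr := sq_pos hC
  have hrs := sq_sq hC
  set r := Real.sqrt (1 - C ^ 2) with hrdef
  have hxr : (x / r) ^ 2 = 1 - D ^ 2 / r ^ 2 := by
    field_simp
    rw [hrs]
    linarith
  have hlt : (x / r) ^ 2 < 1 := by
    rw [hxr]
    have : 0 < D ^ 2 / r ^ 2 := by positivity
    linarith
  have habs := (sq_lt_one_iff_abs_lt_one _).1 hlt
  obtain ⟨a1, a2⟩ := abs_lt.1 habs
  have g1 : -(Real.pi / 2) < Real.arcsin (x / r) := Real.neg_pi_div_two_lt_arcsin.2 a1
  have g2 : Real.arcsin (x / r) < Real.pi / 2 := Real.arcsin_lt_pi_div_two.2 a2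
  have hcos : Real.cos (Real.arcsin (x / r)) = |D| / r := by
    rw [Real.cos_arcsin, hxr]
    have : 1 - (1 - D ^ 2 / r ^ 2) = (|D| / r) ^ 2 := by
      rw [div_pow, sq_abs]; ring
    rw [this, Real.sqrt_sq (by positivity)]
  refine ⟨?_, hC, ?_⟩
  · rw [ofSt_dec j _ C g1 g2, if_pos hj, ← hrdef, hcos, Real.sin_arcsin a1.le a2.le]
    congr 2
    · field_simp
    · congr 1
      field_simp
  · rw [hcos]
    have : 0 < |D| := abs_pos.2 hD
    positivity

theorem QQ_ofSt {b : ℝ} (G : ℝ → ℝ) (w : St) (hw : w ∈ Dom)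
    (h0 : Real.cos w.1 ≠ 0)
    (hk : 0 < Real.cos w.1 → |Real.sqrt (1 - w.2 ^ 2) * Real.sin w.1| < b → kD G w ≠ 0) :
    QQ b G (ofSt w) = ofSt (qMap b G w) ∧ qMap b G w ∈ Dom ∧ Real.cos (qMap b G w).1 ≠ 0 := by
  obtain ⟨Θ, c⟩ := w
  have hw' := hw
  obtain ⟨h1, h2, hc⟩ := hw
  simp only at h1 h2 hc h0 hk
  obtain ⟨k, θ, hk4, g1, g2, hΘ⟩ := dec_dom h1 h2 h0
  have hr := sq_pos hc
  have hcosθ : 0 < Real.cos θ := Real.cos_pos_of_mem_Ioo ⟨g1, g2⟩
  have hx : (ofSt (Θ, c)).2.1 = Real.sqrt (1 - c ^ 2) * Real.sin Θ := rfl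
  have hlab : (ofSt (Θ, c)).1 = k % 4 := by rw [hΘ, ofSt_dec k θ c g1 g2]
  rcases Int.emod_two_eq_zero_or_one k with hk2 | hk2
  · -- near
    have hcos : 0 < Real.cos Θ := by rw [hΘ, cos_dec_even k θ hk2]; exact hcosθ
    by_cases hb : |Real.sqrt (1 - c ^ 2) * Real.sin Θ| < b
    · have hne := hk hcos hb
      have hnorm := k_norm G (Θ, c) hc
      simp only at hnorm
      have hj : (if 0 < Real.cos (Θ / 2) then (0 : ℝ) else 2 * Real.pi) = k * Real.pi := by
        have hp := Real.pi_pos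
        rcases hk4 with rfl | rfl | rfl | rfl
        · rw [if_pos]
          · simp
          · rw [hΘ]
            apply Real.cos_pos_of_mem_Ioo
            constructor <;> norm_num <;> linarith
        · omega
        · rw [if_neg]
          · norm_num
          · rw [hΘ]
            push Not
            apply le_of_lt
            have : (((2 : ℤ) : ℝ) * Real.pi + θ) / 2 = θ / 2 + Real.pi := by push_cast; ring
            rw [this, Real.cos_add_pi]
            have : 0 < Real.cos (θ / 2) := by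
              apply Real.cos_pos_of_mem_Ioo
              constructor <;> linarith
            linarith
        · omega
      have hq : qMap b G (Θ, c) = (k * Real.pi + Real.arcsin
          (Real.sqrt (1 - c ^ 2) * Real.sin Θ / Real.sqrt (1 - qC G (Θ, c) ^ 2)), qC G (Θ, c)) := by
        unfold qMap
        rw [if_pos ⟨hcos, hb⟩, hj]
      have hqn : (Real.sqrt (1 - c ^ 2) * Real.sin Θ) ^ 2 + kD G (Θ, c) ^ 2 +
          qC G (Θ, c) ^ 2 = 1 := by
        rw [qC_eq]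
        split_ifs
        · exact hnorm
        · rw [neg_sq]; exact hnorm
      obtain ⟨f1, f2, f3⟩ := ofSt_arcsin k (Real.sqrt (1 - c ^ 2) * Real.sin Θ) (kD G (Θ, c))
        (qC G (Θ, c)) hk2 hne hqn
      refine ⟨?_, ?_, ?_⟩
      · rw [hq, f1]
        unfold QQ
        rw [hx, hlab, if_pos ⟨by omega, hb⟩]
        have hK : Kq G (ofSt (Θ, c)).2 =
            (Real.sqrt (1 - c ^ 2) * Real.sin Θ, kD G (Θ, c), kC G (Θ, c)) := rfl
        rw [hK]
        unfold secQ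
        simp only
        rcases lt_or_gt_of_ne hne with hlt | hgt
        · rw [if_pos (Or.inl hlt), qC_eq, if_pos hlt.le, abs_of_neg hlt, neg_neg]
        · have hneg : ¬ (kD G (Θ, c) < 0 ∨ (kD G (Θ, c) = 0 ∧ 0 < kC G (Θ, c))) := by
            rintro (h | ⟨h, _⟩) <;> linarith
          rw [if_neg hneg, qC_eq, if_neg (not_le.2 hgt), abs_of_pos hgt]
          rfl
      · rw [hq]
        have hp := Real.pi_pos
        have e1 := Real.neg_pi_div_two_le_arcsin
          (Real.sqrt (1 - c ^ 2) * Real.sin Θ / Real.sqrt (1 - qC G (Θ, c) ^ 2))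
        have e2 := Real.arcsin_le_pi_div_two
          (Real.sqrt (1 - c ^ 2) * Real.sin Θ / Real.sqrt (1 - qC G (Θ, c) ^ 2))
        rcases hk4 with rfl | rfl | rfl | rfl
        · refine ⟨?_, ?_, f2⟩
          · simp only; push_cast; linarith
          · simp only; push_cast; linarith
        · omega
        · refine ⟨?_, ?_, f2⟩
          · simp only; push_cast; linarith
          · simp only; push_cast; linarith
        · omega
      · rw [hq]
        simp only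
        rw [cos_dec_even k _ hk2]
        exact f3.ne'
    · have hq : qMap b G (Θ, c) = (Θ, c) := by
        unfold qMap
        rw [if_neg]
        rintro ⟨_, h⟩
        exact hb h
      rw [hq]
      refine ⟨?_, hw', h0⟩
      unfold QQ
      rw [hx, if_neg]
      rintro ⟨_, h⟩
      exact hb h
  · -- far
    have hcos : Real.cos Θ < 0 := by
      rw [hΘ, cos_dec_odd k θ hk2]; linarith
    have hq : qMap b G (Θ, c) = (Θ, c) := by
      unfold qMap
      rw [if_neg]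
      rintro ⟨h, _⟩
      simp only at h
      linarith
    rw [hq]
    refine ⟨?_, hw', h0⟩
    unfold QQ
    rw [hlab, if_neg]
    rintro ⟨h, _⟩
    omega

/-! ## Null sets -/

theorem ae_cos : ∀ᵐ w ∂(volume : Measure (ℝ × ℝ)), Real.cos w.1 ≠ 0 := by
  have h : ∀ᵐ x : ℝ, Real.cos x ≠ 0 := by
    have hc : {x : ℝ | Real.cos x = 0}.Countable := by
      have : {x : ℝ | Real.cos x = 0} ⊆ range (fun k : ℤ => (2 * k + 1) * Real.pi / 2) := by
        intro x hx
        obtain ⟨k, hk⟩ := Real.cos_eq_zero_iff.1 hx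
        exact ⟨k, hk.symm⟩
      exact (countable_range _).mono this
    have := hc.measure_zero (volume : Measure ℝ)
    rw [ae_iff]
    simpa using this
  rw [Measure.volume_eq_prod]
  exact Measure.quasiMeasurePreserving_fst.ae h

/-- a null set of `x` pulled back by `x = r sin Θ` -/
theorem null_pull {r : ℝ} (hr : 0 < r) (N : Set ℝ) (hN : volume N = 0) :
    volume {Θ : ℝ | -(Real.pi / 2) ≤ Θ ∧ Θ < 7 * Real.pi / 2 ∧ 0 < Real.cos Θ ∧
      r * Real.sin Θ ∈ N} = 0 := by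
  have hp := Real.pi_pos
  set N' : Set ℝ := N ∩ Ioo (-r) r
  have hN' : volume N' = 0 := measure_mono_null inter_subset_left hN
  have hd : ∀ a : ℝ, DifferentiableOn ℝ (fun x => a + Real.arcsin (x / r)) N' := by
    intro a x hx
    apply DifferentiableAt.differentiableWithinAt
    apply DifferentiableAt.const_add
    have h2 : DifferentiableAt ℝ Real.arcsin (x / r) := by
      rw [Real.differentiableAt_arcsin]
      obtain ⟨_, hx1, hx2⟩ := hx
      constructor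
      · intro h
        rw [div_eq_iff hr.ne'] at h
        linarith
      · intro h
        rw [div_eq_iff hr.ne'] at h
        linarith
    exact DifferentiableAt.comp (g := Real.arcsin) (f := fun x => x / r) x h2
      (differentiableAt_id.div_const r)
  have hz : ∀ a : ℝ, volume ((fun x => a + Real.arcsin (x / r)) '' N') = 0 := fun a =>
    addHaar_image_eq_zero_of_differentiableOn_of_addHaar_eq_zero volume (hd a) hN'
  refine measure_mono_null ?_ (measure_union_null (hz 0) (hz (2 * Real.pi)))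
  rintro Θ ⟨h1, h2, h3, h4⟩
  obtain ⟨k, θ, hk, g1, g2, hΘ⟩ := dec_dom h1 h2 h3.ne'
  have hcosθ : 0 < Real.cos θ := Real.cos_pos_of_mem_Ioo ⟨g1, g2⟩
  have hk2 : k % 2 = 0 := by
    rcases Int.emod_two_eq_zero_or_one k with hk2 | hk2
    · exact hk2
    · rw [hΘ, cos_dec_odd k θ hk2] at h3
      linarith
  have hsin : Real.sin Θ = Real.sin θ := by rw [hΘ, sin_dec_even k θ hk2]
  have hmem : r * Real.sin Θ ∈ N' := by
    refine ⟨h4, ?_, ?_⟩
    · rw [hsin]
      have : -1 < Real.sin θ := by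
        have h := Real.sin_lt_sin_of_lt_of_le_pi_div_two (le_refl (-(Real.pi / 2))) g2.le g1
        rwa [Real.sin_neg, Real.sin_pi_div_two] at h
      nlinarith
    · rw [hsin]
      have : Real.sin θ < 1 := by
        have h := Real.sin_lt_sin_of_lt_of_le_pi_div_two g1.le (le_refl (Real.pi / 2)) g2
        rwa [Real.sin_pi_div_two] at h
      nlinarith
  have hval : Real.arcsin (r * Real.sin Θ / r) = θ := by
    rw [mul_div_cancel_left₀ _ hr.ne', hsin]
    exact Real.arcsin_sin g1.le g2.le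
  rcases hk with rfl | rfl | rfl | rfl
  · left
    refine ⟨_, hmem, ?_⟩
    simp only
    rw [hval, hΘ]
    push_cast
    ring
  · omega
  · right
    refine ⟨_, hmem, ?_⟩
    simp only
    rw [hval, hΘ]
    push_cast
    ring
  · omega

theorem ae_sec (G : ℝ → ℝ) (hG : Continuous G) :
    ∀ᵐ c : ℝ, volume {x : ℝ | c ^ 2 = (1 - x ^ 2) * Real.cos (G x) ^ 2} = 0 := by
  have hA : MeasurableSet {p : ℝ × ℝ | p.2 ^ 2 = (1 - p.1 ^ 2) * Real.cos (G p.1) ^ 2} := by
    apply IsClosed.measurableSet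
    apply isClosed_eq <;> fun_prop
  have h1 : ∀ᵐ p ∂((volume : Measure ℝ).prod (volume : Measure ℝ)),
      p ∉ {p : ℝ × ℝ | p.2 ^ 2 = (1 - p.1 ^ 2) * Real.cos (G p.1) ^ 2} := by
    rw [← measure_eq_zero_iff_ae_notMem, Measure.measure_prod_null hA]
    refine Eventually.of_forall fun x => ?_
    have : Prod.mk x ⁻¹' {p : ℝ × ℝ | p.2 ^ 2 = (1 - p.1 ^ 2) * Real.cos (G p.1) ^ 2} ⊆
        {Real.sqrt ((1 - x ^ 2) * Real.cos (G x) ^ 2),
          -Real.sqrt ((1 - x ^ 2) * Real.cos (G x) ^ 2)} := by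
      intro c hc
      have hc' : c ^ 2 = (1 - x ^ 2) * Real.cos (G x) ^ 2 := hc
      rw [← hc', Real.sqrt_sq_eq_abs]
      rcases abs_choice c with h | h
      · left; exact h.symm
      · right
        simp only [mem_singleton_iff]
        rw [h, neg_neg]
    exact ((finite_insert.2 (finite_singleton _)).subset this).measure_zero _
  have h2 : ∀ᵐ p ∂((volume : Measure ℝ).prod (volume : Measure ℝ)),
      p.swap ∉ {p : ℝ × ℝ | p.2 ^ 2 = (1 - p.1 ^ 2) * Real.cos (G p.1) ^ 2} := by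
    have := Measure.measurePreserving_swap (μ := (volume : Measure ℝ)) (ν := (volume : Measure ℝ))
    exact this.quasiMeasurePreserving.ae h1
  filter_upwards [Measure.ae_ae_of_ae_prod h2] with c hc
  rw [ae_iff] at hc
  simpa using hc

theorem measurableSet_Dom : MeasurableSet Dom := by
  have h1 : MeasurableSet {z : St | -(Real.pi / 2) ≤ z.1} :=
    measurableSet_le measurable_const measurable_fst
  have h2 : MeasurableSet {z : St | z.1 < 7 * Real.pi / 2} :=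
    measurableSet_lt measurable_fst measurable_const
  have h3 : MeasurableSet {z : St | |z.2| < 1} :=
    measurableSet_lt (measurable_snd.abs) measurable_const
  exact h1.inter (h2.inter h3)

theorem continuous_kD (G : ℝ → ℝ) (hG : Continuous G) : Continuous (kD G) := by
  unfold kD
  fun_prop

theorem ae_kD (G : ℝ → ℝ) (hG : Continuous G) : ∀ᵐ w ∂muY, 0 < Real.cos w.1 →
    kD G w ≠ 0 := by
  set B : Set (ℝ × ℝ) := {w | w ∈ Dom ∧ 0 < Real.cos w.1 ∧ kD G w = 0} with hBdef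
  have hB : MeasurableSet B := by
    have h1 : MeasurableSet {w : ℝ × ℝ | 0 < Real.cos w.1} :=
      measurableSet_lt measurable_const (Real.measurable_cos.comp measurable_fst)
    have h2 : MeasurableSet {w : ℝ × ℝ | kD G w = 0} :=
      measurableSet_eq_fun (continuous_kD G hG).measurable measurable_const
    exact measurableSet_Dom.inter (h1.inter h2)
  have hB0 : ((volume : Measure ℝ).prod (volume : Measure ℝ)) B = 0 := by
    have hsw := Measure.measurePreserving_swap (μ := (volume : Measure ℝ))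
      (ν := (volume : Measure ℝ))
    rw [← hsw.measure_preimage hB.nullMeasurableSet,
      Measure.measure_prod_null (measurable_swap hB)]
    filter_upwards [ae_sec G hG] with c hc
    by_cases hc1 : |c| < 1
    · refine measure_mono_null ?_ (null_pull (sq_pos hc1) _ hc)
      rintro Θ ⟨⟨h1, h2, _⟩, h3, h4⟩
      refine ⟨h1, h2, h3, ?_⟩
      simp only [Prod.swap, kD] at h4
      simp only [mem_ofPred_eq]
      have e1 := sq_sq hc1
      have e2 := Real.sin_sq_add_cos_sq Θ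
      have e3 := Real.sin_sq_add_cos_sq (G (Real.sqrt (1 - c ^ 2) * Real.sin Θ))
      set g := G (Real.sqrt (1 - c ^ 2) * Real.sin Θ)
      set r := Real.sqrt (1 - c ^ 2)
      have e4 : (r * Real.cos Θ * Real.cos g) ^ 2 = (c * Real.sin g) ^ 2 := by
        have : r * Real.cos Θ * Real.cos g = -(c * Real.sin g) := by linarith
        rw [this, neg_sq]
      linear_combination -e4 - c ^ 2 * e3 + r ^ 2 * Real.cos g ^ 2 * e2 + Real.cos g ^ 2 * e1
    · refine measure_mono_null ?_ measure_empty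
      rintro Θ ⟨⟨_, _, h3⟩, _⟩
      exact absurd h3 hc1
  unfold muY
  rw [ae_restrict_iff' measurableSet_Dom, Measure.volume_eq_prod]
  filter_upwards [measure_eq_zero_iff_ae_notMem.1 hB0] with w hw hD hcos h0
  exact hw ⟨hD, hcos, h0⟩

/-! ## Measurability -/

theorem measurable_red : Measurable red := by
  unfold red
  have h : (fun Θ : ℝ => toIcoMod four_pi_pos (-(Real.pi / 2)) Θ) =
      fun Θ : ℝ => -(Real.pi / 2) + Int.fract ((Θ - -(Real.pi / 2)) / (4 * Real.pi)) *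
        (4 * Real.pi) := by
    funext Θ
    exact toIcoMod_eq_add_fract_mul _ _ _
  have h2 : Measurable (fun Θ : ℝ => toIcoMod four_pi_pos (-(Real.pi / 2)) Θ) := by
    rw [h]
    fun_prop
  exact h2

theorem measurable_lab : Measurable lab := by
  have h : Measurable (fun Θ : ℝ => ⌊(Θ + Real.pi / 2) / Real.pi⌋) :=
    Int.measurable_floor.comp (by fun_prop)
  exact (Measurable.of_discrete (f := fun k : ℤ => k % 4)).comp h

theorem measurable_ofSt : Measurable ofSt := by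
  unfold ofSt secP nn
  refine Measurable.prodMk (measurable_lab.comp measurable_fst) ?_
  refine Continuous.measurable ?_
  fun_prop

theorem measurable_mk : Measurable (fun p : ℝ × ℝ => (⟨p.1, p.2⟩ : ℂ)) :=
  Complex.measurableEquivRealProd.symm.measurable

theorem measurable_ang : Measurable ang := by
  unfold ang
  refine Measurable.add ?_ ?_
  · refine Measurable.mul_const ?_ _
    exact (Measurable.of_discrete (f := fun k : ℤ => (k : ℝ))).comp measurable_fst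
  · refine Measurable.ite ?_ ?_ ?_
    · exact measurable_fst (MeasurableSet.of_discrete (s := {k : ℤ | k % 2 = 0}))
    · have h : Measurable (fun z : XS => ((-z.2.2.1, z.2.1) : ℝ × ℝ)) := by fun_prop
      exact Complex.measurable_arg.comp (measurable_mk.comp h)
    · have h : Measurable (fun z : XS => ((z.2.2.1, -z.2.1) : ℝ × ℝ)) := by fun_prop
      exact Complex.measurable_arg.comp (measurable_mk.comp h)

theorem measurable_toSt : Measurable toSt := by
  unfold toSt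
  refine Measurable.prodMk (measurable_red.comp measurable_ang) ?_
  fun_prop

end SX2M

open SX2M in
/-- SX2. -/
theorem specSX2 : SpecSX2 := by
  intro b s F G h
  refine ⟨measurable_ofSt, measurable_toSt, ?_⟩
  have hG : Continuous G := h.G_smooth.continuous
  have hD : ∀ᵐ w ∂muY, w ∈ Dom := ae_restrict_mem measurableSet_Dom
  have hcos : ∀ᵐ w ∂muY, Real.cos w.1 ≠ 0 := ae_restrict_of_ae ae_cos
  filter_upwards [hD, hcos, ae_kD G hG] with w hw h0 hk
  obtain ⟨q1, q2, q3⟩ := QQ_ofSt (b := b) G w hw h0 (fun h _ => hk h)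
  refine ⟨can_ofSt b s w hw h0, ?_, PP_ofSt h w hw h0, q1, ?_⟩
  · rw [toSt_ofSt w hw.2.2, red_of_mem hw.1 hw.2.1]
  · rw [q1, PP_ofSt h _ q2 q3]
    have h1 : |(pMap F (qMap b G w)).2| < 1 := by
      unfold pMap
      simp only
      rw [abs_neg]
      exact q2.2.2
    rw [toSt_ofSt _ h1]
    unfold tMap pMap
    simp only
    rw [red_of_mem (red_mem _).1 (red_mem _).2]

end Pool.Agent.Lib.MP_d2b992_gt.Dyn
end

section
/-!
# STEPP: the map `P` maps paths to paths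
-/
set_option autoImplicit false

open MeasureTheory Filter Topology Set
open scoped ContDiff

namespace Pool.Agent.Lib.MP_d2b992_gt.Dyn

namespace SteppM

open SX2M

theorem rho_rho (n : V3) : rho (rho n) = n := by simp [rho]

theorem dot_rho (n : V3) : dot (rho n) (rho n) = dot n n := by
  simp only [dot, rho]; ring

theorem cos_sym {s : ℝ} {Φ : ℝ → ℝ} (h : TwP s Φ) (c : ℝ) :
    Real.cos (Φ (-c)) = Real.cos (Φ c) := by
  rw [h.sym, show -(2 * Real.pi) - Φ c = -(Φ c) - 2 * Real.pi by ring, Real.cos_sub_two_pi,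
    Real.cos_neg]

theorem sin_sym {s : ℝ} {Φ : ℝ → ℝ} (h : TwP s Φ) (c : ℝ) :
    Real.sin (Φ (-c)) = -Real.sin (Φ c) := by
  rw [h.sym, show -(2 * Real.pi) - Φ c = -(Φ c) - 2 * Real.pi by ring, Real.sin_sub_two_pi,
    Real.sin_neg]

theorem Kp_rho {s : ℝ} {Φ : ℝ → ℝ} (h : TwP s Φ) (n : V3) : Kp Φ (rho n) = rho (Kp Φ n) := by
  simp only [Kp, rho, cos_sym h, sin_sym h]
  refine Prod.ext ?_ (Prod.ext ?_ rfl)
  · simp only; ring
  · simp only; ring

theorem dot_Kp (Φ : ℝ → ℝ) (n : V3) : dot (Kp Φ n) (Kp Φ n) = dot n n := by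
  simp only [dot, Kp]
  have h := Real.sin_sq_add_cos_sq (Φ n.2.2)
  linear_combination (n.1 ^ 2 + n.2.1 ^ 2) * h

theorem Kp_id (Φ : ℝ → ℝ) (n : V3) (h : Φ n.2.2 = 0 ∨ Φ n.2.2 = -(2 * Real.pi)) :
    Kp Φ n = n := by
  have h1 : Real.cos (Φ n.2.2) = 1 ∧ Real.sin (Φ n.2.2) = 0 := by
    rcases h with h | h
    · rw [h]; simp
    · rw [h, Real.cos_neg, Real.sin_neg]; simp
  rcases n with ⟨x, D, c⟩
  simp only at h1
  simp [Kp, h1.1, h1.2]

theorem contDiffAt_Kp {Φ : ℝ → ℝ} (hΦ : ContDiff ℝ ∞ Φ) {κ : ℝ → V3} {t : ℝ}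
    (hκ : ContDiffAt ℝ 2 κ t) : ContDiffAt ℝ 2 (fun r => Kp Φ (κ r)) t := by
  have h1 : ContDiffAt ℝ 2 (fun r => (κ r).1) t := hκ.fst
  have h2 : ContDiffAt ℝ 2 (fun r => (κ r).2.1) t := hκ.snd.fst
  have h3 : ContDiffAt ℝ 2 (fun r => (κ r).2.2) t := hκ.snd.snd
  have hΦ2 : ContDiff ℝ 2 Φ := by exact_mod_cast (contDiff_infty.1 hΦ 2)
  have h4 : ContDiffAt ℝ 2 (fun r => Φ (κ r).2.2) t := hΦ2.contDiffAt.comp t h3
  have h5 : ContDiffAt ℝ 2 (fun r => Real.cos (Φ (κ r).2.2)) t := h4.cos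
  have h6 : ContDiffAt ℝ 2 (fun r => Real.sin (Φ (κ r).2.2)) t := h4.sin
  exact ((h1.mul h5).sub (h2.mul h6)).prodMk (((h1.mul h6).add (h2.mul h5)).prodMk h3)

theorem contDiffAt_rho {κ : ℝ → V3} {t : ℝ}
    (hκ : ContDiffAt ℝ 2 κ t) : ContDiffAt ℝ 2 (fun r => rho (κ r)) t := by
  have h1 : ContDiffAt ℝ 2 (fun r => (κ r).1) t := hκ.fst
  have h2 : ContDiffAt ℝ 2 (fun r => (κ r).2.1) t := hκ.snd.fst
  have h3 : ContDiffAt ℝ 2 (fun r => (κ r).2.2) t := hκ.snd.snd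
  exact h1.prodMk (h2.neg.prodMk h3.neg)

theorem nn_step (Φ : ℝ → ℝ) (Θ c : ℝ) :
    nn (Real.pi - Θ - Φ c) (-c) = rho (Kp Φ (nn Θ c)) := by
  have e1 : Real.sin (Real.pi - Θ - Φ c) = Real.sin (Θ + Φ c) := by
    rw [show Real.pi - Θ - Φ c = Real.pi - (Θ + Φ c) by ring, Real.sin_pi_sub]
  have e2 : Real.cos (Real.pi - Θ - Φ c) = -Real.cos (Θ + Φ c) := by
    rw [show Real.pi - Θ - Φ c = Real.pi - (Θ + Φ c) by ring, Real.cos_pi_sub]
  simp only [nn, rho, Kp, e1, e2, Real.sin_add, Real.cos_add, neg_sq]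
  refine Prod.ext ?_ (Prod.ext ?_ rfl)
  · simp only; ring
  · simp only; ring

theorem PP_in {s : ℝ} (hs : s < 1) (Φ : ℝ → ℝ) (Θ c : ℝ) (hc : |c| < s) :
    PP s Φ (secP Θ c) = secP (Real.pi - Θ - Φ c) (-c) := by
  have h1 : (secP Θ c).2.2.2 = c := rfl
  unfold PP
  rw [h1, if_pos hc, ang_secP Θ c (hc.trans hs)]
  rw [← secP_red (Real.pi - red Θ - Φ c), ← secP_red (Real.pi - Θ - Φ c)]
  congr 1
  unfold red
  have : toIcoMod four_pi_pos (-(Real.pi / 2)) Θ =
      Θ - toIcoDiv four_pi_pos (-(Real.pi / 2)) Θ • (4 * Real.pi) := rfl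
  rw [this, show Real.pi - (Θ - toIcoDiv four_pi_pos (-(Real.pi / 2)) Θ • (4 * Real.pi)) - Φ c
    = (Real.pi - Θ - Φ c) + toIcoDiv four_pi_pos (-(Real.pi / 2)) Θ • (4 * Real.pi) by ring]
  exact toIcoMod_add_zsmul _ _ _ _

theorem transfer {s : ℝ} {Φ : ℝ → ℝ} (hΦ : TwP s Φ) {b : ℝ} {z : ℝ → XS} {κ κ' : ℝ → V3}
    {t : ℝ} (h : (∀ r, κ' r = κ r) ∨ (∀ r, κ' r = rho (κ r)))
    (hl : Lift b s z (fun r => rho (Kp Φ (κ' r))) t ∨ Lift b s z (fun r => Kp Φ (κ' r)) t) :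
    Lift b s z (fun r => rho (Kp Φ (κ r))) t ∨ Lift b s z (fun r => Kp Φ (κ r)) t := by
  rcases h with h | h
  · have : κ' = κ := funext h
    rwa [this] at hl
  · have e1 : (fun r => rho (Kp Φ (κ' r))) = fun r => Kp Φ (κ r) := by
      funext r; rw [h r, Kp_rho hΦ, rho_rho]
    have e2 : (fun r => Kp Φ (κ' r)) = fun r => rho (Kp Φ (κ r)) := by
      funext r; rw [h r, Kp_rho hΦ]
    rw [e1, e2] at hl
    exact hl.symm

/-- case `|c| < s` in the annulus chart -/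
theorem caseA {b s : ℝ} (hs : s < 1) {Φ : ℝ → ℝ} (hΦ : TwP s Φ) {z : ℝ → XS} {κ : ℝ → V3}
    {t : ℝ} (h1 : ContDiffAt ℝ 2 κ t) (h2 : ∀ᶠ r in 𝓝 t, dot (κ r) (κ r) = 1)
    (hc : |(κ t).2.2| < s) {Θ : ℝ → ℝ} (hΘ : ContDiffAt ℝ 2 Θ t)
    (hz : ∀ᶠ r in 𝓝 t, z r = secP (Θ r) (κ r).2.2 ∧ κ r = nn (Θ r) (κ r).2.2) :
    Lift b s (fun r => PP s Φ (z r)) (fun r => rho (Kp Φ (κ r))) t := by
  refine ⟨contDiffAt_rho (contDiffAt_Kp hΦ.smooth h1), ?_, Or.inl ⟨?_, ?_⟩⟩
  · filter_upwards [h2] with r hr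
    rw [dot_rho, dot_Kp]; exact hr
  · show |-(κ t).2.2| < s
    rw [abs_neg]; exact hc
  · have hΦ2 : ContDiff ℝ 2 Φ := by exact_mod_cast (contDiff_infty.1 hΦ.smooth 2)
    have h3 : ContDiffAt ℝ 2 (fun r => (κ r).2.2) t := h1.snd.snd
    have h4 : ContDiffAt ℝ 2 (fun r => Φ (κ r).2.2) t := hΦ2.contDiffAt.comp t h3
    refine ⟨fun r => Real.pi - Θ r - Φ (κ r).2.2, (contDiffAt_const.sub hΘ).sub h4, ?_⟩
    have hce : ∀ᶠ r in 𝓝 t, |(κ r).2.2| < s := by
      have : ContinuousAt (fun r => |(κ r).2.2|) t := h3.continuousAt.abs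
      exact this.eventually (gt_mem_nhds hc)
    filter_upwards [hz, hce] with r hr hr2
    refine ⟨?_, ?_⟩
    · rw [hr.1]
      show PP s Φ (secP (Θ r) (κ r).2.2) = secP (Real.pi - Θ r - Φ (κ r).2.2) (-(κ r).2.2)
      exact PP_in hs Φ _ _ hr2
    · show rho (Kp Φ (κ r)) = nn (Real.pi - Θ r - Φ (κ r).2.2) (-(κ r).2.2)
      rw [nn_step, ← hr.2]

theorem canC_one (n : V3) : canC 1 n = secF n := by
  unfold canC; norm_num

theorem canC_three (n : V3) : canC 3 n = secF (rho n) := by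
  unfold canC; norm_num

theorem canC_zero (n : V3) : canC 0 n = secQ 0 n := by
  unfold canC; norm_num

theorem canC_two (n : V3) : canC 2 n = secQ 2 n := by
  unfold canC; norm_num

theorem secQ_rho (j : ℤ) (n : V3) (h : n.2.2 ≠ 0) :
    secQ j (rho n) = secQ j n := by
  unfold secQ
  have a1 : (rho n).2.1 = -n.2.1 := rfl
  have a2 : (rho n).2.2 = -n.2.2 := rfl
  simp only [a1, a2, rho_rho]
  by_cases h1 : n.2.1 < 0 ∨ (n.2.1 = 0 ∧ 0 < n.2.2)
  · have h2 : ¬ (-n.2.1 < 0 ∨ (-n.2.1 = 0 ∧ 0 < -n.2.2)) := by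
      rcases h1 with h1 | ⟨h1, h1'⟩
      · rintro (h2 | ⟨h2, _⟩) <;> linarith
      · rintro (h2 | ⟨_, h2⟩) <;> linarith
    rw [if_neg h2, if_pos h1]
  · have h2 : -n.2.1 < 0 ∨ (-n.2.1 = 0 ∧ 0 < -n.2.2) := by
      by_contra h2
      apply h
      push Not at h1 h2
      obtain ⟨a1, a2⟩ := h1
      obtain ⟨b1, b2⟩ := h2
      have e : n.2.1 = 0 := le_antisymm (by linarith) a1
      refine le_antisymm (a2 e) ?_
      have := b2 (by rw [e]; simp)
      linarith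
    rw [if_pos h2, if_neg h1]

theorem two_pi_ne : -(2 * Real.pi) ≠ 0 := by
  have := Real.pi_pos
  intro h
  linarith

/-- `P` on a pair with `s ≤ |c|` -/
theorem PP_out {s : ℝ} (Φ : ℝ → ℝ) (j : ℤ) (n : V3) (hc : s ≤ |n.2.2|) :
    PP s Φ (j, n) = if Φ n.2.2 = 0 then canC ((1 - j) % 4) (rho n)
      else canC ((3 - j) % 4) (rho n) := by
  unfold PP
  rw [if_neg (not_lt.2 hc)]

/-- the value of `P` over a near annulus point with `s ≤ |c|` -/
theorem PP_secQ {s : ℝ} {Φ : ℝ → ℝ} (hΦ : TwP s Φ) (j : ℤ) (hj : j = 0 ∨ j = 2) (n : V3)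
    (hc : s ≤ |n.2.2|) (hv : Φ n.2.2 = 0 ∨ Φ n.2.2 = -(2 * Real.pi)) :
    PP s Φ (secQ j n) = if (j = 0 ↔ Φ n.2.2 = 0) then secF (rho n) else secF n := by
  have hc' : s ≤ |(rho n).2.2| := by
    show s ≤ |-n.2.2|
    rw [abs_neg]; exact hc
  have hsym : Φ (rho n).2.2 = -(2 * Real.pi) - Φ n.2.2 := hΦ.sym _
  unfold secQ
  rcases hj with rfl | rfl <;> rcases hv with hv | hv
  · split_ifs with h1 h2 h2
    · rw [PP_out Φ _ _ hc, if_pos hv]; exact canC_one _
    · exact absurd (by simp [hv]) h2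
    · rw [PP_out Φ _ _ hc', hsym, hv, if_neg (by simp), rho_rho]
      exact canC_three _
    · exact absurd (by simp [hv]) h2
  · have hne : ¬ ((0 : ℤ) = 0 ↔ Φ n.2.2 = 0) := by
      rw [hv]; simp
    rw [if_neg hne]
    split_ifs with h1
    · rw [PP_out Φ _ _ hc, hv, if_neg two_pi_ne]
      show canC 3 (rho n) = secF n
      rw [canC_three, rho_rho]
    · rw [PP_out Φ _ _ hc', hsym, hv, if_pos (by ring), rho_rho]
      exact canC_one _
  · have hne : ¬ ((2 : ℤ) = 0 ↔ Φ n.2.2 = 0) := by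
      rw [hv]; simp
    rw [if_neg hne]
    split_ifs with h1
    · rw [PP_out Φ _ _ hc, if_pos hv]
      show canC 3 (rho n) = secF n
      rw [canC_three, rho_rho]
    · rw [PP_out Φ _ _ hc', hsym, hv, if_neg (by simp), rho_rho]
      exact canC_one _
  · have hne : ((2 : ℤ) = 0 ↔ Φ n.2.2 = 0) := by
      rw [hv]; simp
    rw [if_pos hne]
    split_ifs with h1
    · rw [PP_out Φ _ _ hc, hv, if_neg two_pi_ne]
      exact canC_one _
    · rw [PP_out Φ _ _ hc', hsym, hv, if_pos (by ring), rho_rho]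
      exact canC_three _

theorem PP_secF {s : ℝ} {Φ : ℝ → ℝ} (hΦ : TwP s Φ) (n : V3) (hc0 : n.2.2 ≠ 0)
    (hc : s ≤ |n.2.2|) (hv : Φ n.2.2 = 0 ∨ Φ n.2.2 = -(2 * Real.pi)) :
    PP s Φ (secF n) = if Φ n.2.2 = 0 then secQ 0 n else secQ 2 n := by
  have hc' : s ≤ |(rho n).2.2| := by
    show s ≤ |-n.2.2|
    rw [abs_neg]; exact hc
  have hsym : Φ (rho n).2.2 = -(2 * Real.pi) - Φ n.2.2 := hΦ.sym _
  unfold secF
  rcases hv with hv | hv
  · rw [if_pos hv]
    split_ifs with h1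
    · rw [PP_out Φ _ _ hc, if_pos hv]
      show canC 0 (rho n) = secQ 0 n
      rw [canC_zero, secQ_rho 0 n hc0]
    · rw [PP_out Φ _ _ hc', hsym, hv, if_neg (by simp), rho_rho]
      exact canC_zero _
  · rw [hv, if_neg two_pi_ne]
    split_ifs with h1
    · rw [PP_out Φ _ _ hc, hv, if_neg two_pi_ne]
      show canC 2 (rho n) = secQ 2 n
      rw [canC_two, secQ_rho 2 n hc0]
    · rw [PP_out Φ _ _ hc', hsym, hv, if_pos (by ring), rho_rho]
      exact canC_two _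

/-- the twist function is locally constant outside `|c| ≤ s` -/
theorem val_out {s : ℝ} {Φ : ℝ → ℝ} (hΦ : TwP s Φ) {c : ℝ} (hc : s ≤ |c|) :
    Φ c = 0 ∨ Φ c = -(2 * Real.pi) := by
  rcases le_abs'.1 hc with h | h
  · rcases hΦ.lo with h1 | h1
    · exact Or.inl (h1 c (by linarith))
    · exact Or.inr (h1 c (by linarith))
  · rcases hΦ.hi with h1 | h1
    · exact Or.inl (h1 c h)
    · exact Or.inr (h1 c h)

/-- near a point `c0` with `s ≤ |c0|`, the values at `c` with `s ≤ |c|` are all equal -/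
theorem val_const {s : ℝ} (hs : 0 < s) {Φ : ℝ → ℝ} (hΦ : TwP s Φ) {c0 : ℝ} (hc0 : s ≤ |c0|) :
    ∀ᶠ c in 𝓝 c0, s ≤ |c| → Φ c = Φ c0 := by
  rcases le_abs'.1 hc0 with h | h
  · have h2 : c0 < 0 := by linarith
    filter_upwards [gt_mem_nhds h2] with c hc hcs
    have h3 : c ≤ -s := by
      rcases le_abs'.1 hcs with h4 | h4
      · exact h4
      · linarith
    rcases hΦ.lo with h1 | h1
    · rw [h1 c h3, h1 c0 h]
    · rw [h1 c h3, h1 c0 h]
  · have h2 : 0 < c0 := by linarith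
    filter_upwards [lt_mem_nhds h2] with c hc hcs
    have h3 : s ≤ c := by
      rcases le_abs'.1 hcs with h4 | h4
      · linarith
      · exact h4
    rcases hΦ.hi with h1 | h1
    · rw [h1 c h3, h1 c0 h]
    · rw [h1 c h3, h1 c0 h]

/-- case `s < |c|` -/
theorem caseO {b s : ℝ} (hs : 0 < s) {Φ : ℝ → ℝ} (hΦ : TwP s Φ) {z : ℝ → XS} {κ : ℝ → V3}
    {t : ℝ} (h1 : ContDiffAt ℝ 2 κ t) (h2 : ∀ᶠ r in 𝓝 t, dot (κ r) (κ r) = 1)
    (hx : |(κ t).1| < b) (hc : s < |(κ t).2.2|)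
    (hz : (∃ j : ℤ, (j = 0 ∨ j = 2) ∧ ∀ᶠ r in 𝓝 t, z r = secQ j (κ r)) ∨
      (∀ᶠ r in 𝓝 t, z r = secF (κ r))) :
    Lift b s (fun r => PP s Φ (z r)) (fun r => Kp Φ (κ r)) t := by
  have h3 : ContinuousAt (fun r => (κ r).2.2) t := h1.snd.snd.continuousAt
  have hce : ∀ᶠ r in 𝓝 t, s < |(κ r).2.2| := h3.abs.eventually (lt_mem_nhds hc)
  have hcst : ∀ᶠ r in 𝓝 t, Φ (κ r).2.2 = Φ (κ t).2.2 := by
    filter_upwards [h3.eventually (val_const hs hΦ hc.le), hce] with r hr hr2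
    exact hr hr2.le
  have hK : ∀ᶠ r in 𝓝 t, Kp Φ (κ r) = κ r := by
    filter_upwards [hce] with r hr
    exact Kp_id Φ _ (val_out hΦ hr.le)
  refine ⟨contDiffAt_Kp hΦ.smooth h1, ?_, ?_⟩
  · filter_upwards [h2] with r hr
    rw [dot_Kp]; exact hr
  · have hx' : |(Kp Φ (κ t)).1| < b := by
      rw [hK.self_of_nhds]; exact hx
    rcases hz with ⟨j, hj, hz⟩ | hz
    · refine Or.inr (Or.inr ⟨hx', ?_⟩)
      by_cases hd : (j = 0 ↔ Φ (κ t).2.2 = 0)
      · right
        filter_upwards [hz, hce, hcst, hK] with r a1 a2 a3 a4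
        rw [a1, PP_secQ hΦ j hj _ a2.le (val_out hΦ a2.le), a3, if_pos hd, a4]
      · left
        filter_upwards [hz, hce, hcst, hK] with r a1 a2 a3 a4
        rw [a1, PP_secQ hΦ j hj _ a2.le (val_out hΦ a2.le), a3, if_neg hd, a4]
    · refine Or.inr (Or.inl ⟨hx', ?_⟩)
      by_cases hd : Φ (κ t).2.2 = 0
      · refine ⟨0, Or.inl rfl, ?_⟩
        filter_upwards [hz, hce, hcst, hK] with r a1 a2 a3 a4
        have hne : (κ r).2.2 ≠ 0 := by
          intro h
          rw [h, abs_zero] at a2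
          linarith
        rw [a1, PP_secF hΦ _ hne a2.le (val_out hΦ a2.le), a3, if_pos hd, a4]
      · refine ⟨2, Or.inr rfl, ?_⟩
        filter_upwards [hz, hce, hcst, hK] with r a1 a2 a3 a4
        have hne : (κ r).2.2 ≠ 0 := by
          intro h
          rw [h, abs_zero] at a2
          linarith
        rw [a1, PP_secF hΦ _ hne a2.le (val_out hΦ a2.le), a3, if_neg hd, a4]

theorem canC_fit (m : ℤ) (n : V3)
    (h : ((m = 0 ∨ m = 2) ∧ n.2.1 < 0) ∨ ((m = 1 ∨ m = 3) ∧ 0 < n.2.1)) :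
    canC m n = (m, n) := by
  rcases h with ⟨rfl | rfl, h⟩ | ⟨rfl | rfl, h⟩
  · rw [canC_zero]; unfold secQ; rw [if_pos (Or.inl h)]
  · rw [canC_two]; unfold secQ; rw [if_pos (Or.inl h)]
  · rw [canC_one]; unfold secF; rw [if_pos h.le]
  · rw [canC_three]; unfold secF
    have : ¬ (0 ≤ (rho n).2.1) := by
      show ¬ (0 ≤ -n.2.1)
      linarith
    rw [if_neg this, rho_rho]

/-- case `|c| = s`, `D ≠ 0` -/
theorem caseE {b s : ℝ} (hb : 0 < b) (hs : 0 < s) (hsb : s ^ 2 + b ^ 2 = 1) {Φ : ℝ → ℝ}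
    (hΦ : TwP s Φ) {z : ℝ → XS} {κ : ℝ → V3} {t : ℝ} {j : ℤ} (h1 : ContDiffAt ℝ 2 κ t)
    (h2 : ∀ᶠ r in 𝓝 t, dot (κ r) (κ r) = 1) (h3 : ∀ᶠ r in 𝓝 t, z r = (j, κ r))
    (h4 : ((j = 0 ∨ j = 2) ∧ (κ t).2.1 < 0) ∨ ((j = 1 ∨ j = 3) ∧ 0 < (κ t).2.1))
    (hc : s ≤ |(κ t).2.2|) :
    Lift b s (fun r => PP s Φ (z r)) (fun r => rho (Kp Φ (κ r))) t := by
  have hp := Real.pi_pos
  have hs1 : s < 1 := by nlinarith
  obtain ⟨Θ, hΘ, hz⟩ := L1M.angle z κ t j h1 h2 h3 h4
  have h5 : ContinuousAt (fun r => (κ r).2.2) t := h1.snd.snd.continuousAt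
  have h6 : ContinuousAt (fun r => (κ r).2.1) t := h1.snd.fst.continuousAt
  have hD : (κ t).2.1 ≠ 0 := by
    rcases h4 with h4 | h4
    · exact h4.2.ne
    · exact h4.2.ne'
  -- decomposition of the angle at t
  obtain ⟨k, θ, g1, g2, hk⟩ := exists_dec (Θ t)
  have g1' : -(Real.pi / 2) < θ := by
    rcases lt_or_eq_of_le g1 with h | h
    · exact h
    · exfalso
      apply hD
      have h7 := (hz.self_of_nhds).2
      have h8 : (κ t).2.1 = -(Real.sqrt (1 - (κ t).2.2 ^ 2) * Real.cos (Θ t)) :=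
        congrArg (fun m : V3 => m.2.1) h7
      have h9 : Real.cos (Θ t) = 0 := by
        rw [hk, ← h]
        rcases Int.emod_two_eq_zero_or_one k with hk2 | hk2
        · rw [cos_dec_even _ _ hk2, Real.cos_neg, Real.cos_pi_div_two]
        · rw [cos_dec_odd _ _ hk2, Real.cos_neg, Real.cos_pi_div_two, neg_zero]
      rw [h8, h9]; ring
  have hj : j = k % 4 := by
    have h7 := h3.self_of_nhds
    have h8 := (hz.self_of_nhds).1
    rw [h7] at h8
    have h9 : j = lab (Θ t) := congrArg Prod.fst h8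
    rw [h9, hk]
    exact lab_eq k θ g1 g2
  have hv := val_out hΦ hc
  -- the new label
  set m : ℤ := if Φ (κ t).2.2 = 0 then 1 - k else 3 - k with hm
  have hΘ2 : Real.pi - Θ t - Φ (κ t).2.2 = (m : ℝ) * Real.pi - θ := by
    rcases hv with hv | hv
    · rw [hm, if_pos hv, hk, hv]; push_cast; ring
    · rw [hm, hv, if_neg two_pi_ne, hk]; push_cast; ring
  have hΦc : Continuous Φ := hΦ.smooth.continuous
  have hcont : ContinuousAt (fun r => Real.pi - Θ r - Φ (κ r).2.2) t :=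
    (continuousAt_const.sub hΘ.continuousAt).sub (hΦc.continuousAt.comp h5)
  have e1 : ∀ᶠ r in 𝓝 t, (m : ℝ) * Real.pi - Real.pi / 2 < Real.pi - Θ r - Φ (κ r).2.2 := by
    apply hcont.eventually (lt_mem_nhds _)
    show (m : ℝ) * Real.pi - Real.pi / 2 < Real.pi - Θ t - Φ (κ t).2.2
    rw [hΘ2]; linarith
  have e2 : ∀ᶠ r in 𝓝 t, Real.pi - Θ r - Φ (κ r).2.2 < (m : ℝ) * Real.pi + Real.pi / 2 := by
    apply hcont.eventually (gt_mem_nhds _)
    show Real.pi - Θ t - Φ (κ t).2.2 < (m : ℝ) * Real.pi + Real.pi / 2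
    rw [hΘ2]; linarith
  have e3 : ∀ᶠ r in 𝓝 t, ((j = 0 ∨ j = 2) ∧ (κ r).2.1 < 0) ∨
      ((j = 1 ∨ j = 3) ∧ 0 < (κ r).2.1) := by
    rcases h4 with ⟨h4, h4'⟩ | ⟨h4, h4'⟩
    · filter_upwards [h6.eventually (gt_mem_nhds h4')] with r hr
      exact Or.inl ⟨h4, hr⟩
    · filter_upwards [h6.eventually (lt_mem_nhds h4')] with r hr
      exact Or.inr ⟨h4, hr⟩
  have hmcase : (j = 0 ∨ j = 2 → m % 4 = 1 ∨ m % 4 = 3) ∧
      (j = 1 ∨ j = 3 → m % 4 = 0 ∨ m % 4 = 2) := by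
    rw [hm]
    split_ifs <;> constructor <;> intro h <;> omega
  have hP : ∀ᶠ r in 𝓝 t, PP s Φ (z r) = (m % 4, rho (Kp Φ (κ r))) := by
    filter_upwards [h3, hz, e1, e2, e3, h5.eventually (val_const hs hΦ hc)] with
      r a1 a2 a3 a4 a5 a6
    by_cases hcr : |(κ r).2.2| < s
    · rw [a2.1, PP_in hs1 Φ _ _ hcr]
      unfold secP
      rw [L1M.lab_of_mem m _ a3 a4, nn_step, ← a2.2]
    · push Not at hcr
      have a7 := a6 hcr
      rw [a1, PP_out Φ _ _ hcr, a7, Kp_id Φ _ (val_out hΦ hcr)]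
      have a8 : (rho (κ r)).2.1 = -(κ r).2.1 := rfl
      have fit : ∀ m' : ℤ, m' = m % 4 → canC m' (rho (κ r)) = (m % 4, rho (κ r)) := by
        rintro m' rfl
        apply canC_fit
        rw [a8]
        rcases a5 with ⟨b1, b2⟩ | ⟨b1, b2⟩
        · exact Or.inr ⟨hmcase.1 b1, by linarith⟩
        · exact Or.inl ⟨hmcase.2 b1, by linarith⟩
      by_cases hv0 : Φ (κ t).2.2 = 0
      · rw [if_pos hv0]
        apply fit
        rw [hm, if_pos hv0]; omega
      · rw [if_neg hv0]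
        apply fit
        rw [hm, if_neg hv0]; omega
  refine L1M.conv b s hb hs hsb (fun r => PP s Φ (z r)) (fun r => rho (Kp Φ (κ r))) t (m % 4)
    (contDiffAt_rho (contDiffAt_Kp hΦ.smooth h1)) ?_ hP ?_
  · filter_upwards [h2] with r hr
    rw [dot_rho, dot_Kp]; exact hr
  · have a8 : (rho (Kp Φ (κ t))).2.1 = -(κ t).2.1 := by
      rw [Kp_id Φ _ hv]; rfl
    rw [a8]
    rcases h4 with ⟨b1, b2⟩ | ⟨b1, b2⟩
    · exact Or.inr ⟨hmcase.1 b1, by linarith⟩
    · exact Or.inl ⟨hmcase.2 b1, by linarith⟩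

end SteppM

open SteppM in
/-- STEPP -/
theorem specSTEPP : SpecSTEPP := by
  intro b s Φ hb hs hsb hΦ z κ t _ hlift
  have hs1 : s < 1 := by nlinarith
  obtain ⟨h1, h2, hcase⟩ := id hlift
  -- `|x| < b` and `|c| ≤ s` imply `D ≠ 0`
  have hDne : |(κ t).1| < b → |(κ t).2.2| ≤ s → (κ t).2.1 ≠ 0 := by
    intro hx hc hD
    have hu := h2.self_of_nhds
    have a1 : (κ t).1 ^ 2 < b ^ 2 := sq_lt_sq' (by linarith [(abs_lt.1 hx).1]) (abs_lt.1 hx).2
    have a2 : (κ t).2.2 ^ 2 ≤ s ^ 2 := sq_le_sq' (by linarith [(abs_le.1 hc).1]) (abs_le.1 hc).2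
    simp only [dot, hD] at hu
    nlinarith
  rcases lt_trichotomy (|(κ t).2.2|) s with hc | hc | hc
  · -- inside
    have hAorB : (∃ Θ : ℝ → ℝ, ContDiffAt ℝ 2 Θ t ∧
        ∀ᶠ r in 𝓝 t, z r = secP (Θ r) (κ r).2.2 ∧ κ r = nn (Θ r) (κ r).2.2) ∨
        |(κ t).1| < b := by
      rcases hcase with ⟨-, h⟩ | ⟨h, -⟩ | ⟨h, -⟩
      · exact Or.inl h
      · exact Or.inr h
      · exact Or.inr h
    rcases hAorB with ⟨Θ, hΘ, hz⟩ | hx
    · exact Or.inl (caseA hs1 hΦ h1 h2 hc hΘ hz)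
    · obtain ⟨j, κ', hκ', hL', hzj, hsgn⟩ := L1M.noD b s hs1 z κ t hlift (hDne hx hc.le)
      obtain ⟨Θ, hΘ, hz⟩ := L1M.angle z κ' t j hL'.1 hL'.2.1 hzj hsgn
      have hc' : |(κ' t).2.2| < s := by
        rcases hκ' with h | h
        · rw [h t]; exact hc
        · rw [h t]; show |-(κ t).2.2| < s; rw [abs_neg]; exact hc
      exact transfer hΦ hκ' (Or.inl (caseA hs1 hΦ hL'.1 hL'.2.1 hc' hΘ hz))
  · -- boundary
    have hx : |(κ t).1| < b := by
      rcases hcase with ⟨h, -⟩ | ⟨h, -⟩ | ⟨h, -⟩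
      · exact absurd hc h.ne
      · exact h
      · exact h
    obtain ⟨j, κ', hκ', hL', hzj, hsgn⟩ := L1M.noD b s hs1 z κ t hlift (hDne hx hc.le)
    have hc' : s ≤ |(κ' t).2.2| := by
      rcases hκ' with h | h
      · rw [h t]; exact hc.ge
      · rw [h t]; show s ≤ |-(κ t).2.2|; rw [abs_neg]; exact hc.ge
    exact transfer hΦ hκ' (Or.inl (caseE hb hs hsb hΦ hL'.1 hL'.2.1 hzj hsgn hc'))
  · -- outside
    rcases hcase with ⟨h, -⟩ | ⟨hx, hz⟩ | ⟨hx, hz | hz⟩
    · exact absurd h (not_lt.2 hc.le)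
    · exact Or.inr (caseO hs hΦ h1 h2 hx hc (Or.inl hz))
    · exact Or.inr (caseO hs hΦ h1 h2 hx hc (Or.inr hz))
    · have hl : Lift b s (fun r => PP s Φ (z r)) (fun r => Kp Φ (rho (κ r))) t := by
        apply caseO hs hΦ (contDiffAt_rho h1) _ _ _ (Or.inr hz)
        · filter_upwards [h2] with r hr
          rw [dot_rho]; exact hr
        · exact hx
        · show s < |-(κ t).2.2|
          rw [abs_neg]; exact hc
      exact transfer hΦ (κ' := fun r => rho (κ r)) (Or.inr fun r => rfl) (Or.inr hl)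

end Pool.Agent.Lib.MP_d2b992_gt.Dyn
end
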