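import Mathlib
import Pool.Agent.Lib.MP_d2b992_gt.Dyn.Spec1
import Pool.Agent.Lib.MP_d2b992_gt.Dyn.Spec5
import Pool.Agent.Lib.MP_d2b992_gt.Dyn.Spec4
import Pool.Agent.Lib.MP_d2b992_gt.Dyn.Stepp

section
/-!
# AREA: area swept by short verticals over a curve
-/
set_option autoImplicit false

open MeasureTheory Filter Topology Set
open scoped ENNReal

namespace Pool.Agent.Lib.MP_d2b992_gt.Dyn.AreaM

/-- the swept set -/
def Sw (L : Set ℝ) (X C X' : ℝ → ℝ) (B : ℝ) : Set (ℝ × ℝ) :=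
  {p : ℝ × ℝ | ∃ t ∈ L, p.1 = X t ∧ |p.2 - C t| ≤ B / |X' t|}

variable {O L : Set ℝ} {X C X' : ℝ → ℝ} {B : ℝ}

theorem Sw_eq (hne : ∀ t ∈ L, X' t ≠ 0) : Sw L X C X' B =
    (fun q : ℝ × ℝ => (X q.1, C q.1 + q.2 / |X' q.1|)) '' (L ×ˢ Icc (-B) B) := by
  ext ⟨x, y⟩
  simp only [Sw, mem_image, mem_prod, Prod.exists, Prod.mk.injEq, mem_Icc]
  constructor
  · rintro ⟨t, ht, h1, h2⟩
    have h3 : 0 < |X' t| := abs_pos.2 (hne t ht)
    simp only at h1 h2
    rw [le_div_iff₀ h3] at h2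
    refine ⟨t, (y - C t) * |X' t|, ⟨ht, ?_⟩, h1.symm, ?_⟩
    · rw [← abs_le, abs_mul, abs_abs]
      exact h2
    · field_simp
      ring
  · rintro ⟨t, y', ⟨ht, h1⟩, rfl, rfl⟩
    have h3 : 0 < |X' t| := abs_pos.2 (hne t ht)
    refine ⟨t, ht, rfl, ?_⟩
    simp only [add_sub_cancel_left]
    rw [abs_div, abs_abs]
    exact div_le_div_of_nonneg_right (abs_le.2 h1) h3.le

theorem section_eq (hinj : InjOn X L) {t : ℝ} (ht : t ∈ L) :
    Prod.mk (X t) ⁻¹' (Sw L X C X' B) = Icc (C t - B / |X' t|) (C t + B / |X' t|) := by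
  ext y
  simp only [Sw, mem_preimage, mem_Icc]
  constructor
  · rintro ⟨t', ht', h1, h2⟩
    have : t = t' := hinj ht ht' h1
    subst this
    rw [abs_le] at h2
    exact ⟨by linarith [h2.1], by linarith [h2.2]⟩
  · rintro ⟨h1, h2⟩
    exact ⟨t, ht, rfl, abs_le.2 ⟨by linarith, by linarith⟩⟩

theorem piece (hX : ∀ t ∈ L, HasDerivAt X (X' t) t) (hX' : ContinuousOn X' L)
    (hne : ∀ t ∈ L, X' t ≠ 0) (hC : ContinuousOn C L) (_ : 0 ≤ B) (hL : MeasurableSet L)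
    (hinj : InjOn X L) :
    volume (Sw L X C X' B) = ENNReal.ofReal (2 * B) * volume L := by
  have hXc : ContinuousOn X L := fun t ht => (hX t ht).continuousAt.continuousWithinAt
  have hmS : MeasurableSet (Sw L X C X' B) := by
    rw [Sw_eq hne]
    refine MeasurableSet.image_of_continuousOn_injOn (hL.prod measurableSet_Icc) ?_ ?_
    · refine ContinuousOn.prodMk ?_ ?_
      · exact hXc.comp continuousOn_fst fun q hq => hq.1
      · refine (hC.comp continuousOn_fst fun q hq => hq.1).add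
          (continuousOn_snd.div ((hX'.comp continuousOn_fst fun q hq => hq.1).abs) ?_)
        intro q hq
        exact (abs_pos.2 (hne _ hq.1)).ne'
    · rintro ⟨t, y⟩ h1 ⟨t', y'⟩ h2 h
      simp only [Prod.mk.injEq] at h
      have h3 : t = t' := hinj h1.1 h2.1 h.1
      subst h3
      have h4 := (abs_pos.2 (hne t h1.1)).ne'
      have h5 : y / |X' t| = y' / |X' t| := by linarith [h.2]
      rw [div_left_inj' h4] at h5
      rw [h5]
  have hmX : MeasurableSet (X '' L) := hL.image_of_continuousOn_injOn hXc hinj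
  rw [Measure.volume_eq_prod, Measure.prod_apply hmS, ← lintegral_add_compl _ hmX]
  have h0 : ∫⁻ x in (X '' L)ᶜ, volume (Prod.mk x ⁻¹' (Sw L X C X' B)) = 0 := by
    rw [setLIntegral_congr_fun hmX.compl (g := fun _ => 0)]
    · simp
    · intro x hx
      have : Prod.mk x ⁻¹' (Sw L X C X' B) = ∅ := by
        ext y
        simp only [mem_preimage, mem_empty_iff_false, iff_false]
        rintro ⟨t, ht, h1, -⟩
        exact hx ⟨t, ht, h1.symm⟩
      simp [this]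
  rw [h0, add_zero, lintegral_image_eq_lintegral_abs_deriv_mul hL
    (fun t ht => (hX t ht).hasDerivWithinAt) hinj]
  rw [setLIntegral_congr_fun hL (g := fun _ => ENNReal.ofReal (2 * B))]
  · simp
  · intro t ht
    have h3 : 0 < |X' t| := abs_pos.2 (hne t ht)
    simp only
    rw [section_eq hinj ht, Real.volume_Icc, ← ENNReal.ofReal_mul h3.le]
    congr 1
    field_simp
    ring

theorem local_inj (hO : IsOpen O) (hX : ∀ t ∈ O, HasDerivAt X (X' t) t)
    (hX' : ContinuousOn X' O) (hne : ∀ t ∈ O, X' t ≠ 0) {t : ℝ} (ht : t ∈ O) :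
    ∃ a b : ℚ, t ∈ Ioo (a : ℝ) b ∧ Ioo (a : ℝ) b ⊆ O ∧ InjOn X (Ioo (a : ℝ) b) := by
  have hrat : ∀ s : Set ℝ, s ∈ 𝓝 t → ∃ a b : ℚ, t ∈ Ioo (a : ℝ) b ∧ Ioo (a : ℝ) b ⊆ s := by
    intro s hs
    obtain ⟨l, u, ⟨h1, h2⟩, h3⟩ := mem_nhds_iff_exists_Ioo_subset.1 hs
    obtain ⟨a, ha1, ha2⟩ := exists_rat_btwn h1
    obtain ⟨b, hb1, hb2⟩ := exists_rat_btwn h2
    exact ⟨a, b, ⟨ha2, hb1⟩, (Ioo_subset_Ioo ha1.le hb2.le).trans h3⟩
  have hc : ContinuousAt X' t := hX'.continuousAt (hO.mem_nhds ht)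
  rcases lt_or_gt_of_ne (hne t ht) with h | h
  · obtain ⟨a, b, h1, h2⟩ := hrat _ (inter_mem (hO.mem_nhds ht) (hc.eventually (gt_mem_nhds h)))
    refine ⟨a, b, h1, fun s hs => (h2 hs).1, StrictAntiOn.injOn ?_⟩
    refine strictAntiOn_of_deriv_neg (convex_Ioo _ _)
      (fun s hs => (hX s (h2 hs).1).continuousAt.continuousWithinAt) ?_
    intro s hs
    rw [interior_Ioo] at hs
    rw [(hX s (h2 hs).1).deriv]
    exact (h2 hs).2
  · obtain ⟨a, b, h1, h2⟩ := hrat _ (inter_mem (hO.mem_nhds ht) (hc.eventually (lt_mem_nhds h)))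
    refine ⟨a, b, h1, fun s hs => (h2 hs).1, StrictMonoOn.injOn ?_⟩
    refine strictMonoOn_of_deriv_pos (convex_Ioo _ _)
      (fun s hs => (hX s (h2 hs).1).continuousAt.continuousWithinAt) ?_
    intro s hs
    rw [interior_Ioo] at hs
    rw [(hX s (h2 hs).1).deriv]
    exact (h2 hs).2

end Pool.Agent.Lib.MP_d2b992_gt.Dyn.AreaM

namespace Pool.Agent.Lib.MP_d2b992_gt.Dyn

open AreaM

theorem specAREA : SpecAREA := by
  intro O L X C X' B hO hX hX' hne hC hB hL hLO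
  classical
  obtain ⟨e, he⟩ := exists_surjective_nat (ℚ × ℚ)
  set J : ℕ → Set ℝ := fun n =>
    if Ioo ((e n).1 : ℝ) (e n).2 ⊆ O ∧ InjOn X (Ioo ((e n).1 : ℝ) (e n).2)
    then Ioo ((e n).1 : ℝ) (e n).2 else ∅ with hJ
  have hJm : ∀ n, MeasurableSet (J n) := by
    intro n
    simp only [hJ]
    split_ifs
    · exact measurableSet_Ioo
    · exact MeasurableSet.empty
  have hJi : ∀ n, InjOn X (J n) := by
    intro n
    simp only [hJ]
    split_ifs with h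
    · exact h.2
    · exact injOn_empty _
  have hJc : O ⊆ ⋃ n, J n := by
    intro t ht
    obtain ⟨a, b, h1, h2, h3⟩ := local_inj hO hX hX' hne ht
    obtain ⟨n, hn⟩ := he (a, b)
    rw [mem_iUnion]
    refine ⟨n, ?_⟩
    simp only [hJ, hn]
    rw [if_pos ⟨h2, h3⟩]
    exact h1
  set D : ℕ → Set ℝ := disjointed J with hD
  have hDm : ∀ n, MeasurableSet (D n) := fun n => MeasurableSet.disjointed hJm n
  have hDd : Pairwise (Function.onFun Disjoint D) := disjoint_disjointed J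
  have hDJ : ∀ n, D n ⊆ J n := fun n => disjointed_subset J n
  have hLc : L = ⋃ n, L ∩ D n := by
    rw [← inter_iUnion, hD, iUnion_disjointed]
    exact (inter_eq_left.2 (hLO.trans hJc)).symm
  have hsub : {p : ℝ × ℝ | ∃ t ∈ L, p.1 = X t ∧ |p.2 - C t| ≤ B / |X' t|} ⊆
      ⋃ n, Sw (L ∩ D n) X C X' B := by
    rintro p ⟨t, ht, h1⟩
    rw [hLc] at ht
    obtain ⟨n, hn⟩ := mem_iUnion.1 ht
    exact mem_iUnion.2 ⟨n, t, hn, h1⟩
  calc volume {p : ℝ × ℝ | ∃ t ∈ L, p.1 = X t ∧ |p.2 - C t| ≤ B / |X' t|}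
      ≤ volume (⋃ n, Sw (L ∩ D n) X C X' B) := measure_mono hsub
    _ ≤ ∑' n, volume (Sw (L ∩ D n) X C X' B) := measure_iUnion_le _
    _ = ∑' n, ENNReal.ofReal (2 * B) * volume (L ∩ D n) := tsum_congr fun n =>
        piece (fun t ht => hX t (hLO ht.1)) (hX'.mono fun t ht => hLO ht.1)
          (fun t ht => hne t (hLO ht.1)) (hC.mono fun t ht => hLO ht.1) hB (hL.inter (hDm n))
          ((hJi n).mono fun t ht => hDJ n ht.2)
    _ = ENNReal.ofReal (2 * B) * ∑' n, volume (L ∩ D n) := ENNReal.tsum_mul_left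
    _ = ENNReal.ofReal (2 * B) * volume (⋃ n, L ∩ D n) := by
        rw [measure_iUnion (fun i j hij => (hDd hij).mono inter_subset_right inter_subset_right)
          fun n => hL.inter (hDm n)]
    _ = ENNReal.ofReal (2 * B) * volume L := by rw [← hLc]

end Pool.Agent.Lib.MP_d2b992_gt.Dyn
end

section
/-!
# CROSS: a decreasing and an increasing Lipschitz curve intersect

Text: `/team-store/MP_d2b992_gt_DYN.md`, section 5.
-/
set_option autoImplicit false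

namespace Pool.Agent.Lib.MP_d2b992_gt.Dyn

theorem specCROSS : SpecCROSS := by
  intro M δ r s1 s2 r1 r2 s0 r0 p q x c hM hr hδ hs0 hr0 _ _ _ _ hpq hxc hp hc hpx hqc
  have hchA : ∀ u ∈ Set.Icc (p s0 - δ) (p s0 + δ), ∃ a ∈ Set.Icc s1 s2, p a = u := by
    intro u hu
    obtain ⟨a, ha, hau⟩ := hp hu
    exact ⟨a, ha, hau⟩
  have hchC : ∀ v ∈ Set.Icc (c r0 - δ) (c r0 + δ), ∃ a ∈ Set.Icc r1 r2, c a = v := by
    intro v hv
    obtain ⟨a, ha, hav⟩ := hc hv
    exact ⟨a, ha, hav⟩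
  choose! A hA hAp using hchA
  choose! B hB hBc using hchC
  have hρ0 : 0 ≤ 2 * r * (1 + M) := by positivity
  have hρδ : 2 * r * (1 + M) ≤ δ := by
    have h1 : 0 ≤ 2 * r * (1 + M) * M := mul_nonneg hρ0 hM
    have h2 : 2 * r * (1 + M) ^ 2 = 2 * r * (1 + M) + 2 * r * (1 + M) * M := by ring
    linarith
  have hMρ : M * (2 * r * (1 + M)) + 2 * r ≤ δ := by
    have h1 : 0 ≤ 2 * r * M := by positivity
    have h2 : 2 * r * (1 + M) ^ 2 = M * (2 * r * (1 + M)) + 2 * r + 2 * r * M := by ring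
    linarith
  have hδ0 : 0 ≤ δ := hρ0.trans hρδ
  have hr0mem : c r0 ∈ Set.Icc (c r0 - δ) (c r0 + δ) := ⟨by linarith, by linarith⟩
  have hs0mem : p s0 ∈ Set.Icc (p s0 - δ) (p s0 + δ) := ⟨by linarith, by linarith⟩
  -- the increasing function `h`
  have hhlip : ∀ v ∈ Set.Icc (c r0 - δ) (c r0 + δ), ∀ w ∈ Set.Icc (c r0 - δ) (c r0 + δ),
      0 ≤ (x (B v) - x (B w)) * (v - w) ∧ |x (B v) - x (B w)| ≤ M * |v - w| := by
    intro v hv w hw
    have h := hxc (B v) (hB v hv) (B w) (hB w hw)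
    rw [hBc v hv, hBc w hw] at h
    exact h
  -- the decreasing function `g`
  have hglip : ∀ v ∈ Set.Icc (p s0 - δ) (p s0 + δ), ∀ w ∈ Set.Icc (p s0 - δ) (p s0 + δ),
      (v - w) * (q (A v) - q (A w)) ≤ 0 ∧ |q (A v) - q (A w)| ≤ M * |v - w| := by
    intro v hv w hw
    have h := hpq (A v) (hA v hv) (A w) (hA w hw)
    rw [hAp v hv, hAp w hw] at h
    exact h
  -- values at the base points
  have hxB : x (B (c r0)) = x r0 := by
    have h := (hxc (B (c r0)) (hB _ hr0mem) r0 hr0).2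
    rw [hBc _ hr0mem, sub_self, abs_zero, mul_zero] at h
    have := abs_nonpos_iff.mp h
    linarith
  have hqA : q (A (p s0)) = q s0 := by
    have h := (hpq (A (p s0)) (hA _ hs0mem) s0 hs0).2
    rw [hAp _ hs0mem, sub_self, abs_zero, mul_zero] at h
    have := abs_nonpos_iff.mp h
    linarith
  -- the small interval
  set ρ : ℝ := 2 * r * (1 + M) with hρdef
  have hsub : ∀ v ∈ Set.Icc (c r0 - ρ) (c r0 + ρ), v ∈ Set.Icc (c r0 - δ) (c r0 + δ) := by
    intro v hv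
    exact ⟨by linarith [hv.1], by linarith [hv.2]⟩
  have hxin : ∀ v ∈ Set.Icc (c r0 - ρ) (c r0 + ρ), x (B v) ∈ Set.Icc (p s0 - δ) (p s0 + δ) := by
    intro v hv
    have h1 := (hhlip v (hsub v hv) (c r0) hr0mem).2
    rw [hxB] at h1
    have h2 : |v - c r0| ≤ ρ := abs_le.mpr ⟨by linarith [hv.1], by linarith [hv.2]⟩
    have h3 : M * |v - c r0| ≤ M * ρ := mul_le_mul_of_nonneg_left h2 hM
    have h4 := abs_le.mp (h1.trans h3)
    have h5 := abs_le.mp hpx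
    constructor
    · linarith [h4.1, h5.2]
    · linarith [h4.2, h5.1]
  have hcmem : c r0 ∈ Set.Icc (c r0 - ρ) (c r0 + ρ) := ⟨by linarith, by linarith⟩
  have hlo : c r0 - ρ ∈ Set.Icc (c r0 - ρ) (c r0 + ρ) := ⟨by linarith, by linarith⟩
  have hhi : c r0 + ρ ∈ Set.Icc (c r0 - ρ) (c r0 + ρ) := ⟨by linarith, by linarith⟩
  let k : ℝ → ℝ := fun v => v - q (A (x (B v)))
  have hmono : ∀ v ∈ Set.Icc (c r0 - ρ) (c r0 + ρ), ∀ w ∈ Set.Icc (c r0 - ρ) (c r0 + ρ),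
      v < w → w - v ≤ k w - k v := by
    intro v hv w hw hvw
    have h1 := (hhlip v (hsub v hv) w (hsub w hw)).1
    have h2 := (hglip (x (B v)) (hxin v hv) (x (B w)) (hxin w hw)).1
    have h2' := (hglip (x (B v)) (hxin v hv) (x (B w)) (hxin w hw)).2
    have h3 : x (B v) - x (B w) ≤ 0 := by
      by_contra hcon
      push Not at hcon
      nlinarith
    have h4 : 0 ≤ q (A (x (B v))) - q (A (x (B w))) := by
      rcases h3.lt_or_eq with h | h
      · by_contra hcon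
        push Not at hcon
        nlinarith
      · rw [h, abs_zero, mul_zero] at h2'
        have := abs_nonpos_iff.mp h2'
        linarith
    simp only [k]
    linarith
  have hk0 : |k (c r0)| ≤ ρ := by
    have h1 := (hglip (x (B (c r0))) (hxin _ hcmem) (p s0) hs0mem).2
    rw [hqA, hxB] at h1
    have h2 : |x r0 - p s0| ≤ 2 * r := by rw [abs_sub_comm]; exact hpx
    have h3 : M * |x r0 - p s0| ≤ M * (2 * r) := mul_le_mul_of_nonneg_left h2 hM
    have h4 := abs_le.mp (h1.trans h3)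
    have h5 := abs_le.mp hqc
    simp only [k]
    rw [hxB]
    refine abs_le.mpr ⟨?_, ?_⟩
    · rw [hρdef]; linarith [h4.2, h5.2]
    · rw [hρdef]; linarith [h4.1, h5.1]
  have hρpos : 0 < ρ := by rw [hρdef]; positivity
  have hklo : k (c r0 - ρ) ≤ 0 := by
    have h := hmono (c r0 - ρ) hlo (c r0) hcmem (by linarith)
    have := (abs_le.mp hk0).2
    linarith
  have hkhi : 0 ≤ k (c r0 + ρ) := by
    have h := hmono (c r0) hcmem (c r0 + ρ) hhi (by linarith)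
    have := (abs_le.mp hk0).1
    linarith
  have hkcont : ContinuousOn k (Set.Icc (c r0 - ρ) (c r0 + ρ)) := by
    have hlip : LipschitzOnWith (Real.toNNReal (1 + M * M)) k (Set.Icc (c r0 - ρ) (c r0 + ρ)) := by
      apply LipschitzOnWith.of_dist_le_mul
      intro v hv w hw
      rw [Real.coe_toNNReal _ (by positivity), Real.dist_eq, Real.dist_eq]
      have h1 := (hhlip v (hsub v hv) w (hsub w hw)).2
      have h2 := (hglip (x (B v)) (hxin v hv) (x (B w)) (hxin w hw)).2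
      have h3 : M * |x (B v) - x (B w)| ≤ M * (M * |v - w|) := mul_le_mul_of_nonneg_left h1 hM
      have h4 : k v - k w = (v - w) - (q (A (x (B v))) - q (A (x (B w)))) := by
        simp only [k]; ring
      rw [h4]
      calc |(v - w) - (q (A (x (B v))) - q (A (x (B w))))|
          ≤ |v - w| + |q (A (x (B v))) - q (A (x (B w)))| := abs_sub _ _
        _ ≤ |v - w| + M * (M * |v - w|) := by linarith
        _ = (1 + M * M) * |v - w| := by ring
    exact hlip.continuousOn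
  obtain ⟨v, hv, hkv⟩ := intermediate_value_Icc (by linarith : c r0 - ρ ≤ c r0 + ρ) hkcont
    (⟨hklo, hkhi⟩ : (0 : ℝ) ∈ Set.Icc (k (c r0 - ρ)) (k (c r0 + ρ)))
  refine ⟨A (x (B v)), hA _ (hxin v hv), B v, hB v (hsub v hv), hAp _ (hxin v hv), ?_⟩
  rw [hBc v (hsub v hv)]
  simp only [k] at hkv
  linarith

end Pool.Agent.Lib.MP_d2b992_gt.Dyn
end

section
/-!
# Module LEB: one dimensional Lebesgue points, intervals containing the point
-/
set_option autoImplicit false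

open MeasureTheory Filter Topology

namespace Pool.Agent.Lib.MP_d2b992_gt.Dyn

namespace LebM

theorem locInt (f : ℝ → ℝ) (B : ℝ) (hf : Measurable f) (hB : ∀ x, |f x| ≤ B) :
    LocallyIntegrable f volume := by
  rw [locallyIntegrable_iff]
  intro K hK
  have h1 : IntegrableOn (fun _ : ℝ => B) K volume :=
    integrableOn_const hK.measure_lt_top.ne
  refine Integrable.mono' h1 hf.aestronglyMeasurable (Filter.Eventually.of_forall fun x => ?_)
  rw [Real.norm_eq_abs]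
  exact hB x

/-- Markov's inequality on an interval -/
theorem markov (f : ℝ → ℝ) (B : ℝ) (hf : Measurable f) (hB : ∀ x, |f x| ≤ B) (x u w ε : ℝ)
    (huw : u < w) (hε : 0 < ε) :
    ε * (volume {y ∈ Set.Icc u w | ε < |f y - f x|}).toReal ≤
      (w - u) * ⨍ y in Set.Icc u w, ‖f y - f x‖ ∂volume := by
  have hint : Integrable (fun y => ‖f y - f x‖) (volume.restrict (Set.Icc u w)) := by
    have h1 : IntegrableOn (fun _ : ℝ => 2 * B) (Set.Icc u w) volume :=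
      integrableOn_const isCompact_Icc.measure_lt_top.ne
    refine Integrable.mono' h1 (hf.sub_const _).norm.aestronglyMeasurable
      (Filter.Eventually.of_forall fun y => ?_)
    rw [norm_norm, Real.norm_eq_abs]
    have h2 := hB y
    have h3 := hB x
    rw [abs_le] at h2 h3 ⊢
    constructor <;> linarith
  have h1 := mul_meas_ge_le_integral_of_nonneg (μ := volume.restrict (Set.Icc u w))
    (f := fun y => ‖f y - f x‖) (Filter.Eventually.of_forall fun y => norm_nonneg _) hint ε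
  have h2 : (volume {y ∈ Set.Icc u w | ε < |f y - f x|}).toReal ≤
      (volume.restrict (Set.Icc u w)).real {y | ε ≤ ‖f y - f x‖} := by
    unfold Measure.real
    have hm : MeasurableSet {y | ε ≤ ‖f y - f x‖} :=
      measurableSet_le measurable_const (hf.sub_const _).norm
    refine ENNReal.toReal_mono (measure_ne_top _ _) ?_
    rw [Measure.restrict_apply hm]
    refine measure_mono fun y hy => ?_
    refine ⟨?_, hy.1⟩
    have := hy.2
    rw [← Real.norm_eq_abs] at this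
    exact this.le
  have h3 : (w - u) * ⨍ y in Set.Icc u w, ‖f y - f x‖ ∂volume =
      ∫ y in Set.Icc u w, ‖f y - f x‖ ∂volume := by
    rw [setAverage_eq, Real.volume_real_Icc_of_le huw.le, smul_eq_mul, ← mul_assoc,
      mul_inv_cancel₀ (by linarith), one_mul]
  rw [h3]
  refine le_trans ?_ h1
  exact mul_le_mul_of_nonneg_left h2 hε.le

end LebM

open LebM in
theorem specLEB : SpecLEB := by
  intro f B a b hf hB hab
  have h1 := IsUnifLocDoublingMeasure.ae_tendsto_average_norm_sub (μ := (volume : Measure ℝ))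
    (locInt f B hf hB) 1
  refine ae_restrict_of_ae ?_
  filter_upwards [h1] with x hx ε hε ζ hζ
  by_contra hcon
  push Not at hcon
  have h2 : ∀ n : ℕ, ∃ u w : ℝ, u ≤ x ∧ x ≤ w ∧ u < w ∧ w - u ≤ 1 / ((n : ℝ) + 1) ∧
      ENNReal.ofReal (ζ * (w - u)) < volume {y ∈ Set.Icc u w | ε < |f y - f x|} := by
    intro n
    obtain ⟨u, w, h3, h4, h5, h6, h7⟩ := hcon (1 / ((n : ℝ) + 1)) (by positivity)
    exact ⟨u, w, h3, h4, h5, h6, h7⟩
  choose u w h3 h4 h5 h6 h7 using h2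
  have hδ : Tendsto (fun n => (w n - u n) / 2) atTop (𝓝[>] 0) := by
    rw [tendsto_nhdsWithin_iff]
    constructor
    · refine squeeze_zero (g := fun n : ℕ => 1 / ((n : ℝ) + 1)) (fun n => ?_) (fun n => ?_)
        tendsto_one_div_add_atTop_nhds_zero_nat
      · have := h5 n
        linarith
      · have h8 := h6 n
        have h9 := h5 n
        linarith
    · exact Filter.Eventually.of_forall fun n => by
        have := h5 n
        show 0 < (w n - u n) / 2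
        linarith
  have h8 := hx (fun n => (u n + w n) / 2) (fun n => (w n - u n) / 2) hδ
    (Filter.Eventually.of_forall fun n => by
      rw [one_mul, ← Real.Icc_eq_closedBall]
      exact ⟨h3 n, h4 n⟩)
  have h9 : ∀ n, ε * ζ ≤ ⨍ y in Metric.closedBall ((u n + w n) / 2) ((w n - u n) / 2),
      ‖f y - f x‖ ∂volume := by
    intro n
    rw [← Real.Icc_eq_closedBall]
    have h10 := markov f B hf hB x (u n) (w n) ε (h5 n) hε
    have h11 : ζ * (w n - u n) ≤ (volume {y ∈ Set.Icc (u n) (w n) | ε < |f y - f x|}).toReal := by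
      have hne : volume {y ∈ Set.Icc (u n) (w n) | ε < |f y - f x|} ≠ ⊤ :=
        ne_top_of_le_ne_top isCompact_Icc.measure_lt_top.ne (measure_mono fun y hy => hy.1)
      exact (ENNReal.ofReal_le_iff_le_toReal hne).1 (h7 n).le
    have h12 : 0 < w n - u n := by linarith [h5 n]
    have h13 : ε * (ζ * (w n - u n)) ≤
        (w n - u n) * ⨍ y in Set.Icc (u n) (w n), ‖f y - f x‖ ∂volume :=
      le_trans (mul_le_mul_of_nonneg_left h11 hε.le) h10
    have h14 : (w n - u n) * (ε * ζ) ≤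
        (w n - u n) * ⨍ y in Set.Icc (u n) (w n), ‖f y - f x‖ ∂volume := by
      calc (w n - u n) * (ε * ζ) = ε * (ζ * (w n - u n)) := by ring
        _ ≤ _ := h13
    exact le_of_mul_le_mul_left h14 h12
  have h10 := ge_of_tendsto' h8 h9
  have h11 : 0 < ε * ζ := mul_pos hε hζ
  linarith

end Pool.Agent.Lib.MP_d2b992_gt.Dyn
end

section
/-!
# VN: von Neumann's theorem, an exactly invariant version of the limit
-/
set_option autoImplicit false

open MeasureTheory Filter Topology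
open scoped ENNReal

namespace Pool.Agent.Lib.MP_d2b992_gt.Dyn.VnM

variable {X : Type} [MeasurableSpace X] {μ : Measure X} [IsFiniteMeasure μ] {T : X ≃ᵐ X}

/-- the averages -/
noncomputable def av (T : X ≃ᵐ X) (φ : X → ℝ) (n : ℕ) (z : X) : ℝ :=
  (∑ k ∈ Finset.range n, φ (T^[k] z)) / (n : ℝ)

theorem av_le {φ : X → ℝ} {B : ℝ} (hB : ∀ z, |φ z| ≤ B) (n : ℕ) (z : X) : |av T φ n z| ≤ B := by
  have hB0 : 0 ≤ B := (abs_nonneg _).trans (hB z)
  rcases Nat.eq_zero_or_pos n with rfl | hn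
  · simpa [av] using hB0
  · have hn' : (0 : ℝ) < n := by exact_mod_cast hn
    rw [av, abs_div, abs_of_pos hn', div_le_iff₀ hn']
    calc |∑ k ∈ Finset.range n, φ (T^[k] z)| ≤ ∑ k ∈ Finset.range n, |φ (T^[k] z)| :=
          Finset.abs_sum_le_sum_abs _ _
      _ ≤ ∑ k ∈ Finset.range n, B := Finset.sum_le_sum fun k _ => hB _
      _ = B * n := by simp [mul_comm]

theorem av_meas {φ : X → ℝ} (hφ : Measurable φ) (n : ℕ) : Measurable (av T φ n) :=
  (Finset.measurable_sum _ fun k _ => hφ.comp (T.measurable.iterate k)).div_const _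

theorem av_T {φ : X → ℝ} {B : ℝ} (hB : ∀ z, |φ z| ≤ B) {n : ℕ} (hn : 0 < n) (z : X) :
    |av T φ n (T z) - av T φ n z| ≤ 2 * B / n := by
  have hn' : (0 : ℝ) < n := by exact_mod_cast hn
  have h1 : av T φ n (T z) - av T φ n z = (φ (T^[n] z) - φ z) / n := by
    have h2 : ∑ k ∈ Finset.range n, φ (T^[k] (T z)) = ∑ k ∈ Finset.range n, φ (T^[k + 1] z) :=
      Finset.sum_congr rfl fun k _ => by rw [Function.iterate_succ_apply]
    rw [av, av, ← sub_div, h2]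
    congr 1
    have h3 := Finset.sum_range_succ (fun k => φ (T^[k] z)) n
    have h4 := Finset.sum_range_succ' (fun k => φ (T^[k] z)) n
    rw [h3] at h4
    simp only [Function.iterate_zero, id_eq] at h4
    linarith
  rw [h1, abs_div, abs_of_pos hn']
  have h2 := abs_sub (φ (T^[n] z)) (φ z)
  have h3 := hB (T^[n] z)
  have h4 := hB z
  gcongr
  linarith

theorem limsup_le_of {u v : ℕ → ℝ} {B : ℝ} (hu : ∀ i, |u i| ≤ B) (hv : ∀ i, |v i| ≤ B)
    (h : Tendsto (fun i => u i - v i) atTop (𝓝 0)) : limsup u atTop ≤ limsup v atTop := by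
  have bu : IsCoboundedUnder (· ≤ ·) atTop u :=
    IsBoundedUnder.isCoboundedUnder_le ⟨-B, by simpa using ⟨0, fun i _ => (abs_le.1 (hu i)).1⟩⟩
  have bv : IsBoundedUnder (· ≤ ·) atTop v :=
    ⟨B, by simpa using ⟨0, fun i _ => (abs_le.1 (hv i)).2⟩⟩
  refine le_of_forall_pos_le_add fun ε hε => limsup_le_of_le bu ?_
  have h1 : limsup v atTop < limsup v atTop + ε / 2 := by linarith
  filter_upwards [eventually_lt_of_limsup_lt h1 bv, h.eventually (gt_mem_nhds (half_pos hε))]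
    with i h2 h3
  linarith

theorem limsup_eq_of {u v : ℕ → ℝ} {B : ℝ} (hu : ∀ i, |u i| ≤ B) (hv : ∀ i, |v i| ≤ B)
    (h : Tendsto (fun i => u i - v i) atTop (𝓝 0)) : limsup u atTop = limsup v atTop :=
  le_antisymm (limsup_le_of hu hv h) (limsup_le_of hv hu (by
    have := h.neg
    simpa using this))

theorem abs_limsup_le {u : ℕ → ℝ} {B : ℝ} (hu : ∀ i, |u i| ≤ B) : |limsup u atTop| ≤ B := by
  have bu : IsCoboundedUnder (· ≤ ·) atTop u :=
    IsBoundedUnder.isCoboundedUnder_le ⟨-B, by simpa using ⟨0, fun i _ => (abs_le.1 (hu i)).1⟩⟩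
  have bu' : IsBoundedUnder (· ≤ ·) atTop u :=
    ⟨B, by simpa using ⟨0, fun i _ => (abs_le.1 (hu i)).2⟩⟩
  rw [abs_le]
  exact ⟨le_limsup_of_le bu' fun b hb => by
    obtain ⟨i, hi⟩ := hb.exists
    exact (abs_le.1 (hu i)).1.trans hi, limsup_le_of_le bu (Eventually.of_forall fun i =>
      (abs_le.1 (hu i)).2)⟩

omit [IsFiniteMeasure μ] in
theorem integral_comp (hT : MeasurePreserving T μ μ) (φ : X → ℝ) {A : Set X}
    (hAT : T ⁻¹' A = A) : ∀ k : ℕ, ∫ z in A, φ (T^[k] z) ∂μ = ∫ z in A, φ z ∂μ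
  | 0 => rfl
  | k + 1 => by
    rw [← integral_comp hT φ hAT k]
    have := hT.setIntegral_preimage_emb T.measurableEmbedding (fun z => φ (T^[k] z)) A
    rw [hAT] at this
    rw [← this]
    rfl

theorem integral_av (hT : MeasurePreserving T μ μ) {φ : X → ℝ} {B : ℝ} (hφ : Measurable φ)
    (hB : ∀ z, |φ z| ≤ B) {A : Set X} (hAT : T ⁻¹' A = A) {n : ℕ} (hn : 0 < n) :
    ∫ z in A, av T φ n z ∂μ = ∫ z in A, φ z ∂μ := by
  have hn' : (n : ℝ) ≠ 0 := by exact_mod_cast hn.ne'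
  simp only [av]
  rw [integral_div, integral_finsetSum]
  · simp only [integral_comp hT φ hAT]
    rw [Finset.sum_const, Finset.card_range, nsmul_eq_mul, mul_div_cancel_left₀ _ hn']
  · intro k _
    refine Integrable.mono' (integrable_const B)
      (hφ.comp (T.measurable.iterate k)).aestronglyMeasurable ?_
    exact Eventually.of_forall fun z => hB _

omit [IsFiniteMeasure μ] in
/-- the sums in `L²` -/
theorem coe_sum (hT : MeasurePreserving T μ μ) {φ : X → ℝ} (hφL : MemLp φ 2 μ) : ∀ n : ℕ,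
    ((∑ k ∈ Finset.range n, (Lp.compMeasurePreservingₗᵢ ℝ T hT)^[k] (hφL.toLp φ) : Lp ℝ 2 μ) :
      X → ℝ) =ᵐ[μ] fun z => ∑ k ∈ Finset.range n, φ (T^[k] z)
  | 0 => by
    simp only [Finset.range_zero, Finset.sum_empty]
    exact Lp.coeFn_zero ℝ 2 μ
  | n + 1 => by
    simp only [Finset.sum_range_succ]
    have h1 : (Lp.compMeasurePreservingₗᵢ ℝ T hT)^[n] (hφL.toLp φ) =
        (hφL.comp_measurePreserving (hT.iterate n)).toLp (φ ∘ T^[n]) := by
      have h2 : ⇑(Lp.compMeasurePreservingₗᵢ (E := ℝ) (p := 2) ℝ T hT) =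
          ⇑(Lp.compMeasurePreserving (E := ℝ) (p := 2) T hT) := rfl
      rw [h2, Lp.compMeasurePreserving_iterate]
      rfl
    rw [h1]
    filter_upwards [coe_sum hT hφL n, Lp.coeFn_add (∑ k ∈ Finset.range n,
      (Lp.compMeasurePreservingₗᵢ ℝ T hT)^[k] (hφL.toLp φ))
      ((hφL.comp_measurePreserving (hT.iterate n)).toLp (φ ∘ T^[n])),
      (hφL.comp_measurePreserving (hT.iterate n)).coeFn_toLp] with z h2 h3 h4
    rw [h3, Pi.add_apply, h2, h4]
    rfl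

end Pool.Agent.Lib.MP_d2b992_gt.Dyn.VnM

namespace Pool.Agent.Lib.MP_d2b992_gt.Dyn

open VnM

theorem specVN : SpecVN := by
  intro X _ μ _ T hT φ B hφ hB
  have hφL : MemLp φ 2 μ := MemLp.of_bound hφ.aestronglyMeasurable B (Eventually.of_forall hB)
  set V : Lp ℝ 2 μ →L[ℝ] Lp ℝ 2 μ :=
    (Lp.compMeasurePreservingₗᵢ ℝ T hT).toContinuousLinearMap with hVdef
  have hV : ‖V‖ ≤ 1 := LinearIsometry.norm_toContinuousLinearMap_le _
  have h := V.tendsto_birkhoffAverage_orthogonalProjection hV (hφL.toLp φ)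
  have h' := (tendsto_add_atTop_iff_nat 1).2 h
  obtain ⟨ns, hns, hae⟩ := (tendstoInMeasure_of_tendsto_Lp h').exists_seq_tendsto_ae
  have hcoe : ∀ n : ℕ, ((birkhoffAverage ℝ V _root_.id n (hφL.toLp φ) : Lp ℝ 2 μ) : X → ℝ) =ᵐ[μ]
      av T φ n := by
    intro n
    have h1 : birkhoffAverage ℝ V _root_.id n (hφL.toLp φ) = (n : ℝ)⁻¹ •
        (∑ k ∈ Finset.range n, (Lp.compMeasurePreservingₗᵢ ℝ T hT)^[k] (hφL.toLp φ)) := rfl
    rw [h1]
    filter_upwards [Lp.coeFn_smul (n : ℝ)⁻¹ (∑ k ∈ Finset.range n,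
      (Lp.compMeasurePreservingₗᵢ ℝ T hT)^[k] (hφL.toLp φ)), coe_sum hT hφL n] with z h2 h3
    rw [h2, Pi.smul_apply, h3, av, smul_eq_mul]
    ring
  have hconv : ∀ᵐ z ∂μ, ∃ l : ℝ, Tendsto (fun i => av T φ (ns i + 1) z) atTop (𝓝 l) := by
    have hall : ∀ᵐ z ∂μ, ∀ n : ℕ, ((birkhoffAverage ℝ V _root_.id n (hφL.toLp φ) : Lp ℝ 2 μ) : X → ℝ) z =
        av T φ n z := ae_all_iff.2 hcoe
    filter_upwards [hae, hall] with z h1 h2
    refine ⟨_, h1.congr fun i => ?_⟩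
    exact h2 _
  refine ⟨fun z => limsup (fun i => av T φ (ns i + 1) z) atTop, fun i => ns i + 1, ?_, ?_, ?_, ?_,
    ?_, ?_, ?_⟩
  · exact Measurable.limsup fun i => av_meas hφ _
  · exact fun z => abs_limsup_le fun i => av_le hB _ z
  · intro z
    refine limsup_eq_of (B := B) (fun i => av_le hB _ _) (fun i => av_le hB _ _) ?_
    have h1 : Tendsto (fun i : ℕ => 2 * B / ((ns i + 1 : ℕ) : ℝ)) atTop (𝓝 0) :=
      (tendsto_const_div_atTop_nhds_zero_nat (2 * B)).comp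
        ((tendsto_add_atTop_nat 1).comp hns.tendsto_atTop)
    exact squeeze_zero_norm (fun i => av_T hB (Nat.succ_pos _) z) h1
  · exact fun a b hab => Nat.succ_lt_succ (hns hab)
  · exact fun i => Nat.succ_pos _
  · filter_upwards [hconv] with z ⟨l, hl⟩
    rw [hl.limsup_eq]
    exact hl
  · intro A hA hAT
    have h1 : Tendsto (fun i => ∫ z in A, av T φ (ns i + 1) z ∂μ) atTop
        (𝓝 (∫ z in A, limsup (fun i => av T φ (ns i + 1) z) atTop ∂μ)) := by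
      refine tendsto_integral_of_dominated_convergence (fun _ => B)
        (fun i => (av_meas hφ _).aestronglyMeasurable) (integrable_const B)
        (fun i => Eventually.of_forall fun z => av_le hB _ z) ?_
      filter_upwards [ae_restrict_of_ae hconv] with z ⟨l, hl⟩
      rw [hl.limsup_eq]
      exact hl
    refine tendsto_nhds_unique h1 ?_
    simp only [integral_av hT hφ hB hAT (Nat.succ_pos _)]
    exact tendsto_const_nhds

end Pool.Agent.Lib.MP_d2b992_gt.Dyn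
end

section
/-!
# Module DETK: the kicks preserve the area form of the sphere
-/
set_option autoImplicit false

namespace Pool.Agent.Lib.MP_d2b992_gt.Dyn

namespace DetkM

theorem alg (x y z a b c a' b' c' C S f : ℝ) (h : C ^ 2 + S ^ 2 = 1)
    (hn : x * x + y * y + z * z = 1) (hu : x * a + y * b + z * c = 0)
    (hw : x * a' + y * b' + z * c' = 0) :
    (x * C - y * S) * (x * C - y * S) + (x * S + y * C) * (x * S + y * C) + z * z = 1 ∧
    (x * C - y * S) * (a * C - b * S - f * c * (x * S + y * C)) +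
      (x * S + y * C) * (a * S + b * C + f * c * (x * C - y * S)) + z * c = 0 ∧
    (x * C - y * S) * ((a * S + b * C + f * c * (x * C - y * S)) * c' -
        c * (a' * S + b' * C + f * c' * (x * C - y * S)))
      - (x * S + y * C) * ((a * C - b * S - f * c * (x * S + y * C)) * c' -
        c * (a' * C - b' * S - f * c' * (x * S + y * C)))
      + z * ((a * C - b * S - f * c * (x * S + y * C)) *
          (a' * S + b' * C + f * c' * (x * C - y * S)) -
        (a * S + b * C + f * c * (x * C - y * S)) *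
          (a' * C - b' * S - f * c' * (x * S + y * C)))
      = x * (b * c' - c * b') - y * (a * c' - c * a') + z * (a * b' - b * a') := by
  refine ⟨?_, ?_, ?_⟩
  · linear_combination (x ^ 2 + y ^ 2) * h + hn
  · linear_combination (x * a + y * b) * h + hu
  · linear_combination (x * (b * c' - c * b') - y * (a * c' - c * a') + z * (a * b' - b * a')
      + z * f * (c * (x * a' + y * b') - c' * (x * a + y * b)) * (-1)) * h
      + z * f * (c' * hu - c * hw)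

theorem p_part (Φ : ℝ → ℝ) (n u w : V3) (h1 : dot n n = 1) (h2 : dot n u = 0)
    (h3 : dot n w = 0) :
    dot (Kp Φ n) (Kp Φ n) = 1 ∧ dot (Kp Φ n) (dKp Φ n u) = 0 ∧
    det3 (Kp Φ n) (dKp Φ n u) (dKp Φ n w) = det3 n u w := by
  obtain ⟨x, y, z⟩ := n
  obtain ⟨a, b, c⟩ := u
  obtain ⟨a', b', c'⟩ := w
  exact alg x y z a b c a' b' c' (Real.cos (Φ z)) (Real.sin (Φ z)) (deriv Φ z)
    (Real.cos_sq_add_sin_sq _) h1 h2 h3

theorem q_part (Φ : ℝ → ℝ) (n u w : V3) (h1 : dot n n = 1) (h2 : dot n u = 0)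
    (h3 : dot n w = 0) :
    dot (Kq Φ n) (Kq Φ n) = 1 ∧ dot (Kq Φ n) (dKq Φ n u) = 0 ∧
    det3 (Kq Φ n) (dKq Φ n u) (dKq Φ n w) = det3 n u w := by
  obtain ⟨x, y, z⟩ := n
  obtain ⟨a, b, c⟩ := u
  obtain ⟨a', b', c'⟩ := w
  simp only [dot, det3, Kq, dKq] at *
  have := alg y z x b c a b' c' a' (Real.cos (Φ x)) (Real.sin (Φ x)) (deriv Φ x)
    (Real.cos_sq_add_sin_sq _) (by linarith) (by linarith) (by linarith)
  obtain ⟨e1, e2, e3⟩ := this
  refine ⟨by linarith, by linarith, by linarith⟩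

end DetkM

theorem specDETK : SpecDETK := by
  intro Φ n u w h1 h2 h3
  obtain ⟨a1, a2, a3⟩ := DetkM.p_part Φ n u w h1 h2 h3
  obtain ⟨b1, b2, b3⟩ := DetkM.q_part Φ n u w h1 h2 h3
  exact ⟨a1, a2, a3, b1, b2, b3⟩

end Pool.Agent.Lib.MP_d2b992_gt.Dyn
end

section
/-!
# Module JET: second order jets of curves on the sphere under a kick
-/
set_option autoImplicit false

open MeasureTheory Filter Topology
open scoped ContDiff

namespace Pool.Agent.Lib.MP_d2b992_gt.Dyn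

namespace JetM

theorem fst' {κ : ℝ → V3} {v : V3} {r : ℝ} (h : HasDerivAt κ v r) :
    HasDerivAt (fun s => (κ s).1) v.1 r := by
  have := (hasFDerivAt_fst (𝕜 := ℝ) (p := κ r) (E := ℝ) (F := ℝ × ℝ)).comp_hasDerivAt r h
  exact this

theorem snd' {κ : ℝ → V3} {v : V3} {r : ℝ} (h : HasDerivAt κ v r) :
    HasDerivAt (fun s => (κ s).2) v.2 r := by
  have := (hasFDerivAt_snd (𝕜 := ℝ) (p := κ r) (E := ℝ) (F := ℝ × ℝ)).comp_hasDerivAt r h
  exact this

theorem fst2 {κ : ℝ → ℝ × ℝ} {v : ℝ × ℝ} {r : ℝ} (h : HasDerivAt κ v r) :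
    HasDerivAt (fun s => (κ s).1) v.1 r := by
  have := (hasFDerivAt_fst (𝕜 := ℝ) (p := κ r) (E := ℝ) (F := ℝ)).comp_hasDerivAt r h
  exact this

theorem snd2 {κ : ℝ → ℝ × ℝ} {v : ℝ × ℝ} {r : ℝ} (h : HasDerivAt κ v r) :
    HasDerivAt (fun s => (κ s).2) v.2 r := by
  have := (hasFDerivAt_snd (𝕜 := ℝ) (p := κ r) (E := ℝ) (F := ℝ)).comp_hasDerivAt r h
  exact this

/-- the second derivative vector of a kicked curve -/
noncomputable def ddK (C S f g : ℝ) (n m w : V3) : V3 :=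
  let p := f * m.2.2
  let p2 := g * m.2.2 ^ 2 + f * w.2.2
  (w.1 * C - m.1 * S * p - w.2.1 * S - m.2.1 * C * p - p2 * (n.1 * S + n.2.1 * C)
      - p * (m.1 * S + n.1 * C * p + m.2.1 * C - n.2.1 * S * p),
   w.1 * S + m.1 * C * p + w.2.1 * C - m.2.1 * S * p + p2 * (n.1 * C - n.2.1 * S)
      + p * (m.1 * C - n.1 * S * p - m.2.1 * S - n.2.1 * C * p), w.2.2)

theorem crv_alg (x y z x1 y1 z1 x2 y2 z2 C S f g : ℝ) (h : C ^ 2 + S ^ 2 = 1)
    (hn : x * x + y * y + z * z = 1) (hu : x * x1 + y * y1 + z * z1 = 0)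
    (hw : x * x2 + y * y2 + z * z2 + (x1 * x1 + y1 * y1 + z1 * z1) = 0) :
    det3 (x * C - y * S, x * S + y * C, z)
      (x1 * C - y1 * S - f * z1 * (x * S + y * C), x1 * S + y1 * C + f * z1 * (x * C - y * S), z1)
      (ddK C S f g (x, y, z) (x1, y1, z1) (x2, y2, z2))
      - det3 (x, y, z) (x1, y1, z1) (x2, y2, z2) =
    -g * z1 ^ 3 + 3 * (f * z1) * z * (x1 * x1 + y1 * y1 + z1 * z1)
      + 3 * (f * z1) ^ 2 * z * (x * y1 - y * x1) + (f * z1) ^ 3 * z * (x * x + y * y) := by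
  have hS : S ^ 2 = 1 - C ^ 2 := by linarith
  have key : det3 (x * C - y * S, x * S + y * C, z)
      (x1 * C - y1 * S - f * z1 * (x * S + y * C), x1 * S + y1 * C + f * z1 * (x * C - y * S), z1)
      (ddK C S f g (x, y, z) (x1, y1, z1) (x2, y2, z2)) =
      det3 (x, y, z) (x1 - f * z1 * y, y1 + f * z1 * x, z1)
        (x2 - (g * z1 ^ 2 + f * z2) * y - 2 * (f * z1) * y1 - (f * z1) ^ 2 * x,
         y2 + (g * z1 ^ 2 + f * z2) * x + 2 * (f * z1) * x1 - (f * z1) ^ 2 * y, z2) := by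
    simp only [det3, ddK]
    ring_nf
    simp only [hS]
    ring
  rw [key]
  simp only [det3]
  linear_combination (-(g * z1 ^ 2 + f * z2) * z1 + f * z1 * z2) * hn
    + ((g * z1 ^ 2 + f * z2) * z - 2 * (f * z1) * z1) * hu - f * z1 * z * hw

/-- the frame decomposition of the second derivative, first coordinate -/
theorem frame (x y z x1 y1 z1 x2 y2 z2 : ℝ)
    (hn : x * x + y * y + z * z = 1) (hu : x * x1 + y * y1 + z * z1 = 0)
    (hw : x * x2 + y * y2 + z * z2 + (x1 * x1 + y1 * y1 + z1 * z1) = 0) :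
    (x1 * x1 + y1 * y1 + z1 * z1) * x2 = -(x1 * x1 + y1 * y1 + z1 * z1) ^ 2 * x
      + (x1 * x2 + y1 * y2 + z1 * z2) * x1
      + (x * (y1 * z2 - z1 * y2) - y * (x1 * z2 - z1 * x2) + z * (x1 * y2 - y1 * x2))
        * (y * z1 - z * y1) := by
  linear_combination ((x1 * x2 + y1 * y2 + z1 * z2) * x1
      - (x1 * x1 + y1 * y1 + z1 * z1) * x2) * hn
    + ((x * x1 + y * y1 + z * z1) * x2 - (x1 * x2 + y1 * y2 + z1 * z2) * x
      - (x * x2 + y * y2 + z * z2) * x1) * hu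
    + x * (x1 * x1 + y1 * y1 + z1 * z1) * hw

theorem log_alg (x y z x1 y1 z1 x2 y2 z2 f g q a A W ρ p P : ℝ)
    (hn : x * x + y * y + z * z = 1) (hu : x * x1 + y * y1 + z * z1 = 0)
    (hw : x * x2 + y * y2 + z * z2 + (x1 * x1 + y1 * y1 + z1 * z1) = 0)
    (hq : q = x1 * x1 + y1 * y1 + z1 * z1) (ha : a = x1 * x2 + y1 * y2 + z1 * z2)
    (hA : A = x * (y1 * z2 - z1 * y2) - y * (x1 * z2 - z1 * x2) + z * (x1 * y2 - y1 * x2))
    (hW : W = x * y1 - y * x1) (hρ : ρ = x * x + y * y) (hp : p = f * z1)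
    (hP : P = g * z1 ^ 2 + f * z2) :
    q * ((x1 - p * y) * (x2 - P * y - 2 * p * y1 - p ^ 2 * x)
        + (y1 + p * x) * (y2 + P * x + 2 * p * x1 - p ^ 2 * y) + z1 * z2)
      - a * (q + 2 * p * W + p ^ 2 * ρ) =
    g * z1 ^ 2 * W * q - f * q ^ 2 * z * W + f * A * W ^ 2 - f * z1 ^ 2 * A
      + f * g * z1 ^ 3 * ρ * q - f ^ 2 * z1 * q ^ 2 * z * ρ + f ^ 2 * z1 * A * W * ρ
      - f ^ 2 * z1 ^ 3 * z * q := by
  have hx2 := frame x y z x1 y1 z1 x2 y2 z2 hn hu hw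
  have hy2 := frame y z x y1 z1 x1 y2 z2 x2 (by linarith) (by linarith) (by linarith)
  have hz2 := frame z x y z1 x1 y1 z2 x2 y2 (by linarith) (by linarith) (by linarith)
  subst hq ha hA hW hρ hp hP
  linear_combination (x1 - f * z1 * y) * hx2 + (y1 + f * z1 * x) * hy2
    + (z1 + f * ((x * y1 - y * x1) + f * z1 * (x * x + y * y))) * hz2
    + (-(x1 * x1 + y1 * y1 + z1 * z1) ^ 2
      + (x * (y1 * z2 - z1 * y2) - y * (x1 * z2 - z1 * x2) + z * (x1 * y2 - y1 * x2))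
        * (f * z1) * z + (x1 * x1 + y1 * y1 + z1 * z1) * (f * z1) ^ 2) * hu
    - (x * (y1 * z2 - z1 * y2) - y * (x1 * z2 - z1 * x2) + z * (x1 * y2 - y1 * x2))
        * (f * z1) * z1 * hn

theorem rot_dot (x y z x1 y1 z1 x2 y2 z2 C S f g : ℝ) (h : C ^ 2 + S ^ 2 = 1) :
    dot (x1 * C - y1 * S - f * z1 * (x * S + y * C), x1 * S + y1 * C + f * z1 * (x * C - y * S), z1)
      (ddK C S f g (x, y, z) (x1, y1, z1) (x2, y2, z2)) =
    (x1 - f * z1 * y) * (x2 - (g * z1 ^ 2 + f * z2) * y - 2 * (f * z1) * y1 - (f * z1) ^ 2 * x)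
      + (y1 + f * z1 * x) * (y2 + (g * z1 ^ 2 + f * z2) * x + 2 * (f * z1) * x1
        - (f * z1) ^ 2 * y) + z1 * z2 := by
  have hS : S ^ 2 = 1 - C ^ 2 := by linarith
  simp only [dot, ddK]
  ring_nf
  simp only [hS]
  ring

theorem rot_sq (x y z x1 y1 z1 C S f : ℝ) (h : C ^ 2 + S ^ 2 = 1) :
    dot (x1 * C - y1 * S - f * z1 * (x * S + y * C), x1 * S + y1 * C + f * z1 * (x * C - y * S), z1)
      (x1 * C - y1 * S - f * z1 * (x * S + y * C), x1 * S + y1 * C + f * z1 * (x * C - y * S), z1) =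
    (x1 * x1 + y1 * y1 + z1 * z1) + 2 * (f * z1) * (x * y1 - y * x1)
      + (f * z1) ^ 2 * (x * x + y * y) := by
  have hS : S ^ 2 = 1 - C ^ 2 := by linarith
  simp only [dot]
  ring_nf
  simp only [hS]
  ring

theorem W_sq (x y z x1 y1 z1 : ℝ) (hn : x * x + y * y + z * z = 1) :
    (x * y1 - y * x1) ^ 2 ≤ x1 * x1 + y1 * y1 + z1 * z1 := by
  nlinarith [sq_nonneg (x * x1 + y * y1), mul_nonneg (mul_self_nonneg z)
    (add_nonneg (mul_self_nonneg x1) (mul_self_nonneg y1)), mul_self_nonneg z1]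

/-- bounds of the scalar quantities by the speed `v` -/
theorem bnds (x y z x1 y1 z1 v : ℝ) (hv : 0 ≤ v) (hn : x * x + y * y + z * z = 1)
    (hq : v ^ 2 = x1 * x1 + y1 * y1 + z1 * z1) :
    |z| ≤ 1 ∧ |z1| ≤ v ∧ |x * y1 - y * x1| ≤ v ∧ |x * x + y * y| ≤ 1 := by
  refine ⟨?_, ?_, ?_, ?_⟩
  · exact abs_le_of_sq_le_sq (by nlinarith [mul_self_nonneg x, mul_self_nonneg y]) one_pos.le
      |>.trans (le_refl _)
  · exact abs_le_of_sq_le_sq (by nlinarith [mul_self_nonneg x1, mul_self_nonneg y1]) hv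
  · exact abs_le_of_sq_le_sq (by rw [hq]; exact W_sq x y z x1 y1 z1 hn) hv
  · rw [abs_of_nonneg (add_nonneg (mul_self_nonneg x) (mul_self_nonneg y))]
    nlinarith [mul_self_nonneg z]

theorem crv_bnd (z z1 W ρ q f g v M : ℝ) (hv : 0 ≤ v) (hM : 1 ≤ M) (hf : |f| ≤ M) (hg : |g| ≤ M)
    (h1 : |z| ≤ 1) (h2 : |z1| ≤ v) (h3 : |W| ≤ v) (h4 : |ρ| ≤ 1) (hq : q = v ^ 2) :
    |-g * z1 ^ 3 + 3 * (f * z1) * z * q + 3 * (f * z1) ^ 2 * z * W + (f * z1) ^ 3 * z * ρ|
      ≤ 8 * M ^ 3 * v ^ 3 := by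
  have hM0 : (0 : ℝ) ≤ M := by linarith
  have hq' : |q| ≤ v ^ 2 := by rw [hq, abs_of_nonneg (by positivity)]
  have e1 : |-g * z1 ^ 3| ≤ M * v ^ 3 := by
    rw [abs_mul, abs_neg, abs_pow]; gcongr
  have e2 : |3 * (f * z1) * z * q| ≤ 3 * (M * v) * 1 * v ^ 2 := by
    simp only [abs_mul, abs_pow, Nat.abs_ofNat]; gcongr
  have e3 : |3 * (f * z1) ^ 2 * z * W| ≤ 3 * (M * v) ^ 2 * 1 * v := by
    simp only [abs_mul, abs_pow, Nat.abs_ofNat]; gcongr
  have e4 : |(f * z1) ^ 3 * z * ρ| ≤ (M * v) ^ 3 * 1 * 1 := by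
    simp only [abs_mul, abs_pow, Nat.abs_ofNat]; gcongr
  have hMM : M ≤ M ^ 3 := by nlinarith [mul_nonneg hM0 hM0, sq_nonneg (M - 1), mul_nonneg (mul_nonneg hM0 hM0) (sub_nonneg.2 hM)]
  have hMM2 : M ^ 2 ≤ M ^ 3 := by nlinarith [mul_nonneg (mul_nonneg hM0 hM0) (sub_nonneg.2 hM)]
  have hv3 : 0 ≤ v ^ 3 := by positivity
  have t1 := mul_le_mul_of_nonneg_right hMM hv3
  have t2 := mul_le_mul_of_nonneg_right hMM2 hv3
  calc _ ≤ |-g * z1 ^ 3| + |3 * (f * z1) * z * q| + |3 * (f * z1) ^ 2 * z * W|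
        + |(f * z1) ^ 3 * z * ρ| := by
          refine (abs_add_le _ _).trans ?_
          gcongr
          refine (abs_add_le _ _).trans ?_
          gcongr
          exact abs_add_le _ _
    _ ≤ M * v ^ 3 + 3 * (M * v) * 1 * v ^ 2 + 3 * (M * v) ^ 2 * 1 * v + (M * v) ^ 3 * 1 * 1 := by
          gcongr
    _ ≤ 8 * M ^ 3 * v ^ 3 := by nlinarith

theorem log_bnd (z z1 W ρ q A f g v M : ℝ) (hv : 0 ≤ v) (hM : 1 ≤ M) (hf : |f| ≤ M)
    (hg : |g| ≤ M) (h1 : |z| ≤ 1) (h2 : |z1| ≤ v) (h3 : |W| ≤ v) (h4 : |ρ| ≤ 1)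
    (hq : q = v ^ 2) :
    |g * z1 ^ 2 * W * q - f * q ^ 2 * z * W + f * A * W ^ 2 - f * z1 ^ 2 * A
      + f * g * z1 ^ 3 * ρ * q - f ^ 2 * z1 * q ^ 2 * z * ρ + f ^ 2 * z1 * A * W * ρ
      - f ^ 2 * z1 ^ 3 * z * q| ≤ 5 * M ^ 2 * (v ^ 5 + |A| * v ^ 2) := by
  have hM0 : (0 : ℝ) ≤ M := by linarith
  have hq' : |q| ≤ v ^ 2 := by rw [hq, abs_of_nonneg (by positivity)]
  have e1 : |g * z1 ^ 2 * W * q| ≤ M * v ^ 2 * v * v ^ 2 := by
    simp only [abs_mul, abs_pow]; gcongr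
  have e2 : |f * q ^ 2 * z * W| ≤ M * (v ^ 2) ^ 2 * 1 * v := by
    simp only [abs_mul, abs_pow]; gcongr
  have e3 : |f * A * W ^ 2| ≤ M * |A| * v ^ 2 := by
    simp only [abs_mul, abs_pow]; gcongr
  have e4 : |f * z1 ^ 2 * A| ≤ M * v ^ 2 * |A| := by
    simp only [abs_mul, abs_pow]; gcongr
  have e5 : |f * g * z1 ^ 3 * ρ * q| ≤ M * M * v ^ 3 * 1 * v ^ 2 := by
    simp only [abs_mul, abs_pow]; gcongr
  have e6 : |f ^ 2 * z1 * q ^ 2 * z * ρ| ≤ M ^ 2 * v * (v ^ 2) ^ 2 * 1 * 1 := by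
    simp only [abs_mul, abs_pow]; gcongr
  have e7 : |f ^ 2 * z1 * A * W * ρ| ≤ M ^ 2 * v * |A| * v * 1 := by
    simp only [abs_mul, abs_pow]; gcongr
  have e8 : |f ^ 2 * z1 ^ 3 * z * q| ≤ M ^ 2 * v ^ 3 * 1 * v ^ 2 := by
    simp only [abs_mul, abs_pow]; gcongr
  have hMM : M ≤ M ^ 2 := by nlinarith
  have hv5 : 0 ≤ v ^ 5 := by positivity
  have hA : 0 ≤ |A| * v ^ 2 := by positivity
  have t1 := mul_le_mul_of_nonneg_right hMM hv5
  have t2 := mul_le_mul_of_nonneg_right hMM hA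
  have t3 : 0 ≤ M ^ 2 * (|A| * v ^ 2) := by positivity
  calc _ ≤ |g * z1 ^ 2 * W * q| + |f * q ^ 2 * z * W| + |f * A * W ^ 2| + |f * z1 ^ 2 * A|
      + |f * g * z1 ^ 3 * ρ * q| + |f ^ 2 * z1 * q ^ 2 * z * ρ| + |f ^ 2 * z1 * A * W * ρ|
      + |f ^ 2 * z1 ^ 3 * z * q| := by
          refine (abs_sub _ _).trans ?_
          gcongr
          refine (abs_add_le _ _).trans ?_
          gcongr
          refine (abs_sub _ _).trans ?_
          gcongr
          refine (abs_add_le _ _).trans ?_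
          gcongr
          refine (abs_sub _ _).trans ?_
          gcongr
          refine (abs_add_le _ _).trans ?_
          gcongr
          exact abs_sub _ _
    _ ≤ _ := by
      have : M * v ^ 2 * v * v ^ 2 + M * (v ^ 2) ^ 2 * 1 * v + M * |A| * v ^ 2 + M * v ^ 2 * |A|
        + M * M * v ^ 3 * 1 * v ^ 2 + M ^ 2 * v * (v ^ 2) ^ 2 * 1 * 1
        + M ^ 2 * v * |A| * v * 1 + M ^ 2 * v ^ 3 * 1 * v ^ 2
        = 2 * (M * v ^ 5) + 2 * (M * (|A| * v ^ 2)) + 3 * (M ^ 2 * v ^ 5)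
          + M ^ 2 * (|A| * v ^ 2) := by ring
      linarith

/-- lower bound of the new speed -/
theorem speed_low (x y z x1 y1 z1 f M : ℝ) (hM : 1 ≤ M) (hf : |f| ≤ M)
    (hn : x * x + y * y + z * z = 1) :
    (x1 * x1 + y1 * y1 + z1 * z1) ≤ 4 * M ^ 2 * ((x1 * x1 + y1 * y1 + z1 * z1)
      + 2 * (f * z1) * (x * y1 - y * x1) + (f * z1) ^ 2 * (x * x + y * y)) := by
  have hf2 : f ^ 2 ≤ M ^ 2 := sq_le_sq' (by linarith [abs_le.1 hf]) (abs_le.1 hf).2
  have e : (x1 * x1 + y1 * y1 + z1 * z1) + 2 * (f * z1) * (x * y1 - y * x1)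
      + (f * z1) ^ 2 * (x * x + y * y) = (x1 - f * z1 * y) ^ 2 + (y1 + f * z1 * x) ^ 2
      + z1 ^ 2 := by ring
  rw [e]
  set X := x1 - f * z1 * y with hX
  set Y := y1 + f * z1 * x with hY
  have hx1 : x1 = X + f * z1 * y := by rw [hX]; ring
  have hy1 : y1 = Y - f * z1 * x := by rw [hY]; ring
  have h1 : x1 * x1 + y1 * y1 ≤ 2 * (X ^ 2 + Y ^ 2) + 2 * (f ^ 2 * z1 ^ 2) * (x * x + y * y) := by
    rw [hx1, hy1]
    nlinarith [sq_nonneg (X - f * z1 * y), sq_nonneg (Y + f * z1 * x)]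
  have h2 : x * x + y * y ≤ 1 := by nlinarith [mul_self_nonneg z]
  have h3 : (f ^ 2 * z1 ^ 2) * (x * x + y * y) ≤ M ^ 2 * z1 ^ 2 := by
    calc (f ^ 2 * z1 ^ 2) * (x * x + y * y) ≤ (f ^ 2 * z1 ^ 2) * 1 := by gcongr
      _ ≤ M ^ 2 * z1 ^ 2 := by rw [mul_one]; gcongr
  have hM2 : 1 ≤ M ^ 2 := by nlinarith
  nlinarith [mul_nonneg (sub_nonneg.2 hM2) (sq_nonneg X), mul_nonneg (sub_nonneg.2 hM2) (sq_nonneg Y),
    mul_nonneg (sub_nonneg.2 hM2) (sq_nonneg z1), sq_nonneg X, sq_nonneg Y]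

theorem speed_up (z1 W ρ q f v M : ℝ) (hv : 0 ≤ v) (hM : 1 ≤ M) (hf : |f| ≤ M)
    (h2 : |z1| ≤ v) (h3 : |W| ≤ v) (h4 : |ρ| ≤ 1) (hq : q = v ^ 2) :
    q + 2 * (f * z1) * W + (f * z1) ^ 2 * ρ ≤ (2 * M * v) ^ 2 := by
  have hM0 : (0 : ℝ) ≤ M := by linarith
  have e3 : |2 * (f * z1) * W| ≤ 2 * (M * v) * v := by
    simp only [abs_mul, Nat.abs_ofNat]; gcongr
  have e4 : |(f * z1) ^ 2 * ρ| ≤ (M * v) ^ 2 * 1 := by
    simp only [abs_mul, abs_pow]; gcongr
  have h5 := (abs_le.1 e3).2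
  have h6 := (abs_le.1 e4).2
  have hMM : M ≤ M ^ 2 := by nlinarith
  have hv2 : 0 ≤ v ^ 2 := by positivity
  have t1 := mul_le_mul_of_nonneg_right hMM hv2
  have t2 := mul_le_mul_of_nonneg_right hM hv2
  rw [hq]
  nlinarith

theorem hasDeriv_dot {μ ν : ℝ → V3} {w w' : V3} {t : ℝ} (h : HasDerivAt μ w t)
    (h' : HasDerivAt ν w' t) :
    HasDerivAt (fun r => dot (μ r) (ν r)) (dot w (ν t) + dot (μ t) w') t := by
  have := ((fst' h).mul (fst' h')).add (((fst2 (snd' h)).mul (fst2 (snd' h'))))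
    |>.add ((snd2 (snd' h)).mul (snd2 (snd' h')))
  refine this.congr_deriv ?_
  simp only [dot]
  ring

theorem hasDeriv_Kp {Φ : ℝ → ℝ} (hΦ : ContDiff ℝ ∞ Φ) {κ : ℝ → V3} {v : V3} {r : ℝ}
    (h : HasDerivAt κ v r) : HasDerivAt (fun s => Kp Φ (κ s)) (dKp Φ (κ r) v) r := by
  have hx := fst' h
  have hy := fst2 (snd' h)
  have hz := snd2 (snd' h)
  have hd : Differentiable ℝ Φ := hΦ.differentiable (by simp)
  have hφ : HasDerivAt (fun s => Φ (κ s).2.2) (deriv Φ (κ r).2.2 * v.2.2) r :=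
    (hd _).hasDerivAt.comp r hz
  have hc := hφ.cos
  have hs := hφ.sin
  have h1 := (hx.mul hc).sub (hy.mul hs)
  have h2 := (hx.mul hs).add (hy.mul hc)
  have := (h1.prodMk (h2.prodMk hz))
  refine this.congr_deriv ?_
  simp only [dKp]
  refine Prod.ext ?_ (Prod.ext ?_ rfl)
  · simp only; ring
  · simp only; ring

theorem hasDeriv_dKp {Φ : ℝ → ℝ} (hΦ : ContDiff ℝ ∞ Φ) {κ μ : ℝ → V3} {w : V3} {r : ℝ}
    (h : HasDerivAt κ (μ r) r) (h' : HasDerivAt μ w r) :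
    HasDerivAt (fun s => dKp Φ (κ s) (μ s))
      (ddK (Real.cos (Φ (κ r).2.2)) (Real.sin (Φ (κ r).2.2)) (deriv Φ (κ r).2.2)
        (deriv (deriv Φ) (κ r).2.2) (κ r) (μ r) w) r := by
  have hx := fst' h
  have hy := fst2 (snd' h)
  have hz := snd2 (snd' h)
  have hx' := fst' h'
  have hy' := fst2 (snd' h')
  have hz' := snd2 (snd' h')
  have hd : Differentiable ℝ Φ := hΦ.differentiable (by simp)
  have hd2 : Differentiable ℝ (deriv Φ) :=
    (contDiff_infty_iff_deriv.1 hΦ).2.differentiable (by simp)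
  have hφ : HasDerivAt (fun s => Φ (κ s).2.2) (deriv Φ (κ r).2.2 * (μ r).2.2) r :=
    (hd _).hasDerivAt.comp r hz
  have hφ2 : HasDerivAt (fun s => deriv Φ (κ s).2.2)
      (deriv (deriv Φ) (κ r).2.2 * (μ r).2.2) r := (hd2 _).hasDerivAt.comp r hz
  have hc := hφ.cos
  have hs := hφ.sin
  have hX := (hx.mul hc).sub (hy.mul hs)
  have hY := (hx.mul hs).add (hy.mul hc)
  have hp := hφ2.mul hz'
  have h1 := ((hx'.mul hc).sub (hy'.mul hs)).sub (hp.mul hY)
  have h2 := ((hx'.mul hs).add (hy'.mul hc)).add (hp.mul hX)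
  have := (h1.prodMk (h2.prodMk hz'))
  refine this.congr_deriv ?_
  simp only [ddK]
  refine Prod.ext ?_ (Prod.ext ?_ rfl)
  · simp only [Pi.mul_apply, Pi.sub_apply, Pi.add_apply]; ring
  · simp only [Pi.mul_apply, Pi.sub_apply, Pi.add_apply]; ring

theorem dot_self_nonneg (m : V3) : 0 ≤ dot m m := by
  simp only [dot]
  have := mul_self_nonneg m.1
  have := mul_self_nonneg m.2.1
  have := mul_self_nonneg m.2.2
  linarith

theorem dot_self_pos {m : V3} (h : m ≠ 0) : 0 < dot m m := by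
  rcases (dot_self_nonneg m).lt_or_eq with h0 | h0
  · exact h0
  · exfalso
    apply h
    simp only [dot] at h0
    have h1 := mul_self_nonneg m.1
    have h2 := mul_self_nonneg m.2.1
    have h3 := mul_self_nonneg m.2.2
    refine Prod.ext ?_ (Prod.ext ?_ ?_)
    · exact mul_self_eq_zero.1 (by linarith)
    · exact mul_self_eq_zero.1 (by linarith)
    · exact mul_self_eq_zero.1 (by linarith)

theorem final_alg (n m w K0 K1 K2 : V3) (C S f g M v V A : ℝ) (h : C ^ 2 + S ^ 2 = 1)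
    (hM : 1 ≤ M) (hf : |f| ≤ M) (hg : |g| ≤ M)
    (hn : dot n n = 1) (hu : dot n m = 0) (hw : dot m m + dot n w = 0) (hm : m ≠ 0)
    (hK0 : K0 = (n.1 * C - n.2.1 * S, n.1 * S + n.2.1 * C, n.2.2))
    (hK1 : K1 = (m.1 * C - m.2.1 * S - f * m.2.2 * (n.1 * S + n.2.1 * C),
      m.1 * S + m.2.1 * C + f * m.2.2 * (n.1 * C - n.2.1 * S), m.2.2))
    (hK2 : K2 = ddK C S f g n m w) (hv : v = Real.sqrt (dot m m))
    (hV : V = Real.sqrt (dot K1 K1)) (hA : A = det3 n m w) :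
    0 < v ∧ 0 < V ∧ V ≤ 20 * M ^ 4 * v ∧ v ≤ 20 * M ^ 4 * V ∧
    |det3 K0 K1 K2 - A| ≤ 20 * M ^ 4 * v ^ 3 ∧
    |dot K1 K2 / V ^ 2 - dot m w / v ^ 2| ≤ 20 * M ^ 4 * (v + |A| / v ^ 2) := by
  obtain ⟨x, y, z⟩ := n
  obtain ⟨x1, y1, z1⟩ := m
  obtain ⟨x2, y2, z2⟩ := w
  have hM0 : (0 : ℝ) < M := by linarith
  have hM1 : M ≤ M ^ 4 := by
    have : (1 : ℝ) ≤ M ^ 3 := one_le_pow₀ hM
    nlinarith
  have hM3 : M ^ 3 ≤ M ^ 4 := by
    have : (0 : ℝ) ≤ M ^ 3 := by positivity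
    nlinarith
  have hmpos := dot_self_pos hm
  have hvpos : 0 < v := by rw [hv]; exact Real.sqrt_pos.2 hmpos
  have hv2 : v ^ 2 = x1 * x1 + y1 * y1 + z1 * z1 := by
    rw [hv, Real.sq_sqrt hmpos.le]; simp only [dot]
  simp only [dot] at hn hu hw
  obtain ⟨b1, b2, b3, b4⟩ := bnds x y z x1 y1 z1 v hvpos.le hn hv2
  have hsq := rot_sq x y z x1 y1 z1 C S f h
  have hlow := speed_low x y z x1 y1 z1 f M hM hf hn
  have hup := speed_up z1 (x * y1 - y * x1) (x * x + y * y) (x1 * x1 + y1 * y1 + z1 * z1) f v M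
    hvpos.le hM hf b2 b3 b4 hv2.symm
  simp only at hK0 hK1 hK2
  have hVV : dot K1 K1 = (x1 * x1 + y1 * y1 + z1 * z1) + 2 * (f * z1) * (x * y1 - y * x1)
      + (f * z1) ^ 2 * (x * x + y * y) := by rw [hK1]; exact hsq
  have hV2pos : 0 < dot K1 K1 := by
    rw [hVV]
    have h4 : 0 < 4 * M ^ 2 := by positivity
    by_contra hc
    have := mul_nonpos_of_nonneg_of_nonpos h4.le (not_lt.1 hc)
    have h5 : 0 < v ^ 2 := by positivity
    linarith
  have hVpos : 0 < V := by rw [hV]; exact Real.sqrt_pos.2 hV2pos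
  have hV2 : V ^ 2 = (x1 * x1 + y1 * y1 + z1 * z1) + 2 * (f * z1) * (x * y1 - y * x1)
      + (f * z1) ^ 2 * (x * x + y * y) := by rw [hV, Real.sq_sqrt hV2pos.le, hVV]
  have hVv : V ≤ 2 * M * v := by
    refine (le_abs_self V).trans (abs_le_of_sq_le_sq ?_ (by positivity))
    rw [hV2]; exact hup
  have hvV : v ≤ 2 * M * V := by
    refine (le_abs_self v).trans (abs_le_of_sq_le_sq ?_ (by positivity))
    rw [mul_pow, hV2, hv2]
    calc _ ≤ _ := hlow
      _ = _ := by ring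
  have hv3 : 0 < v ^ 3 := by positivity
  refine ⟨hvpos, hVpos, ?_, ?_, ?_, ?_⟩
  · nlinarith
  · nlinarith
  · rw [hK0, hK1, hK2, hA, crv_alg x y z x1 y1 z1 x2 y2 z2 C S f g h hn hu (by linarith)]
    refine (crv_bnd z z1 _ _ _ f g v M hvpos.le hM hf hg b1 b2 b3 b4 hv2.symm).trans ?_
    nlinarith
  · have hA' : A = x * (y1 * z2 - z1 * y2) - y * (x1 * z2 - z1 * x2) + z * (x1 * y2 - y1 * x2) := hA
    have e1 := log_alg x y z x1 y1 z1 x2 y2 z2 f g (x1 * x1 + y1 * y1 + z1 * z1)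
      (x1 * x2 + y1 * y2 + z1 * z2) A (x * y1 - y * x1) (x * x + y * y) (f * z1)
      (g * z1 ^ 2 + f * z2) hn hu (by linarith) rfl rfl hA' rfl rfl rfl rfl
    have e2 := log_bnd z z1 (x * y1 - y * x1) (x * x + y * y) (x1 * x1 + y1 * y1 + z1 * z1) A f g v M
      hvpos.le hM hf hg b1 b2 b3 b4 hv2.symm
    rw [← e1] at e2
    have e3 : dot K1 K2 = (x1 - f * z1 * y) * (x2 - (g * z1 ^ 2 + f * z2) * y
        - 2 * (f * z1) * y1 - (f * z1) ^ 2 * x)
      + (y1 + f * z1 * x) * (y2 + (g * z1 ^ 2 + f * z2) * x + 2 * (f * z1) * x1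
        - (f * z1) ^ 2 * y) + z1 * z2 := by
      rw [hK1, hK2]; exact rot_dot x y z x1 y1 z1 x2 y2 z2 C S f g h
    have e4 : dot ((x1, y1, z1) : V3) (x2, y2, z2) = x1 * x2 + y1 * y2 + z1 * z2 := rfl
    rw [← e3, ← hV2, ← hv2] at e2
    rw [e4]
    have hVne : V ≠ 0 := hVpos.ne'
    have hvne : v ≠ 0 := hvpos.ne'
    have e5 : dot K1 K2 / V ^ 2 - (x1 * x2 + y1 * y2 + z1 * z2) / v ^ 2 =
        (v ^ 2 * dot K1 K2 - (x1 * x2 + y1 * y2 + z1 * z2) * V ^ 2) / (v ^ 2 * V ^ 2) := by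
      field_simp
    rw [e5, abs_div, abs_of_pos (by positivity : (0 : ℝ) < v ^ 2 * V ^ 2), div_le_iff₀ (by positivity)]
    refine e2.trans ?_
    have e6 : v ^ 2 ≤ 4 * M ^ 2 * V ^ 2 := by
      calc v ^ 2 ≤ (2 * M * V) ^ 2 := by gcongr
        _ = _ := by ring
    have e7 : 0 ≤ v + |A| / v ^ 2 := by positivity
    have e8 : v ^ 5 + |A| * v ^ 2 = v ^ 2 * v ^ 2 * (v + |A| / v ^ 2) := by
      field_simp
    rw [e8]
    calc 5 * M ^ 2 * (v ^ 2 * v ^ 2 * (v + |A| / v ^ 2))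
        ≤ 5 * M ^ 2 * (v ^ 2 * (4 * M ^ 2 * V ^ 2) * (v + |A| / v ^ 2)) := by gcongr
      _ = _ := by ring

/-- the statement for the kick `K` with the constant `C` -/
def Jet (K : V3 → V3) (dK : V3 → V3 → V3) (C : ℝ) : Prop :=
  ∀ (κ : ℝ → V3) (t : ℝ), ContDiffAt ℝ 2 κ t → (∀ᶠ r in 𝓝 t, dot (κ r) (κ r) = 1) →
    deriv κ t ≠ 0 →
    ContDiffAt ℝ 2 (fun r => K (κ r)) t ∧
    (∀ᶠ r in 𝓝 t, dot (K (κ r)) (K (κ r)) = 1) ∧
    (∀ᶠ r in 𝓝 t, deriv (fun r => K (κ r)) r = dK (κ r) (deriv κ r)) ∧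
    0 < vel κ t ∧ 0 < vel (fun r => K (κ r)) t ∧
    vel (fun r => K (κ r)) t ≤ C * vel κ t ∧
    vel κ t ≤ C * vel (fun r => K (κ r)) t ∧
    |crv (fun r => K (κ r)) t - crv κ t| ≤ C * vel κ t ^ 3 ∧
    ∃ d : ℝ, HasDerivAt (fun r => Real.log (vel (fun r => K (κ r)) r) - Real.log (vel κ r)) d t ∧
      |d| ≤ C * (vel κ t + |crv κ t| / vel κ t ^ 2)

theorem contDiff_Kp {Φ : ℝ → ℝ} (hΦ : ContDiff ℝ ∞ Φ) : ContDiff ℝ ∞ (Kp Φ) := by
  unfold Kp
  fun_prop

theorem jet_p (Φ : ℝ → ℝ) (hΦ : ContDiff ℝ ∞ Φ) (M : ℝ) (hM : 1 ≤ M)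
    (hf : ∀ c : ℝ, |c| ≤ 1 → |deriv Φ c| ≤ M) (hg : ∀ c : ℝ, |c| ≤ 1 → |deriv (deriv Φ) c| ≤ M) :
    Jet (Kp Φ) (dKp Φ) (20 * M ^ 4) := by
  intro κ t hκ hs hne
  have hM0 : (0 : ℝ) ≤ M := by linarith
  have hM1 : M ≤ M ^ 4 := by
    have : (1 : ℝ) ≤ M ^ 3 := one_le_pow₀ hM
    nlinarith
  have hM3 : M ^ 3 ≤ M ^ 4 := by
    have : (0 : ℝ) ≤ M ^ 3 := by positivity
    nlinarith
  -- derivatives
  have hd1 : ∀ᶠ r in 𝓝 t, HasDerivAt κ (deriv κ r) r := by
    have := hκ.eventually (by decide)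
    filter_upwards [this] with r hr
    exact (hr.differentiableAt (by decide)).hasDerivAt
  have hd2 : HasDerivAt (deriv κ) (deriv (deriv κ) t) t :=
    ((hκ.derivWithin (m := 1) (by norm_num)).differentiableAt (by decide)).hasDerivAt
  have hK1 : ∀ᶠ r in 𝓝 t, HasDerivAt (fun s => Kp Φ (κ s)) (dKp Φ (κ r) (deriv κ r)) r := by
    filter_upwards [hd1] with r hr
    exact hasDeriv_Kp hΦ hr
  have hK1' : ∀ᶠ r in 𝓝 t, deriv (fun s => Kp Φ (κ s)) r = dKp Φ (κ r) (deriv κ r) := by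
    filter_upwards [hK1] with r hr
    exact hr.deriv
  have hK2 := hasDeriv_dKp hΦ hd1.self_of_nhds hd2
  have hK2' : deriv (deriv (fun s => Kp Φ (κ s))) t =
      ddK (Real.cos (Φ (κ t).2.2)) (Real.sin (Φ (κ t).2.2)) (deriv Φ (κ t).2.2)
        (deriv (deriv Φ) (κ t).2.2) (κ t) (deriv κ t) (deriv (deriv κ) t) := by
    have : deriv (fun s => Kp Φ (κ s)) =ᶠ[𝓝 t] fun r => dKp Φ (κ r) (deriv κ r) := hK1'
    rw [this.deriv_eq]
    exact hK2.deriv
  -- constraints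
  have hn := hs.self_of_nhds
  have hu : ∀ᶠ r in 𝓝 t, dot (κ r) (deriv κ r) = 0 := by
    filter_upwards [hd1, eventually_eventually_nhds.2 hs] with r hr hr'
    have h1 := hasDeriv_dot hr hr
    have h2 : HasDerivAt (fun s => dot (κ s) (κ s)) 0 r := by
      refine (hasDerivAt_const r (1 : ℝ)).congr_of_eventuallyEq ?_
      filter_upwards [hr'] with s hs using hs
    have h3 := h1.unique h2
    simp only [dot] at h3 ⊢
    linarith
  have hw : dot (deriv κ t) (deriv κ t) + dot (κ t) (deriv (deriv κ) t) = 0 := by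
    have h1 := hasDeriv_dot hd1.self_of_nhds hd2
    have h2 : HasDerivAt (fun s => dot (κ s) (deriv κ s)) 0 t := by
      refine (hasDerivAt_const t (0 : ℝ)).congr_of_eventuallyEq ?_
      filter_upwards [hu] with s hs using hs
    exact h1.unique h2
  have hz1 : |(κ t).2.2| ≤ 1 := by
    have h0 := hn
    simp only [dot] at h0
    exact abs_le_of_sq_le_sq (by nlinarith [mul_self_nonneg (κ t).1, mul_self_nonneg (κ t).2.1])
      one_pos.le
  have hvK : vel (fun r => Kp Φ (κ r)) t =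
      Real.sqrt (dot (dKp Φ (κ t) (deriv κ t)) (dKp Φ (κ t) (deriv κ t))) := by
    simp only [vel]
    rw [hK1'.self_of_nhds]
  obtain ⟨c1, c2, c3, c4, c5, c6⟩ := final_alg (κ t) (deriv κ t) (deriv (deriv κ) t)
    (Kp Φ (κ t)) (dKp Φ (κ t) (deriv κ t)) _ (Real.cos (Φ (κ t).2.2)) (Real.sin (Φ (κ t).2.2))
    (deriv Φ (κ t).2.2) (deriv (deriv Φ) (κ t).2.2) M (vel κ t) (vel (fun r => Kp Φ (κ r)) t)
    (crv κ t) (Real.cos_sq_add_sin_sq _) hM (hf _ hz1) (hg _ hz1) hn hu.self_of_nhds hw hne rfl rfl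
    rfl rfl hvK rfl
  refine ⟨?_, ?_, hK1', c1, c2, c3, c4, ?_, ?_⟩
  · exact ((contDiff_Kp hΦ).of_le (by decide)).contDiffAt.comp t hκ
  · filter_upwards [hs] with r hr
    have hcs := Real.cos_sq_add_sin_sq (Φ (κ r).2.2)
    simp only [dot, Kp] at hr ⊢
    linear_combination ((κ r).1 ^ 2 + (κ r).2.1 ^ 2) * hcs + hr
  · rw [← hK2', ← hK1'.self_of_nhds] at c5
    exact c5
  · refine ⟨dot (dKp Φ (κ t) (deriv κ t)) (ddK (Real.cos (Φ (κ t).2.2)) (Real.sin (Φ (κ t).2.2))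
        (deriv Φ (κ t).2.2) (deriv (deriv Φ) (κ t).2.2) (κ t) (deriv κ t) (deriv (deriv κ) t))
        / vel (fun r => Kp Φ (κ r)) t ^ 2
        - dot (deriv κ t) (deriv (deriv κ) t) / vel κ t ^ 2, ?_, c6⟩
    have key : ∀ (μ : ℝ → V3) (w : V3), HasDerivAt μ w t → 0 < dot (μ t) (μ t) →
        HasDerivAt (fun r => Real.log (Real.sqrt (dot (μ r) (μ r))))
          (dot (μ t) w / Real.sqrt (dot (μ t) (μ t)) ^ 2) t := by
      intro μ w hμ hpos
      have h1 := (hasDeriv_dot hμ hμ).log hpos.ne'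
      have h2 := h1.div_const 2
      refine (h2.congr_of_eventuallyEq ?_).congr_deriv ?_
      · filter_upwards with r
        exact Real.log_sqrt (dot_self_nonneg _)
      · rw [Real.sq_sqrt hpos.le]
        simp only [dot]
        ring
    have k1 := key (deriv κ) _ hd2 (dot_self_pos hne)
    have hpos2 : 0 < dot (dKp Φ (κ t) (deriv κ t)) (dKp Φ (κ t) (deriv κ t)) := by
      rw [hvK] at c2
      exact Real.sqrt_pos.1 c2
    have k2 := key (fun s => dKp Φ (κ s) (deriv κ s)) _ hK2 hpos2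
    rw [← hvK] at k2
    have e : (fun r => Real.log (vel (fun r => Kp Φ (κ r)) r)) =ᶠ[𝓝 t]
        (fun r => Real.log (Real.sqrt (dot (dKp Φ (κ r) (deriv κ r))
          (dKp Φ (κ r) (deriv κ r))))) := by
      filter_upwards [hK1'] with r hr
      simp only [vel]
      rw [hr]
    exact (k2.congr_of_eventuallyEq e).sub k1

/-- cyclic permutation of the coordinates -/
noncomputable def sg : V3 ≃L[ℝ] V3 := LinearEquiv.toContinuousLinearEquiv
  { toFun := fun n => (n.2.1, n.2.2, n.1)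
    invFun := fun n => (n.2.2, n.1, n.2.1)
    map_add' := fun _ _ => rfl
    map_smul' := fun _ _ => rfl
    left_inv := fun _ => rfl
    right_inv := fun _ => rfl }

theorem sg_apply (n : V3) : sg n = (n.2.1, n.2.2, n.1) := rfl

theorem dot_sg (n m : V3) : dot (sg n) (sg m) = dot n m := by
  simp only [sg_apply, dot]; ring

theorem det_sg (n m w : V3) : det3 (sg n) (sg m) (sg w) = det3 n m w := by
  simp only [sg_apply, det3]; ring

theorem deriv_sg (κ : ℝ → V3) : deriv (fun r => sg (κ r)) = fun r => sg (deriv κ r) := by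
  funext r
  have : fderiv ℝ (⇑sg ∘ κ) r = (sg : V3 →L[ℝ] V3).comp (fderiv ℝ κ r) := sg.comp_fderiv
  have h2 := congrArg (fun L : ℝ →L[ℝ] V3 => L 1) this
  exact h2

theorem vel_sg (κ : ℝ → V3) : vel (fun r => sg (κ r)) = vel κ := by
  funext r
  simp only [vel, deriv_sg, dot_sg]

theorem crv_sg (κ : ℝ → V3) : crv (fun r => sg (κ r)) = crv κ := by
  funext r
  simp only [crv, deriv_sg, det_sg]

theorem Kp_sg (Φ : ℝ → ℝ) (n : V3) : Kp Φ (sg n) = sg (Kq Φ n) := rfl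

theorem dKp_sg (Φ : ℝ → ℝ) (n m : V3) : dKp Φ (sg n) (sg m) = sg (dKq Φ n m) := rfl

theorem jet_q {Φ : ℝ → ℝ} {C : ℝ} (h : Jet (Kp Φ) (dKp Φ) C) : Jet (Kq Φ) (dKq Φ) C := by
  intro κ t hκ hs hne
  have h1 : ContDiffAt ℝ 2 (fun r => sg (κ r)) t := sg.contDiff.contDiffAt.comp t hκ
  have h2 : ∀ᶠ r in 𝓝 t, dot (sg (κ r)) (sg (κ r)) = 1 := by
    filter_upwards [hs] with r hr
    rw [dot_sg]; exact hr
  have h3 : deriv (fun r => sg (κ r)) t ≠ 0 := by
    rw [deriv_sg]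
    intro h0
    exact hne (sg.injective (h0.trans (map_zero sg).symm))
  obtain ⟨a1, a2, a3, a4, a5, a6, a7, a8, d, a9, a10⟩ := h (fun r => sg (κ r)) t h1 h2 h3
  simp only [Kp_sg, vel_sg, crv_sg, deriv_sg, dKp_sg, dot_sg] at a1 a2 a3 a4 a5 a6 a7 a8 a9 a10
  refine ⟨?_, a2, ?_, a4, a5, a6, a7, a8, d, ?_, a10⟩
  · have := (sg.symm.contDiff (n := 2)).contDiffAt.comp t a1
    exact this
  · filter_upwards [a3] with r hr
    exact sg.injective hr
  · exact a9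

end JetM

theorem specJET : SpecJET := by
  intro Φ hΦ
  have h1 : Continuous (deriv Φ) := hΦ.continuous_deriv (by simp)
  have h2 : Continuous (deriv (deriv Φ)) :=
    (contDiff_infty_iff_deriv.1 hΦ).2.continuous_deriv (by simp)
  obtain ⟨M1, hM1⟩ := isCompact_Icc.exists_bound_of_continuousOn (s := Set.Icc (-1 : ℝ) 1)
    h1.continuousOn
  obtain ⟨M2, hM2⟩ := isCompact_Icc.exists_bound_of_continuousOn (s := Set.Icc (-1 : ℝ) 1)
    h2.continuousOn
  set M := max 1 (max M1 M2) with hMdef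
  have hM : 1 ≤ M := le_max_left _ _
  have hf : ∀ c : ℝ, |c| ≤ 1 → |deriv Φ c| ≤ M := fun c hc =>
    (hM1 c (abs_le.1 hc)).trans ((le_max_left _ _).trans (le_max_right _ _))
  have hg : ∀ c : ℝ, |c| ≤ 1 → |deriv (deriv Φ) c| ≤ M := fun c hc =>
    (hM2 c (abs_le.1 hc)).trans ((le_max_right _ _).trans (le_max_right _ _))
  have hJ := JetM.jet_p Φ hΦ M hM hf hg
  refine ⟨20 * M ^ 4, ?_, ?_⟩
  · have : (1 : ℝ) ≤ M ^ 4 := one_le_pow₀ hM
    linarith
  · rintro K dK (⟨rfl, rfl⟩ | ⟨rfl, rfl⟩) κ t hκ hs hne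
    · exact hJ κ t hκ hs hne
    · exact JetM.jet_q hJ κ t hκ hs hne

end Pool.Agent.Lib.MP_d2b992_gt.Dyn
end

section
/-!
# Module EVO: evolution of horizontal segments under `T` and of vertical segments under `T⁻¹`
-/
set_option autoImplicit false

open MeasureTheory Filter Topology Set
open scoped ContDiff

namespace Pool.Agent.Lib.MP_d2b992_gt.Dyn

open Pool.Agent.Lib.MP_d2b992_gt.T (Tw)

namespace EvoM

/-! ## The rotation `rho` -/

/-- `rho` as a continuous linear equivalence -/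
noncomputable def rh : V3 ≃L[ℝ] V3 := LinearEquiv.toContinuousLinearEquiv
  { toFun := fun n => (n.1, -n.2.1, -n.2.2)
    invFun := fun n => (n.1, -n.2.1, -n.2.2)
    map_add' := fun m n => by
      refine Prod.ext rfl (Prod.ext ?_ ?_)
      · simp only [Prod.fst_add, Prod.snd_add]; ring
      · simp only [Prod.snd_add]; ring
    map_smul' := fun a n => by
      refine Prod.ext rfl (Prod.ext ?_ ?_)
      · simp only [Prod.smul_fst, Prod.smul_snd, smul_eq_mul, RingHom.id_apply]; ring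
      · simp only [Prod.smul_snd, smul_eq_mul, RingHom.id_apply]; ring
    left_inv := fun n => by simp
    right_inv := fun n => by simp }

theorem rh_apply (n : V3) : rh n = rho n := rfl

theorem rho_rho (n : V3) : rho (rho n) = n := by simp [rho]

theorem deriv_rho (κ : ℝ → V3) : deriv (fun r => rho (κ r)) = fun r => rho (deriv κ r) := by
  funext r
  have : fderiv ℝ (⇑rh ∘ κ) r = (rh : V3 →L[ℝ] V3).comp (fderiv ℝ κ r) := rh.comp_fderiv
  have h2 := congrArg (fun L : ℝ →L[ℝ] V3 => L 1) this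
  exact h2

theorem dot_rho (n m : V3) : dot (rho n) (rho m) = dot n m := by
  simp only [rho, dot]; ring

theorem det_rho (n m w : V3) : det3 (rho n) (rho m) (rho w) = det3 n m w := by
  simp only [rho, det3]; ring

theorem vel_rho (κ : ℝ → V3) : vel (fun r => rho (κ r)) = vel κ := by
  funext r
  simp only [vel, deriv_rho, dot_rho]

theorem crv_rho (κ : ℝ → V3) : crv (fun r => rho (κ r)) = crv κ := by
  funext r
  simp only [crv, deriv_rho, det_rho]

theorem rho_ne {m : V3} (h : m ≠ 0) : rho m ≠ 0 := by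
  intro h0
  apply h
  have := congrArg rho h0
  rw [rho_rho] at this
  rw [this]
  simp [rho]

/-! ## Values of germs -/

/-- functionals of germs of curves, invariant under `rho` -/
def Inv (Φ : (ℝ → V3) → ℝ → ℝ) : Prop :=
  (∀ (κ κ' : ℝ → V3) (t : ℝ), κ' =ᶠ[𝓝 t] κ → Φ κ' t = Φ κ t) ∧
  ∀ (κ : ℝ → V3) (t : ℝ), Φ (fun r => rho (κ r)) t = Φ κ t

theorem inv_vel : Inv vel := by
  refine ⟨fun κ κ' t h => ?_, fun κ t => by rw [vel_rho]⟩
  simp only [vel, h.deriv_eq]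

theorem inv_crv : Inv crv := by
  refine ⟨fun κ κ' t h => ?_, fun κ t => by rw [crv_rho]⟩
  simp only [crv, h.deriv_eq, h.eq_of_nhds, h.deriv.deriv_eq]

/-- the cone form of the velocity -/
noncomputable def nsq (b s : ℝ) (κ : ℝ → V3) (t : ℝ) : ℝ := Nsq b s (κ t) (deriv κ t)

theorem inv_nsq {b s : ℝ} (h : ∀ n m : V3, Nsq b s (rho n) (rho m) = Nsq b s n m) :
    Inv (nsq b s) := by
  refine ⟨fun κ κ' t h => ?_, fun κ t => ?_⟩
  · simp only [nsq, h.deriv_eq, h.eq_of_nhds]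
  · simp only [nsq, deriv_rho, h]

/-- the standing assumptions -/
structure Ctx (b s : ℝ) : Prop where
  b0 : 0 < b
  s0 : 0 < s
  sb : s ^ 2 + b ^ 2 = 1
  opn : ∀ (z : ℝ → XS) (κ : ℝ → V3) (t : ℝ), Lift b s z κ t → ∀ᶠ r in 𝓝 t, Lift b s z κ r
  uniq : ∀ (z : ℝ → XS) (κ κ' : ℝ → V3) (t : ℝ), Lift b s z κ t → Lift b s z κ' t →
    (∀ᶠ r in 𝓝 t, κ' r = κ r) ∨ (∀ᶠ r in 𝓝 t, κ' r = rho (κ r))
  nr : ∀ n m : V3, Nsq b s (rho n) (rho m) = Nsq b s n m

open Classical in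
/-- the value of a functional on the path of states `z` -/
noncomputable def val (b s : ℝ) (Φ : (ℝ → V3) → ℝ → ℝ) (z : ℝ → XS) (t : ℝ) : ℝ :=
  if h : ∃ κ : ℝ → V3, Lift b s z κ t then Φ h.choose t else 0

theorem val_eq {b s : ℝ} (hc : Ctx b s) {Φ : (ℝ → V3) → ℝ → ℝ} (hΦ : Inv Φ) {z : ℝ → XS}
    {κ : ℝ → V3} {t : ℝ} (h : Lift b s z κ t) : val b s Φ z t = Φ κ t := by
  have hex : ∃ κ : ℝ → V3, Lift b s z κ t := ⟨κ, h⟩
  unfold val
  rw [dif_pos hex]
  rcases hc.uniq z κ hex.choose t h hex.choose_spec with e | e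
  · exact hΦ.1 _ _ _ e
  · have e' : hex.choose =ᶠ[𝓝 t] fun r => rho (κ r) := e
    rw [hΦ.1 _ _ _ e', hΦ.2]

theorem val_ev {b s : ℝ} (hc : Ctx b s) {Φ : (ℝ → V3) → ℝ → ℝ} (hΦ : Inv Φ) {z : ℝ → XS}
    {κ : ℝ → V3} {t : ℝ} (h : Lift b s z κ t) : ∀ᶠ r in 𝓝 t, val b s Φ z r = Φ κ r := by
  filter_upwards [hc.opn z κ t h] with r hr
  exact val_eq hc hΦ hr

/-! ## Facts about lifts -/

/-- the region -/
def Reg (b s : ℝ) (n : V3) : Prop := |n.2.2| < s ∨ |n.1| < b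

theorem reg_rho {b s : ℝ} {n : V3} (h : Reg b s (rho n)) : Reg b s n := by
  simpa [Reg, rho] using h

theorem lift_reg {b s : ℝ} {z : ℝ → XS} {κ : ℝ → V3} {t : ℝ} (h : Lift b s z κ t) :
    Reg b s (κ t) := by
  rcases h.2.2 with h | h | h
  · exact Or.inl h.1
  · exact Or.inr h.1
  · exact Or.inr h.1

theorem lift_pt {b s : ℝ} {z : ℝ → XS} {κ : ℝ → V3} {t : ℝ} (h : Lift b s z κ t) :
    ∀ᶠ r in 𝓝 t, (z r).2 = κ r ∨ (z r).2 = rho (κ r) := by
  rcases h.2.2 with ⟨-, Θ, -, h⟩ | ⟨-, j, -, h⟩ | ⟨-, h | h⟩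
  · filter_upwards [h] with r hr
    left
    rw [hr.1]
    exact hr.2.symm
  · filter_upwards [h] with r hr
    rw [hr, secQ]
    split_ifs
    · exact Or.inl rfl
    · exact Or.inr rfl
  · filter_upwards [h] with r hr
    rw [hr, secF]
    split_ifs
    · exact Or.inl rfl
    · exact Or.inr rfl
  · filter_upwards [h] with r hr
    rw [hr, secF]
    split_ifs
    · exact Or.inr rfl
    · exact Or.inl (rho_rho _)

theorem lift_fst {b s : ℝ} {z : ℝ → XS} {κ : ℝ → V3} {t : ℝ} (h : Lift b s z κ t) :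
    (z t).2.1 = (κ t).1 := by
  rcases (lift_pt h).self_of_nhds with e | e
  · rw [e]
  · rw [e]; rfl

theorem lift_abs {b s : ℝ} {z : ℝ → XS} {κ : ℝ → V3} {t : ℝ} (h : Lift b s z κ t) :
    |(z t).2.2.2| = |(κ t).2.2| := by
  rcases (lift_pt h).self_of_nhds with e | e
  · rw [e]
  · rw [e]; simp [rho]

theorem lift_diff {b s : ℝ} {z : ℝ → XS} {κ : ℝ → V3} {t : ℝ} (h : Lift b s z κ t) :
    HasDerivAt κ (deriv κ t) t :=
  (h.1.differentiableAt (by norm_num)).hasDerivAt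

theorem lift_dot {b s : ℝ} {z : ℝ → XS} {κ : ℝ → V3} {t : ℝ} (h : Lift b s z κ t) :
    dot (κ t) (κ t) = 1 := h.2.1.self_of_nhds

theorem lift_orth {b s : ℝ} {z : ℝ → XS} {κ : ℝ → V3} {t : ℝ} (h : Lift b s z κ t) :
    dot (κ t) (deriv κ t) = 0 := by
  have h1 := JetM.hasDeriv_dot (lift_diff h) (lift_diff h)
  have h2 : (fun r => dot (κ r) (κ r)) =ᶠ[𝓝 t] fun _ => (1 : ℝ) := h.2.1
  have h3 := (hasDerivAt_const t (1 : ℝ)).congr_of_eventuallyEq h2
  have h4 := h1.unique h3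
  have h5 : dot (deriv κ t) (κ t) = dot (κ t) (deriv κ t) := by simp only [dot]; ring
  linarith

theorem vel_pos {κ : ℝ → V3} {t : ℝ} (h : deriv κ t ≠ 0) : 0 < vel κ t :=
  Real.sqrt_pos.2 (JetM.dot_self_pos h)

theorem vel_cont {b s : ℝ} {z : ℝ → XS} {κ : ℝ → V3} {t : ℝ} (h : Lift b s z κ t) :
    ContinuousAt (vel κ) t := by
  have h1 : ContinuousAt (deriv κ) t := by
    have h2 : ContDiffAt ℝ 1 (deriv κ) t := by
      have := h.1.derivWithin (m := 1) (by norm_num)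
      exact this
    exact h2.continuousAt
  unfold vel
  apply Real.continuous_sqrt.continuousAt.comp
  simp only [dot]
  fun_prop

/-! ## One kick -/

/-- the relation between the lifts before and after a step -/
structure Rel (b s c ε : ℝ) (κ κ' : ℝ → V3) (t : ℝ) : Prop where
  ne : deriv κ' t ≠ 0
  up : vel κ' t ≤ c * vel κ t
  dn : vel κ t ≤ c * vel κ' t
  cr : |crv κ' t - crv κ t| ≤ c * vel κ t ^ 3
  lg : ∃ d : ℝ, HasDerivAt (fun r => Real.log (vel κ' r) - Real.log (vel κ r)) d t ∧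
    |d| ≤ c * (vel κ t + |crv κ t| / vel κ t ^ 2)
  nm : ε * nsq b s κ t ≤ ε * nsq b s κ' t

theorem Rel.rot {b s c ε : ℝ} {κ κ' : ℝ → V3} {t : ℝ}
    (hc : ∀ n m : V3, Nsq b s (rho n) (rho m) = Nsq b s n m)
    (h : Rel b s c ε κ κ' t) : Rel b s c ε κ (fun r => rho (κ' r)) t := by
  refine ⟨?_, ?_, ?_, ?_, ?_, ?_⟩
  · rw [deriv_rho]
    exact rho_ne h.ne
  · rw [vel_rho]; exact h.up
  · rw [vel_rho]; exact h.dn
  · rw [crv_rho]; exact h.cr
  · rw [vel_rho]; exact h.lg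
  · rw [(inv_nsq hc).2]; exact h.nm

theorem Rel.refl {b s c ε : ℝ} {κ : ℝ → V3} {t : ℝ} (hc : 1 ≤ c) (hne : deriv κ t ≠ 0) :
    Rel b s c ε κ κ t := by
  have hv := vel_pos hne
  refine ⟨hne, by nlinarith, by nlinarith, ?_, ⟨0, ?_, ?_⟩, le_refl _⟩
  · rw [sub_self, abs_zero]
    positivity
  · simp only [sub_self]
    exact hasDerivAt_const t 0
  · rw [abs_zero]
    positivity

/-- the data of a kick -/
structure Kick (b s c ε η : ℝ) (K : V3 → V3) (dK : V3 → V3 → V3) (co : V3 → ℝ) (r : ℝ) :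
    Prop where
  jet : JetM.Jet K dK c
  coK : ∀ n, co (K n) = co n
  codK : ∀ n m, co (dK n m) = co m
  corho : ∀ n, |co (rho n)| = |co n|
  mono : ∀ n m, dot n n = 1 → dot n m = 0 → Reg b s n → Reg b s (K n) →
    ε * Nsq b s n m ≤ ε * Nsq b s (K n) (dK n m)
  gain : ∀ n m, dot n n = 1 → dot n m = 0 → |co n| ≤ r →
    ε * Nsq b s n m + η * co m ^ 2 ≤ ε * Nsq b s (K n) (dK n m)

section
variable {b s c ε η r : ℝ} {K : V3 → V3} {dK : V3 → V3 → V3} {co : V3 → ℝ}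

theorem rel_kick (hk : Kick b s c ε η K dK co r) {z : ℝ → XS} {κ : ℝ → V3} {t : ℝ}
    (hκ : Lift b s z κ t) (hne : deriv κ t ≠ 0) (hreg : Reg b s (K (κ t))) :
    Rel b s c ε κ (fun u => K (κ u)) t ∧
      deriv (fun u => K (κ u)) t = dK (κ t) (deriv κ t) := by
  obtain ⟨-, -, a3, a4, a5, a6, a7, a8, a9⟩ := hk.jet κ t hκ.1 hκ.2.1 hne
  have hd := a3.self_of_nhds
  refine ⟨⟨?_, a6, a7, a8, a9, ?_⟩, hd⟩
  · intro h0
    simp only [vel, h0] at a5
    simp [dot] at a5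
  · simp only [nsq, hd]
    exact hk.mono _ _ (lift_dot hκ) (lift_orth hκ) (lift_reg hκ) hreg

theorem kick_step (hc : Ctx b s) (hk : Kick b s c ε η K dK co r) {z z' : ℝ → XS}
    {κ κ' : ℝ → V3} {t : ℝ} (hκ : Lift b s z κ t) (hne : deriv κ t ≠ 0)
    (hκ' : Lift b s z' κ' t)
    (he : κ' = (fun u => rho (K (κ u))) ∨ κ' = fun u => K (κ u)) :
    Rel b s c ε κ κ' t ∧ |co (κ' t)| = |co (κ t)| ∧ co (deriv κ' t) ^ 2 = co (deriv κ t) ^ 2 ∧
      (|co (κ t)| ≤ r → ε * nsq b s κ t + η * co (deriv κ t) ^ 2 ≤ ε * nsq b s κ' t) := by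
  have hreg : Reg b s (K (κ t)) := by
    have := lift_reg hκ'
    rcases he with e | e
    · rw [e] at this
      exact reg_rho this
    · rw [e] at this
      exact this
  obtain ⟨h1, h2⟩ := rel_kick hk hκ hne hreg
  have hg : |co (κ t)| ≤ r → ε * nsq b s κ t + η * co (deriv κ t) ^ 2 ≤
      ε * nsq b s (fun u => K (κ u)) t := by
    intro hr
    simp only [nsq, h2]
    exact hk.gain _ _ (lift_dot hκ) (lift_orth hκ) hr
  rcases he with e | e
  · subst e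
    refine ⟨h1.rot hc.nr, ?_, ?_, ?_⟩
    · rw [hk.corho, hk.coK]
    · rw [deriv_rho, ← sq_abs, hk.corho, sq_abs, h2, hk.codK]
    · rw [(inv_nsq hc.nr).2]
      exact hg
  · subst e
    refine ⟨h1, ?_, ?_, hg⟩
    · rw [hk.coK]
    · rw [h2, hk.codK]

end

theorem jet_mono {K : V3 → V3} {dK : V3 → V3 → V3} {c c' : ℝ} (h : JetM.Jet K dK c)
    (hc : c ≤ c') : JetM.Jet K dK c' := by
  intro κ t h1 h2 h3
  obtain ⟨a1, a2, a3, a4, a5, a6, a7, a8, d, a9, a10⟩ := h κ t h1 h2 h3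
  refine ⟨a1, a2, a3, a4, a5, a6.trans (by gcongr), a7.trans (by gcongr),
    a8.trans (by gcongr), d, a9, a10.trans (by gcongr)⟩

theorem stepP {b s : ℝ} (hc : Ctx b s) (hSP : SpecSTEPP) {Φ : ℝ → ℝ} (hΦ : TwP s Φ)
    {c ε η c1 : ℝ} (hk : Kick b s c ε η (Kp Φ) (dKp Φ) (fun n => n.2.2) c1)
    {z : ℝ → XS} {κ : ℝ → V3} {t : ℝ} (hcan : ∀ᶠ r in 𝓝 t, Can b s (z r))
    (hκ : Lift b s z κ t) (hne : deriv κ t ≠ 0) :
    ∃ κ' : ℝ → V3, Lift b s (fun r => PP s Φ (z r)) κ' t ∧ Rel b s c ε κ κ' t ∧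
      |(κ' t).2.2| = |(κ t).2.2| ∧ (deriv κ' t).2.2 ^ 2 = (deriv κ t).2.2 ^ 2 ∧
      (|(κ t).2.2| ≤ c1 → ε * nsq b s κ t + η * (deriv κ t).2.2 ^ 2 ≤ ε * nsq b s κ' t) := by
  rcases hSP b s Φ hc.b0 hc.s0 hc.sb hΦ z κ t hcan hκ with h | h
  · exact ⟨_, h, kick_step hc hk hκ hne h (Or.inl rfl)⟩
  · exact ⟨_, h, kick_step hc hk hκ hne h (Or.inr rfl)⟩

theorem stepQ {b s : ℝ} (hc : Ctx b s) (hSQ : SpecSTEPQ) {Ψ : ℝ → ℝ} (hΨ : TwQ b Ψ)
    {c ε η x1 : ℝ} (hc1 : 1 ≤ c) (hk : Kick b s c ε η (Kq Ψ) (dKq Ψ) (fun n => n.1) x1)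
    {z : ℝ → XS} {κ : ℝ → V3} {t : ℝ} (hcan : ∀ᶠ r in 𝓝 t, Can b s (z r))
    (hκ : Lift b s z κ t) (hne : deriv κ t ≠ 0) :
    ∃ κ' : ℝ → V3, Lift b s (fun r => QQ b Ψ (z r)) κ' t ∧ Rel b s c ε κ κ' t ∧
      |(κ' t).1| = |(κ t).1| ∧ (deriv κ' t).1 ^ 2 = (deriv κ t).1 ^ 2 ∧
      (((z t).1 = 0 ∨ (z t).1 = 2) → |(z t).2.1| < b →
        |(κ t).1| ≤ x1 → ε * nsq b s κ t + η * (deriv κ t).1 ^ 2 ≤ ε * nsq b s κ' t) := by
  obtain ⟨h1, h2⟩ := hSQ b s Ψ hc.b0 hc.s0 hc.sb hΨ z κ t hcan hκ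
  by_cases hn : ((z t).1 = 0 ∨ (z t).1 = 2) ∧ |(z t).2.1| < b
  · have h := h2 hn.1 hn.2
    obtain ⟨a1, a2, a3, a4⟩ := kick_step hc hk hκ hne h (Or.inr rfl)
    exact ⟨_, h, a1, a2, a3, fun _ _ => a4⟩
  · rcases h1 with h | h | h
    · obtain ⟨a1, a2, a3, a4⟩ := kick_step hc hk hκ hne h (Or.inl rfl)
      exact ⟨_, h, a1, a2, a3, fun _ _ => a4⟩
    · obtain ⟨a1, a2, a3, a4⟩ := kick_step hc hk hκ hne h (Or.inr rfl)
      exact ⟨_, h, a1, a2, a3, fun _ _ => a4⟩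
    · exact ⟨κ, h, Rel.refl hc1 hne, rfl, rfl, fun g1 g2 => absurd ⟨g1, g2⟩ hn⟩

/-! ## The inverse kicks -/

theorem inv_P {F : ℝ → ℝ} (hF : ∀ c, F (-c) = -(2 * Real.pi) - F c) (n m : V3) :
    Kp F (Kp (fun c => F (-c)) n) = n ∧
      dKp F (Kp (fun c => F (-c)) n) (dKp (fun c => F (-c)) n m) = m := by
  have e1 : (fun c => F (-c)) = fun c => -(2 * Real.pi) - F c := funext hF
  rw [e1]
  have hd : ∀ x : ℝ, deriv (fun c => -(2 * Real.pi) - F c) x = -deriv F x := fun x => by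
    rw [deriv_const_sub]
  have hcos : ∀ x : ℝ, Real.cos (-(2 * Real.pi) - F x) = Real.cos (F x) := fun x => by
    rw [show -(2 * Real.pi) - F x = -(F x + 2 * Real.pi) by ring, Real.cos_neg,
      Real.cos_add_two_pi]
  have hsin : ∀ x : ℝ, Real.sin (-(2 * Real.pi) - F x) = -Real.sin (F x) := fun x => by
    rw [show -(2 * Real.pi) - F x = -(F x + 2 * Real.pi) by ring, Real.sin_neg,
      Real.sin_add_two_pi]
  have hsc := Real.sin_sq_add_cos_sq (F n.2.2)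
  constructor
  · refine Prod.ext ?_ (Prod.ext ?_ rfl)
    · simp only [Kp, hcos, hsin]
      linear_combination n.1 * hsc
    · simp only [Kp, hcos, hsin]
      linear_combination n.2.1 * hsc
  · refine Prod.ext ?_ (Prod.ext ?_ rfl)
    · simp only [Kp, dKp, hcos, hsin, hd]
      linear_combination m.1 * hsc
    · simp only [Kp, dKp, hcos, hsin, hd]
      linear_combination m.2.1 * hsc

theorem inv_Q {G : ℝ → ℝ} (n m : V3) :
    Kq G (Kq (fun x => -G x) n) = n ∧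
      dKq G (Kq (fun x => -G x) n) (dKq (fun x => -G x) n m) = m := by
  have hd : ∀ x : ℝ, deriv (fun x => -G x) x = -deriv G x := fun x => by
    rw [deriv.fun_neg]
  have hsc := Real.sin_sq_add_cos_sq (G n.1)
  constructor
  · refine Prod.ext rfl (Prod.ext ?_ ?_)
    · simp only [Kq, Real.cos_neg, Real.sin_neg]
      linear_combination n.2.1 * hsc
    · simp only [Kq, Real.cos_neg, Real.sin_neg]
      linear_combination n.2.2 * hsc
  · refine Prod.ext rfl (Prod.ext ?_ ?_)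
    · simp only [Kq, dKq, Real.cos_neg, Real.sin_neg, hd]
      linear_combination m.2.1 * hsc
    · simp only [Kq, dKq, Real.cos_neg, Real.sin_neg, hd]
      linear_combination m.2.2 * hsc

/-! ## The four kicks -/

section
variable {b s c η x1 c1 : ℝ} {F G : ℝ → ℝ}

theorem kickPf (h1 : ∀ n m : V3, dot n n = 1 → dot n m = 0 → (|n.2.2| < s ∨ |n.1| < b) →
      Nsq b s n m ≤ Nsq b s (Kp F n) (dKp F n m))
    (h2 : ∀ n m : V3, dot n n = 1 → dot n m = 0 → |n.2.2| ≤ c1 →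
      Nsq b s n m + η * m.2.2 ^ 2 ≤ Nsq b s (Kp F n) (dKp F n m))
    (hJ : JetM.Jet (Kp F) (dKp F) c) :
    Kick b s c 1 η (Kp F) (dKp F) (fun n => n.2.2) c1 := by
  refine ⟨hJ, fun n => rfl, fun n m => rfl, fun n => by simp [rho], ?_, ?_⟩
  · intro n m a1 a2 a3 _
    rw [one_mul, one_mul]
    exact h1 n m a1 a2 a3
  · intro n m a1 a2 a3
    rw [one_mul, one_mul]
    exact h2 n m a1 a2 a3

theorem kickQf (h1 : ∀ n m : V3, dot n n = 1 → dot n m = 0 → (|n.2.2| < s ∨ |n.1| < b) →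
      Nsq b s n m ≤ Nsq b s (Kq G n) (dKq G n m))
    (h2 : ∀ n m : V3, dot n n = 1 → dot n m = 0 → |n.1| ≤ x1 →
      Nsq b s n m + η * m.1 ^ 2 ≤ Nsq b s (Kq G n) (dKq G n m))
    (hJ : JetM.Jet (Kq G) (dKq G) c) :
    Kick b s c 1 η (Kq G) (dKq G) (fun n => n.1) x1 := by
  refine ⟨hJ, fun n => rfl, fun n m => rfl, fun n => by simp [rho], ?_, ?_⟩
  · intro n m a1 a2 a3 _
    rw [one_mul, one_mul]
    exact h1 n m a1 a2 a3
  · intro n m a1 a2 a3
    rw [one_mul, one_mul]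
    exact h2 n m a1 a2 a3

theorem kickPb (hF : ∀ c, F (-c) = -(2 * Real.pi) - F c)
    (h1 : ∀ n m : V3, dot n n = 1 → dot n m = 0 → (|n.2.2| < s ∨ |n.1| < b) →
      Nsq b s n m ≤ Nsq b s (Kp F n) (dKp F n m))
    (h2 : ∀ n m : V3, dot n n = 1 → dot n m = 0 → |n.2.2| ≤ c1 →
      Nsq b s n m + η * m.2.2 ^ 2 ≤ Nsq b s (Kp F n) (dKp F n m))
    (hJ : JetM.Jet (Kp fun c => F (-c)) (dKp fun c => F (-c)) c) :
    Kick b s c (-1) η (Kp fun c => F (-c)) (dKp fun c => F (-c)) (fun n => n.2.2) c1 := by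
  refine ⟨hJ, fun n => rfl, fun n m => rfl, fun n => by simp [rho], ?_, ?_⟩
  · intro n m a1 a2 _ a4
    obtain ⟨e1, e2⟩ := inv_P hF n m
    have hd := specDETK (fun c => F (-c)) n m m a1 a2 a2
    have := h1 _ _ hd.1 hd.2.1 a4
    rw [e1, e2] at this
    linarith
  · intro n m a1 a2 a3
    obtain ⟨e1, e2⟩ := inv_P hF n m
    have hd := specDETK (fun c => F (-c)) n m m a1 a2 a2
    have := h2 _ _ hd.1 hd.2.1 a3
    rw [e1, e2] at this
    have e3 : (dKp (fun c => F (-c)) n m).2.2 = m.2.2 := rfl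
    rw [e3] at this
    linarith

theorem kickQb
    (h1 : ∀ n m : V3, dot n n = 1 → dot n m = 0 → (|n.2.2| < s ∨ |n.1| < b) →
      Nsq b s n m ≤ Nsq b s (Kq G n) (dKq G n m))
    (h2 : ∀ n m : V3, dot n n = 1 → dot n m = 0 → |n.1| ≤ x1 →
      Nsq b s n m + η * m.1 ^ 2 ≤ Nsq b s (Kq G n) (dKq G n m))
    (hJ : JetM.Jet (Kq fun x => -G x) (dKq fun x => -G x) c) :
    Kick b s c (-1) η (Kq fun x => -G x) (dKq fun x => -G x) (fun n => n.1) x1 := by
  refine ⟨hJ, fun n => rfl, fun n m => rfl, fun n => by simp [rho], ?_, ?_⟩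
  · intro n m a1 a2 _ a4
    obtain ⟨e1, e2⟩ := inv_Q (G := G) n m
    have hd := specDETK (fun x => -G x) n m m a1 a2 a2
    have := h1 _ _ hd.2.2.2.1 hd.2.2.2.2.1 a4
    rw [e1, e2] at this
    linarith
  · intro n m a1 a2 a3
    obtain ⟨e1, e2⟩ := inv_Q (G := G) n m
    have hd := specDETK (fun x => -G x) n m m a1 a2 a2
    have := h2 _ _ hd.2.2.2.1 hd.2.2.2.2.1 a3
    rw [e1, e2] at this
    have e3 : (dKq (fun x => -G x) n m).1 = m.1 := rfl
    rw [e3] at this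
    linarith

end

/-! ## The general theorem -/

/-- two sub-steps with a chart -/
structure Two (b s : ℝ) (S1 S2 : XS → XS) (E : Bool → ℝ → ℝ → XS) (βp βq sg p1 q1 c η ε : ℝ)
    (gp gq : V3 → ℝ) : Prop where
  c1 : 1 ≤ c
  pb : p1 < βp
  qb : q1 < βq
  bb : βp ^ 2 + βq ^ 2 = 1
  p0 : 0 < p1
  q0 : 0 < q1
  sg1 : sg = 1 ∨ sg = -1
  gqr : ∀ m : V3, gq (rho m) ^ 2 = gq m ^ 2
  canE : ∀ (j : Bool) (p q : ℝ), |p| < βp → |q| < βq → Can b s (E j p q)
  can1 : ∀ z : XS, Can b s z → Can b s (S1 z)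
  can2 : ∀ z : XS, Can b s z → Can b s (S2 z)
  st1 : ∀ (z : ℝ → XS) (κ : ℝ → V3) (t : ℝ), (∀ᶠ r in 𝓝 t, Can b s (z r)) → Lift b s z κ t →
    deriv κ t ≠ 0 → ∃ κ' : ℝ → V3, Lift b s (fun r => S1 (z r)) κ' t ∧ Rel b s c ε κ κ' t ∧
      ∀ (j : Bool) (p q : ℝ), |p| ≤ p1 → |q| ≤ q1 → z t = E j p q →
        ε * nsq b s κ t + η * gp (deriv κ t) ^ 2 ≤ ε * nsq b s κ' t
  st2 : ∀ (z : ℝ → XS) (κ : ℝ → V3) (t : ℝ), (∀ᶠ r in 𝓝 t, Can b s (z r)) → Lift b s z κ t →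
    deriv κ t ≠ 0 → ∃ κ' : ℝ → V3, Lift b s (fun r => S2 (z r)) κ' t ∧ Rel b s c ε κ κ' t ∧
      ∀ (j : Bool) (p q : ℝ), |p| ≤ p1 → |q| ≤ q1 → S2 (z t) = E j p q →
        ε * nsq b s κ t + η * gq (deriv κ' t) ^ 2 ≤ ε * nsq b s κ' t
  chrt : ∀ (z : ℝ → XS) (κ : ℝ → V3) (t : ℝ) (j : Bool) (p q : ℝ), Lift b s z κ t →
    |p| < βp → |q| < βq → z t = E j p q →
    ∃ P Q : ℝ → ℝ, P t = p ∧ Q t = q ∧ ContDiffAt ℝ 2 P t ∧ ContDiffAt ℝ 2 Q t ∧
      (∀ᶠ r in 𝓝 t, z r = E j (P r) (Q r)) ∧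
      gp (deriv κ t) ^ 2 = deriv P t ^ 2 ∧ gq (deriv κ t) ^ 2 = deriv Q t ^ 2 ∧
      vel κ t ^ 2 = deriv P t ^ 2 + deriv Q t ^ 2 +
        (p * deriv P t + q * deriv Q t) ^ 2 / (1 - p ^ 2 - q ^ 2) ∧
      ε * nsq b s κ t * Real.sqrt (1 - p ^ 2 - q ^ 2) = sg * (deriv P t * deriv Q t)
  pth : ∀ (z : ℝ → XS) (v : ℝ → ℝ) (r₁ r₂ δ : ℝ) (j : Bool) (p q : ℝ),
    (∀ r ∈ uIcc r₁ r₂, ∃ κ : ℝ → V3, Lift b s z κ r) →
    (∀ r ∈ uIcc r₁ r₂, ∀ κ : ℝ → V3, Lift b s z κ r → v r = vel κ r) →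
    |p| + δ < βp → |q| + δ < βq → z r₁ = E j p q → |∫ r in r₁..r₂, v r| ≤ δ →
    ∀ r ∈ uIcc r₁ r₂, ∃ p' q' : ℝ, |p' - p| ≤ δ ∧ |q' - q| ≤ δ ∧ z r = E j p' q'
  ini : ∀ (j : Bool) (p0 q0 : ℝ), |q0| ≤ q1 → ∃ κ : ℝ → V3,
      (∀ σ : ℝ, |p0 + σ| < βp → Lift b s (fun r => E j (p0 + r) q0) κ σ ∧
        deriv κ σ ≠ 0 ∧ nsq b s κ σ = 0) ∧
      (∀ σ : ℝ, |p0 + σ| ≤ p1 → 1 ≤ vel κ σ ∧ vel κ σ ≤ c ∧ |crv κ σ| ≤ c ∧
        ∃ d : ℝ, HasDerivAt (fun r => Real.log (vel κ r)) d σ ∧ |d| ≤ c)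

/-- composition of two relations: the estimates of the full step -/
theorem two_rel {b s c ε C : ℝ} {κ κ₁ κ₂ : ℝ → V3} {t : ℝ} (hc : 1 ≤ c)
    (hC : c + c ^ 2 + c ^ 3 + c ^ 4 ≤ C) (hne : deriv κ t ≠ 0) (h1 : Rel b s c ε κ κ₁ t)
    (h2 : Rel b s c ε κ₁ κ₂ t) :
    vel κ₂ t ≤ C * vel κ t ∧ vel κ t ≤ C * vel κ₂ t ∧
    |crv κ₂ t - crv κ t| ≤ C * vel κ t ^ 3 ∧
    ∃ d : ℝ, HasDerivAt (fun r => Real.log (vel κ₂ r) - Real.log (vel κ r)) d t ∧
      |d| ≤ C * (vel κ t + |crv κ t| / vel κ t ^ 2) := by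
  have hv := vel_pos hne
  have hv1 := vel_pos h1.ne
  have hv2 := vel_pos h2.ne
  have hc2 : 0 ≤ c ^ 2 := by positivity
  have hc3 : 0 ≤ c ^ 3 := by positivity
  have hc4 : 0 ≤ c ^ 4 := by positivity
  have hcC : c ^ 2 ≤ C := by linarith
  refine ⟨?_, ?_, ?_, ?_⟩
  · calc vel κ₂ t ≤ c * vel κ₁ t := h2.up
      _ ≤ c * (c * vel κ t) := by gcongr; exact h1.up
      _ = c ^ 2 * vel κ t := by ring
      _ ≤ C * vel κ t := by gcongr
  · calc vel κ t ≤ c * vel κ₁ t := h1.dn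
      _ ≤ c * (c * vel κ₂ t) := by gcongr; exact h2.dn
      _ = c ^ 2 * vel κ₂ t := by ring
      _ ≤ C * vel κ₂ t := by gcongr
  · have e1 : |crv κ₂ t - crv κ t| ≤ |crv κ₂ t - crv κ₁ t| + |crv κ₁ t - crv κ t| := by
      have := abs_add_le (crv κ₂ t - crv κ₁ t) (crv κ₁ t - crv κ t)
      rwa [sub_add_sub_cancel] at this
    have e2 : c * vel κ₁ t ^ 3 ≤ c * (c * vel κ t) ^ 3 := by
      gcongr; exact h1.up
    have e3 : c * (c * vel κ t) ^ 3 = c ^ 4 * vel κ t ^ 3 := by ring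
    have e4 : (c + c ^ 4) * vel κ t ^ 3 ≤ C * vel κ t ^ 3 := by
      gcongr; linarith
    have := h1.cr
    have := h2.cr
    nlinarith
  · obtain ⟨d1, a1, a2⟩ := h1.lg
    obtain ⟨d2, a3, a4⟩ := h2.lg
    refine ⟨d2 + d1, ?_, ?_⟩
    · have := a3.add a1
      refine this.congr_of_eventuallyEq (Eventually.of_forall fun r => ?_)
      simp only [Pi.add_apply]
      ring
    · set V := vel κ t
      set A := |crv κ t| / V ^ 2 with hA
      have hA0 : 0 ≤ A := by positivity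
      have e1 : |crv κ₁ t| ≤ A * V ^ 2 + c * V ^ 3 := by
        have h3 : |crv κ₁ t| ≤ |crv κ₁ t - crv κ t| + |crv κ t| := by
          have := abs_add_le (crv κ₁ t - crv κ t) (crv κ t)
          rwa [sub_add_cancel] at this
        have h4 : A * V ^ 2 = |crv κ t| := by
          rw [hA]; field_simp
        rw [h4]
        have := h1.cr
        linarith
      have e2 : V ^ 2 ≤ c ^ 2 * vel κ₁ t ^ 2 := by
        have := h1.dn
        calc V ^ 2 ≤ (c * vel κ₁ t) ^ 2 := by gcongr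
          _ = _ := by ring
      have e3 : |crv κ₁ t| / vel κ₁ t ^ 2 ≤ c ^ 2 * (A + c * V) := by
        rw [div_le_iff₀ (by positivity)]
        calc |crv κ₁ t| ≤ (A + c * V) * V ^ 2 := by nlinarith
          _ ≤ (A + c * V) * (c ^ 2 * vel κ₁ t ^ 2) := by gcongr
          _ = _ := by ring
      have e4 : |d2| ≤ c * (c * V + c ^ 2 * (A + c * V)) := by
        refine a4.trans ?_
        gcongr
        exact h1.up
      have e5 := abs_add_le d2 d1
      have e6 : |d2 + d1| ≤ (c + c ^ 2 + c ^ 4) * V + (c + c ^ 3) * A := by nlinarith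
      have e7 : (c + c ^ 2 + c ^ 4) * V ≤ C * V := by gcongr; linarith
      have e8 : (c + c ^ 3) * A ≤ C * A := by gcongr; linarith
      linarith

theorem ev_lt {p0 β σ : ℝ} (h : |p0 + σ| < β) : ∀ᶠ r in 𝓝 σ, |p0 + r| < β := by
  have : ContinuousAt (fun r : ℝ => |p0 + r|) σ := by fun_prop
  exact this.eventually_lt continuousAt_const h

theorem uIcc_lt {p0 β σ₁ σ₂ σ : ℝ} (h1 : |p0 + σ₁| < β) (h2 : |p0 + σ₂| < β)
    (h : σ ∈ uIcc σ₁ σ₂) : |p0 + σ| < β := by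
  rw [abs_lt] at *
  rw [mem_uIcc] at h
  rcases h with h | h
  · exact ⟨by linarith [h.1, h1.1], by linarith [h.2, h2.2]⟩
  · exact ⟨by linarith [h.1, h2.1], by linarith [h.2, h1.2]⟩

/-- the value formulas in a core -/
theorem vel_core {p q p1 q1 P' Q' v : ℝ} (hp : |p| ≤ p1) (hq : |q| ≤ q1)
    (h1 : p1 ^ 2 + q1 ^ 2 < 1) (hv0 : 0 ≤ v)
    (hv : v ^ 2 = P' ^ 2 + Q' ^ 2 + (p * P' + q * Q') ^ 2 / (1 - p ^ 2 - q ^ 2)) :
    v ≤ (1 + 1 / Real.sqrt (1 - p1 ^ 2 - q1 ^ 2)) * (|P'| + |Q'|) := by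
  set D := Real.sqrt (1 - p1 ^ 2 - q1 ^ 2) with hD
  have hD2 : D ^ 2 = 1 - p1 ^ 2 - q1 ^ 2 := Real.sq_sqrt (by linarith)
  have hD0 : 0 < D := Real.sqrt_pos.2 (by linarith)
  have hp2 : p ^ 2 ≤ p1 ^ 2 := by
    rw [← sq_abs p]; exact pow_le_pow_left₀ (abs_nonneg _) hp 2
  have hq2 : q ^ 2 ≤ q1 ^ 2 := by
    rw [← sq_abs q]; exact pow_le_pow_left₀ (abs_nonneg _) hq 2
  have hden : D ^ 2 ≤ 1 - p ^ 2 - q ^ 2 := by linarith
  have hp1 : |p| ≤ 1 := by
    rw [← sq_le_one_iff_abs_le_one]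
    nlinarith [sq_nonneg q1]
  have hq1 : |q| ≤ 1 := by
    rw [← sq_le_one_iff_abs_le_one]
    nlinarith [sq_nonneg p1]
  have h3 : |p * P' + q * Q'| ≤ |P'| + |Q'| := by
    refine (abs_add_le _ _).trans ?_
    rw [abs_mul, abs_mul]
    have := mul_le_mul_of_nonneg_right hp1 (abs_nonneg P')
    have := mul_le_mul_of_nonneg_right hq1 (abs_nonneg Q')
    linarith
  have h4 : (p * P' + q * Q') ^ 2 ≤ (|P'| + |Q'|) ^ 2 := by
    rw [← sq_abs]
    exact pow_le_pow_left₀ (abs_nonneg _) h3 2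
  have h5 : (p * P' + q * Q') ^ 2 / (1 - p ^ 2 - q ^ 2) ≤ (|P'| + |Q'|) ^ 2 / D ^ 2 := by
    gcongr
  have h6 : P' ^ 2 + Q' ^ 2 ≤ (|P'| + |Q'|) ^ 2 := by
    have := mul_nonneg (abs_nonneg P') (abs_nonneg Q')
    nlinarith [sq_abs P', sq_abs Q']
  have h7 : v ^ 2 ≤ ((1 + 1 / D) * (|P'| + |Q'|)) ^ 2 := by
    have e : ((1 + 1 / D) * (|P'| + |Q'|)) ^ 2 =
        (|P'| + |Q'|) ^ 2 + (|P'| + |Q'|) ^ 2 / D ^ 2 + 2 / D * (|P'| + |Q'|) ^ 2 := by
      field_simp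
      ring
    rw [e, hv]
    have : 0 ≤ 2 / D * (|P'| + |Q'|) ^ 2 := by positivity
    linarith
  exact (pow_le_pow_iff_left₀ hv0 (by positivity) two_ne_zero).1 h7

theorem evoGen {b s : ℝ} (hc : Ctx b s) {S1 S2 : XS → XS} {E : Bool → ℝ → ℝ → XS}
    {βp βq sg p1 q1 c η ε : ℝ} {gp gq : V3 → ℝ}
    (h : Two b s S1 S2 E βp βq sg p1 q1 c η ε gp gq) {C : ℝ}
    (hC : c + c ^ 2 + c ^ 3 + c ^ 4 ≤ C)
    (hC' : 1 + 1 / Real.sqrt (1 - p1 ^ 2 - q1 ^ 2) ≤ C) :
    EvoAx (fun z => S2 (S1 z)) E βp βq sg p1 q1 C η := by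
  intro j0 p0 q0 hp0 hq0
  have hc1 := h.c1
  have hq0' : |q0| < βq := lt_of_le_of_lt hq0 h.qb
  obtain ⟨z, hz⟩ : ∃ z : ℕ → ℝ → XS, z = fun k r => (fun z => S2 (S1 z))^[k] (E j0 (p0 + r) q0) :=
    ⟨_, rfl⟩
  have hz0 : z 0 = fun r => E j0 (p0 + r) q0 := by rw [hz]; rfl
  have hz1 : ∀ k, z (k + 1) = fun r => S2 (S1 (z k r)) := by
    intro k
    funext r
    rw [hz]
    exact Function.iterate_succ_apply' _ _ _
  have hcan : ∀ (k : ℕ) (r : ℝ), |p0 + r| < βp → Can b s (z k r) := by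
    intro k
    induction k with
    | zero => intro r hr; rw [hz0]; exact h.canE _ _ _ hr hq0'
    | succ k ih => intro r hr; rw [hz1]; exact h.can2 _ (h.can1 _ (ih r hr))
  have hcanE : ∀ (k : ℕ) (σ : ℝ), |p0 + σ| < βp → ∀ᶠ r in 𝓝 σ, Can b s (z k r) := by
    intro k σ hσ
    filter_upwards [ev_lt hσ] with r hr
    exact hcan k r hr
  have hcanE1 : ∀ (k : ℕ) (σ : ℝ), |p0 + σ| < βp → ∀ᶠ r in 𝓝 σ, Can b s (S1 (z k r)) := by
    intro k σ hσ
    filter_upwards [ev_lt hσ] with r hr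
    exact h.can1 _ (hcan k r hr)
  -- the step
  have step : ∀ (k : ℕ) (σ : ℝ) (κ : ℝ → V3), |p0 + σ| < βp → Lift b s (z k) κ σ →
      deriv κ σ ≠ 0 → ∃ κ₁ κ₂ : ℝ → V3, Lift b s (fun r => S1 (z k r)) κ₁ σ ∧
        Lift b s (z (k + 1)) κ₂ σ ∧ Rel b s c ε κ κ₁ σ ∧ Rel b s c ε κ₁ κ₂ σ ∧
        (∀ (j : Bool) (p q : ℝ), |p| ≤ p1 → |q| ≤ q1 → z k σ = E j p q →
          ε * nsq b s κ σ + η * gp (deriv κ σ) ^ 2 ≤ ε * nsq b s κ₁ σ) ∧
        (∀ (j : Bool) (p q : ℝ), |p| ≤ p1 → |q| ≤ q1 → z (k + 1) σ = E j p q →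
          ε * nsq b s κ₁ σ + η * gq (deriv κ₂ σ) ^ 2 ≤ ε * nsq b s κ₂ σ) := by
    intro k σ κ hσ hκ hne
    obtain ⟨κ₁, a1, a2, a3⟩ := h.st1 (z k) κ σ (hcanE k σ hσ) hκ hne
    obtain ⟨κ₂, b1, b2, b3⟩ := h.st2 (fun r => S1 (z k r)) κ₁ σ (hcanE1 k σ hσ) a1 a2.ne
    refine ⟨κ₁, κ₂, a1, ?_, a2, b2, a3, ?_⟩
    · rw [hz1]; exact b1
    · rw [hz1]; exact b3
  have main : ∀ (k : ℕ) (σ : ℝ), |p0 + σ| < βp → ∃ κ : ℝ → V3, Lift b s (z k) κ σ ∧
      deriv κ σ ≠ 0 ∧ 0 ≤ ε * nsq b s κ σ := by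
    intro k
    induction k with
    | zero =>
      intro σ hσ
      obtain ⟨κ, a1, -⟩ := h.ini j0 p0 q0 hq0
      obtain ⟨a2, a3, a4⟩ := a1 σ hσ
      refine ⟨κ, ?_, a3, ?_⟩
      · rw [hz0]; exact a2
      · rw [a4, mul_zero]
    | succ k ih =>
      intro σ hσ
      obtain ⟨κ, a1, a2, a3⟩ := ih σ hσ
      obtain ⟨κ₁, κ₂, -, b2, b3, b4, -, -⟩ := step k σ κ hσ a1 a2
      exact ⟨κ₂, b2, b4.ne, a3.trans (b3.nm.trans b4.nm)⟩
  have hI := inv_nsq hc.nr
  have hIq : Inv (fun κ t => gq (deriv κ t) ^ 2) := by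
    refine ⟨fun κ κ' t e => ?_, fun κ t => ?_⟩
    · simp only [e.deriv_eq]
    · simp only [deriv_rho, h.gqr]
  have hcc : c ≤ C := by
    have : 0 ≤ c ^ 2 := by positivity
    have : 0 ≤ c ^ 3 := by positivity
    have : 0 ≤ c ^ 4 := by positivity
    linarith
  have hpq1 : p1 ^ 2 + q1 ^ 2 < 1 := by
    have := h.pb
    have := h.qb
    have := h.bb
    have := h.p0
    have := h.q0
    nlinarith
  refine ⟨fun k => val b s vel (z k), fun k => val b s crv (z k),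
    fun k σ => Real.sqrt (ε * val b s (nsq b s) (z k) σ),
    fun k σ => Real.sqrt (ε * val b s (nsq b s) (fun r => S1 (z k r)) σ),
    ?_, ?_, ?_, ?_, ?_, ?_, ?_, ?_, ?_, ?_⟩
  · -- v_pos
    intro k σ hσ
    obtain ⟨κ, a1, a2, a3⟩ := main k σ hσ
    rw [val_eq hc inv_vel a1]
    exact vel_pos a2
  · -- v_cont
    intro k σ hσ
    obtain ⟨κ, a1, a2, a3⟩ := main k σ hσ
    exact ((vel_cont a1).congr ((val_ev hc inv_vel a1).mono fun r hr => hr.symm)).continuousWithinAt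
  · -- v_up
    intro k σ hσ
    obtain ⟨κ, a1, a2, a3⟩ := main k σ hσ
    obtain ⟨κ₁, κ₂, -, b2, b3, b4, -, -⟩ := step k σ κ hσ a1 a2
    simp only [val_eq hc inv_vel a1, val_eq hc inv_vel b2]
    exact (two_rel hc1 hC a2 b3 b4).1
  · -- v_down
    intro k σ hσ
    obtain ⟨κ, a1, a2, a3⟩ := main k σ hσ
    obtain ⟨κ₁, κ₂, -, b2, b3, b4, -, -⟩ := step k σ κ hσ a1 a2
    simp only [val_eq hc inv_vel a1, val_eq hc inv_vel b2]
    exact (two_rel hc1 hC a2 b3 b4).2.1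
  · -- A_step
    intro k σ hσ
    obtain ⟨κ, a1, a2, a3⟩ := main k σ hσ
    obtain ⟨κ₁, κ₂, -, b2, b3, b4, -, -⟩ := step k σ κ hσ a1 a2
    simp only [val_eq hc inv_vel a1, val_eq hc inv_crv a1, val_eq hc inv_crv b2]
    exact (two_rel hc1 hC a2 b3 b4).2.2.1
  · -- log_step
    intro k σ hσ
    obtain ⟨κ, a1, a2, a3⟩ := main k σ hσ
    obtain ⟨κ₁, κ₂, -, b2, b3, b4, -, -⟩ := step k σ κ hσ a1 a2
    obtain ⟨d, e1, e2⟩ := (two_rel hc1 hC a2 b3 b4).2.2.2
    refine ⟨d, e1.congr_of_eventuallyEq ?_, ?_⟩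
    · filter_upwards [val_ev hc inv_vel a1, val_ev hc inv_vel b2] with r h1 h2
      rw [h1, h2]
    · simp only [val_eq hc inv_vel a1, val_eq hc inv_crv a1]
      exact e2
  · -- N_mono
    intro k σ hσ
    obtain ⟨κ, a1, a2, a3⟩ := main k σ hσ
    obtain ⟨κ₁, κ₂, b1, b2, b3, b4, -, -⟩ := step k σ κ hσ a1 a2
    simp only [val_eq hc hI a1, val_eq hc hI b1, val_eq hc hI b2]
    exact ⟨Real.sqrt_nonneg _, Real.sqrt_le_sqrt b3.nm, Real.sqrt_le_sqrt b4.nm⟩
  · -- init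
    intro σ hσ
    obtain ⟨κ, a1, a2⟩ := h.ini j0 p0 q0 hq0
    obtain ⟨a3, -, -⟩ := a1 σ (lt_of_le_of_lt hσ h.pb)
    obtain ⟨b1, b2, b3, d, b4, b5⟩ := a2 σ hσ
    rw [← hz0] at a3
    simp only [val_eq hc inv_vel a3, val_eq hc inv_crv a3]
    refine ⟨b1, b2.trans hcc, b3.trans hcc, d, b4.congr_of_eventuallyEq ?_, b5.trans hcc⟩
    filter_upwards [val_ev hc inv_vel a3] with r h1
    rw [h1]
  · -- chart
    intro k σ j p q hσ hp hq he
    have he' : z k σ = E j p q := by rw [hz]; exact he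
    obtain ⟨κ, a1, a2, a3⟩ := main k σ hσ
    obtain ⟨κ₁, κ₂, b1, b2, b3, b4, b5, -⟩ := step k σ κ hσ a1 a2
    obtain ⟨P, Q, c1, c2, c3, c4, c5, c6, c7, c8, c9⟩ := h.chrt (z k) κ σ j p q a1 hp hq he'
    have hv0 := vel_pos a2
    have hpq : 0 < 1 - p ^ 2 - q ^ 2 := by
      have := h.bb
      have h1 : p ^ 2 < βp ^ 2 := by
        rw [← sq_abs p]; exact pow_lt_pow_left₀ hp (abs_nonneg _) two_ne_zero
      have h2 : q ^ 2 < βq ^ 2 := by
        rw [← sq_abs q]; exact pow_lt_pow_left₀ hq (abs_nonneg _) two_ne_zero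
      linarith
    have hD : 0 < Real.sqrt (1 - p ^ 2 - q ^ 2) := Real.sqrt_pos.2 hpq
    have hsg : 0 ≤ sg * (deriv P σ * deriv Q σ) := by
      rw [← c9]; exact mul_nonneg a3 hD.le
    have hN : Real.sqrt (ε * nsq b s κ σ) ^ 2 = ε * nsq b s κ σ := Real.sq_sqrt a3
    have hN1 : Real.sqrt (ε * nsq b s κ₁ σ) ^ 2 = ε * nsq b s κ₁ σ :=
      Real.sq_sqrt (a3.trans b3.nm)
    simp only [val_eq hc inv_vel a1, val_eq hc hI a1, val_eq hc hI b1]
    refine ⟨P, Q, deriv P, deriv Q, c1, c2, ?_, ?_, ?_, hsg, ?_, ?_, ?_⟩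
    · have d1 := c3.eventually (by decide)
      have d2 := c4.eventually (by decide)
      filter_upwards [c5, d1, d2] with r h1 h2 h3
      refine ⟨?_, (h2.differentiableAt (by decide)).hasDerivAt,
        (h3.differentiableAt (by decide)).hasDerivAt⟩
      rw [hz] at h1
      exact h1
    · exact (c3.derivWithin (m := 1) (by norm_num)).continuousAt
    · exact (c4.derivWithin (m := 1) (by norm_num)).continuousAt
    · rw [c8]
      have : 0 ≤ (p * deriv P σ + q * deriv Q σ) ^ 2 / (1 - p ^ 2 - q ^ 2) := by positivity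
      linarith
    · rw [hN, c9, ← abs_of_nonneg hsg]
      rcases h.sg1 with e | e
      · rw [e, one_mul]
      · rw [e, neg_one_mul, abs_neg]
    · intro hp' hq'
      refine ⟨?_, ?_, ?_⟩
      · refine (vel_core hp' hq' hpq1 hv0.le c8).trans ?_
        gcongr
      · rw [hN, hN1, ← c6]
        exact b5 j p q hp' hq' he'
      · intro i hi
        subst hi
        obtain ⟨κi, x1, x2, x3⟩ := main i σ hσ
        obtain ⟨κ₁', κ₂', y1, y2, y3, y4, -, y6⟩ := step i σ κi hσ x1 x2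
        rw [val_eq hc hI y1]
        have e1 : Real.sqrt (ε * nsq b s κ₁' σ) ^ 2 = ε * nsq b s κ₁' σ :=
          Real.sq_sqrt (x3.trans y3.nm)
        rw [e1, hN, ← c7]
        have e2 : nsq b s κ₂' σ = nsq b s κ σ := by
          rw [← val_eq hc hI y2, val_eq hc hI a1]
        have e3 : gq (deriv κ₂' σ) ^ 2 = gq (deriv κ σ) ^ 2 := by
          have f1 := val_eq hc hIq y2
          have f2 := val_eq hc hIq a1
          exact f1.symm.trans f2
        have := y6 j p q hp' hq' he'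
        rw [e2, e3] at this
        exact this
  · -- path
    intro k σ₁ σ₂ δ j p q h1 h2 h3 h4 h5 h6 σ hσ
    have he' : z k σ₁ = E j p q := by rw [hz]; exact h5
    have := h.pth (z k) (val b s vel (z k)) σ₁ σ₂ δ j p q ?_ ?_ h3 h4 he' h6 σ hσ
    · rw [hz] at this
      exact this
    · intro r hr
      obtain ⟨κ, a1, -⟩ := main k r (uIcc_lt h1 h2 hr)
      exact ⟨κ, a1⟩
    · intro r hr κ hκ
      exact val_eq hc inv_vel hκ

/-! ## The charts -/

theorem sq_lt {a r : ℝ} (h : |a| < r) : a ^ 2 < r ^ 2 := by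
  rw [← sq_abs a]
  exact pow_lt_pow_left₀ h (abs_nonneg _) two_ne_zero

theorem can_chX {b s : ℝ} (hsb : s ^ 2 + b ^ 2 = 1) (j : Bool) {x c : ℝ} (hx : |x| < b)
    (hc : |c| < s) : Can b s (chX j x c) := by
  have h1 := sq_lt hx
  have h2 := sq_lt hc
  have h3 : 0 < 1 - x ^ 2 - c ^ 2 := by linarith
  have h4 : 0 < Real.sqrt (1 - x ^ 2 - c ^ 2) := Real.sqrt_pos.2 h3
  refine ⟨?_, Or.inl ⟨?_, Or.inl ?_⟩⟩
  · simp only [chX, dot]
    have := Real.mul_self_sqrt h3.le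
    nlinarith
  · cases j <;> simp [chX]
  · simp only [chX]
    linarith

theorem chart_coord {b s : ℝ} (hb : 0 < b) (hs : 0 < s) (hsb : s ^ 2 + b ^ 2 = 1)
    (hCH : SpecCHRT) {z : ℝ → XS} {κ : ℝ → V3} {t : ℝ} {j : Bool} {x c : ℝ}
    (h : Lift b s z κ t) (hx : |x| < b) (hc : |c| < s) (he : z t = chX j x c) :
    ∃ X C : ℝ → ℝ, X t = x ∧ C t = c ∧ ContDiffAt ℝ 2 X t ∧ ContDiffAt ℝ 2 C t ∧
      (∀ᶠ r in 𝓝 t, z r = chX j (X r) (C r)) ∧
      (deriv κ t).1 ^ 2 = deriv X t ^ 2 ∧ (deriv κ t).2.2 ^ 2 = deriv C t ^ 2 ∧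
      vel κ t ^ 2 = deriv X t ^ 2 + deriv C t ^ 2 +
        (x * deriv X t + c * deriv C t) ^ 2 / (1 - x ^ 2 - c ^ 2) ∧
      nsq b s κ t = -(deriv X t * deriv C t) / Real.sqrt (1 - x ^ 2 - c ^ 2) := by
  obtain ⟨X, C, a1, a2, a3, a4, a5, a6, a7⟩ := hCH b s hb hs hsb z κ t j x c h hx hc he
  refine ⟨X, C, a1, a2, a3, a4, a5, ?_, ?_, a6, a7⟩
  · have e1 : (fun r => (κ r).1) =ᶠ[𝓝 t] X := by
      filter_upwards [lift_pt h, a5] with r h1 h2
      rw [h2] at h1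
      rcases h1 with e | e
      · exact (congrArg Prod.fst e).symm
      · exact (congrArg Prod.fst e).symm
    rw [← e1.deriv_eq, (JetM.fst' (lift_diff h)).deriv]
  · have h1 := sq_lt hx
    have h2 := sq_lt hc
    have h3 : 0 < 1 - x ^ 2 - c ^ 2 := by linarith
    have h4 : 0 < Real.sqrt (1 - x ^ 2 - c ^ 2) := Real.sqrt_pos.2 h3
    have hcont : ContinuousAt (fun r => (κ r).2.1) t :=
      (JetM.fst2 (JetM.snd' (lift_diff h))).continuousAt
    have hD : (κ t).2.1 ≠ 0 := by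
      intro h0
      rcases (lift_pt h).self_of_nhds with e | e
      · rw [he] at e
        have := congrArg (fun n : V3 => n.2.1) e
        simp only [chX, h0] at this
        linarith
      · rw [he] at e
        have := congrArg (fun n : V3 => n.2.1) e
        simp only [chX, rho, h0] at this
        linarith
    rcases lt_or_gt_of_ne hD with hD | hD
    · have e1 : (fun r => (κ r).2.2) =ᶠ[𝓝 t] C := by
        filter_upwards [lift_pt h, a5, hcont.eventually_lt continuousAt_const hD] with r h5 h6 h7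
        rw [h6] at h5
        rcases h5 with e | e
        · exact (congrArg (fun n : V3 => n.2.2) e).symm
        · exfalso
          have := congrArg (fun n : V3 => n.2.1) e
          simp only [chX, rho] at this
          have := Real.sqrt_nonneg (1 - X r ^ 2 - C r ^ 2)
          linarith
      rw [← e1.deriv_eq, (JetM.snd2 (JetM.snd' (lift_diff h))).deriv]
    · have e1 : (fun r => -(κ r).2.2) =ᶠ[𝓝 t] C := by
        filter_upwards [lift_pt h, a5, continuousAt_const.eventually_lt hcont hD] with r h5 h6 h7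
        rw [h6] at h5
        rcases h5 with e | e
        · exfalso
          have := congrArg (fun n : V3 => n.2.1) e
          simp only [chX] at this
          have := Real.sqrt_nonneg (1 - X r ^ 2 - C r ^ 2)
          linarith
        · exact (congrArg (fun n : V3 => n.2.2) e).symm
      rw [← e1.deriv_eq, (JetM.snd2 (JetM.snd' (lift_diff h))).fun_neg.deriv, neg_sq]

/-- label and first coordinate of the points of the near squares -/
theorem chX_near {b : ℝ} {z : XS} {j : Bool} {x c : ℝ} (h : z = chX j x c) (hx : |x| < b) :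
    (z.1 = 0 ∨ z.1 = 2) ∧ |z.2.1| < b := by
  subst h
  refine ⟨?_, hx⟩
  cases j <;> simp [chX]

/-! ## The two pairs of sub-steps -/

section
variable {b s x1 c1 c η : ℝ} {F G : ℝ → ℝ}

theorem two_forward (hctx : Ctx b s) (hSP : SpecSTEPP) (hSQ : SpecSTEPQ) (hCH : SpecCHRT)
    (hPTH : SpecPTH) (hx0 : 0 < x1) (hx1 : x1 < b) (hc0 : 0 < c1) (hc1 : c1 < s) (hc : 1 ≤ c)
    (t1 : TwP s F) (t3 : TwQ b G)
    (cP : ∀ z : XS, Can b s z → Can b s (PP s F z))
    (cQ : ∀ z : XS, Can b s z → Can b s (QQ b G z))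
    (kP : Kick b s c 1 η (Kp F) (dKp F) (fun n => n.2.2) c1)
    (kQ : Kick b s c 1 η (Kq G) (dKq G) (fun n => n.1) x1)
    (hini : ∀ (j : Bool) (p0 q0 : ℝ), |q0| ≤ c1 → ∃ κ : ℝ → V3,
      (∀ σ : ℝ, |p0 + σ| < b → Lift b s (fun r => chX j (p0 + r) q0) κ σ ∧
        deriv κ σ ≠ 0 ∧ nsq b s κ σ = 0) ∧
      (∀ σ : ℝ, |p0 + σ| ≤ x1 → 1 ≤ vel κ σ ∧ vel κ σ ≤ c ∧ |crv κ σ| ≤ c ∧
        ∃ d : ℝ, HasDerivAt (fun r => Real.log (vel κ r)) d σ ∧ |d| ≤ c)) :
    Two b s (QQ b G) (PP s F) chX b s (-1) x1 c1 c η 1 (fun m => m.1) (fun m => m.2.2) := by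
  refine ⟨hc, hx1, hc1, by linarith [hctx.sb], hx0, hc0, Or.inr rfl, fun m => by simp [rho],
    fun j p q hp hq => can_chX hctx.sb j hp hq, cQ, cP, ?_, ?_, ?_, ?_, hini⟩
  · intro z κ t hcan hκ hne
    obtain ⟨κ', a1, a2, -, -, a5⟩ := stepQ hctx hSQ t3 hc kQ hcan hκ hne
    refine ⟨κ', a1, a2, ?_⟩
    intro j p q hp hq he
    obtain ⟨n1, n2⟩ := chX_near (b := b) he (lt_of_le_of_lt hp hx1)
    refine a5 n1 n2 ?_
    rw [← lift_fst hκ, he]
    exact hp
  · intro z κ t hcan hκ hne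
    obtain ⟨κ', a1, a2, a3, a4, a5⟩ := stepP hctx hSP t1 kP hcan hκ hne
    refine ⟨κ', a1, a2, ?_⟩
    intro j p q hp hq he
    rw [a4]
    apply a5
    rw [← a3, ← lift_abs a1, he]
    exact hq
  · intro z κ t j p q hκ hp hq he
    obtain ⟨X, C, b1, b2, b3, b4, b5, b6, b7, b8, b9⟩ :=
      chart_coord hctx.b0 hctx.s0 hctx.sb hCH hκ hp hq he
    refine ⟨X, C, b1, b2, b3, b4, b5, b6, b7, b8, ?_⟩
    have h1 := sq_lt hp
    have h2 := sq_lt hq
    have h3 : 0 < 1 - p ^ 2 - q ^ 2 := by linarith [hctx.sb]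
    have h4 : 0 < Real.sqrt (1 - p ^ 2 - q ^ 2) := Real.sqrt_pos.2 h3
    rw [b9, one_mul, div_mul_cancel₀ _ h4.ne']
    ring
  · intro z v r₁ r₂ δ j p q g1 g2 g3 g4 g5 g6 r hr
    exact hPTH b s hctx.b0 hctx.s0 hctx.sb z v r₁ r₂ δ j p q g1 g2 g3 g4 g5 g6 r hr

theorem two_backward (hctx : Ctx b s) (hSP : SpecSTEPP) (hSQ : SpecSTEPQ) (hCH : SpecCHRT)
    (hPTH : SpecPTH) (hx0 : 0 < x1) (hx1 : x1 < b) (hc0 : 0 < c1) (hc1 : c1 < s) (hc : 1 ≤ c)
    (t1 : TwP s F) (t3 : TwQ b G)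
    (cP : ∀ z : XS, Can b s z → Can b s (PP s F z))
    (cQ : ∀ z : XS, Can b s z → Can b s (QQ b G z))
    (kP : Kick b s c (-1) η (Kp F) (dKp F) (fun n => n.2.2) c1)
    (kQ : Kick b s c (-1) η (Kq G) (dKq G) (fun n => n.1) x1)
    (hini : ∀ (j : Bool) (p0 q0 : ℝ), |q0| ≤ x1 → ∃ κ : ℝ → V3,
      (∀ σ : ℝ, |p0 + σ| < s → Lift b s (fun r => chX j q0 (p0 + r)) κ σ ∧
        deriv κ σ ≠ 0 ∧ nsq b s κ σ = 0) ∧
      (∀ σ : ℝ, |p0 + σ| ≤ c1 → 1 ≤ vel κ σ ∧ vel κ σ ≤ c ∧ |crv κ σ| ≤ c ∧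
        ∃ d : ℝ, HasDerivAt (fun r => Real.log (vel κ r)) d σ ∧ |d| ≤ c)) :
    Two b s (PP s F) (QQ b G) (flp chX) s b 1 c1 x1 c η (-1) (fun m => m.2.2)
      (fun m => m.1) := by
  refine ⟨hc, hc1, hx1, hctx.sb, hc0, hx0, Or.inl rfl, fun m => by simp [rho],
    fun j p q hp hq => can_chX hctx.sb j hq hp, cP, cQ, ?_, ?_, ?_, ?_, hini⟩
  · intro z κ t hcan hκ hne
    obtain ⟨κ', a1, a2, -, -, a5⟩ := stepP hctx hSP t1 kP hcan hκ hne
    refine ⟨κ', a1, a2, ?_⟩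
    intro j p q hp hq he
    apply a5
    rw [← lift_abs hκ, he]
    exact hp
  · intro z κ t hcan hκ hne
    obtain ⟨κ', a1, a2, a3, a4, a5⟩ := stepQ hctx hSQ t3 hc kQ hcan hκ hne
    refine ⟨κ', a1, a2, ?_⟩
    intro j p q hp hq he
    have hn : ((z t).1 = 0 ∨ (z t).1 = 2) ∧ |(z t).2.1| < b := by
      have hi := chX_near (b := b) (show QQ b G (z t) = chX j q p from he)
        (lt_of_le_of_lt hq hx1)
      by_cases hcond : (z t).1 % 2 = 0 ∧ |(z t).2.1| < b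
      · refine ⟨?_, hcond.2⟩
        have hcn := hcan.self_of_nhds
        rcases hcn.2 with g | g
        · exact g.1
        · rcases g.1 with g | g <;> rw [g] at hcond <;> exact absurd hcond.1 (by decide)
      · have e : QQ b G (z t) = z t := by
          unfold QQ
          rw [if_neg hcond]
        rw [e] at hi
        exact hi
    rw [a4]
    refine a5 hn.1 hn.2 ?_
    rw [← a3, ← lift_fst a1, he]
    exact hq
  · intro z κ t j p q hκ hp hq he
    obtain ⟨X, C, b1, b2, b3, b4, b5, b6, b7, b8, b9⟩ :=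
      chart_coord hctx.b0 hctx.s0 hctx.sb hCH hκ hq hp he
    refine ⟨C, X, b2, b1, b4, b3, b5, b7, b6, ?_, ?_⟩
    · rw [b8, show 1 - p ^ 2 - q ^ 2 = 1 - q ^ 2 - p ^ 2 by ring]
      ring
    · have h1 := sq_lt hp
      have h2 := sq_lt hq
      have h3 : 0 < 1 - q ^ 2 - p ^ 2 := by linarith [hctx.sb]
      have h4 : 0 < Real.sqrt (1 - q ^ 2 - p ^ 2) := Real.sqrt_pos.2 h3
      rw [show 1 - p ^ 2 - q ^ 2 = 1 - q ^ 2 - p ^ 2 by ring, b9]
      field_simp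
  · intro z v r₁ r₂ δ j p q g1 g2 g3 g4 g5 g6 r hr
    obtain ⟨x', c', w1, w2, w3⟩ :=
      hPTH b s hctx.b0 hctx.s0 hctx.sb z v r₁ r₂ δ j q p g1 g2 g4 g3 g5 g6 r hr
    exact ⟨c', x', w2, w1, w3⟩

end

end EvoM

theorem specEVO (hJET : SpecJET) (hNORM : SpecNORM) (hL1 : SpecL1) (hSP : SpecSTEPP)
    (hSQ : SpecSTEPQ) (hCH : SpecCHRT) (hPTH : SpecPTH) (hINI : SpecINI) (hSX1 : SpecSX1) :
    SpecEVO := by
  intro b s F G hT x1 c1 hx0 hx1 hc0 hc1
  have hb := hT.b0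
  have hs := hT.s0
  have hsb := hT.sb
  obtain ⟨n1, -, n3, n4⟩ := hNORM b s F G hT
  obtain ⟨η, hη, hg⟩ := n4 x1 c1 hx1 hc1
  obtain ⟨l1, l2, -, -⟩ := hL1 b s hb hs hsb
  have hctx : EvoM.Ctx b s := ⟨hb, hs, hsb, l1, l2, n3⟩
  obtain ⟨t1, t2, t3, t4, cP, cQ, -⟩ := hSX1 b s F G hT
  obtain ⟨C1, hC1, J1⟩ := hJET F hT.F_smooth
  obtain ⟨C2, hC2, J2⟩ := hJET (fun c => F (-c)) t2.smooth
  obtain ⟨C3, hC3, J3⟩ := hJET G hT.G_smooth
  obtain ⟨C4, hC4, J4⟩ := hJET (fun x => -G x) t4.smooth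
  obtain ⟨C5, hC5, I5⟩ := hINI b s x1 c1 hb hs hsb hx0 hx1 hc0 hc1
  set c := C1 + C2 + C3 + C4 + C5 with hcdef
  have hc : 1 ≤ c := by linarith
  have K1 : JetM.Jet (Kp F) (dKp F) c :=
    EvoM.jet_mono (J1 _ _ (Or.inl ⟨rfl, rfl⟩)) (by linarith)
  have K2 : JetM.Jet (Kp fun c => F (-c)) (dKp fun c => F (-c)) c :=
    EvoM.jet_mono (J2 _ _ (Or.inl ⟨rfl, rfl⟩)) (by linarith)
  have K3 : JetM.Jet (Kq G) (dKq G) c :=
    EvoM.jet_mono (J3 _ _ (Or.inr ⟨rfl, rfl⟩)) (by linarith)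
  have K4 : JetM.Jet (Kq fun x => -G x) (dKq fun x => -G x) c :=
    EvoM.jet_mono (J4 _ _ (Or.inr ⟨rfl, rfl⟩)) (by linarith)
  have m1 := fun n m a1 a2 a3 => (n1 n m a1 a2 a3).1
  have m2 := fun n m a1 a2 a3 => (n1 n m a1 a2 a3).2
  have g1 := fun n m a1 a2 => (hg n m a1 a2).1
  have g2 := fun n m a1 a2 => (hg n m a1 a2).2
  have kPf := EvoM.kickPf m1 g1 K1
  have kPb := EvoM.kickPb hT.F_neg m1 g1 K2
  have kQf := EvoM.kickQf m2 g2 K3
  have kQb := EvoM.kickQb m2 g2 K4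
  have c5 : C5 ≤ c := by linarith
  have two1 := EvoM.two_forward hctx hSP hSQ hCH hPTH hx0 hx1 hc0 hc1 hc t1 t3 (cP _ t1)
    (cQ _ t3) kPf kQf (fun j p0 q0 hq => by
      obtain ⟨κ, a1, a2⟩ := (I5 j p0 q0).1 hq
      refine ⟨κ, a1, fun σ hσ => ?_⟩
      obtain ⟨b1, b2, b3, d, b4, b5⟩ := a2 σ hσ
      exact ⟨b1, b2.trans c5, b3.trans c5, d, b4, b5.trans c5⟩)
  have two2 := EvoM.two_backward hctx hSP hSQ hCH hPTH hx0 hx1 hc0 hc1 hc t2 t4 (cP _ t2)
    (cQ _ t4) kPb kQb (fun j p0 q0 hq => by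
      obtain ⟨κ, a1, a2⟩ := (I5 j q0 p0).2 hq
      refine ⟨κ, a1, fun σ hσ => ?_⟩
      obtain ⟨b1, b2, b3, d, b4, b5⟩ := a2 σ hσ
      exact ⟨b1, b2.trans c5, b3.trans c5, d, b4, b5.trans c5⟩)
  have p2 : 0 ≤ c ^ 2 := by positivity
  have p3 : 0 ≤ c ^ 3 := by positivity
  have p4 : 0 ≤ c ^ 4 := by positivity
  have p5 : 0 ≤ 1 / Real.sqrt (1 - x1 ^ 2 - c1 ^ 2) := by positivity
  refine ⟨c + c ^ 2 + c ^ 3 + c ^ 4 + (1 + 1 / Real.sqrt (1 - x1 ^ 2 - c1 ^ 2)), η,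
    by linarith, hη, ?_, ?_⟩
  · exact EvoM.evoGen hctx two1 (by linarith) (by linarith)
  · refine EvoM.evoGen hctx two2 (by linarith) ?_
    rw [show 1 - c1 ^ 2 - x1 ^ 2 = 1 - x1 ^ 2 - c1 ^ 2 by ring]
    linarith

end Pool.Agent.Lib.MP_d2b992_gt.Dyn
end

section
/-!
# STEPQ: the map `Q` maps paths to paths
-/
set_option autoImplicit false

open MeasureTheory Filter Topology Set
open scoped ContDiff

namespace Pool.Agent.Lib.MP_d2b992_gt.Dyn

namespace StepqM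

theorem rho_rho (n : V3) : rho (rho n) = n := by
  rcases n with ⟨x, D, c⟩
  simp [rho]

theorem rho_x (n : V3) : (rho n).1 = n.1 := rfl
theorem rho_D (n : V3) : (rho n).2.1 = -n.2.1 := rfl
theorem rho_c (n : V3) : (rho n).2.2 = -n.2.2 := rfl

theorem dot_rho (n : V3) : dot (rho n) (rho n) = dot n n := by
  simp only [dot, rho]; ring

theorem Kq_x (Ψ : ℝ → ℝ) (n : V3) : (Kq Ψ n).1 = n.1 := rfl

theorem Kq_rho (Ψ : ℝ → ℝ) (n : V3) : Kq Ψ (rho n) = rho (Kq Ψ n) := by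
  simp only [Kq, rho, Prod.mk.injEq, true_and]
  constructor <;> ring

theorem dot_Kq (Ψ : ℝ → ℝ) (n : V3) : dot (Kq Ψ n) (Kq Ψ n) = dot n n := by
  simp only [dot, Kq]
  have h := Real.sin_sq_add_cos_sq (Ψ n.1)
  linear_combination (n.2.1 ^ 2 + n.2.2 ^ 2) * h

theorem Kq_zero (Ψ : ℝ → ℝ) (n : V3) (h : Ψ n.1 = 0) : Kq Ψ n = n := by
  rcases n with ⟨x, D, c⟩
  simp only at h
  simp [Kq, h]

theorem Kq_pi (Ψ : ℝ → ℝ) (n : V3) (h : Ψ n.1 = Real.pi ∨ Ψ n.1 = -Real.pi) :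
    Kq Ψ n = rho n := by
  rcases n with ⟨x, D, c⟩
  simp only at h
  rcases h with h | h <;> simp [Kq, rho, h]

theorem secQ_rho (j : ℤ) (n : V3) (h : ¬ (n.2.1 = 0 ∧ n.2.2 = 0)) :
    secQ j (rho n) = secQ j n := by
  unfold secQ
  simp only [rho_D, rho_c, rho_rho]
  by_cases h1 : n.2.1 < 0 ∨ (n.2.1 = 0 ∧ 0 < n.2.2)
  · have h2 : ¬ (-n.2.1 < 0 ∨ (-n.2.1 = 0 ∧ 0 < -n.2.2)) := by
      rcases h1 with h1 | ⟨h1, h1'⟩
      · rintro (h2 | ⟨h2, _⟩) <;> linarith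
      · rintro (h2 | ⟨_, h2⟩) <;> linarith
    rw [if_neg h2, if_pos h1]
  · have h2 : -n.2.1 < 0 ∨ (-n.2.1 = 0 ∧ 0 < -n.2.2) := by
      by_contra h2
      apply h
      push Not at h1 h2
      obtain ⟨a1, a2⟩ := h1
      obtain ⟨b1, b2⟩ := h2
      have e : n.2.1 = 0 := le_antisymm (by linarith) a1
      refine ⟨e, le_antisymm (a2 e) ?_⟩
      have := b2 (by rw [e]; simp)
      linarith
    rw [if_pos h2, if_neg h1]

theorem secQ_neg (j : ℤ) (n : V3) (h : n.2.1 < 0) : secQ j n = (j, n) := by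
  unfold secQ
  rw [if_pos (Or.inl h)]

theorem secQ_pos (j : ℤ) (n : V3) (h : 0 < n.2.1) : secQ j n = (j, rho n) := by
  unfold secQ
  rw [if_neg]
  rintro (h1 | ⟨h1, _⟩) <;> linarith

theorem secQ_fst (j : ℤ) (n : V3) : (secQ j n).1 = j := by
  unfold secQ
  split_ifs <;> rfl

theorem secQ_x (j : ℤ) (n : V3) : (secQ j n).2.1 = n.1 := by
  unfold secQ
  split_ifs <;> rfl

theorem secQ_snd (j : ℤ) (n : V3) : (secQ j n).2 = n ∨ (secQ j n).2 = rho n := by
  unfold secQ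
  split_ifs
  · exact Or.inl rfl
  · exact Or.inr rfl

theorem secF_fst (n : V3) : (secF n).1 = 1 ∨ (secF n).1 = 3 := by
  unfold secF
  split_ifs
  · exact Or.inl rfl
  · exact Or.inr rfl

theorem not_both {b : ℝ} (hb : b < 1) (n : V3) (hn : dot n n = 1) (hx : |n.1| < b) :
    ¬ (n.2.1 = 0 ∧ n.2.2 = 0) := by
  rintro ⟨h1, h2⟩
  simp only [dot, h1, h2] at hn
  have h3 : |n.1| < 1 := lt_trans hx hb
  have h4 : n.1 ^ 2 < 1 := by
    have := sq_lt_one_iff_abs_lt_one (n.1)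
    exact this.2 h3
  nlinarith

/-- the second coordinate of `QQ` on near points -/
theorem QQ_secQ {b : ℝ} (hb : b < 1) (Ψ : ℝ → ℝ) (j : ℤ) (hj : j = 0 ∨ j = 2) (n : V3)
    (hn : dot n n = 1) (hx : |n.1| < b) : QQ b Ψ (secQ j n) = secQ j (Kq Ψ n) := by
  unfold QQ
  rw [secQ_fst, secQ_x]
  have hj2 : j % 2 = 0 := by rcases hj with h | h <;> subst h <;> norm_num
  rw [if_pos ⟨hj2, hx⟩]
  rcases secQ_snd j n with h | h
  · rw [h]
  · rw [h, Kq_rho]
    apply secQ_rho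
    exact not_both hb _ (by rw [dot_Kq]; exact hn) (by rw [Kq_x]; exact hx)

theorem QQ_pair {b : ℝ} (Ψ : ℝ → ℝ) (j : ℤ) (hj : j = 0 ∨ j = 2) (n : V3)
    (hx : |n.1| < b) : QQ b Ψ (j, n) = secQ j (Kq Ψ n) := by
  unfold QQ
  have hj2 : j % 2 = 0 := by rcases hj with h | h <;> subst h <;> norm_num
  rw [if_pos ⟨hj2, hx⟩]

theorem QQ_out {b : ℝ} (Ψ : ℝ → ℝ) (z : XS) (hx : b ≤ |z.2.1|) : QQ b Ψ z = z := by
  unfold QQ
  rw [if_neg]
  rintro ⟨_, h⟩
  exact absurd h (not_lt.2 hx)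

theorem QQ_odd {b : ℝ} (Ψ : ℝ → ℝ) (z : XS) (hz : z.1 = 1 ∨ z.1 = 3) : QQ b Ψ z = z := by
  unfold QQ
  rw [if_neg]
  rintro ⟨h, _⟩
  rcases hz with h1 | h1 <;> rw [h1] at h <;> norm_num at h

theorem contDiffAt_Kq {Ψ : ℝ → ℝ} (hΨ : ContDiff ℝ ∞ Ψ) {κ : ℝ → V3} {t : ℝ}
    (hκ : ContDiffAt ℝ 2 κ t) : ContDiffAt ℝ 2 (fun r => Kq Ψ (κ r)) t := by
  have h1 : ContDiffAt ℝ 2 (fun r => (κ r).1) t := hκ.fst
  have h2 : ContDiffAt ℝ 2 (fun r => (κ r).2.1) t := hκ.snd.fst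
  have h3 : ContDiffAt ℝ 2 (fun r => (κ r).2.2) t := hκ.snd.snd
  have hΨ2 : ContDiff ℝ 2 Ψ := by exact_mod_cast (contDiff_infty.1 hΨ 2)
  have h4 : ContDiffAt ℝ 2 (fun r => Ψ (κ r).1) t := hΨ2.contDiffAt.comp t h1
  have h5 : ContDiffAt ℝ 2 (fun r => Real.cos (Ψ (κ r).1)) t := h4.cos
  have h6 : ContDiffAt ℝ 2 (fun r => Real.sin (Ψ (κ r).1)) t := h4.sin
  exact h1.prodMk (((h2.mul h5).sub (h3.mul h6)).prodMk ((h2.mul h6).add (h3.mul h5)))

theorem contDiffAt_rho {κ : ℝ → V3} {t : ℝ}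
    (hκ : ContDiffAt ℝ 2 κ t) : ContDiffAt ℝ 2 (fun r => rho (κ r)) t := by
  have h1 : ContDiffAt ℝ 2 (fun r => (κ r).1) t := hκ.fst
  have h2 : ContDiffAt ℝ 2 (fun r => (κ r).2.1) t := hκ.snd.fst
  have h3 : ContDiffAt ℝ 2 (fun r => (κ r).2.2) t := hκ.snd.snd
  exact h1.prodMk (h2.neg.prodMk h3.neg)

end StepqM

open StepqM in
/-- STEPQ -/
theorem specSTEPQ (hL : SpecL1) : SpecSTEPQ := by
  intro b s Ψ hb hs hsb hΨ z κ t hcan hlift
  obtain ⟨-, -, L3, L4⟩ := hL b s hb hs hsb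
  have hb1 : b < 1 := by nlinarith
  obtain ⟨hκ, hunit, hcase⟩ := hlift
  have hcont : ContinuousAt κ t := hκ.continuousAt
  have hcx : ContinuousAt (fun r => (κ r).1) t := hcont.fst
  have hKC : ContDiffAt ℝ 2 (fun r => Kq Ψ (κ r)) t := contDiffAt_Kq hΨ.smooth hκ
  have hKunit : ∀ᶠ r in 𝓝 t, dot (Kq Ψ (κ r)) (Kq Ψ (κ r)) = 1 := by
    filter_upwards [hunit] with r hr
    rw [dot_Kq]; exact hr
  have hRunit : ∀ᶠ r in 𝓝 t, dot (rho (Kq Ψ (κ r))) (rho (Kq Ψ (κ r))) = 1 := by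
    filter_upwards [hKunit] with r hr
    rw [dot_rho]; exact hr
  -- if `QQ` is the identity near `t`
  have hid : (∀ᶠ r in 𝓝 t, QQ b Ψ (z r) = z r) → Lift b s (fun r => QQ b Ψ (z r)) κ t := by
    intro h
    refine ⟨hκ, hunit, ?_⟩
    rcases hcase with ⟨h1, Θ, hΘ, h2⟩ | ⟨h1, j, hj, h2⟩ | ⟨h1, h2 | h2⟩
    · refine Or.inl ⟨h1, Θ, hΘ, ?_⟩
      filter_upwards [h, h2] with r hr hr2
      exact ⟨hr.trans hr2.1, hr2.2⟩
    · refine Or.inr (Or.inl ⟨h1, j, hj, ?_⟩)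
      filter_upwards [h, h2] with r hr hr2
      exact hr.trans hr2
    · refine Or.inr (Or.inr ⟨h1, Or.inl ?_⟩)
      filter_upwards [h, h2] with r hr hr2
      exact hr.trans hr2
    · refine Or.inr (Or.inr ⟨h1, Or.inr ?_⟩)
      filter_upwards [h, h2] with r hr hr2
      exact hr.trans hr2
  -- the x coordinate of z
  have hzx : ∀ᶠ r in 𝓝 t, (z r).2.1 = (κ r).1 := by
    rcases hcase with ⟨h1, Θ, hΘ, h2⟩ | ⟨h1, j, hj, h2⟩ | ⟨h1, h2 | h2⟩
    · filter_upwards [h2] with r hr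
      rw [hr.1, hr.2]; rfl
    · filter_upwards [h2] with r hr
      rw [hr, secQ_x]
    · filter_upwards [h2] with r hr
      rw [hr]; unfold secF; split_ifs <;> rfl
    · filter_upwards [h2] with r hr
      rw [hr]; unfold secF; split_ifs <;> rfl
  have hout : b < |(κ t).1| → ∀ᶠ r in 𝓝 t, QQ b Ψ (z r) = z r := by
    intro h
    have h1 : ∀ᶠ r in 𝓝 t, b < |(κ r).1| := hcx.abs.eventually (lt_mem_nhds h)
    filter_upwards [h1, hzx] with r hr hr2
    exact QQ_out Ψ _ (by rw [hr2]; exact hr.le)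
  have hlt : |(κ t).1| < b → ∀ᶠ r in 𝓝 t, |(κ r).1| < b := by
    intro h
    exact hcx.abs.eventually (gt_mem_nhds h)
  -- the kick case
  have hkick : |(κ t).1| < b → ∀ j : ℤ, (j = 0 ∨ j = 2) →
      (∀ᶠ r in 𝓝 t, z r = secQ j (κ r)) → Lift b s (fun r => QQ b Ψ (z r))
        (fun r => Kq Ψ (κ r)) t := by
    intro h j hj h2
    refine ⟨hKC, hKunit, Or.inr (Or.inl ⟨?_, j, hj, ?_⟩)⟩
    · rw [Kq_x]; exact h
    · filter_upwards [h2, hlt h, hunit] with r hr hr1 hr2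
      rw [hr]
      exact QQ_secQ hb1 Ψ j hj _ hr2 hr1
  by_cases hD : (κ t).2.1 = 0
  · -- D = 0
    rcases hcase with ⟨h1, Θ, hΘ, h2⟩ | ⟨h1, j, hj, h2⟩ | ⟨h1, h2⟩
    · have hu := hunit.self_of_nhds
      have hx : b < |(κ t).1| := by
        have h3 : (κ t).2.2 ^ 2 < s ^ 2 := sq_lt_sq' (by linarith [(abs_lt.1 h1).1]) (abs_lt.1 h1).2
        have h4 : b ^ 2 < (κ t).1 ^ 2 := by
          simp only [dot, hD] at hu
          nlinarith
        rw [← sq_abs (κ t).1] at h4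
        exact lt_of_pow_lt_pow_left₀ 2 (abs_nonneg _) h4
      refine ⟨Or.inr (Or.inr (hid (hout hx))), ?_⟩
      intro _ h4
      have := hzx.self_of_nhds
      rw [this] at h4
      exact absurd h4 (not_lt.2 hx.le)
    · have := hkick h1 j hj h2
      exact ⟨Or.inr (Or.inl this), fun _ _ => this⟩
    · have hodd : ∀ᶠ r in 𝓝 t, (z r).1 = 1 ∨ (z r).1 = 3 := by
        rcases h2 with h2 | h2
        · filter_upwards [h2] with r hr
          rw [hr]; exact secF_fst _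
        · filter_upwards [h2] with r hr
          rw [hr]; exact secF_fst _
      refine ⟨Or.inr (Or.inr (hid ?_)), ?_⟩
      · filter_upwards [hodd] with r hr
        exact QQ_odd Ψ _ hr
      · intro h3 _
        have h4 := hodd.self_of_nhds
        omega
  · -- D ≠ 0
    obtain ⟨j, κ', hκ', hL', hzj, hsgn⟩ := L3 z κ t ⟨hκ, hunit, hcase⟩ hD
    have hx' : ∀ r, (κ' r).1 = (κ r).1 := by
      intro r
      rcases hκ' with h | h <;> rw [h r]
      rfl
    rcases hsgn with ⟨hj, hD'⟩ | ⟨hj, hD'⟩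
    · -- near
      have hzt : (z t).1 = j := by
        have := hzj.self_of_nhds
        rw [this]
      rcases lt_trichotomy (|(κ t).1|) b with hx | hx | hx
      · -- kick
        have hD'' : ∀ᶠ r in 𝓝 t, (κ' r).2.1 < 0 := by
          have : ContinuousAt (fun r => (κ' r).2.1) t := by
            have h := hL'.1.continuousAt
            exact h.snd.fst
          exact this.eventually (gt_mem_nhds hD')
        have hz2 : ∀ᶠ r in 𝓝 t, z r = secQ j (κ r) := by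
          filter_upwards [hzj, hD'', hlt hx, hunit] with r hr1 hr2 hr3 hr4
          rw [hr1, ← secQ_neg j _ hr2]
          rcases hκ' with h | h
          · rw [h r]
          · rw [h r]
            exact secQ_rho j _ (not_both hb1 _ hr4 hr3)
        have := hkick hx j hj hz2
        exact ⟨Or.inr (Or.inl this), fun _ _ => this⟩
      · -- boundary
        have hpart2 : ((z t).1 = 0 ∨ (z t).1 = 2) → |(z t).2.1| < b →
            Lift b s (fun r => QQ b Ψ (z r)) (fun r => Kq Ψ (κ r)) t := by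
          intro _ h4
          rw [hzx.self_of_nhds] at h4
          exact absurd hx h4.ne
        refine ⟨?_, hpart2⟩
        have hκ'c : ContDiffAt ℝ 2 κ' t := hL'.1
        have hunit' : ∀ᶠ r in 𝓝 t, dot (κ' r) (κ' r) = 1 := hL'.2.1
        have hK'C : ContDiffAt ℝ 2 (fun r => Kq Ψ (κ' r)) t := contDiffAt_Kq hΨ.smooth hκ'c
        have hK'unit : ∀ᶠ r in 𝓝 t, dot (Kq Ψ (κ' r)) (Kq Ψ (κ' r)) = 1 := by
          filter_upwards [hunit'] with r hr
          rw [dot_Kq]; exact hr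
        have hcD : ContinuousAt (fun r => (Kq Ψ (κ' r)).2.1) t := by
          have h := hK'C.continuousAt
          exact h.snd.fst
        rcases le_or_gt 0 (κ t).1 with hpos | hneg
        · -- x = b
          have hxt : (κ t).1 = b := by rwa [abs_of_nonneg hpos] at hx
          have hKt : Kq Ψ (κ' t) = rho (κ' t) := by
            apply Kq_pi
            rw [hx' t, hxt]
            rcases hΨ.hi with h | h
            · exact Or.inl (h b le_rfl)
            · exact Or.inr (h b le_rfl)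
          have hDpos : 0 < (Kq Ψ (κ' t)).2.1 := by
            rw [hKt, rho_D]; linarith
          have hDe : ∀ᶠ r in 𝓝 t, 0 < (Kq Ψ (κ' r)).2.1 := hcD.eventually (lt_mem_nhds hDpos)
          have hxe : ∀ᶠ r in 𝓝 t, -b < (κ r).1 := by
            have : -b < (κ t).1 := by rw [hxt]; linarith
            exact hcx.eventually (lt_mem_nhds this)
          have hQ : ∀ᶠ r in 𝓝 t, QQ b Ψ (z r) = (j, rho (Kq Ψ (κ' r))) := by
            filter_upwards [hzj, hDe, hxe] with r hr1 hr2 hr3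
            rw [hr1]
            by_cases h5 : (κ r).1 < b
            · rw [QQ_pair Ψ j hj _ (by rw [hx' r]; exact abs_lt.2 ⟨hr3, h5⟩)]
              exact secQ_pos j _ hr2
            · push Not at h5
              rw [QQ_out Ψ _ (by
                show b ≤ |(κ' r).1|
                rw [hx' r]; exact h5.trans (le_abs_self _))]
              have : Kq Ψ (κ' r) = rho (κ' r) := by
                apply Kq_pi
                rw [hx' r]
                rcases hΨ.hi with h | h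
                · exact Or.inl (h _ h5)
                · exact Or.inr (h _ h5)
              rw [this, rho_rho]
          have hmain : Lift b s (fun r => QQ b Ψ (z r)) (fun r => rho (Kq Ψ (κ' r))) t := by
            refine (L4 (fun r => QQ b Ψ (z r)) (fun r => rho (Kq Ψ (κ' r))) t j
              (contDiffAt_rho hK'C) ?_ hQ (Or.inl ⟨hj, ?_⟩)).1
            · filter_upwards [hK'unit] with r hr
              rw [dot_rho]; exact hr
            · show (rho (Kq Ψ (κ' t))).2.1 < 0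
              rw [rho_D]; linarith
          rcases hκ' with h | h
          · refine Or.inl ?_
            have e : (fun r => rho (Kq Ψ (κ r))) = (fun r => rho (Kq Ψ (κ' r))) := by
              funext r; rw [h r]
            rw [e]; exact hmain
          · refine Or.inr (Or.inl ?_)
            have e : (fun r => Kq Ψ (κ r)) = (fun r => rho (Kq Ψ (κ' r))) := by
              funext r; rw [h r, Kq_rho, rho_rho]
            rw [e]; exact hmain
        · -- x = -b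
          have hxt : (κ t).1 = -b := by rw [abs_of_neg hneg] at hx; linarith
          have hKt : Kq Ψ (κ' t) = κ' t := by
            apply Kq_zero
            rw [hx' t, hxt]
            exact hΨ.lo _ le_rfl
          have hDneg : (Kq Ψ (κ' t)).2.1 < 0 := by
            rw [hKt]; exact hD'
          have hDe : ∀ᶠ r in 𝓝 t, (Kq Ψ (κ' r)).2.1 < 0 := hcD.eventually (gt_mem_nhds hDneg)
          have hxe : ∀ᶠ r in 𝓝 t, (κ r).1 < b := by
            have : (κ t).1 < b := by rw [hxt]; linarith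
            exact hcx.eventually (gt_mem_nhds this)
          have hQ : ∀ᶠ r in 𝓝 t, QQ b Ψ (z r) = (j, Kq Ψ (κ' r)) := by
            filter_upwards [hzj, hDe, hxe] with r hr1 hr2 hr3
            rw [hr1]
            by_cases h5 : -b < (κ r).1
            · rw [QQ_pair Ψ j hj _ (by rw [hx' r]; exact abs_lt.2 ⟨h5, hr3⟩)]
              exact secQ_neg j _ hr2
            · push Not at h5
              rw [QQ_out Ψ _ (by
                show b ≤ |(κ' r).1|
                rw [hx' r]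
                have := neg_le_abs (κ r).1
                linarith)]
              rw [Kq_zero Ψ (κ' r) (by rw [hx' r]; exact hΨ.lo _ h5)]
          have hmain : Lift b s (fun r => QQ b Ψ (z r)) (fun r => Kq Ψ (κ' r)) t :=
            (L4 (fun r => QQ b Ψ (z r)) (fun r => Kq Ψ (κ' r)) t j
              hK'C hK'unit hQ (Or.inl ⟨hj, hDneg⟩)).1
          rcases hκ' with h | h
          · refine Or.inr (Or.inl ?_)
            have e : (fun r => Kq Ψ (κ r)) = (fun r => Kq Ψ (κ' r)) := by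
              funext r; rw [h r]
            rw [e]; exact hmain
          · refine Or.inl ?_
            have e : (fun r => rho (Kq Ψ (κ r))) = (fun r => Kq Ψ (κ' r)) := by
              funext r; rw [h r, Kq_rho]
            rw [e]; exact hmain
      · -- outside
        refine ⟨Or.inr (Or.inr (hid (hout hx))), ?_⟩
        intro _ h4
        rw [hzx.self_of_nhds] at h4
        exact absurd h4 (not_lt.2 hx.le)
    · -- far
      refine ⟨Or.inr (Or.inr (hid ?_)), ?_⟩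
      · filter_upwards [hzj] with r hr
        rw [hr]
        exact QQ_odd Ψ _ hj
      · intro h3 _
        rw [hzj.self_of_nhds] at h3
        simp only at h3
        omega

end Pool.Agent.Lib.MP_d2b992_gt.Dyn
end

section
/-!
# SYS: the concrete system satisfies the axioms `IsSys`
-/
set_option autoImplicit false

open MeasureTheory Filter Topology Set

namespace Pool.Agent.Lib.MP_d2b992_gt.Dyn

open Pool.Agent.Lib.MP_d2b992_gt.T (Tw)

namespace SysM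

section Transfer

variable {X Y : Type} {S : X → X} {S₀ : Y → Y} {E : Bool → ℝ → ℝ → X} {E₀ : Bool → ℝ → ℝ → Y}
  {ι : X → Y} {βp βq : ℝ}

theorem iter (h : ∀ z, ι (S z) = S₀ (ι z)) (k : ℕ) (z : X) : ι (S^[k] z) = S₀^[k] (ι z) := by
  induction k generalizing z with
  | zero => rfl
  | succ k ih => rw [Function.iterate_succ_apply, Function.iterate_succ_apply, ih, h]

theorem ev_abs_lt {f : ℝ → ℝ} {t a : ℝ} (hf : ContinuousAt f t) (h : |f t| < a) :
    ∀ᶠ r in 𝓝 t, |f r| < a := by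
  have h2 : ContinuousAt (fun r => |f r|) t := hf.abs
  exact h2.eventually (isOpen_Iio.mem_nhds h)

theorem ev_add_lt {p0 t a : ℝ} (h : |p0 + t| < a) : ∀ᶠ r in 𝓝 t, |p0 + r| < a :=
  ev_abs_lt (f := fun r => p0 + r) (by fun_prop) h

theorem evoAx (hinj : Function.Injective ι) (h : ∀ z, ι (S z) = S₀ (ι z))
    (hE : ∀ j p q, |p| < βp → |q| < βq → ι (E j p q) = E₀ j p q) {sg p1 q1 C η : ℝ}
    (hq : q1 < βq) (H : EvoAx S₀ E₀ βp βq sg p1 q1 C η) : EvoAx S E βp βq sg p1 q1 C η := by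
  intro j0 p0 q0 hp0 hq0
  obtain ⟨v, A, N, N', e⟩ := H j0 p0 q0 hp0 hq0
  have hq0' : |q0| < βq := lt_of_le_of_lt hq0 hq
  have key : ∀ (k : ℕ) (σ : ℝ), |p0 + σ| < βp →
      ι (S^[k] (E j0 (p0 + σ) q0)) = S₀^[k] (E₀ j0 (p0 + σ) q0) := by
    intro k σ hσ
    rw [iter h, hE _ _ _ hσ hq0']
  refine ⟨v, A, N, N', ?_⟩
  refine
    { v_pos := e.v_pos
      v_cont := e.v_cont
      v_up := e.v_up
      v_down := e.v_down
      A_step := e.A_step
      log_step := e.log_step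
      N_mono := e.N_mono
      init := e.init
      chart := ?_
      path := ?_ }
  · intro k σ j p q hσ hp hq2 heq
    have h1 : S₀^[k] (E₀ j0 (p0 + σ) q0) = E₀ j p q := by
      rw [← key k σ hσ, heq, hE _ _ _ hp hq2]
    obtain ⟨P, Q, P', Q', e1, e2, e3, e4⟩ := e.chart k σ j p q hσ hp hq2 h1
    refine ⟨P, Q, P', Q', e1, e2, ?_, e4⟩
    have hP : ContinuousAt P σ := e3.self_of_nhds.2.1.continuousAt
    have hQ : ContinuousAt Q σ := e3.self_of_nhds.2.2.continuousAt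
    have f1 := ev_abs_lt hP (by rw [e1]; exact hp)
    have f2 := ev_abs_lt hQ (by rw [e2]; exact hq2)
    filter_upwards [e3, f1, f2, ev_add_lt hσ] with r g1 g2 g3 g4
    refine ⟨hinj ?_, g1.2⟩
    rw [key k r g4, g1.1, hE _ _ _ g2 g3]
  · intro k σ₁ σ₂ δ j p q h1 h2 h3 h4 h5 h6 σ hσ
    have h0 : 0 ≤ δ := le_trans (abs_nonneg _) h6
    have hp : |p| < βp := by linarith
    have hq2 : |q| < βq := by linarith
    have h7 : S₀^[k] (E₀ j0 (p0 + σ₁) q0) = E₀ j p q := by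
      rw [← key k σ₁ h1, h5, hE _ _ _ hp hq2]
    obtain ⟨p', q', g1, g2, g3⟩ := e.path k σ₁ σ₂ δ j p q h1 h2 h3 h4 h7 h6 σ hσ
    have hσ' : |p0 + σ| < βp := by
      rw [abs_lt] at h1 h2 ⊢
      rcases mem_uIcc.1 hσ with h | h <;> constructor <;> linarith [h.1, h.2]
    have g4 : |p'| < βp := by
      have := abs_sub_abs_le_abs_sub p' p
      linarith
    have g5 : |q'| < βq := by
      have := abs_sub_abs_le_abs_sub q' q
      linarith
    refine ⟨p', q', g1, g2, hinj ?_⟩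
    rw [key k σ hσ', g3, hE _ _ _ g4 g5]

theorem crossAx {b s : ℝ} {T T' : X → X} {T₀ T₀' : Y → Y} {e : Bool → ℝ → ℝ → X}
    {e₀ : Bool → ℝ → ℝ → Y} (h : ∀ z, ι (T z) = T₀ (ι z)) (h' : ∀ z, ι (T' z) = T₀' (ι z))
    (hE : ∀ j p q, |p| < b → |q| < s → ι (e j p q) = e₀ j p q)
    (H : CrossAx T₀ T₀' e₀ b s) : CrossAx T T' e b s := by
  intro t t' j0 j1 j x0 c0 σ x1 c1 r x c X1 C1 X2 C2 X3 C3 x1' c1' x2' c2' x3'
    a1 a2 a3 a4 a5 a6 a7 a8 a9 d1 d2 v1 v2 a10 d3 d4 v3 v4 a11 d5 k5 v5 v6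
  refine H t t' j0 j1 j x0 c0 σ x1 c1 r x c X1 C1 X2 C2 X3 C3 x1' c1' x2' c2' x3'
    a1 a2 a3 a4 a5 a6 ?_ ?_ ?_ d1 d2 v1 v2 ?_ d3 d4 v3 v4 ?_ d5 k5 v5 v6
  · rw [← hE _ _ _ a1 a2, ← iter h, a7, hE _ _ _ a5 a6]
  · rw [← hE _ _ _ a3 a4, ← iter h', a8, hE _ _ _ a5 a6]
  · have f1 := ev_abs_lt d1.continuousAt (by rw [v1]; exact a5)
    have f2 := ev_abs_lt d2.continuousAt (by rw [v2]; exact a6)
    filter_upwards [a9, f1, f2, ev_add_lt a1] with u g1 g2 g3 g4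
    rw [← hE _ _ _ g4 a2, ← iter h, g1, hE _ _ _ g2 g3]
  · have f1 := ev_abs_lt d3.continuousAt (by rw [v3]; exact a5)
    have f2 := ev_abs_lt d4.continuousAt (by rw [v4]; exact a6)
    filter_upwards [a10, f1, f2, ev_add_lt a4] with u g1 g2 g3 g4
    rw [← hE _ _ _ a3 g4, ← iter h', g1, hE _ _ _ g2 g3]
  · have f1 := ev_abs_lt d5.continuousAt (by rw [v5]; exact a3)
    have f2 := ev_abs_lt k5 (by rw [v6]; exact a4)
    filter_upwards [a11, f1, f2, ev_add_lt a1] with u g1 g2 g3 g4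
    rw [← hE _ _ _ g4 a2, ← iter h, g1, hE _ _ _ g2 g3]

end Transfer

/-! ## Measure -/

/-- the pair of a point of the surface -/
def vl {b s : ℝ} (z : XX b s) : XS := z.1

/-- the area on the surface -/
noncomputable def muX (b s : ℝ) : Measure (XX b s) := (Measure.map ofSt muY).comap vl

theorem emb {b s : ℝ} (hm : MeasurableSet {z : XS | Can b s z}) :
    MeasurableEmbedding (vl : XX b s → XS) := MeasurableEmbedding.subtype_coe hm

theorem vl_inj {b s : ℝ} : Function.Injective (vl : XX b s → XS) := Subtype.val_injective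

theorem muX_apply {b s : ℝ} (hm : MeasurableSet {z : XS | Can b s z}) (ho : Measurable ofSt)
    {A : Set (XX b s)} (hA : MeasurableSet A) :
    muX b s A = muY {w | ∃ h : Can b s (ofSt w), (⟨ofSt w, h⟩ : XX b s) ∈ A} := by
  unfold muX
  rw [(emb hm).comap_apply, Measure.map_apply ho ((emb hm).measurableSet_image.2 hA)]
  congr 1
  ext w
  constructor
  · rintro ⟨z, hz, hzw⟩
    have hc : Can b s (ofSt w) := by rw [← hzw]; exact z.2
    refine ⟨hc, ?_⟩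
    have : (⟨ofSt w, hc⟩ : XX b s) = z := vl_inj hzw.symm
    rw [this]
    exact hz
  · rintro ⟨h, hw⟩
    exact ⟨_, hw, rfl⟩

theorem ae_of {b s : ℝ} (hm : MeasurableSet {z : XS | Can b s z}) (ho : Measurable ofSt)
    {p : XX b s → Prop} (hp : MeasurableSet {z | p z})
    (h : ∀ᵐ w ∂muY, ∀ hc : Can b s (ofSt w), p ⟨ofSt w, hc⟩) : ∀ᵐ z ∂muX b s, p z := by
  rw [ae_iff]
  have h1 : MeasurableSet {z : XX b s | ¬ p z} := hp.compl
  rw [muX_apply hm ho h1]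
  refine measure_mono_null ?_ (ae_iff.1 h)
  rintro w ⟨hc, hw⟩ h2
  exact hw (h2 hc)

theorem finY : IsFiniteMeasure muY := by
  unfold muY
  constructor
  rw [Measure.restrict_apply_univ]
  refine lt_of_le_of_lt (measure_mono (t := Icc (-(Real.pi / 2)) (7 * Real.pi / 2) ×ˢ Icc (-1) 1)
    ?_) ?_
  · rintro ⟨x, c⟩ ⟨h1, h2, h3⟩
    have := abs_lt.1 h3
    exact ⟨⟨h1, h2.le⟩, ⟨this.1.le, this.2.le⟩⟩
  · rw [Measure.volume_eq_prod, Measure.prod_prod, Real.volume_Icc, Real.volume_Icc]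
    exact ENNReal.mul_lt_top ENNReal.ofReal_lt_top ENNReal.ofReal_lt_top

theorem mem_Dom : ∀ᵐ w ∂muY, w ∈ Dom := by
  unfold muY
  refine ae_restrict_mem ?_
  unfold Dom
  apply MeasurableSet.inter
  · exact measurableSet_le measurable_const measurable_fst
  · apply MeasurableSet.inter
    · exact measurableSet_lt measurable_fst measurable_const
    · exact measurableSet_lt (continuous_abs.measurable.comp measurable_snd) measurable_const

/-- points of the near squares -/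
theorem near {b s : ℝ} {w : St} (hw : w ∈ Dom) (h : w ∈ nearSq b s) :
    ofSt w = chX (decide (Real.cos (w.1 / 2) < 0)) (Real.sqrt (1 - w.2 ^ 2) * Real.sin w.1) w.2 ∧
      |Real.sqrt (1 - w.2 ^ 2) * Real.sin w.1| < b ∧ |w.2| < s := by
  obtain ⟨h1, h2, h3⟩ := h
  refine ⟨?_, h2, h3⟩
  obtain ⟨Θ, c⟩ := w
  obtain ⟨g1, g2, g3⟩ := hw
  simp only at h1 h2 h3 g1 g2 g3 ⊢
  have hpi := Real.pi_pos
  obtain ⟨k, θ, hk, t1, t2, rfl⟩ := SX2M.dec_dom g1 g2 h1.ne'
  have hcos : 0 < Real.cos θ := Real.cos_pos_of_mem_Ioo ⟨t1, t2⟩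
  have hc2 : 0 < Real.sqrt (1 - c ^ 2) := SX2M.sq_pos g3
  have hev : k % 2 = 0 := by
    rcases Int.emod_two_eq_zero_or_one k with h | h
    · exact h
    · rw [SX2M.cos_dec_odd k θ h] at h1
      linarith
  rw [SX2M.ofSt_dec k θ c t1 t2, if_pos hev, SX2M.sin_dec_even k θ hev]
  have hsq : Real.sqrt (1 - (Real.sqrt (1 - c ^ 2) * Real.sin θ) ^ 2 - c ^ 2) =
      Real.sqrt (1 - c ^ 2) * Real.cos θ := by
    have e1 := SX2M.sq_sq g3
    have e2 := Real.sin_sq_add_cos_sq θ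
    have : 1 - (Real.sqrt (1 - c ^ 2) * Real.sin θ) ^ 2 - c ^ 2 =
        (Real.sqrt (1 - c ^ 2) * Real.cos θ) ^ 2 := by
      linear_combination (-1 : ℝ) * e1 - Real.sqrt (1 - c ^ 2) ^ 2 * e2
    rw [this, Real.sqrt_sq (by positivity)]
  unfold chX
  rw [hsq]
  have hk2 : k = 0 ∨ k = 2 := by omega
  rcases hk2 with rfl | rfl
  · have hpos : 0 < Real.cos ((((0 : ℤ) : ℝ) * Real.pi + θ) / 2) := by
      apply Real.cos_pos_of_mem_Ioo
      constructor <;> push_cast <;> linarith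
    have : decide (Real.cos ((((0 : ℤ) : ℝ) * Real.pi + θ) / 2) < 0) = false := by
      rw [decide_eq_false_iff_not]
      exact not_lt.2 hpos.le
    rw [this]
    simp
  · have hneg : Real.cos ((((2 : ℤ) : ℝ) * Real.pi + θ) / 2) < 0 := by
      have e : (((2 : ℤ) : ℝ) * Real.pi + θ) / 2 = θ / 2 + Real.pi := by push_cast; ring
      rw [e, Real.cos_add_pi]
      have : 0 < Real.cos (θ / 2) := by
        apply Real.cos_pos_of_mem_Ioo
        constructor <;> linarith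
      linarith
    have : decide (Real.cos ((((2 : ℤ) : ℝ) * Real.pi + θ) / 2) < 0) = true := by
      rw [decide_eq_true_iff]
      exact hneg
    rw [this]
    simp

/-! ## The maps -/

/-- the point of a pair -/
def mkX {b s : ℝ} (z : XS) (h : Can b s z) : XX b s := ⟨z, h⟩

theorem vl_mkX {b s : ℝ} (z : XS) (h : Can b s z) : vl (mkX z h) = z := rfl

open Classical in
/-- the charts of the surface -/
noncomputable def ee (b s : ℝ) (z0 : XX b s) (j : Bool) (x c : ℝ) : XX b s :=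
  if h : Can b s (chX j x c) then mkX (chX j x c) h else z0

theorem vl_ee {b s : ℝ} (z0 : XX b s) {j : Bool} {x c : ℝ} (h : Can b s (chX j x c)) :
    vl (ee b s z0 j x c) = chX j x c := by
  unfold ee
  rw [dif_pos h, vl_mkX]

theorem meas_ee {b s : ℝ} (hm : MeasurableSet {z : XS | Can b s z}) (z0 : XX b s) (j : Bool)
    (hj : Measurable (fun p : ℝ × ℝ => chX j p.1 p.2)) :
    Measurable (fun p : ℝ × ℝ => ee b s z0 j p.1 p.2) := by
  classical
  rw [← (emb hm).measurable_comp_iff]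
  have h1 : MeasurableSet {p : ℝ × ℝ | Can b s (chX j p.1 p.2)} := hj hm
  have h2 : (vl ∘ fun p : ℝ × ℝ => ee b s z0 j p.1 p.2) =
      fun p : ℝ × ℝ => if Can b s (chX j p.1 p.2) then chX j p.1 p.2 else vl z0 := by
    funext p
    show vl (ee b s z0 j p.1 p.2) = _
    by_cases hc : Can b s (chX j p.1 p.2)
    · rw [vl_ee z0 hc, if_pos hc]
    · rw [if_neg hc]
      unfold ee
      rw [dif_neg hc]
  rw [h2]
  exact Measurable.ite h1 hj measurable_const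

/-- the map `T` of the surface -/
noncomputable def TT {b s : ℝ} {F G : ℝ → ℝ} (h : SpecSX1) (hTw : Tw b s F G) :
    XX b s ≃ᵐ XX b s where
  toFun z := ⟨TX b s F G z.1,
    (h b s F G hTw).2.2.2.2.1 F (h b s F G hTw).1 _
      ((h b s F G hTw).2.2.2.2.2.1 G (h b s F G hTw).2.2.1 z.1 z.2)⟩
  invFun z := ⟨TX' b s F G z.1,
    (h b s F G hTw).2.2.2.2.2.1 _ (h b s F G hTw).2.2.2.1 _
      ((h b s F G hTw).2.2.2.2.1 _ (h b s F G hTw).2.1 z.1 z.2)⟩
  left_inv z := by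
    apply Subtype.ext
    show TX' b s F G (TX b s F G z.1) = z.1
    have hc := (h b s F G hTw).2.2.2.2.2.1 G (h b s F G hTw).2.2.1 z.1 z.2
    unfold TX TX'
    rw [((h b s F G hTw).2.2.2.2.2.2.1 _ hc).1, ((h b s F G hTw).2.2.2.2.2.2.2.1 _ z.2).1]
  right_inv z := by
    apply Subtype.ext
    show TX b s F G (TX' b s F G z.1) = z.1
    have hc := (h b s F G hTw).2.2.2.2.1 _ (h b s F G hTw).2.1 z.1 z.2
    unfold TX TX'
    rw [((h b s F G hTw).2.2.2.2.2.2.2.1 _ hc).2, ((h b s F G hTw).2.2.2.2.2.2.1 _ z.2).2]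
  measurable_toFun := by
    have := h b s F G hTw
    refine Measurable.subtype_mk ?_
    exact (this.2.2.2.2.2.2.2.2.2.1.comp this.2.2.2.2.2.2.2.2.2.2.2.1).comp measurable_subtype_coe
  measurable_invFun := by
    have := h b s F G hTw
    refine Measurable.subtype_mk ?_
    exact (this.2.2.2.2.2.2.2.2.2.2.2.2.comp this.2.2.2.2.2.2.2.2.2.2.1).comp
      measurable_subtype_coe

theorem vl_TT {b s : ℝ} {F G : ℝ → ℝ} (h : SpecSX1) (hTw : Tw b s F G) (z : XX b s) :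
    vl (TT h hTw z) = TX b s F G (vl z) := rfl

theorem vl_TT_symm {b s : ℝ} {F G : ℝ → ℝ} (h : SpecSX1) (hTw : Tw b s F G) (z : XX b s) :
    vl ((TT h hTw).symm z) = TX' b s F G (vl z) := rfl

theorem sqs_eq {b s : ℝ} (z0 : XX b s) (j : Bool) :
    sqs (ee b s z0) b s j =
      (fun p : ℝ × ℝ => ee b s z0 j p.1 p.2) '' {p : ℝ × ℝ | |p.1| < b ∧ |p.2| < s} := by
  ext z
  constructor
  · rintro ⟨x, c, h1, h2, rfl⟩
    exact ⟨(x, c), ⟨h1, h2⟩, rfl⟩
  · rintro ⟨⟨x, c⟩, ⟨h1, h2⟩, rfl⟩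
    exact ⟨x, c, h1, h2, rfl⟩

end SysM

open SysM in
/-- **SYS.** -/
theorem specSYS (h1 : SpecSX1) (h2 : SpecSX2) (h3 : SpecSX3) (hP : SpecMPP) (hQ : SpecMPQ)
    (hE : SpecEVO) (hC : SpecCRS) (hV : SpecVIS) (hS : SpecS02) : SpecSYS := by
  intro b s F G hTw
  obtain ⟨-, -, -, -, -, -, -, -, hm, -⟩ := h1 b s F G hTw
  obtain ⟨ho, ht, hae⟩ := h2 b s F G hTw
  obtain ⟨s1, s2, s3, s4⟩ := h3 b s hTw.b0 hTw.s0 hTw.sb
  have hb := hTw.b0
  have hs := hTw.s0
  have can0 : Can b s (chX false 0 0) := s2 false 0 0 (by simpa using hb) (by simpa using hs)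
  obtain ⟨z0, hz0⟩ : ∃ z : XX b s, z = ⟨chX false 0 0, can0⟩ := ⟨_, rfl⟩
  have hEv : ∀ j p q, |p| < b → |q| < s → vl (ee b s z0 j p q) = chX j p q :=
    fun j p q hp hq => vl_ee z0 (s2 j p q hp hq)
  have mp : MeasurePreserving (pMap F) muY muY := hP b s F G hTw
  have mq : MeasurePreserving (qMap b G) muY muY := hQ b s F G hTw
  have mt : MeasurePreserving (tMap b F G) muY muY := mp.comp mq
  -- the maps agree a.e.
  have ae1 : ∀ᵐ w ∂muY, Can b s (ofSt w) ∧ toSt (ofSt w) = w ∧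
      TX b s F G (ofSt w) = ofSt (tMap b F G w) ∧
      toSt (TX b s F G (ofSt w)) = tMap b F G w := by
    have hq' := mq.quasiMeasurePreserving.ae hae
    filter_upwards [hae, hq'] with w g1 g2
    refine ⟨g1.1, g1.2.1, ?_, g1.2.2.2.2⟩
    unfold TX
    rw [g1.2.2.2.1, g2.2.2.1]
    rfl
  have aeN : ∀ᵐ w ∂muY, ∀ n : ℕ, (tMap b F G)^[n] w ∈ Dom ∧
      TX b s F G (ofSt ((tMap b F G)^[n] w)) = ofSt (tMap b F G ((tMap b F G)^[n] w)) := by
    rw [ae_all_iff]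
    intro n
    have := (mt.iterate n).quasiMeasurePreserving.ae (ae1.and mem_Dom)
    filter_upwards [this] with w g
    exact ⟨g.2, g.1.2.2.1⟩
  have hiter : ∀ᵐ w ∂muY, ∀ n : ℕ, (TX b s F G)^[n] (ofSt w) = ofSt ((tMap b F G)^[n] w) := by
    filter_upwards [aeN] with w g n
    induction n with
    | zero => rfl
    | succ n ih => rw [Function.iterate_succ_apply', Function.iterate_succ_apply', ih, (g n).2]
  have img : ∀ (j : Bool) (A : Set (ℝ × ℝ)), MeasurableSet A → (∀ p ∈ A, |p.1| < b ∧ |p.2| < s) →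
      vl '' ((fun p : ℝ × ℝ => ee b s z0 j p.1 p.2) '' A) =
        (fun p : ℝ × ℝ => chX j p.1 p.2) '' A := by
    intro j A _ hA
    rw [image_image]
    exact image_congr fun p hp => hEv j p.1 p.2 (hA p hp).1 (hA p hp).2
  have mimg : ∀ (j : Bool) (A : Set (ℝ × ℝ)), MeasurableSet A → (∀ p ∈ A, |p.1| < b ∧ |p.2| < s) →
      MeasurableSet ((fun p : ℝ × ℝ => ee b s z0 j p.1 p.2) '' A) := by
    intro j A hA hA2
    rw [← (emb hm).measurableSet_image, img j A hA hA2]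
    exact (s4 j A hA hA2).1
  have msq : ∀ j : Bool, MeasurableSet (sqs (ee b s z0) b s j) := by
    intro j
    rw [sqs_eq]
    refine mimg j _ ?_ (fun p hp => hp)
    exact (measurableSet_lt (continuous_abs.measurable.comp measurable_fst)
      measurable_const).inter (measurableSet_lt (continuous_abs.measurable.comp measurable_snd)
      measurable_const)
  -- invariance
  have mX : MeasurePreserving (TT h1 hTw) (muX b s) (muX b s) := by
    refine ⟨(TT h1 hTw).measurable, ?_⟩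
    refine Measure.ext fun A hA => ?_
    rw [Measure.map_apply (TT h1 hTw).measurable hA, muX_apply hm ho hA,
      muX_apply hm ho ((TT h1 hTw).measurable hA)]
    have mset : MeasurableSet {w | ∃ h : Can b s (ofSt w), (⟨ofSt w, h⟩ : XX b s) ∈ A} := by
      have e : {w | ∃ h : Can b s (ofSt w), (⟨ofSt w, h⟩ : XX b s) ∈ A} =
          ofSt ⁻¹' (vl '' A) := by
        ext w
        constructor
        · rintro ⟨h, hw⟩
          exact ⟨_, hw, rfl⟩
        · rintro ⟨z, hz, hzw⟩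
          have hc : Can b s (ofSt w) := by rw [← hzw]; exact z.2
          refine ⟨hc, ?_⟩
          have : (⟨ofSt w, hc⟩ : XX b s) = z := vl_inj hzw.symm
          rw [this]
          exact hz
      rw [e]
      exact ho ((emb hm).measurableSet_image.2 hA)
    rw [← mt.measure_preimage mset.nullMeasurableSet]
    apply measure_congr
    have ae2 := mt.quasiMeasurePreserving.ae ae1
    filter_upwards [ae1, ae2] with w g1 g2
    apply propext
    show (∃ h : Can b s (ofSt w), TT h1 hTw ⟨ofSt w, h⟩ ∈ A) ↔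
      ∃ h : Can b s (ofSt (tMap b F G w)), (⟨ofSt (tMap b F G w), h⟩ : XX b s) ∈ A
    have key : TT h1 hTw ⟨ofSt w, g1.1⟩ = ⟨ofSt (tMap b F G w), g2.1⟩ := by
      apply vl_inj
      exact g1.2.2.1
    constructor
    · rintro ⟨_, h⟩
      exact ⟨g2.1, by rw [← key]; exact h⟩
    · rintro ⟨_, h⟩
      exact ⟨g1.1, by rw [key]; exact h⟩
  have hfin : IsFiniteMeasure (muX b s) := by
    constructor
    rw [muX_apply hm ho MeasurableSet.univ]
    have := finY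
    exact measure_lt_top _ _
  refine ⟨XX b s, inferInstance, muX b s, TT h1 hTw, ee b s z0, fun z => toSt (vl z), ?_, ?_, ?_,
    mt.measurable⟩
  · refine
      { b0 := hb
        s0 := hs
        sb := hTw.sb
        fin := hfin
        mp := mX
        inj := ?_
        meas := fun j => meas_ee hm z0 j (s1 j)
        area := ?_
        evo := ?_
        cross := ?_
        vis := ?_
        s02 := ?_ }
    · intro j j' p q p' q' a1 a2 a3 a4 h
      have := congrArg vl h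
      rw [hEv _ _ _ a1 a2, hEv _ _ _ a3 a4] at this
      exact s3 j j' p q p' q' a1 a2 a3 a4 this
    · intro j A hA hA2
      refine ⟨mimg j A hA hA2, ?_⟩
      rw [← (s4 j A hA hA2).2, muX_apply hm ho (mimg j A hA hA2)]
      congr 1
      ext w
      rw [mem_preimage, ← img j A hA hA2]
      constructor
      · rintro ⟨h, hw⟩
        exact ⟨_, hw, rfl⟩
      · rintro ⟨z, hz, hzw⟩
        have hc : Can b s (ofSt w) := by rw [← hzw]; exact z.2
        refine ⟨hc, ?_⟩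
        have : (⟨ofSt w, hc⟩ : XX b s) = z := vl_inj hzw.symm
        rw [this]
        exact hz
    · intro x1 c1 a1 a2 a3 a4
      obtain ⟨C, η, g1, g2, g3, g4⟩ := hE b s F G hTw x1 c1 a1 a2 a3 a4
      refine ⟨C, η, g1, g2, ?_, ?_⟩
      · exact evoAx vl_inj (vl_TT h1 hTw) hEv a4 g3
      · exact evoAx vl_inj (vl_TT_symm h1 hTw) (fun j p q hp hq => hEv j q p hq hp) a2 g4
    · exact crossAx (vl_TT h1 hTw) (vl_TT_symm h1 hTw) hEv (hC b s F G hTw)
    · refine ae_of hm ho ?_ ?_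
      · have : {z : XX b s | ∃ (n : ℕ) (j : Bool), (TT h1 hTw)^[n] z ∈ sqs (ee b s z0) b s j} =
            ⋃ (n : ℕ), ⋃ (j : Bool), (TT h1 hTw)^[n] ⁻¹' sqs (ee b s z0) b s j := by
          ext z
          simp
        rw [this]
        exact MeasurableSet.iUnion fun n => MeasurableSet.iUnion fun j =>
          (mX.iterate n).measurable (msq j)
      · filter_upwards [hV b s F G hTw, aeN, hiter] with w g1 g2 g3 hc
        obtain ⟨n, hn⟩ := g1
        obtain ⟨e1, e2, e3⟩ := near (g2 n).1 hn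
        refine ⟨n, decide (Real.cos (((tMap b F G)^[n] w).1 / 2) < 0), _, _, e2, e3, ?_⟩
        apply vl_inj
        refine (iter (vl_TT h1 hTw) n (mkX (ofSt w) hc)).trans ?_
        rw [hEv _ _ _ e2 e3, ← e1]
        exact g3 n
    · have h5 := hS b s F G hTw
      have hmeas : MeasurableSet {z : XX b s | z ∈ sqs (ee b s z0) b s false ∧
          TT h1 hTw z ∈ sqs (ee b s z0) b s true} :=
        (msq false).inter ((TT h1 hTw).measurable (msq true))
      rw [muX_apply hm ho hmeas]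
      refine lt_of_lt_of_le h5 (measure_mono_ae ?_)
      filter_upwards [ae1, mem_Dom, aeN] with w g1 g2 g3 hw
      obtain ⟨w1, w2, w3, w4⟩ := hw
      have g4 := (g3 1).1
      rw [Function.iterate_one] at g4
      obtain ⟨e1, e2, e3⟩ := near g2 w1
      obtain ⟨e4, e5, e6⟩ := near g4 w3
      refine ⟨g1.1, ⟨_, _, e2, e3, ?_⟩, ⟨_, _, e5, e6, ?_⟩⟩
      · apply vl_inj
        rw [hEv _ _ _ e2 e3]
        have : decide (Real.cos (w.1 / 2) < 0) = false := by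
          rw [decide_eq_false_iff_not]
          exact not_lt.2 w2.le
        rw [this] at e1
        exact e1
      · apply vl_inj
        rw [hEv _ _ _ e5 e6]
        have : decide (Real.cos ((tMap b F G w).1 / 2) < 0) = true := by
          rw [decide_eq_true_iff]
          exact w4
        rw [this] at e4
        rw [← e4]
        exact g1.2.2.1
  · have mπ : Measurable (fun z : XX b s => toSt (vl z)) := ht.comp (emb hm).measurable
    refine ⟨mπ, ?_⟩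
    refine Measure.ext fun A hA => ?_
    rw [Measure.map_apply mπ hA, muX_apply hm ho (mπ hA)]
    apply measure_congr
    filter_upwards [ae1] with w g1
    apply propext
    show (∃ _ : Can b s (ofSt w), toSt (ofSt w) ∈ A) ↔ w ∈ A
    rw [g1.2.1]
    exact ⟨fun h => h.2, fun h => ⟨g1.1, h⟩⟩
  · refine ae_of hm ho ?_ ?_
    · exact measurableSet_eq_fun ((ht.comp (emb hm).measurable).comp (TT h1 hTw).measurable)
        (mt.measurable.comp (ht.comp (emb hm).measurable))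
    · filter_upwards [ae1] with w g1 hc
      show toSt (TX b s F G (ofSt w)) = tMap b F G (toSt (ofSt w))
      rw [g1.2.1]
      exact g1.2.2.2

end Pool.Agent.Lib.MP_d2b992_gt.Dyn
end
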