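import Mathlib
import Pool.Agent.Lib.MP_d2b992_gt.Dyn.Spec5
import Pool.Agent.Lib.MP_d2b992_gt.Dyn.Sys

/-!
# CRS: the crossing determinant

Text: `/team-store/MP_d2b992_gt_DYN.md`, section 3.  Two paths `z`, `w` of states through a common
state have lifts `κ`, `μ` to the sphere; the absolute value of `det3 (κ, κ', μ')` is independent
of the choice of the lifts and is preserved by `P` and `Q`.
-/

set_option autoImplicit false

open MeasureTheory Filter Topology Set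
open scoped ContDiff

namespace Pool.Agent.Lib.MP_d2b992_gt.Dyn

open Pool.Agent.Lib.MP_d2b992_gt.T (Tw)

namespace CrsM

/-- the action of the group of order two -/
def act (e : Bool) (n : V3) : V3 := if e then rho n else n

theorem act_t (n : V3) : act true n = rho n := rfl
theorem act_f (n : V3) : act false n = n := rfl

theorem rho_rho (n : V3) : rho (rho n) = n := by simp [rho]

theorem act_act (e e' : Bool) (n : V3) : act e (act e' n) = act (xor e e') n := by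
  cases e <;> cases e' <;> simp [act, rho]

theorem act_fst (e : Bool) (n : V3) : (act e n).1 = n.1 := by
  cases e <;> simp [act, rho]

theorem det3_rho (n u w : V3) : det3 (rho n) (rho u) (rho w) = det3 n u w := by
  simp only [det3, rho]; ring

theorem det3_act (e : Bool) (n u w : V3) : det3 (act e n) (act e u) (act e w) = det3 n u w := by
  cases e
  · rfl
  · exact det3_rho n u w

theorem dot_rho (n u : V3) : dot (rho n) (rho u) = dot n u := by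
  simp only [dot, rho]; ring

theorem dot_act (e : Bool) (n u : V3) : dot (act e n) (act e u) = dot n u := by
  cases e
  · rfl
  · exact dot_rho n u

/-- the linear map `rho` -/
theorem hasDerivAt_rho {κ : ℝ → V3} {m : V3} {t : ℝ} (h : HasDerivAt κ m t) :
    HasDerivAt (fun r => rho (κ r)) (rho m) t := by
  have hx := JetM.fst' h
  have hy := JetM.fst2 (JetM.snd' h)
  have hz := JetM.snd2 (JetM.snd' h)
  exact hx.prodMk (hy.neg.prodMk hz.neg)

theorem hasDerivAt_act (e : Bool) {κ : ℝ → V3} {m : V3} {t : ℝ} (h : HasDerivAt κ m t) :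
    HasDerivAt (fun r => act e (κ r)) (act e m) t := by
  cases e
  · exact h
  · exact hasDerivAt_rho h

theorem hasDeriv_Kq {Φ : ℝ → ℝ} (hΦ : ContDiff ℝ ∞ Φ) {κ : ℝ → V3} {v : V3} {r : ℝ}
    (h : HasDerivAt κ v r) : HasDerivAt (fun s => Kq Φ (κ s)) (dKq Φ (κ r) v) r := by
  have hx := JetM.fst' h
  have hy := JetM.fst2 (JetM.snd' h)
  have hz := JetM.snd2 (JetM.snd' h)
  have hd : Differentiable ℝ Φ := hΦ.differentiable (by simp)
  have hφ : HasDerivAt (fun s => Φ (κ s).1) (deriv Φ (κ r).1 * v.1) r :=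
    (hd _).hasDerivAt.comp r hx
  have hc := hφ.cos
  have hs := hφ.sin
  have h1 := (hy.mul hc).sub (hz.mul hs)
  have h2 := (hy.mul hs).add (hz.mul hc)
  have := (hx.prodMk (h1.prodMk h2))
  refine this.congr_deriv ?_
  simp only [dKq]
  refine Prod.ext rfl (Prod.ext ?_ ?_)
  · simp only; ring
  · simp only; ring

theorem Kq_rho (Φ : ℝ → ℝ) (n : V3) : Kq Φ (rho n) = rho (Kq Φ n) := by
  simp only [Kq, rho]
  refine Prod.ext rfl (Prod.ext ?_ ?_)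
  · simp only; ring
  · simp only; ring

theorem dKq_rho (Φ : ℝ → ℝ) (n m : V3) : dKq Φ (rho n) (rho m) = rho (dKq Φ n m) := by
  simp only [dKq, rho]
  refine Prod.ext rfl (Prod.ext ?_ ?_)
  · simp only; ring
  · simp only; ring

theorem deriv_sym {s : ℝ} {Φ : ℝ → ℝ} (h : TwP s Φ) (c : ℝ) : deriv Φ (-c) = deriv Φ c := by
  have hd : Differentiable ℝ Φ := h.smooth.differentiable (by simp)
  have h1 : HasDerivAt (fun c => Φ (-c)) (-deriv Φ (-c)) c := by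
    have h0 := (hd (-c)).hasDerivAt.comp c (hasDerivAt_neg c)
    have h4 : HasDerivAt (fun c => Φ (-c)) (deriv Φ (-c) * -1) c := h0
    exact h4.congr_deriv (by ring)
  have h2 : HasDerivAt (fun c => -(2 * Real.pi) - Φ c) (-deriv Φ c) c := by
    simpa using ((hd c).hasDerivAt.const_sub (-(2 * Real.pi)))
  have h3 : (fun c => Φ (-c)) = fun c => -(2 * Real.pi) - Φ c := funext h.sym
  rw [h3] at h1
  have := h1.unique h2
  linarith

theorem cos_sym {s : ℝ} {Φ : ℝ → ℝ} (h : TwP s Φ) (c : ℝ) :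
    Real.cos (Φ (-c)) = Real.cos (Φ c) := by
  rw [h.sym, show -(2 * Real.pi) - Φ c = -(Φ c) - 2 * Real.pi by ring, Real.cos_sub_two_pi,
    Real.cos_neg]

theorem sin_sym {s : ℝ} {Φ : ℝ → ℝ} (h : TwP s Φ) (c : ℝ) :
    Real.sin (Φ (-c)) = -Real.sin (Φ c) := by
  rw [h.sym, show -(2 * Real.pi) - Φ c = -(Φ c) - 2 * Real.pi by ring, Real.sin_sub_two_pi,
    Real.sin_neg]

theorem Kp_rho {s : ℝ} {Φ : ℝ → ℝ} (h : TwP s Φ) (n : V3) : Kp Φ (rho n) = rho (Kp Φ n) := by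
  simp only [Kp, rho, cos_sym h, sin_sym h]
  refine Prod.ext ?_ (Prod.ext ?_ rfl)
  · simp only; ring
  · simp only; ring

theorem dKp_rho {s : ℝ} {Φ : ℝ → ℝ} (h : TwP s Φ) (n m : V3) :
    dKp Φ (rho n) (rho m) = rho (dKp Φ n m) := by
  simp only [dKp, rho, cos_sym h, sin_sym h, deriv_sym h]
  refine Prod.ext ?_ (Prod.ext ?_ rfl)
  · simp only; ring
  · simp only; ring

/-- `Kp` and `dKp` commute with the action -/
theorem Kp_act {s : ℝ} {Φ : ℝ → ℝ} (h : TwP s Φ) (e : Bool) (n : V3) :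
    Kp Φ (act e n) = act e (Kp Φ n) := by
  cases e
  · rfl
  · exact Kp_rho h n

theorem dKp_act {s : ℝ} {Φ : ℝ → ℝ} (h : TwP s Φ) (e : Bool) (n m : V3) :
    dKp Φ (act e n) (act e m) = act e (dKp Φ n m) := by
  cases e
  · rfl
  · exact dKp_rho h n m

theorem Kq_act (Φ : ℝ → ℝ) (e : Bool) (n : V3) : Kq Φ (act e n) = act e (Kq Φ n) := by
  cases e
  · rfl
  · exact Kq_rho Φ n

theorem dKq_act (Φ : ℝ → ℝ) (e : Bool) (n m : V3) :
    dKq Φ (act e n) (act e m) = act e (dKq Φ n m) := by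
  cases e
  · rfl
  · exact dKq_rho Φ n m

/-- the derivative of a curve on the sphere is tangent -/
theorem tangent {κ : ℝ → V3} {m : V3} {t : ℝ} (h : HasDerivAt κ m t)
    (h1 : ∀ᶠ r in 𝓝 t, dot (κ r) (κ r) = 1) : dot (κ t) m = 0 := by
  have h2 := JetM.hasDeriv_dot h h
  have h3 : HasDerivAt (fun r => dot (κ r) (κ r)) 0 t :=
    (hasDerivAt_const t (1 : ℝ)).congr_of_eventuallyEq h1
  have h4 := h2.unique h3
  have h5 : dot m (κ t) = dot (κ t) m := by simp only [dot]; ring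
  linarith

/-- the determinant of two tangent vectors in the coordinates `(x, c)` -/
theorem det_coord (n u w : V3) (h1 : dot n n = 1) (h2 : dot n u = 0) (h3 : dot n w = 0) :
    |det3 n u w| * |n.2.1| = |u.1 * w.2.2 - u.2.2 * w.1| := by
  rw [← abs_mul, ← abs_neg (u.1 * w.2.2 - u.2.2 * w.1)]
  congr 1
  obtain ⟨n1, n2, n3⟩ := n
  obtain ⟨u1, u2, u3⟩ := u
  obtain ⟨w1, w2, w3⟩ := w
  simp only [dot, det3] at *
  linear_combination (u3 * w1 - u1 * w3) * h1 - (n3 * w1 - n1 * w3) * h2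
    - (n1 * u3 - n3 * u1) * h3

/-- a lift has a derivative -/
theorem lift_deriv {b s : ℝ} {z : ℝ → XS} {κ : ℝ → V3} {t : ℝ} (h : Lift b s z κ t) :
    HasDerivAt κ (deriv κ t) t :=
  (h.1.differentiableAt (by norm_num)).hasDerivAt

theorem lift_tangent {b s : ℝ} {z : ℝ → XS} {κ : ℝ → V3} {t : ℝ} (h : Lift b s z κ t) :
    dot (κ t) (deriv κ t) = 0 := tangent (lift_deriv h) h.2.1

theorem lift_unit {b s : ℝ} {z : ℝ → XS} {κ : ℝ → V3} {t : ℝ} (h : Lift b s z κ t) :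
    dot (κ t) (κ t) = 1 := h.2.1.self_of_nhds

/-- congruence of lifts -/
theorem lift_congr {b s : ℝ} {z z' : ℝ → XS} {κ : ℝ → V3} {t : ℝ} (h : Lift b s z κ t)
    (he : ∀ᶠ r in 𝓝 t, z' r = z r) : Lift b s z' κ t := by
  refine ⟨h.1, h.2.1, ?_⟩
  rcases h.2.2 with ⟨h1, Θ, h2, h3⟩ | ⟨h1, j, hj, h3⟩ | ⟨h1, h3 | h3⟩
  · refine Or.inl ⟨h1, Θ, h2, ?_⟩
    filter_upwards [h3, he] with r hr hr'
    rw [hr']; exact hr
  · refine Or.inr (Or.inl ⟨h1, j, hj, ?_⟩)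
    filter_upwards [h3, he] with r hr hr'
    rw [hr']; exact hr
  · refine Or.inr (Or.inr ⟨h1, Or.inl ?_⟩)
    filter_upwards [h3, he] with r hr hr'
    rw [hr']; exact hr
  · refine Or.inr (Or.inr ⟨h1, Or.inr ?_⟩)
    filter_upwards [h3, he] with r hr hr'
    rw [hr']; exact hr

theorem secQ_fst (j : ℤ) (κ : V3) : (secQ j κ).1 = j := by
  unfold secQ; split_ifs <;> rfl

theorem secQ_x (j : ℤ) (κ : V3) : (secQ j κ).2.1 = κ.1 := by
  unfold secQ; split_ifs <;> rfl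

theorem secF_x (κ : V3) : (secF κ).2.1 = κ.1 := by
  unfold secF; split_ifs <;> rfl

theorem secF_fst (κ : V3) : (secF κ).1 = 1 ∨ (secF κ).1 = 3 := by
  unfold secF; split_ifs
  · exact Or.inl rfl
  · exact Or.inr rfl

/-- the first coordinate of a lift -/
theorem lift_x {b s : ℝ} {z : ℝ → XS} {κ : ℝ → V3} {t : ℝ} (h : Lift b s z κ t) :
    (z t).2.1 = (κ t).1 := by
  rcases h.2.2 with ⟨_, Θ, _, h3⟩ | ⟨_, j, _, h3⟩ | ⟨_, h3 | h3⟩
  · obtain ⟨h4, h5⟩ := h3.self_of_nhds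
    rw [h4, h5]; rfl
  · rw [h3.self_of_nhds, secQ_x]
  · rw [h3.self_of_nhds, secF_x]
  · rw [h3.self_of_nhds, secF_x]; rfl

/-! ### the determinant of two lifts -/

/-- The relation: `κ` at `σ` and `μ` at `r` agree up to the group, and the determinant is `Δ`. -/
def J (κ : ℝ → V3) (σ : ℝ) (μ : ℝ → V3) (r Δ : ℝ) : Prop :=
  ∃ e : Bool, κ σ = act e (μ r) ∧ |det3 (κ σ) (deriv κ σ) (act e (deriv μ r))| = Δ

/-- change of the lifts by elements of the group -/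
theorem J_act {κ κ' : ℝ → V3} {σ : ℝ} {μ μ' : ℝ → V3} {r Δ : ℝ} (e1 e2 : Bool)
    (h1 : κ' σ = act e1 (κ σ)) (h1' : deriv κ' σ = act e1 (deriv κ σ))
    (h2 : μ' r = act e2 (μ r)) (h2' : deriv μ' r = act e2 (deriv μ r)) (h : J κ σ μ r Δ) :
    J κ' σ μ' r Δ := by
  obtain ⟨e, he, hd⟩ := h
  refine ⟨xor e1 (xor e e2), ?_, ?_⟩
  · rw [h1, he, h2, act_act, act_act]
    cases e1 <;> cases e <;> cases e2 <;> rfl
  · have h3 : act (xor e1 (xor e e2)) (deriv μ' r) = act e1 (act e (deriv μ r)) := by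
      rw [h2', act_act, act_act]
      cases e1 <;> cases e <;> cases e2 <;> rfl
    rw [h3, h1, h1', det3_act]
    exact hd

/-- the kicks preserve the determinant -/
theorem J_Kp {s : ℝ} {Φ : ℝ → ℝ} (hΦ : TwP s Φ) {κ : ℝ → V3} {σ : ℝ} {μ : ℝ → V3} {r Δ : ℝ}
    (hκ : HasDerivAt κ (deriv κ σ) σ) (hμ : HasDerivAt μ (deriv μ r) r)
    (u1 : dot (κ σ) (κ σ) = 1) (t1 : dot (κ σ) (deriv κ σ) = 0)
    (t2 : dot (μ r) (deriv μ r) = 0) (h : J κ σ μ r Δ) :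
    J (fun t => Kp Φ (κ t)) σ (fun t => Kp Φ (μ t)) r Δ := by
  obtain ⟨e, he, hd⟩ := h
  have d1 := (JetM.hasDeriv_Kp hΦ.smooth hκ).deriv
  have d2 := (JetM.hasDeriv_Kp hΦ.smooth hμ).deriv
  refine ⟨e, ?_, ?_⟩
  · show Kp Φ (κ σ) = act e (Kp Φ (μ r))
    rw [he, Kp_act hΦ]
  · rw [d1, d2, ← dKp_act hΦ, ← he]
    have h3 : dot (κ σ) (act e (deriv μ r)) = 0 := by rw [he, dot_act]; exact t2
    have := (specDETK Φ (κ σ) (deriv κ σ) (act e (deriv μ r)) u1 t1 h3).2.2.1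
    rw [this]
    exact hd

theorem J_Kq {Φ : ℝ → ℝ} (hΦ : ContDiff ℝ ∞ Φ) {κ : ℝ → V3} {σ : ℝ} {μ : ℝ → V3} {r Δ : ℝ}
    (hκ : HasDerivAt κ (deriv κ σ) σ) (hμ : HasDerivAt μ (deriv μ r) r)
    (u1 : dot (κ σ) (κ σ) = 1) (t1 : dot (κ σ) (deriv κ σ) = 0)
    (t2 : dot (μ r) (deriv μ r) = 0) (h : J κ σ μ r Δ) :
    J (fun t => Kq Φ (κ t)) σ (fun t => Kq Φ (μ t)) r Δ := by
  obtain ⟨e, he, hd⟩ := h
  have d1 := (hasDeriv_Kq hΦ hκ).deriv
  have d2 := (hasDeriv_Kq hΦ hμ).deriv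
  refine ⟨e, ?_, ?_⟩
  · show Kq Φ (κ σ) = act e (Kq Φ (μ r))
    rw [he, Kq_act]
  · rw [d1, d2, ← dKq_act, ← he]
    have h3 : dot (κ σ) (act e (deriv μ r)) = 0 := by rw [he, dot_act]; exact t2
    have := (specDETK Φ (κ σ) (deriv κ σ) (act e (deriv μ r)) u1 t1 h3).2.2.2.2.2
    rw [this]
    exact hd

/-! ### the determinant of two paths -/

/-- Two paths of states through a common state, with crossing determinant `Δ`. -/
def CD (b s : ℝ) (z : ℝ → XS) (σ : ℝ) (w : ℝ → XS) (r Δ : ℝ) : Prop :=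
  z σ = w r ∧ ∃ κ μ : ℝ → V3, Lift b s z κ σ ∧ Lift b s w μ r ∧ J κ σ μ r Δ

theorem CD_congr {b s : ℝ} {z z' : ℝ → XS} {σ : ℝ} {w w' : ℝ → XS} {r Δ : ℝ}
    (h : CD b s z σ w r Δ) (hz : ∀ᶠ u in 𝓝 σ, z' u = z u) (hw : ∀ᶠ u in 𝓝 r, w' u = w u) :
    CD b s z' σ w' r Δ := by
  obtain ⟨h1, κ, μ, h2, h3, h4⟩ := h
  refine ⟨?_, κ, μ, lift_congr h2 hz, lift_congr h3 hw, h4⟩
  rw [hz.self_of_nhds, hw.self_of_nhds]; exact h1

/-- The step `P`. -/
theorem CD_PP (hS : SpecSTEPP) {b s : ℝ} (b0 : 0 < b) (s0 : 0 < s) (sb : s ^ 2 + b ^ 2 = 1)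
    {Φ : ℝ → ℝ} (hΦ : TwP s Φ) {z : ℝ → XS} {σ : ℝ} {w : ℝ → XS} {r Δ : ℝ}
    (cz : ∀ᶠ u in 𝓝 σ, Can b s (z u)) (cw : ∀ᶠ u in 𝓝 r, Can b s (w u))
    (h : CD b s z σ w r Δ) :
    CD b s (fun u => PP s Φ (z u)) σ (fun u => PP s Φ (w u)) r Δ := by
  obtain ⟨h1, κ, μ, h2, h3, h4⟩ := h
  have k1 := lift_deriv h2
  have k2 := lift_deriv h3
  have hJ := J_Kp hΦ k1 k2 (lift_unit h2) (lift_tangent h2) (lift_tangent h3) h4
  have e1 := (JetM.hasDeriv_Kp hΦ.smooth k1)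
  have e2 := (JetM.hasDeriv_Kp hΦ.smooth k2)
  refine ⟨by show PP s Φ (z σ) = PP s Φ (w r); rw [h1], ?_⟩
  rcases hS b s Φ b0 s0 sb hΦ z κ σ cz h2 with a1 | a1 <;>
  rcases hS b s Φ b0 s0 sb hΦ w μ r cw h3 with a2 | a2
  · exact ⟨_, _, a1, a2, J_act true true rfl
      ((hasDerivAt_rho e1).deriv.trans (by rw [e1.deriv]; rfl)) rfl
      ((hasDerivAt_rho e2).deriv.trans (by rw [e2.deriv]; rfl)) hJ⟩
  · exact ⟨_, _, a1, a2, J_act true false rfl
      ((hasDerivAt_rho e1).deriv.trans (by rw [e1.deriv]; rfl)) rfl rfl hJ⟩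
  · exact ⟨_, _, a1, a2, J_act false true rfl rfl rfl
      ((hasDerivAt_rho e2).deriv.trans (by rw [e2.deriv]; rfl)) hJ⟩
  · exact ⟨_, _, a1, a2, hJ⟩

/-- Twist functions of `Q` are constant off `|x| < b`. -/
theorem flat {b : ℝ} {Ψ : ℝ → ℝ} (hΨ : TwQ b Ψ) (x : ℝ) (hx : b ≤ |x|) :
    deriv Ψ x = 0 ∧ (Ψ x = 0 ∨ Ψ x = Real.pi ∨ Ψ x = -Real.pi) := by
  have hd : HasDerivAt Ψ (deriv Ψ x) x := ((hΨ.smooth.differentiable (by simp)) x).hasDerivAt
  rcases le_or_gt 0 x with h0 | h0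
  · rw [abs_of_nonneg h0] at hx
    have key : ∀ v : ℝ, (∀ y, b ≤ y → Ψ y = v) → deriv Ψ x = 0 := by
      intro v hv
      have h1 : HasDerivWithinAt Ψ (deriv Ψ x) (Ici x) x := hd.hasDerivWithinAt
      have h2 : HasDerivWithinAt Ψ 0 (Ici x) x :=
        (hasDerivWithinAt_const x (Ici x) v).congr (fun y hy => hv y (hx.trans hy)) (hv x hx)
      exact (uniqueDiffWithinAt_Ici x).eq_deriv (Ici x) h1 h2
    rcases hΨ.hi with h | h
    · exact ⟨key _ h, Or.inr (Or.inl (h x hx))⟩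
    · exact ⟨key _ h, Or.inr (Or.inr (h x hx))⟩
  · rw [abs_of_neg h0] at hx
    have hx' : x ≤ -b := by linarith
    have h1 : HasDerivWithinAt Ψ (deriv Ψ x) (Iic x) x := hd.hasDerivWithinAt
    have h2 : HasDerivWithinAt Ψ 0 (Iic x) x :=
      (hasDerivWithinAt_const x (Iic x) (0 : ℝ)).congr (fun y hy => hΨ.lo y (le_trans hy hx'))
        (hΨ.lo x hx')
    exact ⟨(uniqueDiffWithinAt_Iic x).eq_deriv (Iic x) h1 h2, Or.inl (hΨ.lo x hx')⟩

/-- Off `|x| < b` the kick of the caps `q` is in the group. -/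
theorem Kq_flat {b : ℝ} {Ψ : ℝ → ℝ} (hΨ : TwQ b Ψ) (n m : V3) (hx : b ≤ |n.1|) :
    ∃ e : Bool, Kq Ψ n = act e n ∧ dKq Ψ n m = act e m := by
  obtain ⟨h1, h2⟩ := flat hΨ n.1 hx
  rcases h2 with h2 | h2 | h2
  · refine ⟨false, ?_, ?_⟩
    · simp [Kq, act, h2]
    · simp [dKq, act, h2, h1]
  · refine ⟨true, ?_, ?_⟩
    · simp [Kq, act, h2, rho]
    · simp [dKq, act, h2, h1, rho]
  · refine ⟨true, ?_, ?_⟩
    · simp [Kq, act, h2, rho]
    · simp [dKq, act, h2, h1, rho]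

/-- Off `|x| < b`, all lifts offered by STEPQ differ from the old one by the group. -/
theorem stepQ_flat (hS : SpecSTEPQ) {b s : ℝ} (b0 : 0 < b) (s0 : 0 < s)
    (sb : s ^ 2 + b ^ 2 = 1) {Ψ : ℝ → ℝ} (hΨ : TwQ b Ψ) {z : ℝ → XS} {σ : ℝ}
    (cz : ∀ᶠ u in 𝓝 σ, Can b s (z u)) {κ : ℝ → V3} (h : Lift b s z κ σ)
    (hx : b ≤ |(z σ).2.1|) :
    ∃ (κ' : ℝ → V3) (e : Bool), Lift b s (fun u => QQ b Ψ (z u)) κ' σ ∧
      κ' σ = act e (κ σ) ∧ deriv κ' σ = act e (deriv κ σ) := by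
  rw [lift_x h] at hx
  have k1 := lift_deriv h
  have e1 := hasDeriv_Kq hΨ.smooth k1
  obtain ⟨e, he, he'⟩ := Kq_flat hΨ (κ σ) (deriv κ σ) hx
  rcases (hS b s Ψ b0 s0 sb hΨ z κ σ cz h).1 with a1 | a1 | a1
  · refine ⟨_, xor true e, a1, ?_, ?_⟩
    · show rho (Kq Ψ (κ σ)) = act (xor true e) (κ σ)
      rw [he, ← act_act]; rfl
    · rw [(hasDerivAt_rho e1).deriv, he', ← act_act]; rfl
  · refine ⟨_, e, a1, he, ?_⟩
    rw [e1.deriv, he']
  · exact ⟨_, false, a1, rfl, rfl⟩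

/-- Near a far state with `|x| < b` nothing is kicked. -/
theorem stepQ_far (hL : SpecL1) {b s : ℝ} (b0 : 0 < b) (s0 : 0 < s)
    (sb : s ^ 2 + b ^ 2 = 1) {Ψ : ℝ → ℝ} {z : ℝ → XS} {σ : ℝ} {κ : ℝ → V3}
    (h : Lift b s z κ σ) (hx : |(z σ).2.1| < b) (hj : ¬((z σ).1 = 0 ∨ (z σ).1 = 2))
    (cz : ∀ᶠ u in 𝓝 σ, Can b s (z u)) :
    ∀ᶠ u in 𝓝 σ, QQ b Ψ (z u) = z u := by
  -- the label is odd near `σ`
  have hodd : ∀ᶠ u in 𝓝 σ, (z u).1 % 2 ≠ 0 := by
    by_cases hD : (κ σ).2.1 = 0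
    · -- then `s ≤ |c|` and `κ` is a far lift
      rcases h.2.2 with ⟨h1, _⟩ | ⟨_, j, hj', h3⟩ | ⟨_, h3 | h3⟩
      · exfalso
        have h4 := lift_unit h
        rw [lift_x h] at hx
        simp only [dot, hD, mul_zero, add_zero] at h4
        have h5 : (κ σ).1 ^ 2 < b ^ 2 := by
          rw [← sq_abs (κ σ).1]
          exact pow_lt_pow_left₀ hx (abs_nonneg _) (by norm_num)
        have h6 : (κ σ).2.2 ^ 2 < s ^ 2 := by
          rw [← sq_abs (κ σ).2.2]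
          exact pow_lt_pow_left₀ h1 (abs_nonneg _) (by norm_num)
        nlinarith
      · exfalso
        rw [h3.self_of_nhds, secQ_fst] at hj
        exact hj hj'
      · filter_upwards [h3] with u hu
        rw [hu]
        rcases secF_fst (κ u) with h4 | h4 <;> rw [h4] <;> norm_num
      · filter_upwards [h3] with u hu
        rw [hu]
        rcases secF_fst (rho (κ u)) with h4 | h4 <;> rw [h4] <;> norm_num
    · obtain ⟨j, κ', _, _, h3, _⟩ := (hL b s b0 s0 sb).2.2.1 z κ σ h hD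
      have h4 : (z σ).1 = j := by rw [h3.self_of_nhds]
      filter_upwards [h3, cz] with u hu hc
      have h5 : (z u).1 = j := by rw [hu]
      have h6 := cz.self_of_nhds
      rw [h4] at hj
      rw [h5]
      obtain ⟨_, ⟨h7, _⟩ | ⟨h7, _⟩⟩ := h6
      · rw [h4] at h7; exact absurd h7 hj
      · rw [h4] at h7
        rcases h7 with h7 | h7 <;> rw [h7] <;> norm_num
  filter_upwards [hodd] with u hu
  unfold QQ
  rw [if_neg]
  exact fun h => hu h.1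

/-- The step `Q`. -/
theorem CD_QQ (hL : SpecL1) (hS : SpecSTEPQ) {b s : ℝ} (b0 : 0 < b) (s0 : 0 < s)
    (sb : s ^ 2 + b ^ 2 = 1)
    {Ψ : ℝ → ℝ} (hΨ : TwQ b Ψ) {z : ℝ → XS} {σ : ℝ} {w : ℝ → XS} {r Δ : ℝ}
    (cz : ∀ᶠ u in 𝓝 σ, Can b s (z u)) (cw : ∀ᶠ u in 𝓝 r, Can b s (w u))
    (h : CD b s z σ w r Δ) :
    CD b s (fun u => QQ b Ψ (z u)) σ (fun u => QQ b Ψ (w u)) r Δ := by
  by_cases hx : |(z σ).2.1| < b
  · by_cases hj : (z σ).1 = 0 ∨ (z σ).1 = 2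
    · obtain ⟨h1, κ, μ, h2, h3, h4⟩ := h
      refine ⟨by show QQ b Ψ (z σ) = QQ b Ψ (w r); rw [h1], ?_⟩
      have k1 := lift_deriv h2
      have k2 := lift_deriv h3
      have hJ := J_Kq hΨ.smooth k1 k2 (lift_unit h2) (lift_tangent h2) (lift_tangent h3) h4
      exact ⟨_, _, (hS b s Ψ b0 s0 sb hΨ z κ σ cz h2).2 hj hx,
        (hS b s Ψ b0 s0 sb hΨ w μ r cw h3).2 (h1 ▸ hj) (h1 ▸ hx), hJ⟩
    · obtain ⟨h1, κ, μ, h2, h3, h4⟩ := id h
      exact CD_congr h (stepQ_far hL b0 s0 sb h2 hx hj cz)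
        (stepQ_far hL b0 s0 sb h3 (h1 ▸ hx) (h1 ▸ hj) cw)
  · obtain ⟨h1, κ, μ, h2, h3, h4⟩ := h
    push Not at hx
    refine ⟨by show QQ b Ψ (z σ) = QQ b Ψ (w r); rw [h1], ?_⟩
    obtain ⟨κ', e1, a1, a2, a3⟩ := stepQ_flat hS b0 s0 sb hΨ cz h2 hx
    obtain ⟨μ', e2, b1, b2, b3⟩ := stepQ_flat hS b0 s0 sb hΨ cw h3 (h1 ▸ hx)
    exact ⟨κ', μ', a1, b1, J_act e1 e2 a2 a3 b2 b3 h4⟩

/-! ### lifts of iterates -/

theorem lift_PP (hS : SpecSTEPP) {b s : ℝ} (b0 : 0 < b) (s0 : 0 < s) (sb : s ^ 2 + b ^ 2 = 1)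
    {Φ : ℝ → ℝ} (hΦ : TwP s Φ) {z : ℝ → XS} {σ : ℝ} (cz : ∀ᶠ u in 𝓝 σ, Can b s (z u))
    (h : ∃ κ, Lift b s z κ σ) : ∃ κ, Lift b s (fun u => PP s Φ (z u)) κ σ := by
  obtain ⟨κ, h2⟩ := h
  rcases hS b s Φ b0 s0 sb hΦ z κ σ cz h2 with a1 | a1
  · exact ⟨_, a1⟩
  · exact ⟨_, a1⟩

theorem lift_QQ (hS : SpecSTEPQ) {b s : ℝ} (b0 : 0 < b) (s0 : 0 < s) (sb : s ^ 2 + b ^ 2 = 1)
    {Ψ : ℝ → ℝ} (hΨ : TwQ b Ψ) {z : ℝ → XS} {σ : ℝ} (cz : ∀ᶠ u in 𝓝 σ, Can b s (z u))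
    (h : ∃ κ, Lift b s z κ σ) : ∃ κ, Lift b s (fun u => QQ b Ψ (z u)) κ σ := by
  obtain ⟨κ, h2⟩ := h
  rcases (hS b s Ψ b0 s0 sb hΨ z κ σ cz h2).1 with a1 | a1 | a1
  · exact ⟨_, a1⟩
  · exact ⟨_, a1⟩
  · exact ⟨_, a1⟩

/-- the properties used of the maps -/
structure Maps (b s : ℝ) (T T' : XS → XS) : Prop where
  can : ∀ z, Can b s z → Can b s (T z)
  can' : ∀ z, Can b s z → Can b s (T' z)
  inv : ∀ z, Can b s z → T (T' z) = z
  lift : ∀ (z : ℝ → XS) (σ : ℝ), (∀ᶠ u in 𝓝 σ, Can b s (z u)) → (∃ κ, Lift b s z κ σ) →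
    ∃ κ, Lift b s (fun u => T (z u)) κ σ
  lift' : ∀ (z : ℝ → XS) (σ : ℝ), (∀ᶠ u in 𝓝 σ, Can b s (z u)) → (∃ κ, Lift b s z κ σ) →
    ∃ κ, Lift b s (fun u => T' (z u)) κ σ
  cd : ∀ (z w : ℝ → XS) (σ r Δ : ℝ), (∀ᶠ u in 𝓝 σ, Can b s (z u)) →
    (∀ᶠ u in 𝓝 r, Can b s (w u)) → CD b s z σ w r Δ →
    CD b s (fun u => T (z u)) σ (fun u => T (w u)) r Δ

theorem maps (hL : SpecL1) (hP : SpecSTEPP) (hQ : SpecSTEPQ) (hX : SpecSX1)
    {b s : ℝ} {F G : ℝ → ℝ} (hT : Tw b s F G) : Maps b s (TX b s F G) (TX' b s F G) := by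
  obtain ⟨tF, tF', tG, tG', cP, cQ, iP, iQ, _⟩ := hX b s F G hT
  have b0 := hT.b0
  have s0 := hT.s0
  have sb := hT.sb
  refine ⟨?_, ?_, ?_, ?_, ?_, ?_⟩
  · intro z hz
    exact cP F tF _ (cQ G tG z hz)
  · intro z hz
    exact cQ _ tG' _ (cP _ tF' z hz)
  · intro z hz
    unfold TX TX'
    rw [(iQ _ (cP _ tF' z hz)).2, (iP z hz).2]
  · intro z σ cz h
    exact lift_PP hP b0 s0 sb tF (cz.mono fun u hu => cQ G tG _ hu)
      (lift_QQ hQ b0 s0 sb tG cz h)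
  · intro z σ cz h
    exact lift_QQ hQ b0 s0 sb tG' (cz.mono fun u hu => cP _ tF' _ hu)
      (lift_PP hP b0 s0 sb tF' cz h)
  · intro z w σ r Δ cz cw h
    exact CD_PP hP b0 s0 sb tF (cz.mono fun u hu => cQ G tG _ hu)
      (cw.mono fun u hu => cQ G tG _ hu) (CD_QQ hL hQ b0 s0 sb tG cz cw h)

section iter

variable {b s : ℝ} {T T' : XS → XS}

theorem can_iter (h : Maps b s T T') (n : ℕ) {z : XS} (hz : Can b s z) :
    Can b s (T^[n] z) := by
  induction n with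
  | zero => exact hz
  | succ n ih => rw [Function.iterate_succ_apply']; exact h.can _ ih

theorem can_iter' (h : Maps b s T T') (n : ℕ) {z : XS} (hz : Can b s z) :
    Can b s (T'^[n] z) := by
  induction n with
  | zero => exact hz
  | succ n ih => rw [Function.iterate_succ_apply']; exact h.can' _ ih

theorem inv_iter (h : Maps b s T T') (n : ℕ) {z : XS} (hz : Can b s z) :
    T^[n] (T'^[n] z) = z := by
  induction n with
  | zero => rfl
  | succ n ih =>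
    rw [Function.iterate_succ_apply, Function.iterate_succ_apply', h.inv _ (can_iter' h n hz)]
    exact ih

theorem lift_iter (h : Maps b s T T') (n : ℕ) {z : ℝ → XS} {σ : ℝ}
    (cz : ∀ᶠ u in 𝓝 σ, Can b s (z u)) (hz : ∃ κ, Lift b s z κ σ) :
    ∃ κ, Lift b s (fun u => T^[n] (z u)) κ σ := by
  induction n with
  | zero => exact hz
  | succ n ih =>
    have := h.lift _ σ (cz.mono fun u hu => can_iter h n hu) ih
    simp only [Function.iterate_succ_apply']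
    exact this

theorem lift_iter' (h : Maps b s T T') (n : ℕ) {z : ℝ → XS} {σ : ℝ}
    (cz : ∀ᶠ u in 𝓝 σ, Can b s (z u)) (hz : ∃ κ, Lift b s z κ σ) :
    ∃ κ, Lift b s (fun u => T'^[n] (z u)) κ σ := by
  induction n with
  | zero => exact hz
  | succ n ih =>
    have := h.lift' _ σ (cz.mono fun u hu => can_iter' h n hu) ih
    simp only [Function.iterate_succ_apply']
    exact this

theorem cd_iter (h : Maps b s T T') (n : ℕ) {z w : ℝ → XS} {σ r Δ : ℝ}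
    (cz : ∀ᶠ u in 𝓝 σ, Can b s (z u)) (cw : ∀ᶠ u in 𝓝 r, Can b s (w u))
    (hz : CD b s z σ w r Δ) :
    CD b s (fun u => T^[n] (z u)) σ (fun u => T^[n] (w u)) r Δ := by
  induction n with
  | zero => exact hz
  | succ n ih =>
    have := h.cd _ _ σ r Δ (cz.mono fun u hu => can_iter h n hu)
      (cw.mono fun u hu => can_iter h n hu) ih
    simp only [Function.iterate_succ_apply']
    exact this

end iter

/-! ### the near squares -/

/-- `1 - x² - c² > 0` in the near squares -/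
theorem sq_pos {b s x c : ℝ} (sb : s ^ 2 + b ^ 2 = 1) (hx : |x| < b) (hc : |c| < s) :
    0 < 1 - x ^ 2 - c ^ 2 := by
  have h1 : x ^ 2 < b ^ 2 := by
    rw [← sq_abs x]; exact pow_lt_pow_left₀ hx (abs_nonneg _) (by norm_num)
  have h2 : c ^ 2 < s ^ 2 := by
    rw [← sq_abs c]; exact pow_lt_pow_left₀ hc (abs_nonneg _) (by norm_num)
  linarith

/-- the vector of a point of a near square -/
noncomputable def vc (x c : ℝ) : V3 := (x, -Real.sqrt (1 - x ^ 2 - c ^ 2), c)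

/-- the label of a near square -/
def lb (j : Bool) : ℤ := if j then 2 else 0

theorem chX_eq (j : Bool) (x c : ℝ) : chX j x c = (lb j, vc x c) := rfl

theorem lb_cases (j : Bool) : lb j = 0 ∨ lb j = 2 := by cases j <;> simp [lb]

theorem vc_unit {x c : ℝ} (h : 0 < 1 - x ^ 2 - c ^ 2) : dot (vc x c) (vc x c) = 1 := by
  have := Real.mul_self_sqrt h.le
  simp only [dot, vc]
  nlinarith

theorem can_chX {b s : ℝ} (sb : s ^ 2 + b ^ 2 = 1) (j : Bool) {x c : ℝ} (hx : |x| < b)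
    (hc : |c| < s) : Can b s (chX j x c) := by
  have h := sq_pos sb hx hc
  refine ⟨vc_unit h, Or.inl ⟨lb_cases j, Or.inl ?_⟩⟩
  show -Real.sqrt (1 - x ^ 2 - c ^ 2) < 0
  have := Real.sqrt_pos.2 h
  linarith

/-- a smooth path in a near square has a lift -/
theorem lift_chX (hL : SpecL1) {b s : ℝ} (b0 : 0 < b) (s0 : 0 < s) (sb : s ^ 2 + b ^ 2 = 1)
    (j : Bool) {X C : ℝ → ℝ} (hX : ContDiff ℝ 2 X) (hC : ContDiff ℝ 2 C) {t : ℝ}
    (hx : |X t| < b) (hc : |C t| < s) :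
    ∃ κ, Lift b s (fun u => chX j (X u) (C u)) κ t := by
  have h0 := sq_pos sb hx hc
  have hev : ∀ᶠ u in 𝓝 t, 0 < 1 - X u ^ 2 - C u ^ 2 := by
    have : Continuous (fun u => 1 - X u ^ 2 - C u ^ 2) :=
      ((continuous_const.sub (hX.continuous.pow 2)).sub (hC.continuous.pow 2))
    exact this.continuousAt.eventually (lt_mem_nhds h0)
  refine ⟨fun u => vc (X u) (C u), ?_⟩
  refine ((hL b s b0 s0 sb).2.2.2 _ _ t (lb j) ?_ ?_ ?_ ?_).1
  · have h1 : ContDiffAt ℝ 2 (fun u => Real.sqrt (1 - X u ^ 2 - C u ^ 2)) t :=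
      ContDiffAt.sqrt (((contDiff_const.sub (hX.pow 2)).sub (hC.pow 2)).contDiffAt) h0.ne'
    exact hX.contDiffAt.prodMk (h1.neg.prodMk hC.contDiffAt)
  · filter_upwards [hev] with u hu
    exact vc_unit hu
  · exact Eventually.of_forall fun u => rfl
  · refine Or.inl ⟨lb_cases j, ?_⟩
    show -Real.sqrt (1 - X t ^ 2 - C t ^ 2) < 0
    have := Real.sqrt_pos.2 h0
    linarith

/-- Reading the coordinates of a path in a near square from a lift. -/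
theorem read (hL : SpecL1) {b s : ℝ} (b0 : 0 < b) (s0 : 0 < s) (sb : s ^ 2 + b ^ 2 = 1)
    {z : ℝ → XS} {κ : ℝ → V3} {t : ℝ} (h : Lift b s z κ t) {j : Bool} {X C : ℝ → ℝ}
    (hx : |X t| < b) (hc : |C t| < s) (hz : ∀ᶠ u in 𝓝 t, z u = chX j (X u) (C u)) :
    ∃ e : Bool, act e (κ t) = vc (X t) (C t) ∧ HasDerivAt X (act e (deriv κ t)).1 t ∧
      HasDerivAt C (act e (deriv κ t)).2.2 t := by
  have h0 := sq_pos sb hx hc
  have hs := Real.sqrt_pos.2 h0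
  have hD : (κ t).2.1 ≠ 0 := by
    intro hD
    -- from the lift, the `D` coordinate of `z t` is `± (κ t).2.1`
    have h1 : (z t).2.2.1 = 0 := by
      rcases h.2.2 with ⟨_, Θ, _, h3⟩ | ⟨_, j', _, h3⟩ | ⟨_, h3 | h3⟩
      · obtain ⟨h4, h5⟩ := h3.self_of_nhds
        rw [h4]
        show (nn (Θ t) (κ t).2.2).2.1 = 0
        rw [← h5]; exact hD
      · rw [h3.self_of_nhds]
        unfold secQ
        split_ifs
        · exact hD
        · show -(κ t).2.1 = 0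
          rw [hD, neg_zero]
      · rw [h3.self_of_nhds]
        unfold secF
        split_ifs
        · exact hD
        · show -(κ t).2.1 = 0
          rw [hD, neg_zero]
      · rw [h3.self_of_nhds]
        unfold secF
        split_ifs
        · show -(κ t).2.1 = 0
          rw [hD, neg_zero]
        · show -(-(κ t).2.1) = 0
          rw [hD, neg_zero, neg_zero]
    rw [hz.self_of_nhds] at h1
    have h2 : -Real.sqrt (1 - X t ^ 2 - C t ^ 2) = 0 := h1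
    linarith
  obtain ⟨j', κ', h1, h2, h3, _⟩ := (hL b s b0 s0 sb).2.2.1 z κ t h hD
  have h4 : ∀ᶠ u in 𝓝 t, κ' u = vc (X u) (C u) := by
    filter_upwards [h3, hz] with u hu hu'
    have := hu.symm.trans hu'
    exact (Prod.ext_iff.1 this).2
  obtain ⟨e, he⟩ : ∃ e : Bool, ∀ u, κ' u = act e (κ u) := by
    rcases h1 with h1 | h1
    · exact ⟨false, h1⟩
    · exact ⟨true, h1⟩
  have h5 : HasDerivAt κ' (act e (deriv κ t)) t := by
    have : κ' = fun u => act e (κ u) := funext he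
    rw [this]
    exact hasDerivAt_act e (lift_deriv h)
  refine ⟨e, ?_, ?_, ?_⟩
  · rw [← he t]; exact h4.self_of_nhds
  · refine (JetM.fst' h5).congr_of_eventuallyEq ?_
    filter_upwards [h4] with u hu
    rw [hu]; rfl
  · refine (JetM.snd2 (JetM.snd' h5)).congr_of_eventuallyEq ?_
    filter_upwards [h4] with u hu
    rw [hu]; rfl

theorem vc_act {x c : ℝ} (h : 0 < 1 - x ^ 2 - c ^ 2) {e : Bool} (he : act e (vc x c) = vc x c) :
    e = false := by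
  cases e
  · rfl
  · exfalso
    have hs := Real.sqrt_pos.2 h
    have h1 : -(-Real.sqrt (1 - x ^ 2 - c ^ 2)) = -Real.sqrt (1 - x ^ 2 - c ^ 2) :=
      congrArg (fun v : V3 => v.2.1) he
    linarith

/-- The determinant read in the coordinates. -/
theorem read2 (hL : SpecL1) {b s : ℝ} (b0 : 0 < b) (s0 : 0 < s) (sb : s ^ 2 + b ^ 2 = 1)
    {z w : ℝ → XS} {σ r Δ : ℝ} (h : CD b s z σ w r Δ) {j : Bool} {X C Y E : ℝ → ℝ} {x c : ℝ}
    (hx : |x| < b) (hc : |c| < s) (hX : X σ = x) (hC : C σ = c) (hY : Y r = x) (hE : E r = c)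
    (hz : ∀ᶠ u in 𝓝 σ, z u = chX j (X u) (C u)) (hw : ∀ᶠ u in 𝓝 r, w u = chX j (Y u) (E u))
    {x' y' e' : ℝ} (dX : HasDerivAt X x' σ) (dY : HasDerivAt Y y' r) (dE : HasDerivAt E e' r) :
    ∃ c' : ℝ, HasDerivAt C c' σ ∧
      |x' * e' - c' * y'| = Δ * Real.sqrt (1 - x ^ 2 - c ^ 2) := by
  obtain ⟨h1, κ, μ, h2, h3, e, he, hd⟩ := h
  subst hX
  subst hC
  obtain ⟨e1, a1, a2, a3⟩ := read hL b0 s0 sb h2 hx hc hz
  obtain ⟨e2, b1, b2, b3⟩ := read hL b0 s0 sb h3 (by rw [hY]; exact hx) (by rw [hE]; exact hc) hw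
  rw [hY, hE] at b1
  have h0 := sq_pos sb hx hc
  have hs := Real.sqrt_pos.2 h0
  -- the group elements
  have h5 : xor e1 (xor e e2) = false := by
    apply vc_act h0
    have : κ σ = act e (act e2 (vc (X σ) (C σ))) := by
      rw [he, ← b1, act_act e2 e2]
      cases e2 <;> rfl
    rw [← act_act, ← act_act, ← this, a1]
  have h6 : act e1 (act e (deriv μ r)) = act e2 (deriv μ r) := by
    cases e1 <;> cases e <;> cases e2 <;> simp_all [act, rho]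
  refine ⟨_, a3, ?_⟩
  have h7 : det3 (vc (X σ) (C σ)) (act e1 (deriv κ σ)) (act e2 (deriv μ r)) =
      det3 (κ σ) (deriv κ σ) (act e (deriv μ r)) := by
    rw [← h6, ← a1, det3_act]
  have t1 : dot (vc (X σ) (C σ)) (act e1 (deriv κ σ)) = 0 := by
    rw [← a1, dot_act]; exact lift_tangent h2
  have t2 : dot (vc (X σ) (C σ)) (act e2 (deriv μ r)) = 0 := by
    rw [← b1, dot_act]; exact lift_tangent h3
  have h8 := det_coord _ _ _ (vc_unit h0) t1 t2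
  rw [h7, hd] at h8
  have h9 : |(vc (X σ) (C σ)).2.1| = Real.sqrt (1 - X σ ^ 2 - C σ ^ 2) := by
    show |-Real.sqrt (1 - X σ ^ 2 - C σ ^ 2)| = _
    rw [abs_neg, abs_of_pos hs]
  rw [h9, ← dX.unique a2, ← dY.unique b2, ← dE.unique b3] at h8
  exact h8.symm

/-- Two lifts of paths through a common point of a near square have a determinant. -/
theorem init (hL : SpecL1) {b s : ℝ} (b0 : 0 < b) (s0 : 0 < s) (sb : s ^ 2 + b ^ 2 = 1)
    {z w : ℝ → XS} {σ r : ℝ} (h1 : ∃ κ, Lift b s z κ σ) (h2 : ∃ κ, Lift b s w κ r)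
    {j : Bool} {X C Y E : ℝ → ℝ} {x c : ℝ}
    (hx : |x| < b) (hc : |c| < s) (hX : X σ = x) (hC : C σ = c) (hY : Y r = x) (hE : E r = c)
    (hz : ∀ᶠ u in 𝓝 σ, z u = chX j (X u) (C u)) (hw : ∀ᶠ u in 𝓝 r, w u = chX j (Y u) (E u)) :
    ∃ Δ : ℝ, CD b s z σ w r Δ := by
  obtain ⟨κ, h1⟩ := h1
  obtain ⟨μ, h2⟩ := h2
  obtain ⟨e1, a1, _, _⟩ :=
    read hL b0 s0 sb h1 (by rw [hX]; exact hx) (by rw [hC]; exact hc) hz
  obtain ⟨e2, b1, _, _⟩ :=
    read hL b0 s0 sb h2 (by rw [hY]; exact hx) (by rw [hE]; exact hc) hw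
  rw [hX, hC] at a1
  rw [hY, hE] at b1
  refine ⟨_, ?_, κ, μ, h1, h2, xor e1 e2, ?_, rfl⟩
  · rw [hz.self_of_nhds, hw.self_of_nhds, hX, hC, hY, hE]
  · have h3 : act e1 (act e1 (κ σ)) = act e1 (act e2 (μ r)) := by rw [a1, b1]
    rw [act_act, act_act] at h3
    rw [← h3]
    cases e1 <;> rfl

end CrsM

open CrsM in
/-- CRS: the crossing determinant. -/
theorem specCRS (hL : SpecL1) (hP : SpecSTEPP) (hQ : SpecSTEPQ) (hX : SpecSX1) : SpecCRS := by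
  intro b s F G hT
  have hM := maps hL hP hQ hX hT
  have b0 := hT.b0
  have s0 := hT.s0
  have sb := hT.sb
  intro t t' j0 j1 j x0 c0 σ x1 c1 r x c X1 C1 X2 C2 X3 C3 x1' c1' x2' c2' x3' hσ hc0 hx1 hr
    hx hc _ _ hz1 dX1 dC1 eX1 eC1 hz2 dX2 dC2 eX2 eC2 hz3 dX3 _ eX3 eC3
  -- the two segments
  have id2 : ContDiff ℝ 2 (fun u : ℝ => x0 + u) := contDiff_const.add contDiff_id
  have id2' : ContDiff ℝ 2 (fun u : ℝ => c1 + u) := contDiff_const.add contDiff_id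
  have cz : ∀ᶠ u in 𝓝 σ, Can b s (chX j0 (x0 + u) c0) := by
    have : ∀ᶠ u in 𝓝 σ, |x0 + u| < b :=
      (continuous_abs.comp (continuous_const.add continuous_id)).continuousAt.eventually
        (gt_mem_nhds hσ)
    filter_upwards [this] with u hu
    exact can_chX sb j0 hu hc0
  have cw : ∀ᶠ u in 𝓝 r, Can b s (chX j1 x1 (c1 + u)) := by
    have : ∀ᶠ u in 𝓝 r, |c1 + u| < s :=
      (continuous_abs.comp (continuous_const.add continuous_id)).continuousAt.eventually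
        (gt_mem_nhds hr)
    filter_upwards [this] with u hu
    exact can_chX sb j1 hx1 hu
  have lz := lift_chX hL b0 s0 sb j0 id2 (contDiff_const (c := c0)) (t := σ) hσ hc0
  have lw := lift_chX hL b0 s0 sb j1 (contDiff_const (c := x1)) id2' (t := r) hx1 hr
  have lzt := lift_iter hM t cz lz
  have lwt := lift_iter' hM t' cw lw
  obtain ⟨Δ, hΔ⟩ := init hL b0 s0 sb lzt lwt hx hc eX1 eC1 eX2 eC2 hz1 hz2
  obtain ⟨c'', dC, h1⟩ := read2 hL b0 s0 sb hΔ hx hc eX1 eC1 eX2 eC2 hz1 hz2 dX1 dX2 dC2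
  rw [dC.unique dC1] at h1
  -- push forward
  have hΔ2 := cd_iter hM t' (cz.mono fun u hu => can_iter hM t hu)
    (cw.mono fun u hu => can_iter' hM t' hu) hΔ
  have hz3' : ∀ᶠ u in 𝓝 σ, (TX b s F G)^[t'] ((TX b s F G)^[t] (chX j0 (x0 + u) c0)) =
      chX j1 (X3 u) (C3 u) := by
    filter_upwards [hz3] with u hu
    rw [← hu, ← Function.iterate_add_apply, Nat.add_comm]
  have hw3 : ∀ᶠ u in 𝓝 r, (TX b s F G)^[t'] ((TX' b s F G)^[t'] (chX j1 x1 (c1 + u))) =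
      chX j1 ((fun _ : ℝ => x1) u) ((fun v : ℝ => c1 + v) u) := by
    filter_upwards [cw] with u hu
    exact inv_iter hM t' hu
  obtain ⟨c''', dC', h2⟩ := read2 hL b0 s0 sb hΔ2 hx1 hr eX3 eC3 rfl rfl hz3' hw3 dX3
    (hasDerivAt_const r x1) ((hasDerivAt_id' r).const_add c1)
  rw [mul_one, mul_zero, sub_zero] at h2
  rw [h1, h2]
  ring

end Pool.Agent.Lib.MP_d2b992_gt.Dyn
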