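import Mathlib
import Pool.Agent.Lib.MP_d2b992_gt.Dyn.Spec3

section
/-!
# ACT: absolute continuity at a fixed time (DYN.md section 5)
-/
set_option autoImplicit false

open MeasureTheory Filter Topology Set

namespace Pool.Agent.Lib.MP_d2b992_gt.Dyn.ActM

/-- The chart of the `k`-th image of the segment, on its maximal domain. -/
theorem chartO {X : Type} {S : X → X} {E : Bool → ℝ → ℝ → X} {βp βq sg p1 q1 C η : ℝ}
    {j0 : Bool} {p0 q0 : ℝ} {v A N N' : ℕ → ℝ → ℝ}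
    (hE : Evo S E βp βq sg p1 q1 C η j0 p0 q0 v A N N') (hinj : ChartInj E βp βq) (k : ℕ)
    (j : Bool) : ∃ (O : Set ℝ) (P Q P' Q' : ℝ → ℝ), IsOpen O ∧
      (∀ σ ∈ O, HasDerivAt P (P' σ) σ) ∧ (∀ σ ∈ O, HasDerivAt Q (Q' σ) σ) ∧
      ContinuousOn P' O ∧
      (∀ σ ∈ O, S^[k] (E j0 (p0 + σ) q0) = E j (P σ) (Q σ)) ∧
      (∀ σ x c : ℝ, |p0 + σ| < βp → |x| < βp → |c| < βq →
        S^[k] (E j0 (p0 + σ) q0) = E j x c → σ ∈ O ∧ P σ = x ∧ Q σ = c) := by
  classical
  set O : Set ℝ := {σ | |p0 + σ| < βp ∧ ∃ y : ℝ × ℝ, |y.1| < βp ∧ |y.2| < βq ∧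
    S^[k] (E j0 (p0 + σ) q0) = E j y.1 y.2} with hO
  set Y : ℝ → ℝ × ℝ := fun σ => if h : ∃ y : ℝ × ℝ, |y.1| < βp ∧ |y.2| < βq ∧
    S^[k] (E j0 (p0 + σ) q0) = E j y.1 y.2 then h.choose else 0 with hY
  have hYs : ∀ (σ x c : ℝ), |x| < βp → |c| < βq → S^[k] (E j0 (p0 + σ) q0) = E j x c →
      Y σ = (x, c) := by
    intro σ x c hx hc he
    have hex : ∃ y : ℝ × ℝ, |y.1| < βp ∧ |y.2| < βq ∧
      S^[k] (E j0 (p0 + σ) q0) = E j y.1 y.2 := ⟨(x, c), hx, hc, he⟩
    have h1 : Y σ = hex.choose := by simp only [hY, dif_pos hex]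
    have h2 := hex.choose_spec
    have h3 := hinj j j _ _ _ _ h2.1 h2.2.1 hx hc (h2.2.2.symm.trans he)
    rw [h1]
    exact Prod.ext h3.2.1 h3.2.2
  -- the local charts
  have hloc : ∀ σ ∈ O, ∃ P Q P' Q' : ℝ → ℝ,
      (∀ᶠ r in 𝓝 σ, r ∈ O ∧ Y r = (P r, Q r) ∧ HasDerivAt P (P' r) r ∧ HasDerivAt Q (Q' r) r) ∧
      ContinuousAt P' σ := by
    rintro σ ⟨hσ, y, hy1, hy2, hy3⟩
    obtain ⟨P, Q, P', Q', hP, hQ, hev, hcP, -, -⟩ := hE.chart k σ j y.1 y.2 hσ hy1 hy2 hy3
    refine ⟨P, Q, P', Q', ?_, hcP⟩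
    have h1 := hev.self_of_nhds
    have c1 : ContinuousAt P σ := h1.2.1.continuousAt
    have c2 : ContinuousAt Q σ := h1.2.2.continuousAt
    have e1 : ∀ᶠ r in 𝓝 σ, |P r| < βp := by
      have : Tendsto (fun r => |P r|) (𝓝 σ) (𝓝 |P σ|) := c1.abs
      exact this.eventually (gt_mem_nhds (by rw [hP]; exact hy1))
    have e2 : ∀ᶠ r in 𝓝 σ, |Q r| < βq := by
      have : Tendsto (fun r => |Q r|) (𝓝 σ) (𝓝 |Q σ|) := c2.abs
      exact this.eventually (gt_mem_nhds (by rw [hQ]; exact hy2))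
    have e3 : ∀ᶠ r in 𝓝 σ, |p0 + r| < βp := by
      have : Tendsto (fun r => |p0 + r|) (𝓝 σ) (𝓝 |p0 + σ|) := by
        apply Continuous.tendsto; fun_prop
      exact this.eventually (gt_mem_nhds hσ)
    filter_upwards [hev, e1, e2, e3] with r hr h1 h2 h3
    exact ⟨⟨h3, (P r, Q r), h1, h2, hr.1⟩, hYs r _ _ h1 h2 hr.1, hr.2.1, hr.2.2⟩
  have hopen : IsOpen O := by
    rw [isOpen_iff_mem_nhds]
    intro σ hσ
    obtain ⟨P, Q, P', Q', hev, -⟩ := hloc σ hσ
    filter_upwards [hev] with r hr using hr.1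
  have hd : ∀ σ ∈ O, ∃ P Q P' Q' : ℝ → ℝ,
      (∀ᶠ r in 𝓝 σ, HasDerivAt (fun u => (Y u).1) (P' r) r ∧
        HasDerivAt (fun u => (Y u).2) (Q' r) r) ∧ ContinuousAt P' σ := by
    intro σ hσ
    obtain ⟨P, Q, P', Q', hev, hc⟩ := hloc σ hσ
    refine ⟨P, Q, P', Q', ?_, hc⟩
    filter_upwards [hev.eventually_nhds] with r hr
    have hr0 := hr.self_of_nhds
    constructor
    · refine hr0.2.2.1.congr_of_eventuallyEq ?_
      filter_upwards [hr] with u hu
      rw [hu.2.1]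
    · refine hr0.2.2.2.congr_of_eventuallyEq ?_
      filter_upwards [hr] with u hu
      rw [hu.2.1]
  refine ⟨O, fun u => (Y u).1, fun u => (Y u).2, deriv fun u => (Y u).1,
    deriv fun u => (Y u).2, hopen, ?_, ?_, ?_, ?_, ?_⟩
  · intro σ hσ
    obtain ⟨P, Q, P', Q', hev, -⟩ := hd σ hσ
    exact hev.self_of_nhds.1.differentiableAt.hasDerivAt
  · intro σ hσ
    obtain ⟨P, Q, P', Q', hev, -⟩ := hd σ hσ
    exact hev.self_of_nhds.2.differentiableAt.hasDerivAt
  · intro σ hσ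
    obtain ⟨P, Q, P', Q', hev, hc⟩ := hd σ hσ
    refine ContinuousAt.continuousWithinAt ?_
    refine hc.congr ?_
    filter_upwards [hev] with r hr
    exact hr.1.deriv.symm
  · rintro σ ⟨hσ, y, hy1, hy2, hy3⟩
    have := hYs σ y.1 y.2 hy1 hy2 hy3
    simp only [this]
    exact hy3
  · intro σ x c hσ hx hc he
    have := hYs σ x c hx hc he
    exact ⟨⟨hσ, (x, c), hx, hc, he⟩, by simp only [this], by simp only [this]⟩

/-- two functions which agree on an interval have the same derivatives there -/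
theorem deriv_eq {f g : ℝ → ℝ} {u w x a b : ℝ} (h : u < w) (hx : x ∈ Icc u w)
    (hf : HasDerivAt f a x) (hg : HasDerivAt g b x) (hfg : ∀ y ∈ Icc u w, f y = g y) : a = b := by
  have h1 : HasDerivWithinAt f a (Icc u w) x := hf.hasDerivWithinAt
  have h2 : HasDerivWithinAt f b (Icc u w) x :=
    (hg.hasDerivWithinAt).congr hfg (hfg x hx)
  exact UniqueDiffWithinAt.eq_deriv _ (uniqueDiffOn_Icc h x hx) h1 h2

/-- mean value theorem with distortion -/
theorem mv {f f' : ℝ → ℝ} {u w B : ℝ} (hd : ∀ x ∈ Icc u w, HasDerivAt f (f' x) x)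
    (hB : ∀ x ∈ Icc u w, ∀ y ∈ Icc u w, |f' x| ≤ B * |f' y|) {x y z : ℝ}
    (hx : x ∈ Icc u w) (hy : y ∈ Icc u w) (hz : z ∈ Icc u w) :
    |x - y| * |f' z| ≤ B * |f x - f y| := by
  rcases lt_trichotomy x y with h | h | h
  · obtain ⟨ξ, hξ, he⟩ := exists_hasDerivAt_eq_slope f f' h
      (fun r hr => (hd r ⟨hx.1.trans hr.1, hr.2.trans hy.2⟩).continuousAt.continuousWithinAt)
      (fun r hr => hd r ⟨hx.1.trans hr.1.le, hr.2.le.trans hy.2⟩)
    have h1 := hB z hz ξ ⟨hx.1.trans hξ.1.le, hξ.2.le.trans hy.2⟩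
    have h3 : |x - y| ≠ 0 := by
      rw [abs_ne_zero, sub_ne_zero]; exact h.ne
    have h2 : |f' ξ| * |x - y| = |f x - f y| := by
      rw [he, abs_div, abs_sub_comm (f y), abs_sub_comm y x]
      field_simp
    calc |x - y| * |f' z| ≤ |x - y| * (B * |f' ξ|) := by gcongr
      _ = B * |f x - f y| := by rw [← h2]; ring
  · subst h; simp
  · obtain ⟨ξ, hξ, he⟩ := exists_hasDerivAt_eq_slope f f' h
      (fun r hr => (hd r ⟨hy.1.trans hr.1, hr.2.trans hx.2⟩).continuousAt.continuousWithinAt)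
      (fun r hr => hd r ⟨hy.1.trans hr.1.le, hr.2.le.trans hx.2⟩)
    have h1 := hB z hz ξ ⟨hy.1.trans hξ.1.le, hξ.2.le.trans hx.2⟩
    have h3 : |x - y| ≠ 0 := by
      rw [abs_ne_zero, sub_ne_zero]; exact h.ne'
    have h2 : |f' ξ| * |x - y| = |f x - f y| := by
      rw [he, abs_div]
      field_simp
    calc |x - y| * |f' z| ≤ |x - y| * (B * |f' ξ|) := by gcongr
      _ = B * |f x - f y| := by rw [← h2]; ring

/-- size of the determinant of a decreasing and an increasing direction -/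
theorem det_bounds {p q u w M : ℝ} (hM : 1 ≤ M) (h1 : 0 ≤ -1 * (p * q)) (h2 : 0 ≤ 1 * (u * w))
    (h3 : |q| ≤ M * |p|) (h4 : |w| ≤ M * |u|) :
    |p| * |u| ≤ |p * u - q * w| ∧ |p * u - q * w| ≤ (1 + M ^ 2) * (|p| * |u|) := by
  constructor
  · have h5 : 0 ≤ (p * u) * (-(q * w)) := by
      have : (p * u) * (-(q * w)) = (-1 * (p * q)) * (1 * (u * w)) := by ring
      rw [this]; exact mul_nonneg h1 h2
    have h6 : |p * u| ^ 2 ≤ |p * u - q * w| ^ 2 := by
      rw [sq_abs, sq_abs]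
      nlinarith [sq_nonneg (q * w)]
    rw [← abs_mul]
    exact (pow_le_pow_iff_left₀ (abs_nonneg _) (abs_nonneg _) two_ne_zero).1 h6
  · calc |p * u - q * w| ≤ |p * u| + |q * w| := abs_sub _ _
      _ = |p| * |u| + |q| * |w| := by rw [abs_mul, abs_mul]
      _ ≤ |p| * |u| + (M * |p|) * (M * |u|) := by
          gcongr
      _ = (1 + M ^ 2) * (|p| * |u|) := by ring

end Pool.Agent.Lib.MP_d2b992_gt.Dyn.ActM

namespace Pool.Agent.Lib.MP_d2b992_gt.Dyn

open ActM

theorem specACT (hA : SpecAREA) : SpecACT := by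
  intro b s a d x1 c1 M δ B θ hax hxb hdc hcs hsb hM hδ hB
  set D0 : ℝ := Real.sqrt (1 - x1 ^ 2 - c1 ^ 2) with hD0
  set D1 : ℝ := Real.sqrt (1 - a ^ 2 - d ^ 2) with hD1
  set Cc : ℝ := 4 * B ^ 2 * (1 + M ^ 2) / D0 with hCc
  have hD0' : 0 ≤ D0 := Real.sqrt_nonneg _
  have hD1' : 0 ≤ D1 := Real.sqrt_nonneg _
  have hCc0 : 0 ≤ Cc := by positivity
  refine ⟨2 * (1 / D1 * (2 * Cc)), by positivity, ?_⟩
  intro X _ μ T e hsys t m z j0 p0 q0 σm σp j P Q P' Q' hleaf L hLm hL t'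
  -- constants
  have ha0 : 0 ≤ a := (abs_nonneg _).trans hleaf.ha
  have hd0 : 0 ≤ d := (abs_nonneg _).trans hleaf.hd
  have hb0 := hsys.b0
  have hs0 := hsys.s0
  have hx0 : 0 < x1 := lt_of_le_of_lt ha0 hax
  have hc0 : 0 < c1 := lt_of_le_of_lt hd0 hdc
  have hb1 : b < 1 := by nlinarith
  have hs1 : s < 1 := by nlinarith
  have hD0pos : 0 < D0 := by
    apply Real.sqrt_pos.2
    nlinarith
  have hD1pos : 0 < D1 := by
    apply Real.sqrt_pos.2
    nlinarith
  have hσ : σm < σp := hleaf.neg.trans hleaf.pos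
  have hlen : 0 < σp - σm := sub_pos.2 hσ
  obtain ⟨C, η, hC1, hη, hevo, hevo'⟩ := hsys.evo x1 c1 hx0 hxb hc0 hcs
  obtain ⟨v, A, N, N', hE⟩ := hevo j0 p0 q0 (hleaf.ha.trans hax.le) (hleaf.hd.trans hdc.le)
  have hinj : ChartInj e b s := hsys.inj
  have hinj' : ChartInj (flp e) s b := by
    intro j j' p q p' q' h1 h2 h3 h4 h5
    obtain ⟨k1, k2, k3⟩ := hinj j j' q p q' p' h2 h1 h4 h3 h5
    exact ⟨k1, k3, k2⟩
  have hcanc : ∀ y, T^[t'] (T.symm^[t'] y) = y :=
    Function.LeftInverse.iterate (fun z => T.apply_symm_apply z) t'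
  -- the chart at time `t`
  obtain ⟨O1, P1, Q1, P1', Q1', hO1, hdP1, hdQ1, -, heq1, hun1⟩ := chartO hE hinj t j
  have hPQ : ∀ σ ∈ Icc σm σp, σ ∈ O1 ∧ P1 σ = P σ ∧ Q1 σ = Q σ := fun σ hσ1 =>
    hun1 σ (P σ) (Q σ) (lt_of_le_of_lt (hleaf.dom σ hσ1) hxb)
      (lt_of_le_of_lt (hleaf.inP σ hσ1) hxb) (lt_of_le_of_lt (hleaf.inQ σ hσ1) hcs)
      (hleaf.eq σ hσ1)
  set B2 : ℝ := Cc / (σp - σm) with hB2
  have hB20 : 0 ≤ B2 := by positivity
  -- the set for a fixed square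
  have hset : ∀ i0 : Bool, ∃ Z : Set X, MeasurableSet Z ∧
      μ Z ≤ ENNReal.ofReal (1 / D1 * (2 * B2)) * volume L ∧
      ∀ (m' : ℕ) (z' : X) (u0 w0 ρm ρp : ℝ) (i : Bool) (U W U' W' : ℝ → ℝ),
      Leaf T.symm T (flp e) s b 1 d a c1 x1 M δ B θ t' m' z' i0 u0 w0 ρm ρp i U W U' W' →
      ∀ σ ∈ L, ∀ ρ ∈ Icc ρm ρp,
        T^[t] (e j0 (p0 + σ) q0) = T.symm^[t'] (flp e i0 (u0 + ρ) w0) → T^[t'] z' ∈ Z := by
    intro i0
    obtain ⟨O3, X3, C3, X3', C3', hO3, hdX3, hdC3, hcX3, heq3, hun3⟩ := chartO hE hinj (t + t') i0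
    set O' : Set ℝ := O3 ∩ X3' ⁻¹' {0}ᶜ with hO'
    have hO'o : IsOpen O' := hcX3.isOpen_inter_preimage hO3 isOpen_compl_singleton
    set L' : Set ℝ := L ∩ O' with hL'
    have hL'm : MeasurableSet L' := hLm.inter hO'o.measurableSet
    set A0 : Set (ℝ × ℝ) := {p : ℝ × ℝ | ∃ t ∈ L', p.1 = X3 t ∧ |p.2 - C3 t| ≤ B2 / |X3' t|}
      with hA0
    have hvol : volume A0 ≤ ENNReal.ofReal (2 * B2) * volume L' :=
      hA O' L' X3 C3 X3' B2 hO'o (fun r hr => hdX3 r hr.1) (hcX3.mono inter_subset_left)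
        (fun r hr => hr.2) (fun r hr => (hdC3 r hr.1).continuousAt.continuousWithinAt) hB20 hL'm
        inter_subset_right
    set R : Set (ℝ × ℝ) := Icc (-a) a ×ˢ Icc (-d) d with hR
    set A1 : Set (ℝ × ℝ) := toMeasurable volume A0 ∩ R with hA1
    have hA1m : MeasurableSet A1 :=
      (measurableSet_toMeasurable _ _).inter (measurableSet_Icc.prod measurableSet_Icc)
    obtain ⟨hZm, hZμ⟩ := hsys.area i0 A1 hA1m (fun p hp => by
      have h1 := hp.2
      rw [hR, mem_prod] at h1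
      exact ⟨lt_of_le_of_lt (abs_le.2 h1.1) (hax.trans hxb),
        lt_of_le_of_lt (abs_le.2 h1.2) (hdc.trans hcs)⟩)
    refine ⟨(fun p : ℝ × ℝ => e i0 p.1 p.2) '' A1, hZm, ?_, ?_⟩
    · rw [hZμ]
      have h1 : ∀ p ∈ A1, ENNReal.ofReal (1 / Real.sqrt (1 - p.1 ^ 2 - p.2 ^ 2)) ≤
          ENNReal.ofReal (1 / D1) := by
        intro p hp
        have h2 := hp.2
        rw [hR, mem_prod] at h2
        apply ENNReal.ofReal_le_ofReal
        apply one_div_le_one_div_of_le hD1pos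
        apply Real.sqrt_le_sqrt
        have h3 : p.1 ^ 2 ≤ a ^ 2 := sq_le_sq' h2.1.1 h2.1.2
        have h4 : p.2 ^ 2 ≤ d ^ 2 := sq_le_sq' h2.2.1 h2.2.2
        linarith
      calc ∫⁻ p in A1, ENNReal.ofReal (1 / Real.sqrt (1 - p.1 ^ 2 - p.2 ^ 2))
          ≤ ∫⁻ _ in A1, ENNReal.ofReal (1 / D1) := setLIntegral_mono' hA1m h1
        _ = ENNReal.ofReal (1 / D1) * volume A1 := by rw [setLIntegral_const]
        _ ≤ ENNReal.ofReal (1 / D1) * volume A0 := by
            refine mul_le_mul' le_rfl ?_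
            calc volume A1 ≤ volume (toMeasurable volume A0) := measure_mono inter_subset_left
              _ = volume A0 := measure_toMeasurable _
        _ ≤ ENNReal.ofReal (1 / D1) * (ENNReal.ofReal (2 * B2) * volume L) := by
            refine mul_le_mul' le_rfl (hvol.trans ?_)
            exact mul_le_mul' le_rfl (measure_mono inter_subset_left)
        _ = ENNReal.ofReal (1 / D1 * (2 * B2)) * volume L := by
            rw [ENNReal.ofReal_mul (p := 1 / D1) (by positivity), mul_assoc]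
    · intro m' z' u0 w0 ρm ρp i U W U' W' hl' σ hσL ρ hρ hw
      have hσI : σ ∈ Icc σm σp := hL hσL
      have hρ1 : ρm < ρp := hl'.neg.trans hl'.pos
      have h0ρ : (0 : ℝ) ∈ Icc ρm ρp := ⟨hl'.neg.le, hl'.pos.le⟩
      -- the position of `z'` at time `t'`
      have hz' : T^[t'] z' = e i0 w0 u0 := by
        rw [← hl'.start, hcanc]; rfl
      have hw0 : |w0| ≤ a := hl'.hd
      have hu0 : |u0| ≤ d := hl'.ha
      have hw0b : |w0| < b := lt_of_le_of_lt hw0 (hax.trans hxb)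
      have huρ : |u0 + ρ| < s := lt_of_le_of_lt (hl'.dom ρ hρ) hcs
      -- third chart
      have hw3 : T^[t + t'] (e j0 (p0 + σ) q0) = e i0 w0 (u0 + ρ) := by
        rw [add_comm t t', Function.iterate_add_apply, hw, hcanc]; rfl
      have hpσ : |p0 + σ| < b := lt_of_le_of_lt (hleaf.dom σ hσI) hxb
      obtain ⟨hσ3, hX3σ, hC3σ⟩ := hun3 σ w0 (u0 + ρ) hpσ hw0b huρ hw3
      -- second chart
      obtain ⟨v2, A2, N2, N2', hE2⟩ := hevo' i0 u0 w0 (hu0.trans hdc.le) (hw0.trans hax.le)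
      obtain ⟨O2, U1, W1, U1', W1', hO2, hdU1, hdW1, -, heq2, hun2⟩ := chartO hE2 hinj' t' i
      have hUW : ∀ r ∈ Icc ρm ρp, r ∈ O2 ∧ U1 r = U r ∧ W1 r = W r := fun r hr =>
        hun2 r (U r) (W r) (lt_of_le_of_lt (hl'.dom r hr) hcs)
          (lt_of_le_of_lt (hl'.inP r hr) hcs) (lt_of_le_of_lt (hl'.inQ r hr) hxb)
          (hl'.eq r hr)
      -- derivatives
      have ep : P1' σ = P' σ := deriv_eq hσ hσI (hdP1 σ (hPQ σ hσI).1) (hleaf.dP σ hσI)
        fun y hy => (hPQ y hy).2.1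
      have eq : Q1' σ = Q' σ := deriv_eq hσ hσI (hdQ1 σ (hPQ σ hσI).1) (hleaf.dQ σ hσI)
        fun y hy => (hPQ y hy).2.2
      have eu : U1' ρ = U' ρ := deriv_eq hρ1 hρ (hdU1 ρ (hUW ρ hρ).1) (hl'.dP ρ hρ)
        fun y hy => (hUW y hy).2.1
      have ew : W1' ρ = W' ρ := deriv_eq hρ1 hρ (hdW1 ρ (hUW ρ hρ).1) (hl'.dQ ρ hρ)
        fun y hy => (hUW y hy).2.2
      -- the point
      have hpt : e j (P σ) (Q σ) = e i (W ρ) (U ρ) := by
        rw [← hleaf.eq σ hσI, hw, hl'.eq ρ hρ]; rfl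
      obtain ⟨hji, hPW, hQU⟩ := hinj j i _ _ _ _ (lt_of_le_of_lt (hleaf.inP σ hσI) hxb)
        (lt_of_le_of_lt (hleaf.inQ σ hσI) hcs) (lt_of_le_of_lt (hl'.inQ ρ hρ) hxb)
        (lt_of_le_of_lt (hl'.inP ρ hρ) hcs) hpt
      -- crossing
      have hcr := hsys.cross t t' j0 i0 j p0 q0 σ w0 u0 ρ (P σ) (Q σ) P1 Q1 W1 U1 X3 C3
        (P1' σ) (Q1' σ) (W1' ρ) (U1' ρ) (X3' σ) hpσ
        (lt_of_le_of_lt (hleaf.hd.trans hdc.le) hcs) hw0b huρ
        (lt_of_le_of_lt (hleaf.inP σ hσI) hxb) (lt_of_le_of_lt (hleaf.inQ σ hσI) hcs)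
        (hleaf.eq σ hσI) (by rw [← hleaf.eq σ hσI, hw]; rfl)
        (by filter_upwards [hO1.mem_nhds (hPQ σ hσI).1] with r hr using heq1 r hr)
        (hdP1 σ (hPQ σ hσI).1) (hdQ1 σ (hPQ σ hσI).1) (hPQ σ hσI).2.1 (hPQ σ hσI).2.2
        (by
          filter_upwards [hO2.mem_nhds (hUW ρ hρ).1] with r hr
          rw [hji]
          exact heq2 r hr)
        (hdW1 ρ (hUW ρ hρ).1) (hdU1 ρ (hUW ρ hρ).1) ((hUW ρ hρ).2.2.trans hPW.symm)
        ((hUW ρ hρ).2.1.trans hQU.symm)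
        (by filter_upwards [hO3.mem_nhds hσ3] with r hr using heq3 r hr)
        (hdX3 σ hσ3) (hdC3 σ hσ3).continuousAt hX3σ hC3σ
      rw [ep, eq, ew, eu] at hcr
      obtain ⟨hb1', hb2'⟩ := det_bounds hM (hleaf.sgn σ hσI) (hl'.sgn ρ hρ) (hleaf.slope σ hσI)
        (hl'.slope ρ hρ)
      set S1 : ℝ := Real.sqrt (1 - w0 ^ 2 - (u0 + ρ) ^ 2) with hS1
      set S2 : ℝ := Real.sqrt (1 - P σ ^ 2 - Q σ ^ 2) with hS2
      have hS1pos : 0 < S1 := by
        apply Real.sqrt_pos.2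
        have h1 : w0 ^ 2 < b ^ 2 := by
          rw [← sq_abs w0]; exact pow_lt_pow_left₀ hw0b (abs_nonneg _) two_ne_zero
        have h2 : (u0 + ρ) ^ 2 < s ^ 2 := by
          rw [← sq_abs (u0 + ρ)]; exact pow_lt_pow_left₀ huρ (abs_nonneg _) two_ne_zero
        linarith
      have hS1le : S1 ≤ 1 := by
        calc S1 ≤ Real.sqrt 1 := Real.sqrt_le_sqrt (by nlinarith [sq_nonneg w0, sq_nonneg (u0 + ρ)])
          _ = 1 := Real.sqrt_one
      have hS2ge : D0 ≤ S2 := by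
        apply Real.sqrt_le_sqrt
        have h1 : P σ ^ 2 ≤ x1 ^ 2 := by
          rw [← sq_abs (P σ)]; exact pow_le_pow_left₀ (abs_nonneg _) (hleaf.inP σ hσI) 2
        have h2 : Q σ ^ 2 ≤ c1 ^ 2 := by
          rw [← sq_abs (Q σ)]; exact pow_le_pow_left₀ (abs_nonneg _) (hleaf.inQ σ hσI) 2
        linarith
      have hPpos : 0 < |P' σ| := abs_pos.2 (hleaf.nz σ hσI)
      have hUpos : 0 < |U' ρ| := abs_pos.2 (hl'.nz ρ hρ)
      have hXne : X3' σ ≠ 0 := by
        intro h0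
        rw [h0, abs_zero, zero_mul] at hcr
        have : 0 < |P' σ * U' ρ - Q' σ * W' ρ| * S1 :=
          mul_pos (lt_of_lt_of_le (mul_pos hPpos hUpos) hb1') hS1pos
        linarith
      have hXpos : 0 < |X3' σ| := abs_pos.2 hXne
      -- |X3'| D0 ≤ (1 + M²) |P'| |U'|
      have h1 : |X3' σ| * D0 ≤ (1 + M ^ 2) * (|P' σ| * |U' ρ|) := by
        calc |X3' σ| * D0 ≤ |X3' σ| * S2 := by gcongr
          _ = |P' σ * U' ρ - Q' σ * W' ρ| * S1 := hcr.symm
          _ ≤ |P' σ * U' ρ - Q' σ * W' ρ| * 1 := by gcongr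
          _ ≤ _ := by rw [mul_one]; exact hb2'
      -- |P'| (σp - σm) ≤ 2 B
      have h2 : (σp - σm) * |P' σ| ≤ B * 2 := by
        have h3 := mv hleaf.dP hleaf.dist (right_mem_Icc.2 hσ.le) (left_mem_Icc.2 hσ.le) hσI
        rw [abs_of_pos hlen] at h3
        refine h3.trans ?_
        gcongr
        have h4 := abs_sub (P σp) (P σm)
        have h5 := hleaf.inP σp (right_mem_Icc.2 hσ.le)
        have h6 := hleaf.inP σm (left_mem_Icc.2 hσ.le)
        linarith
      -- |ρ| |U'| ≤ 2 B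
      have h3 : |ρ| * |U' ρ| ≤ B * 2 := by
        have h4 := mv hl'.dP hl'.dist hρ h0ρ hρ
        rw [sub_zero] at h4
        refine h4.trans ?_
        gcongr
        have h4 := abs_sub (U ρ) (U 0)
        have h5 := hl'.inP ρ hρ
        have h6 := hl'.inP 0 h0ρ
        linarith
      have h4 : |ρ| ≤ B2 / |X3' σ| := by
        rw [le_div_iff₀ hXpos, hB2, hCc, div_div, le_div_iff₀ (by positivity)]
        have h5 : (|ρ| * |U' ρ|) * ((σp - σm) * |P' σ|) ≤ (B * 2) * (B * 2) := by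
          apply mul_le_mul h3 h2 (by positivity) (by positivity)
        calc |ρ| * |X3' σ| * (D0 * (σp - σm)) = |ρ| * (σp - σm) * (|X3' σ| * D0) := by ring
          _ ≤ |ρ| * (σp - σm) * ((1 + M ^ 2) * (|P' σ| * |U' ρ|)) := by gcongr
          _ = (1 + M ^ 2) * ((|ρ| * |U' ρ|) * ((σp - σm) * |P' σ|)) := by ring
          _ ≤ (1 + M ^ 2) * ((B * 2) * (B * 2)) := by gcongr
          _ = 4 * B ^ 2 * (1 + M ^ 2) := by ring
      rw [hz']
      refine ⟨(w0, u0), ⟨?_, ?_⟩, rfl⟩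
      · apply subset_toMeasurable
        refine ⟨σ, ⟨hσL, hσ3, hXne⟩, hX3σ.symm, ?_⟩
        rw [hC3σ]
        have : (w0, u0).2 - (u0 + ρ) = -ρ := by simp
        rw [this, abs_neg]
        exact h4
      · rw [hR, mem_prod]
        exact ⟨abs_le.1 hw0, abs_le.1 hu0⟩
  choose Z hZm hZμ hZ using hset
  have hmp : MeasurePreserving (T^[t']) μ μ := hsys.mp.iterate t'
  calc _ ≤ μ (T^[t'] ⁻¹' (Z true ∪ Z false)) := by
        apply measure_mono
        rintro z' ⟨m', i0, u0, w0, ρm, ρp, i, U, W, U', W', hl', σ, hσL, ρ, hρ, hw⟩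
        have := hZ i0 m' z' u0 w0 ρm ρp i U W U' W' hl' σ hσL ρ hρ hw
        cases i0
        · exact Or.inr this
        · exact Or.inl this
    _ = μ (Z true ∪ Z false) := hmp.measure_preimage ((hZm true).union (hZm false)).nullMeasurableSet
    _ ≤ μ (Z true) + μ (Z false) := measure_union_le _ _
    _ ≤ ENNReal.ofReal (1 / D1 * (2 * B2)) * volume L +
        ENNReal.ofReal (1 / D1 * (2 * B2)) * volume L := add_le_add (hZμ true) (hZμ false)
    _ = ENNReal.ofReal (2 * (1 / D1 * (2 * Cc)) / (σp - σm)) * volume L := by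
        rw [← add_mul, ← ENNReal.ofReal_add (by positivity) (by positivity)]
        congr 2
        rw [hB2]
        field_simp
        ring

end Pool.Agent.Lib.MP_d2b992_gt.Dyn
end

section
/-!
# CLF: Birkhoff sums along a stable leaf (DYN.md section 4 (d))
-/
set_option autoImplicit false

open MeasureTheory Filter Topology Set

namespace Pool.Agent.Lib.MP_d2b992_gt.Dyn.ClfM

/-- bound of a continuous function which vanishes outside a rectangle -/
theorem exists_bound (g : ℝ × ℝ → ℝ) (a d : ℝ) (hc : Continuous g)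
    (hs : ∀ p : ℝ × ℝ, (a ≤ |p.1| ∨ d ≤ |p.2|) → g p = 0) :
    ∃ G : ℝ, 0 ≤ G ∧ ∀ p, |g p| ≤ G := by
  have hK : IsCompact (Set.Icc (-a) a ×ˢ Set.Icc (-d) d) := isCompact_Icc.prod isCompact_Icc
  obtain ⟨C, hC⟩ := hK.exists_bound_of_continuousOn hc.continuousOn
  refine ⟨max C 0, le_max_right _ _, fun p => ?_⟩
  by_cases h : a ≤ |p.1| ∨ d ≤ |p.2|
  · rw [hs p h, abs_zero]; exact le_max_right _ _
  · push Not at h
    refine le_trans ?_ (le_max_left _ _)
    rw [← Real.norm_eq_abs]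
    exact hC p ⟨abs_le.1 h.1.le, abs_le.1 h.2.le⟩

/-- uniform continuity of a continuous function which vanishes outside a rectangle -/
theorem exists_unif (g : ℝ × ℝ → ℝ) (a d : ℝ) (hc : Continuous g)
    (hs : ∀ p : ℝ × ℝ, (a ≤ |p.1| ∨ d ≤ |p.2|) → g p = 0) (κ : ℝ) (hκ : 0 < κ) :
    ∃ η : ℝ, 0 < η ∧ ∀ x c x' c' : ℝ, |x' - x| ≤ η → |c' - c| ≤ η →
      |g (x, c) - g (x', c')| ≤ κ := by
  have hcs : HasCompactSupport g := by
    refine HasCompactSupport.intro (K := Set.Icc (-a) a ×ˢ Set.Icc (-d) d)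
      (isCompact_Icc.prod isCompact_Icc) ?_
    intro p hp
    apply hs
    by_contra h
    push Not at h
    exact hp ⟨abs_le.1 h.1.le, abs_le.1 h.2.le⟩
  have hu : UniformContinuous g := hcs.uniformContinuous_of_continuous hc
  rw [Metric.uniformContinuous_iff] at hu
  obtain ⟨η, hη, h⟩ := hu κ hκ
  refine ⟨η / 2, by positivity, fun x c x' c' hx hc' => ?_⟩
  have : dist (x, c) (x', c') < η := by
    rw [Prod.dist_eq, max_lt_iff]
    constructor
    · rw [Real.dist_eq, abs_sub_comm]; linarith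
    · rw [Real.dist_eq, abs_sub_comm]; linarith
  have h2 := h this
  rw [Real.dist_eq] at h2
  exact h2.le

/-- `T^k T'^t = T'^(t-k)` -/
theorem iter_cancel {X : Type} {T T' : X → X} (h : ∀ z, T (T' z) = z) (k t : ℕ) (hk : k ≤ t)
    (w : X) : T^[k] (T'^[t] w) = T'^[t - k] w := by
  induction k with
  | zero => simp
  | succ k ih =>
    rw [Function.iterate_succ_apply', ih (by omega)]
    have : t - k = (t - (k + 1)) + 1 := by omega
    rw [this, Function.iterate_succ_apply', h]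

section

variable {p : ℕ → Prop} {K ε : ℝ}

theorem inf_of_good (h : Good p K ε) : (setOf p).Infinite := by
  rw [Set.infinite_iff_exists_gt]
  intro m
  obtain ⟨n, hn, hp⟩ := h.2.1 (m + 1)
  exact ⟨n, hp, by omega⟩

theorem nth_zero (h : Good p K ε) : Nat.nth p 0 = 0 := by
  rw [Nat.nth_zero]
  exact Nat.eq_zero_of_le_zero (Nat.sInf_le h.1)

theorem nth_le (h : Good p K ε) (i : ℕ) :
    (Nat.nth p i : ℝ) ≤ ∑ l ∈ Finset.range i, (K + ε * (l : ℝ)) := by
  induction i with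
  | zero => rw [nth_zero h]; simp
  | succ i ih =>
    rw [Finset.sum_range_succ]
    have := h.2.2 i
    linarith

theorem exists_idx (h : Good p K ε) (k : ℕ) :
    ∃ i : ℕ, Nat.nth p i ≤ k ∧ k < Nat.nth p (i + 1) := by
  have hinf := inf_of_good h
  have hm : StrictMono (Nat.nth p) := Nat.nth_strictMono hinf
  have hex : ∃ i, k < Nat.nth p i := ⟨k + 1, lt_of_lt_of_le (Nat.lt_succ_self k) (hm.id_le _)⟩
  classical
  have hsp := Nat.find_spec hex
  have h0 : Nat.find hex ≠ 0 := by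
    intro h0
    rw [h0, nth_zero h] at hsp
    omega
  obtain ⟨i, hi⟩ := Nat.exists_eq_succ_of_ne_zero h0
  refine ⟨i, ?_, ?_⟩
  · have := Nat.find_min hex (m := i) (by omega)
    omega
  · rw [hi] at hsp
    exact hsp

end

end Pool.Agent.Lib.MP_d2b992_gt.Dyn.ClfM

namespace Pool.Agent.Lib.MP_d2b992_gt.Dyn

open ClfM

theorem specCLF : SpecCLF := by
  intro b s a d c1 x1 M δ B θ K ε g hθ0 hθ1 hB hK hε κ hκ
  by_cases h : 0 < a ∧ a < b ∧ 0 < d ∧ d < s ∧ (∀ j, Continuous (g j)) ∧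
    (∀ (j : Bool) (p : ℝ × ℝ), (a ≤ |p.1| ∨ d ≤ |p.2|) → g j p = 0)
  swap
  · refine ⟨0, ?_⟩
    intro X T T' e φ _ _ _ hT
    exact absurd ⟨hT.a0, hT.ab, hT.d0, hT.ds, hT.cont, hT.supp⟩ h
  obtain ⟨ha0, hab, hd0, hds, hcont, hsupp⟩ := h
  -- bound
  obtain ⟨G, hG0, hG⟩ : ∃ G : ℝ, 0 ≤ G ∧ ∀ j p, |g j p| ≤ G := by
    obtain ⟨G1, h1, h1'⟩ := exists_bound (g true) a d (hcont true) (hsupp true)
    obtain ⟨G2, h2, h2'⟩ := exists_bound (g false) a d (hcont false) (hsupp false)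
    refine ⟨max G1 G2, le_trans h1 (le_max_left _ _), fun j p => ?_⟩
    cases j
    · exact (h2' p).trans (le_max_right _ _)
    · exact (h1' p).trans (le_max_left _ _)
  obtain ⟨η, hη0, hη⟩ : ∃ η : ℝ, 0 < η ∧ ∀ (j : Bool) (x c x' c' : ℝ), |x' - x| ≤ η →
      |c' - c| ≤ η → |g j (x, c) - g j (x', c')| ≤ κ / 2 := by
    obtain ⟨e1, h1, h1'⟩ := exists_unif (g true) a d (hcont true) (hsupp true) (κ / 2)
      (by positivity)
    obtain ⟨e2, h2, h2'⟩ := exists_unif (g false) a d (hcont false) (hsupp false) (κ / 2)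
      (by positivity)
    refine ⟨min e1 e2, lt_min h1 h2, fun j x c x' c' hx hc => ?_⟩
    cases j
    · exact h2' x c x' c' (hx.trans (min_le_right _ _)) (hc.trans (min_le_right _ _))
    · exact h1' x c x' c' (hx.trans (min_le_left _ _)) (hc.trans (min_le_left _ _))
  obtain ⟨i1, hi1⟩ : ∃ i1 : ℕ, ∀ i, i1 ≤ i → B * θ ^ i ≤ η ∧ B * θ ^ i < b - a ∧
      B * θ ^ i < s - d := by
    have hlim : Tendsto (fun i : ℕ => B * θ ^ i) atTop (𝓝 0) := by
      simpa using (tendsto_pow_atTop_nhds_zero_of_lt_one hθ0.le hθ1).const_mul B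
    have h1 := hlim.eventually (gt_mem_nhds hη0)
    have h2 := hlim.eventually (gt_mem_nhds (sub_pos.2 hab))
    have h3 := hlim.eventually (gt_mem_nhds (sub_pos.2 hds))
    obtain ⟨i1, hi1⟩ := eventually_atTop.1 (h1.and (h2.and h3))
    exact ⟨i1, fun i hi => ⟨(hi1 i hi).1.le, (hi1 i hi).2.1, (hi1 i hi).2.2⟩⟩
  set N0 : ℝ := ∑ l ∈ Finset.range i1, (K + ε * (l : ℝ)) with hN0
  have hN00 : 0 ≤ N0 := Finset.sum_nonneg fun l _ => by positivity
  refine ⟨⌈4 * G * N0 / κ⌉₊ + 1, ?_⟩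
  intro X T T' e φ hT'T hTT' hinj hTest n t' m' z' i0 u0 w0 ρm ρp i U W U' W' hn1 hnt hgood
    hleaf ρ hρ
  have hn0 : 0 < n := by omega
  have hnR : (0 : ℝ) < n := by exact_mod_cast hn0
  set p : ℕ → Prop := fun n => T^[n] z' ∈ core (flp e) d a with hp
  set w : X := T'^[t'] (flp e i0 (u0 + ρ) w0) with hw
  have hstart : T'^[t'] (flp e i0 u0 w0) = z' := hleaf.start
  -- values of the test function off the support
  have hφ0 : ∀ y : X, (¬ ∃ (j : Bool) (x c : ℝ), |x| < a ∧ |c| < d ∧ y = e j x c) → φ y = 0 := by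
    intro y hy
    by_cases hsq : ∃ j, y ∈ sqs e b s j
    · obtain ⟨j, x, c, hx, hc, rfl⟩ := hsq
      rw [hTest.on j x c hx hc]
      apply hsupp
      by_contra hcon
      push Not at hcon
      exact hy ⟨j, x, c, hcon.1, hcon.2, rfl⟩
    · push Not at hsq
      exact hTest.off y hsq
  have hφG : ∀ y : X, |φ y| ≤ G := by
    intro y
    by_cases hy : ∃ (j : Bool) (x c : ℝ), |x| < a ∧ |c| < d ∧ y = e j x c
    · obtain ⟨j, x, c, hx, hc, rfl⟩ := hy
      rw [hTest.on j x c (hx.trans hab) (hc.trans hds)]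
      exact hG _ _
    · rw [hφ0 y hy, abs_zero]; exact hG0
  -- the pointwise estimate
  have key : ∀ k : ℕ, k < n → Nat.nth p i1 ≤ k → |φ (T^[k] z') - φ (T^[k] w)| ≤ κ / 2 := by
    intro k hk hk1
    obtain ⟨l, hl1, hl2⟩ := exists_idx hgood k
    have hinf := inf_of_good hgood
    have hm : StrictMono (Nat.nth p) := Nat.nth_strictMono hinf
    have hil : i1 ≤ l := by
      by_contra hcon
      push Not at hcon
      have : Nat.nth p (l + 1) ≤ Nat.nth p i1 := hm.monotone (by omega)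
      omega
    obtain ⟨e1, e2, e3⟩ := hi1 l hil
    have hkt : k ≤ t' := by omega
    have hA : T^[k] z' = T'^[t' - k] (flp e i0 u0 w0) := by
      rw [← hstart]; exact iter_cancel hTT' k t' hkt _
    have hA' : T^[k] w = T'^[t' - k] (flp e i0 (u0 + ρ) w0) := iter_cancel hTT' k t' hkt _
    by_cases c1 : ∃ (j : Bool) (x c : ℝ), |x| < a ∧ |c| < d ∧ T^[k] z' = e j x c
    · obtain ⟨j, x, c, hx, hc, hxc⟩ := c1
      obtain ⟨p'', q'', hp'', hq'', heq⟩ := (hleaf.close l k hl1 hl2 hkt ρ hρ j c x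
        (by linarith) (by linarith)).1 (by rw [← hA, hxc]; rfl)
      rw [← hA'] at heq
      rw [hxc, heq]
      have h1 : |q''| < b := by
        have := abs_sub_abs_le_abs_sub q'' x
        linarith
      have h2 : |p''| < s := by
        have := abs_sub_abs_le_abs_sub p'' c
        linarith
      have e4 : φ (flp e j p'' q'') = g j (q'', p'') := hTest.on j q'' p'' h1 h2
      rw [hTest.on j x c (hx.trans hab) (hc.trans hds), e4]
      exact hη j x c q'' p'' (hq''.trans e1) (hp''.trans e1)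
    · by_cases c2 : ∃ (j : Bool) (x c : ℝ), |x| < a ∧ |c| < d ∧ T^[k] w = e j x c
      · obtain ⟨j, x, c, hx, hc, hxc⟩ := c2
        obtain ⟨p'', q'', hp'', hq'', heq⟩ := (hleaf.close l k hl1 hl2 hkt ρ hρ j c x
          (by linarith) (by linarith)).2 (by rw [← hA', hxc]; rfl)
        rw [← hA] at heq
        rw [hxc, heq]
        have h1 : |q''| < b := by
          have := abs_sub_abs_le_abs_sub q'' x
          linarith
        have h2 : |p''| < s := by
          have := abs_sub_abs_le_abs_sub p'' c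
          linarith
        have e4 : φ (flp e j p'' q'') = g j (q'', p'') := hTest.on j q'' p'' h1 h2
        rw [hTest.on j x c (hx.trans hab) (hc.trans hds), e4, abs_sub_comm]
        exact hη j x c q'' p'' (hq''.trans e1) (hp''.trans e1)
      · rw [hφ0 _ c1, hφ0 _ c2]
        simp only [sub_self, abs_zero]
        positivity
  -- the sum
  have hsum : ∑ k ∈ Finset.range n, |φ (T^[k] z') - φ (T^[k] w)| ≤
      n * (κ / 2) + 2 * G * N0 := by
    calc ∑ k ∈ Finset.range n, |φ (T^[k] z') - φ (T^[k] w)|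
        ≤ ∑ k ∈ Finset.range n, (κ / 2 + if k < Nat.nth p i1 then 2 * G else 0) := by
          refine Finset.sum_le_sum fun k hk => ?_
          rw [Finset.mem_range] at hk
          split_ifs with hlt
          · have h1 := abs_sub (φ (T^[k] z')) (φ (T^[k] w))
            have h2 := hφG (T^[k] z')
            have h3 := hφG (T^[k] w)
            linarith
          · rw [add_zero]; exact key k hk (not_lt.1 hlt)
      _ = n * (κ / 2) + ∑ k ∈ Finset.range n, (if k < Nat.nth p i1 then 2 * G else 0) := by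
          rw [Finset.sum_add_distrib]; simp
      _ ≤ n * (κ / 2) + 2 * G * N0 := by
          have h1 : ∑ k ∈ Finset.range n, (if k < Nat.nth p i1 then 2 * G else 0) ≤
              2 * G * (Nat.nth p i1 : ℝ) := by
            rw [← Finset.sum_filter, Finset.sum_const, nsmul_eq_mul]
            have h2 : ((Finset.range n).filter (fun k => k < Nat.nth p i1)).card ≤
                Nat.nth p i1 := by
              calc _ ≤ (Finset.range (Nat.nth p i1)).card := by
                    apply Finset.card_le_card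
                    intro k hk
                    rw [Finset.mem_filter] at hk
                    exact Finset.mem_range.2 hk.2
                _ = _ := Finset.card_range _
            have h3 : ((((Finset.range n).filter (fun k => k < Nat.nth p i1)).card : ℕ) : ℝ) ≤
                (Nat.nth p i1 : ℝ) := by exact_mod_cast h2
            nlinarith
          have h4 := nth_le hgood i1
          have h5 : 2 * G * (Nat.nth p i1 : ℝ) ≤ 2 * G * N0 :=
            mul_le_mul_of_nonneg_left h4 (by positivity)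
          linarith
  have hn2 : 4 * G * N0 / κ ≤ n := by
    have h1 := Nat.le_ceil (4 * G * N0 / κ)
    have h2 : ((⌈4 * G * N0 / κ⌉₊ : ℕ) : ℝ) + 1 ≤ (n : ℝ) := by exact_mod_cast hn1
    linarith
  rw [← sub_div, ← Finset.sum_sub_distrib, abs_div, abs_of_pos hnR, div_le_iff₀ hnR]
  refine (Finset.abs_sum_le_sum_abs _ _).trans (hsum.trans ?_)
  rw [div_le_iff₀ hκ] at hn2
  nlinarith

end Pool.Agent.Lib.MP_d2b992_gt.Dyn
end

section
/-!
# EXIST (section 5): the leaves of two close points intersect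
-/
set_option autoImplicit false

open MeasureTheory Filter Topology Set

namespace Pool.Agent.Lib.MP_d2b992_gt.Dyn.ExistM

theorem mono_of {f f' : ℝ → ℝ} {a b : ℝ} (h : ∀ σ ∈ Icc a b, HasDerivAt f (f' σ) σ)
    (h0 : ∀ σ ∈ Icc a b, 0 ≤ f' σ) : MonotoneOn f (Icc a b) := by
  apply monotoneOn_of_deriv_nonneg (convex_Icc a b)
  · exact fun σ hσ => (h σ hσ).continuousAt.continuousWithinAt
  · exact fun σ hσ => ((h σ (interior_subset hσ)).differentiableAt).differentiableWithinAt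
  · intro σ hσ
    rw [(h σ (interior_subset hσ)).deriv]
    exact h0 σ (interior_subset hσ)

theorem pair_pos {P Q P' Q' : ℝ → ℝ} {a b M sg : ℝ}
    (dP : ∀ σ ∈ Icc a b, HasDerivAt P (P' σ) σ) (dQ : ∀ σ ∈ Icc a b, HasDerivAt Q (Q' σ) σ)
    (pos : ∀ σ ∈ Icc a b, 0 < P' σ) (sgn : ∀ σ ∈ Icc a b, 0 ≤ sg * (P' σ * Q' σ))
    (slope : ∀ σ ∈ Icc a b, |Q' σ| ≤ M * |P' σ|) {u v : ℝ} (hu : u ∈ Icc a b) (hv : v ∈ Icc a b) :
    0 ≤ sg * ((P u - P v) * (Q u - Q v)) ∧ |Q u - Q v| ≤ M * |P u - P v| := by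
  have m1 : MonotoneOn P (Icc a b) := mono_of dP fun σ hσ => (pos σ hσ).le
  have m2 : MonotoneOn (fun σ => sg * Q σ) (Icc a b) :=
    mono_of (fun σ hσ => (dQ σ hσ).const_mul sg) fun σ hσ => by
      have h1 := sgn σ hσ
      have h2 := pos σ hσ
      have h3 : sg * (P' σ * Q' σ) = P' σ * (sg * Q' σ) := by ring
      rw [h3] at h1
      exact nonneg_of_mul_nonneg_right h1 h2
  have m3 : MonotoneOn (fun σ => M * P σ - Q σ) (Icc a b) :=
    mono_of (fun σ hσ => ((dP σ hσ).const_mul M).sub (dQ σ hσ)) fun σ hσ => by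
      have h1 := slope σ hσ
      rw [abs_of_pos (pos σ hσ)] at h1
      have h2 := (abs_le.1 h1).2
      linarith
  have m4 : MonotoneOn (fun σ => M * P σ + Q σ) (Icc a b) :=
    mono_of (fun σ hσ => ((dP σ hσ).const_mul M).add (dQ σ hσ)) fun σ hσ => by
      have h1 := slope σ hσ
      rw [abs_of_pos (pos σ hσ)] at h1
      have h2 := (abs_le.1 h1).1
      linarith
  have key : ∀ x ∈ Icc a b, ∀ y ∈ Icc a b, x ≤ y →
      0 ≤ sg * ((P y - P x) * (Q y - Q x)) ∧ |Q y - Q x| ≤ M * |P y - P x| := by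
    intro x hx y hy hxy
    have h1 := m1 hx hy hxy
    have h2 := m2 hx hy hxy
    have h3 := m3 hx hy hxy
    have h4 := m4 hx hy hxy
    simp only at h2 h3 h4
    constructor
    · have h5 : sg * ((P y - P x) * (Q y - Q x)) = (P y - P x) * (sg * Q y - sg * Q x) := by ring
      rw [h5]
      exact mul_nonneg (by linarith) (by linarith)
    · rw [abs_of_nonneg (sub_nonneg.2 h1), abs_le]
      constructor <;> linarith
  rcases le_total u v with h | h
  · obtain ⟨h1, h2⟩ := key u hu v hv h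
    constructor
    · have h5 : sg * ((P u - P v) * (Q u - Q v)) = sg * ((P v - P u) * (Q v - Q u)) := by ring
      rw [h5]
      exact h1
    · rw [abs_sub_comm (Q u), abs_sub_comm (P u)]
      exact h2
  · exact key v hv u hu h

theorem pair {P Q P' Q' : ℝ → ℝ} {a b M sg : ℝ}
    (dP : ∀ σ ∈ Icc a b, HasDerivAt P (P' σ) σ) (dQ : ∀ σ ∈ Icc a b, HasDerivAt Q (Q' σ) σ)
    (nz : ∀ σ ∈ Icc a b, P' σ ≠ 0) (sgn : ∀ σ ∈ Icc a b, 0 ≤ sg * (P' σ * Q' σ))
    (slope : ∀ σ ∈ Icc a b, |Q' σ| ≤ M * |P' σ|) {u v : ℝ} (hu : u ∈ Icc a b) (hv : v ∈ Icc a b) :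
    0 ≤ sg * ((P u - P v) * (Q u - Q v)) ∧ |Q u - Q v| ≤ M * |P u - P v| := by
  rcases hasDerivWithinAt_forall_lt_or_forall_gt_of_forall_ne (convex_Icc a b)
    (fun σ hσ => (dP σ hσ).hasDerivWithinAt) nz with h | h
  · have h1 := pair_pos (P := fun σ => - P σ) (Q := fun σ => - Q σ) (P' := fun σ => - P' σ)
      (Q' := fun σ => - Q' σ) (a := a) (b := b) (M := M) (sg := sg)
      (fun σ hσ => (dP σ hσ).neg) (fun σ hσ => (dQ σ hσ).neg)
      (fun σ hσ => by have := h σ hσ; linarith)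
      (fun σ hσ => by have := sgn σ hσ; simpa using this)
      (fun σ hσ => by simpa [abs_neg] using slope σ hσ) hu hv
    obtain ⟨h2, h3⟩ := h1
    constructor
    · have h5 : sg * ((-P u - -P v) * (-Q u - -Q v)) = sg * ((P u - P v) * (Q u - Q v)) := by ring
      rw [h5] at h2
      exact h2
    · have h5 : (-Q u - -Q v) = -(Q u - Q v) := by ring
      have h6 : (-P u - -P v) = -(P u - P v) := by ring
      rw [h5, h6, abs_neg, abs_neg] at h3
      exact h3
  · exact pair_pos dP dQ h sgn slope hu hv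

theorem cover {P : ℝ → ℝ} {a b δ : ℝ} (hc : ContinuousOn P (Icc a b)) (ha : a < 0) (hb : 0 < b)
    (sides : (P a ≤ P 0 - δ ∧ P 0 + δ ≤ P b) ∨ (P 0 + δ ≤ P a ∧ P b ≤ P 0 - δ)) :
    Icc (P 0 - δ) (P 0 + δ) ⊆ P '' Icc a b := by
  rcases sides with ⟨h1, h2⟩ | ⟨h1, h2⟩
  · exact (Icc_subset_Icc h1 h2).trans (intermediate_value_Icc (ha.trans hb).le hc)
  · exact (Icc_subset_Icc h2 h1).trans (intermediate_value_Icc' (ha.trans hb).le hc)

end Pool.Agent.Lib.MP_d2b992_gt.Dyn.ExistM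

namespace Pool.Agent.Lib.MP_d2b992_gt.Dyn

open ExistM

theorem specEXIST (hX : SpecCROSS) : SpecEXIST := by
  intro X T T' e b s a d x1 c1 M δ B θ r t m t' m' z z' j0 p0 q0 σm σp j P Q P' Q'
    i0 u0 w0 ρm ρp i U W U' W' hM hr hδ h1 h2 hji hP hQ
  have cP : ContinuousOn P (Icc σm σp) := fun σ hσ => (h1.dP σ hσ).continuousAt.continuousWithinAt
  have cQ : ContinuousOn Q (Icc σm σp) := fun σ hσ => (h1.dQ σ hσ).continuousAt.continuousWithinAt
  have cU : ContinuousOn U (Icc ρm ρp) := fun σ hσ => (h2.dP σ hσ).continuousAt.continuousWithinAt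
  have cW : ContinuousOn W (Icc ρm ρp) := fun σ hσ => (h2.dQ σ hσ).continuousAt.continuousWithinAt
  obtain ⟨σ, hσ, ρ, hρ, e1, e2⟩ := hX M δ r σm σp ρm ρp 0 0 P Q W U (by linarith) hr hδ
    ⟨h1.neg.le, h1.pos.le⟩ ⟨h2.neg.le, h2.pos.le⟩ cP cQ cW cU
    (fun u hu v hv => by
      have h := pair h1.dP h1.dQ h1.nz h1.sgn h1.slope hu hv
      exact ⟨by linarith [h.1], h.2⟩)
    (fun u hu v hv => by
      have h := pair h2.dP h2.dQ h2.nz h2.sgn h2.slope hu hv
      exact ⟨by have := h.1; rw [one_mul] at this; linarith, h.2⟩)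
    (cover cP h1.neg h1.pos h1.sides) (cover cU h2.neg h2.pos h2.sides) hP hQ
  refine ⟨σ, hσ, ρ, hρ, ?_⟩
  rw [h1.eq σ hσ, h2.eq ρ hρ, e1, e2, hji]
  rfl

end Pool.Agent.Lib.MP_d2b992_gt.Dyn
end

section
/-!
# SQC (section 8): from boxes to squares
-/
set_option autoImplicit false

open MeasureTheory Filter Topology Set

namespace Pool.Agent.Lib.MP_d2b992_gt.Dyn.SqcM

/-- the density of the area in the coordinates of a near square -/
noncomputable def rh (p : ℝ × ℝ) : ENNReal := ENNReal.ofReal (1 / Real.sqrt (1 - p.1 ^ 2 - p.2 ^ 2))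

theorem rh_meas : Measurable rh := by
  unfold rh
  apply Measurable.ennreal_ofReal
  apply Measurable.const_div
  apply Measurable.sqrt
  fun_prop

/-- the open rectangle -/
def rect (b s : ℝ) : Set (ℝ × ℝ) := {p | |p.1| < b ∧ |p.2| < s}

theorem rect_eq (b s : ℝ) : rect b s = Ioo (-b) b ×ˢ Ioo (-s) s := by
  ext p
  simp [rect, abs_lt]

theorem rect_open (b s : ℝ) : IsOpen (rect b s) := by
  rw [rect_eq]
  exact isOpen_Ioo.prod isOpen_Ioo

theorem rect_conn (b s : ℝ) : IsPreconnected (rect b s) := by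
  rw [rect_eq]
  exact isPreconnected_Ioo.prod isPreconnected_Ioo

theorem rect_disc {b s : ℝ} (h : s ^ 2 + b ^ 2 = 1) {p : ℝ × ℝ}
    (hp : p ∈ rect b s) : 0 < 1 - p.1 ^ 2 - p.2 ^ 2 := by
  have h1 : p.1 ^ 2 < b ^ 2 := by
    rw [← sq_abs]
    exact pow_lt_pow_left₀ hp.1 (abs_nonneg _) two_ne_zero
  have h2 : p.2 ^ 2 < s ^ 2 := by
    rw [← sq_abs]
    exact pow_lt_pow_left₀ hp.2 (abs_nonneg _) two_ne_zero
  linarith

theorem rh_pos {b s : ℝ} (h : s ^ 2 + b ^ 2 = 1) {p : ℝ × ℝ}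
    (hp : p ∈ rect b s) : 0 < rh p := by
  rw [rh, ENNReal.ofReal_pos]
  exact one_div_pos.2 (Real.sqrt_pos.2 (rect_disc h hp))

variable {X : Type} [MeasurableSpace X] {μ : Measure X} {T : X ≃ᵐ X} {e : Bool → ℝ → ℝ → X}
  {b s : ℝ}

/-- open sets have images of positive measure -/
theorem pos_image (h : IsSys μ T e b s) (j : Bool) {V : Set (ℝ × ℝ)} (hV : IsOpen V)
    (hne : V.Nonempty) (hsub : V ⊆ rect b s) :
    0 < μ ((fun p : ℝ × ℝ => e j p.1 p.2) '' V) := by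
  rw [(h.area j V hV.measurableSet fun p hp => hsub hp).2]
  change 0 < ∫⁻ p in V, rh p
  rw [setLIntegral_pos_iff rh_meas]
  have h1 : Function.support rh ∩ V = V := by
    apply inter_eq_right.2
    intro p hp
    exact (rh_pos h.sb (hsub hp)).ne'
  rw [h1]
  exact hV.measure_pos _ hne

end Pool.Agent.Lib.MP_d2b992_gt.Dyn.SqcM

namespace Pool.Agent.Lib.MP_d2b992_gt.Dyn

open SqcM

theorem specSQC : SpecSQC := by
  intro X _ μ T e b s f h hbox j
  have hbox' : ∀ p : ℝ × ℝ, ∃ (r κ : ℝ), p ∈ rect b s → 0 < r ∧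
      ∀ᵐ z ∂μ, (∃ x c : ℝ, |x - p.1| < r ∧ |c - p.2| < r ∧ z = e j x c) → f z = κ := by
    intro p
    by_cases hp : p ∈ rect b s
    · obtain ⟨r, κ, h1, h2⟩ := hbox j p.1 p.2 hp.1 hp.2
      exact ⟨r, κ, fun _ => ⟨h1, h2⟩⟩
    · exact ⟨0, 0, fun h => absurd h hp⟩
  choose r κ hr using hbox'
  have mem_ball : ∀ p q : ℝ × ℝ, q ∈ Metric.ball p (r p) ↔ |q.1 - p.1| < r p ∧ |q.2 - p.2| < r p := by
    intro p q
    rw [Metric.mem_ball, Prod.dist_eq, max_lt_iff, Real.dist_eq, Real.dist_eq]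
  have hloc : ∀ p ∈ rect b s, ∀ q ∈ rect b s, q ∈ Metric.ball p (r p) → κ p = κ q := by
    intro p hp q hq hpq
    obtain ⟨hp0, hpa⟩ := hr p hp
    obtain ⟨hq0, hqa⟩ := hr q hq
    have hV : IsOpen (rect b s ∩ Metric.ball p (r p) ∩ Metric.ball q (r q)) :=
      ((rect_open b s).inter Metric.isOpen_ball).inter Metric.isOpen_ball
    have hpos := pos_image h j hV ⟨q, ⟨hq, hpq⟩, Metric.mem_ball_self hq0⟩
      (fun x hx => hx.1.1)
    by_contra hne
    have hnull : μ ((fun p : ℝ × ℝ => e j p.1 p.2) ''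
        (rect b s ∩ Metric.ball p (r p) ∩ Metric.ball q (r q))) = 0 := by
      have h1 : ∀ᵐ z ∂μ, z ∉ ((fun p : ℝ × ℝ => e j p.1 p.2) ''
        (rect b s ∩ Metric.ball p (r p) ∩ Metric.ball q (r q))) := by
        filter_upwards [hpa, hqa] with z h1 h2
        rintro ⟨w, ⟨⟨_, hw1⟩, hw2⟩, rfl⟩
        rw [mem_ball] at hw1 hw2
        exact hne ((h1 ⟨w.1, w.2, hw1.1, hw1.2, rfl⟩).symm.trans
          (h2 ⟨w.1, w.2, hw2.1, hw2.2, rfl⟩))
      rw [ae_iff] at h1
      simp only [not_not] at h1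
      exact h1
    rw [hnull] at hpos
    exact lt_irrefl _ hpos
  have h0 : ((0 : ℝ), (0 : ℝ)) ∈ rect b s := by
    simp [rect, h.b0, h.s0]
  have hconst : ∀ p ∈ rect b s, κ (0, 0) = κ p := by
    intro p hp
    refine (rect_conn b s).induction₂ (fun x y => κ x = κ y) ?_ ?_ ?_ h0 hp
    · intro x hx
      have h1 : Metric.ball x (r x) ∈ 𝓝[rect b s] x :=
        mem_nhdsWithin_of_mem_nhds (Metric.ball_mem_nhds x (hr x hx).1)
      filter_upwards [h1, self_mem_nhdsWithin] with y hy hy'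
      exact hloc x hx y hy' hy
    · intro x y z _ _ _ h1 h2
      exact h1.trans h2
    · intro x y _ _ h1
      exact h1.symm
  obtain ⟨t, hts, htc, htcov⟩ := TopologicalSpace.countable_cover_nhdsWithin
    (f := fun p => Metric.ball p (r p)) (s := rect b s)
    (fun x hx => mem_nhdsWithin_of_mem_nhds (Metric.ball_mem_nhds x (hr x hx).1))
  refine ⟨κ (0, 0), ?_⟩
  have hall : ∀ᵐ z ∂μ, ∀ p ∈ t,
      (∃ x c : ℝ, |x - p.1| < r p ∧ |c - p.2| < r p ∧ z = e j x c) → f z = κ p := by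
    rw [ae_ball_iff htc]
    exact fun p hp => (hr p (hts hp)).2
  filter_upwards [hall] with z hz
  rintro ⟨x, c, hx, hc, rfl⟩
  have hm : ((x, c) : ℝ × ℝ) ∈ rect b s := ⟨hx, hc⟩
  obtain ⟨p, hpt, hp⟩ := mem_iUnion₂.1 (htcov hm)
  rw [mem_ball] at hp
  rw [hz p hpt ⟨x, c, hp.1, hp.2, rfl⟩]
  exact (hconst p (hts hpt)).symm

end Pool.Agent.Lib.MP_d2b992_gt.Dyn
end

section
/-!
# FIN (section 8): ergodicity
-/
set_option autoImplicit false

open MeasureTheory Filter Topology Set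
open scoped BoundedContinuousFunction

namespace Pool.Agent.Lib.MP_d2b992_gt.Dyn.FinM

open SqcM

variable {X : Type} [MeasurableSpace X] {μ : Measure X} {T : X ≃ᵐ X} {e : Bool → ℝ → ℝ → X}
  {b s : ℝ}

/-- the chart as a map of the plane -/
def ch (e : Bool → ℝ → ℝ → X) (j : Bool) (p : ℝ × ℝ) : X := e j p.1 p.2

omit [MeasurableSpace X] in
theorem sqs_eq (j : Bool) : sqs e b s j = ch e j '' rect b s := by
  ext z
  constructor
  · rintro ⟨x, c, hx, hc, rfl⟩
    exact ⟨(x, c), ⟨hx, hc⟩, rfl⟩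
  · rintro ⟨p, hp, rfl⟩
    exact ⟨p.1, p.2, hp.1, hp.2, rfl⟩

omit [MeasurableSpace X] in
theorem ch_inj (h : ChartInj e b s) {j j' : Bool} {p q : ℝ × ℝ} (hp : p ∈ rect b s)
    (hq : q ∈ rect b s) (heq : ch e j p = ch e j' q) : j = j' ∧ p = q := by
  obtain ⟨h1, h2, h3⟩ := h j j' p.1 p.2 q.1 q.2 hp.1 hp.2 hq.1 hq.2 heq
  exact ⟨h1, Prod.ext h2 h3⟩

/-- the area in the coordinates -/
noncomputable def nu (b s : ℝ) : Measure (ℝ × ℝ) := (volume.restrict (rect b s)).withDensity rh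

theorem nu_apply (h : IsSys μ T e b s) (j : Bool) {U : Set X} (hU : MeasurableSet U) :
    nu b s (ch e j ⁻¹' U) = μ (U ∩ sqs e b s j) := by
  have hm : MeasurableSet (ch e j ⁻¹' U) := h.meas j hU
  have hr : MeasurableSet (rect b s) := (rect_open b s).measurableSet
  have h1 := (h.area j (ch e j ⁻¹' U ∩ rect b s) (hm.inter hr) fun p hp => hp.2).2
  have h2 : (fun p : ℝ × ℝ => e j p.1 p.2) '' (ch e j ⁻¹' U ∩ rect b s) = U ∩ sqs e b s j := by
    rw [sqs_eq]
    ext z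
    constructor
    · rintro ⟨p, ⟨hp1, hp2⟩, rfl⟩
      exact ⟨hp1, p, hp2, rfl⟩
    · rintro ⟨hz, p, hp, rfl⟩
      exact ⟨p, ⟨hz, hp⟩, rfl⟩
  rw [h2] at h1
  rw [h1, nu, withDensity_apply _ hm, Measure.restrict_restrict hm]
  rfl

theorem nu_map (h : IsSys μ T e b s) (j : Bool) :
    (nu b s).map (ch e j) = μ.restrict (sqs e b s j) := by
  ext U hU
  rw [Measure.map_apply (show Measurable (ch e j) from h.meas j) hU, nu_apply h j hU,
    Measure.restrict_apply hU]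

theorem nu_fin (h : IsSys μ T e b s) : IsFiniteMeasure (nu b s) := by
  have := h.fin
  constructor
  have h1 := nu_apply h false MeasurableSet.univ
  rw [preimage_univ] at h1
  rw [h1]
  exact measure_lt_top μ _

theorem nu_rect : ∀ᵐ p ∂(nu b s), p ∈ rect b s := by
  have h1 : ∀ᵐ p ∂(volume.restrict (rect b s)), p ∈ rect b s :=
    ae_restrict_mem (rect_open b s).measurableSet
  exact (withDensity_absolutelyContinuous _ _).ae_le h1

open Classical in
/-- extension of a function on a near square by zero -/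
noncomputable def ph (e : Bool → ℝ → ℝ → X) (b s : ℝ) (j : Bool) (g : ℝ × ℝ → ℝ) (z : X) : ℝ :=
  if h : ∃ p ∈ rect b s, ch e j p = z then g h.choose else 0

omit [MeasurableSpace X] in
theorem ph_ch (h : ChartInj e b s) (j : Bool) (g : ℝ × ℝ → ℝ) {p : ℝ × ℝ} (hp : p ∈ rect b s) :
    ph e b s j g (ch e j p) = g p := by
  have hex : ∃ q ∈ rect b s, ch e j q = ch e j p := ⟨p, hp, rfl⟩
  rw [ph, dif_pos hex]
  rw [(ch_inj h hex.choose_spec.1 hp hex.choose_spec.2).2]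

omit [MeasurableSpace X] in
theorem ph_off (j : Bool) (g : ℝ × ℝ → ℝ) {z : X} (hz : z ∉ sqs e b s j) :
    ph e b s j g z = 0 := by
  rw [ph, dif_neg]
  rintro ⟨p, hp, rfl⟩
  exact hz ⟨p.1, p.2, hp.1, hp.2, rfl⟩

theorem ph_meas (h : IsSys μ T e b s) (j : Bool) {g : ℝ × ℝ → ℝ} (hg : Measurable g) :
    Measurable (ph e b s j g) := by
  intro U hU
  have hr : MeasurableSet (rect b s) := (rect_open b s).measurableSet
  have h1 := (h.area j (g ⁻¹' U ∩ rect b s) ((hg hU).inter hr) fun p hp => hp.2).1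
  have h2 := (h.area j (rect b s) hr fun p hp => hp).1
  by_cases h0 : (0 : ℝ) ∈ U
  · have : ph e b s j g ⁻¹' U = ((fun p : ℝ × ℝ => e j p.1 p.2) '' (g ⁻¹' U ∩ rect b s)) ∪
        ((fun p : ℝ × ℝ => e j p.1 p.2) '' (rect b s))ᶜ := by
      ext z
      by_cases hz : z ∈ (fun p : ℝ × ℝ => e j p.1 p.2) '' (rect b s)
      · obtain ⟨p, hp, rfl⟩ := hz
        have e1 : ph e b s j g (e j p.1 p.2) = g p := ph_ch h.inj j g hp
        constructor
        · intro hz
          left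
          rw [mem_preimage, e1] at hz
          exact ⟨p, ⟨hz, hp⟩, rfl⟩
        · rintro (⟨q, ⟨hq1, hq2⟩, hq3⟩ | hz)
          · rw [mem_preimage, ← hq3]
            change ph e b s j g (ch e j q) ∈ U
            rw [ph_ch h.inj j g hq2]
            exact hq1
          · exact absurd ⟨p, hp, rfl⟩ hz
      · have e1 : ph e b s j g z = 0 := ph_off j g fun hz' => hz (by rwa [sqs_eq] at hz')
        constructor
        · intro _
          right
          exact hz
        · intro _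
          rw [mem_preimage, e1]
          exact h0
    rw [this]
    exact h1.union h2.compl
  · have : ph e b s j g ⁻¹' U = ((fun p : ℝ × ℝ => e j p.1 p.2) '' (g ⁻¹' U ∩ rect b s)) := by
      ext z
      by_cases hz : z ∈ (fun p : ℝ × ℝ => e j p.1 p.2) '' (rect b s)
      · obtain ⟨p, hp, rfl⟩ := hz
        have e1 : ph e b s j g (e j p.1 p.2) = g p := ph_ch h.inj j g hp
        constructor
        · intro hz
          rw [mem_preimage, e1] at hz
          exact ⟨p, ⟨hz, hp⟩, rfl⟩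
        · rintro ⟨q, ⟨hq1, hq2⟩, hq3⟩
          rw [mem_preimage, ← hq3]
          change ph e b s j g (ch e j q) ∈ U
          rw [ph_ch h.inj j g hq2]
          exact hq1
      · have e1 : ph e b s j g z = 0 := ph_off j g fun hz' => hz (by rwa [sqs_eq] at hz')
        constructor
        · intro hz'
          rw [mem_preimage, e1] at hz'
          exact absurd hz' h0
        · rintro ⟨q, ⟨hq1, hq2⟩, hq3⟩
          exact absurd ⟨q, hq2, hq3⟩ hz
    rw [this]
    exact h1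

theorem ph_int (h : IsSys μ T e b s) (j : Bool) {g : ℝ × ℝ → ℝ} (hg : Measurable g)
    {A : Set X} (hA : MeasurableSet A) :
    ∫ z in A, ph e b s j g z ∂μ = ∫ p in ch e j ⁻¹' A, g p ∂(nu b s) := by
  have hsq : MeasurableSet (sqs e b s j) := by
    rw [sqs_eq]
    exact (h.area j (rect b s) (rect_open b s).measurableSet fun p hp => hp).1
  have h1 : ∫ z in A, ph e b s j g z ∂μ = ∫ z in A, ph e b s j g z ∂(μ.restrict (sqs e b s j)) := by
    rw [Measure.restrict_restrict hA]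
    apply setIntegral_eq_of_subset_of_forall_sdiff_eq_zero hA inter_subset_left
    intro z hz
    exact ph_off j g fun hz' => hz.2 ⟨hz.1, hz'⟩
  rw [h1, ← nu_map h j, setIntegral_map hA]
  · apply integral_congr_ae
    have h2 : ∀ᵐ p ∂((nu b s).restrict (ch e j ⁻¹' A)), p ∈ rect b s := ae_restrict_of_ae nu_rect
    filter_upwards [h2] with p hp
    exact ph_ch h.inj j g hp
  · exact (ph_meas h j hg).aestronglyMeasurable
  · exact (show Measurable (ch e j) from h.meas j).aemeasurable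

/-- cut-off functions -/
noncomputable def cu (b s : ℝ) (n : ℕ) (p : ℝ × ℝ) : ℝ :=
  min 1 ((n : ℝ) * max 0 (min (b - b / (n + 2) - |p.1|) (s - s / (n + 2) - |p.2|)))

theorem cu_cont (n : ℕ) : Continuous (cu b s n) := by
  unfold cu
  fun_prop

theorem cu_nonneg (n : ℕ) (p : ℝ × ℝ) : 0 ≤ cu b s n p :=
  le_min zero_le_one (mul_nonneg (Nat.cast_nonneg n) (le_max_left _ _))

theorem cu_le_one (n : ℕ) (p : ℝ × ℝ) : cu b s n p ≤ 1 := min_le_left _ _

theorem cu_zero {n : ℕ} {p : ℝ × ℝ} (h : b - b / (n + 2) ≤ |p.1| ∨ s - s / (n + 2) ≤ |p.2|) :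
    cu b s n p = 0 := by
  have h1 : min (b - b / (n + 2) - |p.1|) (s - s / (n + 2) - |p.2|) ≤ 0 := by
    rcases h with h | h
    · exact (min_le_left _ _).trans (by linarith)
    · exact (min_le_right _ _).trans (by linarith)
  rw [cu, max_eq_left h1, mul_zero]
  exact min_eq_right zero_le_one

theorem cu_lim {p : ℝ × ℝ} (hp : p ∈ rect b s) : Tendsto (fun n => cu b s n p) atTop (𝓝 1) := by
  have hn : Tendsto (fun n : ℕ => (n : ℝ) + 2) atTop atTop :=
    tendsto_atTop_add_const_right _ _ tendsto_natCast_atTop_atTop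
  have l1 : Tendsto (fun n : ℕ => b - b / ((n : ℝ) + 2) - |p.1|) atTop (𝓝 (b - 0 - |p.1|)) :=
    ((tendsto_const_nhds.sub (hn.const_div_atTop b)).sub tendsto_const_nhds)
  have l2 : Tendsto (fun n : ℕ => s - s / ((n : ℝ) + 2) - |p.2|) atTop (𝓝 (s - 0 - |p.2|)) :=
    ((tendsto_const_nhds.sub (hn.const_div_atTop s)).sub tendsto_const_nhds)
  have l3 := (tendsto_const_nhds (x := (0 : ℝ))).max (l1.min l2)
  have hpos : 0 < max 0 (min (b - 0 - |p.1|) (s - 0 - |p.2|)) := by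
    apply lt_max_of_lt_right
    apply lt_min
    · have := hp.1
      linarith
    · have := hp.2
      linarith
  have l4 := (tendsto_natCast_atTop_atTop (R := ℝ)).atTop_mul_pos hpos l3
  apply tendsto_const_nhds.congr'
  filter_upwards [l4.eventually_ge_atTop 1] with n hn
  rw [cu, min_eq_left hn]

end Pool.Agent.Lib.MP_d2b992_gt.Dyn.FinM

namespace Pool.Agent.Lib.MP_d2b992_gt.Dyn

open SqcM FinM

theorem specFIN (hVN : SpecVN) : SpecFIN := by
  intro X _ μ T e b s h hT A0 hA0 hinv0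
  have := h.fin
  have := nu_fin h
  have hb0 := h.b0
  have hs0 := h.s0
  have hTm : Measure.QuasiMeasurePreserving T μ μ := h.mp.quasiMeasurePreserving
  obtain ⟨A, hA, hAA0, hinv⟩ :=
    hTm.exists_preimage_eq_of_preimage_ae hA0.nullMeasurableSet hinv0
  -- A test function has a constant limit
  have key : ∀ (a d : ℝ) (g : Bool → ℝ × ℝ → ℝ) (φ : X → ℝ) (B : ℝ), Test e b s a d g φ →
      Measurable φ → (∀ z, |φ z| ≤ B) →
      μ.real univ * ∫ z in A, φ z ∂μ = μ.real A * ∫ z in univ, φ z ∂μ := by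
    intro a d g φ B htest hφ hB
    obtain ⟨f, n, hf, hfB, hfT, hn, hn0, hlim, hint⟩ := hVN X μ T h.mp φ B hφ hB
    have hconst := hT a d g φ f n B htest ⟨hf, hfB, hfT, hn, hn0, hlim, hint⟩
    obtain ⟨κ0, hκ0⟩ := hconst false
    obtain ⟨κ1, hκ1⟩ := hconst true
    have hκ : κ0 = κ1 := by
      have h1 : ∀ᵐ z ∂μ, T z ∈ sqs e b s true → f (T z) = κ1 := hTm.ae hκ1
      by_contra hne
      have h2 : ∀ᵐ z ∂μ, z ∉ {z | z ∈ sqs e b s false ∧ T z ∈ sqs e b s true} := by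
        filter_upwards [h1, hκ0] with z h1 h2
        rintro ⟨h3, h4⟩
        have h5 := h1 h4
        rw [hfT, h2 h3] at h5
        exact hne h5
      rw [ae_iff] at h2
      simp only [not_not] at h2
      have h3 := h.s02
      exact h3.ne' h2
    have hall : ∀ᵐ z ∂μ, ∀ j : Bool, z ∈ sqs e b s j → f z = κ0 := by
      filter_upwards [hκ0, hκ1] with z h1 h2
      intro j
      cases j
      · exact h1
      · intro h3
        rw [h2 h3, hκ]
    have hall' : ∀ᵐ z ∂μ, ∀ (n : ℕ) (j : Bool), T^[n] z ∈ sqs e b s j → f (T^[n] z) = κ0 := by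
      rw [ae_all_iff]
      intro n
      exact (h.mp.iterate n).quasiMeasurePreserving.ae hall
    have hfT' : ∀ (n : ℕ) (z : X), f (T^[n] z) = f z := by
      intro n
      induction n with
      | zero => intro z; rfl
      | succ n ih => intro z; rw [Function.iterate_succ_apply', hfT, ih]
    have hfκ : ∀ᵐ z ∂μ, f z = κ0 := by
      filter_upwards [hall', h.vis] with z h1 h2
      obtain ⟨n, j, hn⟩ := h2
      rw [← hfT' n z]
      exact h1 n j hn
    have hset : ∀ A : Set X, MeasurableSet A → T ⁻¹' A = A →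
        ∫ z in A, φ z ∂μ = μ.real A * κ0 := by
      intro A hA hinv
      rw [← hint A hA hinv, integral_congr_ae (ae_restrict_of_ae hfκ), setIntegral_const]
      rfl
    rw [hset A hA hinv, hset univ MeasurableSet.univ rfl]
    ring
  -- bounded continuous functions of the coordinates
  have key2 : ∀ (j : Bool) (g : (ℝ × ℝ) →ᵇ ℝ),
      μ.real univ * ∫ p in ch e j ⁻¹' A, g p ∂(nu b s) = μ.real A * ∫ p, g p ∂(nu b s) := by
    intro j g
    have hn : ∀ n : ℕ, μ.real univ * ∫ p in ch e j ⁻¹' A, g p * cu b s n p ∂(nu b s) =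
        μ.real A * ∫ p, g p * cu b s n p ∂(nu b s) := by
      intro n
      have hgc : Continuous fun p => g p * cu b s n p := g.continuous.mul (cu_cont n)
      have hn2 : (0 : ℝ) < (n : ℝ) + 2 := by positivity
      have hfrac : ∀ x : ℝ, 0 < x → 0 < x - x / ((n : ℝ) + 2) ∧ x - x / ((n : ℝ) + 2) < x := by
        intro x hx
        constructor
        · rw [sub_pos, div_lt_iff₀ hn2]
          nlinarith [Nat.cast_nonneg (α := ℝ) n]
        · have : 0 < x / ((n : ℝ) + 2) := div_pos hx hn2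
          linarith
      have htest : Test e b s (b - b / (n + 2)) (s - s / (n + 2))
          (fun i p => if i = j then g p * cu b s n p else 0)
          (ph e b s j (fun p => g p * cu b s n p)) := by
        refine ⟨(hfrac b hb0).1, (hfrac b hb0).2, (hfrac s hs0).1, (hfrac s hs0).2, ?_, ?_, ?_, ?_⟩
        · intro i
          by_cases hij : i = j
          · simpa [hij] using hgc
          · simpa [hij] using continuous_const
        · intro i p hp
          by_cases hij : i = j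
          · simp [hij, cu_zero hp]
          · simp [hij]
        · intro i x c hx hc
          by_cases hij : i = j
          · subst hij
            simp only [if_true]
            exact ph_ch h.inj i _ (p := (x, c)) ⟨hx, hc⟩
          · simp only [if_neg hij]
            apply ph_off
            intro hz
            rw [sqs_eq] at hz
            obtain ⟨q, hq, hq'⟩ := hz
            exact hij (ch_inj h.inj (p := q) (q := (x, c)) hq ⟨hx, hc⟩ hq').1.symm
        · intro z hz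
          exact ph_off j _ (hz j)
      have hbd : ∀ z, |ph e b s j (fun p => g p * cu b s n p) z| ≤ ‖g‖ := by
        intro z
        by_cases hz : z ∈ sqs e b s j
        · rw [sqs_eq] at hz
          obtain ⟨p, hp, rfl⟩ := hz
          rw [ph_ch h.inj j _ hp, abs_mul, abs_of_nonneg (cu_nonneg n p)]
          have h1 : |g p| ≤ ‖g‖ := g.norm_coe_le_norm p
          exact (mul_le_of_le_one_right (abs_nonneg _) (cu_le_one n p)).trans h1
        · rw [ph_off j _ hz, abs_zero]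
          exact norm_nonneg g
      have h1 := key _ _ _ _ ‖g‖ htest (ph_meas h j hgc.measurable) hbd
      rw [ph_int h j hgc.measurable hA, ph_int h j hgc.measurable MeasurableSet.univ,
        preimage_univ, Measure.restrict_univ] at h1
      exact h1
    have hlim : ∀ m : Measure (ℝ × ℝ), IsFiniteMeasure m → (∀ᵐ p ∂m, p ∈ rect b s) →
        Tendsto (fun n => ∫ p, g p * cu b s n p ∂m) atTop (𝓝 (∫ p, g p ∂m)) := by
      intro m hm hmr
      apply tendsto_integral_of_dominated_convergence (fun _ => ‖g‖)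
      · intro n
        exact (g.continuous.mul (cu_cont n)).aestronglyMeasurable
      · exact integrable_const _
      · intro n
        refine Eventually.of_forall fun p => ?_
        rw [Real.norm_eq_abs, abs_mul, abs_of_nonneg (cu_nonneg n p)]
        exact (mul_le_of_le_one_right (abs_nonneg _) (cu_le_one n p)).trans (g.norm_coe_le_norm p)
      · filter_upwards [hmr] with p hp
        have := (tendsto_const_nhds (x := g p)).mul (cu_lim hp)
        simpa using this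
    have l1 := (hlim ((nu b s).restrict (ch e j ⁻¹' A)) inferInstance
      (ae_restrict_of_ae nu_rect)).const_mul (μ.real univ)
    have l2 := (hlim (nu b s) inferInstance nu_rect).const_mul (μ.real A)
    have l3 := l2.congr fun n => (hn n).symm
    exact tendsto_nhds_unique l1 l3
  -- equality of measures
  have key3 : ∀ j : Bool, μ univ * μ (A ∩ sqs e b s j) = μ A * μ (A ∩ sqs e b s j) := by
    intro j
    have i1 : IsFiniteMeasure ((μ univ) • (nu b s).restrict (ch e j ⁻¹' A)) :=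
      Measure.smul_finite _ (measure_ne_top μ _)
    have i2 : IsFiniteMeasure ((μ A) • (nu b s)) :=
      Measure.smul_finite _ (measure_ne_top μ _)
    have h1 : (μ univ) • (nu b s).restrict (ch e j ⁻¹' A) = (μ A) • (nu b s) := by
      apply ext_of_forall_integral_eq_of_IsFiniteMeasure
      intro g
      rw [integral_smul_measure, integral_smul_measure]
      exact key2 j g
    have hBm : MeasurableSet (ch e j ⁻¹' A) := h.meas j hA
    have h2 := congrArg (fun m : Measure (ℝ × ℝ) => m (ch e j ⁻¹' A)) h1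
    simp only [Measure.smul_apply, smul_eq_mul, Measure.restrict_apply hBm, inter_self] at h2
    rw [nu_apply h j hA] at h2
    exact h2
  by_cases hz : ∀ j : Bool, μ (A ∩ sqs e b s j) = 0
  · left
    rw [← measure_congr hAA0]
    have h1 : ∀ᵐ z ∂μ, ∀ (n : ℕ) (j : Bool), T^[n] z ∉ A ∩ sqs e b s j := by
      rw [ae_all_iff]
      intro n
      have h2 : ∀ᵐ z ∂μ, ∀ j : Bool, z ∉ A ∩ sqs e b s j := by
        rw [ae_all_iff]
        intro j
        exact measure_eq_zero_iff_ae_notMem.1 (hz j)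
      exact (h.mp.iterate n).quasiMeasurePreserving.ae h2
    have hA' : ∀ (n : ℕ) (z : X), z ∈ A → T^[n] z ∈ A := by
      intro n
      induction n with
      | zero => intro z hz; exact hz
      | succ n ih =>
        intro z hz
        rw [Function.iterate_succ_apply']
        have := ih z hz
        rw [← hinv] at this
        exact this
    rw [measure_eq_zero_iff_ae_notMem]
    filter_upwards [h1, h.vis] with z h2 h3 hzA
    obtain ⟨n, j, hn⟩ := h3
    exact h2 n j ⟨hA' n z hzA, hn⟩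
  · right
    push Not at hz
    obtain ⟨j, hj⟩ := hz
    have h1 : μ univ = μ A :=
      (ENNReal.mul_left_inj hj (measure_ne_top μ _)).1 (key3 j)
    have h2 : μ A0 = μ A := (measure_congr hAA0).symm
    rw [measure_compl hA0 (measure_ne_top μ _), h1, h2]
    exact tsub_self _

end Pool.Agent.Lib.MP_d2b992_gt.Dyn
end

section
/-!
# HOPF: auxiliary lemmas

Text: `/team-store/MP_d2b992_gt_DYN.md`, section 7.
-/
set_option autoImplicit false

open MeasureTheory Filter Topology Set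

namespace Pool.Agent.Lib.MP_d2b992_gt.Dyn.HopfM

/-! ## Monotonicity of the structures -/

theorem good_mono {p : ℕ → Prop} {K K' ε ε' : ℝ} (h : Good p K ε) (hK : K ≤ K')
    (hε : ε ≤ ε') : Good p K' ε' := by
  refine ⟨h.1, h.2.1, fun i => (h.2.2 i).trans ?_⟩
  have hi : (0 : ℝ) ≤ (i : ℝ) := Nat.cast_nonneg i
  have h1 : ε * (i : ℝ) ≤ ε' * (i : ℝ) := mul_le_mul_of_nonneg_right hε hi
  linarith

theorem leaf_mono {X : Type} {S S' : X → X} {E : Bool → ℝ → ℝ → X}
    {βp βq sg a d p1 q1 M M' δ δ' B B' θ θ' : ℝ} {t m : ℕ} {z : X} {j0 : Bool}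
    {p0 q0 σm σp : ℝ} {j : Bool} {P Q P' Q' : ℝ → ℝ}
    (h : Leaf S S' E βp βq sg a d p1 q1 M δ B θ t m z j0 p0 q0 σm σp j P Q P' Q')
    (hM : M ≤ M') (hδ : δ' ≤ δ) (hB0 : 0 ≤ B) (hB : B ≤ B') (hθ0 : 0 ≤ θ) (hθ : θ ≤ θ') :
    Leaf S S' E βp βq sg a d p1 q1 M' δ' B' θ' t m z j0 p0 q0 σm σp j P Q P' Q' := by
  have hpow : ∀ i : ℕ, B * θ ^ i ≤ B' * θ' ^ i := fun i =>
    mul_le_mul hB (pow_le_pow_left₀ hθ0 hθ i) (pow_nonneg hθ0 i) (hB0.trans hB)
  exact
    { ha := h.ha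
      hd := h.hd
      start := h.start
      time := h.time
      neg := h.neg
      pos := h.pos
      dom := h.dom
      eq := h.eq
      inP := h.inP
      inQ := h.inQ
      dP := h.dP
      dQ := h.dQ
      nz := h.nz
      sgn := h.sgn
      slope := fun σ hσ => (h.slope σ hσ).trans
        (mul_le_mul_of_nonneg_right hM (abs_nonneg _))
      sides := by
        rcases h.sides with ⟨h1, h2⟩ | ⟨h1, h2⟩
        · exact Or.inl ⟨by linarith, by linarith⟩
        · exact Or.inr ⟨by linarith, by linarith⟩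
      dist := fun σ hσ σ' hσ' => (h.dist σ hσ σ' hσ').trans
        (mul_le_mul_of_nonneg_right hB (abs_nonneg _))
      small := h.small.trans (hpow m)
      close := by
        intro i k h1 h2 h3 σ hσ j' p' q' h4 h5
        have hi := hpow i
        obtain ⟨h6, h7⟩ := h.close i k h1 h2 h3 σ hσ j' p' q' (by linarith) (by linarith)
        constructor
        · intro h8
          obtain ⟨p'', q'', h9, h10, h11⟩ := h6 h8
          exact ⟨p'', q'', h9.trans hi, h10.trans hi, h11⟩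
        · intro h8
          obtain ⟨p'', q'', h9, h10, h11⟩ := h7 h8
          exact ⟨p'', q'', h9.trans hi, h10.trans hi, h11⟩ }

theorem test_mono {X : Type} {e : Bool → ℝ → ℝ → X} {b s a a' d d' : ℝ}
    {g : Bool → ℝ × ℝ → ℝ} {φ : X → ℝ} (h : Test e b s a d g φ) (ha : a ≤ a') (hab : a' < b)
    (hd : d ≤ d') (hds : d' < s) : Test e b s a' d' g φ where
  a0 := h.a0.trans_le ha
  ab := hab
  d0 := h.d0.trans_le hd
  ds := hds
  cont := h.cont
  supp := by
    intro j p hp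
    apply h.supp j p
    rcases hp with hp | hp
    · exact Or.inl (ha.trans hp)
    · exact Or.inr (hd.trans hp)
  on := h.on
  off := h.off

theorem core_flp {X : Type} (e : Bool → ℝ → ℝ → X) (a d : ℝ) :
    core (flp e) d a = core e a d := by
  ext z
  constructor
  · rintro ⟨j, p, q, hp, hq, rfl⟩
    exact ⟨j, q, p, hq, hp, rfl⟩
  · rintro ⟨j, p, q, hp, hq, rfl⟩
    exact ⟨j, q, p, hq, hp, rfl⟩

theorem chartInj_flp {X : Type} {e : Bool → ℝ → ℝ → X} {b s : ℝ} (h : ChartInj e b s) :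
    ChartInj (flp e) s b := by
  intro j j' p q p' q' hp hq hp' hq' heq
  obtain ⟨h1, h2, h3⟩ := h j j' q p q' p' hq hp hq' hp' heq
  exact ⟨h1, h3, h2⟩

/-! ## Iterates -/

theorem symm_iter {X : Type} [MeasurableSpace X] (T : X ≃ᵐ X) (n : ℕ) (y : X) :
    T.symm^[n] (T^[n] y) = y := by
  have h : Function.LeftInverse T.symm T := T.symm_apply_apply
  exact (Function.LeftInverse.iterate h n) y

theorem iter_inj {X : Type} [MeasurableSpace X] (T : X ≃ᵐ X) (n : ℕ) :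
    Function.Injective (T^[n]) := T.injective.iterate n

theorem symm_iter_sub {X : Type} [MeasurableSpace X] (T : X ≃ᵐ X) (k t : ℕ) (hk : k ≤ t)
    (y : X) : T.symm^[t - k] (T^[t] y) = T^[k] y := by
  have h : T^[t] y = T^[t - k] (T^[k] y) := by
    rw [← Function.iterate_add_apply, Nat.sub_add_cancel hk]
  rw [h, symm_iter]

/-! ## Gaps -/

/-- the number of visits before a large time is large -/
theorem count_of_good {p : ℕ → Prop} [DecidablePred p] {K ε : ℝ} (h : Good p K ε) (n0 : ℕ) :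
    ∀ t : ℕ, (∑ i ∈ Finset.range n0, (K + ε * (i : ℝ))) < (t : ℝ) → n0 ≤ Nat.count p t := by
  intro t ht
  have hinf : (Set.ofPred p).Infinite := by
    rw [Set.infinite_iff_exists_gt]
    intro a
    obtain ⟨n, hn, hpn⟩ := h.2.1 (a + 1)
    exact ⟨n, hpn, by omega⟩
  have h0 : Nat.nth p 0 = 0 := by
    rw [Nat.nth_zero]
    exact le_antisymm (Nat.sInf_le h.1) (Nat.zero_le _)
  have hle : (Nat.nth p n0 : ℝ) ≤ ∑ i ∈ Finset.range n0, (K + ε * (i : ℝ)) := by
    have hall : ∀ n : ℕ, (Nat.nth p n : ℝ) ≤ ∑ i ∈ Finset.range n, (K + ε * (i : ℝ)) := by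
      intro n
      induction n with
      | zero => simp [h0]
      | succ n ih =>
        rw [Finset.sum_range_succ]
        have := h.2.2 n
        linarith
    exact hall n0
  have hlt : Nat.nth p n0 < t := by
    have : (Nat.nth p n0 : ℝ) < (t : ℝ) := lt_of_le_of_lt hle ht
    exact_mod_cast this
  have h1 : Nat.count p (Nat.nth p n0) = n0 := Nat.count_nth_of_infinite hinf n0
  calc n0 = Nat.count p (Nat.nth p n0) := h1.symm
    _ ≤ Nat.count p t := Nat.count_monotone p hlt.le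

/-- a point which returns infinitely often has many visits before a suitable return -/
theorem exists_return {X : Type} [MeasurableSpace X] (T : X ≃ᵐ X) (A U : Set X) (hAU : A ⊆ U)
    (y : X) (hy : ∃ᶠ n in atTop, T^[n] y ∈ A) (N : ℕ) [DecidablePred fun n => T.symm^[n] y ∈ U] :
    ∃ t : ℕ, T^[t] y ∈ A ∧
      ∀ [DecidablePred fun n => T.symm^[n] (T^[t] y) ∈ U],
        N ≤ Nat.count (fun n => T.symm^[n] (T^[t] y) ∈ U) t := by
  have hinf : {n : ℕ | T^[n] y ∈ A}.Infinite := Nat.frequently_atTop_iff_infinite.mp hy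
  have hinf' : ({n : ℕ | T^[n] y ∈ A} \ {0}).Infinite := hinf.sdiff (Set.finite_singleton 0)
  obtain ⟨F, hF, hcard⟩ := hinf'.exists_subset_card_eq N
  obtain ⟨t, ht, htF⟩ : ∃ t : ℕ, T^[t] y ∈ A ∧ F.sup id ≤ t := by
    obtain ⟨t, ht1, ht2⟩ := Filter.frequently_atTop.mp hy (F.sup id)
    exact ⟨t, ht2, ht1⟩
  refine ⟨t, ht, ?_⟩
  intro _
  rw [Nat.count_eq_card_filter_range, ← hcard]
  have hle : ∀ k ∈ F, k ≤ t := fun k hk => (Finset.le_sup (f := id) hk).trans htF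
  have hpos : ∀ k ∈ F, 1 ≤ k := by
    intro k hk
    have h1 := (hF hk).2
    simp only [Set.mem_singleton_iff] at h1
    omega
  apply Finset.card_le_card_of_injOn (fun k => t - k)
  · intro k hk
    have hk' : k ∈ F := hk
    simp only [Finset.coe_filter, Finset.mem_range, Set.mem_ofPred_eq]
    have h1 := hle k hk'
    have h2 := hpos k hk'
    refine ⟨by omega, ?_⟩
    rw [symm_iter_sub T k t h1]
    exact hAU (hF hk').1
  · intro k hk l hl hkl
    have h1 := hle k hk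
    have h2 := hle l hl
    simp only at hkl
    omega

/-! ## Almost everywhere constant functions -/

theorem const_of_dichotomy {X : Type} [MeasurableSpace X] (μ : Measure X) (R : Set X)
    (f : X → ℝ) (B : ℝ) (hB : ∀ z, |f z| ≤ B)
    (h : ∀ a b : ℝ, a < b → μ (R ∩ {z | f z < a}) = 0 ∨ μ (R ∩ {z | b < f z}) = 0) :
    ∃ κ : ℝ, ∀ᵐ z ∂μ, z ∈ R → f z = κ := by
  by_cases hR : μ R = 0
  · refine ⟨0, ?_⟩
    have h1 : ∀ᵐ z ∂μ, z ∉ R := measure_eq_zero_iff_ae_notMem.mp hR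
    filter_upwards [h1] with z hz hz'
    exact absurd hz' hz
  · set S : Set ℝ := {y | μ (R ∩ {z | y < f z}) = 0} with hSdef
    have hBS : B ∈ S := by
      have : R ∩ {z | B < f z} = ∅ := by
        ext z
        simp only [mem_inter_iff, mem_ofPred_eq, mem_empty_iff_false, iff_false, not_and, not_lt]
        intro _
        exact (le_abs_self _).trans (hB z)
      simp only [hSdef, mem_ofPred_eq, this, measure_empty]
    have hbdd : BddBelow S := by
      refine ⟨-B, ?_⟩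
      intro y hy
      by_contra hcon
      push Not at hcon
      apply hR
      have : R ∩ {z | y < f z} = R := by
        ext z
        simp only [mem_inter_iff, mem_ofPred_eq, and_iff_left_iff_imp]
        intro _
        have := neg_le_of_abs_le (hB z)
        linarith
      rw [hSdef, mem_ofPred_eq, this] at hy
      exact hy
    set κ := sInf S with hκ
    have hup : μ (R ∩ {z | κ < f z}) = 0 := by
      have hsub : R ∩ {z | κ < f z} ⊆ ⋃ n : ℕ, R ∩ {z | κ + 1 / ((n : ℝ) + 1) < f z} := by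
        rintro z ⟨hz1, hz2⟩
        have hz3 : (0 : ℝ) < f z - κ := sub_pos.mpr hz2
        obtain ⟨n, hn⟩ := exists_nat_one_div_lt hz3
        refine mem_iUnion.mpr ⟨n, hz1, ?_⟩
        simp only [mem_ofPred_eq]
        linarith
      refine measure_mono_null hsub (measure_iUnion_null fun n => ?_)
      obtain ⟨y, hyS, hy⟩ := exists_lt_of_csInf_lt ⟨B, hBS⟩
        (show sInf S < κ + 1 / ((n : ℝ) + 1) by
          rw [← hκ]
          have : (0 : ℝ) < 1 / ((n : ℝ) + 1) := by positivity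
          linarith)
      refine measure_mono_null ?_ hyS
      rintro z ⟨hz1, hz2⟩
      exact ⟨hz1, lt_trans hy hz2⟩
    have hdn : μ (R ∩ {z | f z < κ}) = 0 := by
      have hsub : R ∩ {z | f z < κ} ⊆ ⋃ n : ℕ, R ∩ {z | f z < κ - 1 / ((n : ℝ) + 1)} := by
        rintro z ⟨hz1, hz2⟩
        have hz3 : (0 : ℝ) < κ - f z := sub_pos.mpr hz2
        obtain ⟨n, hn⟩ := exists_nat_one_div_lt hz3
        refine mem_iUnion.mpr ⟨n, hz1, ?_⟩
        simp only [mem_ofPred_eq]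
        linarith
      refine measure_mono_null hsub (measure_iUnion_null fun n => ?_)
      have hn : (0 : ℝ) < 1 / ((n : ℝ) + 1) := by positivity
      rcases h (κ - 1 / ((n : ℝ) + 1)) (κ - 1 / ((n : ℝ) + 1) / 2) (by linarith) with h1 | h1
      · exact h1
      · exfalso
        have h2 : κ ≤ κ - 1 / ((n : ℝ) + 1) / 2 := csInf_le hbdd h1
        linarith
    refine ⟨κ, ?_⟩
    have h1 : ∀ᵐ z ∂μ, z ∉ R ∩ {z | κ < f z} := measure_eq_zero_iff_ae_notMem.mp hup
    have h2 : ∀ᵐ z ∂μ, z ∉ R ∩ {z | f z < κ} := measure_eq_zero_iff_ae_notMem.mp hdn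
    filter_upwards [h1, h2] with z hz1 hz2 hz
    simp only [mem_inter_iff, mem_ofPred_eq, not_and, not_lt] at hz1 hz2
    exact le_antisymm (hz1 hz) (hz2 hz)

/-! ## Fubini -/

theorem exists_slice (A : Set (ℝ × ℝ)) (p : ℝ × ℝ → Prop) (hA : MeasurableSet A)
    (hA0 : volume A ≠ 0) (hp : ∀ᵐ z : ℝ × ℝ, p z) :
    ∃ c : ℝ, volume {x : ℝ | (x, c) ∈ A} ≠ 0 ∧ ∀ᵐ x : ℝ, p (x, c) := by
  have hsw : MeasurePreserving (Prod.swap : ℝ × ℝ → ℝ × ℝ)
      ((volume : Measure ℝ).prod (volume : Measure ℝ))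
      ((volume : Measure ℝ).prod (volume : Measure ℝ)) := Measure.measurePreserving_swap
  have h1 : ∀ᵐ c : ℝ, ∀ᵐ x : ℝ, p (x, c) := by
    have h2 : ∀ᵐ z ∂((volume : Measure ℝ).prod (volume : Measure ℝ)), p (Prod.swap z) :=
      hsw.quasiMeasurePreserving.ae hp
    exact Measure.ae_ae_of_ae_prod h2
  by_contra hcon
  apply hA0
  have h3 : ∀ᵐ c : ℝ, volume {x : ℝ | (x, c) ∈ A} = 0 := by
    filter_upwards [h1] with c hc
    by_contra h4
    exact hcon ⟨c, h4, hc⟩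
  have h5 : ((volume : Measure ℝ).prod (volume : Measure ℝ)) (Prod.swap ⁻¹' A) = 0 := by
    rw [Measure.measure_prod_null (hA.preimage measurable_swap)]
    filter_upwards [h3] with c hc
    exact hc
  have h6 : ((volume : Measure ℝ).prod (volume : Measure ℝ)) (Prod.swap ⁻¹' A) =
      ((volume : Measure ℝ).prod (volume : Measure ℝ)) A :=
    hsw.measure_preimage hA.nullMeasurableSet
  rw [← h5, h6]
  rfl

/-! ## The squares -/

section Sys

variable {X : Type} [MeasurableSpace X] {μ : Measure X} {T : X ≃ᵐ X} {e : Bool → ℝ → ℝ → X}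
  {b s : ℝ}

theorem wt_pos (hS : IsSys μ T e b s) {p : ℝ × ℝ} (h : |p.1| < b ∧ |p.2| < s) :
    0 < ENNReal.ofReal (1 / Real.sqrt (1 - p.1 ^ 2 - p.2 ^ 2)) := by
  have h1 : p.1 ^ 2 < b ^ 2 := by
    rw [← sq_abs]
    exact pow_lt_pow_left₀ h.1 (abs_nonneg _) two_ne_zero
  have h2 : p.2 ^ 2 < s ^ 2 := by
    rw [← sq_abs]
    exact pow_lt_pow_left₀ h.2 (abs_nonneg _) two_ne_zero
  have h3 := hS.sb
  have h4 : 0 < Real.sqrt (1 - p.1 ^ 2 - p.2 ^ 2) := Real.sqrt_pos.mpr (by linarith)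
  exact ENNReal.ofReal_pos.mpr (by positivity)

theorem meas_wt : Measurable fun p : ℝ × ℝ =>
    ENNReal.ofReal (1 / Real.sqrt (1 - p.1 ^ 2 - p.2 ^ 2)) := by
  fun_prop

theorem vol_zero (hS : IsSys μ T e b s) (j : Bool) {A : Set (ℝ × ℝ)} (hA : MeasurableSet A)
    (hsub : ∀ p ∈ A, |p.1| < b ∧ |p.2| < s)
    (h0 : μ ((fun p : ℝ × ℝ => e j p.1 p.2) '' A) = 0) : volume A = 0 := by
  have h1 := (hS.area j A hA hsub).2
  rw [h0] at h1
  have h2 : ∀ᵐ p ∂((volume : Measure (ℝ × ℝ)).restrict A),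
      ENNReal.ofReal (1 / Real.sqrt (1 - p.1 ^ 2 - p.2 ^ 2)) = 0 :=
    (lintegral_eq_zero_iff meas_wt).mp h1.symm
  rw [ae_restrict_iff' hA] at h2
  rw [measure_eq_zero_iff_ae_notMem]
  filter_upwards [h2] with p hp hpA
  exact (wt_pos hS (hsub p hpA)).ne' (hp hpA)

theorem mu_zero (hS : IsSys μ T e b s) (j : Bool) {A : Set (ℝ × ℝ)} (hA : MeasurableSet A)
    (hsub : ∀ p ∈ A, |p.1| < b ∧ |p.2| < s) (h0 : volume A = 0) :
    μ ((fun p : ℝ × ℝ => e j p.1 p.2) '' A) = 0 := by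
  rw [(hS.area j A hA hsub).2]
  exact setLIntegral_measure_zero A _ h0

theorem meas_sq (b s : ℝ) : MeasurableSet {p : ℝ × ℝ | |p.1| < b ∧ |p.2| < s} := by
  have h1 : MeasurableSet {p : ℝ × ℝ | |p.1| < b} :=
    measurableSet_lt (by fun_prop) measurable_const
  have h2 : MeasurableSet {p : ℝ × ℝ | |p.2| < s} :=
    measurableSet_lt (by fun_prop) measurable_const
  exact h1.inter h2

theorem ae_square (hS : IsSys μ T e b s) (j : Bool) {p : X → Prop} (hp : ∀ᵐ z ∂μ, p z) :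
    ∀ᵐ z : ℝ × ℝ, |z.1| < b → |z.2| < s → p (e j z.1 z.2) := by
  set N : Set X := toMeasurable μ {z | ¬ p z} with hN
  have hN0 : μ N = 0 := by
    rw [hN, measure_toMeasurable]
    exact hp
  have hNm : MeasurableSet N := measurableSet_toMeasurable _ _
  set A : Set (ℝ × ℝ) := {z | |z.1| < b ∧ |z.2| < s} ∩ (fun z : ℝ × ℝ => e j z.1 z.2) ⁻¹' N
    with hAdef
  have hA : MeasurableSet A := (meas_sq b s).inter (hS.meas j hNm)
  have hA0 : volume A = 0 := by
    refine vol_zero hS j hA (fun z hz => hz.1) ?_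
    refine measure_mono_null ?_ hN0
    rintro _ ⟨z, hz, rfl⟩
    exact hz.2
  have h1 := measure_eq_zero_iff_ae_notMem.mp hA0
  filter_upwards [h1] with z hz h2 h3
  by_contra h4
  exact hz ⟨⟨h2, h3⟩, subset_toMeasurable _ _ h4⟩

theorem meas_core (hS : IsSys μ T e b s) {a d : ℝ} (ha : a < b) (hd : d < s) :
    MeasurableSet (core e a d) := by
  have h1 : core e a d = ⋃ j : Bool, (fun p : ℝ × ℝ => e j p.1 p.2) ''
      {p | |p.1| ≤ a ∧ |p.2| ≤ d} := by
    ext z
    simp only [mem_iUnion]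
    constructor
    · rintro ⟨j, p, q, hp, hq, rfl⟩
      exact ⟨j, (p, q), ⟨hp, hq⟩, rfl⟩
    · rintro ⟨j, p, hp, rfl⟩
      exact ⟨j, p.1, p.2, hp.1, hp.2, rfl⟩
  rw [h1]
  refine MeasurableSet.iUnion fun j => (hS.area j _ ?_ ?_).1
  · have h1 : MeasurableSet {p : ℝ × ℝ | |p.1| ≤ a} :=
      measurableSet_le (by fun_prop) measurable_const
    have h2 : MeasurableSet {p : ℝ × ℝ | |p.2| ≤ d} :=
      measurableSet_le (by fun_prop) measurable_const
    exact h1.inter h2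
  · rintro p ⟨hp, hq⟩
    exact ⟨lt_of_le_of_lt hp ha, lt_of_le_of_lt hq hd⟩

theorem meas_sqs (hS : IsSys μ T e b s) (j : Bool) : MeasurableSet (sqs e b s j) := by
  have h1 : sqs e b s j = (fun p : ℝ × ℝ => e j p.1 p.2) '' {p | |p.1| < b ∧ |p.2| < s} := by
    ext z
    constructor
    · rintro ⟨x, c, hx, hc, rfl⟩
      exact ⟨(x, c), ⟨hx, hc⟩, rfl⟩
    · rintro ⟨p, hp, rfl⟩
      exact ⟨p.1, p.2, hp.1, hp.2, rfl⟩
  rw [h1]
  exact (hS.area j _ (meas_sq b s) (fun p hp => hp)).1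

theorem meas_test (hS : IsSys μ T e b s) {a d : ℝ} {g : Bool → ℝ × ℝ → ℝ} {φ : X → ℝ}
    (hT : Test e b s a d g φ) : Measurable φ := by
  intro V hV
  have h1 : φ ⁻¹' V = (⋃ j : Bool, (fun p : ℝ × ℝ => e j p.1 p.2) ''
      {p | (|p.1| < b ∧ |p.2| < s) ∧ g j p ∈ V}) ∪
      ((⋃ j : Bool, sqs e b s j)ᶜ ∩ {z | (0 : ℝ) ∈ V}) := by
    ext z
    simp only [mem_preimage, mem_union, mem_iUnion, mem_inter_iff, mem_compl_iff, not_exists,
      mem_ofPred_eq]
    constructor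
    · intro hz
      by_cases h : ∃ j : Bool, z ∈ sqs e b s j
      · obtain ⟨j, x, c, hx, hc, rfl⟩ := h
        rw [hT.on j x c hx hc] at hz
        exact Or.inl ⟨j, (x, c), ⟨⟨hx, hc⟩, hz⟩, rfl⟩
      · push Not at h
        rw [hT.off z h] at hz
        exact Or.inr ⟨h, hz⟩
    · rintro (⟨j, p, ⟨⟨hx, hc⟩, hp⟩, rfl⟩ | ⟨h, h0⟩)
      · rw [show (fun p : ℝ × ℝ => e j p.1 p.2) p = e j p.1 p.2 from rfl,
          hT.on j p.1 p.2 hx hc]
        exact hp
      · rw [hT.off z h]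
        exact h0
  rw [h1]
  refine MeasurableSet.union (MeasurableSet.iUnion fun j => (hS.area j _ ?_ ?_).1) ?_
  · exact (meas_sq b s).inter ((hT.cont j).measurable hV)
  · rintro p ⟨hp, _⟩
    exact hp
  · exact ((MeasurableSet.iUnion fun j => meas_sqs hS j).compl).inter (MeasurableSet.const _)

/-- the small box -/
def box (e : Bool → ℝ → ℝ → X) (j : Bool) (x0 c0 r : ℝ) : Set X :=
  {z | ∃ x c : ℝ, |x - x0| < r ∧ |c - c0| < r ∧ z = e j x c}

theorem meas_box (hS : IsSys μ T e b s) {a d : ℝ} (ha : a < b) (hd : d < s) (j : Bool)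
    {x0 c0 r : ℝ} (hx0 : |x0| + r ≤ a) (hc0 : |c0| + r ≤ d) :
    MeasurableSet (box e j x0 c0 r) := by
  have h1 : box e j x0 c0 r = (fun p : ℝ × ℝ => e j p.1 p.2) ''
      {p | |p.1 - x0| < r ∧ |p.2 - c0| < r} := by
    ext z
    constructor
    · rintro ⟨x, c, hx, hc, rfl⟩
      exact ⟨(x, c), ⟨hx, hc⟩, rfl⟩
    · rintro ⟨p, hp, rfl⟩
      exact ⟨p.1, p.2, hp.1, hp.2, rfl⟩
  rw [h1]
  refine (hS.area j _ ?_ ?_).1
  · have h1 : MeasurableSet {p : ℝ × ℝ | |p.1 - x0| < r} :=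
      measurableSet_lt (by fun_prop) measurable_const
    have h2 : MeasurableSet {p : ℝ × ℝ | |p.2 - c0| < r} :=
      measurableSet_lt (by fun_prop) measurable_const
    exact h1.inter h2
  · rintro p ⟨hp, hq⟩
    constructor
    · have := abs_sub_abs_le_abs_sub p.1 x0
      linarith
    · have := abs_sub_abs_le_abs_sub p.2 c0
      linarith

theorem box_sub_core {a d : ℝ} (j : Bool)
    {x0 c0 r : ℝ} (hx0 : |x0| + r ≤ a) (hc0 : |c0| + r ≤ d) :
    box e j x0 c0 r ⊆ core e a d := by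
  rintro z ⟨x, c, hx, hc, rfl⟩
  refine ⟨j, x, c, ?_, ?_, rfl⟩
  · have := abs_sub_abs_le_abs_sub x x0
    linarith
  · have := abs_sub_abs_le_abs_sub c c0
    linarith

/-- a point of a set of positive measure on a good horizontal -/
theorem exists_good_slice (hS : IsSys μ T e b s) {a d : ℝ} (ha : a < b) (hd : d < s) (j : Bool)
    {x0 c0 r : ℝ} (hx0 : |x0| + r ≤ a) (hc0 : |c0| + r ≤ d) {A : Set X} (hA : MeasurableSet A)
    (hAb : A ⊆ box e j x0 c0 r) (hA0 : μ A ≠ 0) {p : X → Prop} (hp : ∀ᵐ z ∂μ, p z) :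
    ∃ c : ℝ, |c| ≤ d ∧ volume {x : ℝ | |x| ≤ a ∧ e j x c ∈ A} ≠ 0 ∧
      ∀ᵐ x : ℝ, |x| < b → p (e j x c) := by
  set A' : Set (ℝ × ℝ) := {z | |z.1| ≤ a ∧ |z.2| ≤ d} ∩ (fun z : ℝ × ℝ => e j z.1 z.2) ⁻¹' A
    with hA'
  have hm1 : MeasurableSet {p : ℝ × ℝ | |p.1| ≤ a ∧ |p.2| ≤ d} := by
    have h1 : MeasurableSet {p : ℝ × ℝ | |p.1| ≤ a} :=
      measurableSet_le (by fun_prop) measurable_const
    have h2 : MeasurableSet {p : ℝ × ℝ | |p.2| ≤ d} :=
      measurableSet_le (by fun_prop) measurable_const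
    exact h1.inter h2
  have hA'm : MeasurableSet A' := hm1.inter (hS.meas j hA)
  have hsub : ∀ z ∈ A', |z.1| < b ∧ |z.2| < s := by
    rintro z ⟨⟨h1, h2⟩, _⟩
    exact ⟨lt_of_le_of_lt h1 ha, lt_of_le_of_lt h2 hd⟩
  have hvol : volume A' ≠ 0 := by
    intro h0
    apply hA0
    have h1 := mu_zero hS j hA'm hsub h0
    refine measure_mono_null ?_ h1
    intro z hz
    obtain ⟨x, c, hx, hc, rfl⟩ := hAb hz
    refine ⟨(x, c), ⟨⟨?_, ?_⟩, hz⟩, rfl⟩
    · have := abs_sub_abs_le_abs_sub x x0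
      simp only
      linarith
    · have := abs_sub_abs_le_abs_sub c c0
      simp only
      linarith
  obtain ⟨c, hc1, hc2⟩ := exists_slice A'
    (fun z => |z.1| < b → |z.2| < s → p (e j z.1 z.2)) hA'm hvol (ae_square hS j hp)
  have hcd : |c| ≤ d := by
    by_contra hcon
    apply hc1
    have : {x : ℝ | (x, c) ∈ A'} = ∅ := by
      ext x
      simp only [hA', mem_ofPred_eq, mem_inter_iff, mem_empty_iff_false, iff_false, not_and]
      intro h1
      exact absurd h1.2 hcon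
    rw [this, measure_empty]
  refine ⟨c, hcd, ?_, ?_⟩
  · intro h0
    apply hc1
    refine measure_mono_null ?_ h0
    rintro x ⟨⟨h1, _⟩, h2⟩
    exact ⟨h1, h2⟩
  · filter_upwards [hc2] with x hx hxb
    exact hx hxb (lt_of_le_of_lt hcd hd)

end Sys

end Pool.Agent.Lib.MP_d2b992_gt.Dyn.HopfM
end

section
/-!
# HOPF: the Hopf argument at finite times

Text: `/team-store/MP_d2b992_gt_DYN.md`, section 7.
-/
set_option autoImplicit false

open MeasureTheory Filter Topology Set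

namespace Pool.Agent.Lib.MP_d2b992_gt.Dyn.HopfM

section General

variable {X : Type} [MeasurableSpace X] {μ : Measure X}

theorem exists_K {G : ℕ → Set X} {A U : Set X} (hU : MeasurableSet U) (hAU : A ⊆ U)
    (hA : μ A ≠ 0) (h : ∀ᵐ z ∂(μ.restrict U), ∃ K : ℕ, z ∈ G K) : ∃ K : ℕ, μ (A ∩ G K) ≠ 0 := by
  by_contra hcon
  push Not at hcon
  apply hA
  rw [ae_restrict_iff' hU] at h
  have h1 : μ (⋃ K : ℕ, A ∩ G K) = 0 := measure_iUnion_null hcon
  have h2 : ∀ᵐ z ∂μ, z ∉ ⋃ K : ℕ, A ∩ G K := measure_eq_zero_iff_ae_notMem.mp h1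
  rw [measure_eq_zero_iff_ae_notMem]
  filter_upwards [h, h2] with z hz1 hz2 hzA
  obtain ⟨K, hK⟩ := hz1 (hAU hzA)
  exact hz2 (mem_iUnion.mpr ⟨K, hzA, hK⟩)

/-- the averages -/
noncomputable def avg (T : X ≃ᵐ X) (φ : X → ℝ) (n : ℕ) (z : X) : ℝ :=
  (∑ k ∈ Finset.range n, φ (T^[k] z)) / (n : ℝ)

theorem meas_avg (T : X ≃ᵐ X) {φ : X → ℝ} (hφ : Measurable φ) (n : ℕ) :
    Measurable (avg T φ n) := by
  unfold avg
  refine Measurable.div_const ?_ _
  refine Finset.measurable_fun_sum _ fun k _ => ?_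
  exact hφ.comp (T.measurable.iterate k)

theorem ev_measure_le {Y : Type} [MeasurableSpace Y] (ν : Measure Y) [IsFiniteMeasure ν]
    {F : ℕ → Y → ℝ} {G : Y → ℝ} (hF : ∀ i, Measurable (F i))
    (h : ∀ᵐ y ∂ν, Tendsto (fun i => F i y) atTop (𝓝 (G y))) {ε : ℝ} (hε : 0 < ε) {κ : ENNReal}
    (hκ : 0 < κ) : ∀ᶠ i in atTop, ν {y | ε < |F i y - G y|} ≤ κ := by
  have h1 := tendstoInMeasure_of_tendsto_ae (fun i => (hF i).aestronglyMeasurable) h
  rw [tendstoInMeasure_iff_dist] at h1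
  have h2 := (tendsto_order.1 (h1 ε hε)).2 κ hκ
  filter_upwards [h2] with i hi
  refine (measure_mono ?_).trans hi.le
  intro y hy
  simp only [mem_ofPred_eq, Real.dist_eq] at hy ⊢
  exact hy.le

theorem inv_iter {T : X ≃ᵐ X} {f : X → ℝ} (h : ∀ z, f (T z) = f z) (k : ℕ) (z : X) :
    f (T^[k] z) = f z := by
  induction k generalizing z with
  | zero => rfl
  | succ k ih => rw [Function.iterate_succ_apply, ih, h]

end General

open Classical in
theorem hopf_core (hEXIST : SpecEXIST) (hACT : SpecACT) (hCLF : SpecCLF) (hRET : SpecRET)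
    (hLEB : SpecLEB) {X : Type} [MeasurableSpace X] {μ : Measure X} {T : X ≃ᵐ X}
    {e : Bool → ℝ → ℝ → X} {b s a d x1 c1 : ℝ} {g : Bool → ℝ × ℝ → ℝ} {φ f : X → ℝ}
    {n : ℕ → ℕ} {B0 : ℝ} (hS : IsSys μ T e b s) (hT : Test e b s a d g φ)
    (hL : IsLim μ T φ f n B0) (hax : a < x1) (hxb : x1 < b) (hdc : d < c1) (hcs : c1 < s)
    (j : Bool) (x0 c0 r : ℝ) (hr : 0 < r) (hx0 : |x0| + r ≤ a) (hc0 : |c0| + r ≤ d)
    (M δ ε θ : ℝ) (n0 : ℕ) (hM : 1 ≤ M) (hδ : 0 < δ) (hε : 0 < ε) (hθ0 : 0 < θ) (hθ1 : θ < 1)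
    (hrδ : 2 * r * (1 + M) ^ 2 ≤ δ)
    (hleaf : ∀ K : ℝ, 0 ≤ K → ∃ B : ℝ, 1 ≤ B ∧
      (∀ (z : X) (m : ℕ), Good (fun n => T.symm^[n] z ∈ core e a d) K ε → n0 ≤ m →
        ∃ (t : ℕ) (j0 : Bool) (p0 q0 σm σp : ℝ) (j : Bool) (P Q P' Q' : ℝ → ℝ),
          Leaf T T.symm e b s (-1) a d x1 c1 M δ B θ t m z j0 p0 q0 σm σp j P Q P' Q') ∧
      (∀ (z : X) (m : ℕ), Good (fun n => T^[n] z ∈ core (flp e) d a) K ε → n0 ≤ m →
        ∃ (t : ℕ) (j0 : Bool) (p0 q0 σm σp : ℝ) (j : Bool) (P Q P' Q' : ℝ → ℝ),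
          Leaf T.symm T (flp e) s b 1 d a c1 x1 M δ B θ t m z j0 p0 q0 σm σp j P Q P' Q'))
    (a₁ b₁ : ℝ) (hab : a₁ < b₁) (h1 : μ (box e j x0 c0 r ∩ {z | f z < a₁}) ≠ 0)
    (h2 : μ (box e j x0 c0 r ∩ {z | b₁ < f z}) ≠ 0) : False := by
  have := hS.fin
  set U : Set X := core e a d with hU
  set R : Set X := box e j x0 c0 r with hR
  have hab' : a < b := hax.trans hxb
  have hds' : d < s := hdc.trans hcs
  have hUm : MeasurableSet U := meas_core hS hab' hds'
  have hRm : MeasurableSet R := meas_box hS hab' hds' j hx0 hc0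
  have hRU : R ⊆ U := box_sub_core j hx0 hc0
  have hφm : Measurable φ := meas_test hS hT
  -- good points
  obtain ⟨hGs, hGs', hwait⟩ := hRET X μ T hS.mp U hUm
  have hmps : MeasurePreserving T.symm μ μ := MeasurePreserving.symm T hS.mp
  obtain ⟨hGu, hGu', _⟩ := hRET X μ T.symm hmps U hUm
  obtain ⟨K1, hK1⟩ := exists_K (μ := μ)
    (G := fun K : ℕ => {z : X | Good (fun n => T^[n] z ∈ U) (K : ℝ) ε})
    hUm (fun z hz => hRU hz.1) h1 (hGs' ε hε)
  obtain ⟨K2, hK2⟩ := exists_K (μ := μ)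
    (G := fun K : ℕ => {z : X | Good (fun n => T^[n] z ∈ U) (K : ℝ) ε})
    hUm (fun z hz => hRU hz.1) h2 (hGs' ε hε)
  have hR0 : μ R ≠ 0 := by
    intro h
    exact h1 (measure_mono_null inter_subset_left h)
  obtain ⟨K3, hK3⟩ := exists_K (μ := μ)
    (G := fun K : ℕ => {z : X | Good (fun n => T.symm^[n] z ∈ U) (K : ℝ) ε})
    hUm hRU hR0 (hGu' ε hε)
  set K : ℝ := (K1 : ℝ) + K2 + K3 with hK
  have hk1 : (0 : ℝ) ≤ K1 := Nat.cast_nonneg _
  have hk2 : (0 : ℝ) ≤ K2 := Nat.cast_nonneg _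
  have hk3 : (0 : ℝ) ≤ K3 := Nat.cast_nonneg _
  have hK0 : 0 ≤ K := by positivity
  set GS : Set X := {z : X | Good (fun n => T^[n] z ∈ U) K ε} with hGS
  set GU : Set X := {z : X | Good (fun n => T.symm^[n] z ∈ U) K ε} with hGU
  have hs1 : μ ((R ∩ {z | f z < a₁}) ∩ GS) ≠ 0 := by
    intro h
    apply hK1
    refine measure_mono_null ?_ h
    rintro z ⟨hz1, hz2⟩
    have hz3 : Good (fun n => T^[n] z ∈ U) (K1 : ℝ) ε := hz2
    exact ⟨hz1, good_mono hz3 (by rw [hK]; linarith) le_rfl⟩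
  have hs2 : μ ((R ∩ {z | b₁ < f z}) ∩ GS) ≠ 0 := by
    intro h
    apply hK2
    refine measure_mono_null ?_ h
    rintro z ⟨hz1, hz2⟩
    have hz3 : Good (fun n => T^[n] z ∈ U) (K2 : ℝ) ε := hz2
    exact ⟨hz1, good_mono hz3 (by rw [hK]; linarith) le_rfl⟩
  have hu : μ (R ∩ GU) ≠ 0 := by
    intro h
    apply hK3
    refine measure_mono_null ?_ h
    rintro z ⟨hz1, hz2⟩
    have hz3 : Good (fun n => T.symm^[n] z ∈ U) (K3 : ℝ) ε := hz2
    exact ⟨hz1, good_mono hz3 (by rw [hK]; linarith) le_rfl⟩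
  -- the small number `mu1`
  set m1 : ℝ := (μ ((R ∩ {z | f z < a₁}) ∩ GS)).toReal with hm1
  set m2 : ℝ := (μ ((R ∩ {z | b₁ < f z}) ∩ GS)).toReal with hm2
  have hm1p : 0 < m1 := ENNReal.toReal_pos hs1 (measure_ne_top _ _)
  have hm2p : 0 < m2 := ENNReal.toReal_pos hs2 (measure_ne_top _ _)
  set mu1 : ℝ := min m1 m2 with hmu1
  have hmu1p : 0 < mu1 := lt_min hm1p hm2p
  have hmu1a : ENNReal.ofReal mu1 ≤ μ ((R ∩ {z | f z < a₁}) ∩ GS) := by
    rw [← ENNReal.ofReal_toReal (measure_ne_top μ ((R ∩ {z | f z < a₁}) ∩ GS))]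
    exact ENNReal.ofReal_le_ofReal (min_le_left _ _)
  have hmu1b : ENNReal.ofReal mu1 ≤ μ ((R ∩ {z | b₁ < f z}) ∩ GS) := by
    rw [← ENNReal.ofReal_toReal (measure_ne_top μ ((R ∩ {z | b₁ < f z}) ∩ GS))]
    exact ENNReal.ofReal_le_ofReal (min_le_right _ _)
  set ε₀ : ℝ := (b₁ - a₁) / 10 with hε₀
  have hε₀p : 0 < ε₀ := by rw [hε₀]; linarith
  obtain ⟨m, hm⟩ := hwait (mu1 / 5) (by positivity)
  obtain ⟨B, hB1, hBu, hBs⟩ := hleaf K hK0
  obtain ⟨C', hC'0, hC'⟩ := hACT b s a d x1 c1 M δ B θ hax hxb hdc hcs hS.sb hM hδ hB1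
  obtain ⟨N1, hN1⟩ := hCLF b s a d c1 x1 M δ B θ K ε g hθ0 hθ1 hB1 hK0 hε.le ε₀ hε₀p
  set ζ : ℝ := mu1 / (10 * ((m : ℝ) + 1) * (C' + 1)) with hζ
  have hζp : 0 < ζ := by rw [hζ]; positivity
  -- the point `y`
  set A0 : Set X := R ∩ GU with hA0
  have hA0m : MeasurableSet A0 := hRm.inter (hGu K ε)
  have hconv : ∀ᵐ z ∂μ, ∀ k : ℕ,
      Tendsto (fun i => avg T φ (n i) (T^[k] z)) atTop (𝓝 (f (T^[k] z))) := by
    rw [ae_all_iff]
    intro k
    exact (hS.mp.iterate k).quasiMeasurePreserving.ae hL.lim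
  have hrec : ∀ᵐ z ∂μ, z ∈ A0 → ∃ᶠ k in atTop, T^[k] z ∈ A0 :=
    hS.mp.conservative.ae_mem_imp_frequently_image_mem hA0m.nullMeasurableSet
  obtain ⟨c, hcd, hc1, hc2⟩ := exists_good_slice hS hab' hds' j hx0 hc0 hA0m
    (fun z hz => hz.1) hu (hconv.and hrec)
  have hFm : Measurable (fun x : ℝ => f (e j x c)) :=
    hL.mf.comp ((hS.meas j).comp (by fun_prop : Measurable fun x : ℝ => (x, c)))
  have hleb := hLEB (fun x => f (e j x c)) B0 (-b) b hFm (fun x => hL.bf _)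
    (by linarith [hS.b0])
  rw [ae_restrict_iff' measurableSet_Ioo] at hleb
  obtain ⟨x, hxA, hx2, hx3⟩ : ∃ x : ℝ, x ∈ {x : ℝ | |x| ≤ a ∧ e j x c ∈ A0} ∧
      (|x| < b → (∀ k : ℕ, Tendsto (fun i => avg T φ (n i) (T^[k] (e j x c))) atTop
        (𝓝 (f (T^[k] (e j x c))))) ∧ (e j x c ∈ A0 → ∃ᶠ k in atTop, T^[k] (e j x c) ∈ A0)) ∧
      (x ∈ Ioo (-b) b → ∀ ε : ℝ, 0 < ε → ∀ ζ : ℝ, 0 < ζ → ∃ δ : ℝ, 0 < δ ∧
        ∀ u w : ℝ, u ≤ x → x ≤ w → u < w → w - u ≤ δ →
          volume {y ∈ Icc u w | ε < |f (e j y c) - f (e j x c)|} ≤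
            ENNReal.ofReal (ζ * (w - u))) :=
    ((frequently_ae_mem_iff.mpr hc1).and_eventually (hc2.and hleb)).exists
  obtain ⟨hxa, hyA0⟩ := hxA
  have hxb' : |x| < b := lt_of_le_of_lt hxa hab'
  have hcs' : |c| < s := lt_of_le_of_lt hcd hds'
  obtain ⟨_, hyrec'⟩ := hx2 hxb'
  have hyrec := hyrec' hyA0
  obtain ⟨δL, hδL, hlebx⟩ := hx3 (abs_lt.mp hxb') ε₀ hε₀p ζ hζp
  set y : X := e j x c with hy
  -- the time `t`
  obtain ⟨N2, hN2⟩ : ∃ N2 : ℕ, B * θ ^ N2 ≤ δL := by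
    obtain ⟨k, hk⟩ := exists_pow_lt_of_lt_one (div_pos hδL (zero_lt_one.trans_le hB1)) hθ1
    refine ⟨k, ?_⟩
    rw [lt_div_iff₀ (zero_lt_one.trans_le hB1)] at hk
    linarith [mul_comm B (θ ^ k)]
  obtain ⟨t, htA, hcount'⟩ := exists_return T A0 U (fun z hz => hRU hz.1) y hyrec (max n0 N2)
  set z : X := T^[t] y with hz
  set mz : ℕ := Nat.count (fun k => T.symm^[k] z ∈ U) t with hmz
  have hcount : max n0 N2 ≤ mz := hcount'
  obtain ⟨t0, j0, p0, q0, σm, σp, jz, P, Q, P', Q', hLf⟩ :=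
    hBu z mz htA.2 ((le_max_left _ _).trans hcount)
  have hyU : T.symm^[t] z ∈ U := by
    rw [hz, symm_iter]
    exact hRU hyA0.1
  have ht0 : t0 = t := hLf.time.trans (Nat.nth_count (p := fun k => T.symm^[k] z ∈ U) hyU)
  subst ht0
  have hstart : e j0 p0 q0 = e j x c := iter_inj T t0 hLf.start
  obtain ⟨hj0, hp0, hq0⟩ := hS.inj j0 j p0 q0 x c (lt_of_le_of_lt hLf.ha hab')
    (lt_of_le_of_lt hLf.hd hds') hxb' hcs' hstart
  subst hj0
  subst hp0
  subst hq0
  have hneg := hLf.neg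
  have hpos := hLf.pos
  have hIlen : σp - σm ≤ δL := by
    refine hLf.small.trans (le_trans ?_ hN2)
    exact mul_le_mul_of_nonneg_left
      (pow_le_pow_of_le_one hθ0.le hθ1.le ((le_max_right _ _).trans hcount))
      (zero_le_one.trans hB1)
  have hIpos : 0 < σp - σm := by linarith
  have h0I : (0 : ℝ) ∈ Icc σm σp := ⟨hneg.le, hpos.le⟩
  -- the curve
  set γ : ℝ → X := fun σ => T^[t0] (e j0 (p0 + σ) q0) with hγ
  have hJm : Measurable fun σ : ℝ => e j0 (p0 + σ) q0 :=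
    (hS.meas j0).comp (by fun_prop : Measurable fun σ : ℝ => (p0 + σ, q0))
  have hγm : Measurable γ := (T.measurable.iterate t0).comp hJm
  set L2 : Set ℝ := {σ | ε₀ < |f (e j0 (p0 + σ) q0) - f y|} ∩ Icc σm σp with hL2
  have hL2m : MeasurableSet L2 := by
    refine MeasurableSet.inter ?_ measurableSet_Icc
    exact measurableSet_lt measurable_const
      (((hL.mf.comp hJm).sub measurable_const).norm)
  have hL2v : volume L2 ≤ ENNReal.ofReal (ζ * (σp - σm)) := by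
    have h3 := hlebx (p0 + σm) (p0 + σp) (by linarith) (by linarith) (by linarith)
      (by linarith)
    have h4 : L2 ⊆ (fun σ => p0 + σ) ⁻¹'
        {y' ∈ Icc (p0 + σm) (p0 + σp) | ε₀ < |f (e j0 y' q0) - f y|} := by
      rintro σ ⟨h5, h6⟩
      exact ⟨⟨by linarith [h6.1], by linarith [h6.2]⟩, h5⟩
    have h7 : volume ((fun σ => p0 + σ) ⁻¹'
        {y' ∈ Icc (p0 + σm) (p0 + σp) | ε₀ < |f (e j0 y' q0) - f y|}) =
        volume {y' ∈ Icc (p0 + σm) (p0 + σp) | ε₀ < |f (e j0 y' q0) - f y|} :=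
      measure_preimage_add volume p0 _
    calc volume L2 ≤ _ := measure_mono h4
      _ = _ := h7
      _ ≤ _ := h3
      _ = ENNReal.ofReal (ζ * (σp - σm)) := by congr 2; ring
  -- the averages along the curve
  have hconvγ : ∀ᵐ σ ∂(volume.restrict (Icc σm σp)),
      Tendsto (fun i => avg T φ (n i) (γ σ)) atTop (𝓝 (f (γ σ))) := by
    rw [ae_restrict_iff' measurableSet_Icc]
    have h3 : ∀ᵐ σ : ℝ, (|p0 + σ| < b → (∀ k : ℕ, Tendsto
        (fun i => avg T φ (n i) (T^[k] (e j0 (p0 + σ) q0))) atTop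
        (𝓝 (f (T^[k] (e j0 (p0 + σ) q0))))) ∧ (e j0 (p0 + σ) q0 ∈ A0 →
          ∃ᶠ k in atTop, T^[k] (e j0 (p0 + σ) q0) ∈ A0)) :=
      (measurePreserving_add_left volume p0).quasiMeasurePreserving.ae hc2
    filter_upwards [h3] with σ hσ hσI
    exact (hσ (lt_of_le_of_lt (hLf.dom σ hσI) hxb)).1 t0
  have hev1 := ev_measure_le (volume.restrict (Icc σm σp))
    (F := fun i σ => avg T φ (n i) (γ σ)) (G := fun σ => f (γ σ))
    (fun i => (meas_avg T hφm (n i)).comp hγm) hconvγ hε₀p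
    (κ := ENNReal.ofReal (ζ * (σp - σm))) (ENNReal.ofReal_pos.mpr (by positivity))
  have hev2 := ev_measure_le μ (F := fun i => avg T φ (n i)) (G := f)
    (fun i => meas_avg T hφm (n i)) hL.lim hε₀p
    (κ := ENNReal.ofReal (mu1 / 5)) (ENNReal.ofReal_pos.mpr (by positivity))
  obtain ⟨N3, hN3⟩ := exists_nat_gt (∑ i ∈ Finset.range n0, (K + ε * (i : ℝ)))
  have hev3 := hL.mono.tendsto_atTop.eventually_ge_atTop (max N1 N3)
  obtain ⟨i, hi1, hi2, hi3⟩ := (hev1.and (hev2.and hev3)).exists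
  set nn : ℕ := n i with hnn
  have hnN1 : N1 ≤ nn := (le_max_left _ _).trans hi3
  have hnN3 : N3 ≤ nn := (le_max_right _ _).trans hi3
  set L1 : Set ℝ := {σ | ε₀ < |avg T φ nn (γ σ) - f (γ σ)|} ∩ Icc σm σp with hL1
  have hL1m : MeasurableSet L1 := by
    refine MeasurableSet.inter ?_ measurableSet_Icc
    exact measurableSet_lt measurable_const
      ((((meas_avg T hφm nn).comp hγm).sub (hL.mf.comp hγm)).norm)
  have hL1v : volume L1 ≤ ENNReal.ofReal (ζ * (σp - σm)) := by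
    rw [Measure.restrict_apply' measurableSet_Icc] at hi1
    exact hi1
  set L : Set ℝ := L1 ∪ L2 with hLdef
  have hLm : MeasurableSet L := hL1m.union hL2m
  have hLI : L ⊆ Icc σm σp := union_subset inter_subset_right inter_subset_right
  have hLv : volume L ≤ ENNReal.ofReal (2 * ζ * (σp - σm)) := by
    calc volume L ≤ volume L1 + volume L2 := measure_union_le _ _
      _ ≤ ENNReal.ofReal (ζ * (σp - σm)) + ENNReal.ofReal (ζ * (σp - σm)) :=
        add_le_add hL1v hL2v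
      _ = ENNReal.ofReal (2 * ζ * (σp - σm)) := by
        rw [← ENNReal.ofReal_add (by positivity) (by positivity)]
        congr 1
        ring
  -- position of `z`
  have hzeq : z = e jz (P 0) (Q 0) := by
    have h3 := hLf.eq 0 h0I
    rw [add_zero] at h3
    exact h3
  obtain ⟨xz, cz, hxz, hcz, hzR⟩ : ∃ x c : ℝ, |x - x0| < r ∧ |c - c0| < r ∧ z = e j0 x c := htA.1
  have hsm : ∀ x' : ℝ, |x' - x0| < r → |x'| < b := by
    intro x' hx'
    have := abs_sub_abs_le_abs_sub x' x0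
    linarith
  have hsmc : ∀ c' : ℝ, |c' - c0| < r → |c'| < s := by
    intro c' hc'
    have := abs_sub_abs_le_abs_sub c' c0
    linarith
  obtain ⟨hjz, hPz, hQz⟩ := hS.inj jz j0 (P 0) (Q 0) xz cz
    (lt_of_le_of_lt (hLf.inP 0 h0I) hxb) (lt_of_le_of_lt (hLf.inQ 0 h0I) hcs) (hsm xz hxz)
    (hsmc cz hcz) (hzeq.symm.trans hzR)
  -- the set `B'`
  set B' : Set X := (R ∩ {w | 5 * ε₀ ≤ |f w - f y|}) ∩ GS with hB'
  have hB'1 : ENNReal.ofReal mu1 ≤ μ B' := by
    by_cases hα : a₁ + 5 * ε₀ ≤ f y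
    · refine hmu1a.trans (measure_mono ?_)
      rintro w ⟨⟨hw1, hw2⟩, hw3⟩
      refine ⟨⟨hw1, ?_⟩, hw3⟩
      simp only [mem_ofPred_eq] at hw2 ⊢
      rw [abs_sub_comm]
      refine le_trans ?_ (le_abs_self _)
      linarith
    · refine hmu1b.trans (measure_mono ?_)
      rintro w ⟨⟨hw1, hw2⟩, hw3⟩
      refine ⟨⟨hw1, ?_⟩, hw3⟩
      simp only [mem_ofPred_eq] at hw2 ⊢
      refine le_trans ?_ (le_abs_self _)
      push Not at hα
      have : b₁ = a₁ + 10 * ε₀ := by rw [hε₀]; ring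
      linarith
  -- the cover
  set E2 : Set X := {w : X | w ∈ U ∧ (∀ k : ℕ, ∃ n : ℕ, k ≤ n ∧ T^[n] w ∈ U) ∧
      ∀ k : ℕ, nn ≤ k → k ≤ nn + m → T^[k] w ∉ U} with hE2
  have hE2v : μ E2 ≤ ENNReal.ofReal (mu1 / 5) := hm nn
  set E3 : Set X := {w : X | ε₀ < |avg T φ nn w - f w|} with hE3
  have hE3v : μ E3 ≤ ENNReal.ofReal (mu1 / 5) := hi2
  set AC : ℕ → Set X := fun t' => {z' | ∃ (m' : ℕ) (i0 : Bool) (u0 w0 ρm ρp : ℝ) (i : Bool)
      (U W U' W' : ℝ → ℝ),
      Leaf T.symm T (flp e) s b 1 d a c1 x1 M δ B θ t' m' z' i0 u0 w0 ρm ρp i U W U' W' ∧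
      ∃ σ ∈ L, ∃ ρ ∈ Icc ρm ρp,
        T^[t0] (e j0 (p0 + σ) q0) = T.symm^[t'] (flp e i0 (u0 + ρ) w0)} with hAC
  have hACv : ∀ t' : ℕ, μ (AC t') ≤ ENNReal.ofReal (2 * ζ * C') := by
    intro t'
    have h3 := hC' X μ T e hS t0 mz z j0 p0 q0 σm σp jz P Q P' Q' hLf L hLm hLI t'
    refine h3.trans ?_
    calc ENNReal.ofReal (C' / (σp - σm)) * volume L
        ≤ ENNReal.ofReal (C' / (σp - σm)) * ENNReal.ofReal (2 * ζ * (σp - σm)) :=
          mul_le_mul_right hLv _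
      _ = ENNReal.ofReal (2 * ζ * C') := by
          rw [← ENNReal.ofReal_mul (by positivity)]
          congr 1
          field_simp
  have hcover : B' ⊆ (E2 ∪ E3) ∪ ⋃ t' ∈ Finset.Icc nn (nn + m), AC t' := by
    rintro z' ⟨⟨hz'R, hz'f⟩, hz'G⟩
    by_contra hcon
    simp only [mem_union, mem_iUnion, not_or, not_exists] at hcon
    obtain ⟨⟨hn2, hn3⟩, hn4⟩ := hcon
    have hz'U : z' ∈ U := hRU hz'R
    -- a visit
    obtain ⟨t', ht'1, ht'2, ht'U⟩ : ∃ t' : ℕ, nn ≤ t' ∧ t' ≤ nn + m ∧ T^[t'] z' ∈ U := by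
      by_contra h4
      push Not at h4
      exact hn2 ⟨hz'U, hz'G.2.1, h4⟩
    have hz'G' : Good (fun k => T^[k] z' ∈ core (flp e) d a) K ε := by
      have h4 : (fun k => T^[k] z' ∈ core (flp e) d a) = (fun k => T^[k] z' ∈ U) := by
        funext k
        rw [core_flp]
      rw [h4]
      exact hz'G
    have ht'U' : T^[t'] z' ∈ core (flp e) d a := by
      rw [core_flp]
      exact ht'U
    have hm' : n0 ≤ Nat.count (fun k => T^[k] z' ∈ core (flp e) d a) t' := by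
      refine count_of_good hz'G' n0 t' (lt_of_lt_of_le hN3 ?_)
      exact_mod_cast hnN3.trans ht'1
    obtain ⟨t'', i0, u0, w0, ρm, ρp, i', V, W, V', W', hLs⟩ := hBs z' _ hz'G' hm'
    have ht'' : t'' = t' := hLs.time.trans
      (Nat.nth_count (p := fun k => T^[k] z' ∈ core (flp e) d a) ht'U')
    subst ht''
    -- position of `z'`
    have h0I' : (0 : ℝ) ∈ Icc ρm ρp := ⟨hLs.neg.le, hLs.pos.le⟩
    have hz'eq : z' = e i' (W 0) (V 0) := by
      have h3 := hLs.eq 0 h0I'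
      rw [add_zero, hLs.start] at h3
      exact h3
    obtain ⟨xz', cz', hxz', hcz', hz'R'⟩ := hz'R
    obtain ⟨hi', hWz, hVz⟩ := hS.inj i' j0 (W 0) (V 0) xz' cz'
      (lt_of_le_of_lt (hLs.inQ 0 h0I') hxb) (lt_of_le_of_lt (hLs.inP 0 h0I') hcs)
      (hsm xz' hxz') (hsmc cz' hcz') (hz'eq.symm.trans hz'R')
    obtain ⟨σ, hσ, ρ, hρ, hint⟩ := hEXIST X T T.symm e b s a d x1 c1 M δ B θ r t0 mz t''
      _ z z' j0 p0 q0 σm σp jz P Q P' Q' i0 u0 w0 ρm ρp i' V W V' W' hM hr hrδ hLf hLs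
      (hjz.trans hi'.symm)
      (by
        rw [hPz, hWz]
        have h3 := abs_lt.mp hxz
        have h4 := abs_lt.mp hxz'
        exact abs_le.mpr ⟨by linarith [h3.1, h4.2], by linarith [h3.2, h4.1]⟩)
      (by
        rw [hQz, hVz]
        have h3 := abs_lt.mp hcz
        have h4 := abs_lt.mp hcz'
        exact abs_le.mpr ⟨by linarith [h3.1, h4.2], by linarith [h3.2, h4.1]⟩)
    by_cases hσL : σ ∈ L
    · refine hn4 t'' (Finset.mem_Icc.mpr ⟨ht'1, ht'2⟩) ?_
      exact ⟨_, i0, u0, w0, ρm, ρp, i', V, W, V', W', hLs, σ, hσL, ρ, hρ, hint⟩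
    · have hσ1 : |avg T φ nn (γ σ) - f (γ σ)| ≤ ε₀ := by
        by_contra h4
        push Not at h4
        exact hσL (Or.inl ⟨h4, hσ⟩)
      have hσ2 : |f (e j0 (p0 + σ) q0) - f y| ≤ ε₀ := by
        by_contra h4
        push Not at h4
        exact hσL (Or.inr ⟨h4, hσ⟩)
      have hσ3 : f (γ σ) = f (e j0 (p0 + σ) q0) := inv_iter hL.inv t0 _
      have hn3' : |avg T φ nn z' - f z'| ≤ ε₀ := by
        by_contra h4
        push Not at h4
        exact hn3 h4
      have hcl := hN1 X T T.symm e φ T.symm_apply_apply T.apply_symm_apply hS.inj hT nn t'' _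
        z' i0 u0 w0 ρm ρp i' V W V' W' hnN1 ht'1 hz'G' hLs ρ hρ
      rw [← hint] at hcl
      have hcl' : |avg T φ nn z' - avg T φ nn (γ σ)| ≤ ε₀ := hcl
      have hz'f' : 5 * ε₀ ≤ |f z' - f y| := hz'f
      have h5 := abs_le.mp hσ1
      have h6 := abs_le.mp hσ2
      have h7 := abs_le.mp hn3'
      have h8 := abs_le.mp hcl'
      rw [hσ3] at h5
      have h9 : |f z' - f y| ≤ 4 * ε₀ :=
        abs_le.mpr ⟨by linarith [h5.1, h6.1, h7.1, h8.1, h5.2, h6.2, h7.2, h8.2],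
          by linarith [h5.1, h6.1, h7.1, h8.1, h5.2, h6.2, h7.2, h8.2]⟩
      linarith
  -- the sum
  have hsum : μ B' ≤ ENNReal.ofReal (3 * mu1 / 5) := by
    calc μ B' ≤ μ ((E2 ∪ E3) ∪ ⋃ t' ∈ Finset.Icc nn (nn + m), AC t') := measure_mono hcover
      _ ≤ μ (E2 ∪ E3) + μ (⋃ t' ∈ Finset.Icc nn (nn + m), AC t') := measure_union_le _ _
      _ ≤ (μ E2 + μ E3) + ∑ t' ∈ Finset.Icc nn (nn + m), μ (AC t') :=
        add_le_add (measure_union_le _ _) (measure_biUnion_finset_le _ _)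
      _ ≤ (ENNReal.ofReal (mu1 / 5) + ENNReal.ofReal (mu1 / 5)) +
          ∑ t' ∈ Finset.Icc nn (nn + m), ENNReal.ofReal (2 * ζ * C') :=
        add_le_add (add_le_add hE2v hE3v) (Finset.sum_le_sum fun t' _ => hACv t')
      _ = ENNReal.ofReal (mu1 / 5 + mu1 / 5 + ((m : ℝ) + 1) * (2 * ζ * C')) := by
        rw [Finset.sum_const, Nat.card_Icc, nsmul_eq_mul,
          show nn + m + 1 - nn = m + 1 by omega,
          ENNReal.ofReal_add (by positivity) (by positivity),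
          ENNReal.ofReal_add (by positivity) (by positivity),
          ENNReal.ofReal_mul (by positivity : (0 : ℝ) ≤ (m : ℝ) + 1)]
        congr 2
        rw [show (m : ℝ) + 1 = ((m + 1 : ℕ) : ℝ) by push_cast; ring, ENNReal.ofReal_natCast]
      _ ≤ ENNReal.ofReal (3 * mu1 / 5) := by
        apply ENNReal.ofReal_le_ofReal
        have h3 : ((m : ℝ) + 1) * (2 * ζ * C') = mu1 / 5 * (C' / (C' + 1)) := by
          rw [hζ]
          field_simp
          ring
        have h4 : C' / (C' + 1) ≤ 1 := by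
          rw [div_le_one (by positivity)]
          linarith
        have h5 : mu1 / 5 * (C' / (C' + 1)) ≤ mu1 / 5 * 1 :=
          mul_le_mul_of_nonneg_left h4 (by positivity)
        rw [h3]
        linarith
  have hfinal := hB'1.trans hsum
  rw [ENNReal.ofReal_le_ofReal_iff (by positivity)] at hfinal
  linarith

/-- both families of leaves with common constants -/
theorem leaves (hLEAF : SpecLEAF) {X : Type} [MeasurableSpace X] {T : X ≃ᵐ X}
    {e : Bool → ℝ → ℝ → X} {b s a d x1 c1 C η : ℝ} (hinj : ChartInj e b s)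
    (hC1 : Csts b s (-1) a d x1 c1 C η) (hC2 : Csts s b 1 d a c1 x1 C η)
    (hE1 : EvoAx T e b s (-1) x1 c1 C η) (hE2 : EvoAx T.symm (flp e) s b 1 c1 x1 C η) :
    ∃ (M δ ε θ : ℝ) (n0 : ℕ), 1 ≤ M ∧ 0 < δ ∧ 0 < ε ∧ 0 < θ ∧ θ < 1 ∧
    ∀ K : ℝ, 0 ≤ K → ∃ B : ℝ, 1 ≤ B ∧
      (∀ (z : X) (m : ℕ), Good (fun n => T.symm^[n] z ∈ core e a d) K ε → n0 ≤ m →
        ∃ (t : ℕ) (j0 : Bool) (p0 q0 σm σp : ℝ) (j : Bool) (P Q P' Q' : ℝ → ℝ),
          Leaf T T.symm e b s (-1) a d x1 c1 M δ B θ t m z j0 p0 q0 σm σp j P Q P' Q') ∧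
      (∀ (z : X) (m : ℕ), Good (fun n => T^[n] z ∈ core (flp e) d a) K ε → n0 ≤ m →
        ∃ (t : ℕ) (j0 : Bool) (p0 q0 σm σp : ℝ) (j : Bool) (P Q P' Q' : ℝ → ℝ),
          Leaf T.symm T (flp e) s b 1 d a c1 x1 M δ B θ t m z j0 p0 q0 σm σp j P Q P' Q') := by
  obtain ⟨M1, δ1, ε1, θ1, n1, hM1, hδ1, hε1, hθ10, hθ11, h1⟩ := hLEAF b s (-1) a d x1 c1 C η hC1
  obtain ⟨M2, δ2, ε2, θ2, n2, hM2, hδ2, hε2, hθ20, hθ21, h2⟩ := hLEAF s b 1 d a c1 x1 C η hC2
  refine ⟨max M1 M2, min δ1 δ2, min ε1 ε2, max θ1 θ2, max n1 n2, hM1.trans (le_max_left _ _),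
    lt_min hδ1 hδ2, lt_min hε1 hε2, hθ10.trans_le (le_max_left _ _), max_lt hθ11 hθ21, ?_⟩
  intro K hK
  obtain ⟨B1, hB1, h1'⟩ := h1 K hK
  obtain ⟨B2, hB2, h2'⟩ := h2 K hK
  refine ⟨max B1 B2, hB1.trans (le_max_left _ _), ?_, ?_⟩
  · intro z m hz hm
    obtain ⟨t, j0, p0, q0, σm, σp, j, P, Q, P', Q', hL⟩ := h1' X T T.symm e T.symm_apply_apply
      T.apply_symm_apply hinj hE1 z m (good_mono hz le_rfl (min_le_left _ _))
      ((le_max_left _ _).trans hm)
    exact ⟨t, j0, p0, q0, σm, σp, j, P, Q, P', Q', leaf_mono hL (le_max_left _ _)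
      (min_le_left _ _) (zero_le_one.trans hB1) (le_max_left _ _) hθ10.le (le_max_left _ _)⟩
  · intro z m hz hm
    obtain ⟨t, j0, p0, q0, σm, σp, j, P, Q, P', Q', hL⟩ := h2' X T.symm T (flp e)
      T.apply_symm_apply T.symm_apply_apply (chartInj_flp hinj) hE2 z m
      (good_mono hz le_rfl (min_le_right _ _)) ((le_max_right _ _).trans hm)
    exact ⟨t, j0, p0, q0, σm, σp, j, P, Q, P', Q', leaf_mono hL (le_max_right _ _)
      (min_le_right _ _) (zero_le_one.trans hB2) (le_max_right _ _) hθ20.le (le_max_right _ _)⟩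

end Pool.Agent.Lib.MP_d2b992_gt.Dyn.HopfM

namespace Pool.Agent.Lib.MP_d2b992_gt.Dyn

open HopfM

theorem specHOPF (hLEAF : SpecLEAF) (hEXIST : SpecEXIST) (hACT : SpecACT) (hCLF : SpecCLF)
    (hRET : SpecRET) (hLEB : SpecLEB) : SpecHOPF := by
  intro X _ μ T e b s a d g φ f n B hS hT hL j x0 c0 hx0 hc0
  -- the cores
  have ha1 : max a |x0| < b := max_lt hT.ab hx0
  have hd1 : max d |c0| < s := max_lt hT.ds hc0
  obtain ⟨a', ha', hab'⟩ := exists_between ha1
  obtain ⟨d', hd', hds'⟩ := exists_between hd1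
  obtain ⟨x1, hx1, hx1b⟩ := exists_between hab'
  obtain ⟨c1, hc1, hc1s⟩ := exists_between hds'
  have ha'0 : 0 < a' := hT.a0.trans ((le_max_left _ _).trans_lt ha')
  have hd'0 : 0 < d' := hT.d0.trans ((le_max_left _ _).trans_lt hd')
  obtain ⟨C, η, hC, hη, hE1, hE2⟩ := hS.evo x1 c1 (ha'0.trans hx1) hx1b (hd'0.trans hc1) hc1s
  have hC1 : Csts b s (-1) a' d' x1 c1 C η :=
    { a0 := ha'0, ap := hx1, pb := hx1b, d0 := hd'0, dq := hc1, qb := hc1s
      bb := by linarith [hS.sb], sg1 := Or.inr rfl, C1 := hC, η0 := hη }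
  have hC2 : Csts s b 1 d' a' c1 x1 C η :=
    { a0 := hd'0, ap := hc1, pb := hc1s, d0 := ha'0, dq := hx1, qb := hx1b
      bb := hS.sb, sg1 := Or.inl rfl, C1 := hC, η0 := hη }
  obtain ⟨M, δ, ε, θ, n0, hM, hδ, hε, hθ0, hθ1, hleaf⟩ := leaves hLEAF hS.inj hC1 hC2 hE1 hE2
  have hT' : Test e b s a' d' g φ :=
    test_mono hT ((le_max_left _ _).trans ha'.le) hab' ((le_max_left _ _).trans hd'.le) hds'
  -- the radius
  have hx0a : 0 < a' - |x0| := by
    have := (le_max_right a |x0|).trans_lt ha'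
    linarith
  have hc0d : 0 < d' - |c0| := by
    have := (le_max_right d |c0|).trans_lt hd'
    linarith
  have hM0 : 0 < 2 * (1 + M) ^ 2 := by positivity
  set r : ℝ := min (δ / (2 * (1 + M) ^ 2)) (min (a' - |x0|) (d' - |c0|)) with hr
  have hrpos : 0 < r := lt_min (div_pos hδ hM0) (lt_min hx0a hc0d)
  have hr1 : r ≤ δ / (2 * (1 + M) ^ 2) := min_le_left _ _
  have hr2 : r ≤ a' - |x0| := (min_le_right _ _).trans (min_le_left _ _)
  have hr3 : r ≤ d' - |c0| := (min_le_right _ _).trans (min_le_right _ _)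
  have hrδ : 2 * r * (1 + M) ^ 2 ≤ δ := by
    rw [le_div_iff₀ hM0] at hr1
    linarith
  obtain ⟨κ, hκ⟩ := const_of_dichotomy μ (box e j x0 c0 r) f B hL.bf (by
    intro a₁ b₁ hab
    by_contra hcon
    push Not at hcon
    exact hopf_core hEXIST hACT hCLF hRET hLEB hS hT' hL hx1 hx1b hc1 hc1s j x0 c0 r hrpos
      (by linarith) (by linarith) M δ ε θ n0 hM hδ hε hθ0 hθ1 hrδ hleaf a₁ b₁ hab
      hcon.1 hcon.2)
  exact ⟨r, κ, hrpos, hκ⟩

end Pool.Agent.Lib.MP_d2b992_gt.Dyn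
end

section
/-!
# LEAF: assembly of UC, DIST, CLOS
-/
set_option autoImplicit false

open MeasureTheory Filter Topology Set

namespace Pool.Agent.Lib.MP_d2b992_gt.Dyn.LeafM

theorem iter_sub {X : Type} {S S' : X → X} (h : ∀ z, S (S' z) = z) (t k : ℕ) (hk : k ≤ t) (z : X) :
    S^[t - k] (S'^[t] z) = S'^[k] z := by
  have h1 : ∀ n : ℕ, ∀ w : X, S^[n] (S'^[n] w) = w := by
    intro n
    induction n with
    | zero => intro w; rfl
    | succ n ih =>
      intro w
      rw [Function.iterate_succ_apply, Function.iterate_succ_apply', h, ih]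
  have h2 : S'^[t] z = S'^[t - k] (S'^[k] z) := by
    rw [← Function.iterate_add_apply, Nat.sub_add_cancel hk]
  rw [h2, h1]

/-- bound of an interval integral by a pointwise bound, both integrands continuous -/
theorem int_le {f g : ℝ → ℝ} {a b : ℝ} {c u v : ℝ} (hf : ContinuousOn f (Icc a b))
    (hg : ContinuousOn g (Icc a b)) (hf0 : ∀ x ∈ Icc a b, 0 ≤ f x)
    (hfg : ∀ x ∈ Icc a b, f x ≤ c * g x) (hu : u ∈ Icc a b) (hv : v ∈ Icc a b)
    (hg0 : ∀ x ∈ Icc a b, 0 ≤ g x) :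
    |∫ x in u..v, f x| ≤ c * |∫ x in u..v, g x| := by
  have key : ∀ u ∈ Icc a b, ∀ v ∈ Icc a b, u ≤ v →
      |∫ x in u..v, f x| ≤ c * |∫ x in u..v, g x| := by
    intro u hu v hv huv
    have hs : Icc u v ⊆ Icc a b := Icc_subset_Icc hu.1 hv.2
    have i1 : IntervalIntegrable f volume u v := (hf.mono (by rwa [uIcc_of_le huv])).intervalIntegrable
    have i2 : IntervalIntegrable g volume u v := (hg.mono (by rwa [uIcc_of_le huv])).intervalIntegrable
    have n1 : 0 ≤ ∫ x in u..v, f x :=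
      intervalIntegral.integral_nonneg huv fun x hx => hf0 x (hs hx)
    have n2 : 0 ≤ ∫ x in u..v, g x :=
      intervalIntegral.integral_nonneg huv fun x hx => hg0 x (hs hx)
    rw [abs_of_nonneg n1, abs_of_nonneg n2, ← intervalIntegral.integral_const_mul]
    exact intervalIntegral.integral_mono_on huv i1 (i2.const_mul c) fun x hx => hfg x (hs hx)
  rcases le_total u v with h | h
  · exact key u hu v hv h
  · rw [intervalIntegral.integral_symm, intervalIntegral.integral_symm v u, abs_neg, abs_neg]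
    exact key v hv u hu h

end Pool.Agent.Lib.MP_d2b992_gt.Dyn.LeafM

namespace Pool.Agent.Lib.MP_d2b992_gt.Dyn

open LeafM

theorem specLEAF (hUC : SpecUC) (hDIST : SpecDIST) (hCLOS : SpecCLOS) : SpecLEAF := by
  intro βp βq sg a d p1 q1 C η hC
  obtain ⟨M, δ, C4, θ, n0, hM, hδ, hC4, hθ0, hθ1, huc⟩ := hUC βp βq sg a d p1 q1 C η hC
  obtain ⟨ε1, hε1, hdist⟩ := hDIST C C4 θ M hC.C1 hC4 hθ0 hθ1 hM
  obtain ⟨ε2, θ', hε2, hθ'0, hθ'1, hclos⟩ := hCLOS C C4 θ M hC.C1 hC4 hθ0 hθ1 hM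
  refine ⟨M, δ, min ε1 ε2, max θ θ', n0, hM, hδ, lt_min hε1 hε2, lt_max_of_lt_left hθ0,
    max_lt hθ1 hθ'1, ?_⟩
  intro K hK
  obtain ⟨B1, hB1, hd⟩ := hdist K hK
  obtain ⟨B2, hB2, hc⟩ := hclos K hK
  have hC1 := hC.C1
  refine ⟨B1 * M + 2 * C4 + B2, by nlinarith, ?_⟩
  intro X S S' E hS'S hSS' hinj hevo z m hgood hnm
  have hθm : ∀ n : ℕ, θ ^ n ≤ (max θ θ') ^ n := fun n =>
    pow_le_pow_left₀ hθ0.le (le_max_left _ _) n
  have hθm' : ∀ n : ℕ, θ' ^ n ≤ (max θ θ') ^ n := fun n =>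
    pow_le_pow_left₀ hθ'0.le (le_max_right _ _) n
  have hθ''0 : ∀ n : ℕ, 0 ≤ (max θ θ') ^ n := fun n => (pow_nonneg hθ0.le n).trans (hθm n)
  set pr : ℕ → Prop := fun n => S'^[n] z ∈ core E a d with hpr
  obtain ⟨g0, ginf, ggap⟩ := hgood
  have hinf : (Set.ofPred pr).Infinite := by
    rw [Set.infinite_iff_exists_gt]
    intro k
    obtain ⟨n, hn, hn'⟩ := ginf (k + 1)
    exact ⟨n, hn', by omega⟩
  have hmono : StrictMono (Nat.nth pr) := Nat.nth_strictMono hinf
  have hmem : ∀ i, pr (Nat.nth pr i) := fun i => Nat.nth_mem_of_infinite hinf i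
  have hz0 : Nat.nth pr 0 = 0 := Nat.nth_zero_of_zero g0
  obtain ⟨t, ht⟩ : ∃ t, t = Nat.nth pr m := ⟨_, rfl⟩
  obtain ⟨j0, p0, q0, hp0, hq0, hw⟩ : S'^[t] z ∈ core E a d := by
    rw [ht]
    exact hmem m
  obtain ⟨v, A, N, N', hE⟩ := hevo j0 p0 q0 (hp0.trans hC.ap.le) (hq0.trans hC.dq.le)
  have hkk : ∀ i ≤ m, Nat.nth pr i ≤ t := fun i hi => by rw [ht]; exact hmono.monotone hi
  have hit : ∀ k ≤ t, S^[t - k] (E j0 p0 q0) = S'^[k] z := fun k hk => by
    rw [← hw]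
    exact iter_sub hSS' t k hk z
  have hst : S^[t] (E j0 p0 q0) = z := by
    have := hit 0 (Nat.zero_le t)
    simpa using this
  have kk0 : t - Nat.nth pr 0 = t := by rw [hz0]; rfl
  have kkm : t - Nat.nth pr m = 0 := by rw [← ht]; exact Nat.sub_self t
  have kkdec : ∀ i < m, t - Nat.nth pr (i + 1) < t - Nat.nth pr i := fun i hi => by
    have h1 : Nat.nth pr i < Nat.nth pr (i + 1) := hmono (Nat.lt_succ_self i)
    have h2 := hkk (i + 1) hi
    omega
  have kkdiff : ∀ i < m, (((t - Nat.nth pr i : ℕ) : ℝ) - ((t - Nat.nth pr (i + 1) : ℕ) : ℝ)) =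
      (Nat.nth pr (i + 1) : ℝ) - (Nat.nth pr i : ℝ) := fun i hi => by
    rw [Nat.cast_sub (hkk i hi.le), Nat.cast_sub (hkk (i + 1) hi)]
    ring
  obtain ⟨σm, σp, j, P, Q, P', Q', hU⟩ := huc X S E j0 p0 q0 v A N N' hinj hp0 hq0 hE t m
    (fun i => t - Nat.nth pr i) hnm kk0 kkm kkdec
    (fun i hi => by rw [hit _ (hkk i hi)]; exact hmem i)
  have hdom : ∀ σ ∈ Icc σm σp, |p0 + σ| < βp := fun σ hσ => (hU.dom σ hσ).trans_lt hC.pb
  have h0mem : (0 : ℝ) ∈ Icc σm σp := ⟨hU.neg.le, hU.pos.le⟩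
  have hD := hd βp βq sg p1 q1 η δ X S E j0 p0 q0 v A N N' t m (fun i => t - Nat.nth pr i) σm σp
    j P Q P' Q' hC.pb hE hU kk0 kkm kkdec (fun i hi => by
      rw [kkdiff i hi]
      refine (ggap i).trans ?_
      have h1 : min ε1 ε2 * (i : ℝ) ≤ ε1 * (i : ℝ) :=
        mul_le_mul_of_nonneg_right (min_le_left _ _) (Nat.cast_nonneg i)
      linarith)
  have hCl := hc βp βq sg p1 q1 η δ X S E j0 p0 q0 v A N N' t m (fun i => t - Nat.nth pr i) σm σp
    j P Q P' Q' hC.pb hE hU kk0 kkm kkdec (min ε1 ε2) (lt_min hε1 hε2).le (min_le_right _ _)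
    (fun i hi => by
      rw [kkdiff i hi]
      exact ggap i)
  -- contraction from the last visit to the first
  have hcon : ∀ σ ∈ Icc σm σp, v 0 σ ≤ (C4 * θ ^ m) * v t σ := by
    intro σ hσ
    have h1 := hU.contr 0 m (Nat.zero_le m) le_rfl σ hσ
    simp only [kk0, kkm, Nat.sub_zero] at h1
    exact h1
  have hvc : ∀ k, ContinuousOn (v k) (Icc σm σp) := fun k =>
    (hE.v_cont k).mono fun σ hσ => hdom σ hσ
  have hv0 : ∀ k, ∀ σ ∈ Icc σm σp, 0 ≤ v k σ := fun k σ hσ => (hE.v_pos k σ (hdom σ hσ)).le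
  have hC4θ : 0 ≤ C4 * θ ^ m := mul_nonneg (by linarith) (pow_nonneg hθ0.le m)
  -- length at time 0
  have hlen0 : ∀ σ ∈ Icc σm σp, |∫ r in (0 : ℝ)..σ, v 0 r| ≤ C4 * θ ^ m := by
    intro σ hσ
    have h1 := int_le (hvc 0) (hvc t) (hv0 0) hcon h0mem hσ (hv0 t)
    exact h1.trans (mul_le_of_le_one_right hC4θ (hU.len σ hσ))
  have hsig : ∀ σ ∈ Icc σm σp, |σ| ≤ C4 * θ ^ m := by
    intro σ hσ
    have h1 := int_le (f := fun _ => (1 : ℝ)) (g := v 0) (c := 1) continuousOn_const (hvc 0)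
      (fun _ _ => zero_le_one) (fun x hx => by
        have := (hE.init x (hU.dom x hx)).1
        linarith) h0mem hσ (hv0 0)
    simp only [intervalIntegral.integral_const, sub_zero, smul_eq_mul, mul_one, one_mul] at h1
    exact h1.trans (hlen0 σ hσ)
  -- the lengths at time t - k
  have hlen : ∀ i k : ℕ, Nat.nth pr i ≤ k → k < Nat.nth pr (i + 1) → k ≤ t →
      ∀ σ ∈ Icc σm σp, |∫ r in (0 : ℝ)..σ, v (t - k) r| ≤
        (B1 * M + 2 * C4 + B2) * (max θ θ') ^ i := by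
    intro i k hik hki hkt σ hσ
    have him : i ≤ m := by
      by_contra hcon'
      have : m < i := not_le.1 hcon'
      have := hmono this
      omega
    rcases him.lt_or_eq with him | him
    · have h1 := hCl i him (t - k) (by
        have := hkk (i + 1) him
        show t - Nat.nth pr (i + 1) < t - k
        omega) (by
        show t - k ≤ t - Nat.nth pr i
        omega) σ hσ
      refine h1.trans ?_
      calc B2 * θ' ^ i ≤ B2 * (max θ θ') ^ i :=
            mul_le_mul_of_nonneg_left (hθm' i) (by linarith)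
        _ ≤ (B1 * M + 2 * C4 + B2) * (max θ θ') ^ i :=
            mul_le_mul_of_nonneg_right (by nlinarith) (hθ''0 i)
    · subst him
      have hk : t - k = 0 := by omega
      rw [hk]
      refine (hlen0 σ hσ).trans ?_
      calc C4 * θ ^ i ≤ C4 * (max θ θ') ^ i :=
            mul_le_mul_of_nonneg_left (hθm i) (by linarith)
        _ ≤ (B1 * M + 2 * C4 + B2) * (max θ θ') ^ i :=
            mul_le_mul_of_nonneg_right (by nlinarith) (hθ''0 i)
  refine ⟨t, j0, p0, q0, σm, σp, j, P, Q, P', Q', ?_⟩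
  exact
    { ha := hp0
      hd := hq0
      start := hst
      time := ht
      neg := hU.neg
      pos := hU.pos
      dom := hU.dom
      eq := hU.eq
      inP := hU.inP
      inQ := hU.inQ
      dP := hU.dP
      dQ := hU.dQ
      nz := hU.nz
      sgn := hU.sgn
      slope := hU.slope
      sides := hU.sides
      dist := by
        intro σ hσ σ' hσ'
        have h1 := (hU.vP σ hσ).1
        have h2 := hD σ hσ σ' hσ'
        have h3 := (hU.vP σ' hσ').2
        have h4 : (0 : ℝ) ≤ |P' σ'| := abs_nonneg _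
        calc |P' σ| ≤ v t σ := h1
          _ ≤ B1 * v t σ' := h2
          _ ≤ B1 * (M * |P' σ'|) := mul_le_mul_of_nonneg_left h3 (by linarith)
          _ = (B1 * M) * |P' σ'| := by ring
          _ ≤ (B1 * M + 2 * C4 + B2) * |P' σ'| :=
              mul_le_mul_of_nonneg_right (by linarith) h4
      small := by
        have h1 := hsig σm ⟨le_rfl, (hU.neg.trans hU.pos).le⟩
        have h2 := hsig σp ⟨(hU.neg.trans hU.pos).le, le_rfl⟩
        rw [abs_of_neg hU.neg] at h1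
        rw [abs_of_pos hU.pos] at h2
        have h3 : C4 * θ ^ m ≤ C4 * (max θ θ') ^ m :=
          mul_le_mul_of_nonneg_left (hθm m) (by linarith)
        have h4 : 2 * C4 * (max θ θ') ^ m ≤ (B1 * M + 2 * C4 + B2) * (max θ θ') ^ m :=
          mul_le_mul_of_nonneg_right (by nlinarith) (hθ''0 m)
        linarith
      close := by
        intro i k hik hki hkt σ hσ j' p' q' hp' hq'
        have hL := hlen i k hik hki hkt σ hσ
        have e0 : p0 + 0 = p0 := add_zero p0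
        have hd0 : |p0 + 0| < βp := hdom 0 h0mem
        constructor
        · intro hz
          exact hE.path (t - k) 0 σ _ j' p' q' hd0 (hdom σ hσ) hp' hq' (by rw [e0]; exact hz) hL σ
            right_mem_uIcc
        · intro hz
          have h1 := hE.path (t - k) σ 0 _ j' p' q' (hdom σ hσ) hd0 hp' hq' hz (by
            rw [intervalIntegral.integral_symm, abs_neg]; exact hL) 0 right_mem_uIcc
          rw [e0] at h1
          exact h1 }

end Pool.Agent.Lib.MP_d2b992_gt.Dyn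
end
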