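import Pool.Agent.Lib.MP_d2b992_gt.T.Defs
import Pool.Agent.Lib.MP_d2b992_gt.Dyn.Spec1

section
/-!
# The clipped tangent and the functions `λ`, `τ` (module D1 of the dynamics)

`ct κ Θ = sin Θ cos Θ / max (cos² Θ) κ` is the tangent where `cos² Θ ≥ κ`.
`lam r c Θ = c sin Θ cos Θ / max ((1 - c²) cos² Θ) (r² - c²)`; this is `λ` for `r = s` and `τ` for
`r = b`.
-/
set_option autoImplicit false

open Real Set Filter Topology
open scoped ContDiff

namespace Pool.Agent.Lib.MP_d2b992_gt.Dyn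

/-- The clipped tangent. -/
noncomputable def ct (κ x : ℝ) : ℝ := sin x * cos x / max (cos x ^ 2) κ

/-- The functions `λ` (`r = s`) and `τ` (`r = b`). -/
noncomputable def lam (r c Θ : ℝ) : ℝ :=
  c * sin Θ * cos Θ / max ((1 - c ^ 2) * cos Θ ^ 2) (r ^ 2 - c ^ 2)

lemma ct_inner {κ x : ℝ} (hκ : 0 < κ) (h : κ ≤ cos x ^ 2) : ct κ x = tan x := by
  have hc : cos x ≠ 0 := by
    intro h0
    rw [h0] at h
    norm_num at h
    linarith
  rw [ct, max_eq_left h, tan_eq_sin_div_cos]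
  field_simp

lemma ct_outer {κ x : ℝ} (h : cos x ^ 2 ≤ κ) : ct κ x = sin x * cos x / κ := by
  rw [ct, max_eq_right h]

lemma ct_add_pi (κ x : ℝ) : ct κ (x + π) = ct κ x := by
  simp [ct, sin_add_pi, cos_add_pi]

lemma ct_neg (κ x : ℝ) : ct κ (-x) = -ct κ x := by
  simp [ct, neg_div]

lemma continuous_ct {κ : ℝ} (hκ : 0 < κ) : Continuous (ct κ) := by
  unfold ct
  refine Continuous.div (by fun_prop) (by fun_prop) fun x => ?_
  exact (lt_of_lt_of_le hκ (le_max_right _ _)).ne'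

lemma cos_sq_sub (z x : ℝ) : cos z ^ 2 - cos x ^ 2 = -(sin (z + x) * sin (z - x)) := by
  rw [sin_add, sin_sub]
  have h1 := sin_sq_add_cos_sq z
  have h2 := sin_sq_add_cos_sq x
  have h3 : sin z ^ 2 = 1 - cos z ^ 2 := by linarith
  have h4 : sin x ^ 2 = 1 - cos x ^ 2 := by linarith
  calc cos z ^ 2 - cos x ^ 2
      = -((1 - cos z ^ 2) * cos x ^ 2 - cos z ^ 2 * (1 - cos x ^ 2)) := by ring
    _ = -((sin z ^ 2) * cos x ^ 2 - cos z ^ 2 * (sin x ^ 2)) := by rw [h3, h4]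
    _ = _ := by ring

/-- Right derivatives of the clipped tangent. -/
lemma ct_right {κ : ℝ} (hκ : 0 < κ) (hκ1 : κ < 1) (x : ℝ) :
    ∃ D, HasDerivWithinAt (ct κ) D (Ici x) x ∧ -(sin x ^ 2 / κ) ≤ D := by
  have hin : (∀ᶠ z in 𝓝[≥] x, κ ≤ cos z ^ 2) →
      ∃ D, HasDerivWithinAt (ct κ) D (Ici x) x ∧ -(sin x ^ 2 / κ) ≤ D := by
    intro h
    have hx : κ ≤ cos x ^ 2 := h.self_of_nhdsWithin (mem_Ici.mpr le_rfl)
    have hc : cos x ≠ 0 := by
      intro h0
      rw [h0] at hx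
      norm_num at hx
      linarith
    refine ⟨1 / cos x ^ 2, ?_, ?_⟩
    · refine (Real.hasDerivAt_tan hc).hasDerivWithinAt.congr_of_eventuallyEq ?_ (ct_inner hκ hx)
      filter_upwards [h] with z hz using ct_inner hκ hz
    · have : 0 ≤ sin x ^ 2 / κ := by positivity
      have : 0 ≤ 1 / cos x ^ 2 := by positivity
      linarith
  have hout : (∀ᶠ z in 𝓝[≥] x, cos z ^ 2 ≤ κ) →
      ∃ D, HasDerivWithinAt (ct κ) D (Ici x) x ∧ -(sin x ^ 2 / κ) ≤ D := by
    intro h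
    have hx : cos x ^ 2 ≤ κ := h.self_of_nhdsWithin (mem_Ici.mpr le_rfl)
    refine ⟨(cos x * cos x + sin x * (-sin x)) / κ, ?_, ?_⟩
    · refine (((Real.hasDerivAt_sin x).mul (Real.hasDerivAt_cos x)).div_const
        κ).hasDerivWithinAt.congr_of_eventuallyEq ?_ (ct_outer hx)
      filter_upwards [h] with z hz using ct_outer hz
    · rw [← neg_div]
      apply div_le_div_of_nonneg_right _ hκ.le
      nlinarith [sq_nonneg (cos x)]
  rcases lt_trichotomy (cos x ^ 2) κ with h | h | h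
  · apply hout
    have : ∀ᶠ z in 𝓝 x, cos z ^ 2 < κ :=
      ((continuous_cos.pow 2).continuousAt (x := x)).eventually_lt_const h
    exact (this.filter_mono nhdsWithin_le_nhds).mono fun z hz => hz.le
  · have hc : cos x ≠ 0 := by
      intro h0
      rw [h0] at h
      norm_num at h
      linarith
    have hs : sin x ≠ 0 := by
      intro h0
      have := sin_sq_add_cos_sq x
      rw [h0, h] at this
      norm_num at this
      linarith
    have h2 : sin (x + x) ≠ 0 := by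
      rw [← two_mul, sin_two_mul]
      positivity
    have hnear : ∀ᶠ z in 𝓝[≥] x, 0 ≤ sin (z - x) := by
      have h1 : ∀ᶠ z in 𝓝[≥] x, z < x + π :=
        (eventually_lt_nhds (by linarith [pi_pos])).filter_mono nhdsWithin_le_nhds
      filter_upwards [h1, self_mem_nhdsWithin] with z hz hz2
      exact sin_nonneg_of_nonneg_of_le_pi (sub_nonneg.mpr hz2) (by linarith)
    rcases lt_or_gt_of_ne h2 with h3 | h3
    · apply hin
      have h4 : ∀ᶠ z in 𝓝[≥] x, sin (z + x) < 0 := by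
        have : ContinuousAt (fun z => sin (z + x)) x := by fun_prop
        exact (this.eventually_lt_const h3).filter_mono nhdsWithin_le_nhds
      filter_upwards [h4, hnear] with z hz hz2
      have := cos_sq_sub z x
      nlinarith
    · apply hout
      have h4 : ∀ᶠ z in 𝓝[≥] x, 0 < sin (z + x) := by
        have : ContinuousAt (fun z => sin (z + x)) x := by fun_prop
        exact (this.eventually_const_lt h3).filter_mono nhdsWithin_le_nhds
      filter_upwards [h4, hnear] with z hz hz2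
      have := cos_sq_sub z x
      nlinarith
  · apply hin
    have : ∀ᶠ z in 𝓝 x, κ < cos z ^ 2 :=
      ((continuous_cos.pow 2).continuousAt (x := x)).eventually_const_lt h
    exact (this.filter_mono nhdsWithin_le_nhds).mono fun z hz => hz.le

/-- The one-sided Lipschitz bound of the clipped tangent. -/
lemma ct_sub_le {κ : ℝ} (hκ : 0 < κ) (hκ1 : κ < 1) {u v : ℝ} (huv : u ≤ v) :
    ct κ u - ct κ v ≤ ((v - u) - cos (u + v) * sin (v - u)) / (2 * κ) := by
  choose D hD hD2 using ct_right hκ hκ1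
  have hB : ∀ z, HasDerivAt (fun z => -ct κ u + ((z / 2 - sin (2 * z) / 4) -
      (u / 2 - sin (2 * u) / 4)) / κ) (sin z ^ 2 / κ) z := by
    intro z
    have h1 : HasDerivAt (fun z : ℝ => sin (2 * z)) (cos (2 * z) * 2) z := by
      simpa using ((hasDerivAt_id' z).const_mul (2 : ℝ)).sin
    have h2 := (((((hasDerivAt_id' z).div_const 2).sub (h1.div_const 4)).sub_const
      (u / 2 - sin (2 * u) / 4)).div_const κ).const_add (-ct κ u)
    have h3 : (1 / 2 - cos (2 * z) * 2 / 4) / κ = sin z ^ 2 / κ := by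
      rw [cos_two_mul]
      congr 1
      have := sin_sq_add_cos_sq z
      linarith
    rw [h3] at h2
    exact h2
  have key := image_le_of_deriv_right_le_deriv_boundary (f := fun z => -ct κ z)
    (f' := fun z => -D z) (a := u) (b := v) (continuous_ct hκ).neg.continuousOn
    (fun x _ => (hD x).neg)
    (B := fun z => -ct κ u + ((z / 2 - sin (2 * z) / 4) - (u / 2 - sin (2 * u) / 4)) / κ)
    (B' := fun z => sin z ^ 2 / κ) (by simp)
    (fun z _ => (hB z).continuousAt.continuousWithinAt)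
    (fun x _ => (hB x).hasDerivWithinAt)
    (fun x _ => by have := hD2 x; linarith) (right_mem_Icc.mpr huv)
  have h3 : ((v / 2 - sin (2 * v) / 4) - (u / 2 - sin (2 * u) / 4)) / κ =
      ((v - u) - cos (u + v) * sin (v - u)) / (2 * κ) := by
    have h4 : sin (2 * v) - sin (2 * u) = 2 * (cos (u + v) * sin (v - u)) := by
      rw [sin_sub_sin]
      rw [show (2 * v - 2 * u) / 2 = v - u by ring, show (2 * v + 2 * u) / 2 = u + v by ring]
      ring
    have h5 : (v / 2 - sin (2 * v) / 4) - (u / 2 - sin (2 * u) / 4) =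
        ((v - u) - cos (u + v) * sin (v - u)) / 2 := by linarith
    rw [h5, div_div]
  linarith

lemma ct_sub_le' {κ : ℝ} (hκ : 0 < κ) (hκ1 : κ < 1) (u : ℝ) {ε : ℝ} (hε : 0 ≤ ε) :
    ct κ u - ct κ (u + ε) ≤ (ε + |sin ε|) / (2 * κ) := by
  refine (ct_sub_le hκ hκ1 (by linarith : u ≤ u + ε)).trans ?_
  apply div_le_div_of_nonneg_right _ (by positivity)
  rw [show u + ε - u = ε by ring]
  have h1 : |cos (u + (u + ε)) * sin ε| ≤ |sin ε| := by
    rw [abs_mul]
    exact mul_le_of_le_one_left (abs_nonneg _) (abs_cos_le_one _)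
  have := neg_abs_le (cos (u + (u + ε)) * sin ε)
  linarith

/-! ## `lam` -/

lemma lam_den_pos {r c : ℝ} (hc : c ^ 2 < r ^ 2) (Θ : ℝ) :
    0 < max ((1 - c ^ 2) * cos Θ ^ 2) (r ^ 2 - c ^ 2) :=
  lt_of_lt_of_le (by linarith) (le_max_right _ _)

lemma lam_eq {r c : ℝ} (hc1 : c ^ 2 < 1) (Θ : ℝ) :
    lam r c Θ = c / (1 - c ^ 2) * ct ((r ^ 2 - c ^ 2) / (1 - c ^ 2)) Θ := by
  have h1 : 0 < 1 - c ^ 2 := by linarith
  unfold lam ct
  have h2 : max ((1 - c ^ 2) * cos Θ ^ 2) (r ^ 2 - c ^ 2) =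
      (1 - c ^ 2) * max (cos Θ ^ 2) ((r ^ 2 - c ^ 2) / (1 - c ^ 2)) := by
    rw [mul_max_of_nonneg _ _ h1.le, mul_div_cancel₀ _ h1.ne']
  rw [h2, div_mul_div_comm, mul_assoc c]

lemma lam_add_pi (r c Θ : ℝ) : lam r c (Θ + π) = lam r c Θ := by
  simp [lam, sin_add_pi, cos_add_pi]

lemma lam_periodic (r c : ℝ) : Function.Periodic (lam r c) π := lam_add_pi r c

lemma lam_neg_left (r c Θ : ℝ) : lam r (-c) Θ = -lam r c Θ := by
  simp [lam, neg_div]

lemma lam_neg_right (r c Θ : ℝ) : lam r c (-Θ) = -lam r c Θ := by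
  simp [lam, neg_div]

/-- `lam` in the inner part (the squares). -/
lemma lam_inner {r c Θ : ℝ} (hc1 : c ^ 2 < 1) (hc : c ^ 2 < r ^ 2)
    (h : r ^ 2 - c ^ 2 ≤ (1 - c ^ 2) * cos Θ ^ 2) : lam r c Θ = c * tan Θ / (1 - c ^ 2) := by
  have h1 : 0 < 1 - c ^ 2 := by linarith
  have hcos : cos Θ ≠ 0 := by
    intro h0
    rw [h0] at h
    norm_num at h
    linarith
  rw [lam, max_eq_left h, tan_eq_sin_div_cos]
  field_simp

/-- Joint continuity of `lam` on `|c| < r`. -/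
lemma continuousOn_lam (r : ℝ) :
    ContinuousOn (fun p : ℝ × ℝ => lam r p.1 p.2) {p | p.1 ^ 2 < r ^ 2} := by
  unfold lam
  refine ContinuousOn.div (by fun_prop) (by fun_prop) fun p hp => ?_
  exact (lam_den_pos hp p.2).ne'

/-- Crude bound. -/
lemma abs_lam_le {r c : ℝ} (hc : c ^ 2 < r ^ 2) (Θ : ℝ) : |lam r c Θ| ≤ |c| / (r ^ 2 - c ^ 2) := by
  have h1 : 0 < r ^ 2 - c ^ 2 := by linarith
  unfold lam
  rw [abs_div, abs_mul, abs_mul, abs_of_pos (lam_den_pos hc Θ)]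
  have h2 : |c| * |sin Θ| * |cos Θ| ≤ |c| := by
    calc |c| * |sin Θ| * |cos Θ| ≤ |c| * 1 * 1 := by
          gcongr
          · exact abs_sin_le_one Θ
          · exact abs_cos_le_one Θ
      _ = |c| := by ring
  exact div_le_div₀ (abs_nonneg _) h2 h1 (le_max_right _ _)

/-! ## The inequality KI -/

lemma abs_sin_lt_self {x : ℝ} (hx : 0 < x) : |sin x| < x := by
  rw [abs_lt]
  refine ⟨?_, sin_lt hx⟩
  by_contra h
  push Not at h
  have h2 := neg_one_le_sin x
  have hx1 : x ≤ 1 := by linarith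
  have := sin_pos_of_pos_of_le_one hx hx1
  linarith

/-- The core of KI. -/
lemma lam_sub_le {r c ε D : ℝ} (hr : r ^ 2 < 1) (hc0 : 0 ≤ c) (hc : c ^ 2 < r ^ 2) (hε : 0 < ε)
    (hD : c * ε ≤ (r ^ 2 - c ^ 2) * D) (Θ : ℝ) :
    lam r c Θ - lam r c (Θ + ε) ≤ D * (1 + |sin ε| / ε) / 2 := by
  have h1 : 0 < 1 - c ^ 2 := by linarith
  have h2 : 0 < r ^ 2 - c ^ 2 := by linarith
  have hκ : 0 < (r ^ 2 - c ^ 2) / (1 - c ^ 2) := by positivity
  have hκ1 : (r ^ 2 - c ^ 2) / (1 - c ^ 2) < 1 := by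
    rw [div_lt_one h1]
    linarith
  rw [lam_eq (by linarith), lam_eq (by linarith), ← mul_sub]
  have h3 := ct_sub_le' hκ hκ1 Θ hε.le
  calc c / (1 - c ^ 2) * (ct ((r ^ 2 - c ^ 2) / (1 - c ^ 2)) Θ -
        ct ((r ^ 2 - c ^ 2) / (1 - c ^ 2)) (Θ + ε))
      ≤ c / (1 - c ^ 2) * ((ε + |sin ε|) / (2 * ((r ^ 2 - c ^ 2) / (1 - c ^ 2)))) := by
        gcongr
    _ = (c * ε) * ((1 + |sin ε| / ε) / (2 * (r ^ 2 - c ^ 2))) := by
        field_simp
    _ ≤ ((r ^ 2 - c ^ 2) * D) * ((1 + |sin ε| / ε) / (2 * (r ^ 2 - c ^ 2))) := by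
        gcongr
    _ = D * (1 + |sin ε| / ε) / 2 := by
        field_simp

/-- Deflections: `E = F + 2π` (`r = s`, `T = 2π`) or `E = π - G` (`r = b`, `T = π`). -/
structure Defl (r T : ℝ) (E : ℝ → ℝ) : Prop where
  r0 : 0 < r
  r1 : r ^ 2 < 1
  per : ∀ c Θ, lam r c (Θ + T) = lam r c Θ
  smooth : ContDiff ℝ ∞ E
  neg : ∀ c, E (-c) = T - E c
  zero : E (-r) = T
  deriv_neg : ∀ c, -r < c → c < r → deriv E c < 0
  key : ∀ c, 0 ≤ c → c < r → c * E c ≤ (r ^ 2 - c ^ 2) * (-deriv E c)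

/-- The gain in KI. -/
noncomputable def gain (E : ℝ → ℝ) (c : ℝ) : ℝ :=
  -deriv E c * (1 - |sin (E |c|)| / E |c|) / 2

namespace Defl

variable {r T : ℝ} {E : ℝ → ℝ} (h : Defl r T E)

include h

lemma anti : StrictAntiOn E (Icc (-r) r) := by
  apply strictAntiOn_of_deriv_neg (convex_Icc _ _) h.smooth.continuous.continuousOn
  intro x hx
  rw [interior_Icc] at hx
  exact h.deriv_neg x hx.1 hx.2

lemma E_r : E r = 0 := by
  have h1 := h.neg (-r)
  rw [neg_neg, h.zero] at h1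
  linarith

lemma E_pos {c : ℝ} (h1 : -r ≤ c) (h2 : c < r) : 0 < E c := by
  rw [← h.E_r]
  exact h.anti ⟨h1, h2.le⟩ ⟨by linarith [h.r0], le_rfl⟩ h2

lemma deriv_even (c : ℝ) : deriv E (-c) = deriv E c := by
  have h1 : HasDerivAt E (deriv E (-c)) (-c) :=
    ((h.smooth.differentiable (by simp)) (-c)).hasDerivAt
  have h2 : HasDerivAt (fun x => E (-x)) (-deriv E (-c)) c := by
    have := h1.scomp c (hasDerivAt_neg c)
    simpa [Function.comp_def] using this
  have h3 : HasDerivAt (fun x => T - E x) (-deriv E c) c :=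
    ((h.smooth.differentiable (by simp)) c).hasDerivAt.const_sub T
  have h4 : (fun x => E (-x)) = fun x => T - E x := funext h.neg
  rw [h4] at h2
  have := h2.unique h3
  linarith

lemma gain_pos {c : ℝ} (hc : |c| < r) : 0 < gain E c := by
  have h1 : 0 < E |c| := h.E_pos (by linarith [h.r0, abs_nonneg c]) hc
  have h2 := h.deriv_neg c (abs_lt.mp hc).1 (abs_lt.mp hc).2
  have h3 : |sin (E |c|)| / E |c| < 1 := by
    rw [div_lt_one h1]
    exact abs_sin_lt_self h1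
  unfold gain
  have : 0 < -deriv E c * (1 - |sin (E |c|)| / E |c|) := mul_pos (by linarith) (by linarith)
  linarith

lemma continuousOn_gain : ContinuousOn (gain E) {c | |c| < r} := by
  have h1 : Continuous (deriv E) := h.smooth.continuous_deriv (by simp)
  have h2 : Continuous E := h.smooth.continuous
  unfold gain
  refine ContinuousOn.div_const (ContinuousOn.mul h1.neg.continuousOn ?_) 2
  refine ContinuousOn.sub continuousOn_const (ContinuousOn.div (by fun_prop) (by fun_prop) ?_)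
  intro c hc
  exact (h.E_pos (by linarith [h.r0, abs_nonneg c]) hc).ne'

/-- KI for nonnegative `c`. -/
lemma KI_nonneg {c : ℝ} (h0 : 0 ≤ c) (hc : c < r) (Θ : ℝ) :
    gain E c ≤ lam r c (Θ + E c) - lam r c Θ - deriv E c := by
  have h1 := lam_sub_le h.r1 h0 (by nlinarith) (h.E_pos (by linarith [h.r0]) hc)
    (h.key c h0 hc) Θ
  unfold gain
  rw [abs_of_nonneg h0]
  linarith

/-- **KI**. -/
lemma KI {c : ℝ} (hc : |c| < r) (Θ : ℝ) :
    gain E c ≤ lam r c (Θ + E c) - lam r c Θ - deriv E c := by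
  rcases le_total 0 c with h0 | h0
  · exact h.KI_nonneg h0 (abs_lt.mp hc).2 Θ
  · have h1 := h.KI_nonneg (c := -c) (by linarith) (by linarith [(abs_lt.mp hc).1]) (Θ + E c)
    have h2 : Θ + E c + E (-c) = Θ + T := by rw [h.neg]; ring
    rw [h2, h.per, lam_neg_left, lam_neg_left, h.deriv_even] at h1
    have h3 : gain E (-c) = gain E c := by
      unfold gain
      rw [h.deriv_even, abs_neg]
    rw [h3] at h1
    linarith

lemma KI_nonneg' {c : ℝ} (hc : |c| < r) (Θ : ℝ) :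
    0 < lam r c (Θ + E c) - lam r c Θ - deriv E c :=
  (h.gain_pos hc).trans_le (h.KI hc Θ)

/-- KI with a uniform lower bound on compact parts. -/
lemma KI_compact {a : ℝ} (ha : a < r) :
    ∃ η, 0 < η ∧ ∀ c, |c| ≤ a → ∀ Θ, η ≤ lam r c (Θ + E c) - lam r c Θ - deriv E c := by
  rcases lt_or_ge a 0 with h0 | h0
  · exact ⟨1, one_pos, fun c hc => absurd (abs_nonneg c) (by linarith)⟩
  have hK : IsCompact (Icc (-a) a) := isCompact_Icc
  obtain ⟨c0, hc0, hmin⟩ := hK.exists_isMinOn ⟨0, by simpa using h0⟩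
    (h.continuousOn_gain.mono fun c hc => lt_of_le_of_lt (abs_le.mpr hc) ha)
  refine ⟨gain E c0, h.gain_pos (lt_of_le_of_lt (abs_le.mpr hc0) ha), fun c hc Θ => ?_⟩
  exact (hmin (abs_le.mp hc)).trans (h.KI (lt_of_le_of_lt hc ha) Θ)

end Defl

open T in
lemma defl_F {b s : ℝ} {F G : ℝ → ℝ} (h : Tw b s F G) : Defl s (2 * π) (fun c => F c + 2 * π) where
  r0 := h.s0
  r1 := by nlinarith [h.b0, h.sb]
  per c Θ := by
    have := (lam_periodic s c).nat_mul 2 Θ
    simpa using this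
  smooth := h.F_smooth.add contDiff_const
  neg c := by rw [h.F_neg]; ring
  zero := by rw [h.F_zero _ le_rfl]; ring
  deriv_neg c h1 h2 := by
    rw [deriv_add_const]
    exact h.F_deriv c h1 h2
  key c h1 h2 := by
    rw [deriv_add_const]
    exact h.F_key c h1 h2

open T in
lemma defl_G {b s : ℝ} {F G : ℝ → ℝ} (h : Tw b s F G) : Defl b π (fun x => π - G x) where
  r0 := h.b0
  r1 := by nlinarith [h.s0, h.sb]
  per c Θ := lam_add_pi b c Θ
  smooth := contDiff_const.sub h.G_smooth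
  neg c := by rw [h.G_neg]
  zero := by rw [h.G_zero _ le_rfl]; ring
  deriv_neg c h1 h2 := by
    rw [deriv_const_sub]
    linarith [h.G_deriv c h1 h2]
  key c h1 h2 := by
    rw [deriv_const_sub, neg_neg]
    exact h.G_key c h1 h2

open T in
/-- KI for the caps `p`. -/
theorem KI_F {b s : ℝ} {F G : ℝ → ℝ} (h : Tw b s F G) {c : ℝ} (hc : |c| < s) (Θ : ℝ) :
    0 < lam s c (Θ + F c) - lam s c Θ - deriv F c := by
  have h1 := (defl_F h).KI_nonneg' hc Θ
  rw [deriv_add_const, ← add_assoc, (defl_F h).per] at h1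
  exact h1

open T in
theorem KI_F_compact {b s : ℝ} {F G : ℝ → ℝ} (h : Tw b s F G) {a : ℝ} (ha : a < s) :
    ∃ η, 0 < η ∧ ∀ c, |c| ≤ a → ∀ Θ, η ≤ lam s c (Θ + F c) - lam s c Θ - deriv F c := by
  obtain ⟨η, h0, h1⟩ := (defl_F h).KI_compact ha
  refine ⟨η, h0, fun c hc Θ => ?_⟩
  have h2 := h1 c hc Θ
  rw [deriv_add_const, ← add_assoc, (defl_F h).per] at h2
  exact h2

open T in
/-- KI for the caps `q`. -/
theorem KI_G {b s : ℝ} {F G : ℝ → ℝ} (h : Tw b s F G) {x : ℝ} (hx : |x| < b) (ψ : ℝ) :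
    0 < lam b x ψ - lam b x (ψ + G x) + deriv G x := by
  have h1 := (defl_G h).KI_nonneg' hx (ψ + G x)
  rw [deriv_const_sub, show ψ + G x + (π - G x) = ψ + π by ring, lam_add_pi] at h1
  linarith

open T in
theorem KI_G_compact {b s : ℝ} {F G : ℝ → ℝ} (h : Tw b s F G) {a : ℝ} (ha : a < b) :
    ∃ η, 0 < η ∧ ∀ x, |x| ≤ a → ∀ ψ, η ≤ lam b x ψ - lam b x (ψ + G x) + deriv G x := by
  obtain ⟨η, h0, h1⟩ := (defl_G h).KI_compact ha
  refine ⟨η, h0, fun x hx ψ => ?_⟩
  have h2 := h1 x hx (ψ + G x)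
  rw [deriv_const_sub, show ψ + G x + (π - G x) = ψ + π by ring, lam_add_pi] at h2
  linarith

end Pool.Agent.Lib.MP_d2b992_gt.Dyn
end

section
/-!
# The quadratic form `N²` (module D2 of the dynamics), in scalar form

A unit vector is `n = (x, D, c)`, a tangent vector `m = (x', D', c')`; in the formulas the tangent
vector is `(u, v, w)`.

* `NP s x D c u v w`: the form `-dc (dΘ - λ dc)`, `Θ' = (x v - D u) / (1 - c²)`;
* `NQ b x D c u v w`: the form `dx (dψ - τ dx)`, `ψ' = (D w - c v) / (1 - x²)`.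
-/
set_option autoImplicit false

open Real Set Filter Topology
open scoped ContDiff

namespace Pool.Agent.Lib.MP_d2b992_gt.Dyn

namespace NormM

/-- `lam` in terms of the unit vector: `x = √(1 - c²) sin Θ`, `D = ∓ √(1 - c²) cos Θ`. -/
noncomputable def lamS (r c x D : ℝ) : ℝ := c * x * D / ((1 - c ^ 2) * max (D ^ 2) (r ^ 2 - c ^ 2))

/-- The form `-dc (dΘ - λ dc)`. -/
noncomputable def NP (s x D c u v w : ℝ) : ℝ :=
  -w * ((x * v - D * u) / (1 - c ^ 2) + lamS s c x D * w)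

/-- The form `dx (dψ - τ dx)`. -/
noncomputable def NQ (b x D c u v w : ℝ) : ℝ :=
  u * ((D * w - c * v) / (1 - x ^ 2) - lamS b x c D * u)

lemma lamS_eq {r c x D Θ : ℝ} (hc : c ^ 2 < 1) (hx : x = √(1 - c ^ 2) * sin Θ)
    (hD : D = √(1 - c ^ 2) * cos Θ) : lamS r c x D = lam r c Θ := by
  have h1 : 0 < 1 - c ^ 2 := by linarith
  have h2 : √(1 - c ^ 2) ^ 2 = 1 - c ^ 2 := Real.sq_sqrt h1.le
  have h3 : D ^ 2 = (1 - c ^ 2) * cos Θ ^ 2 := by rw [hD, mul_pow, h2]
  unfold lamS lam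
  rw [h3]
  have h4 : c * x * D = (1 - c ^ 2) * (c * sin Θ * cos Θ) := by
    rw [hx, hD]
    calc c * (√(1 - c ^ 2) * sin Θ) * (√(1 - c ^ 2) * cos Θ)
        = √(1 - c ^ 2) ^ 2 * (c * sin Θ * cos Θ) := by ring
      _ = _ := by rw [h2]
  rw [h4, mul_div_mul_left _ _ h1.ne']

lemma lamS_neg_D (r c x D : ℝ) : lamS r c x (-D) = -lamS r c x D := by
  simp [lamS, neg_div]

/-- polar coordinates -/
lemma exists_angle {a x D : ℝ} (ha : 0 < a) (h : x ^ 2 + D ^ 2 = a) :
    ∃ Θ, x = √a * sin Θ ∧ D = √a * cos Θ := by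
  have h0 : (Complex.mk D x) ≠ 0 := by
    intro h1
    have hD : D = 0 := by simpa using congrArg Complex.re h1
    have hx : x = 0 := by simpa using congrArg Complex.im h1
    rw [hD, hx] at h
    norm_num at h
    linarith
  have hn : ‖(Complex.mk D x)‖ = √a := by
    rw [Complex.norm_eq_sqrt_sq_add_sq]
    congr 1
    simp only
    linarith
  refine ⟨Complex.arg (Complex.mk D x), ?_, ?_⟩
  · rw [← hn, Complex.norm_mul_sin_arg]
  · rw [← hn, Complex.norm_mul_cos_arg]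

/-- The two forms agree on the squares. -/
lemma NP_eq {s x D c u v w : ℝ} (hn : x ^ 2 + D ^ 2 + c ^ 2 = 1)
    (hm : x * u + D * v + c * w = 0) (hc : c ^ 2 < s ^ 2) (hD : s ^ 2 - c ^ 2 ≤ D ^ 2) :
    NP s x D c u v w = u * w / D := by
  have hD0 : D ≠ 0 := by
    rintro rfl
    norm_num at hD
    linarith
  have h1 : 0 < 1 - c ^ 2 := by nlinarith [sq_nonneg x]
  have h1' : 1 - c ^ 2 ≠ 0 := h1.ne'
  have hv : v = -(x * u + c * w) / D := by
    field_simp
    linarith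
  unfold NP lamS
  rw [max_eq_left hD, hv]
  have h2 : x ^ 2 = 1 - c ^ 2 - D ^ 2 := by linarith
  field_simp
  ring_nf
  have h3 : x ^ 2 = 1 - c ^ 2 - D ^ 2 := by linarith
  rw [h3]
  ring

lemma NQ_eq {b x D c u v w : ℝ} (hn : x ^ 2 + D ^ 2 + c ^ 2 = 1)
    (hm : x * u + D * v + c * w = 0) (hx : x ^ 2 < b ^ 2) (hD : b ^ 2 - x ^ 2 ≤ D ^ 2) :
    NQ b x D c u v w = u * w / D := by
  have h := NP_eq (s := b) (x := c) (D := D) (c := x) (u := w) (v := v) (w := u) (by linarith)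
    (by linarith) hx hD
  rw [mul_comm u w, ← h]
  unfold NQ NP
  ring

lemma NP_rho (s x D c u v w : ℝ) : NP s x (-D) (-c) u (-v) (-w) = NP s x D c u v w := by
  unfold NP lamS
  simp only [even_two.neg_pow]
  ring

lemma NQ_rho (b x D c u v w : ℝ) : NQ b x (-D) (-c) u (-v) (-w) = NQ b x D c u v w := by
  unfold NQ lamS
  simp only [even_two.neg_pow]
  ring

/-- Rotation of `(x, D)` about the `c`-axis by a function `F` of `c` with `F(c) = φ`,
`F'(c) = f`. -/
lemma NP_rot {s x D c u v w φ f : ℝ} (hn : x ^ 2 + D ^ 2 + c ^ 2 = 1) (hc : c ^ 2 < 1) :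
    NP s (x * cos φ - D * sin φ) (x * sin φ + D * cos φ) c
      (u * cos φ - v * sin φ - f * w * (x * sin φ + D * cos φ))
      (u * sin φ + v * cos φ + f * w * (x * cos φ - D * sin φ)) w =
    NP s x D c u v w + w ^ 2 *
      (-lamS s c (x * cos φ - D * sin φ) (x * sin φ + D * cos φ) + lamS s c x D - f) := by
  have h1 : 1 - c ^ 2 ≠ 0 := by linarith
  have h2 : (x * cos φ - D * sin φ) * (u * sin φ + v * cos φ + f * w * (x * cos φ - D * sin φ)) -
      (x * sin φ + D * cos φ) * (u * cos φ - v * sin φ - f * w * (x * sin φ + D * cos φ)) =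
      (x * v - D * u) + f * w * (1 - c ^ 2) := by
    have h3 := sin_sq_add_cos_sq φ
    have h4 : x ^ 2 + D ^ 2 = 1 - c ^ 2 := by linarith
    calc _ = (x * v - D * u) * (sin φ ^ 2 + cos φ ^ 2) +
          f * w * ((x ^ 2 + D ^ 2) * (sin φ ^ 2 + cos φ ^ 2)) := by ring
      _ = _ := by rw [h3, h4]; ring
  unfold NP
  rw [h2, add_div, mul_div_assoc, div_self h1]
  ring

lemma NQ_eq_NP (b x D c u v w : ℝ) : NQ b x D c u v w = NP b c D x w v u := by
  unfold NQ NP
  ring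

/-- Rotation of `(D, c)` about the `x`-axis by a function `G` of `x` with `G(x) = φ`,
`G'(x) = g`. -/
lemma NQ_rot {b x D c u v w φ g : ℝ} (hn : x ^ 2 + D ^ 2 + c ^ 2 = 1) (hx : x ^ 2 < 1) :
    NQ b x (D * cos φ - c * sin φ) (D * sin φ + c * cos φ) u
      (v * cos φ - w * sin φ - g * u * (D * sin φ + c * cos φ))
      (v * sin φ + w * cos φ + g * u * (D * cos φ - c * sin φ)) =
    NQ b x D c u v w + u ^ 2 *
      (g - lamS b x (D * sin φ + c * cos φ) (D * cos φ - c * sin φ) + lamS b x c D) := by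
  have h1 : 1 - x ^ 2 ≠ 0 := by linarith
  have h2 : (D * cos φ - c * sin φ) * (v * sin φ + w * cos φ + g * u * (D * cos φ - c * sin φ)) -
      (D * sin φ + c * cos φ) * (v * cos φ - w * sin φ - g * u * (D * sin φ + c * cos φ)) =
      (D * w - c * v) + g * u * (1 - x ^ 2) := by
    have h3 := sin_sq_add_cos_sq φ
    have h4 : D ^ 2 + c ^ 2 = 1 - x ^ 2 := by linarith
    calc _ = (D * w - c * v) * (sin φ ^ 2 + cos φ ^ 2) +
          g * u * ((D ^ 2 + c ^ 2) * (sin φ ^ 2 + cos φ ^ 2)) := by ring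
      _ = _ := by rw [h3, h4]; ring
  unfold NQ
  rw [h2, add_div, mul_div_assoc, div_self h1]
  ring

/-- The increment of `NP` under `K_p`. -/
lemma NP_Kp {s x D c u v w φ f : ℝ} (hn : x ^ 2 + D ^ 2 + c ^ 2 = 1) (hc : c ^ 2 < 1) :
    ∃ Θ, x = √(1 - c ^ 2) * sin Θ ∧ D = -(√(1 - c ^ 2) * cos Θ) ∧
      NP s (x * cos φ - D * sin φ) (x * sin φ + D * cos φ) c
        (u * cos φ - v * sin φ - f * w * (x * sin φ + D * cos φ))
        (u * sin φ + v * cos φ + f * w * (x * cos φ - D * sin φ)) w =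
      NP s x D c u v w + w ^ 2 * (lam s c (Θ + φ) - lam s c Θ - f) := by
  obtain ⟨Θ, h1, h2⟩ := exists_angle (a := 1 - c ^ 2) (x := x) (D := -D) (by linarith)
    (by linarith)
  refine ⟨Θ, h1, by linarith, ?_⟩
  rw [NP_rot hn hc]
  have h3 : lamS s c x (-D) = lam s c Θ := lamS_eq hc h1 h2
  have h4 : lamS s c (x * cos φ - D * sin φ) (-(x * sin φ + D * cos φ)) = lam s c (Θ + φ) := by
    have hD : D = -(√(1 - c ^ 2) * cos Θ) := by linarith
    apply lamS_eq hc
    · rw [sin_add, h1, hD]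
      ring
    · rw [cos_add, h1, hD]
      ring
  rw [lamS_neg_D] at h3 h4
  rw [← h3, ← h4]
  ring

/-- The increment of `NQ` under `K_q`. -/
lemma NQ_Kq {b x D c u v w φ g : ℝ} (hn : x ^ 2 + D ^ 2 + c ^ 2 = 1) (hx : x ^ 2 < 1) :
    ∃ ψ, c = √(1 - x ^ 2) * sin ψ ∧ D = √(1 - x ^ 2) * cos ψ ∧
      NQ b x (D * cos φ - c * sin φ) (D * sin φ + c * cos φ) u
        (v * cos φ - w * sin φ - g * u * (D * sin φ + c * cos φ))
        (v * sin φ + w * cos φ + g * u * (D * cos φ - c * sin φ)) =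
      NQ b x D c u v w + u ^ 2 * (lam b x ψ - lam b x (ψ + φ) + g) := by
  obtain ⟨ψ, h1, h2⟩ := exists_angle (a := 1 - x ^ 2) (x := c) (D := D) (by linarith)
    (by linarith)
  refine ⟨ψ, h1, h2, ?_⟩
  rw [NQ_rot hn hx]
  have h3 : lamS b x c D = lam b x ψ := lamS_eq hx h1 h2
  have h4 : lamS b x (D * sin φ + c * cos φ) (D * cos φ - c * sin φ) = lam b x (ψ + φ) := by
    apply lamS_eq hx
    · rw [sin_add, h1, h2]
      ring
    · rw [cos_add, h1, h2]
      ring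
  rw [← h3, ← h4]
  ring

/-! ## The form `N²` on the sphere -/

/-- The form `N²`: `NP` where `|c| < s`, `NQ` elsewhere. -/
noncomputable def Nsc (b s x D c u v w : ℝ) : ℝ :=
  open Classical in if |c| < s then NP s x D c u v w else NQ b x D c u v w

lemma Nsc_of_c {b s x D c u v w : ℝ} (hc : |c| < s) : Nsc b s x D c u v w = NP s x D c u v w := by
  unfold Nsc
  rw [if_pos hc]

section

variable {b s x D c u v w : ℝ}

lemma sq_lt_of_abs {a r : ℝ} (h : |a| < r) : a ^ 2 < r ^ 2 := by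
  rw [sq_lt_sq, abs_of_pos (lt_of_le_of_lt (abs_nonneg a) h)]
  exact h

lemma sq_le_of_abs {a r : ℝ} (h : |a| ≤ r) : a ^ 2 ≤ r ^ 2 := by
  rw [sq_le_sq, abs_of_nonneg ((abs_nonneg a).trans h)]
  exact h

/-- On the squares `N² = dx dc / D`. -/
lemma Nsc_square (hb : s ^ 2 + b ^ 2 = 1) (hn : x ^ 2 + D ^ 2 + c ^ 2 = 1)
    (hm : x * u + D * v + c * w = 0) (hx : |x| < b) (hc : |c| < s) :
    Nsc b s x D c u v w = u * w / D := by
  rw [Nsc_of_c hc]
  have h1 := sq_lt_of_abs hx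
  exact NP_eq hn hm (sq_lt_of_abs hc) (by linarith)

lemma Nsc_of_x (hb : s ^ 2 + b ^ 2 = 1) (hn : x ^ 2 + D ^ 2 + c ^ 2 = 1)
    (hm : x * u + D * v + c * w = 0) (hx : |x| < b) :
    Nsc b s x D c u v w = NQ b x D c u v w := by
  by_cases hc : |c| < s
  · rw [Nsc_square hb hn hm hx hc]
    have h1 := sq_lt_of_abs hc
    exact (NQ_eq hn hm (sq_lt_of_abs hx) (by linarith)).symm
  · unfold Nsc
    rw [if_neg hc]

lemma Nsc_rho : Nsc b s x (-D) (-c) u (-v) (-w) = Nsc b s x D c u v w := by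
  unfold Nsc
  rw [abs_neg, NP_rho, NQ_rho]

end

section

open T

variable {b s : ℝ} {F G : ℝ → ℝ} (h : Tw b s F G)

include h

lemma s_lt_one : s ^ 2 < 1 := by nlinarith [h.b0, h.sb]

lemma b_lt_one : b ^ 2 < 1 := by nlinarith [h.s0, h.sb]

lemma F_ge {c : ℝ} (hc : s ≤ c) : F c = -(2 * π) := by
  have h1 := h.F_neg (-c)
  rw [neg_neg, h.F_zero (-c) (by linarith)] at h1
  linarith

lemma G_ge {x : ℝ} (hx : b ≤ x) : G x = π := by
  have h1 := h.G_neg (-x)
  rw [neg_neg, h.G_zero (-x) (by linarith)] at h1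
  linarith

/-- `F' = 0` outside `(-s, s)`. -/
lemma deriv_F_zero {c : ℝ} (hc : s ≤ |c|) : deriv F c = 0 := by
  have hd : HasDerivAt F (deriv F c) c := ((h.F_smooth.differentiable (by simp)) c).hasDerivAt
  rcases le_abs.mp hc with h1 | h1
  · have h2 : HasDerivWithinAt F 0 (Ici c) c :=
      (hasDerivWithinAt_const c (Ici c) (-(2 * π))).congr
        (fun y hy => F_ge h (h1.trans hy)) (F_ge h h1)
    exact (uniqueDiffWithinAt_Ici c).eq_deriv _ hd.hasDerivWithinAt h2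
  · have h2 : HasDerivWithinAt F 0 (Iic c) c :=
      (hasDerivWithinAt_const c (Iic c) (0 : ℝ)).congr
        (fun y hy => h.F_zero y (by have : y ≤ c := hy; linarith)) (h.F_zero c (by linarith))
    exact (uniqueDiffWithinAt_Iic c).eq_deriv _ hd.hasDerivWithinAt h2

/-- `G' = 0` outside `(-b, b)`. -/
lemma deriv_G_zero {x : ℝ} (hx : b ≤ |x|) : deriv G x = 0 := by
  have hd : HasDerivAt G (deriv G x) x := ((h.G_smooth.differentiable (by simp)) x).hasDerivAt
  rcases le_abs.mp hx with h1 | h1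
  · have h2 : HasDerivWithinAt G 0 (Ici x) x :=
      (hasDerivWithinAt_const x (Ici x) π).congr
        (fun y hy => G_ge h (h1.trans hy)) (G_ge h h1)
    exact (uniqueDiffWithinAt_Ici x).eq_deriv _ hd.hasDerivWithinAt h2
  · have h2 : HasDerivWithinAt G 0 (Iic x) x :=
      (hasDerivWithinAt_const x (Iic x) (0 : ℝ)).congr
        (fun y hy => h.G_zero y (by have : y ≤ x := hy; linarith)) (h.G_zero x (by linarith))
    exact (uniqueDiffWithinAt_Iic x).eq_deriv _ hd.hasDerivWithinAt h2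

/-- **`K_p` does not decrease `N²`.** -/
theorem Nsc_Kp {x D c u v w : ℝ} (hn : x ^ 2 + D ^ 2 + c ^ 2 = 1) :
    Nsc b s x D c u v w ≤
      Nsc b s (x * cos (F c) - D * sin (F c)) (x * sin (F c) + D * cos (F c)) c
        (u * cos (F c) - v * sin (F c) - deriv F c * w * (x * sin (F c) + D * cos (F c)))
        (u * sin (F c) + v * cos (F c) + deriv F c * w * (x * cos (F c) - D * sin (F c))) w := by
  by_cases hc : |c| < s
  · rw [Nsc_of_c hc, Nsc_of_c hc]
    have hs := s_lt_one h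
    have hc1 : c ^ 2 < 1 := (sq_lt_of_abs hc).trans hs
    obtain ⟨Θ, -, -, h1⟩ := NP_Kp (s := s) (u := u) (v := v) (w := w) (φ := F c)
      (f := deriv F c) hn hc1
    rw [h1]
    have := mul_nonneg (sq_nonneg w) (KI_F h hc Θ).le
    linarith
  · push Not at hc
    have h1 : cos (F c) = 1 ∧ sin (F c) = 0 := by
      rcases le_abs.mp hc with h2 | h2
      · rw [F_ge h h2]
        simp
      · rw [h.F_zero c (by linarith)]
        simp
    rw [deriv_F_zero h hc, h1.1, h1.2]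
    simp

/-- `K_p` increases `N²` uniformly on compact parts. -/
theorem Nsc_Kp_compact {c1 : ℝ} (hc1 : c1 < s) : ∃ η, 0 < η ∧
    ∀ {x D c u v w : ℝ}, x ^ 2 + D ^ 2 + c ^ 2 = 1 → |c| ≤ c1 →
    Nsc b s x D c u v w + η * w ^ 2 ≤
      Nsc b s (x * cos (F c) - D * sin (F c)) (x * sin (F c) + D * cos (F c)) c
        (u * cos (F c) - v * sin (F c) - deriv F c * w * (x * sin (F c) + D * cos (F c)))
        (u * sin (F c) + v * cos (F c) + deriv F c * w * (x * cos (F c) - D * sin (F c))) w := by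
  obtain ⟨η, h0, h1⟩ := KI_F_compact h hc1
  refine ⟨η, h0, ?_⟩
  intro x D c u v w hn hc
  have hc' : |c| < s := lt_of_le_of_lt hc hc1
  rw [Nsc_of_c hc', Nsc_of_c hc']
  have hc2 : c ^ 2 < 1 := (sq_lt_of_abs hc').trans (s_lt_one h)
  obtain ⟨Θ, -, -, h2⟩ := NP_Kp (s := s) (u := u) (v := v) (w := w) (φ := F c)
    (f := deriv F c) hn hc2
  rw [h2]
  have := mul_le_mul_of_nonneg_left (h1 c hc Θ) (sq_nonneg w)
  linarith

omit h in
/-- the image of a unit vector and of a tangent vector under `K_q` -/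
lemma Kq_unit {x D c φ : ℝ} (hn : x ^ 2 + D ^ 2 + c ^ 2 = 1) :
    x ^ 2 + (D * cos φ - c * sin φ) ^ 2 + (D * sin φ + c * cos φ) ^ 2 = 1 := by
  have := sin_sq_add_cos_sq φ
  calc _ = x ^ 2 + (D ^ 2 + c ^ 2) * (sin φ ^ 2 + cos φ ^ 2) := by ring
    _ = 1 := by rw [this]; linarith

omit h in
lemma Kq_tangent {x D c u v w φ g : ℝ} (hm : x * u + D * v + c * w = 0) :
    x * u + (D * cos φ - c * sin φ) *
        (v * cos φ - w * sin φ - g * u * (D * sin φ + c * cos φ)) +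
      (D * sin φ + c * cos φ) *
        (v * sin φ + w * cos φ + g * u * (D * cos φ - c * sin φ)) = 0 := by
  have := sin_sq_add_cos_sq φ
  calc _ = x * u + (D * v + c * w) * (sin φ ^ 2 + cos φ ^ 2) := by ring
    _ = 0 := by rw [this]; linarith

/-- **`K_q` does not decrease `N²`.** -/
theorem Nsc_Kq {x D c u v w : ℝ} (hn : x ^ 2 + D ^ 2 + c ^ 2 = 1)
    (hm : x * u + D * v + c * w = 0) :
    Nsc b s x D c u v w ≤
      Nsc b s x (D * cos (G x) - c * sin (G x)) (D * sin (G x) + c * cos (G x)) u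
        (v * cos (G x) - w * sin (G x) - deriv G x * u * (D * sin (G x) + c * cos (G x)))
        (v * sin (G x) + w * cos (G x) + deriv G x * u * (D * cos (G x) - c * sin (G x))) := by
  by_cases hx : |x| < b
  · rw [Nsc_of_x h.sb hn hm hx, Nsc_of_x h.sb (Kq_unit hn) (Kq_tangent hm) hx]
    have hx1 : x ^ 2 < 1 := (sq_lt_of_abs hx).trans (b_lt_one h)
    obtain ⟨ψ, -, -, h1⟩ := NQ_Kq (b := b) (u := u) (v := v) (w := w) (φ := G x)
      (g := deriv G x) hn hx1
    rw [h1]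
    have := mul_nonneg (sq_nonneg u) (KI_G h hx ψ).le
    linarith
  · push Not at hx
    rw [deriv_G_zero h hx]
    rcases le_abs.mp hx with h2 | h2
    · rw [G_ge h h2]
      simp only [cos_pi, sin_pi]
      have := Nsc_rho (b := b) (s := s) (x := x) (D := D) (c := c) (u := u) (v := v) (w := w)
      rw [← this]
      apply le_of_eq
      congr 1 <;> ring
    · rw [h.G_zero x (by linarith)]
      simp

/-- `K_q` increases `N²` uniformly on compact parts. -/
theorem Nsc_Kq_compact {x1 : ℝ} (hx1 : x1 < b) : ∃ η, 0 < η ∧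
    ∀ {x D c u v w : ℝ}, x ^ 2 + D ^ 2 + c ^ 2 = 1 → x * u + D * v + c * w = 0 → |x| ≤ x1 →
    Nsc b s x D c u v w + η * u ^ 2 ≤
      Nsc b s x (D * cos (G x) - c * sin (G x)) (D * sin (G x) + c * cos (G x)) u
        (v * cos (G x) - w * sin (G x) - deriv G x * u * (D * sin (G x) + c * cos (G x)))
        (v * sin (G x) + w * cos (G x) + deriv G x * u * (D * cos (G x) - c * sin (G x))) := by
  obtain ⟨η, h0, h1⟩ := KI_G_compact h hx1
  refine ⟨η, h0, ?_⟩
  intro x D c u v w hn hm hx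
  have hx' : |x| < b := lt_of_le_of_lt hx hx1
  rw [Nsc_of_x h.sb hn hm hx', Nsc_of_x h.sb (Kq_unit hn) (Kq_tangent hm) hx']
  have hx2 : x ^ 2 < 1 := (sq_lt_of_abs hx').trans (b_lt_one h)
  obtain ⟨ψ, -, -, h2⟩ := NQ_Kq (b := b) (u := u) (v := v) (w := w) (φ := G x)
    (g := deriv G x) hn hx2
  rw [h2]
  have := mul_le_mul_of_nonneg_left (h1 x hx ψ) (sq_nonneg u)
  linarith

end

lemma NsqP_eq {s : ℝ} (n m : V3) :
    NsqP s n m = NP s n.1 n.2.1 n.2.2 m.1 m.2.1 m.2.2 := by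
  unfold NsqP NP lamS
  rw [mul_div_assoc, add_div, mul_comm (1 - n.2.2 ^ 2) (max _ _), ← div_div]
  ring

lemma NsqQ_eq {b : ℝ} (n m : V3) :
    NsqQ b n m = NQ b n.1 n.2.1 n.2.2 m.1 m.2.1 m.2.2 := by
  unfold NsqQ NQ lamS
  rw [mul_div_assoc, sub_div, mul_comm (1 - n.1 ^ 2) (max _ _), ← div_div]
  ring

lemma Nsq_eq {b s : ℝ} (n m : V3) :
    Nsq b s n m = Nsc b s n.1 n.2.1 n.2.2 m.1 m.2.1 m.2.2 := by
  unfold Nsq Nsc
  rw [NsqP_eq, NsqQ_eq]

lemma dot_unit {n : V3} (h : dot n n = 1) : n.1 ^ 2 + n.2.1 ^ 2 + n.2.2 ^ 2 = 1 := by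
  unfold dot at h
  linarith

end NormM

open NormM T in
theorem specNORM : SpecNORM := by
  intro b s F G h
  refine ⟨fun n m hn hm _ => ?_, fun n m hn hm hc hx => ?_, fun n m => ?_, fun x1 c1 hx1 hc1 => ?_⟩
  · rw [Nsq_eq, Nsq_eq, Nsq_eq]
    exact ⟨Nsc_Kp h (dot_unit hn), Nsc_Kq h (dot_unit hn) hm⟩
  · rw [Nsq_eq]
    exact Nsc_square h.sb (dot_unit hn) hm hx hc
  · rw [Nsq_eq, Nsq_eq]
    exact Nsc_rho
  · obtain ⟨η1, h1, h1'⟩ := Nsc_Kp_compact h hc1
    obtain ⟨η2, h2, h2'⟩ := Nsc_Kq_compact h hx1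
    refine ⟨min η1 η2, lt_min h1 h2, fun n m hn hm => ⟨fun hc => ?_, fun hx => ?_⟩⟩
    · rw [Nsq_eq, Nsq_eq]
      refine le_trans ?_ (h1' (x := n.1) (D := n.2.1) (c := n.2.2) (v := m.2.1) (w := m.2.2)
        (u := m.1) (dot_unit hn) hc)
      have := mul_le_mul_of_nonneg_right (min_le_left η1 η2) (sq_nonneg m.2.2)
      linarith
    · rw [Nsq_eq, Nsq_eq]
      refine le_trans ?_ (h2' (x := n.1) (D := n.2.1) (c := n.2.2) (v := m.2.1) (w := m.2.2)
        (u := m.1) (dot_unit hn) hm hx)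
      have := mul_le_mul_of_nonneg_right (min_le_right η1 η2) (sq_nonneg m.1)
      linarith

end Pool.Agent.Lib.MP_d2b992_gt.Dyn
end
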