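import Pool.Agent.Lib.MP_d2b992_gt.Dyn.Spec1

/-!
# RET: recurrence with slowly growing gaps

`T` is an invertible measure preserving map of a finite measure space, `U` a measurable set.  For
almost every `z ∈ U` the visit times of `z` to `U` are infinitely many and the gaps between them
grow slower than any given linear function.
-/

set_option autoImplicit false

namespace Pool.Agent.Lib.MP_d2b992_gt.Dyn.RetM

open MeasureTheory Filter Set
open scoped Classical ENNReal

variable {X : Type*} [MeasurableSpace X] (T : X ≃ᵐ X) (U : Set X)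

/-- no visit at the times `1, ..., m` -/
def D (m : ℕ) : Set X := {z | z ∈ U ∧ ∀ k, 1 ≤ k → k ≤ m → T^[k] z ∉ U}

/-- `n` is the visit number `i` -/
def A (n i : ℕ) : Set X := {z | z ∈ U ∧ T^[n] z ∈ U ∧ Nat.count (fun k => T^[k] z ∈ U) n = i}

theorem meas_iter (n : ℕ) : Measurable (T^[n]) := T.measurable.iterate n

theorem meas_D (hU : MeasurableSet U) (m : ℕ) : MeasurableSet (D T U m) := by
  have h1 : D T U m = U ∩ ⋂ k : ℕ, ⋂ _ : 1 ≤ k, ⋂ _ : k ≤ m, (T^[k]) ⁻¹' Uᶜ := by
    ext z
    simp [D]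
  rw [h1]
  refine hU.inter (MeasurableSet.iInter fun k => MeasurableSet.iInter fun _ =>
    MeasurableSet.iInter fun _ => (meas_iter T k) hU.compl)

theorem meas_count (hU : MeasurableSet U) (n : ℕ) :
    Measurable (fun z => Nat.count (fun k => T^[k] z ∈ U) n) := by
  induction n with
  | zero => simp
  | succ n ih =>
    have h1 : (fun z => Nat.count (fun k => T^[k] z ∈ U) (n + 1)) =
        fun z => Nat.count (fun k => T^[k] z ∈ U) n + if T^[n] z ∈ U then 1 else 0 := by
      funext z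
      rw [Nat.count_succ]
    rw [h1]
    exact ih.add (Measurable.ite ((meas_iter T n) hU) measurable_const measurable_const)

theorem meas_A (hU : MeasurableSet U) (n i : ℕ) : MeasurableSet (A T U n i) := by
  have h1 : A T U n i = U ∩ ((T^[n]) ⁻¹' U ∩
      (fun z => Nat.count (fun k => T^[k] z ∈ U) n) ⁻¹' {i}) := by
    ext z
    rfl
  rw [h1]
  exact hU.inter (((meas_iter T n) hU).inter ((meas_count T U hU n) (measurableSet_singleton i)))

theorem iter_symm (n : ℕ) (y : X) : T^[n] (T.symm^[n] y) = y := by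
  have h : Function.RightInverse T.symm T := T.apply_symm_apply
  exact (Function.RightInverse.iterate h n) y

/-- `T^{-n} y = T^{n'-n} (T^{-n'} y)` -/
theorem iter_symm_sub (n k : ℕ) (y : X) : T^[k] (T.symm^[n + k] y) = T.symm^[n] y := by
  rw [add_comm, Function.iterate_add_apply, iter_symm]

variable {μ : Measure X}

theorem sum_A (hT : MeasurePreserving T μ μ) (hU : MeasurableSet U) (i m : ℕ) :
    μ (⋃ n, A T U n i ∩ (T^[n]) ⁻¹' D T U m) ≤ μ (D T U m) := by
  have hmeas : ∀ n, MeasurableSet (A T U n i ∩ (T^[n]) ⁻¹' D T U m) := fun n =>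
    (meas_A T U hU n i).inter ((meas_iter T n) (meas_D T U hU m))
  have hsymm : ∀ n : ℕ, MeasurePreserving (T.symm^[n]) μ μ := fun n =>
    (MeasurePreserving.symm T hT).iterate n
  calc μ (⋃ n, A T U n i ∩ (T^[n]) ⁻¹' D T U m)
      ≤ ∑' n, μ (A T U n i ∩ (T^[n]) ⁻¹' D T U m) := measure_iUnion_le _
    _ = ∑' n, μ ((T.symm^[n]) ⁻¹' (A T U n i ∩ (T^[n]) ⁻¹' D T U m)) := by
        congr 1
        funext n
        exact ((hsymm n).measure_preimage (hmeas n).nullMeasurableSet).symm
    _ = μ (⋃ n, (T.symm^[n]) ⁻¹' (A T U n i ∩ (T^[n]) ⁻¹' D T U m)) := by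
        rw [measure_iUnion _ fun n => (hsymm n).measurable (hmeas n)]
        intro a b hab
        rw [Function.onFun, Set.disjoint_left]
        -- the times are determined
        have key : ∀ p q : ℕ, p < q → ∀ y, T.symm^[p] y ∈ A T U p i → T.symm^[q] y ∈ A T U q i →
            False := by
          intro p q hpq y hp hq
          obtain ⟨k, rfl⟩ := Nat.exists_eq_add_of_lt hpq
          have h1 : T^[k + 1] (T.symm^[p + k + 1] y) = T.symm^[p] y := by
            rw [add_assoc, iter_symm_sub]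
          have h2 : Nat.count (fun l => T^[l] (T.symm^[p + k + 1] y) ∈ U) (k + 1 + p) = i := by
            have := hq.2.2
            rwa [show k + 1 + p = p + k + 1 by ring]
          rw [Nat.count_add] at h2
          have h3 : Nat.count (fun l => T^[k + 1 + l] (T.symm^[p + k + 1] y) ∈ U) p = i := by
            have h4 : (fun l => T^[k + 1 + l] (T.symm^[p + k + 1] y) ∈ U) =
                fun l => T^[l] (T.symm^[p] y) ∈ U := by
              funext l
              rw [add_comm (k + 1) l, Function.iterate_add_apply, h1]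
            simp only [h4]
            exact hp.2.2
          have h5 : 1 ≤ Nat.count (fun l => T^[l] (T.symm^[p + k + 1] y) ∈ U) (k + 1) := by
            have h6 : Nat.count (fun l => T^[l] (T.symm^[p + k + 1] y) ∈ U) 1 = 1 := by
              rw [show (1 : ℕ) = 0 + 1 from rfl, Nat.count_succ, Nat.count_zero, if_pos]
              exact hq.1
            calc 1 = Nat.count (fun l => T^[l] (T.symm^[p + k + 1] y) ∈ U) 1 := h6.symm
              _ ≤ _ := Nat.count_monotone _ (by omega)
          omega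
        intro y hy1 hy2
        rcases lt_or_gt_of_ne hab with h | h
        · exact key a b h y hy1.1 hy2.1
        · exact key b a h y hy2.1 hy1.1
    _ ≤ μ (D T U m) := by
        apply measure_mono
        intro y hy
        obtain ⟨n, hn⟩ := mem_iUnion.mp hy
        have := hn.2
        rw [mem_preimage, iter_symm] at this
        exact this

theorem sum_D [IsFiniteMeasure μ] (hT : MeasurePreserving T μ μ) (hU : MeasurableSet U) :
    ∑' m, μ (D T U m) ≠ ∞ := by
  have hsymm : ∀ n : ℕ, MeasurePreserving (T.symm^[n]) μ μ := fun n =>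
    (MeasurePreserving.symm T hT).iterate n
  have h1 : ∑' m, μ (D T U m) = μ (⋃ m, (T.symm^[m]) ⁻¹' (D T U m)) := by
    rw [measure_iUnion _ fun n => (hsymm n).measurable (meas_D T U hU n)]
    · congr 1
      funext m
      exact ((hsymm m).measure_preimage (meas_D T U hU m).nullMeasurableSet).symm
    · intro a b hab
      rw [Function.onFun, Set.disjoint_left]
      have key : ∀ p q : ℕ, p < q → ∀ y, T.symm^[p] y ∈ D T U p → T.symm^[q] y ∈ D T U q →
          False := by
        intro p q hpq y hp hq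
        obtain ⟨k, rfl⟩ := Nat.exists_eq_add_of_lt hpq
        have h1 : T^[k + 1] (T.symm^[p + k + 1] y) = T.symm^[p] y := by
          rw [add_assoc, iter_symm_sub]
        refine hq.2 (k + 1) (by omega) (by omega) ?_
        rw [h1]
        exact hp.1
      intro y hy1 hy2
      rcases lt_or_gt_of_ne hab with h | h
      · exact key a b h y hy1 hy2
      · exact key b a h y hy2 hy1
  rw [h1]
  exact measure_ne_top μ _

theorem sum_D_div [IsFiniteMeasure μ] (hT : MeasurePreserving T μ μ) (hU : MeasurableSet U)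
    (N : ℕ) (hN : 0 < N) : ∑' i : ℕ, μ (D T U (i / N)) ≠ ∞ := by
  have : NeZero N := ⟨hN.ne'⟩
  have h1 : ∑' i : ℕ, μ (D T U (i / N)) = ∑' p : ℕ × Fin N, μ (D T U p.1) := by
    rw [← (Nat.divModEquiv N).tsum_eq]
    congr 1
  rw [h1, ENNReal.tsum_prod (f := fun (m : ℕ) (_ : Fin N) => μ (D T U m))]
  simp only [tsum_fintype, Finset.sum_const, Finset.card_univ, Fintype.card_fin, nsmul_eq_mul]
  rw [ENNReal.tsum_mul_left]
  exact ENNReal.mul_ne_top (ENNReal.natCast_ne_top N) (sum_D T U hT hU)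

end Pool.Agent.Lib.MP_d2b992_gt.Dyn.RetM

namespace Pool.Agent.Lib.MP_d2b992_gt.Dyn

open MeasureTheory Filter Set

/-- RET. Almost every point of `U` returns to `U` infinitely often, and the gap after the visit
number `i` is at most `K + ε i`. -/
theorem ret {X : Type*} [MeasurableSpace X] (μ : Measure X) [IsFiniteMeasure μ] (T : X ≃ᵐ X)
    (hT : MeasurePreserving T μ μ) (U : Set X) (hU : MeasurableSet U) (ε : ℝ) (hε : 0 < ε) :
    ∀ᵐ z ∂μ, z ∈ U → {n | T^[n] z ∈ U}.Infinite ∧ ∃ K : ℕ, ∀ i : ℕ,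
      (Nat.nth (fun n => T^[n] z ∈ U) (i + 1) : ℝ) ≤
        Nat.nth (fun n => T^[n] z ∈ U) i + K + ε * i := by
  classical
  obtain ⟨N, hN⟩ := exists_nat_gt (1 / ε)
  have hN0 : 0 < N := by
    have h1 : (0 : ℝ) < N := lt_trans (by positivity) hN
    exact_mod_cast h1
  have h1 : ∑' i : ℕ, μ (⋃ n, RetM.A T U n i ∩ (T^[n]) ⁻¹' RetM.D T U (i / N)) ≠ ⊤ :=
    ne_top_of_le_ne_top (RetM.sum_D_div T U hT hU N hN0)
      (ENNReal.tsum_le_tsum fun i => RetM.sum_A T U hT hU i (i / N))
  have h2 := ae_eventually_notMem h1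
  have h3 := hT.conservative.ae_mem_imp_frequently_image_mem hU.nullMeasurableSet
  filter_upwards [h2, h3] with z hz2 hz3 hzU
  have hinf : {n | T^[n] z ∈ U}.Infinite := Nat.frequently_atTop_iff_infinite.mp (hz3 hzU)
  refine ⟨hinf, ?_⟩
  obtain ⟨i0, hi0⟩ := eventually_atTop.mp hz2
  set p : ℕ → Prop := fun n => T^[n] z ∈ U with hp
  have hbig : ∀ i, i0 ≤ i → Nat.nth p (i + 1) ≤ Nat.nth p i + i / N := by
    intro i hi
    have h4 := hi0 i hi
    rw [mem_iUnion, not_exists] at h4
    have h5 := h4 (Nat.nth p i)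
    have h6 : p (Nat.nth p i) := Nat.nth_mem_of_infinite hinf i
    have h7 : Nat.count p (Nat.nth p i) = i := Nat.count_nth_of_infinite hinf i
    have h8 : z ∈ RetM.A T U (Nat.nth p i) i := ⟨hzU, h6, by convert! h7⟩
    have h9 : ¬ T^[Nat.nth p i] z ∈ RetM.D T U (i / N) := fun h => h5 ⟨h8, h⟩
    have h10 : ∃ k, 1 ≤ k ∧ k ≤ i / N ∧ T^[k] (T^[Nat.nth p i] z) ∈ U := by
      by_contra hcon
      push Not at hcon
      exact h9 ⟨h6, hcon⟩
    obtain ⟨k, hk1, hk2, hk3⟩ := h10
    rw [← Function.iterate_add_apply] at hk3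
    have h11 : p (k + Nat.nth p i) := hk3
    have h12 : i + 1 < Nat.count p (k + Nat.nth p i + 1) := by
      rw [Nat.count_succ, if_pos h11]
      have h13 : Nat.count p (Nat.nth p i + 1) = i + 1 := by
        rw [Nat.count_succ, if_pos h6, h7]
      have h14 : Nat.count p (Nat.nth p i + 1) ≤ Nat.count p (k + Nat.nth p i) :=
        Nat.count_monotone p (by omega)
      omega
    have h15 := Nat.nth_lt_of_lt_count h12
    omega
  refine ⟨∑ i ∈ Finset.range i0, Nat.nth p (i + 1), fun i => ?_⟩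
  have hnn : (0 : ℝ) ≤ ε * i := by positivity
  by_cases hi : i < i0
  · have h4 : Nat.nth p (i + 1) ≤ ∑ i ∈ Finset.range i0, Nat.nth p (i + 1) :=
      Finset.single_le_sum (f := fun i => Nat.nth p (i + 1)) (fun _ _ => Nat.zero_le _)
        (Finset.mem_range.mpr hi)
    have h5 : (Nat.nth p (i + 1) : ℝ) ≤ (∑ i ∈ Finset.range i0, Nat.nth p (i + 1) : ℕ) := by
      exact_mod_cast h4
    have h6 : (0 : ℝ) ≤ (Nat.nth p i : ℝ) := Nat.cast_nonneg _
    linarith
  · have h4 := hbig i (by omega)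
    have h5 : (Nat.nth p (i + 1) : ℝ) ≤ Nat.nth p i + (i / N : ℕ) := by exact_mod_cast h4
    have h6 : ((i / N : ℕ) : ℝ) ≤ i / N := Nat.cast_div_le
    have h7 : (i : ℝ) / N ≤ ε * i := by
      rw [div_le_iff₀ (by exact_mod_cast hN0)]
      have h8 : 1 < N * ε := by
        rw [div_lt_iff₀ hε] at hN
        exact hN
      have h9 : (0 : ℝ) ≤ i := Nat.cast_nonneg _
      nlinarith
    have h8 : (0 : ℝ) ≤ ((∑ i ∈ Finset.range i0, Nat.nth p (i + 1) : ℕ) : ℝ) := Nat.cast_nonneg _
    linarith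

namespace RetM

open scoped Classical

variable {X : Type} [MeasurableSpace X] (T : X ≃ᵐ X) (U : Set X)

/-- measurable form of `Good` -/
theorem good_iff (K ε : ℝ) (z : X) : Good (fun n => T^[n] z ∈ U) K ε ↔
    z ∈ U ∧ (∀ m : ℕ, ∃ n : ℕ, m ≤ n ∧ T^[n] z ∈ U) ∧ ∀ i a b : ℕ,
      (T^[a] z ∈ U ∧ Nat.count (fun k => T^[k] z ∈ U) a = i) →
      (T^[b] z ∈ U ∧ Nat.count (fun k => T^[k] z ∈ U) b = i + 1) →
        (b : ℝ) - (a : ℝ) ≤ K + ε * (i : ℝ) := by
  unfold Good
  constructor
  · rintro ⟨h0, h1, h2⟩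
    refine ⟨h0, h1, ?_⟩
    rintro i a b ⟨ha1, ha2⟩ ⟨hb1, hb2⟩
    have h3 := h2 i
    have ha : Nat.nth (fun n => T^[n] z ∈ U) i = a := by
      rw [← ha2]
      exact Nat.nth_count (p := fun n => T^[n] z ∈ U) ha1
    have hb : Nat.nth (fun n => T^[n] z ∈ U) (i + 1) = b := by
      rw [← hb2]
      exact Nat.nth_count (p := fun n => T^[n] z ∈ U) hb1
    rw [ha, hb] at h3
    exact h3
  · rintro ⟨h0, h1, h2⟩
    refine ⟨h0, h1, fun i => ?_⟩
    have hinf : {n | T^[n] z ∈ U}.Infinite := by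
      rw [Set.infinite_iff_exists_gt]
      intro m
      obtain ⟨n, hn, hn'⟩ := h1 (m + 1)
      exact ⟨n, hn', by omega⟩
    exact h2 i _ _ ⟨Nat.nth_mem_of_infinite hinf i, Nat.count_nth_of_infinite hinf i⟩
      ⟨Nat.nth_mem_of_infinite hinf (i + 1), Nat.count_nth_of_infinite hinf (i + 1)⟩

theorem meas_visit (hU : MeasurableSet U) (n : ℕ) : Measurable fun z => T^[n] z ∈ U :=
  measurableSet_setOfPred.mp ((meas_iter T n) hU)

theorem meas_inf (hU : MeasurableSet U) :
    Measurable fun z => ∀ m : ℕ, ∃ n : ℕ, m ≤ n ∧ T^[n] z ∈ U :=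
  Measurable.forall fun _ => Measurable.exists fun n =>
    Measurable.and measurable_const (meas_visit T U hU n)

theorem meas_good (hU : MeasurableSet U) (K ε : ℝ) :
    MeasurableSet {z : X | Good (fun n => T^[n] z ∈ U) K ε} := by
  simp only [good_iff]
  rw [measurableSet_setOfPred]
  refine Measurable.and (measurableSet_setOfPred.mp hU) (Measurable.and (meas_inf T U hU) ?_)
  refine Measurable.forall fun i => Measurable.forall fun a => Measurable.forall fun b => ?_
  have hc : ∀ n j : ℕ, Measurable fun z => Nat.count (fun k => T^[k] z ∈ U) n = j := fun n j =>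
    measurableSet_setOfPred.mp ((meas_count T U hU n) (measurableSet_singleton j))
  exact ((meas_visit T U hU a).and (hc a i)).imp
    (((meas_visit T U hU b).and (hc b (i + 1))).imp measurable_const)

theorem wait {μ : Measure X} [IsFiniteMeasure μ] (hT : MeasurePreserving T μ μ)
    (hU : MeasurableSet U) (δ : ℝ) (hδ : 0 < δ) : ∃ m : ℕ, ∀ t : ℕ,
    μ {z : X | z ∈ U ∧ (∀ k : ℕ, ∃ n : ℕ, k ≤ n ∧ T^[n] z ∈ U) ∧
      ∀ n : ℕ, t ≤ n → n ≤ t + m → T^[n] z ∉ U} ≤ ENNReal.ofReal δ := by
  set B : ℕ → Set X := fun m => {z | (∀ k : ℕ, ∃ n : ℕ, k ≤ n ∧ T^[n] z ∈ U) ∧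
    ∀ n : ℕ, n ≤ m → T^[n] z ∉ U} with hB
  have hmeas : ∀ m, MeasurableSet (B m) := by
    intro m
    rw [hB, measurableSet_setOfPred]
    exact (meas_inf T U hU).and (Measurable.forall fun n =>
      Measurable.imp measurable_const (meas_visit T U hU n).not)
  have hanti : Antitone B := by
    intro p q hpq z hz
    exact ⟨hz.1, fun n hn => hz.2 n (hn.trans hpq)⟩
  have hinter : ⋂ m, B m = ∅ := by
    rw [Set.eq_empty_iff_forall_notMem]
    intro z hz
    rw [mem_iInter] at hz
    obtain ⟨n, _, hn⟩ := (hz 0).1 0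
    exact (hz n).2 n le_rfl hn
  have hlim := tendsto_measure_iInter_atTop (μ := μ) (fun m => (hmeas m).nullMeasurableSet) hanti
    ⟨0, measure_ne_top μ _⟩
  rw [hinter, measure_empty] at hlim
  have hpos : (0 : ENNReal) < ENNReal.ofReal δ := ENNReal.ofReal_pos.mpr hδ
  obtain ⟨m, hm⟩ := (hlim.eventually (gt_mem_nhds hpos)).exists
  refine ⟨m, fun t => ?_⟩
  calc _ ≤ μ ((T^[t]) ⁻¹' (B m)) := by
        apply measure_mono
        rintro z ⟨_, hz1, hz2⟩
        refine ⟨fun k => ?_, fun n hn => ?_⟩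
        · obtain ⟨n, hn, hn'⟩ := hz1 (k + t)
          refine ⟨n - t, by omega, ?_⟩
          rw [← Function.iterate_add_apply, Nat.sub_add_cancel (by omega)]
          exact hn'
        · rw [← Function.iterate_add_apply]
          exact hz2 (n + t) (by omega) (by omega)
    _ = μ (B m) := (hT.iterate t).measure_preimage (hmeas m).nullMeasurableSet
    _ ≤ ENNReal.ofReal δ := hm.le

end RetM

theorem specRET : SpecRET := by
  intro X _ μ _ T hT U hU
  refine ⟨fun K ε => RetM.meas_good T U hU K ε, fun ε hε => ?_, fun δ hδ =>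
    RetM.wait T U hT hU δ hδ⟩
  rw [ae_restrict_iff' hU]
  filter_upwards [ret μ T hT U hU ε hε] with z hz hzU
  obtain ⟨hinf, K, hK⟩ := hz hzU
  refine ⟨K, hzU, fun m => ?_, fun i => ?_⟩
  · obtain ⟨n, hn, hn'⟩ := Set.infinite_iff_exists_gt.mp hinf m
    exact ⟨n, hn'.le, hn⟩
  · have := hK i
    linarith

end Pool.Agent.Lib.MP_d2b992_gt.Dyn
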