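import Mathlib
import Pool.Agent.Lib.MP_d2b992_gt.Dyn.Spec5

/-!
# Module S02: a part of the near square `0` is mapped into the near square `2`
-/

set_option autoImplicit false

open MeasureTheory Filter Topology Set
open scoped ContDiff

namespace Pool.Agent.Lib.MP_d2b992_gt.Dyn

open Pool.Agent.Lib.MP_d2b992_gt.T (Tw)

namespace S02M

/-- the coordinate `x` -/
noncomputable def X (w : St) : ℝ := Real.sqrt (1 - w.2 ^ 2) * Real.sin w.1

/-- the coordinate `D` -/
noncomputable def D (w : St) : ℝ := -(Real.sqrt (1 - w.2 ^ 2) * Real.cos w.1)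

noncomputable def D1 (G : ℝ → ℝ) (w : St) : ℝ :=
  D w * Real.cos (G (X w)) - w.2 * Real.sin (G (X w))

noncomputable def C1 (G : ℝ → ℝ) (w : St) : ℝ :=
  D w * Real.sin (G (X w)) + w.2 * Real.cos (G (X w))

noncomputable def A (F G : ℝ → ℝ) (w : St) : ℝ :=
  Real.pi - Real.arcsin (X w / Real.sqrt (1 - C1 G w ^ 2)) - F (C1 G w)

theorem cont_X : Continuous X := by unfold X; fun_prop

theorem cont_D : Continuous D := by unfold D; fun_prop

theorem cont_D1 {G : ℝ → ℝ} (hG : Continuous G) : Continuous (D1 G) := by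
  have := cont_X; have := cont_D
  unfold D1; fun_prop

theorem cont_C1 {G : ℝ → ℝ} (hG : Continuous G) : Continuous (C1 G) := by
  have := cont_X; have := cont_D
  unfold C1; fun_prop

theorem red_eq {t : ℝ} (h1 : -(Real.pi / 2) ≤ t) (h2 : t < 7 * Real.pi / 2) : red t = t := by
  unfold red
  rw [toIcoMod_eq_self]
  exact ⟨h1, by linarith⟩

theorem tMap_eq {b : ℝ} {F G : ℝ → ℝ} {w : St} (h1 : 0 < Real.cos w.1) (h2 : |X w| < b)
    (h3 : 0 < Real.cos (w.1 / 2)) (h4 : D1 G w ≤ 0) (h5 : -(Real.pi / 2) ≤ A F G w)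
    (h6 : A F G w < 7 * Real.pi / 2) : tMap b F G w = (A F G w, -C1 G w) := by
  have hq : qC G w = C1 G w := by
    unfold qC
    simp only
    rw [if_pos]
    · rfl
    · exact h4
  have hQ : qMap b G w = (0 + Real.arcsin (X w / Real.sqrt (1 - C1 G w ^ 2)), C1 G w) := by
    unfold qMap
    rw [if_pos ⟨h1, h2⟩, if_pos h3, hq]
    rfl
  unfold tMap pMap
  rw [hQ]
  simp only [zero_add]
  rw [red_eq]
  · rfl
  · exact h5
  · exact h6

end S02M

open S02M in
theorem specS02 : SpecS02 := by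
  intro b s F G hT
  have hb := hT.b0
  have hs := hT.s0
  have hsb := hT.sb
  have hGc : Continuous G := hT.G_smooth.continuous
  have hFc : Continuous F := hT.F_smooth.continuous
  have hb1 : b < 1 := by nlinarith
  -- the point x0
  obtain ⟨x0, hx1, hx2, hg1, hg2⟩ : ∃ x0 : ℝ, -b < x0 ∧ x0 < b ∧ |G x0| < 1 ∧ |G x0| < s := by
    have hG0 : G (-b) = 0 := hT.G_zero _ le_rfl
    have h1 : ∀ᶠ x in 𝓝 (-b), |G x| < 1 ∧ |G x| < s := by
      have hc : ContinuousAt (fun x => |G x|) (-b) := (hGc.abs).continuousAt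
      have e1 : ∀ᶠ x in 𝓝 (-b), |G x| < 1 :=
        hc.eventually_lt continuousAt_const (by rw [hG0]; simp)
      have e2 : ∀ᶠ x in 𝓝 (-b), |G x| < s :=
        hc.eventually_lt continuousAt_const (by rw [hG0]; simpa using hs)
      exact e1.and e2
    have h2 : ∀ᶠ x in 𝓝[>] (-b), |G x| < 1 ∧ |G x| < s := h1.filter_mono nhdsWithin_le_nhds
    have h3 : ∀ᶠ x in 𝓝[>] (-b), x ∈ Ioo (-b) b := Ioo_mem_nhdsGT (by linarith)
    obtain ⟨x, hx, hx'⟩ := (h2.and h3).exists
    exact ⟨x, hx'.1, hx'.2, hx.1, hx.2⟩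
  have hpi := Real.pi_gt_three
  have hxabs : |x0| < b := abs_lt.2 ⟨by linarith, hx2⟩
  have hx0sq : x0 ^ 2 < b ^ 2 := sq_lt_sq' hx1 hx2
  set γ := G x0 with hγ
  have hcos : 0 < Real.cos γ := by
    apply Real.cos_pos_of_mem_Ioo
    obtain ⟨a1, a2⟩ := abs_lt.1 hg1
    constructor <;> linarith
  have hr : 0 < Real.sqrt (1 - x0 ^ 2) := Real.sqrt_pos.2 (by nlinarith)
  have hr1 : Real.sqrt (1 - x0 ^ 2) ≤ 1 := by
    rw [Real.sqrt_le_one]; nlinarith [sq_nonneg x0]
  have hrsq : Real.sqrt (1 - x0 ^ 2) ^ 2 = 1 - x0 ^ 2 := Real.sq_sqrt (by nlinarith)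
  set ρ := Real.sqrt (1 - x0 ^ 2) with hρ
  set c0 := ρ * Real.sin γ with hc0
  have hcs := Real.cos_sq_add_sin_sq γ
  have hsin : |Real.sin γ| < s := (Real.abs_sin_le_abs).trans_lt hg2
  have hc0s : |c0| < s := by
    rw [hc0, abs_mul, abs_of_pos hr]
    calc ρ * |Real.sin γ| ≤ 1 * |Real.sin γ| := by gcongr
      _ < s := by rw [one_mul]; exact hsin
  have hc0sq : 1 - c0 ^ 2 - x0 ^ 2 = (ρ * Real.cos γ) ^ 2 := by
    rw [hc0, mul_pow, mul_pow, hrsq]
    have : Real.cos γ ^ 2 = 1 - Real.sin γ ^ 2 := by linarith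
    rw [this]; ring
  have hrc : 0 < ρ * Real.cos γ := mul_pos hr hcos
  have hR2 : 0 < 1 - c0 ^ 2 := by nlinarith [sq_nonneg x0]
  set R0 := Real.sqrt (1 - c0 ^ 2) with hR0
  have hR0pos : 0 < R0 := Real.sqrt_pos.2 hR2
  have hR0sq : R0 ^ 2 = 1 - c0 ^ 2 := Real.sq_sqrt hR2.le
  have hq : |x0 / R0| < 1 := by
    rw [abs_div, abs_of_pos hR0pos, div_lt_one hR0pos]
    exact abs_lt_of_sq_lt_sq (by nlinarith) hR0pos.le
  obtain ⟨hq1, hq2⟩ := abs_lt.1 hq
  set Θ0 := Real.arcsin (x0 / R0) with hΘ0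
  have hsinΘ : Real.sin Θ0 = x0 / R0 := Real.sin_arcsin hq1.le hq2.le
  have hT1 : -(Real.pi / 2) < Θ0 := Real.neg_pi_div_two_lt_arcsin.2 hq1
  have hT2 : Θ0 < Real.pi / 2 := Real.arcsin_lt_pi_div_two.2 hq2
  have hcosΘ : 0 < Real.cos Θ0 := Real.cos_pos_of_mem_Ioo ⟨hT1, hT2⟩
  have hcosR : R0 * Real.cos Θ0 = ρ * Real.cos γ := by
    have h1 : (R0 * Real.cos Θ0) ^ 2 = (ρ * Real.cos γ) ^ 2 := by
      rw [← hc0sq, mul_pow, hR0sq]
      have : Real.cos Θ0 ^ 2 = 1 - (x0 / R0) ^ 2 := by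
        have := Real.cos_sq_add_sin_sq Θ0
        rw [hsinΘ] at this; linarith
      rw [this, div_pow, hR0sq]
      field_simp
    exact (sq_eq_sq₀ (by positivity) hrc.le).1 h1
  set w0 : St := (Θ0, c0) with hw0
  have vX : X w0 = x0 := by
    show R0 * Real.sin Θ0 = x0
    rw [hsinΘ]; field_simp
  have vD : D w0 = -(ρ * Real.cos γ) := by
    show -(R0 * Real.cos Θ0) = _
    rw [hcosR]
  have vD1 : D1 G w0 = -ρ := by
    unfold D1
    rw [vX, vD]
    show -(ρ * Real.cos γ) * Real.cos γ - c0 * Real.sin γ = -ρ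
    rw [hc0]
    linear_combination (-ρ) * hcs
  have vC1 : C1 G w0 = 0 := by
    unfold C1
    rw [vX, vD]
    show -(ρ * Real.cos γ) * Real.sin γ + c0 * Real.cos γ = 0
    rw [hc0]; ring
  have hF0 : F 0 = -Real.pi := by
    have := hT.F_neg 0
    rw [neg_zero] at this; linarith
  have vA : A F G w0 = 2 * Real.pi - Real.arcsin x0 := by
    unfold A
    rw [vX, vC1, hF0]
    simp only [ne_eq, OfNat.ofNat_ne_zero, not_false_eq_true, zero_pow, sub_zero, Real.sqrt_one,
      div_one]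
    ring
  have hx0a : -(1 : ℝ) < x0 := by linarith
  have hx0b : x0 < 1 := by linarith
  have ha1 : -(Real.pi / 2) < Real.arcsin x0 := Real.neg_pi_div_two_lt_arcsin.2 hx0a
  have ha2 : Real.arcsin x0 < Real.pi / 2 := Real.arcsin_lt_pi_div_two.2 hx0b
  -- continuity
  have cA : ContinuousAt (A F G) w0 := by
    have c1 := (cont_C1 hGc)
    have c2 := cont_X
    have h1 : ContinuousAt (fun w => X w / Real.sqrt (1 - C1 G w ^ 2)) w0 := by
      apply ContinuousAt.div
      · exact c2.continuousAt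
      · exact (by fun_prop : Continuous (fun w => Real.sqrt (1 - C1 G w ^ 2))).continuousAt
      · rw [vC1]; norm_num
    unfold A
    exact (continuousAt_const.sub (Real.continuous_arcsin.continuousAt.comp h1)).sub
      ((hFc.comp c1).continuousAt)
  have e1 : ∀ᶠ w : St in 𝓝 w0, 0 < Real.cos w.1 :=
    continuousAt_const.eventually_lt
      (by fun_prop : Continuous (fun w : St => Real.cos w.1)).continuousAt hcosΘ
  have e2 : ∀ᶠ w : St in 𝓝 w0, |X w| < b :=
    (cont_X.abs).continuousAt.eventually_lt continuousAt_const (by rw [vX]; exact hxabs)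
  have e3 : ∀ᶠ w : St in 𝓝 w0, |w.2| < s :=
    (by fun_prop : Continuous (fun w : St => |w.2|)).continuousAt.eventually_lt
      continuousAt_const hc0s
  have e4 : ∀ᶠ w : St in 𝓝 w0, 0 < Real.cos (w.1 / 2) :=
    continuousAt_const.eventually_lt
      (by fun_prop : Continuous (fun w : St => Real.cos (w.1 / 2))).continuousAt
      (Real.cos_pos_of_mem_Ioo ⟨by show -(Real.pi / 2) < Θ0 / 2; linarith,
        by show Θ0 / 2 < Real.pi / 2; linarith⟩)
  have e5 : ∀ᶠ w : St in 𝓝 w0, D1 G w < 0 :=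
    (cont_D1 hGc).continuousAt.eventually_lt continuousAt_const (by rw [vD1]; linarith)
  have e6 : ∀ᶠ w : St in 𝓝 w0, 3 * Real.pi / 2 < A F G w :=
    continuousAt_const.eventually_lt cA (by rw [vA]; linarith)
  have e7 : ∀ᶠ w : St in 𝓝 w0, A F G w < 5 * Real.pi / 2 :=
    cA.eventually_lt continuousAt_const (by rw [vA]; linarith)
  have e8 : ∀ᶠ w : St in 𝓝 w0,
      |Real.sqrt (1 - (-C1 G w) ^ 2) * Real.sin (A F G w)| < b := by
    have c1 := (cont_C1 hGc)
    have h1 : ContinuousAt (fun w => |Real.sqrt (1 - (-C1 G w) ^ 2) * Real.sin (A F G w)|) w0 := by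
      apply ContinuousAt.abs
      apply ContinuousAt.mul
      · exact (by fun_prop : Continuous (fun w => Real.sqrt (1 - (-C1 G w) ^ 2))).continuousAt
      · exact Real.continuous_sin.continuousAt.comp cA
    refine h1.eventually_lt continuousAt_const ?_
    rw [vC1, vA, Real.sin_two_pi_sub, Real.sin_arcsin hx0a.le hx0b.le]
    simpa using hxabs
  have e9 : ∀ᶠ w : St in 𝓝 w0, |-C1 G w| < s :=
    ((cont_C1 hGc).neg.abs).continuousAt.eventually_lt continuousAt_const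
      (by show |-C1 G w0| < s; rw [vC1]; simpa using hs)
  have e10 : ∀ᶠ w : St in 𝓝 w0, -(Real.pi / 2) < w.1 :=
    continuousAt_const.eventually_lt continuous_fst.continuousAt hT1
  have e11 : ∀ᶠ w : St in 𝓝 w0, w.1 < Real.pi / 2 :=
    continuous_fst.continuousAt.eventually_lt continuousAt_const hT2
  have hev : ∀ᶠ w : St in 𝓝 w0, w ∈ ({w | w ∈ nearSq b s ∧ 0 < Real.cos (w.1 / 2) ∧
    tMap b F G w ∈ nearSq b s ∧ Real.cos ((tMap b F G w).1 / 2) < 0} ∩ Dom) := by
    filter_upwards [e1, e2, e3, e4, e5, e6, e7, e8, e9, e10, e11] with w h1 h2 h3 h4 h5 h6 h7 h8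
      h9 h10 h11
    have ht := tMap_eq (F := F) h1 h2 h4 h5.le (by linarith) (by linarith)
    have hs1 : s < 1 := by nlinarith
    refine ⟨⟨⟨h1, h2, h3⟩, h4, ?_, ?_⟩, ⟨h10.le, by linarith, by linarith⟩⟩
    · rw [ht]
      refine ⟨?_, h8, h9⟩
      show 0 < Real.cos (A F G w)
      rw [← Real.cos_sub_two_pi]
      exact Real.cos_pos_of_mem_Ioo ⟨by linarith, by linarith⟩
    · rw [ht]
      show Real.cos (A F G w / 2) < 0
      exact Real.cos_neg_of_pi_div_two_lt_of_lt (by linarith) (by linarith)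
  obtain ⟨V, hV1, hV2, hV3⟩ := mem_nhds_iff.1 hev
  have h1 : 0 < (volume : Measure (ℝ × ℝ)) V := hV2.measure_pos volume ⟨w0, hV3⟩
  have h2 : muY V = (volume : Measure (ℝ × ℝ)) V := by
    unfold muY
    rw [Measure.restrict_apply hV2.measurableSet]
    congr 1
    exact inter_eq_left.2 (fun w hw => (hV1 hw).2)
  rw [← h2] at h1
  exact h1.trans_le (measure_mono (fun w hw => (hV1 hw).1))

end Pool.Agent.Lib.MP_d2b992_gt.Dyn
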