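import Pool.Agent.Lib.MP_d2b992_gt.Dyn.Spec2
import Mathlib

section
/-!
# Dynamics of the ergodic sphere: module DIST (distortion under good gaps)
-/
set_option autoImplicit false

open MeasureTheory Filter Topology Set

namespace Pool.Agent.Lib.MP_d2b992_gt.Dyn.DistM

/-- growth constants -/
theorem growth (C θ : ℝ) (hC : 1 ≤ C) (h0 : 0 < θ) (h1 : θ < 1) :
    ∃ ε lam : ℝ, 0 < ε ∧ 1 ≤ lam ∧ lam ^ 2 * θ < 1 ∧ ∀ K : ℝ, 0 ≤ K → ∃ G : ℝ, 1 ≤ G ∧
      ∀ ε' : ℝ, ε' ≤ ε → ∀ a i : ℕ, (a : ℝ) ≤ K + ε' * i → (2 * C ^ 3) ^ a ≤ G * lam ^ i := by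
  have hL : 1 < 2 * C ^ 3 := by
    have := one_le_pow₀ hC (n := 3)
    linarith
  have hlog : 0 < Real.log (2 * C ^ 3) := Real.log_pos hL
  have hθ : Real.log θ < 0 := Real.log_neg h0 h1
  refine ⟨-Real.log θ / (4 * Real.log (2 * C ^ 3)), Real.exp (-Real.log θ / 4), ?_, ?_, ?_, ?_⟩
  · exact div_pos (by linarith) (by linarith)
  · exact Real.one_le_exp (by linarith)
  · have h2 : Real.exp (-Real.log θ / 4) ^ 2 * θ = Real.exp (Real.log θ / 2) := by
      rw [← Real.exp_nat_mul]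
      nth_rewrite 2 [← Real.exp_log h0]
      rw [← Real.exp_add]
      congr 1
      push_cast
      ring
    rw [h2]
    have h3 := Real.exp_lt_exp.2 (show Real.log θ / 2 < 0 by linarith)
    rwa [Real.exp_zero] at h3
  · intro K hK
    refine ⟨Real.exp (K * Real.log (2 * C ^ 3)), Real.one_le_exp (by positivity), ?_⟩
    intro ε' hε' a i ha
    have h2 : (2 * C ^ 3) ^ a = Real.exp (a * Real.log (2 * C ^ 3)) := by
      rw [Real.exp_nat_mul, Real.exp_log (by linarith)]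
    rw [h2, ← Real.exp_nat_mul, ← Real.exp_add]
    apply Real.exp_le_exp.2
    have hi : (0 : ℝ) ≤ i := Nat.cast_nonneg i
    have h3 : (a : ℝ) ≤ K + (-Real.log θ / (4 * Real.log (2 * C ^ 3))) * i := by
      refine ha.trans ?_
      have := mul_le_mul_of_nonneg_right hε' hi
      linarith
    calc (a : ℝ) * Real.log (2 * C ^ 3)
        ≤ (K + (-Real.log θ / (4 * Real.log (2 * C ^ 3))) * i) * Real.log (2 * C ^ 3) :=
          mul_le_mul_of_nonneg_right h3 hlog.le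
      _ = K * Real.log (2 * C ^ 3) + i * (-Real.log θ / 4) := by
          field_simp

theorem kk_mono (kk : ℕ → ℕ) (n : ℕ) (hk : ∀ i < n, kk (i + 1) < kk i) (i : ℕ) :
    ∀ l, i ≤ l → l ≤ n → kk l ≤ kk i := by
  intro l hil
  induction l, hil using Nat.le_induction with
  | base => exact fun _ => le_rfl
  | succ l hl ih =>
    intro hn
    exact (hk l (by omega)).le.trans (ih (by omega))

theorem blocks (f : ℕ → ℝ) (kk : ℕ → ℕ) (i : ℕ) : ∀ n, i ≤ n → (∀ l < n, kk (l + 1) < kk l) →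
    ∑ k ∈ Finset.Ico (kk n) (kk i), f k =
      ∑ l ∈ Finset.Ico i n, ∑ k ∈ Finset.Ico (kk (l + 1)) (kk l), f k := by
  intro n hn
  induction n, hn using Nat.le_induction with
  | base => intro _; simp
  | succ n hn ih =>
    intro hk
    rw [Finset.sum_Ico_succ_top hn, ← ih fun l hl => hk l (by omega),
      ← Finset.sum_Ico_consecutive f (hk n (by omega)).le
        (kk_mono kk n (fun l hl => hk l (by omega)) i n hn le_rfl)]
    exact add_comm _ _

theorem up (C : ℝ) (w : ℕ → ℝ) (hC : 1 ≤ C) (h : ∀ k, w (k + 1) ≤ C * w k) (m j : ℕ) :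
    w (m + j) ≤ C ^ j * w m := by
  induction j with
  | zero => simp
  | succ j ih =>
    calc w (m + (j + 1)) ≤ C * w (m + j) := h _
      _ ≤ C * (C ^ j * w m) := by gcongr
      _ = C ^ (j + 1) * w m := by ring

theorem down (C : ℝ) (w : ℕ → ℝ) (hC : 1 ≤ C) (h : ∀ k, w k ≤ C * w (k + 1)) (m j : ℕ) :
    w m ≤ C ^ j * w (m + j) := by
  induction j with
  | zero => simp
  | succ j ih =>
    calc w m ≤ C ^ j * w (m + j) := ih
      _ ≤ C ^ j * (C * w (m + j + 1)) := by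
          have := h (m + j)
          gcongr
      _ = C ^ (j + 1) * w (m + (j + 1)) := by rw [add_assoc]; ring

theorem two_pow (C : ℝ) (hC : 1 ≤ C) (a : ℕ) :
    (a : ℝ) * C ^ a ≤ (2 * C ^ 3) ^ a ∧ (a : ℝ) * (C ^ a) ^ 2 ≤ (2 * C ^ 3) ^ a ∧
      (a : ℝ) * (C ^ a) ^ 3 ≤ (2 * C ^ 3) ^ a := by
  have h1 : (a : ℝ) ≤ 2 ^ a := by exact_mod_cast a.lt_two_pow_self.le
  have h2 : 1 ≤ C ^ a := one_le_pow₀ hC
  have h3 : (a : ℝ) * (C ^ a) ^ 3 ≤ (2 * C ^ 3) ^ a := by
    rw [mul_pow, ← pow_mul, ← pow_mul, mul_comm a 3]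
    exact mul_le_mul_of_nonneg_right h1 (by positivity)
  have h4 : C ^ a ≤ (C ^ a) ^ 3 := by
    calc C ^ a = (C ^ a) ^ 1 := (pow_one _).symm
      _ ≤ (C ^ a) ^ 3 := pow_le_pow_right₀ h2 (by norm_num)
  have h5 : (C ^ a) ^ 2 ≤ (C ^ a) ^ 3 := pow_le_pow_right₀ h2 (by norm_num)
  have ha : (0 : ℝ) ≤ a := Nat.cast_nonneg a
  exact ⟨(mul_le_mul_of_nonneg_left h4 ha).trans h3, (mul_le_mul_of_nonneg_left h5 ha).trans h3, h3⟩

theorem geom (ρ : ℝ) (h0 : 0 ≤ ρ) (h1 : ρ < 1) (n : ℕ) :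
    ∑ i ∈ Finset.range n, ρ ^ i ≤ 1 / (1 - ρ) := by
  have h := (summable_geometric_of_lt_one h0 h1).sum_le_tsum (Finset.range n)
    fun i _ => pow_nonneg h0 i
  rwa [tsum_geometric_of_lt_one h0 h1, ← one_div] at h

/-- the data at one parameter -/
theorem numeric (C C4 θ lam G : ℝ) (hC : 1 ≤ C) (hC4 : 1 ≤ C4) (h0 : 0 < θ) (h1 : θ < 1)
    (hlam : 1 ≤ lam) (hρ : lam ^ 2 * θ < 1) (hG : 1 ≤ G)
    (w α : ℕ → ℝ) (t n : ℕ) (kk : ℕ → ℕ)
    (hw : ∀ k, 0 < w k) (hup : ∀ k, w (k + 1) ≤ C * w k) (hdn : ∀ k, w k ≤ C * w (k + 1))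
    (hα : ∀ k, |α (k + 1) - α k| ≤ C * w k ^ 3) (hw0 : 1 ≤ w 0) (hα0 : |α 0| ≤ C)
    (hk0 : kk 0 = t) (hkn : kk n = 0) (hk : ∀ i < n, kk (i + 1) < kk i)
    (hgap : ∀ i < n, (2 * C ^ 3) ^ (kk i - kk (i + 1)) ≤ G * lam ^ i)
    (hcon : ∀ i l : ℕ, i ≤ l → l ≤ n → w (kk l) ≤ C4 * θ ^ (l - i) * w (kk i)) :
    C + ∑ k ∈ Finset.range t, C * (w k + |α k| / w k ^ 2) ≤
      (C * C4 + C * ((1 + 2 * C * G * C4 ^ 3 / (1 - lam ^ 2 * θ)) * G * C4 / (1 - lam ^ 2 * θ))) *
        w t := by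
  set ρ := lam ^ 2 * θ with hρd
  have hρ0 : 0 ≤ ρ := by positivity
  have hρ1 : 0 < 1 - ρ := by linarith
  set E := 2 * C * G * C4 ^ 3 / (1 - ρ) with hE
  have hE0 : 0 ≤ E := by positivity
  have hwt : w (kk 0) = w t := by rw [hk0]
  -- cubes in a block
  have hcube : ∀ l < n, ∑ k ∈ Finset.Ico (kk (l + 1)) (kk l), w k ^ 3 ≤
      G * lam ^ l * w (kk (l + 1)) ^ 3 := by
    intro l hl
    have hkl := hk l hl
    calc ∑ k ∈ Finset.Ico (kk (l + 1)) (kk l), w k ^ 3
        ≤ ∑ k ∈ Finset.Ico (kk (l + 1)) (kk l),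
            (C ^ (kk l - kk (l + 1)) * w (kk (l + 1))) ^ 3 := by
          refine Finset.sum_le_sum fun k hk' => ?_
          rw [Finset.mem_Ico] at hk'
          have h2 := up C w hC hup (kk (l + 1)) (k - kk (l + 1))
          rw [Nat.add_sub_cancel' hk'.1] at h2
          have h3 : C ^ (k - kk (l + 1)) ≤ C ^ (kk l - kk (l + 1)) :=
            pow_le_pow_right₀ hC (by omega)
          have h4 := (hw (kk (l + 1))).le
          have h5 : w k ≤ C ^ (kk l - kk (l + 1)) * w (kk (l + 1)) :=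
            h2.trans (mul_le_mul_of_nonneg_right h3 h4)
          exact pow_le_pow_left₀ (hw k).le h5 3
      _ = ((kk l - kk (l + 1) : ℕ) : ℝ) * (C ^ (kk l - kk (l + 1))) ^ 3 * w (kk (l + 1)) ^ 3 := by
          rw [Finset.sum_const, Nat.card_Ico, nsmul_eq_mul]
          ring
      _ ≤ (2 * C ^ 3) ^ (kk l - kk (l + 1)) * w (kk (l + 1)) ^ 3 := by
          have h4 := pow_pos (hw (kk (l + 1))) 3
          exact mul_le_mul_of_nonneg_right (two_pow C hC _).2.2 h4.le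
      _ ≤ G * lam ^ l * w (kk (l + 1)) ^ 3 := by
          have h4 := pow_pos (hw (kk (l + 1))) 3
          exact mul_le_mul_of_nonneg_right (hgap l hl) h4.le
  -- telescoping of `α`
  have hαk : ∀ k, |α k| ≤ C + C * ∑ m ∈ Finset.range k, w m ^ 3 := by
    intro k
    induction k with
    | zero => simpa using hα0
    | succ k ih =>
      rw [Finset.sum_range_succ]
      have h2 := hα k
      have h3 : |α (k + 1)| ≤ |α k| + |α (k + 1) - α k| := by
        calc |α (k + 1)| = |α k + (α (k + 1) - α k)| := by ring_nf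
          _ ≤ _ := abs_add_le _ _
      calc |α (k + 1)| ≤ |α k| + |α (k + 1) - α k| := h3
        _ ≤ (C + C * ∑ m ∈ Finset.range k, w m ^ 3) + C * w k ^ 3 := add_le_add ih h2
        _ = _ := by ring
  -- bound of `α` in block `i`
  have hαi : ∀ i < n, ∀ k ∈ Finset.Ico (kk (i + 1)) (kk i),
      |α k| ≤ E * lam ^ i * w (kk (i + 1)) ^ 3 := by
    intro i hi k hk'
    rw [Finset.mem_Ico] at hk'
    set W := w (kk (i + 1)) ^ 3 with hW
    have hWp : 0 < W := pow_pos (hw _) 3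
    have h2 : ∑ m ∈ Finset.range k, w m ^ 3 ≤ ∑ m ∈ Finset.Ico (kk n) (kk i), w m ^ 3 := by
      rw [hkn, Finset.range_eq_Ico]
      refine Finset.sum_le_sum_of_subset_of_nonneg ?_ fun m _ _ => (pow_pos (hw m) 3).le
      exact Finset.Ico_subset_Ico le_rfl hk'.2.le
    rw [blocks _ kk i n hi.le hk] at h2
    have h3 : ∑ l ∈ Finset.Ico i n, ∑ k ∈ Finset.Ico (kk (l + 1)) (kk l), w k ^ 3 ≤
        ∑ l ∈ Finset.Ico i n, G * C4 ^ 3 * W * (lam ^ i * ρ ^ (l - i)) := by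
      refine Finset.sum_le_sum fun l hl => ?_
      rw [Finset.mem_Ico] at hl
      have h4 := hcon (i + 1) (l + 1) (by omega) (by omega)
      have h5 : w (kk (l + 1)) ^ 3 ≤ C4 ^ 3 * θ ^ (l - i) * W := by
        calc w (kk (l + 1)) ^ 3 ≤ (C4 * θ ^ (l + 1 - (i + 1)) * w (kk (i + 1))) ^ 3 :=
              pow_le_pow_left₀ (hw _).le h4 3
          _ = C4 ^ 3 * (θ ^ (l - i)) ^ 3 * W := by
              rw [show l + 1 - (i + 1) = l - i by omega]
              ring
          _ ≤ C4 ^ 3 * θ ^ (l - i) * W := by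
              have h6 : (θ ^ (l - i)) ^ 3 ≤ θ ^ (l - i) :=
                pow_le_of_le_one (by positivity) (pow_le_one₀ h0.le h1.le) (by norm_num)
              gcongr
      calc ∑ k ∈ Finset.Ico (kk (l + 1)) (kk l), w k ^ 3 ≤ G * lam ^ l * w (kk (l + 1)) ^ 3 :=
            hcube l hl.2
        _ ≤ G * lam ^ l * (C4 ^ 3 * θ ^ (l - i) * W) := by gcongr
        _ = G * C4 ^ 3 * W * (lam ^ i * (lam ^ (l - i) * θ ^ (l - i))) := by
            have : lam ^ l = lam ^ i * lam ^ (l - i) := by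
              rw [← pow_add]
              congr 1
              omega
            rw [this]
            ring
        _ ≤ G * C4 ^ 3 * W * (lam ^ i * ρ ^ (l - i)) := by
            have h6 : lam ^ (l - i) * θ ^ (l - i) ≤ ρ ^ (l - i) := by
              rw [← mul_pow]
              apply pow_le_pow_left₀ (by positivity)
              rw [hρd]
              have : lam ≤ lam ^ 2 := le_self_pow₀ hlam (by norm_num)
              exact mul_le_mul_of_nonneg_right this h0.le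
            gcongr
    have h4 : ∑ l ∈ Finset.Ico i n, G * C4 ^ 3 * W * (lam ^ i * ρ ^ (l - i)) ≤
        G * C4 ^ 3 * W * lam ^ i * (1 / (1 - ρ)) := by
      rw [← Finset.mul_sum, ← Finset.mul_sum, ← mul_assoc]
      have h5 : ∑ l ∈ Finset.Ico i n, ρ ^ (l - i) = ∑ j ∈ Finset.range (n - i), ρ ^ j := by
        rw [Finset.sum_Ico_eq_sum_range]
        exact Finset.sum_congr rfl fun j _ => by rw [Nat.add_sub_cancel_left]
      rw [h5]
      have h6 := geom ρ hρ0 hρ (n - i)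
      gcongr
    have h7 : 1 ≤ C4 ^ 3 * W := by
      have h8 := hcon (i + 1) n (by omega) le_rfl
      rw [hkn] at h8
      have h9 : 1 ≤ C4 * w (kk (i + 1)) := by
        calc 1 ≤ w 0 := hw0
          _ ≤ C4 * θ ^ (n - (i + 1)) * w (kk (i + 1)) := h8
          _ ≤ C4 * 1 * w (kk (i + 1)) := by
              have := pow_le_one₀ h0.le h1.le (n := n - (i + 1))
              have h10 := (hw (kk (i + 1))).le
              gcongr
          _ = C4 * w (kk (i + 1)) := by ring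
      rw [hW, ← mul_pow]
      exact one_le_pow₀ h9
    have h8 : 1 ≤ lam ^ i * (1 / (1 - ρ)) := by
      have h9 : 1 ≤ lam ^ i := one_le_pow₀ hlam
      have h10 : 1 ≤ 1 / (1 - ρ) := by
        rw [le_div_iff₀ hρ1]
        linarith
      calc (1 : ℝ) = 1 * 1 := by ring
        _ ≤ _ := mul_le_mul h9 h10 (by norm_num) (by linarith)
    calc |α k| ≤ C + C * ∑ m ∈ Finset.range k, w m ^ 3 := hαk k
      _ ≤ C * (G * C4 ^ 3 * W * lam ^ i * (1 / (1 - ρ))) +
            C * (G * C4 ^ 3 * W * lam ^ i * (1 / (1 - ρ))) := by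
          refine add_le_add ?_ ?_
          · have h11 : 1 ≤ G * C4 ^ 3 * W * lam ^ i * (1 / (1 - ρ)) := by
              calc (1 : ℝ) = 1 * 1 * 1 := by ring
                _ ≤ G * (C4 ^ 3 * W) * (lam ^ i * (1 / (1 - ρ))) := by gcongr
                _ = _ := by ring
            calc C = C * 1 := by ring
              _ ≤ _ := by gcongr
          · have := (h2.trans h3).trans h4
            gcongr
      _ = E * lam ^ i * W := by
          rw [hE]
          ring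
  -- the sum over block `i`
  have hblock : ∀ i < n, ∑ k ∈ Finset.Ico (kk (i + 1)) (kk i), (w k + |α k| / w k ^ 2) ≤
      (1 + E) * G * C4 * ρ ^ i * w t := by
    intro i hi
    have hki := hk i hi
    set a := kk i - kk (i + 1) with ha
    set W := w (kk (i + 1)) with hW
    have hWp : 0 < W := hw _
    calc ∑ k ∈ Finset.Ico (kk (i + 1)) (kk i), (w k + |α k| / w k ^ 2)
        ≤ ∑ k ∈ Finset.Ico (kk (i + 1)) (kk i), (C ^ a * W + E * lam ^ i * (C ^ a) ^ 2 * W) := by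
          refine Finset.sum_le_sum fun k hk' => ?_
          have h2 := hαi i hi k hk'
          rw [Finset.mem_Ico] at hk'
          have h3 := up C w hC hup (kk (i + 1)) (k - kk (i + 1))
          have h4 := down C w hC hdn (kk (i + 1)) (k - kk (i + 1))
          rw [Nat.add_sub_cancel' hk'.1] at h3 h4
          have h5 : C ^ (k - kk (i + 1)) ≤ C ^ a := pow_le_pow_right₀ hC (by omega)
          have h6 : w k ≤ C ^ a * W := h3.trans (mul_le_mul_of_nonneg_right h5 hWp.le)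
          have h7 : W ≤ C ^ a * w k := h4.trans (mul_le_mul_of_nonneg_right h5 (hw k).le)
          refine add_le_add h6 ?_
          have h8 := pow_pos (hw k) 2
          rw [div_le_iff₀ h8]
          calc |α k| ≤ E * lam ^ i * W ^ 3 := h2
            _ = E * lam ^ i * W * W ^ 2 := by ring
            _ ≤ E * lam ^ i * W * (C ^ a * w k) ^ 2 := by gcongr
            _ = E * lam ^ i * (C ^ a) ^ 2 * W * w k ^ 2 := by ring
      _ = ((a : ℝ) * C ^ a + E * lam ^ i * ((a : ℝ) * (C ^ a) ^ 2)) * W := by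
          rw [Finset.sum_const, Nat.card_Ico, nsmul_eq_mul, ← ha]
          ring
      _ ≤ (G * lam ^ i + E * lam ^ i * (G * lam ^ i)) * W := by
          have h2 := (two_pow C hC a).1.trans (hgap i hi)
          have h3 := (two_pow C hC a).2.1.trans (hgap i hi)
          gcongr
      _ ≤ ((1 + E) * G * (lam ^ i) ^ 2) * W := by
          have h2 : 1 ≤ lam ^ i := one_le_pow₀ hlam
          have h3 : lam ^ i ≤ (lam ^ i) ^ 2 := le_self_pow₀ h2 (by norm_num)
          have h4 : G * lam ^ i ≤ G * (lam ^ i) ^ 2 := by gcongr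
          have h5 : G * lam ^ i + E * lam ^ i * (G * lam ^ i) ≤ (1 + E) * G * (lam ^ i) ^ 2 := by
            nlinarith
          exact mul_le_mul_of_nonneg_right h5 hWp.le
      _ ≤ ((1 + E) * G * (lam ^ i) ^ 2) * (C4 * θ ^ i * w t) := by
          have h2 := hcon 0 (i + 1) (by omega) (by omega)
          rw [hwt, Nat.sub_zero] at h2
          have h3 : θ ^ (i + 1) ≤ θ ^ i := pow_le_pow_of_le_one h0.le h1.le (by omega)
          have h4 : W ≤ C4 * θ ^ i * w t := by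
            refine h2.trans ?_
            have := (hw t).le
            gcongr
          gcongr
      _ = (1 + E) * G * C4 * ρ ^ i * w t := by
          rw [hρd]
          ring
  have htot : ∑ k ∈ Finset.range t, (w k + |α k| / w k ^ 2) ≤
      (1 + E) * G * C4 / (1 - ρ) * w t := by
    have h2 : Finset.range t = Finset.Ico (kk n) (kk 0) := by
      rw [hkn, hk0, Finset.range_eq_Ico]
    rw [h2, blocks _ kk 0 n (by omega) hk]
    calc ∑ l ∈ Finset.Ico 0 n, ∑ k ∈ Finset.Ico (kk (l + 1)) (kk l), (w k + |α k| / w k ^ 2)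
        ≤ ∑ l ∈ Finset.Ico 0 n, (1 + E) * G * C4 * ρ ^ l * w t :=
          Finset.sum_le_sum fun l hl => hblock l (Finset.mem_Ico.1 hl).2
      _ = (1 + E) * G * C4 * w t * ∑ l ∈ Finset.range n, ρ ^ l := by
          rw [Finset.mul_sum, Finset.range_eq_Ico]
          exact Finset.sum_congr rfl fun l _ => by ring
      _ ≤ (1 + E) * G * C4 * w t * (1 / (1 - ρ)) := by
          have h3 := geom ρ hρ0 hρ n
          have := (hw t).le
          gcongr
      _ = _ := by ring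
  have hC0 : C ≤ C * C4 * w t := by
    have h2 := hcon 0 n (by omega) le_rfl
    rw [hkn, hwt] at h2
    have h3 : 1 ≤ C4 * w t := by
      calc 1 ≤ w 0 := hw0
        _ ≤ C4 * θ ^ (n - 0) * w t := h2
        _ ≤ C4 * 1 * w t := by
            have := pow_le_one₀ h0.le h1.le (n := n - 0)
            have h10 := (hw t).le
            gcongr
        _ = C4 * w t := by ring
    calc C = C * 1 := by ring
      _ ≤ C * (C4 * w t) := by gcongr
      _ = _ := by ring
  rw [← Finset.mul_sum]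
  calc C + C * ∑ k ∈ Finset.range t, (w k + |α k| / w k ^ 2)
      ≤ C * C4 * w t + C * ((1 + E) * G * C4 / (1 - ρ) * w t) := by
        refine add_le_add hC0 ?_
        gcongr
    _ = _ := by ring

/-- distortion from a bound of the logarithmic derivative -/
theorem distort (f f' w : ℝ → ℝ) (σm σp c : ℝ) (O : Set ℝ) (hO : IsOpen O)
    (hIO : Icc σm σp ⊆ O) (hm : σm < 0) (hp : 0 < σp) (hw : ContinuousOn w O)
    (hf : ∀ σ ∈ Icc σm σp, HasDerivAt f (f' σ) σ)
    (hb : ∀ σ ∈ Icc σm σp, |f' σ| ≤ c * w σ)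
    (hlen : ∀ σ ∈ Icc σm σp, |∫ r in (0 : ℝ)..σ, w r| ≤ 1) (hc : 0 ≤ c) :
    ∀ σ ∈ Icc σm σp, ∀ σ' ∈ Icc σm σp, f σ ≤ f σ' + 2 * c := by
  have h00 : (0 : ℝ) ∈ Icc σm σp := ⟨hm.le, hp.le⟩
  have hg : ∀ σ ∈ Icc σm σp, HasDerivAt (fun s => ∫ r in (0 : ℝ)..s, w r) (w σ) σ := by
    intro σ hσ
    apply intervalIntegral.integral_hasDerivAt_right
    · apply ContinuousOn.intervalIntegrable
      refine hw.mono ((uIcc_subset_Icc h00 hσ).trans hIO)
    · exact hw.stronglyMeasurableAtFilter hO σ (hIO hσ)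
    · exact hw.continuousAt (hO.mem_nhds (hIO hσ))
  have h1 : AntitoneOn (fun σ => f σ - c * ∫ r in (0 : ℝ)..σ, w r) (Icc σm σp) := by
    have hd : ∀ σ ∈ Icc σm σp, HasDerivAt (fun σ => f σ - c * ∫ r in (0 : ℝ)..σ, w r)
        (f' σ - c * w σ) σ := fun σ hσ => (hf σ hσ).sub ((hg σ hσ).const_mul c)
    apply antitoneOn_of_deriv_nonpos (convex_Icc _ _)
    · exact fun σ hσ => (hd σ hσ).continuousAt.continuousWithinAt
    · exact fun σ hσ => (hd σ (interior_subset hσ)).differentiableAt.differentiableWithinAt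
    · intro σ hσ
      have hσ' := interior_subset hσ
      rw [(hd σ hσ').deriv]
      have := (abs_le.1 (hb σ hσ')).2
      linarith
  have h2 : MonotoneOn (fun σ => f σ + c * ∫ r in (0 : ℝ)..σ, w r) (Icc σm σp) := by
    have hd : ∀ σ ∈ Icc σm σp, HasDerivAt (fun σ => f σ + c * ∫ r in (0 : ℝ)..σ, w r)
        (f' σ + c * w σ) σ := fun σ hσ => (hf σ hσ).add ((hg σ hσ).const_mul c)
    apply monotoneOn_of_deriv_nonneg (convex_Icc _ _)
    · exact fun σ hσ => (hd σ hσ).continuousAt.continuousWithinAt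
    · exact fun σ hσ => (hd σ (interior_subset hσ)).differentiableAt.differentiableWithinAt
    · intro σ hσ
      have hσ' := interior_subset hσ
      rw [(hd σ hσ').deriv]
      have := (abs_le.1 (hb σ hσ')).1
      linarith
  intro σ hσ σ' hσ'
  have h3 := abs_le.1 (hlen σ hσ)
  have h4 := abs_le.1 (hlen σ' hσ')
  rcases le_total σ σ' with h | h
  · have h5 := h2 hσ hσ' h
    simp only at h5
    nlinarith
  · have h5 := h1 hσ' hσ h
    simp only at h5
    nlinarith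

end Pool.Agent.Lib.MP_d2b992_gt.Dyn.DistM

namespace Pool.Agent.Lib.MP_d2b992_gt.Dyn

open DistM in
/-- DIST (section 4 (c)): distortion under good gaps. -/
theorem specDIST : SpecDIST := by
  intro C C4 θ M hC hC4 hθ0 hθ1 hM
  obtain ⟨ε, lam, hε, hlam, hρ, hgr⟩ := growth C θ hC hθ0 hθ1
  refine ⟨ε, hε, fun K hK => ?_⟩
  obtain ⟨G, hG, hgr⟩ := hgr K hK
  set c := C * C4 + C * ((1 + 2 * C * G * C4 ^ 3 / (1 - lam ^ 2 * θ)) * G * C4 /
    (1 - lam ^ 2 * θ)) with hc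
  have hρ1 : 0 < 1 - lam ^ 2 * θ := by linarith
  have hc0 : 0 ≤ c := by positivity
  refine ⟨Real.exp (2 * c), Real.one_le_exp (by positivity), ?_⟩
  intro βp βq sg p1 q1 η δ X S E j0 p0 q0 v A N N' t n kk σm σp j P Q P' Q' hpb hE hU hk0 hkn hk hgap
  have hdom : ∀ σ ∈ Icc σm σp, |p0 + σ| < βp := fun σ hσ => (hU.dom σ hσ).trans_lt hpb
  -- the logarithmic derivatives
  have hlog : ∀ σ ∈ Icc σm σp, ∀ k, ∃ d : ℝ, HasDerivAt (fun r => Real.log (v k r)) d σ ∧
      |d| ≤ C + ∑ m ∈ Finset.range k, C * (v m σ + |A m σ| / v m σ ^ 2) := by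
    intro σ hσ k
    induction k with
    | zero =>
      obtain ⟨-, -, -, d, hd, hd'⟩ := hE.init σ (hU.dom σ hσ)
      exact ⟨d, hd, by simpa using hd'⟩
    | succ k ih =>
      obtain ⟨d, hd, hd'⟩ := ih
      obtain ⟨e, he, he'⟩ := hE.log_step k σ (hdom σ hσ)
      refine ⟨d + e, ?_, ?_⟩
      · have h := hd.add he
        refine h.congr_of_eventuallyEq (Eventually.of_forall fun r => ?_)
        simp only [Pi.add_apply]
        ring
      · rw [Finset.sum_range_succ]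
        have := abs_add_le d e
        linarith
  have hb : ∀ σ ∈ Icc σm σp, ∃ d : ℝ, HasDerivAt (fun r => Real.log (v t r)) d σ ∧
      |d| ≤ c * v t σ := by
    intro σ hσ
    obtain ⟨d, hd, hd'⟩ := hlog σ hσ t
    refine ⟨d, hd, hd'.trans ?_⟩
    have hi := hE.init σ (hU.dom σ hσ)
    exact numeric C C4 θ lam G hC hC4 hθ0 hθ1 hlam hρ hG (fun k => v k σ) (fun k => A k σ) t n kk
      (fun k => hE.v_pos k σ (hdom σ hσ)) (fun k => hE.v_up k σ (hdom σ hσ))
      (fun k => hE.v_down k σ (hdom σ hσ)) (fun k => hE.A_step k σ (hdom σ hσ)) hi.1 hi.2.2.1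
      hk0 hkn hk
      (fun i hin => hgr ε le_rfl _ _ (by
        rw [Nat.cast_sub (hk i hin).le]
        exact hgap i hin))
      fun i l hil hln => hU.contr i l hil hln σ hσ
  choose! d hd using hb
  have hO : IsOpen {σ : ℝ | |p0 + σ| < βp} :=
    isOpen_lt (by fun_prop) continuous_const
  intro σ hσ σ' hσ'
  have h := distort (fun r => Real.log (v t r)) d (v t) σm σp c _ hO hdom hU.neg hU.pos
    (hE.v_cont t) (fun σ hσ => (hd σ hσ).1) (fun σ hσ => (hd σ hσ).2) hU.len hc0 σ hσ σ' hσ'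
  have hv := hE.v_pos t σ (hdom σ hσ)
  have hv' := hE.v_pos t σ' (hdom σ' hσ')
  calc v t σ = Real.exp (Real.log (v t σ)) := (Real.exp_log hv).symm
    _ ≤ Real.exp (Real.log (v t σ') + 2 * c) := Real.exp_le_exp.2 h
    _ = Real.exp (2 * c) * v t σ' := by rw [Real.exp_add, Real.exp_log hv', mul_comm]

end Pool.Agent.Lib.MP_d2b992_gt.Dyn
end

section
/-!
# Dynamics of the ergodic sphere: module CLOS (lengths at intermediate times)
-/
set_option autoImplicit false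

open MeasureTheory Filter Topology Set

namespace Pool.Agent.Lib.MP_d2b992_gt.Dyn.ClosM

/-- comparison of the absolute values of two integrals -/
theorem abs_int_le (f g : ℝ → ℝ) (c σ : ℝ) (hf : ContinuousOn f (uIcc 0 σ))
    (hg : ContinuousOn g (uIcc 0 σ)) (hf0 : ∀ r ∈ uIcc 0 σ, 0 ≤ f r)
    (hg0 : ∀ r ∈ uIcc 0 σ, 0 ≤ g r) (h : ∀ r ∈ uIcc 0 σ, f r ≤ c * g r) :
    |∫ r in (0 : ℝ)..σ, f r| ≤ c * |∫ r in (0 : ℝ)..σ, g r| := by
  have key : ∀ a b : ℝ, a ≤ b → uIcc a b = uIcc 0 σ → |∫ r in a..b, f r| ≤ c * |∫ r in a..b, g r| := by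
    intro a b hab hu
    rw [uIcc_of_le hab] at hu
    rw [← hu] at hf hg hf0 hg0 h
    have hfi : IntervalIntegrable f volume a b :=
      ContinuousOn.intervalIntegrable (by rwa [uIcc_of_le hab])
    have hgi : IntervalIntegrable g volume a b :=
      ContinuousOn.intervalIntegrable (by rwa [uIcc_of_le hab])
    have h1 : 0 ≤ ∫ r in a..b, f r := intervalIntegral.integral_nonneg hab hf0
    have h2 : 0 ≤ ∫ r in a..b, g r := intervalIntegral.integral_nonneg hab hg0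
    rw [abs_of_nonneg h1, abs_of_nonneg h2, ← intervalIntegral.integral_const_mul]
    exact intervalIntegral.integral_mono_on hab hfi (hgi.const_mul c) h
  rcases le_total 0 σ with h1 | h1
  · exact key 0 σ h1 rfl
  · rw [intervalIntegral.integral_symm, intervalIntegral.integral_symm (f := g), abs_neg, abs_neg]
    exact key σ 0 h1 (uIcc_comm _ _)

end Pool.Agent.Lib.MP_d2b992_gt.Dyn.ClosM

namespace Pool.Agent.Lib.MP_d2b992_gt.Dyn

open DistM ClosM in
/-- CLOS (section 4 (d)): lengths at all intermediate times under good gaps. -/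
theorem specCLOS : SpecCLOS := by
  intro C C4 θ M hC hC4 hθ0 hθ1 hM
  obtain ⟨ε, lam, hε, hlam, hρ, hgr⟩ := growth C θ hC hθ0 hθ1
  have hρ1 : lam * θ < 1 := by
    have : lam ≤ lam ^ 2 := le_self_pow₀ hlam (by norm_num)
    exact (mul_le_mul_of_nonneg_right this hθ0.le).trans_lt hρ
  refine ⟨ε, lam * θ, hε, by positivity, hρ1, fun K hK => ?_⟩
  obtain ⟨G, hG, hgr⟩ := hgr K hK
  refine ⟨G * C4, one_le_mul_of_one_le_of_one_le hG hC4, ?_⟩
  intro βp βq sg p1 q1 η δ X S E j0 p0 q0 v A N N' t n kk σm σp j P Q P' Q' hpb hE hU hk0 hkn hk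
    ε' hε'0 hε' hgap i hi k hk1 hk2 σ hσ
  have hdom : ∀ σ ∈ Icc σm σp, |p0 + σ| < βp := fun σ hσ => (hU.dom σ hσ).trans_lt hpb
  have h00 : (0 : ℝ) ∈ Icc σm σp := ⟨hU.neg.le, hU.pos.le⟩
  have hsub : uIcc 0 σ ⊆ Icc σm σp := uIcc_subset_Icc h00 hσ
  have hcont : ∀ m, ContinuousOn (v m) (uIcc 0 σ) := fun m =>
    (hE.v_cont m).mono fun r hr => hdom r (hsub hr)
  have hpow : C ^ (kk i - k) ≤ G * lam ^ i := by
    have h1 := hgr ε' hε' (kk i - kk (i + 1)) i (by
      rw [Nat.cast_sub (hk i hi).le]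
      exact hgap i hi)
    refine le_trans ?_ h1
    calc C ^ (kk i - k) ≤ C ^ (kk i - kk (i + 1)) := pow_le_pow_right₀ hC (by omega)
      _ ≤ (2 * C ^ 3) ^ (kk i - kk (i + 1)) := by
          apply pow_le_pow_left₀ (by linarith)
          have : C ≤ C ^ 3 := le_self_pow₀ hC (by norm_num)
          linarith
  have h := abs_int_le (v k) (v t) (G * C4 * (lam * θ) ^ i) σ (hcont k) (hcont t)
    (fun r hr => (hE.v_pos k r (hdom r (hsub hr))).le)
    (fun r hr => (hE.v_pos t r (hdom r (hsub hr))).le) (fun r hr => by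
      have hr' := hdom r (hsub hr)
      have h1 := down C (fun m => v m r) hC (fun m => hE.v_down m r hr') k (kk i - k)
      simp only [Nat.add_sub_cancel' hk2] at h1
      have h2 := hU.contr 0 i (Nat.zero_le _) hi.le r (hsub hr)
      rw [hk0, Nat.sub_zero] at h2
      have h3 := (hE.v_pos (kk i) r hr').le
      calc v k r ≤ C ^ (kk i - k) * v (kk i) r := h1
        _ ≤ G * lam ^ i * v (kk i) r := mul_le_mul_of_nonneg_right hpow h3
        _ ≤ G * lam ^ i * (C4 * θ ^ i * v t r) := by gcongr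
        _ = G * C4 * (lam * θ) ^ i * v t r := by ring)
  calc |∫ r in (0 : ℝ)..σ, v k r| ≤ G * C4 * (lam * θ) ^ i * |∫ r in (0 : ℝ)..σ, v t r| := h
    _ ≤ G * C4 * (lam * θ) ^ i * 1 := by
        have := hU.len σ hσ
        gcongr
    _ = G * C4 * (lam * θ) ^ i := mul_one _

end Pool.Agent.Lib.MP_d2b992_gt.Dyn
end

section
/-!
# UC: curves of uniform length (section 4 (a), (b))
-/
set_option autoImplicit false

open MeasureTheory Filter Topology Set

namespace Pool.Agent.Lib.MP_d2b992_gt.Dyn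

namespace UCM

theorem num_visit {η D0 D C P Q v N N' : ℝ} (hη : 0 < η) (hD0 : 0 < D0) (hD : D0 ≤ D)
    (hC : 1 ≤ C) (hv : 0 < v) (h1 : P ^ 2 + Q ^ 2 ≤ v ^ 2) (hN : N ^ 2 * D = |P * Q|)
    (hv2 : v ≤ C * (|P| + |Q|)) (hN0 : 0 ≤ N) (hNN' : N ≤ N')
    (hN' : N ^ 2 + η * P ^ 2 ≤ N' ^ 2) (hQ : Q = 0 ∨ η * Q ^ 2 ≤ N ^ 2) :
    |Q| ≤ (1 / (η * D0)) * |P| ∧ v ≤ C * (1 + 1 / (η * D0)) * |P| ∧ |P| ≤ v ∧ P ≠ 0 ∧
      N ≤ v / Real.sqrt (2 * D0) ∧ v ≤ C * (1 + 1 / (η * D0)) / Real.sqrt η * N' := by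
  have hηD : 0 < η * D0 := mul_pos hη hD0
  have a1 : |Q| ≤ (1 / (η * D0)) * |P| := by
    rcases hQ with h | h
    · rw [h, abs_zero]; positivity
    · by_cases hq : Q = 0
      · rw [hq, abs_zero]; positivity
      have hq' : 0 < |Q| := abs_pos.mpr hq
      have e1 : η * D0 * |Q| * |Q| ≤ |P| * |Q| := by
        have : η * Q ^ 2 * D0 ≤ N ^ 2 * D := by
          calc η * Q ^ 2 * D0 ≤ N ^ 2 * D0 := by
                exact mul_le_mul_of_nonneg_right h hD0.le
            _ ≤ N ^ 2 * D := mul_le_mul_of_nonneg_left hD (sq_nonneg _)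
        rw [hN, abs_mul] at this
        calc η * D0 * |Q| * |Q| = η * (|Q| ^ 2) * D0 := by ring
          _ = η * Q ^ 2 * D0 := by rw [sq_abs]
          _ ≤ _ := this
      have e2 : η * D0 * |Q| ≤ |P| := le_of_mul_le_mul_right e1 hq'
      rw [one_div, inv_mul_eq_div, le_div_iff₀ hηD]
      linarith
  have a2 : v ≤ C * (1 + 1 / (η * D0)) * |P| := by
    calc v ≤ C * (|P| + |Q|) := hv2
      _ ≤ C * (|P| + (1 / (η * D0)) * |P|) := by
          apply mul_le_mul_of_nonneg_left _ (by linarith)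
          linarith
      _ = _ := by ring
  have a3 : |P| ≤ v := abs_le_of_sq_le_sq (by nlinarith [sq_nonneg Q]) hv.le
  have a4 : P ≠ 0 := by
    intro h
    rw [h, abs_zero, mul_zero] at a2
    linarith
  refine ⟨a1, a2, a3, a4, ?_, ?_⟩
  · rw [le_div_iff₀ (Real.sqrt_pos.mpr (by linarith))]
    apply le_of_sq_le_sq _ hv.le
    rw [mul_pow, Real.sq_sqrt (by linarith)]
    have : 2 * |P * Q| ≤ P ^ 2 + Q ^ 2 := by
      rw [abs_mul]
      nlinarith [sq_nonneg (|P| - |Q|), sq_abs P, sq_abs Q]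
    nlinarith [mul_le_mul_of_nonneg_left hD (sq_nonneg N)]
  · have hs : 0 < Real.sqrt η := Real.sqrt_pos.mpr hη
    have e : Real.sqrt η * |P| ≤ N' := by
      apply le_of_sq_le_sq _ (hN0.trans hNN')
      rw [mul_pow, Real.sq_sqrt hη.le, sq_abs]
      nlinarith [sq_nonneg N]
    have e' : |P| ≤ N' / Real.sqrt η := by
      rw [le_div_iff₀ hs]; linarith
    calc v ≤ C * (1 + 1 / (η * D0)) * |P| := a2
      _ ≤ C * (1 + 1 / (η * D0)) * (N' / Real.sqrt η) := by
          apply mul_le_mul_of_nonneg_left e'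
          positivity
      _ = _ := by ring

theorem num_growth {η D0 D P Q N N' Ni : ℝ} (hη : 0 < η) (hD0 : 0 < D0) (hD : D0 ≤ D)
    (hN : N ^ 2 * D = |P * Q|) (hN' : N ^ 2 + η * P ^ 2 ≤ N' ^ 2)
    (hQ : Ni ^ 2 + η * Q ^ 2 ≤ N ^ 2) : (1 + 2 * η * D0) * Ni ^ 2 ≤ N' ^ 2 := by
  have h2 : 2 * |P * Q| ≤ P ^ 2 + Q ^ 2 := by
    rw [abs_mul]
    nlinarith [sq_nonneg (|P| - |Q|), sq_abs P, sq_abs Q]
  have h3 : D0 * N ^ 2 ≤ |P * Q| := by
    rw [← hN, mul_comm]; exact mul_le_mul_of_nonneg_left hD (sq_nonneg _)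
  have h4 : Ni ^ 2 ≤ N ^ 2 := by nlinarith [mul_nonneg hη.le (sq_nonneg Q)]
  have h5 : η * (2 * (D0 * Ni ^ 2)) ≤ η * (P ^ 2 + Q ^ 2) := by
    apply mul_le_mul_of_nonneg_left _ hη.le
    have := mul_le_mul_of_nonneg_left h4 hD0.le
    linarith
  nlinarith

/-- continuity argument -/
theorem boot {n : ℕ} {L : ℕ → ℝ → ℝ} {R δ0 δ1 C4 θ : ℝ} (hR : 0 < R) (hδ0 : 0 < δ0)
    (hδ1 : 0 < δ1) (hC4 : 1 ≤ C4) (hθ0 : 0 < θ) (hθ1 : θ < 1)
    (h1 : C4 * δ1 < δ0) (h2 : C4 * θ ^ n * δ1 < R)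
    (hc : ∀ i ≤ n, ContinuousOn (L i) (Icc 0 R)) (h0 : ∀ i ≤ n, L i 0 = 0)
    (hmono : ∀ i ≤ n, MonotoneOn (L i) (Icc 0 R))
    (hH : ∀ r ∈ Icc 0 R, (∀ i ≤ n, L i r ≤ δ0) → (∀ i ≤ n, L i r ≤ C4 * θ ^ i * L 0 r) ∧
      r ≤ L n r) :
    ∃ r, 0 < r ∧ r ≤ R ∧ L 0 r = δ1 ∧ ∀ i ≤ n, L i r ≤ δ0 := by
  have key : ∃ r ∈ Icc 0 R, δ1 ≤ L 0 r ∧ ∀ i ≤ n, L i r ≤ δ0 := by
    have hne : (Finset.range (n + 1)).Nonempty := ⟨0, by simp⟩
    set h : ℝ → ℝ := fun r => (Finset.range (n + 1)).sup' hne (fun i => L i r) with hh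
    have hcont : ContinuousOn h (Icc 0 R) := by
      apply ContinuousOn.finset_sup'_apply
      intro i hi
      exact hc i (by have := Finset.mem_range.mp hi; omega)
    have hle : ∀ r, ∀ i ≤ n, L i r ≤ h r := by
      intro r i hi
      exact Finset.le_sup' (fun i => L i r) (Finset.mem_range.mpr (by omega))
    by_cases hR' : h R ≤ δ0
    · have hG : ∀ i ≤ n, L i R ≤ δ0 := fun i hi => (hle R i hi).trans hR'
      refine ⟨R, ⟨hR.le, le_refl _⟩, ?_, hG⟩
      obtain ⟨g1, g2⟩ := hH R ⟨hR.le, le_refl _⟩ hG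
      have g3 := g1 n le_rfl
      by_contra hcon
      push Not at hcon
      have : C4 * θ ^ n * L 0 R ≤ C4 * θ ^ n * δ1 :=
        mul_le_mul_of_nonneg_left hcon.le (by positivity)
      linarith
    · push Not at hR'
      have h00 : h 0 = 0 := by
        apply le_antisymm
        · apply Finset.sup'_le
          intro i hi
          rw [h0 i (by have := Finset.mem_range.mp hi; omega)]
        · have := hle 0 0 (Nat.zero_le _)
          rw [h0 0 (Nat.zero_le _)] at this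
          exact this
      have hiv := intermediate_value_Icc hR.le hcont
      obtain ⟨r, hr, hr'⟩ := hiv (show δ0 ∈ Icc (h 0) (h R) from ⟨by rw [h00]; exact hδ0.le, hR'.le⟩)
      have hG : ∀ i ≤ n, L i r ≤ δ0 := fun i hi => (hle r i hi).trans hr'.le
      refine ⟨r, hr, ?_, hG⟩
      obtain ⟨g1, g2⟩ := hH r hr hG
      obtain ⟨i, hi, hi'⟩ := Finset.exists_mem_eq_sup' hne (fun i => L i r)
      have hin : i ≤ n := by have := Finset.mem_range.mp hi; omega
      have g3 := g1 i hin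
      have g4 : L i r = δ0 := by rw [← hi']; exact hr'
      have L0 : 0 ≤ L 0 r := by
        rw [← h0 0 (Nat.zero_le _)]
        exact hmono 0 (Nat.zero_le _) ⟨le_refl _, hR.le⟩ hr hr.1
      have g5 : C4 * θ ^ i * L 0 r ≤ C4 * L 0 r := by
        apply mul_le_mul_of_nonneg_right _ L0
        have : θ ^ i ≤ 1 := pow_le_one₀ hθ0.le hθ1.le
        nlinarith
      have g6 : C4 * δ1 < C4 * L 0 r := by linarith
      exact (lt_of_mul_lt_mul_left g6 (by linarith)).le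
  obtain ⟨r, hr, hr1, hr2⟩ := key
  have hiv := intermediate_value_Icc hr.1 ((hc 0 (Nat.zero_le _)).mono (Icc_subset_Icc_right hr.2))
  obtain ⟨r', hr', hr''⟩ := hiv (show δ1 ∈ Icc (L 0 0) (L 0 r) from
    ⟨by rw [h0 0 (Nat.zero_le _)]; exact hδ1.le, hr1⟩)
  have hr'R : r' ∈ Icc 0 R := ⟨hr'.1, hr'.2.trans hr.2⟩
  refine ⟨r', ?_, hr'R.2, hr'', fun i hi => (hmono i hi hr'R hr hr'.2).trans (hr2 i hi)⟩
  rcases hr'.1.lt_or_eq with h | h
  · exact h
  · exfalso
    rw [← h, h0 0 (Nat.zero_le _)] at hr''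
    linarith

noncomputable def D0 (p1 q1 : ℝ) : ℝ := Real.sqrt (1 - p1 ^ 2 - q1 ^ 2)

section

variable {X : Type} {S : X → X} {E : Bool → ℝ → ℝ → X} {βp βq sg a d p1 q1 C η : ℝ}
  {j0 : Bool} {p0 q0 : ℝ} {v A N N' : ℕ → ℝ → ℝ}

theorem sum_lt (h : Csts βp βq sg a d p1 q1 C η) : p1 ^ 2 + q1 ^ 2 < 1 := by
  have h1 : p1 ^ 2 < βp ^ 2 := by
    have := h.a0; have := h.ap; have := h.pb
    exact pow_lt_pow_left₀ h.pb (by linarith) (by norm_num)
  have h2 : q1 ^ 2 < βq ^ 2 := by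
    have := h.d0; have := h.dq; have := h.qb
    exact pow_lt_pow_left₀ h.qb (by linarith) (by norm_num)
  have := h.bb
  linarith

theorem D0_pos (h : Csts βp βq sg a d p1 q1 C η) : 0 < D0 p1 q1 := by
  apply Real.sqrt_pos.mpr
  have := sum_lt h
  linarith

theorem D0_le {p q : ℝ} (hp : |p| ≤ p1) (hq : |q| ≤ q1) :
    D0 p1 q1 ≤ Real.sqrt (1 - p ^ 2 - q ^ 2) := by
  apply Real.sqrt_le_sqrt
  have h1 : p ^ 2 ≤ p1 ^ 2 := sq_le_sq' (by linarith [neg_abs_le p]) (by linarith [le_abs_self p])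
  have h2 : q ^ 2 ≤ q1 ^ 2 := sq_le_sq' (by linarith [neg_abs_le q]) (by linarith [le_abs_self q])
  linarith

theorem N_mono (h : Evo S E βp βq sg p1 q1 C η j0 p0 q0 v A N N') {σ : ℝ}
    (hσ : |p0 + σ| < βp) {k l : ℕ} (hkl : k ≤ l) : N k σ ≤ N l σ := by
  induction hkl with
  | refl => exact le_refl _
  | @step m _ ih =>
    have := h.N_mono m σ hσ
    exact ih.trans (this.2.1.trans this.2.2)

theorem N'_mono (h : Evo S E βp βq sg p1 q1 C η j0 p0 q0 v A N N') {σ : ℝ}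
    (hσ : |p0 + σ| < βp) {k l : ℕ} (hkl : k ≤ l) : N' k σ ≤ N' l σ := by
  induction hkl with
  | refl => exact le_refl _
  | @step m _ ih =>
    have h1 := h.N_mono m σ hσ
    have h2 := h.N_mono (m + 1) σ hσ
    exact ih.trans (h1.2.2.trans h2.2.1)

theorem N'_le_N (h : Evo S E βp βq sg p1 q1 C η j0 p0 q0 v A N N') {σ : ℝ}
    (hσ : |p0 + σ| < βp) {k l : ℕ} (hkl : k < l) : N' k σ ≤ N l σ :=
  (h.N_mono k σ hσ).2.2.trans (N_mono h hσ hkl)

theorem N'_nonneg (h : Evo S E βp βq sg p1 q1 C η j0 p0 q0 v A N N') {σ : ℝ}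
    (hσ : |p0 + σ| < βp) (k : ℕ) : 0 ≤ N' k σ :=
  (h.N_mono k σ hσ).1.trans (h.N_mono k σ hσ).2.1

theorem visit (hc : Csts βp βq sg a d p1 q1 C η) (hinj : ChartInj E βp βq)
    (h : Evo S E βp βq sg p1 q1 C η j0 p0 q0 v A N N') (hq0 : |q0| ≤ q1) {σ : ℝ}
    (hσ : |p0 + σ| ≤ p1) {k : ℕ} {j : Bool} {p q : ℝ} (hp : |p| ≤ p1) (hq : |q| ≤ q1)
    (hS : S^[k] (E j0 (p0 + σ) q0) = E j p q) :
    ∃ P Q P' Q' : ℝ → ℝ, P σ = p ∧ Q σ = q ∧
      (∀ᶠ r in 𝓝 σ, S^[k] (E j0 (p0 + r) q0) = E j (P r) (Q r) ∧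
        HasDerivAt P (P' r) r ∧ HasDerivAt Q (Q' r) r) ∧
      ContinuousAt P' σ ∧ 0 ≤ sg * (P' σ * Q' σ) ∧
      |Q' σ| ≤ (1 / (η * D0 p1 q1)) * |P' σ| ∧
      v k σ ≤ C * (1 + 1 / (η * D0 p1 q1)) * |P' σ| ∧ |P' σ| ≤ v k σ ∧ P' σ ≠ 0 ∧
      N k σ ≤ v k σ / Real.sqrt (2 * D0 p1 q1) ∧
      v k σ ≤ C * (1 + 1 / (η * D0 p1 q1)) / Real.sqrt η * N' k σ ∧
      (∀ i < k, (1 + 2 * η * D0 p1 q1) * N' i σ ^ 2 ≤ N' k σ ^ 2) := by
  have hσ' : |p0 + σ| < βp := hσ.trans_lt hc.pb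
  obtain ⟨P, Q, P', Q', hP, hQ, hev, cP, cQ, hsg, h1, hN, hU⟩ :=
    h.chart k σ j p q hσ' (hp.trans_lt hc.pb) (hq.trans_lt hc.qb) hS
  obtain ⟨u1, u2, u3⟩ := hU hp hq
  have hN0 := (h.N_mono k σ hσ').1
  have hNN := (h.N_mono k σ hσ').2.1
  have hQ0 : Q' σ = 0 ∨ η * Q' σ ^ 2 ≤ N k σ ^ 2 := by
    rcases k with _ | m
    · left
      have e : Q =ᶠ[𝓝 σ] fun _ => q0 := by
        have hPc : ContinuousAt P σ := (hev.self_of_nhds).2.1.continuousAt
        have hQc : ContinuousAt Q σ := (hev.self_of_nhds).2.2.continuousAt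
        have e1 : ∀ᶠ r in 𝓝 σ, |P r| < βp := by
          apply (hPc.abs).eventually_lt continuousAt_const
          rw [hP]; exact hp.trans_lt hc.pb
        have e2 : ∀ᶠ r in 𝓝 σ, |Q r| < βq := by
          apply (hQc.abs).eventually_lt continuousAt_const
          rw [hQ]; exact hq.trans_lt hc.qb
        have e3 : ∀ᶠ r in 𝓝 σ, |p0 + r| < βp := by
          have : ContinuousAt (fun r : ℝ => |p0 + r|) σ := by fun_prop
          exact this.eventually_lt continuousAt_const hσ'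
        filter_upwards [hev, e1, e2, e3] with r hr h1 h2 h3
        have := hinj j0 j (p0 + r) q0 (P r) (Q r) h3 (hq0.trans_lt hc.qb) h1 h2 hr.1
        exact this.2.2.symm
      have hd : HasDerivAt Q (Q' σ) σ := (hev.self_of_nhds).2.2
      have hd0 : HasDerivAt Q 0 σ := (hasDerivAt_const σ q0).congr_of_eventuallyEq e
      exact hd.unique hd0
    · right
      have := u3 m rfl
      nlinarith [sq_nonneg (N' m σ)]
  obtain ⟨n1, n2, n3, n4, n5, n6⟩ := num_visit hc.η0 (D0_pos hc) (D0_le hp hq) hc.C1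
    (h.v_pos k σ hσ') h1 hN u1 hN0 hNN u2 hQ0
  refine ⟨P, Q, P', Q', hP, hQ, hev, cP, hsg, n1, n2, n3, n4, n5, n6, ?_⟩
  intro i hi
  rcases k with _ | m
  · omega
  · have g := num_growth hc.η0 (D0_pos hc) (D0_le hp hq) hN u2 (u3 m rfl)
    refine le_trans ?_ g
    apply mul_le_mul_of_nonneg_left
    · apply pow_le_pow_left₀ (N'_nonneg h hσ' i) (N'_mono h hσ' (by omega))
    · have := hc.η0
      have := D0_pos hc
      positivity

noncomputable def th (η p1 q1 : ℝ) : ℝ := 1 / Real.sqrt (1 + 2 * η * D0 p1 q1)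

noncomputable def cc (C η p1 q1 : ℝ) : ℝ :=
  max 1 (C * (1 + 1 / (η * D0 p1 q1)) / Real.sqrt η * (1 / Real.sqrt (2 * D0 p1 q1)) / th η p1 q1)

theorem th_pos (hc : Csts βp βq sg a d p1 q1 C η) : 0 < th η p1 q1 := by
  have := hc.η0
  have := D0_pos hc
  unfold th
  positivity

theorem th_lt (hc : Csts βp βq sg a d p1 q1 C η) : th η p1 q1 < 1 := by
  have h1 := hc.η0
  have h2 := D0_pos hc
  unfold th
  rw [div_lt_one (by positivity)]
  rw [Real.lt_sqrt (by norm_num)]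
  have := mul_pos h1 h2
  nlinarith

theorem contr (hc : Csts βp βq sg a d p1 q1 C η) (hinj : ChartInj E βp βq)
    (h : Evo S E βp βq sg p1 q1 C η j0 p0 q0 v A N N') (hq0 : |q0| ≤ q1) {σ : ℝ}
    (hσ : |p0 + σ| ≤ p1) {n : ℕ} {kk : ℕ → ℕ} (hkk : ∀ i < n, kk (i + 1) < kk i)
    (hv : ∀ i ≤ n, S^[kk i] (E j0 (p0 + σ) q0) ∈ core E p1 q1) :
    ∀ i l, i ≤ l → l ≤ n →
      v (kk l) σ ≤ cc C η p1 q1 * th η p1 q1 ^ (l - i) * v (kk i) σ := by
  have hσ' : |p0 + σ| < βp := hσ.trans_lt hc.pb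
  have hη := hc.η0
  have hD := D0_pos hc
  have hθ := th_pos hc
  -- one step
  have step : ∀ i < n, N' (kk (i + 1)) σ ≤ th η p1 q1 * N' (kk i) σ := by
    intro i hi
    obtain ⟨j, p, q, hp, hq, hS⟩ := hv i hi.le
    obtain ⟨P, Q, P', Q', -, -, -, -, -, -, -, -, -, -, -, hg⟩ := visit hc hinj h hq0 hσ hp hq hS
    have hg' := hg (kk (i + 1)) (hkk i hi)
    have hs : 0 < Real.sqrt (1 + 2 * η * D0 p1 q1) := by positivity
    unfold th
    rw [one_div, inv_mul_eq_div, le_div_iff₀ hs]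
    apply le_of_sq_le_sq _ (N'_nonneg h hσ' _)
    rw [mul_pow, Real.sq_sqrt (by positivity)]
    linarith
  have chain : ∀ i l, i ≤ l → l ≤ n → N' (kk l) σ ≤ th η p1 q1 ^ (l - i) * N' (kk i) σ := by
    intro i l hil
    induction hil with
    | refl => intro _; simp
    | @step m hm ih =>
      intro hml
      have hm' : i ≤ m := hm
      have e1 := step m (by omega)
      have e2 := ih (by omega)
      calc N' (kk (m + 1)) σ ≤ th η p1 q1 * N' (kk m) σ := e1
        _ ≤ th η p1 q1 * (th η p1 q1 ^ (m - i) * N' (kk i) σ) :=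
            mul_le_mul_of_nonneg_left e2 hθ.le
        _ = th η p1 q1 ^ (m + 1 - i) * N' (kk i) σ := by
            rw [← mul_assoc, ← pow_succ', show m + 1 - i = m - i + 1 by omega]
  intro i l hil hln
  rcases hil.lt_or_eq with hlt | heq
  · obtain ⟨j, p, q, hp, hq, hS⟩ := hv l hln
    obtain ⟨P, Q, P', Q', -, -, -, -, -, -, -, -, -, -, hv2, -⟩ := visit hc hinj h hq0 hσ hp hq hS
    obtain ⟨j', p', q', hp', hq', hS'⟩ := hv i (by omega)
    obtain ⟨P, Q, P', Q', -, -, -, -, -, -, -, -, -, hN2, -, -⟩ := visit hc hinj h hq0 hσ hp' hq' hS'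
    have e1 := chain (i + 1) l hlt hln
    have e2 : N' (kk (i + 1)) σ ≤ N (kk i) σ := N'_le_N h hσ' (hkk i (by omega))
    have hvpos := h.v_pos (kk i) σ hσ'
    set c2 := C * (1 + 1 / (η * D0 p1 q1)) / Real.sqrt η with hc2
    have hC : 1 ≤ C := hc.C1
    have hc2' : 0 ≤ c2 := by rw [hc2]; positivity
    calc v (kk l) σ ≤ c2 * N' (kk l) σ := hv2
      _ ≤ c2 * (th η p1 q1 ^ (l - (i + 1)) * N' (kk (i + 1)) σ) :=
          mul_le_mul_of_nonneg_left e1 hc2'
      _ ≤ c2 * (th η p1 q1 ^ (l - (i + 1)) * (v (kk i) σ / Real.sqrt (2 * D0 p1 q1))) := by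
          apply mul_le_mul_of_nonneg_left _ hc2'
          exact mul_le_mul_of_nonneg_left (e2.trans hN2) (by positivity)
      _ = (c2 * (1 / Real.sqrt (2 * D0 p1 q1)) / th η p1 q1) *
            (th η p1 q1 ^ (l - (i + 1)) * th η p1 q1) * v (kk i) σ := by
          field_simp
      _ = (c2 * (1 / Real.sqrt (2 * D0 p1 q1)) / th η p1 q1) * th η p1 q1 ^ (l - i) *
            v (kk i) σ := by
          rw [← pow_succ, show l - (i + 1) + 1 = l - i by omega]
      _ ≤ cc C η p1 q1 * th η p1 q1 ^ (l - i) * v (kk i) σ := by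
          apply mul_le_mul_of_nonneg_right _ hvpos.le
          apply mul_le_mul_of_nonneg_right _ (by positivity)
          unfold cc
          exact le_max_right _ _
  · subst heq
    have hvpos := h.v_pos (kk i) σ hσ'
    simp only [Nat.sub_self, pow_zero, mul_one]
    have : (1 : ℝ) ≤ cc C η p1 q1 := le_max_left _ _
    nlinarith

theorem side (hc : Csts βp βq sg a d p1 q1 C η) (hinj : ChartInj E βp βq)
    (h : Evo S E βp βq sg p1 q1 C η j0 p0 q0 v A N N') (hp0 : |p0| ≤ a) (hq0 : |q0| ≤ d)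
    {n : ℕ} {kk : ℕ → ℕ} (hkk : ∀ i < n, kk (i + 1) < kk i) (hkn : kk n = 0)
    (hv : ∀ i ≤ n, S^[kk i] (E j0 p0 q0) ∈ core E a d) {δ0 δ1 : ℝ} (hδ0 : 0 < δ0)
    (hδp : δ0 ≤ p1 - a) (hδq : δ0 ≤ q1 - d) (hδ1 : 0 < δ1)
    (h1 : cc C η p1 q1 * δ1 < δ0) (h2 : cc C η p1 q1 * th η p1 q1 ^ n * δ1 < p1 - a)
    {ε : ℝ} (hε : ε = 1 ∨ ε = -1) :
    ∃ r, 0 < r ∧ r ≤ p1 - a ∧ |∫ s in (0 : ℝ)..(ε * r), v (kk 0) s| = δ1 ∧
      (∀ r' ∈ Icc 0 r, |∫ s in (0 : ℝ)..(ε * r'), v (kk 0) s| ≤ δ1) ∧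
      ∀ r' ∈ Icc 0 r, |p0 + ε * r'| ≤ p1 ∧ ∀ i ≤ n, ∀ (j : Bool) (p q : ℝ), |p| ≤ a → |q| ≤ d →
        S^[kk i] (E j0 p0 q0) = E j p q → ∃ p' q' : ℝ, |p'| ≤ p1 ∧ |q'| ≤ q1 ∧
          S^[kk i] (E j0 (p0 + ε * r') q0) = E j p' q' := by
  have hap := hc.ap
  have hpb := hc.pb
  have hεa : |ε| = 1 := by rcases hε with h | h <;> simp [h]
  set R := p1 - a with hR
  have hR0 : 0 < R := by rw [hR]; linarith
  have hdom : ∀ r : ℝ, |r| ≤ R → |p0 + ε * r| ≤ p1 := by
    intro r hr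
    calc |p0 + ε * r| ≤ |p0| + |ε * r| := abs_add_le _ _
      _ = |p0| + |r| := by rw [abs_mul, hεa, one_mul]
      _ ≤ p1 := by rw [hR] at hr; linarith
  -- global continuous version
  set W : ℕ → ℝ → ℝ := fun k s => v k (ε * max (-R) (min R s)) with hW
  have hclamp : ∀ s : ℝ, |max (-R) (min R s)| ≤ R := by
    intro s
    rw [abs_le]
    exact ⟨le_max_left _ _, max_le (by linarith) (min_le_left _ _)⟩
  have hWc : ∀ k, Continuous (W k) := by
    intro k
    apply (h.v_cont k).comp_continuous (by fun_prop)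
    intro s
    exact (hdom _ (hclamp s)).trans_lt hpb
  have hWpos : ∀ k s, 0 < W k s := fun k s => h.v_pos k _ ((hdom _ (hclamp s)).trans_lt hpb)
  have hWeq : ∀ k s, |s| ≤ R → W k s = v k (ε * s) := by
    intro k s hs
    rw [abs_le] at hs
    simp only [hW]
    rw [min_eq_right hs.2, max_eq_right hs.1]
  set L : ℕ → ℝ → ℝ := fun i r => ∫ s in (0 : ℝ)..r, W (kk i) s with hL
  have hLc : ∀ i, Continuous (L i) := fun i =>
    intervalIntegral.continuous_primitive (fun _ _ => (hWc (kk i)).intervalIntegrable _ _) 0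
  have hLmono : ∀ i, ∀ r r', r ≤ r' → L i r ≤ L i r' := by
    intro i r r' hrr
    have : L i r' - L i r = ∫ s in r..r', W (kk i) s := by
      simp only [hL]
      exact intervalIntegral.integral_interval_sub_left
        ((hWc _).intervalIntegrable _ _) ((hWc _).intervalIntegrable _ _)
    have h0 : 0 ≤ ∫ s in r..r', W (kk i) s :=
      intervalIntegral.integral_nonneg hrr (fun s _ => (hWpos _ s).le)
    linarith
  have hL0 : ∀ i, L i 0 = 0 := fun i => by simp [hL]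
  -- relation to the integral of v
  have hLv : ∀ i, ∀ r ∈ Icc 0 R, |∫ s in (0 : ℝ)..(ε * r), v (kk i) s| = L i r := by
    intro i r hr
    have e1 : ε * ∫ s in (0 : ℝ)..r, v (kk i) (ε * s) = ∫ s in (ε * 0)..(ε * r), v (kk i) s :=
      intervalIntegral.mul_integral_comp_mul_left ε
    rw [mul_zero] at e1
    rw [← e1, abs_mul, hεa, one_mul]
    have e2 : ∫ s in (0 : ℝ)..r, v (kk i) (ε * s) = L i r := by
      simp only [hL]
      apply intervalIntegral.integral_congr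
      intro s hs
      rw [uIcc_of_le hr.1] at hs
      exact (hWeq _ s (by rw [abs_of_nonneg hs.1]; exact hs.2.trans hr.2)).symm
    rw [e2, abs_of_nonneg]
    have := hLmono i 0 r hr.1
    rw [hL0] at this
    exact this
  -- paths
  have hpath : ∀ r ∈ Icc 0 R, (∀ i ≤ n, L i r ≤ δ0) → ∀ r' ∈ Icc 0 r, ∀ i ≤ n,
      ∀ (j : Bool) (p q : ℝ), |p| ≤ a → |q| ≤ d →
        S^[kk i] (E j0 p0 q0) = E j p q → ∃ p' q' : ℝ, |p'| ≤ p1 ∧ |q'| ≤ q1 ∧
          S^[kk i] (E j0 (p0 + ε * r') q0) = E j p' q' := by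
    intro r hr hG r' hr' i hi j p q hp hq hS
    have hr'R : r' ∈ Icc 0 R := ⟨hr'.1, hr'.2.trans hr.2⟩
    obtain ⟨p', q', hp', hq', hS'⟩ := h.path (kk i) 0 (ε * r') δ0 j p q
      (by rw [add_zero]; linarith) ((hdom r' (by rw [abs_of_nonneg hr'.1]; exact hr'R.2)).trans_lt hpb)
      (by linarith) (by linarith [hc.qb]) (by rw [add_zero]; exact hS)
      (by rw [hLv i r' hr'R]; exact (hLmono i _ _ hr'.2).trans (hG i hi)) (ε * r') right_mem_uIcc
    refine ⟨p', q', ?_, ?_, hS'⟩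
    · calc |p'| = |(p' - p) + p| := by ring_nf
        _ ≤ |p' - p| + |p| := abs_add_le _ _
        _ ≤ p1 := by linarith
    · calc |q'| = |(q' - q) + q| := by ring_nf
        _ ≤ |q' - q| + |q| := abs_add_le _ _
        _ ≤ q1 := by linarith
  have hq0' : |q0| ≤ q1 := hq0.trans hc.dq.le
  obtain ⟨r, hr0, hrR, hr1, hr2⟩ := boot (n := n) (L := L) (R := R) (δ0 := δ0) (δ1 := δ1)
    (C4 := cc C η p1 q1) (θ := th η p1 q1) hR0 hδ0 hδ1 (le_max_left _ _) (th_pos hc) (th_lt hc)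
    h1 h2 (fun i _ => (hLc i).continuousOn) (fun i _ => hL0 i)
    (fun i _ x _ y _ hxy => hLmono i x y hxy) (by
      intro r hr hG
      constructor
      · intro i hi
        have e : L i r ≤ ∫ s in (0 : ℝ)..r, cc C η p1 q1 * th η p1 q1 ^ i * W (kk 0) s := by
          simp only [hL]
          apply intervalIntegral.integral_mono_on hr.1 ((hWc _).intervalIntegrable _ _)
            (((hWc _).const_mul _).intervalIntegrable _ _)
          intro s hs
          have hsR : |s| ≤ R := by rw [abs_of_nonneg hs.1]; exact hs.2.trans hr.2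
          rw [hWeq _ s hsR, hWeq _ s hsR]
          have := contr hc hinj h hq0' (hdom s hsR) hkk (fun l hl => by
            obtain ⟨j, p, q, hp, hq, hS⟩ := hv l hl
            obtain ⟨p', q', hp', hq', hS'⟩ := hpath r hr hG s hs l hl j p q hp hq hS
            exact ⟨j, p', q', hp', hq', hS'⟩) 0 i (Nat.zero_le _) hi
          simpa using this
        rw [intervalIntegral.integral_const_mul] at e
        exact e
      · simp only [hL]
        have e : ∫ s in (0 : ℝ)..r, (1 : ℝ) ≤ ∫ s in (0 : ℝ)..r, W (kk n) s := by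
          apply intervalIntegral.integral_mono_on hr.1 (by simp) ((hWc _).intervalIntegrable _ _)
          intro s hs
          have hsR : |s| ≤ R := by rw [abs_of_nonneg hs.1]; exact hs.2.trans hr.2
          rw [hWeq _ s hsR, hkn]
          exact (h.init _ (hdom s hsR)).1
        simpa using e)
  have hrI : r ∈ Icc 0 R := ⟨hr0.le, hrR⟩
  refine ⟨r, hr0, hrR, ?_, ?_, ?_⟩
  · rw [hLv 0 r hrI]; exact hr1
  · intro r' hr'
    rw [hLv 0 r' ⟨hr'.1, hr'.2.trans hrR⟩]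
    exact (hLmono 0 _ _ hr'.2).trans hr1.le
  · intro r' hr'
    exact ⟨hdom r' (by rw [abs_of_nonneg hr'.1]; exact hr'.2.trans hrR),
      hpath r hrI hr2 r' hr'⟩

end

end UCM

open UCM in
theorem specUC : SpecUC := by
  intro βp βq sg a d p1 q1 C η hc
  have hap := hc.ap
  have hpb := hc.pb
  have hdq := hc.dq
  have hqb := hc.qb
  have hη := hc.η0
  have hC := hc.C1
  have hD := D0_pos hc
  have hccpos : 0 < cc C η p1 q1 := lt_of_lt_of_le one_pos (le_max_left _ _)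
  set δ0 := min (p1 - a) (q1 - d) with hδ0
  have hδ0pos : 0 < δ0 := lt_min (by linarith) (by linarith)
  set δ1 := min 1 (δ0 / (2 * cc C η p1 q1)) with hδ1
  have hδ1pos : 0 < δ1 := lt_min one_pos (by positivity)
  have hδ1le : δ1 ≤ 1 := min_le_left _ _
  have h1 : cc C η p1 q1 * δ1 < δ0 := by
    calc cc C η p1 q1 * δ1 ≤ cc C η p1 q1 * (δ0 / (2 * cc C η p1 q1)) :=
          mul_le_mul_of_nonneg_left (min_le_right _ _) hccpos.le
      _ = δ0 / 2 := by field_simp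
      _ < δ0 := by linarith
  set M := C * (1 + 1 / (η * D0 p1 q1)) with hM
  have hinv : 0 < 1 / (η * D0 p1 q1) := by positivity
  have hM1 : 1 ≤ M := by
    rw [hM]; nlinarith
  have hM2 : 1 / (η * D0 p1 q1) ≤ M := by
    rw [hM]; nlinarith
  have hMpos : 0 < M := by linarith
  obtain ⟨n0, hn0⟩ := exists_pow_lt_of_lt_one
    (show 0 < (p1 - a) / (cc C η p1 q1 * δ1) from div_pos (by linarith) (by positivity)) (th_lt hc)
  refine ⟨M, δ1 / M, cc C η p1 q1, th η p1 q1, n0, hM1, by positivity, le_max_left _ _,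
    th_pos hc, th_lt hc, ?_⟩
  intro X S E j0 p0 q0 v A N N' hinj hp0 hq0 h t n kk hn hk0 hkn hkk hvis
  have h2 : cc C η p1 q1 * th η p1 q1 ^ n * δ1 < p1 - a := by
    have e1 : th η p1 q1 ^ n ≤ th η p1 q1 ^ n0 :=
      pow_le_pow_of_le_one (th_pos hc).le (th_lt hc).le hn
    have e2 : th η p1 q1 ^ n < (p1 - a) / (cc C η p1 q1 * δ1) := lt_of_le_of_lt e1 hn0
    rw [lt_div_iff₀ (by positivity)] at e2
    nlinarith
  have hq0' : |q0| ≤ q1 := hq0.trans hdq.le
  obtain ⟨rp, rp0, rpR, rp1, rp2, rp3⟩ := side hc hinj h hp0 hq0 hkk hkn hvis hδ0pos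
    (min_le_left _ _) (min_le_right _ _) hδ1pos h1 h2 (ε := 1) (Or.inl rfl)
  obtain ⟨rm, rm0, rmR, rm1, rm2, rm3⟩ := side hc hinj h hp0 hq0 hkk hkn hvis hδ0pos
    (min_le_left _ _) (min_le_right _ _) hδ1pos h1 h2 (ε := -1) (Or.inr rfl)
  simp only [one_mul] at rp1 rp2 rp3
  simp only [neg_one_mul] at rm1 rm2 rm3
  rw [hk0] at rp1 rp2 rm1 rm2
  -- the point
  obtain ⟨j, pt, qt, hpt, hqt, hSt⟩ := hvis 0 (Nat.zero_le _)
  rw [hk0] at hSt
  -- domain and visits on the whole interval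
  have dom : ∀ σ ∈ Icc (-rm) rp, |p0 + σ| ≤ p1 ∧ ∀ i ≤ n, ∀ (j : Bool) (p q : ℝ), |p| ≤ a →
      |q| ≤ d → S^[kk i] (E j0 p0 q0) = E j p q → ∃ p' q' : ℝ, |p'| ≤ p1 ∧ |q'| ≤ q1 ∧
          S^[kk i] (E j0 (p0 + σ) q0) = E j p' q' := by
    intro σ hσ
    rcases le_total 0 σ with h0 | h0
    · exact rp3 σ ⟨h0, hσ.2⟩
    · have := rm3 (-σ) ⟨by linarith, by linarith [hσ.1]⟩
      simpa using this
  have vis : ∀ i ≤ n, ∀ σ ∈ Icc (-rm) rp, S^[kk i] (E j0 (p0 + σ) q0) ∈ core E p1 q1 := by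
    intro i hi σ hσ
    obtain ⟨j', p, q, hp, hq, hS⟩ := hvis i hi
    obtain ⟨p', q', hp', hq', hS'⟩ := (dom σ hσ).2 i hi j' p q hp hq hS
    exact ⟨j', p', q', hp', hq', hS'⟩
  have att : ∀ σ ∈ Icc (-rm) rp, ∃ p' q' : ℝ, |p'| ≤ p1 ∧ |q'| ≤ q1 ∧
      S^[t] (E j0 (p0 + σ) q0) = E j p' q' := by
    intro σ hσ
    have := (dom σ hσ).2 0 (Nat.zero_le _) j pt qt hpt hqt (by rw [hk0]; exact hSt)
    rw [hk0] at this
    exact this
  -- global coordinates
  let cond : ℝ → Prop := fun σ => ∃ z : ℝ × ℝ, |z.1| < βp ∧ |z.2| < βq ∧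
    S^[t] (E j0 (p0 + σ) q0) = E j z.1 z.2
  classical
  let Z : ℝ → ℝ × ℝ := fun σ => if hh : cond σ then hh.choose else 0
  have hZ : ∀ σ p q, |p| < βp → |q| < βq → S^[t] (E j0 (p0 + σ) q0) = E j p q →
      Z σ = (p, q) := by
    intro σ p q hp hq hS
    have hh : cond σ := ⟨(p, q), hp, hq, hS⟩
    have hz : Z σ = hh.choose := dif_pos hh
    obtain ⟨z1, z2, z3⟩ := hh.choose_spec
    have := hinj j j _ _ p q z1 z2 hp hq (z3.symm.trans hS)
    rw [hz]
    exact Prod.ext this.2.1 this.2.2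
  set P : ℝ → ℝ := fun σ => (Z σ).1 with hPdef
  set Q : ℝ → ℝ := fun σ => (Z σ).2 with hQdef
  have loc : ∀ σ ∈ Icc (-rm) rp, |P σ| ≤ p1 ∧ |Q σ| ≤ q1 ∧
      S^[t] (E j0 (p0 + σ) q0) = E j (P σ) (Q σ) ∧ HasDerivAt P (deriv P σ) σ ∧
      HasDerivAt Q (deriv Q σ) σ ∧ ContinuousAt (deriv P) σ ∧
      0 ≤ sg * (deriv P σ * deriv Q σ) ∧ |deriv Q σ| ≤ (1 / (η * D0 p1 q1)) * |deriv P σ| ∧
      v t σ ≤ M * |deriv P σ| ∧ |deriv P σ| ≤ v t σ ∧ deriv P σ ≠ 0 := by
    intro σ hσ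
    obtain ⟨p', q', hp', hq', hS'⟩ := att σ hσ
    obtain ⟨Pl, Ql, Pl', Ql', hPl, hQl, hev, cP, hsg, n1, n2, n3, n4, -, -, -⟩ :=
      visit hc hinj h hq0' (dom σ hσ).1 hp' hq' hS'
    have hPc : ContinuousAt Pl σ := (hev.self_of_nhds).2.1.continuousAt
    have hQc : ContinuousAt Ql σ := (hev.self_of_nhds).2.2.continuousAt
    have e1 : ∀ᶠ r in 𝓝 σ, |Pl r| < βp := by
      apply (hPc.abs).eventually_lt continuousAt_const
      rw [hPl]; exact hp'.trans_lt hpb
    have e2 : ∀ᶠ r in 𝓝 σ, |Ql r| < βq := by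
      apply (hQc.abs).eventually_lt continuousAt_const
      rw [hQl]; exact hq'.trans_lt hqb
    have eP : P =ᶠ[𝓝 σ] Pl := by
      filter_upwards [hev, e1, e2] with r hr h1 h2
      simp only [hPdef]
      rw [hZ r (Pl r) (Ql r) h1 h2 hr.1]
    have eQ : Q =ᶠ[𝓝 σ] Ql := by
      filter_upwards [hev, e1, e2] with r hr h1 h2
      simp only [hQdef]
      rw [hZ r (Pl r) (Ql r) h1 h2 hr.1]
    have hdP : HasDerivAt P (Pl' σ) σ := ((hev.self_of_nhds).2.1).congr_of_eventuallyEq eP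
    have hdQ : HasDerivAt Q (Ql' σ) σ := ((hev.self_of_nhds).2.2).congr_of_eventuallyEq eQ
    have hderP : deriv P =ᶠ[𝓝 σ] Pl' := by
      filter_upwards [hev, eP.eventually_nhds] with r hr h1
      exact (hr.2.1.congr_of_eventuallyEq h1).deriv
    have hPv : P σ = p' := by rw [← hPl]; exact eP.self_of_nhds
    have hQv : Q σ = q' := by rw [← hQl]; exact eQ.self_of_nhds
    rw [hdP.deriv, hdQ.deriv, hPv, hQv]
    exact ⟨hp', hq', hS', hdP, hdQ, cP.congr hderP.symm, hsg, n1, n2, n3, n4⟩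
  -- continuity of the derivative
  have cont : ContinuousOn (deriv P) (Icc (-rm) rp) := fun σ hσ =>
    (loc σ hσ).2.2.2.2.2.1.continuousWithinAt
  have hle : -rm ≤ rp := by linarith
  -- constant sign
  have sign : (∀ σ ∈ Icc (-rm) rp, 0 < deriv P σ) ∨ (∀ σ ∈ Icc (-rm) rp, deriv P σ < 0) := by
    by_contra hcon
    push Not at hcon
    obtain ⟨⟨x, hx, hx'⟩, ⟨y, hy, hy'⟩⟩ := hcon
    have hpre : IsPreconnected (Icc (-rm) rp) := isPreconnected_Icc
    obtain ⟨z, hz, hz'⟩ := hpre.intermediate_value hx hy cont ⟨hx', hy'⟩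
    exact (loc z hz).2.2.2.2.2.2.2.2.2.2 hz'
  -- integrals
  have hvc : ContinuousOn (v t) (Icc (-rm) rp) := (h.v_cont t).mono (fun σ hσ =>
    (dom σ hσ).1.trans_lt hpb)
  have ftc : ∀ x y : ℝ, -rm ≤ x → x ≤ y → y ≤ rp → ∫ σ in x..y, deriv P σ = P y - P x := by
    intro x y hx hxy hy
    apply intervalIntegral.integral_eq_sub_of_hasDerivAt
    · intro s hs
      rw [uIcc_of_le hxy] at hs
      exact (loc s ⟨hx.trans hs.1, hs.2.trans hy⟩).2.2.2.1
    · apply ContinuousOn.intervalIntegrable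
      rw [uIcc_of_le hxy]
      exact cont.mono (Icc_subset_Icc hx hy)
  have vint : ∀ x y : ℝ, -rm ≤ x → x ≤ y → y ≤ rp → IntervalIntegrable (v t) volume x y := by
    intro x y hx hxy hy
    apply ContinuousOn.intervalIntegrable
    rw [uIcc_of_le hxy]
    exact hvc.mono (Icc_subset_Icc hx hy)
  have dint : ∀ x y : ℝ, -rm ≤ x → x ≤ y → y ≤ rp →
      IntervalIntegrable (deriv P) volume x y := by
    intro x y hx hxy hy
    apply ContinuousOn.intervalIntegrable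
    rw [uIcc_of_le hxy]
    exact cont.mono (Icc_subset_Icc hx hy)
  have low : ∀ x y : ℝ, -rm ≤ x → x ≤ y → y ≤ rp → ∫ σ in x..y, v t σ ≤ M * |P y - P x| := by
    intro x y hx hxy hy
    rw [← ftc x y hx hxy hy]
    rcases sign with hs | hs
    · have e : ∫ σ in x..y, v t σ ≤ ∫ σ in x..y, M * deriv P σ := by
        apply intervalIntegral.integral_mono_on hxy (vint x y hx hxy hy)
          ((dint x y hx hxy hy).const_mul _)
        intro s hs'
        have hsI : s ∈ Icc (-rm) rp := ⟨hx.trans hs'.1, hs'.2.trans hy⟩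
        have := (loc s hsI).2.2.2.2.2.2.2.2.1
        rwa [abs_of_pos (hs s hsI)] at this
      rw [intervalIntegral.integral_const_mul] at e
      exact e.trans (mul_le_mul_of_nonneg_left (le_abs_self _) hMpos.le)
    · have e : ∫ σ in x..y, v t σ ≤ ∫ σ in x..y, M * (-deriv P σ) := by
        apply intervalIntegral.integral_mono_on hxy (vint x y hx hxy hy)
          ((dint x y hx hxy hy).neg.const_mul _)
        intro s hs'
        have hsI : s ∈ Icc (-rm) rp := ⟨hx.trans hs'.1, hs'.2.trans hy⟩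
        have := (loc s hsI).2.2.2.2.2.2.2.2.1
        rwa [abs_of_neg (hs s hsI)] at this
      rw [intervalIntegral.integral_const_mul, intervalIntegral.integral_neg] at e
      exact e.trans (mul_le_mul_of_nonneg_left (neg_le_abs _) hMpos.le)
  have sgnP : ∀ x y : ℝ, -rm ≤ x → x ≤ y → y ≤ rp →
      (∀ σ ∈ Icc (-rm) rp, 0 < deriv P σ) → P x ≤ P y := by
    intro x y hx hxy hy hs
    have e := ftc x y hx hxy hy
    have : 0 ≤ ∫ σ in x..y, deriv P σ := intervalIntegral.integral_nonneg hxy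
      (fun s hs' => (hs s ⟨hx.trans hs'.1, hs'.2.trans hy⟩).le)
    linarith
  have sgnN : ∀ x y : ℝ, -rm ≤ x → x ≤ y → y ≤ rp →
      (∀ σ ∈ Icc (-rm) rp, deriv P σ < 0) → P y ≤ P x := by
    intro x y hx hxy hy hs
    have e := ftc x y hx hxy hy
    have : 0 ≤ ∫ σ in x..y, -deriv P σ := intervalIntegral.integral_nonneg hxy
      (fun s hs' => by
        have := hs s ⟨hx.trans hs'.1, hs'.2.trans hy⟩
        linarith)
    rw [intervalIntegral.integral_neg] at this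
    linarith
  have ip : ∫ σ in (0 : ℝ)..rp, v t σ = δ1 := by
    rw [← rp1, abs_of_nonneg]
    exact intervalIntegral.integral_nonneg rp0.le (fun s hs =>
      (h.v_pos t s ((dom s ⟨by linarith [hs.1], hs.2⟩).1.trans_lt hpb)).le)
  have im : ∫ σ in (-rm)..(0 : ℝ), v t σ = δ1 := by
    rw [← rm1, intervalIntegral.integral_symm (-rm) 0, abs_neg, abs_of_nonneg]
    exact intervalIntegral.integral_nonneg (by linarith) (fun s hs =>
      (h.v_pos t s ((dom s ⟨hs.1, by linarith [hs.2]⟩).1.trans_lt hpb)).le)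
  have lp := low 0 rp (by linarith) rp0.le le_rfl
  have lm := low (-rm) 0 le_rfl (by linarith) rp0.le
  rw [ip] at lp
  rw [im] at lm
  have lp' : δ1 / M ≤ |P rp - P 0| := by
    rw [div_le_iff₀ hMpos]; linarith
  have lm' : δ1 / M ≤ |P 0 - P (-rm)| := by
    rw [div_le_iff₀ hMpos]; linarith
  refine ⟨-rm, rp, j, P, Q, deriv P, deriv Q, ?_⟩
  refine
    { neg := by linarith
      pos := rp0
      dom := fun σ hσ => (dom σ hσ).1
      eq := fun σ hσ => (loc σ hσ).2.2.1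
      inP := fun σ hσ => (loc σ hσ).1
      inQ := fun σ hσ => (loc σ hσ).2.1
      dP := fun σ hσ => (loc σ hσ).2.2.2.1
      dQ := fun σ hσ => (loc σ hσ).2.2.2.2.1
      contP := cont
      nz := fun σ hσ => (loc σ hσ).2.2.2.2.2.2.2.2.2.2
      sgn := fun σ hσ => (loc σ hσ).2.2.2.2.2.2.1
      slope := fun σ hσ => (loc σ hσ).2.2.2.2.2.2.2.1.trans
        (mul_le_mul_of_nonneg_right hM2 (abs_nonneg _))
      vP := fun σ hσ => ⟨(loc σ hσ).2.2.2.2.2.2.2.2.2.1, (loc σ hσ).2.2.2.2.2.2.2.2.1⟩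
      sides := ?_
      len := ?_
      vis := vis
      contr := ?_ }
  · rcases sign with hs | hs
    · left
      have e1 := sgnP 0 rp (by linarith) rp0.le le_rfl hs
      have e2 := sgnP (-rm) 0 le_rfl (by linarith) rp0.le hs
      rw [abs_of_nonneg (by linarith)] at lp' lm'
      constructor <;> linarith
    · right
      have e1 := sgnN 0 rp (by linarith) rp0.le le_rfl hs
      have e2 := sgnN (-rm) 0 le_rfl (by linarith) rp0.le hs
      rw [abs_of_nonpos (by linarith)] at lp' lm'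
      constructor <;> linarith
  · intro σ hσ
    rcases le_total 0 σ with h0 | h0
    · exact (rp2 σ ⟨h0, hσ.2⟩).trans hδ1le
    · have := rm2 (-σ) ⟨by linarith, by linarith [hσ.1]⟩
      rw [neg_neg] at this
      exact this.trans hδ1le
  · intro i l hil hln σ hσ
    exact contr hc hinj h hq0' (dom σ hσ).1 hkk (fun l hl => vis l hl σ hσ) i l hil hln

end Pool.Agent.Lib.MP_d2b992_gt.Dyn
end
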