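import Mathlib
import Pool.Agent.Lib.MP_d2b992_gt.Dyn.Spec4
import Pool.Agent.Lib.MP_d2b992_gt.Dyn.Spec5

section
/-!
# Module SX1: the maps `PP`, `QQ` act on canonical states, are inverse to each other, measurable
-/
set_option autoImplicit false

open MeasureTheory Filter Topology Set
open scoped ContDiff

namespace Pool.Agent.Lib.MP_d2b992_gt.Dyn

open Pool.Agent.Lib.MP_d2b992_gt.T (Tw)

namespace SX1M

/-! ## the twist functions -/

theorem tw_F {b s : ℝ} {F G : ℝ → ℝ} (h : Tw b s F G) : TwP s F where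
  smooth := h.F_smooth
  sym := h.F_neg
  lo := Or.inl h.F_zero
  hi := Or.inr (fun c hc => by
    have := h.F_neg (-c)
    rw [neg_neg, h.F_zero (-c) (by linarith)] at this
    linarith)

theorem tw_neg {s : ℝ} {Φ : ℝ → ℝ} (h : TwP s Φ) : TwP s (fun c => Φ (-c)) where
  smooth := h.smooth.comp contDiff_neg
  sym := fun c => h.sym (-c)
  lo := by
    rcases h.hi with h1 | h1
    · exact Or.inl (fun c hc => h1 _ (by linarith))
    · exact Or.inr (fun c hc => h1 _ (by linarith))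
  hi := by
    rcases h.lo with h1 | h1
    · exact Or.inl (fun c hc => h1 _ (by linarith))
    · exact Or.inr (fun c hc => h1 _ (by linarith))

theorem tw_G {b s : ℝ} {F G : ℝ → ℝ} (h : Tw b s F G) : TwQ b G where
  smooth := h.G_smooth
  lo := h.G_zero
  hi := Or.inl (fun x hx => by
    have := h.G_neg (-x)
    rw [neg_neg, h.G_zero (-x) (by linarith)] at this
    linarith)

theorem tw_negG {b : ℝ} {Ψ : ℝ → ℝ} (h : TwQ b Ψ) : TwQ b (fun x => -Ψ x) where
  smooth := h.smooth.neg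
  lo := fun x hx => by rw [h.lo x hx, neg_zero]
  hi := by
    rcases h.hi with h1 | h1
    · exact Or.inr (fun x hx => by rw [h1 x hx])
    · exact Or.inl (fun x hx => by rw [h1 x hx, neg_neg])

/-! ## elementary facts -/

theorem rho_rho (n : V3) : rho (rho n) = n := by
  obtain ⟨x, D, c⟩ := n
  simp [rho]

theorem dot_rho (n : V3) : dot (rho n) (rho n) = dot n n := by
  simp [rho, dot]

theorem dot_Kq (Ψ : ℝ → ℝ) (n : V3) : dot (Kq Ψ n) (Kq Ψ n) = dot n n := by
  obtain ⟨x, D, c⟩ := n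
  simp only [Kq, dot]
  have := Real.sin_sq_add_cos_sq (Ψ x)
  linear_combination (D ^ 2 + c ^ 2) * this

theorem Kq_rho (Ψ : ℝ → ℝ) (n : V3) : Kq Ψ (rho n) = rho (Kq Ψ n) := by
  obtain ⟨x, D, c⟩ := n
  simp only [Kq, rho, Prod.mk.injEq, true_and]
  constructor <;> ring

theorem Kq_neg (Ψ : ℝ → ℝ) (n : V3) : Kq (fun x => -Ψ x) (Kq Ψ n) = n := by
  obtain ⟨x, D, c⟩ := n
  have := Real.sin_sq_add_cos_sq (Ψ x)
  simp only [Kq, Prod.mk.injEq, true_and, Real.cos_neg, Real.sin_neg]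
  constructor
  · linear_combination D * this
  · linear_combination c * this

/-! ## the annulus `|c| < s` -/

theorem dot_nn {Θ c : ℝ} (hc : |c| ≤ 1) : dot (nn Θ c) (nn Θ c) = 1 := by
  have h1 : 0 ≤ 1 - c ^ 2 := by
    have := abs_le.mp hc
    nlinarith [this.1, this.2]
  have h2 := Real.sq_sqrt h1
  have h3 := Real.sin_sq_add_cos_sq Θ
  simp only [dot, nn]
  linear_combination h2 + (Real.sqrt (1 - c ^ 2)) ^ 2 * h3

theorem exists_split (Θ : ℝ) : ∃ (k : ℤ) (θ : ℝ), Θ = k * Real.pi + θ ∧ -(Real.pi / 2) ≤ θ ∧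
    θ < Real.pi / 2 ∧ ⌊(Θ + Real.pi / 2) / Real.pi⌋ = k := by
  have hpi := Real.pi_pos
  refine ⟨⌊(Θ + Real.pi / 2) / Real.pi⌋, Θ - ⌊(Θ + Real.pi / 2) / Real.pi⌋ * Real.pi, by ring,
    ?_, ?_, rfl⟩
  · have := Int.floor_le ((Θ + Real.pi / 2) / Real.pi)
    rw [le_div_iff₀ hpi] at this
    linarith
  · have := Int.lt_floor_add_one ((Θ + Real.pi / 2) / Real.pi)
    rw [div_lt_iff₀ hpi] at this
    linarith

theorem floor_split (k : ℤ) {θ : ℝ} (h1 : -(Real.pi / 2) ≤ θ) (h2 : θ < Real.pi / 2) :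
    ⌊((k : ℝ) * Real.pi + θ + Real.pi / 2) / Real.pi⌋ = k := by
  have hpi := Real.pi_pos
  rw [Int.floor_eq_iff]
  constructor
  · rw [le_div_iff₀ hpi]; linarith
  · rw [div_lt_iff₀ hpi]; linarith

theorem lab_split (k : ℤ) {θ : ℝ} (h1 : -(Real.pi / 2) ≤ θ) (h2 : θ < Real.pi / 2) :
    lab (k * Real.pi + θ) = k % 4 := by
  unfold lab
  rw [floor_split k h1 h2]

theorem sin_cos_even {k : ℤ} (hk : k % 2 = 0) (θ : ℝ) :
    Real.sin (k * Real.pi + θ) = Real.sin θ ∧ Real.cos (k * Real.pi + θ) = Real.cos θ := by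
  obtain ⟨m, rfl⟩ : ∃ m, k = 2 * m := ⟨k / 2, by omega⟩
  have e : ((2 * m : ℤ) : ℝ) * Real.pi + θ = θ + m * (2 * Real.pi) := by push_cast; ring
  rw [e]
  exact ⟨Real.sin_add_int_mul_two_pi θ m, Real.cos_add_int_mul_two_pi θ m⟩

theorem sin_cos_odd {k : ℤ} (hk : k % 2 = 1) (θ : ℝ) :
    Real.sin (k * Real.pi + θ) = -Real.sin θ ∧ Real.cos (k * Real.pi + θ) = -Real.cos θ := by
  obtain ⟨m, rfl⟩ : ∃ m, k = 2 * m + 1 := ⟨k / 2, by omega⟩
  have e : ((2 * m + 1 : ℤ) : ℝ) * Real.pi + θ = (θ + Real.pi) + m * (2 * Real.pi) := by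
    push_cast; ring
  rw [e]
  exact ⟨by rw [Real.sin_add_int_mul_two_pi, Real.sin_add_pi],
    by rw [Real.cos_add_int_mul_two_pi, Real.cos_add_pi]⟩

theorem sqrt_pos' {c : ℝ} (hc : |c| < 1) : 0 < Real.sqrt (1 - c ^ 2) := by
  apply Real.sqrt_pos.mpr
  have := abs_lt.mp hc
  nlinarith [this.1, this.2]

/-- the angle of a point of the section -/
theorem ang_secP (k : ℤ) {θ c : ℝ} (h1 : -(Real.pi / 2) ≤ θ) (h2 : θ < Real.pi / 2)
    (hc : |c| < 1) : ang (secP (k * Real.pi + θ) c) = ((k % 4 : ℤ) : ℝ) * Real.pi + θ := by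
  have hpi := Real.pi_pos
  have hq := sqrt_pos' hc
  have harg : Complex.arg ⟨Real.sqrt (1 - c ^ 2) * Real.cos θ, Real.sqrt (1 - c ^ 2) * Real.sin θ⟩
      = θ := by
    have e : (⟨Real.sqrt (1 - c ^ 2) * Real.cos θ, Real.sqrt (1 - c ^ 2) * Real.sin θ⟩ : ℂ) =
        (Real.sqrt (1 - c ^ 2) : ℂ) * (Complex.cos θ + Complex.sin θ * Complex.I) := by
      apply Complex.ext
      · simp [Complex.cos_ofReal_re]
      · simp [Complex.sin_ofReal_re]
    rw [e]
    exact Complex.arg_mul_cos_add_sin_mul_I hq ⟨by linarith, by linarith⟩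
  unfold ang secP
  rw [lab_split k h1 h2]
  simp only
  rcases Int.emod_two_eq_zero_or_one k with hk | hk
  · have hk4 : k % 4 % 2 = 0 := by omega
    rw [if_pos hk4]
    obtain ⟨e1, e2⟩ := sin_cos_even hk θ
    simp only [nn, e1, e2, neg_neg]
    rw [harg]
  · have hk4 : ¬ k % 4 % 2 = 0 := by omega
    rw [if_neg hk4]
    obtain ⟨e1, e2⟩ := sin_cos_odd hk θ
    simp only [nn, e1, e2, mul_neg, neg_neg]
    rw [harg]

theorem secP_add (m : ℤ) (Θ c : ℝ) : secP (Θ + m * (4 * Real.pi)) c = secP Θ c := by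
  have hpi := Real.pi_pos
  obtain ⟨k, θ, hΘ, h1, h2, -⟩ := exists_split Θ
  have e : Θ + m * (4 * Real.pi) = ((k + 4 * m : ℤ) : ℝ) * Real.pi + θ := by
    rw [hΘ]; push_cast; ring
  have e2 : Θ + m * (4 * Real.pi) = Θ + ((2 * m : ℤ) : ℝ) * (2 * Real.pi) := by push_cast; ring
  unfold secP nn
  rw [show lab (Θ + m * (4 * Real.pi)) = lab Θ from by
    rw [e, lab_split _ h1 h2, hΘ, lab_split _ h1 h2]; omega]
  rw [e2, Real.sin_add_int_mul_two_pi, Real.cos_add_int_mul_two_pi]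

theorem secP_ang_secP (Θ c T : ℝ) (hc : |c| < 1) (c' : ℝ) (ε : ℝ) (hε : ε = 1 ∨ ε = -1) :
    secP (ε * ang (secP Θ c) + T) c' = secP (ε * Θ + T) c' := by
  obtain ⟨k, θ, hΘ, h1, h2, -⟩ := exists_split Θ
  rw [hΘ, ang_secP k h1 h2 hc]
  have hk : k = k % 4 + 4 * (k / 4) := by omega
  rcases hε with rfl | rfl
  · rw [← secP_add (k / 4) (1 * (((k % 4 : ℤ) : ℝ) * Real.pi + θ) + T) c']
    congr 1
    have : (k : ℝ) = ((k % 4 : ℤ) : ℝ) + 4 * ((k / 4 : ℤ) : ℝ) := by exact_mod_cast hk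
    rw [this]; ring
  · rw [← secP_add (-(k / 4)) (-1 * (((k % 4 : ℤ) : ℝ) * Real.pi + θ) + T) c']
    congr 1
    have : (k : ℝ) = ((k % 4 : ℤ) : ℝ) + 4 * ((k / 4 : ℤ) : ℝ) := by exact_mod_cast hk
    rw [this]; push_cast; ring

theorem can_secP {b s : ℝ} (hs1 : s < 1) (Θ : ℝ) {c : ℝ} (hc : |c| < s) :
    Can b s (secP Θ c) := by
  have hpi := Real.pi_pos
  have hc1 : |c| < 1 := hc.trans hs1
  have hq := sqrt_pos' hc1
  obtain ⟨k, θ, hΘ, h1, h2, -⟩ := exists_split Θ
  refine ⟨dot_nn hc1.le, ?_⟩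
  unfold secP
  rw [hΘ, lab_split k h1 h2]
  simp only
  have hcos : 0 ≤ Real.cos θ := Real.cos_nonneg_of_mem_Icc ⟨by linarith, h2.le⟩
  rcases Int.emod_two_eq_zero_or_one k with hk | hk
  · left
    refine ⟨by omega, ?_⟩
    obtain ⟨e1, e2⟩ := sin_cos_even hk θ
    simp only [nn, e1, e2]
    rcases h1.eq_or_lt with h | h
    · right
      have hc0 : Real.cos θ = 0 := by rw [← h, Real.cos_neg, Real.cos_pi_div_two]
      have hs0 : Real.sin θ = -1 := by rw [← h, Real.sin_neg, Real.sin_pi_div_two]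
      rw [hc0, hs0]
      exact ⟨by simp, Or.inl ⟨hc, by linarith⟩⟩
    · left
      have := Real.cos_pos_of_mem_Ioo ⟨h, h2⟩
      have := mul_pos hq this
      linarith
  · right
    refine ⟨by omega, ?_⟩
    obtain ⟨e1, e2⟩ := sin_cos_odd hk θ
    simp only [nn, e1, e2]
    rcases h1.eq_or_lt with h | h
    · right
      have hc0 : Real.cos θ = 0 := by rw [← h, Real.cos_neg, Real.cos_pi_div_two]
      have hs0 : Real.sin θ = -1 := by rw [← h, Real.sin_neg, Real.sin_pi_div_two]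
      rw [hc0, hs0]
      exact ⟨by simp, Or.inl ⟨hc, by linarith⟩⟩
    · left
      have := Real.cos_pos_of_mem_Ioo ⟨h, h2⟩
      have := mul_pos hq this
      linarith

/-- polar form of a canonical state in the annulus `|c| < s` -/
theorem secP_ang {b s : ℝ} (hs1 : s < 1) {z : XS} (hz : Can b s z) (hc : |z.2.2.2| < s) :
    secP (ang z) z.2.2.2 = z := by
  have hpi := Real.pi_pos
  obtain ⟨j, x, D, c⟩ := z
  simp only at hc
  have hc1 : |c| < 1 := hc.trans hs1
  have hq := sqrt_pos' hc1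
  obtain ⟨hdot, hz⟩ := hz
  simp only [dot] at hdot
  have hq2 : Real.sqrt (1 - c ^ 2) ^ 2 = x ^ 2 + D ^ 2 := by
    rw [Real.sq_sqrt (by have := abs_lt.mp hc1; nlinarith [this.1, this.2])]
    linarith
  -- the general computation
  have key : ∀ (u v : ℝ), u ^ 2 + v ^ 2 = x ^ 2 + D ^ 2 → (0 < u ∨ (u = 0 ∧ v < 0)) →
      -(Real.pi / 2) ≤ Complex.arg ⟨u, v⟩ ∧ Complex.arg ⟨u, v⟩ < Real.pi / 2 ∧
      Real.sqrt (1 - c ^ 2) * Real.cos (Complex.arg ⟨u, v⟩) = u ∧
      Real.sqrt (1 - c ^ 2) * Real.sin (Complex.arg ⟨u, v⟩) = v := by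
    intro u v huv h
    have hnorm : ‖(⟨u, v⟩ : ℂ)‖ = Real.sqrt (1 - c ^ 2) := by
      rw [Complex.norm_def, Complex.normSq_mk]
      rw [show u * u + v * v = Real.sqrt (1 - c ^ 2) ^ 2 from by rw [hq2]; linarith]
      exact Real.sqrt_sq hq.le
    have hne : (⟨u, v⟩ : ℂ) ≠ 0 := by
      intro h0
      rw [h0, norm_zero] at hnorm
      linarith
    have hcos : Real.sqrt (1 - c ^ 2) * Real.cos (Complex.arg ⟨u, v⟩) = u := by
      rw [Complex.cos_arg hne, hnorm]
      field_simp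
    have hsin : Real.sqrt (1 - c ^ 2) * Real.sin (Complex.arg ⟨u, v⟩) = v := by
      rw [Complex.sin_arg, hnorm]
      field_simp
    refine ⟨?_, ?_, hcos, hsin⟩
    · have h0 : 0 ≤ (⟨u, v⟩ : ℂ).re := by rcases h with h | h; exacts [h.le, h.1.ge]
      have := Complex.abs_arg_le_pi_div_two_iff.mpr h0
      exact (abs_le.mp this).1
    · rcases h with h | ⟨h, h'⟩
      · have := Complex.abs_arg_lt_pi_div_two_iff.mpr (Or.inl h : 0 < (⟨u, v⟩ : ℂ).re ∨ _)
        exact (abs_lt.mp this).2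
      · have : Complex.arg ⟨u, v⟩ < 0 := Complex.arg_neg_iff.mpr h'
        linarith
  rcases hz with ⟨hj, hD⟩ | ⟨hj, hD⟩
  · simp only at hj hD
    have hcase : (0 : ℝ) < -D ∨ (-D = 0 ∧ x < 0) := by
      rcases hD with hD | ⟨hD, h | h⟩
      · left; linarith
      · right; exact ⟨by linarith, h.2⟩
      · exact absurd hc (not_lt.mpr h.1)
    obtain ⟨k1, k2, k3, k4⟩ := key (-D) x (by ring) hcase
    have hj2 : j % 2 = 0 := by omega
    have hang : ang (j, x, D, c) = (j : ℝ) * Real.pi + Complex.arg ⟨-D, x⟩ := by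
      unfold ang
      simp only
      rw [if_pos hj2]
    simp only
    rw [hang]
    unfold secP
    rw [lab_split j k1 k2]
    obtain ⟨e1, e2⟩ := sin_cos_even hj2 (Complex.arg ⟨-D, x⟩)
    simp only [nn, e1, e2, k3, k4, neg_neg]
    rw [show j % 4 = j from by omega]
  · simp only at hj hD
    have hcase : (0 : ℝ) < D ∨ (D = 0 ∧ -x < 0) := by
      rcases hD with hD | ⟨hD, h | h⟩
      · left; exact hD
      · right; exact ⟨hD, by linarith [h.2]⟩
      · exact absurd hc (not_lt.mpr h.1)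
    obtain ⟨k1, k2, k3, k4⟩ := key D (-x) (by ring) hcase
    have hj2 : j % 2 = 1 := by omega
    have hang : ang (j, x, D, c) = (j : ℝ) * Real.pi + Complex.arg ⟨D, -x⟩ := by
      unfold ang
      simp only
      rw [if_neg (by omega)]
    simp only
    rw [hang]
    unfold secP
    rw [lab_split j k1 k2]
    obtain ⟨e1, e2⟩ := sin_cos_odd hj2 (Complex.arg ⟨D, -x⟩)
    simp only [nn, e1, e2, mul_neg, k3, k4, neg_neg]
    rw [show j % 4 = j from by omega]

/-! ## `PP` preserves `Can` and inverts -/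

theorem twP_cases {s : ℝ} (hs : 0 < s) {Φ : ℝ → ℝ} (h : TwP s Φ) :
    ((∀ c, c ≤ -s → Φ c = 0) ∧ (∀ c, s ≤ c → Φ c = -(2 * Real.pi))) ∨
    ((∀ c, c ≤ -s → Φ c = -(2 * Real.pi)) ∧ (∀ c, s ≤ c → Φ c = 0)) := by
  have hpi := Real.pi_pos
  rcases h.lo with h1 | h1
  · left
    refine ⟨h1, fun c hc => ?_⟩
    have := h.sym (-c)
    rw [neg_neg, h1 (-c) (by linarith)] at this
    linarith
  · right
    refine ⟨h1, fun c hc => ?_⟩
    have := h.sym (-c)
    rw [neg_neg, h1 (-c) (by linarith)] at this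
    linarith

theorem two_pi_ne : -(2 * Real.pi) ≠ 0 := by
  have := Real.pi_pos
  intro h
  linarith

theorem canC0 (n : V3) : canC 0 n = secQ 0 n := by simp [canC]
theorem canC2 (n : V3) : canC 2 n = secQ 2 n := by simp [canC]
theorem canC1 (n : V3) : canC 1 n = secF n := by simp [canC]
theorem canC3 (n : V3) : canC 3 n = secF (rho n) := by simp [canC]

theorem can_secQ {b s : ℝ} {j : ℤ} (hj : j = 0 ∨ j = 2) {κ : V3} (h1 : dot κ κ = 1)
    (h2 : κ.2.1 = 0 → s ≤ |κ.2.2| ∧ |κ.1| < b) (hs : 0 < s) : Can b s (secQ j κ) := by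
  obtain ⟨x, D, c⟩ := κ
  simp only at h2
  unfold secQ
  simp only
  split_ifs with h
  · refine ⟨h1, Or.inl ⟨hj, ?_⟩⟩
    simp only
    rcases h with h | ⟨h, h'⟩
    · exact Or.inl h
    · exact Or.inr ⟨h, Or.inr ⟨(h2 h).1, (h2 h).2, h'⟩⟩
  · refine ⟨by rw [dot_rho]; exact h1, Or.inl ⟨hj, ?_⟩⟩
    simp only [rho]
    push Not at h
    rcases h.1.eq_or_lt with h0 | h0
    · right
      have h3 := h2 h0.symm
      have h4 := h.2 h0.symm
      have h5 : c ≠ 0 := by
        rintro rfl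
        simp at h3
        linarith [h3.1]
      refine ⟨by linarith, Or.inr ⟨by rw [abs_neg]; exact h3.1, h3.2, ?_⟩⟩
      have : c < 0 := lt_of_le_of_ne h4 h5
      linarith
    · left; linarith

theorem can_secF {b s : ℝ} {κ : V3} (h1 : dot κ κ = 1)
    (h2 : κ.2.1 = 0 → s ≤ |κ.2.2| ∧ |κ.1| < b) : Can b s (secF κ) := by
  obtain ⟨x, D, c⟩ := κ
  simp only at h2
  unfold secF
  simp only
  split_ifs with h
  · refine ⟨h1, Or.inr ⟨Or.inl rfl, ?_⟩⟩
    simp only
    rcases h.eq_or_lt with h0 | h0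
    · exact Or.inr ⟨h0.symm, Or.inr ⟨(h2 h0.symm).1, (h2 h0.symm).2, trivial⟩⟩
    · exact Or.inl h0
  · refine ⟨by rw [dot_rho]; exact h1, Or.inr ⟨Or.inr rfl, ?_⟩⟩
    simp only [rho]
    left
    push Not at h
    linarith

/-- on the caps, `D = 0` forces `|x| < b` for canonical states -/
theorem can_cap {b s : ℝ} {z : XS} (hz : Can b s z) (hc : s ≤ |z.2.2.2|) (hD : z.2.2.1 = 0) :
    |z.2.1| < b := by
  obtain ⟨-, h⟩ := hz
  rcases h with ⟨-, h | ⟨-, h | h⟩⟩ | ⟨-, h | ⟨-, h | h⟩⟩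
  · exact absurd hD h.ne
  · exact absurd h.1 (not_lt.mpr hc)
  · exact h.2.1
  · exact absurd hD h.ne'
  · exact absurd h.1 (not_lt.mpr hc)
  · exact h.2.1

theorem can_canC {b s : ℝ} (hs : 0 < s) {j : ℤ} (hj : j = 0 ∨ j = 1 ∨ j = 2 ∨ j = 3) {κ : V3}
    (h1 : dot κ κ = 1) (h2 : κ.2.1 = 0 → s ≤ |κ.2.2| ∧ |κ.1| < b) : Can b s (canC j κ) := by
  rcases hj with rfl | rfl | rfl | rfl
  · rw [canC0]; exact can_secQ (Or.inl rfl) h1 h2 hs
  · rw [canC1]; exact can_secF h1 h2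
  · rw [canC2]; exact can_secQ (Or.inr rfl) h1 h2 hs
  · rw [canC3]
    refine can_secF (by rw [dot_rho]; exact h1) ?_
    simp only [rho, neg_eq_zero, abs_neg]
    exact h2

theorem can_label {b s : ℝ} {z : XS} (hz : Can b s z) : z.1 = 0 ∨ z.1 = 1 ∨ z.1 = 2 ∨ z.1 = 3 := by
  rcases hz.2 with h | h
  · rcases h.1 with h | h <;> simp [h]
  · rcases h.1 with h | h <;> simp [h]

theorem can_PP {b s : ℝ} (hs : 0 < s) (hs1 : s < 1) (Φ : ℝ → ℝ) {z : XS}
    (hz : Can b s z) : Can b s (PP s Φ z) := by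
  unfold PP
  split_ifs with h1 h2
  · exact can_secP hs1 _ (by rw [abs_neg]; exact h1)
  · refine can_canC hs ?_ (by rw [dot_rho]; exact hz.1) ?_
    · rcases can_label hz with h | h | h | h <;> rw [h] <;> decide
    · intro hD
      simp only [rho, neg_eq_zero, abs_neg] at hD ⊢
      exact ⟨not_lt.mp h1, can_cap hz (not_lt.mp h1) hD⟩
  · refine can_canC hs ?_ (by rw [dot_rho]; exact hz.1) ?_
    · rcases can_label hz with h | h | h | h <;> rw [h] <;> decide
    · intro hD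
      simp only [rho, neg_eq_zero, abs_neg] at hD ⊢
      exact ⟨not_lt.mp h1, can_cap hz (not_lt.mp h1) hD⟩

theorem cap_aux {s : ℝ} {Φ : ℝ → ℝ} {j : ℤ} {x D c : ℝ} (hc : ¬ |c| < s)
    (hΦ : (Φ c = 0 ∧ Φ (-c) = -(2 * Real.pi)) ∨ (Φ c = -(2 * Real.pi) ∧ Φ (-c) = 0))
    (h0 : c < 0 ∨ 0 < c)
    (hz : ((j = 0 ∨ j = 2) ∧ (D < 0 ∨ (D = 0 ∧ 0 < c))) ∨ ((j = 1 ∨ j = 3) ∧ 0 < D) ∨
      (j = 1 ∧ D = 0)) :
    PP s (fun c => Φ (-c)) (PP s Φ (j, x, D, c)) = (j, x, D, c) := by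
  have hnc : ¬ |(-c)| < s := by rw [abs_neg]; exact hc
  have h2p := two_pi_ne
  rcases hz with ⟨hj, hD | ⟨hD, hcp⟩⟩ | ⟨hj, hD⟩ | ⟨hj, hD⟩
  · have a1 : ¬ 0 < D := not_lt.mpr hD.le
    have a2 : ¬ 0 ≤ D := not_le.mpr hD
    have a3 : D ≠ 0 := hD.ne
    rcases hΦ with ⟨e1, e2⟩ | ⟨e1, e2⟩ <;> rcases hj with rfl | rfl <;>
      simp [PP, hc, e1, e2, canC, secQ, secF, rho, hD, hD.le, a1, a2, a3]
  · subst hD
    have a1 : ¬ c < 0 := not_lt.mpr hcp.le
    rcases hΦ with ⟨e1, e2⟩ | ⟨e1, e2⟩ <;> rcases hj with rfl | rfl <;>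
      simp [PP, hc, e1, e2, canC, secQ, secF, rho, hcp, hcp.le, a1]
  · have a1 : ¬ D < 0 := not_lt.mpr hD.le
    have a2 : ¬ D ≤ 0 := not_le.mpr hD
    have a3 : D ≠ 0 := hD.ne'
    rcases hΦ with ⟨e1, e2⟩ | ⟨e1, e2⟩ <;> rcases hj with rfl | rfl <;>
      simp [PP, hc, e1, e2, canC, secQ, secF, rho, hD, hD.le, a1, a2, a3]
  · subst hD
    subst hj
    rcases h0 with h0 | h0
    · have a1 : ¬ 0 < c := not_lt.mpr h0.le
      rcases hΦ with ⟨e1, e2⟩ | ⟨e1, e2⟩ <;>
        simp [PP, hc, e1, e2, canC, secQ, secF, rho, h0, h0.le, a1]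
    · have a1 : ¬ c < 0 := not_lt.mpr h0.le
      rcases hΦ with ⟨e1, e2⟩ | ⟨e1, e2⟩ <;>
        simp [PP, hc, e1, e2, canC, secQ, secF, rho, h0, h0.le, a1]

theorem PP_inv {b s : ℝ} (hs : 0 < s) (hs1 : s < 1) {Φ : ℝ → ℝ} (hΦ : TwP s Φ) {z : XS}
    (hz : Can b s z) : PP s (fun c => Φ (-c)) (PP s Φ z) = z := by
  by_cases hc : |z.2.2.2| < s
  · have e1 : PP s Φ z = secP (Real.pi - ang z - Φ z.2.2.2) (-z.2.2.2) := by
      unfold PP; rw [if_pos hc]
    rw [e1]
    have hc' : |(secP (Real.pi - ang z - Φ z.2.2.2) (-z.2.2.2)).2.2.2| < s := by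
      simp only [secP, nn, abs_neg]; exact hc
    unfold PP
    rw [if_pos hc']
    simp only [secP, nn, neg_neg]
    have e2 := secP_ang_secP (Real.pi - ang z - Φ z.2.2.2) (-z.2.2.2)
      (Real.pi - Φ z.2.2.2) (by rw [abs_neg]; exact hc.trans hs1) z.2.2.2 (-1) (Or.inr rfl)
    have e3 : -1 * (Real.pi - ang z - Φ z.2.2.2) + (Real.pi - Φ z.2.2.2) = ang z := by ring
    rw [e3, secP_ang hs1 hz hc] at e2
    have e4 : Real.pi - ang (secP (Real.pi - ang z - Φ z.2.2.2) (-z.2.2.2)) - Φ z.2.2.2 =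
      -1 * ang (secP (Real.pi - ang z - Φ z.2.2.2) (-z.2.2.2)) + (Real.pi - Φ z.2.2.2) := by ring
    rw [← e4] at e2
    simpa only [secP, nn] using e2
  · have hc' := not_lt.mp hc
    obtain ⟨j, x, D, c⟩ := z
    simp only at hc hc'
    obtain ⟨-, hz2⟩ := hz
    simp only at hz2
    have hcs : c ≤ -s ∨ s ≤ c := by
      rcases le_abs.mp hc' with h | h
      · right; exact h
      · left; linarith
    refine cap_aux hc ?_ ?_ ?_
    · rcases twP_cases hs hΦ with ⟨t1, t2⟩ | ⟨t1, t2⟩ <;> rcases hcs with hcs | hcs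
      · exact Or.inl ⟨t1 c hcs, t2 (-c) (by linarith)⟩
      · exact Or.inr ⟨t2 c hcs, t1 (-c) (by linarith)⟩
      · exact Or.inr ⟨t1 c hcs, t2 (-c) (by linarith)⟩
      · exact Or.inl ⟨t2 c hcs, t1 (-c) (by linarith)⟩
    · rcases hcs with hcs | hcs
      · left; linarith
      · right; linarith
    · rcases hz2 with ⟨hj, h⟩ | ⟨hj, h⟩
      · left
        refine ⟨hj, ?_⟩
        rcases h with h | ⟨h, h' | h'⟩
        · exact Or.inl h
        · exact absurd h'.1 hc
        · exact Or.inr ⟨h, h'.2.2⟩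
      · right
        rcases h with h | ⟨h, h' | h'⟩
        · exact Or.inl ⟨hj, h⟩
        · exact absurd h'.1 hc
        · exact Or.inr ⟨h'.2.2, h⟩

/-! ## `QQ` -/

theorem cap_of_D {b s : ℝ} (hsb : s ^ 2 + b ^ 2 = 1) (hs : 0 < s) {n : V3}
    (h1 : dot n n = 1) (hx : |n.1| < b) (hD : n.2.1 = 0) : s < |n.2.2| := by
  obtain ⟨x, D, c⟩ := n
  simp only [dot] at h1 hx hD ⊢
  subst hD
  have hx2 : x ^ 2 < b ^ 2 := by
    have := abs_nonneg x
    rw [← sq_abs x]; nlinarith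
  have hc2 : s ^ 2 < |c| ^ 2 := by rw [sq_abs]; nlinarith
  exact lt_of_pow_lt_pow_left₀ 2 (abs_nonneg c) hc2

theorem Kq_fst (Ψ : ℝ → ℝ) (n : V3) : (Kq Ψ n).1 = n.1 := rfl

theorem can_QQ {b s : ℝ} (hsb : s ^ 2 + b ^ 2 = 1) (hs : 0 < s) (Ψ : ℝ → ℝ) {z : XS}
    (hz : Can b s z) : Can b s (QQ b Ψ z) := by
  unfold QQ
  split_ifs with h
  · have h1 : dot (Kq Ψ z.2) (Kq Ψ z.2) = 1 := by rw [dot_Kq]; exact hz.1
    refine can_secQ ?_ h1 ?_ hs
    · rcases can_label hz with h' | h' | h' | h' <;> rw [h'] at h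
      · exact Or.inl h'
      · norm_num at h
      · exact Or.inr h'
      · norm_num at h
    · intro hD
      exact ⟨(cap_of_D hsb hs h1 h.2 hD).le, h.2⟩
  · exact hz

theorem secQ_can {b s : ℝ} (hsb : s ^ 2 + b ^ 2 = 1) (hs : 0 < s) {z : XS}
    (hz : Can b s z) (h : z.1 % 2 = 0) (hx : |z.2.1| < b) :
    secQ z.1 z.2 = z ∧ secQ z.1 (rho z.2) = z := by
  have hcap := cap_of_D hsb hs hz.1 hx
  obtain ⟨j, x, D, c⟩ := z
  simp only at h hx hcap
  have hz2 := hz.2
  simp only at hz2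
  rcases hz2 with ⟨hj, h'⟩ | ⟨hj, h'⟩
  · rcases h' with h' | ⟨h', h'' | h''⟩
    · have a1 : ¬ 0 < D := not_lt.mpr h'.le
      have a2 : D ≠ 0 := h'.ne
      constructor <;> simp [secQ, rho, h', a1, a2]
    · exact absurd h''.1 (not_lt.mpr (hcap h').le)
    · subst h'
      have a1 : ¬ c < 0 := not_lt.mpr h''.2.2.le
      constructor <;> simp [secQ, rho, h''.2.2, a1]
  · exfalso; omega

theorem QQ_inv {b s : ℝ} (hsb : s ^ 2 + b ^ 2 = 1) (hs : 0 < s) (Ψ : ℝ → ℝ) {z : XS}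
    (hz : Can b s z) : QQ b (fun x => -Ψ x) (QQ b Ψ z) = z := by
  by_cases h : z.1 % 2 = 0 ∧ |z.2.1| < b
  · obtain ⟨k1, k2⟩ := secQ_can hsb hs hz h.1 h.2
    have e : QQ b Ψ z = (z.1, Kq Ψ z.2) ∨ QQ b Ψ z = (z.1, rho (Kq Ψ z.2)) := by
      unfold QQ secQ
      rw [if_pos h]
      split_ifs
      · exact Or.inl rfl
      · exact Or.inr rfl
    rcases e with e | e
    · rw [e]
      have h' : (z.1, Kq Ψ z.2).1 % 2 = 0 ∧ |(z.1, Kq Ψ z.2).2.1| < b := h
      unfold QQ
      rw [if_pos h', Kq_neg]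
      exact k1
    · rw [e]
      have h' : (z.1, rho (Kq Ψ z.2)).1 % 2 = 0 ∧ |(z.1, rho (Kq Ψ z.2)).2.1| < b := h
      unfold QQ
      rw [if_pos h', Kq_rho, Kq_neg]
      exact k2
  · have e : QQ b Ψ z = z := by unfold QQ; rw [if_neg h]
    rw [e]
    unfold QQ
    rw [if_neg h]

/-! ## measurability -/

theorem meas_can (b s : ℝ) : MeasurableSet {z : XS | Can b s z} := by
  have m1 : Measurable (fun z : XS => z.1) := measurable_fst
  have mx : Measurable (fun z : XS => z.2.1) := measurable_snd.fst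
  have mD : Measurable (fun z : XS => z.2.2.1) := measurable_snd.snd.fst
  have mc : Measurable (fun z : XS => z.2.2.2) := measurable_snd.snd.snd
  have mdot : Measurable (fun z : XS => dot z.2 z.2) := by
    unfold dot
    exact ((mx.mul mx).add (mD.mul mD)).add (mc.mul mc)
  have ml : ∀ k : ℤ, MeasurableSet {z : XS | z.1 = k} := fun k =>
    m1 (measurableSet_singleton k)
  unfold Can
  refine MeasurableSet.inter (measurableSet_eq_fun mdot measurable_const) (MeasurableSet.union ?_ ?_)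
  · refine ((ml 0).union (ml 2)).inter ((measurableSet_lt mD measurable_const).union
      ((measurableSet_eq_fun mD measurable_const).inter (MeasurableSet.union ?_ ?_)))
    · exact (measurableSet_lt mc.abs measurable_const).inter (measurableSet_lt mx measurable_const)
    · exact (measurableSet_le measurable_const mc.abs).inter
        ((measurableSet_lt mx.abs measurable_const).inter (measurableSet_lt measurable_const mc))
  · refine ((ml 1).union (ml 3)).inter ((measurableSet_lt measurable_const mD).union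
      ((measurableSet_eq_fun mD measurable_const).inter (MeasurableSet.union ?_ ?_)))
    · exact (measurableSet_lt mc.abs measurable_const).inter (measurableSet_lt measurable_const mx)
    · exact (measurableSet_le measurable_const mc.abs).inter
        ((measurableSet_lt mx.abs measurable_const).inter (ml 1))

theorem meas_lab : Measurable lab := by
  unfold lab
  exact (measurable_from_top (f := fun k : ℤ => k % 4)).comp
    (Int.measurable_floor.comp ((measurable_id.add_const _).div_const _))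

theorem meas_nn : Measurable (fun p : ℝ × ℝ => nn p.1 p.2) := by
  unfold nn
  have h1 : Measurable (fun p : ℝ × ℝ => Real.sqrt (1 - p.2 ^ 2)) :=
    (measurable_const.sub (measurable_snd.pow_const 2)).sqrt
  exact (h1.mul (Real.measurable_sin.comp measurable_fst)).prodMk
    ((h1.mul (Real.measurable_cos.comp measurable_fst)).neg.prodMk measurable_snd)

theorem meas_secP : Measurable (fun p : ℝ × ℝ => secP p.1 p.2) := by
  unfold secP
  exact (meas_lab.comp measurable_fst).prodMk meas_nn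

theorem meas_rho : Measurable rho := by
  unfold rho
  exact measurable_fst.prodMk (measurable_snd.fst.neg.prodMk measurable_snd.snd.neg)

theorem meas_ang : Measurable ang := by
  unfold ang
  have m1 : Measurable (fun z : XS => ((z.1 : ℤ) : ℝ)) :=
    (measurable_from_top (f := fun k : ℤ => (k : ℝ))).comp measurable_fst
  have mx : Measurable (fun z : XS => z.2.1) := measurable_snd.fst
  have mD : Measurable (fun z : XS => z.2.2.1) := measurable_snd.snd.fst
  have mk : ∀ u v : XS → ℝ, Measurable u → Measurable v →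
      Measurable (fun z => Complex.arg ⟨u z, v z⟩) := by
    intro u v hu hv
    have : (fun z => Complex.arg ⟨u z, v z⟩) =
        fun z => Complex.arg ((u z : ℂ) + (v z : ℂ) * Complex.I) := by
      funext z
      congr 1
      apply Complex.ext <;> simp
    rw [this]
    exact Complex.measurable_arg.comp ((Complex.measurable_ofReal.comp hu).add
      ((Complex.measurable_ofReal.comp hv).mul_const _))
  refine (m1.mul_const _).add (Measurable.ite ?_ (mk _ _ mD.neg mx) (mk _ _ mD mx.neg))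
  exact measurable_fst (MeasurableSet.of_discrete (s := {k : ℤ | k % 2 = 0}))

theorem meas_secQ : Measurable (fun p : ℤ × V3 => secQ p.1 p.2) := by
  unfold secQ
  have mD : Measurable (fun p : ℤ × V3 => p.2.2.1) := measurable_snd.snd.fst
  have mc : Measurable (fun p : ℤ × V3 => p.2.2.2) := measurable_snd.snd.snd
  refine Measurable.ite ?_ (measurable_fst.prodMk measurable_snd)
    (measurable_fst.prodMk (meas_rho.comp measurable_snd))
  exact (measurableSet_lt mD measurable_const).union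
    ((measurableSet_eq_fun mD measurable_const).inter (measurableSet_lt measurable_const mc))

theorem meas_secF : Measurable secF := by
  unfold secF
  refine Measurable.ite (measurableSet_le measurable_const measurable_snd.fst)
    (measurable_const.prodMk measurable_id) (measurable_const.prodMk meas_rho)

theorem meas_canC : Measurable (fun p : ℤ × V3 => canC p.1 p.2) := by
  unfold canC
  refine Measurable.ite ?_ meas_secQ (Measurable.ite ?_ (meas_secF.comp measurable_snd)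
    (meas_secF.comp (meas_rho.comp measurable_snd)))
  · exact measurable_fst (MeasurableSet.of_discrete (s := {k : ℤ | k % 2 = 0}))
  · exact measurable_fst (MeasurableSet.of_discrete (s := {k : ℤ | k % 4 = 1}))

theorem meas_PP (s : ℝ) {Φ : ℝ → ℝ} (hΦ : Measurable Φ) : Measurable (PP s Φ) := by
  unfold PP
  have mc : Measurable (fun z : XS => z.2.2.2) := measurable_snd.snd.snd
  have mr : Measurable (fun z : XS => rho z.2) := meas_rho.comp measurable_snd
  refine Measurable.ite (measurableSet_lt mc.abs measurable_const) ?_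
    (Measurable.ite (measurableSet_eq_fun (hΦ.comp mc) measurable_const) ?_ ?_)
  · exact meas_secP.comp (((measurable_const.sub meas_ang).sub (hΦ.comp mc)).prodMk mc.neg)
  · exact meas_canC.comp (((measurable_from_top (f := fun k : ℤ => (1 - k) % 4)).comp
      measurable_fst).prodMk mr)
  · exact meas_canC.comp (((measurable_from_top (f := fun k : ℤ => (3 - k) % 4)).comp
      measurable_fst).prodMk mr)

theorem meas_Kq {Ψ : ℝ → ℝ} (hΨ : Measurable Ψ) : Measurable (Kq Ψ) := by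
  unfold Kq
  have mx : Measurable (fun n : V3 => n.1) := measurable_fst
  have mD : Measurable (fun n : V3 => n.2.1) := measurable_snd.fst
  have mc : Measurable (fun n : V3 => n.2.2) := measurable_snd.snd
  have ms : Measurable (fun n : V3 => Real.sin (Ψ n.1)) := Real.measurable_sin.comp (hΨ.comp mx)
  have mo : Measurable (fun n : V3 => Real.cos (Ψ n.1)) := Real.measurable_cos.comp (hΨ.comp mx)
  exact mx.prodMk (((mD.mul mo).sub (mc.mul ms)).prodMk ((mD.mul ms).add (mc.mul mo)))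

theorem meas_QQ (b : ℝ) {Ψ : ℝ → ℝ} (hΨ : Measurable Ψ) : Measurable (QQ b Ψ) := by
  unfold QQ
  have mx : Measurable (fun z : XS => z.2.1) := measurable_snd.fst
  refine Measurable.ite ?_ (meas_secQ.comp (measurable_fst.prodMk
    ((meas_Kq hΨ).comp measurable_snd))) measurable_id
  exact (measurable_fst (MeasurableSet.of_discrete (s := {k : ℤ | k % 2 = 0}))).inter
    (measurableSet_lt mx.abs measurable_const)

end SX1M

open SX1M in
/-- Module SX1. -/
theorem specSX1 : SpecSX1 := by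
  intro b s F G h
  have hs := h.s0
  have hb := h.b0
  have hsb := h.sb
  have hs1 : s < 1 := by nlinarith
  have hF := tw_F h
  have hF' := tw_neg hF
  have hG := tw_G h
  have hG' := tw_negG hG
  have mF : Measurable F := hF.smooth.continuous.measurable
  have mF' : Measurable (fun c => F (-c)) := hF'.smooth.continuous.measurable
  have mG : Measurable G := hG.smooth.continuous.measurable
  have mG' : Measurable (fun x => -G x) := hG'.smooth.continuous.measurable
  refine ⟨hF, hF', hG, hG', fun Φ _ z hz => can_PP hs hs1 Φ hz,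
    fun Ψ _ z hz => can_QQ hsb hs Ψ hz, fun z hz => ⟨PP_inv hs hs1 hF hz, ?_⟩,
    fun z hz => ⟨QQ_inv hsb hs G hz, ?_⟩, meas_can b s, meas_PP s mF, meas_PP s mF',
    meas_QQ b mG, meas_QQ b mG'⟩
  · have := PP_inv hs hs1 hF' hz
    simpa only [neg_neg] using this
  · have := QQ_inv hsb hs (fun x => -G x) hz
    simpa only [neg_neg] using this

end Pool.Agent.Lib.MP_d2b992_gt.Dyn
end

section
/-!
# Module SX3: the charts of the near squares and the area
-/
set_option autoImplicit false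

open MeasureTheory Filter Topology Set

namespace Pool.Agent.Lib.MP_d2b992_gt.Dyn

namespace Sx3M

/-- `|x| < b`, `|c| < s` gives `x² + c² < 1` -/
theorem sq_lt {b s x c : ℝ} (sb : s ^ 2 + b ^ 2 = 1) (hx : |x| < b) (hc : |c| < s) :
    0 < 1 - x ^ 2 - c ^ 2 := by
  have h1 : x ^ 2 < b ^ 2 := by
    rw [← sq_abs x]
    exact pow_lt_pow_left₀ hx (abs_nonneg _) two_ne_zero
  have h2 : c ^ 2 < s ^ 2 := by
    rw [← sq_abs c]
    exact pow_lt_pow_left₀ hc (abs_nonneg _) two_ne_zero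
  linarith

/-- the label as a real number -/
noncomputable def kk (j : Bool) : ℝ := if j then 2 else 0

theorem kk_cast (j : Bool) : kk j = (((if j then 2 else 0 : ℤ)) : ℝ) := by
  cases j <;> simp [kk]

theorem kk_sin (j : Bool) (t : ℝ) : Real.sin (kk j * Real.pi + t) = Real.sin t := by
  cases j
  · simp [kk]
  · have : kk true * Real.pi + t = t + 2 * Real.pi := by simp [kk]; ring
    rw [this, Real.sin_add_two_pi]

theorem kk_cos (j : Bool) (t : ℝ) : Real.cos (kk j * Real.pi + t) = Real.cos t := by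
  cases j
  · simp [kk]
  · have : kk true * Real.pi + t = t + 2 * Real.pi := by simp [kk]; ring
    rw [this, Real.cos_add_two_pi]

theorem lab_eq {Θ : ℝ} (h1 : -(Real.pi / 2) ≤ Θ) (h2 : Θ < 7 * Real.pi / 2) (j : Bool) :
    lab Θ = (if j then 2 else 0 : ℤ) ↔
      kk j * Real.pi - Real.pi / 2 ≤ Θ ∧ Θ < kk j * Real.pi + Real.pi / 2 := by
  have hpi := Real.pi_pos
  have ha : 0 ≤ (Θ + Real.pi / 2) / Real.pi := by
    apply div_nonneg _ hpi.le
    linarith
  have hb : (Θ + Real.pi / 2) / Real.pi < 4 := by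
    rw [div_lt_iff₀ hpi]
    linarith
  have hfl : ⌊(Θ + Real.pi / 2) / Real.pi⌋ % 4 = ⌊(Θ + Real.pi / 2) / Real.pi⌋ := by
    apply Int.emod_eq_of_lt
    · exact Int.floor_nonneg.2 ha
    · rw [Int.floor_lt]
      exact_mod_cast hb
  unfold lab
  rw [hfl, Int.floor_eq_iff, ← kk_cast, le_div_iff₀ hpi, div_lt_iff₀ hpi]
  constructor
  · rintro ⟨h3, h4⟩
    constructor <;> nlinarith
  · rintro ⟨h3, h4⟩
    constructor <;> nlinarith

theorem meas_chX (j : Bool) : Measurable (fun p : ℝ × ℝ => chX j p.1 p.2) := by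
  unfold chX
  refine Measurable.prodMk measurable_const ?_
  refine Measurable.prodMk measurable_fst (Measurable.prodMk ?_ measurable_snd)
  fun_prop

theorem can_chX {b s : ℝ} (sb : s ^ 2 + b ^ 2 = 1) (j : Bool) (x c : ℝ) (hx : |x| < b)
    (hc : |c| < s) : Can b s (chX j x c) := by
  have h := sq_lt sb hx hc
  refine ⟨?_, Or.inl ⟨?_, Or.inl ?_⟩⟩
  · simp only [chX, dot]
    have := Real.mul_self_sqrt h.le
    nlinarith
  · cases j <;> simp [chX]
  · simp only [chX]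
    have := Real.sqrt_pos.2 h
    linarith

theorem inj_chX (b s : ℝ) : ChartInj chX b s := by
  intro j j' p q p' q' _ _ _ _ h
  simp only [chX, Prod.mk.injEq] at h
  refine ⟨?_, h.2.1, h.2.2.2⟩
  cases j <;> cases j' <;> simp_all

/-- the image of `A` -/
theorem image_eq (j : Bool) (A : Set (ℝ × ℝ)) :
    (fun p : ℝ × ℝ => chX j p.1 p.2) '' A =
      {z : XS | z.1 = (if j then 2 else 0 : ℤ) ∧ (z.2.1, z.2.2.2) ∈ A ∧
        z.2.2.1 = -Real.sqrt (1 - z.2.1 ^ 2 - z.2.2.2 ^ 2)} := by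
  ext z
  constructor
  · rintro ⟨p, hp, rfl⟩
    exact ⟨rfl, hp, rfl⟩
  · rintro ⟨h1, h2, h3⟩
    refine ⟨(z.2.1, z.2.2.2), h2, ?_⟩
    obtain ⟨z1, z2, z3, z4⟩ := z
    simp only [chX] at *
    rw [h1, h3]

theorem meas_image (j : Bool) {A : Set (ℝ × ℝ)} (hA : MeasurableSet A) :
    MeasurableSet ((fun p : ℝ × ℝ => chX j p.1 p.2) '' A) := by
  rw [image_eq]
  have h1 : MeasurableSet {z : XS | z.1 = (if j then 2 else 0 : ℤ)} :=
    measurable_fst (measurableSet_singleton _)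
  have m1 : Measurable (fun z : XS => z.2.1) := measurable_fst.comp measurable_snd
  have m2 : Measurable (fun z : XS => z.2.2.1) :=
    measurable_fst.comp (measurable_snd.comp measurable_snd)
  have m3 : Measurable (fun z : XS => z.2.2.2) :=
    measurable_snd.comp (measurable_snd.comp measurable_snd)
  have h2 : MeasurableSet {z : XS | (z.2.1, z.2.2.2) ∈ A} := (m1.prodMk m3) hA
  have h3 : MeasurableSet {z : XS | z.2.2.1 = -Real.sqrt (1 - z.2.1 ^ 2 - z.2.2.2 ^ 2)} := by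
    apply measurableSet_eq_fun m2
    fun_prop
  exact h1.inter (h2.inter h3)

/-- the preimage in the fundamental domain -/
theorem pre_eq (j : Bool) (A : Set (ℝ × ℝ)) :
    (ofSt ⁻¹' ((fun p : ℝ × ℝ => chX j p.1 p.2) '' A)) ∩ Dom =
      {w : ℝ × ℝ | (kk j * Real.pi - Real.pi / 2 ≤ w.1 ∧ w.1 < kk j * Real.pi + Real.pi / 2) ∧
        |w.2| < 1 ∧ (Real.sqrt (1 - w.2 ^ 2) * Real.sin w.1, w.2) ∈ A} := by
  have hpi := Real.pi_pos
  ext w
  obtain ⟨Θ, c⟩ := w
  rw [image_eq]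
  simp only [mem_inter_iff, mem_preimage, mem_ofPred_eq, ofSt, secP, nn, Dom]
  constructor
  · rintro ⟨⟨h1, h2, h3⟩, h4, h5, h6⟩
    exact ⟨(lab_eq h4 h5 j).1 h1, h6, h2⟩
  · rintro ⟨⟨h1, h1'⟩, h2, h3⟩
    have hk : 0 ≤ kk j ∧ kk j ≤ 2 := by cases j <;> simp [kk]
    have h4 : -(Real.pi / 2) ≤ Θ := by nlinarith
    have h5 : Θ < 7 * Real.pi / 2 := by nlinarith
    refine ⟨⟨(lab_eq h4 h5 j).2 ⟨h1, h1'⟩, h3, ?_⟩, h4, h5, h2⟩
    have hc : 0 ≤ 1 - c ^ 2 := by
      have := (sq_lt_one_iff_abs_lt_one c).2 h2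
      linarith
    have hcos : 0 ≤ Real.cos Θ := by
      have : Θ = kk j * Real.pi + (Θ - kk j * Real.pi) := by ring
      rw [this, kk_cos]
      apply Real.cos_nonneg_of_mem_Icc
      constructor <;> linarith
    have e : 1 - (Real.sqrt (1 - c ^ 2) * Real.sin Θ) ^ 2 - c ^ 2 =
        (Real.sqrt (1 - c ^ 2) * Real.cos Θ) ^ 2 := by
      have h7 := Real.sq_sqrt hc
      have h8 := Real.sin_sq_add_cos_sq Θ
      rw [mul_pow, mul_pow, h7]
      linear_combination (-(1 - c ^ 2)) * h8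
    rw [e, Real.sqrt_sq (mul_nonneg (Real.sqrt_nonneg _) hcos)]

/-- the fibre over `c` -/
theorem fib_eq {b s : ℝ} (sb : s ^ 2 + b ^ 2 = 1) (j : Bool) (A : Set (ℝ × ℝ))
    (hA : ∀ p ∈ A, |p.1| < b ∧ |p.2| < s) (c : ℝ) :
    (fun Θ : ℝ => (Θ, c)) ⁻¹' {w : ℝ × ℝ | (kk j * Real.pi - Real.pi / 2 ≤ w.1 ∧
        w.1 < kk j * Real.pi + Real.pi / 2) ∧
        |w.2| < 1 ∧ (Real.sqrt (1 - w.2 ^ 2) * Real.sin w.1, w.2) ∈ A} =
      (fun x : ℝ => kk j * Real.pi + Real.arcsin (x / Real.sqrt (1 - c ^ 2))) ''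
        {x | (x, c) ∈ A} := by
  have hpi := Real.pi_pos
  ext Θ
  simp only [mem_preimage, mem_ofPred_eq, mem_image]
  constructor
  · rintro ⟨⟨h1, h1'⟩, h2, h3⟩
    have hc : 0 < 1 - c ^ 2 := by
      have := (sq_lt_one_iff_abs_lt_one c).2 h2
      linarith
    have hr := Real.sqrt_pos.2 hc
    refine ⟨_, h3, ?_⟩
    rw [mul_div_cancel_left₀ _ hr.ne']
    have h4 : Real.sin Θ = Real.sin (Θ - kk j * Real.pi) := by
      rw [← kk_sin j (Θ - kk j * Real.pi)]
      congr 1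
      ring
    rw [h4, Real.arcsin_sin (by linarith) (by linarith)]
    ring
  · rintro ⟨x, hx, rfl⟩
    obtain ⟨hxb, hcs⟩ := hA _ hx
    simp only at hxb hcs
    have h := sq_lt sb hxb hcs
    have hx2 := sq_nonneg x
    have hc : 0 < 1 - c ^ 2 := by linarith
    have hr := Real.sqrt_pos.2 hc
    have hr2 := Real.sq_sqrt hc.le
    have hlt : |x| < Real.sqrt (1 - c ^ 2) := by
      apply Real.lt_sqrt_of_sq_lt
      rw [sq_abs]
      linarith
    have hy1 : -1 < x / Real.sqrt (1 - c ^ 2) := by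
      rw [lt_div_iff₀ hr]
      have := (abs_lt.1 hlt).1
      linarith
    have hy2 : x / Real.sqrt (1 - c ^ 2) < 1 := by
      rw [div_lt_iff₀ hr]
      have := (abs_lt.1 hlt).2
      linarith
    refine ⟨⟨?_, ?_⟩, ?_, ?_⟩
    · have := Real.neg_pi_div_two_le_arcsin (x / Real.sqrt (1 - c ^ 2))
      linarith
    · have := Real.arcsin_lt_pi_div_two.2 hy2
      linarith
    · apply (sq_lt_one_iff_abs_lt_one c).1
      linarith
    · rw [kk_sin, Real.sin_arcsin hy1.le hy2.le, mul_div_cancel₀ _ hr.ne']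
      exact hx

/-- length of the fibre -/
theorem fib_vol {b s : ℝ} (sb : s ^ 2 + b ^ 2 = 1) (j : Bool) {A : Set (ℝ × ℝ)}
    (mA : MeasurableSet A) (hA : ∀ p ∈ A, |p.1| < b ∧ |p.2| < s) (c : ℝ) :
    volume ((fun x : ℝ => kk j * Real.pi + Real.arcsin (x / Real.sqrt (1 - c ^ 2))) ''
        {x | (x, c) ∈ A}) =
      ∫⁻ x in {x | (x, c) ∈ A}, ENNReal.ofReal (1 / Real.sqrt (1 - x ^ 2 - c ^ 2)) := by
  have mB : MeasurableSet {x | (x, c) ∈ A} := (measurable_id.prodMk measurable_const) mA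
  have key : ∀ x ∈ {x | (x, c) ∈ A}, 0 < 1 - x ^ 2 - c ^ 2 := fun x hx =>
    sq_lt sb (hA _ hx).1 (hA _ hx).2
  have hy : ∀ x ∈ {x | (x, c) ∈ A}, 0 < Real.sqrt (1 - c ^ 2) ∧
      -1 < x / Real.sqrt (1 - c ^ 2) ∧ x / Real.sqrt (1 - c ^ 2) < 1 := by
    intro x hx
    have h := key x hx
    have hx2 := sq_nonneg x
    have hc : 0 < 1 - c ^ 2 := by linarith
    have hr := Real.sqrt_pos.2 hc
    have hr2 := Real.sq_sqrt hc.le
    have hlt : |x| < Real.sqrt (1 - c ^ 2) := by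
      apply Real.lt_sqrt_of_sq_lt
      rw [sq_abs]
      linarith
    refine ⟨hr, ?_, ?_⟩
    · rw [lt_div_iff₀ hr]
      have := (abs_lt.1 hlt).1
      linarith
    · rw [div_lt_iff₀ hr]
      have := (abs_lt.1 hlt).2
      linarith
  have hd : ∀ x ∈ {x | (x, c) ∈ A}, HasDerivWithinAt
      (fun x : ℝ => kk j * Real.pi + Real.arcsin (x / Real.sqrt (1 - c ^ 2)))
      (1 / Real.sqrt (1 - x ^ 2 - c ^ 2)) {x | (x, c) ∈ A} x := by
    intro x hx
    obtain ⟨hr, h1, h2⟩ := hy x hx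
    have h3 := (Real.hasDerivAt_arcsin h1.ne' h2.ne).comp x
      ((hasDerivAt_id x).div_const (Real.sqrt (1 - c ^ 2)))
    have h4 := (h3.const_add (kk j * Real.pi)).hasDerivWithinAt (s := {x | (x, c) ∈ A})
    refine h4.congr_deriv ?_
    have hc : 0 < 1 - c ^ 2 := by
      have := key x hx
      have := sq_nonneg x
      linarith
    have e : 1 - x ^ 2 - c ^ 2 = (1 - (x / Real.sqrt (1 - c ^ 2)) ^ 2) * (1 - c ^ 2) := by
      rw [div_pow, Real.sq_sqrt hc.le]
      field_simp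
      ring
    rw [e, Real.sqrt_mul' _ hc.le]
    have hs : 0 < Real.sqrt (1 - (x / Real.sqrt (1 - c ^ 2)) ^ 2) := by
      apply Real.sqrt_pos.2
      nlinarith
    field_simp
  have hinj : InjOn (fun x : ℝ => kk j * Real.pi + Real.arcsin (x / Real.sqrt (1 - c ^ 2)))
      {x | (x, c) ∈ A} := by
    intro x hx x' hx' h
    obtain ⟨hr, h1, h2⟩ := hy x hx
    obtain ⟨_, h1', h2'⟩ := hy x' hx'
    simp only [add_right_inj] at h
    have h3 := Real.injOn_arcsin ⟨h1.le, h2.le⟩ ⟨h1'.le, h2'.le⟩ h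
    exact (div_left_inj' hr.ne').1 h3
  have := lintegral_image_eq_lintegral_abs_deriv_mul mB hd hinj (fun _ => 1)
  rw [lintegral_one, Measure.restrict_apply_univ] at this
  rw [this]
  refine setLIntegral_congr_fun mB fun x hx => ?_
  simp only [mul_one]
  rw [abs_of_nonneg]
  positivity

theorem area {b s : ℝ} (sb : s ^ 2 + b ^ 2 = 1) (j : Bool) {A : Set (ℝ × ℝ)}
    (mA : MeasurableSet A) (hA : ∀ p ∈ A, |p.1| < b ∧ |p.2| < s) :
    muY (ofSt ⁻¹' ((fun p : ℝ × ℝ => chX j p.1 p.2) '' A)) =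
      ∫⁻ p in A, ENNReal.ofReal (1 / Real.sqrt (1 - p.1 ^ 2 - p.2 ^ 2)) := by
  have mDom : MeasurableSet Dom := by
    unfold Dom
    apply MeasurableSet.inter
    · exact measurableSet_le measurable_const measurable_fst
    · apply MeasurableSet.inter
      · exact measurableSet_lt measurable_fst measurable_const
      · exact measurableSet_lt (f := fun z : ℝ × ℝ => |z.2|) (by fun_prop) measurable_const
  unfold muY
  rw [Measure.restrict_apply' mDom, pre_eq, Measure.volume_eq_prod,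
    Measure.prod_apply_symm, ← lintegral_indicator mA, lintegral_prod_symm']
  · refine lintegral_congr fun c => ?_
    have mB : MeasurableSet {x : ℝ | (x, c) ∈ A} :=
      (measurable_id.prodMk (measurable_const (a := c))) mA
    rw [fib_eq sb j A hA c, fib_vol sb j mA hA c, ← lintegral_indicator mB]
    rfl
  · exact Measurable.indicator (by fun_prop) mA
  · apply MeasurableSet.inter
    · apply MeasurableSet.inter
      · exact measurableSet_le measurable_const measurable_fst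
      · exact measurableSet_lt measurable_fst measurable_const
    · apply MeasurableSet.inter
      · exact measurableSet_lt (f := fun z : ℝ × ℝ => |z.2|) (by fun_prop) measurable_const
      · have : Measurable (fun w : ℝ × ℝ => (Real.sqrt (1 - w.2 ^ 2) * Real.sin w.1, w.2)) := by
          fun_prop
        exact this mA

end Sx3M

theorem specSX3 : SpecSX3 := by
  intro b s _ _ sb
  refine ⟨Sx3M.meas_chX, fun j x c hx hc => Sx3M.can_chX sb j x c hx hc, Sx3M.inj_chX b s,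
    fun j A mA hA => ⟨Sx3M.meas_image j mA, Sx3M.area sb j mA hA⟩⟩

end Pool.Agent.Lib.MP_d2b992_gt.Dyn
end

section
/-!
# VIS: almost every orbit visits the near squares
-/
set_option autoImplicit false

open MeasureTheory Filter Topology Set
open scoped ContDiff

namespace Pool.Agent.Lib.MP_d2b992_gt.Dyn

open Pool.Agent.Lib.MP_d2b992_gt.T (Tw)

namespace VisM

/-- Irrational rotation: forward orbits meet every interval. -/
theorem rot {p a : ℝ} (hp : 0 < p) (h : Irrational (a / p)) (θ u v : ℝ) (huv : u < v) :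
    ∃ (n : ℕ) (k : ℤ), θ + n * a + k * p ∈ Ioo u v := by
  have : Fact (0 < p) := ⟨hp⟩
  have hd : DenseRange (· • (a : AddCircle p) : ℕ → AddCircle p) :=
    denseRange_zsmul_iff_nsmul.1 (AddCircle.denseRange_zsmul_coe_iff.2 h)
  have hop : IsOpen ((QuotientAddGroup.mk : ℝ → AddCircle p) '' Ioo (u - θ) (v - θ)) :=
    QuotientAddGroup.isOpenMap_coe _ isOpen_Ioo
  have hne : ((QuotientAddGroup.mk : ℝ → AddCircle p) '' Ioo (u - θ) (v - θ)).Nonempty :=
    (nonempty_Ioo.2 (by linarith)).image _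
  obtain ⟨n, hn⟩ := hd.exists_mem_open hop hne
  obtain ⟨y, hy, hyn⟩ := hn
  have h1 : (y : AddCircle p) = ((n • a : ℝ) : AddCircle p) := by
    rw [AddCircle.coe_nsmul]; exact hyn
  have h2 : (((y - n • a : ℝ)) : AddCircle p) = 0 := by
    rw [AddCircle.coe_sub, h1, sub_self]
  obtain ⟨k, hk⟩ := (AddCircle.coe_eq_zero_iff p).1 h2
  have hk' : (k : ℝ) * p = y - n * a := by
    simpa [zsmul_eq_mul, nsmul_eq_mul] using hk
  refine ⟨n, k, ?_, ?_⟩
  · linarith [hy.1]
  · linarith [hy.2]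

theorem red_eq (Θ : ℝ) : ∃ k : ℤ, red Θ = Θ + k * (4 * Real.pi) := by
  refine ⟨-toIcoDiv four_pi_pos (-(Real.pi / 2)) Θ, ?_⟩
  have := self_sub_toIcoDiv_zsmul four_pi_pos (-(Real.pi / 2)) Θ
  rw [red, ← this, zsmul_eq_mul]
  push_cast
  ring

theorem cos_add4 (x : ℝ) (k : ℤ) : Real.cos (x + k * (4 * Real.pi)) = Real.cos x := by
  have := Real.cos_add_int_mul_two_pi x (2 * k)
  push_cast at this
  rw [← this]; ring_nf

theorem sin_add4 (x : ℝ) (k : ℤ) : Real.sin (x + k * (4 * Real.pi)) = Real.sin x := by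
  have := Real.sin_add_int_mul_two_pi x (2 * k)
  push_cast at this
  rw [← this]; ring_nf

theorem qMap_of_not {b : ℝ} {G : ℝ → ℝ} {z : St}
    (h : ¬ (0 < Real.cos z.1 ∧ |Real.sqrt (1 - z.2 ^ 2) * Real.sin z.1| < b)) :
    qMap b G z = z := by
  rw [qMap, if_neg h]

/-- height below `s` and irrational rotation number -/
theorem caseA {b s : ℝ} {F G : ℝ → ℝ} (h : Tw b s F G) (z : St) (hc : |z.2| < s)
    (hirr : Irrational ((2 * F z.2 + 2 * Real.pi) / (4 * Real.pi))) :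
    ∃ n : ℕ, (tMap b F G)^[n] z ∈ nearSq b s := by
  by_contra H
  push Not at H
  have hs1 : s ≤ 1 := by nlinarith [h.sb, h.s0, sq_nonneg b]
  have key : ∀ m : ℕ, ∃ k : ℤ, (tMap b F G)^[2 * m] z =
      (z.1 + m * (2 * F z.2 + 2 * Real.pi) + k * (4 * Real.pi), z.2) := by
    intro m
    induction m with
    | zero => exact ⟨0, by simp⟩
    | succ m ih =>
      obtain ⟨k, hk⟩ := ih
      have e1 : (tMap b F G)^[2 * (m + 1)] z =
          tMap b F G (tMap b F G ((tMap b F G)^[2 * m] z)) := by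
        rw [show 2 * (m + 1) = (2 * m + 1) + 1 by ring, Function.iterate_succ_apply',
          Function.iterate_succ_apply']
      have H0 := H (2 * m)
      have H1 := H (2 * m + 1)
      rw [Function.iterate_succ_apply'] at H1
      set w := (tMap b F G)^[2 * m] z with hw
      have hw2 : w.2 = z.2 := by rw [hk]
      have hw1 : w.1 = z.1 + m * (2 * F z.2 + 2 * Real.pi) + k * (4 * Real.pi) := by rw [hk]
      have q0 : qMap b G w = w := qMap_of_not fun hn => H0 ⟨hn.1, hn.2, by rw [hw2]; exact hc⟩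
      have t0 : tMap b F G w = (red (Real.pi - w.1 - F w.2), -w.2) := by
        rw [tMap, q0, pMap]
      have q1 : qMap b G (tMap b F G w) = tMap b F G w := qMap_of_not fun hn =>
        H1 ⟨hn.1, hn.2, by rw [t0]; simpa [hw2] using hc⟩
      have t1 : tMap b F G (tMap b F G w) =
          (red (Real.pi - (red (Real.pi - w.1 - F w.2)) - F (-w.2)), - -w.2) := by
        rw [tMap, q1, pMap, t0]
      obtain ⟨k1, hk1⟩ := red_eq (Real.pi - w.1 - F w.2)
      obtain ⟨k2, hk2⟩ := red_eq (Real.pi - (red (Real.pi - w.1 - F w.2)) - F (-w.2))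
      refine ⟨k - k1 + k2, ?_⟩
      rw [e1, t1, hk2, hk1, neg_neg, hw2, h.F_neg, hw1]
      push_cast
      congr 1
      ring
  have h4 : (0 : ℝ) < 4 * Real.pi := four_pi_pos
  have hm : (0 : ℝ) < min b 1 := lt_min h.b0 one_pos
  obtain ⟨m, k, hmk⟩ := rot h4 hirr z.1 0 (min b 1) hm
  obtain ⟨k', hk'⟩ := key m
  apply H (2 * m)
  set y := z.1 + m * (2 * F z.2 + 2 * Real.pi) + k * (4 * Real.pi) with hy
  have hyb : y < b := hmk.2.trans_le (min_le_left _ _)
  have hy1 : y < 1 := hmk.2.trans_le (min_le_right _ _)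
  have hy0 : 0 < y := hmk.1
  have hy' : z.1 + m * (2 * F z.2 + 2 * Real.pi) + k' * (4 * Real.pi) =
      y + ((k' - k : ℤ) : ℝ) * (4 * Real.pi) := by
    rw [hy]; push_cast; ring
  rw [hk', hy']
  have hpi : (3 : ℝ) < Real.pi := Real.pi_gt_three
  refine ⟨?_, ?_, hc⟩
  · rw [cos_add4]
    exact Real.cos_pos_of_mem_Ioo ⟨by linarith, by linarith⟩
  · rw [sin_add4, abs_mul]
    have a1 : |Real.sin y| ≤ |y| := Real.abs_sin_le_abs
    have a2 : |Real.sqrt (1 - z.2 ^ 2)| ≤ 1 := by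
      rw [abs_of_nonneg (Real.sqrt_nonneg _)]
      exact Real.sqrt_le_one.2 (by nlinarith [sq_nonneg z.2])
    calc |Real.sqrt (1 - z.2 ^ 2)| * |Real.sin y| ≤ 1 * |y| :=
          mul_le_mul a2 a1 (abs_nonneg _) zero_le_one
      _ = y := by rw [one_mul, abs_of_pos hy0]
      _ < b := hyb

/-- two kicks at height at least `s` -/
theorem stepB {b s : ℝ} {F G : ℝ → ℝ} (h : Tw b s F G) (w : St)
    (hn : 0 < Real.cos w.1) (h1 : |w.2| < 1) (hs : s ≤ |w.2|)
    (h1' : |(tMap b F G w).2| < 1) (hs' : s ≤ |(tMap b F G w).2|)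
    (hc2 : Real.cos (tMap b F G (tMap b F G w)).1 ≠ 0) (x α σ : ℝ)
    (hσ : σ = 1 ∨ σ = -1)
    (hx : Real.sqrt (1 - w.2 ^ 2) * Real.sin w.1 = x)
    (hD : -(Real.sqrt (1 - w.2 ^ 2) * Real.cos w.1) = σ * (Real.sqrt (1 - x ^ 2) * Real.cos α))
    (hC : w.2 = σ * (Real.sqrt (1 - x ^ 2) * Real.sin α)) :
    0 < Real.cos (tMap b F G (tMap b F G w)).1 ∧
    Real.sqrt (1 - (tMap b F G (tMap b F G w)).2 ^ 2) *
      Real.sin (tMap b F G (tMap b F G w)).1 = x ∧
    ∃ σ' : ℝ, (σ' = 1 ∨ σ' = -1) ∧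
      -(Real.sqrt (1 - (tMap b F G (tMap b F G w)).2 ^ 2) *
        Real.cos (tMap b F G (tMap b F G w)).1) =
          σ' * (Real.sqrt (1 - x ^ 2) * Real.cos (α + G x)) ∧
      (tMap b F G (tMap b F G w)).2 = σ' * (Real.sqrt (1 - x ^ 2) * Real.sin (α + G x)) := by
  have hw2 : w.2 ^ 2 < 1 := by rw [← sq_abs]; nlinarith [abs_nonneg w.2]
  have hcs := Real.sin_sq_add_cos_sq w.1
  have hsq := Real.sq_sqrt (show (0 : ℝ) ≤ 1 - w.2 ^ 2 by linarith)
  have hx2 : x ^ 2 = (1 - w.2 ^ 2) * Real.sin w.1 ^ 2 := by rw [← hx, mul_pow, hsq]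
  have hs2 : s ^ 2 ≤ w.2 ^ 2 := by rw [← sq_abs w.2]; nlinarith [h.s0]
  have hxlt : x ^ 2 < 1 - w.2 ^ 2 := by
    rw [hx2]; nlinarith [mul_pos (show (0 : ℝ) < 1 - w.2 ^ 2 by linarith) (sq_pos_of_pos hn)]
  have hxb : |x| < b := abs_lt_of_sq_lt_sq (by nlinarith [h.sb]) h.b0.le
  have hr2 := Real.sq_sqrt (show (0 : ℝ) ≤ 1 - x ^ 2 by nlinarith [sq_nonneg w.2])
  set r := Real.sqrt (1 - x ^ 2) with hr
  -- the kicked state
  set c' := qC G w with hc'
  set D1 := σ * (r * Real.cos (α + G x)) with hD1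
  set c1 := σ * (r * Real.sin (α + G x)) with hc1
  have hσ2 : σ ^ 2 = 1 := by rcases hσ with h | h <;> rw [h] <;> norm_num
  have hsum : D1 ^ 2 + c1 ^ 2 = 1 - x ^ 2 := by
    have := Real.sin_sq_add_cos_sq (α + G x)
    rw [hD1, hc1]
    calc (σ * (r * Real.cos (α + G x))) ^ 2 + (σ * (r * Real.sin (α + G x))) ^ 2
        = σ ^ 2 * r ^ 2 * (Real.sin (α + G x) ^ 2 + Real.cos (α + G x) ^ 2) := by ring
      _ = 1 - x ^ 2 := by rw [this, hσ2, hr2]; ring
  have hDD : -(Real.sqrt (1 - w.2 ^ 2) * Real.cos w.1) * Real.cos (G x) - w.2 * Real.sin (G x) = D1 := by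
    rw [hD, hC, hD1, Real.cos_add]; ring
  have hCC : -(Real.sqrt (1 - w.2 ^ 2) * Real.cos w.1) * Real.sin (G x) + w.2 * Real.cos (G x) = c1 := by
    rw [hD, hC, hc1, Real.sin_add]; ring
  have hqC : c' = if D1 ≤ 0 then c1 else -c1 := by
    rw [hc', qC]
    rw [hx, hDD, hCC]
  have hc'2 : c' ^ 2 = c1 ^ 2 := by rw [hqC]; split_ifs <;> ring
  -- the kick
  have hq : qMap b G w = ((if 0 < Real.cos (w.1 / 2) then 0 else 2 * Real.pi) +
      Real.arcsin (x / Real.sqrt (1 - c' ^ 2)), c') := by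
    rw [qMap, if_pos ⟨hn, by rw [hx]; exact hxb⟩, hx]
  set A := (qMap b G w).1 with hA
  have hA1 : A = (if 0 < Real.cos (w.1 / 2) then 0 else 2 * Real.pi) +
      Real.arcsin (x / Real.sqrt (1 - c' ^ 2)) := by rw [hA, hq]
  have hA2 : (qMap b G w).2 = c' := by rw [hq]
  have ht : tMap b F G w = (red (Real.pi - A - F c'), -c') := by
    rw [tMap, pMap, hA2]
  have hc'1 : |c'| < 1 := by rw [ht] at h1'; simpa using h1'
  have hc's : s ≤ |c'| := by rw [ht] at hs'; simpa using hs'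
  have hc'lt : c' ^ 2 < 1 := by rw [← sq_abs]; nlinarith [abs_nonneg c']
  have hsq' := Real.sq_sqrt (show (0 : ℝ) ≤ 1 - c' ^ 2 by linarith)
  have hpos' : 0 < Real.sqrt (1 - c' ^ 2) := Real.sqrt_pos.2 (by linarith)
  have hcosA : Real.cos A = Real.cos (Real.arcsin (x / Real.sqrt (1 - c' ^ 2))) := by
    rw [hA1]; split_ifs
    · rw [zero_add]
    · rw [add_comm, Real.cos_add_two_pi]
  have hsinA : Real.sin A = Real.sin (Real.arcsin (x / Real.sqrt (1 - c' ^ 2))) := by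
    rw [hA1]; split_ifs
    · rw [zero_add]
    · rw [add_comm, Real.sin_add_two_pi]
  have hxle : |x / Real.sqrt (1 - c' ^ 2)| ≤ 1 := by
    rw [abs_div, abs_of_pos hpos', div_le_one hpos']
    exact abs_le_of_sq_le_sq (by rw [hsq', hc'2]; nlinarith [sq_nonneg D1]) hpos'.le
  have hsinA' : Real.sqrt (1 - c' ^ 2) * Real.sin A = x := by
    rw [hsinA, Real.sin_arcsin (abs_le.1 hxle).1 (abs_le.1 hxle).2]
    field_simp
  have hcosA0 : 0 ≤ Real.cos A := by rw [hcosA]; exact Real.cos_arcsin_nonneg _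
  have hcosA' : Real.sqrt (1 - c' ^ 2) * Real.cos A = |D1| := by
    have h0 : 0 ≤ Real.sqrt (1 - c' ^ 2) * Real.cos A := mul_nonneg hpos'.le hcosA0
    rw [← abs_of_nonneg h0, ← sq_eq_sq_iff_abs_eq_abs]
    have e1 := Real.sin_sq_add_cos_sq A
    have e2 : x ^ 2 = (1 - c' ^ 2) * Real.sin A ^ 2 := by rw [← hsinA', mul_pow, hsq']
    rw [mul_pow, hsq']
    nlinarith
  have hFc : F c' = 0 ∨ F c' = -(2 * Real.pi) := by
    rcases le_abs'.1 hc's with hh | hh
    · left; exact h.F_zero c' hh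
    · right
      have := h.F_neg (-c')
      rw [neg_neg, h.F_zero (-c') (by linarith)] at this
      linarith
  obtain ⟨k1, hk1⟩ := red_eq (Real.pi - A - F c')
  have hcosT : Real.cos (tMap b F G w).1 = -Real.cos A := by
    rw [ht]; simp only
    rw [hk1, cos_add4]
    rcases hFc with e | e <;> rw [e]
    · rw [sub_zero, Real.cos_pi_sub]
    · rw [show Real.pi - A - -(2 * Real.pi) = (Real.pi - A) + 2 * Real.pi by ring,
        Real.cos_add_two_pi, Real.cos_pi_sub]
  have q1 : qMap b G (tMap b F G w) = tMap b F G w := qMap_of_not fun hn' => by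
    have := hn'.1
    rw [hcosT] at this
    linarith
  obtain ⟨k2, hk2⟩ := red_eq (Real.pi - red (Real.pi - A - F c') - F (-c'))
  have t1 : tMap b F G (tMap b F G w) =
      (A + 2 * F c' + 2 * Real.pi + ((k2 - k1 : ℤ) : ℝ) * (4 * Real.pi), c') := by
    rw [tMap, q1, pMap, ht, hk2, hk1, h.F_neg, neg_neg]
    push_cast
    congr 1
    ring
  have hcos2 : Real.cos (tMap b F G (tMap b F G w)).1 = Real.cos A := by
    rw [t1]; simp only
    rw [cos_add4]
    rcases hFc with e | e <;> rw [e]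
    · rw [mul_zero, add_zero, Real.cos_add_two_pi]
    · rw [show A + 2 * -(2 * Real.pi) + 2 * Real.pi = A - 2 * Real.pi by ring,
        Real.cos_sub_two_pi]
  have hsin2 : Real.sin (tMap b F G (tMap b F G w)).1 = Real.sin A := by
    rw [t1]; simp only
    rw [sin_add4]
    rcases hFc with e | e <;> rw [e]
    · rw [mul_zero, add_zero, Real.sin_add_two_pi]
    · rw [show A + 2 * -(2 * Real.pi) + 2 * Real.pi = A - 2 * Real.pi by ring,
        Real.sin_sub_two_pi]
  have h22 : (tMap b F G (tMap b F G w)).2 = c' := by rw [t1]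
  rw [hcos2] at hc2
  rw [hcos2, hsin2, h22]
  refine ⟨lt_of_le_of_ne hcosA0 (Ne.symm hc2), hsinA', ?_⟩
  by_cases hD0 : D1 ≤ 0
  · refine ⟨σ, hσ, ?_, ?_⟩
    · rw [hcosA', abs_of_nonpos hD0, neg_neg]
    · rw [hqC, if_pos hD0]
  · refine ⟨-σ, by rcases hσ with e | e <;> rw [e] <;> norm_num, ?_, ?_⟩
    · rw [hcosA', abs_of_pos (not_le.1 hD0), hD1]; ring
    · rw [hqC, if_neg hD0, hc1]; ring

/-- height at least `s` for ever is impossible if `G x / π` is irrational -/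
theorem caseB {b s : ℝ} {F G : ℝ → ℝ} (h : Tw b s F G) (z : St) (hn : 0 < Real.cos z.1)
    (hg : ∀ n : ℕ, |((tMap b F G)^[n] z).2| < 1 ∧ Real.cos ((tMap b F G)^[n] z).1 ≠ 0)
    (hirr : Irrational (G (Real.sqrt (1 - z.2 ^ 2) * Real.sin z.1) / Real.pi)) :
    ∃ n : ℕ, |((tMap b F G)^[n] z).2| < s := by
  by_contra H
  push Not at H
  set x := Real.sqrt (1 - z.2 ^ 2) * Real.sin z.1 with hx
  have hz2 : z.2 ^ 2 < 1 := by
    have := (hg 0).1
    rw [Function.iterate_zero_apply] at this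
    rw [← sq_abs]; nlinarith [abs_nonneg z.2]
  have hsq := Real.sq_sqrt (show (0 : ℝ) ≤ 1 - z.2 ^ 2 by linarith)
  have hcs := Real.sin_sq_add_cos_sq z.1
  have hx2 : x ^ 2 = (1 - z.2 ^ 2) * Real.sin z.1 ^ 2 := by rw [hx, mul_pow, hsq]
  set D0 := -(Real.sqrt (1 - z.2 ^ 2) * Real.cos z.1) with hD0
  have hD2 : D0 ^ 2 = (1 - z.2 ^ 2) * Real.cos z.1 ^ 2 := by rw [hD0, neg_sq, mul_pow, hsq]
  obtain ⟨ψ, hψ1, hψ2⟩ : ∃ ψ : ℝ, D0 = Real.sqrt (1 - x ^ 2) * Real.cos ψ ∧
      z.2 = Real.sqrt (1 - x ^ 2) * Real.sin ψ := by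
    refine ⟨Complex.arg ⟨D0, z.2⟩, ?_, ?_⟩
    · have e := Complex.norm_mul_cos_arg ⟨D0, z.2⟩
      have e' : ‖(⟨D0, z.2⟩ : ℂ)‖ = Real.sqrt (1 - x ^ 2) := by
        rw [Complex.norm_def, Complex.normSq_mk]
        congr 1
        nlinarith
      rw [← e', e]
    · have e := Complex.norm_mul_sin_arg ⟨D0, z.2⟩
      have e' : ‖(⟨D0, z.2⟩ : ℂ)‖ = Real.sqrt (1 - x ^ 2) := by
        rw [Complex.norm_def, Complex.normSq_mk]
        congr 1
        nlinarith
      rw [← e', e]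
  have key : ∀ m : ℕ, 0 < Real.cos ((tMap b F G)^[2 * m] z).1 ∧
      Real.sqrt (1 - ((tMap b F G)^[2 * m] z).2 ^ 2) *
        Real.sin ((tMap b F G)^[2 * m] z).1 = x ∧
      ∃ σ : ℝ, (σ = 1 ∨ σ = -1) ∧
        -(Real.sqrt (1 - ((tMap b F G)^[2 * m] z).2 ^ 2) *
          Real.cos ((tMap b F G)^[2 * m] z).1) =
            σ * (Real.sqrt (1 - x ^ 2) * Real.cos (ψ + m * G x)) ∧
        ((tMap b F G)^[2 * m] z).2 = σ * (Real.sqrt (1 - x ^ 2) * Real.sin (ψ + m * G x)) := by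
    intro m
    induction m with
    | zero =>
      refine ⟨by simpa using hn, by simp [hx], 1, Or.inl rfl, ?_, ?_⟩
      · simp only [mul_zero, Function.iterate_zero_apply, Nat.cast_zero, zero_mul, add_zero,
          one_mul]
        exact hψ1
      · simp only [mul_zero, Function.iterate_zero_apply, Nat.cast_zero, zero_mul, add_zero,
          one_mul]
        exact hψ2
    | succ m ih =>
      obtain ⟨i1, i2, σ, hσ, i3, i4⟩ := ih
      have e1 : (tMap b F G)^[2 * (m + 1)] z =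
          tMap b F G (tMap b F G ((tMap b F G)^[2 * m] z)) := by
        rw [show 2 * (m + 1) = (2 * m + 1) + 1 by ring, Function.iterate_succ_apply',
          Function.iterate_succ_apply']
      have e2 : (tMap b F G)^[2 * m + 1] z = tMap b F G ((tMap b F G)^[2 * m] z) :=
        Function.iterate_succ_apply' _ _ _
      have g0 := hg (2 * m)
      have g1 := hg (2 * m + 1)
      have g2 := hg (2 * (m + 1))
      have H0 := H (2 * m)
      have H1 := H (2 * m + 1)
      rw [e2] at g1 H1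
      rw [e1] at g2 ⊢
      have := stepB h ((tMap b F G)^[2 * m] z) i1 g0.1 H0 g1.1 H1 g2.2 x (ψ + m * G x) σ hσ
        i2 i3 i4
      have e3 : ψ + ((m + 1 : ℕ) : ℝ) * G x = ψ + m * G x + G x := by push_cast; ring
      rw [e3]
      exact this
  obtain ⟨m, k, hmk⟩ := rot Real.pi_pos hirr ψ 0 s h.s0
  obtain ⟨-, -, σ, hσ, -, i4⟩ := key m
  have H0 := H (2 * m)
  rw [i4] at H0
  have e5 : |Real.sin (ψ + m * G x)| = |Real.sin (ψ + m * G x + k * Real.pi)| := by
    rw [Real.sin_add_int_mul_pi, abs_mul, abs_zpow, abs_neg, abs_one, one_zpow, one_mul]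
  have e6 : |Real.sin (ψ + m * G x + k * Real.pi)| < s :=
    Real.abs_sin_le_abs.trans_lt (by rw [abs_of_pos hmk.1]; exact hmk.2)
  have e7 : |σ| = 1 := by rcases hσ with e | e <;> rw [e] <;> norm_num
  have e8 : |Real.sqrt (1 - x ^ 2)| ≤ 1 := by
    rw [abs_of_nonneg (Real.sqrt_nonneg _)]
    exact Real.sqrt_le_one.2 (by nlinarith [sq_nonneg x])
  rw [abs_mul, abs_mul, e7, one_mul, e5] at H0
  nlinarith [abs_nonneg (Real.sin (ψ + m * G x + k * Real.pi))]

/-- good states -/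
def Gd (b s : ℝ) (F G : ℝ → ℝ) (w : St) : Prop :=
  |w.2| < 1 ∧ Real.cos w.1 ≠ 0 ∧
  (|w.2| < s → Irrational ((2 * F w.2 + 2 * Real.pi) / (4 * Real.pi))) ∧
  (|Real.sqrt (1 - w.2 ^ 2) * Real.sin w.1| < b →
    Irrational (G (Real.sqrt (1 - w.2 ^ 2) * Real.sin w.1) / Real.pi))

theorem xlt {b s : ℝ} {F G : ℝ → ℝ} (h : Tw b s F G) (w : St) (h1 : |w.2| < 1) (hs : s ≤ |w.2|)
    (hc : Real.cos w.1 ≠ 0) : |Real.sqrt (1 - w.2 ^ 2) * Real.sin w.1| < b := by
  have hw2 : w.2 ^ 2 < 1 := by rw [← sq_abs]; nlinarith [abs_nonneg w.2]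
  have hsq := Real.sq_sqrt (show (0 : ℝ) ≤ 1 - w.2 ^ 2 by linarith)
  have hcs := Real.sin_sq_add_cos_sq w.1
  have hs2 : s ^ 2 ≤ w.2 ^ 2 := by rw [← sq_abs w.2]; nlinarith [h.s0]
  have hp : 0 < Real.cos w.1 ^ 2 := by positivity
  refine abs_lt_of_sq_lt_sq ?_ h.b0.le
  rw [mul_pow, hsq]
  nlinarith [mul_pos (show (0 : ℝ) < 1 - w.2 ^ 2 by linarith) hp, h.sb]

/-- the deterministic part -/
theorem det {b s : ℝ} {F G : ℝ → ℝ} (h : Tw b s F G) (w : St)
    (hg : ∀ n : ℕ, Gd b s F G ((tMap b F G)^[n] w)) :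
    ∃ n : ℕ, (tMap b F G)^[n] w ∈ nearSq b s := by
  by_cases hA : ∃ n : ℕ, |((tMap b F G)^[n] w).2| < s
  · obtain ⟨n, hn⟩ := hA
    obtain ⟨m, hm⟩ := caseA h _ hn ((hg n).2.2.1 hn)
    exact ⟨m + n, by rw [Function.iterate_add_apply]; exact hm⟩
  exfalso
  have hA' : ∀ n : ℕ, s ≤ |((tMap b F G)^[n] w).2| := by
    intro n; by_contra hc; exact hA ⟨n, not_le.1 hc⟩
  have main : ∀ m : ℕ, ¬ 0 < Real.cos ((tMap b F G)^[m] w).1 := by
    intro m hm
    have hgm : ∀ n : ℕ, |((tMap b F G)^[n] ((tMap b F G)^[m] w)).2| < 1 ∧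
        Real.cos ((tMap b F G)^[n] ((tMap b F G)^[m] w)).1 ≠ 0 := by
      intro n
      rw [← Function.iterate_add_apply]
      exact ⟨(hg (n + m)).1, (hg (n + m)).2.1⟩
    obtain ⟨n, hn⟩ := caseB h _ hm hgm ((hg m).2.2.2 (xlt h _ (hg m).1 (hA' m) (hg m).2.1))
    rw [← Function.iterate_add_apply] at hn
    exact absurd hn (not_lt.2 (hA' _))
  have h0 := main 0
  have h1 := main 1
  rw [Function.iterate_one] at h1
  rw [Function.iterate_zero_apply] at h0
  have q0 : qMap b G w = w := qMap_of_not fun hn' => h0 hn'.1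
  have hs0 := hA' 0
  rw [Function.iterate_zero_apply] at hs0
  have hFc : F w.2 = 0 ∨ F w.2 = -(2 * Real.pi) := by
    rcases le_abs'.1 hs0 with hh | hh
    · left; exact h.F_zero _ hh
    · right
      have := h.F_neg (-w.2)
      rw [neg_neg, h.F_zero (-w.2) (by linarith)] at this
      linarith
  obtain ⟨k1, hk1⟩ := red_eq (Real.pi - w.1 - F w.2)
  have hcosT : Real.cos (tMap b F G w).1 = -Real.cos w.1 := by
    rw [tMap, q0, pMap]; simp only
    rw [hk1, cos_add4]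
    rcases hFc with e | e <;> rw [e]
    · rw [sub_zero, Real.cos_pi_sub]
    · rw [show Real.pi - w.1 - -(2 * Real.pi) = (Real.pi - w.1) + 2 * Real.pi by ring,
        Real.cos_add_two_pi, Real.cos_pi_sub]
  have hc0 := (hg 0).2.1
  rw [Function.iterate_zero_apply] at hc0
  rw [hcosT] at h1
  rcases lt_or_gt_of_ne hc0 with hlt | hgt
  · exact h1 (by linarith)
  · exact h0 hgt

/-! ### null sets -/

theorem null_snd {C : Set ℝ} (hC : C.Countable) : ∀ᵐ w : St, w.2 ∉ C := by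
  have : (volume : Measure (ℝ × ℝ)) (univ ×ˢ C) = 0 := by
    rw [Measure.volume_eq_prod, Measure.prod_prod, hC.measure_zero, mul_zero]
  rw [ae_iff]
  refine measure_mono_null ?_ this
  intro w hw
  simp only [mem_ofPred_eq, not_not] at hw
  exact ⟨mem_univ _, hw⟩

theorem null_fst {C : Set ℝ} (hC : C.Countable) : ∀ᵐ w : St, w.1 ∉ C := by
  have : (volume : Measure (ℝ × ℝ)) (C ×ˢ univ) = 0 := by
    rw [Measure.volume_eq_prod, Measure.prod_prod, hC.measure_zero, zero_mul]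
  rw [ae_iff]
  refine measure_mono_null ?_ this
  intro w hw
  simp only [mem_ofPred_eq, not_not] at hw
  exact ⟨hw, mem_univ _⟩

/-- countable set of parameters with a rational value of an injective function -/
theorem countable_rat {f : ℝ → ℝ} {u v : ℝ} (hf : InjOn f (Ioo u v)) :
    {c : ℝ | c ∈ Ioo u v ∧ ¬ Irrational (f c)}.Countable := by
  have : {c : ℝ | c ∈ Ioo u v ∧ ¬ Irrational (f c)} ⊆
      ⋃ q : ℚ, {c : ℝ | c ∈ Ioo u v ∧ f c = q} := by
    rintro c ⟨hc, hi⟩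
    rw [Irrational, not_not] at hi
    obtain ⟨q, hq⟩ := hi
    exact mem_iUnion.2 ⟨q, hc, hq.symm⟩
  refine (countable_iUnion fun q => ?_).mono this
  exact Set.Subsingleton.countable fun a ha c hc => hf ha.1 hc.1 (ha.2.trans hc.2.symm)

theorem countable_cos : {x : ℝ | Real.cos x = 0}.Countable := by
  have : {x : ℝ | Real.cos x = 0} ⊆ range (fun k : ℤ => (2 * k + 1) * Real.pi / 2) := by
    intro x hx
    obtain ⟨k, hk⟩ := Real.cos_eq_zero_iff.1 hx
    exact ⟨k, hk.symm⟩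
  exact (countable_range _).mono this

theorem countable_sin : {x : ℝ | Real.sin x = 0}.Countable := by
  have : {x : ℝ | Real.sin x = 0} ⊆ range (fun k : ℤ => (k : ℝ) * Real.pi) := by
    intro x hx
    obtain ⟨k, hk⟩ := Real.sin_eq_zero_iff.1 hx
    exact ⟨k, hk⟩
  exact (countable_range _).mono this

theorem null_x (x : ℝ) : ∀ᵐ w : St, |w.2| < 1 →
    Real.sqrt (1 - w.2 ^ 2) * Real.sin w.1 ≠ x := by
  have hms : MeasurableSet {w : ℝ × ℝ | |w.2| < 1 ∧ Real.sin w.1 ≠ 0 ∧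
      Real.sqrt (1 - w.2 ^ 2) * Real.sin w.1 = x} := by
    have m1 : Measurable fun w : ℝ × ℝ => |w.2| := by fun_prop
    have m2 : Measurable fun w : ℝ × ℝ => Real.sin w.1 := by fun_prop
    have m3 : Measurable fun w : ℝ × ℝ => Real.sqrt (1 - w.2 ^ 2) * Real.sin w.1 := by fun_prop
    exact (measurableSet_lt m1 measurable_const).inter
      ((measurableSet_eq_fun m2 measurable_const).compl.inter
        (measurableSet_eq_fun m3 measurable_const))
  have h0 : (volume : Measure (ℝ × ℝ)) {w : ℝ × ℝ | |w.2| < 1 ∧ Real.sin w.1 ≠ 0 ∧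
      Real.sqrt (1 - w.2 ^ 2) * Real.sin w.1 = x} = 0 := by
    rw [Measure.volume_eq_prod, Measure.measure_prod_null hms]
    refine Eventually.of_forall fun θ => ?_
    by_cases hs : Real.sin θ = 0
    · have : (Prod.mk θ ⁻¹' {w : ℝ × ℝ | |w.2| < 1 ∧ Real.sin w.1 ≠ 0 ∧
          Real.sqrt (1 - w.2 ^ 2) * Real.sin w.1 = x}) = ∅ := by
        ext c; simp [hs]
      show volume _ = 0
      rw [this]; simp
    · have hsub : (Prod.mk θ ⁻¹' {w : ℝ × ℝ | |w.2| < 1 ∧ Real.sin w.1 ≠ 0 ∧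
          Real.sqrt (1 - w.2 ^ 2) * Real.sin w.1 = x}) ⊆
          {Real.sqrt (1 - (x / Real.sin θ) ^ 2), -Real.sqrt (1 - (x / Real.sin θ) ^ 2)} := by
        rintro c ⟨hc1, -, hc2⟩
        simp only at hc1 hc2
        have hc3 : c ^ 2 < 1 := by rw [← sq_abs]; nlinarith [abs_nonneg c]
        have e1 : Real.sqrt (1 - c ^ 2) = x / Real.sin θ := by
          rw [eq_div_iff hs]; exact hc2
        have e2 : 1 - (x / Real.sin θ) ^ 2 = c ^ 2 := by
          rw [← e1, Real.sq_sqrt (by linarith)]; ring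
        rw [e2, Real.sqrt_sq_eq_abs]
        rcases abs_choice c with e | e
        · left; exact e.symm
        · right; rw [mem_singleton_iff, e, neg_neg]
      exact measure_mono_null hsub ((Set.toFinite _).measure_zero _)
  have h1 : ∀ᵐ w : St, ¬ (|w.2| < 1 ∧ Real.sin w.1 ≠ 0 ∧
      Real.sqrt (1 - w.2 ^ 2) * Real.sin w.1 = x) := by
    rw [ae_iff]; simpa using h0
  filter_upwards [h1, null_fst countable_sin] with w hw1 hw2 hw3 hw4
  exact hw1 ⟨hw3, hw2, hw4⟩

theorem ae_good {b s : ℝ} {F G : ℝ → ℝ} (h : Tw b s F G) : ∀ᵐ w ∂muY, Gd b s F G w := by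
  have hFanti : StrictAntiOn F (Icc (-s) s) := by
    refine strictAntiOn_of_deriv_neg (convex_Icc _ _) h.F_smooth.continuous.continuousOn ?_
    intro c hc
    rw [interior_Icc] at hc
    exact h.F_deriv c hc.1 hc.2
  have hGmono : StrictMonoOn G (Icc (-b) b) := by
    refine strictMonoOn_of_deriv_pos (convex_Icc _ _) h.G_smooth.continuous.continuousOn ?_
    intro c hc
    rw [interior_Icc] at hc
    exact h.G_deriv c hc.1 hc.2
  have c1 : {c : ℝ | c ∈ Ioo (-s) s ∧
      ¬ Irrational ((2 * F c + 2 * Real.pi) / (4 * Real.pi))}.Countable := by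
    refine countable_rat fun x hx y hy hxy => ?_
    have h4 : (4 * Real.pi) ≠ 0 := four_pi_pos.ne'
    rw [div_left_inj' h4] at hxy
    exact hFanti.injOn (Ioo_subset_Icc_self hx) (Ioo_subset_Icc_self hy) (by linarith)
  have c2 : {c : ℝ | c ∈ Ioo (-b) b ∧ ¬ Irrational (G c / Real.pi)}.Countable := by
    refine countable_rat fun x hx y hy hxy => ?_
    rw [div_left_inj' Real.pi_ne_zero] at hxy
    exact hGmono.injOn (Ioo_subset_Icc_self hx) (Ioo_subset_Icc_self hy) hxy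
  have a2 : ∀ᵐ w : St, ∀ x ∈ {c : ℝ | c ∈ Ioo (-b) b ∧ ¬ Irrational (G c / Real.pi)},
      |w.2| < 1 → Real.sqrt (1 - w.2 ^ 2) * Real.sin w.1 ≠ x :=
    (ae_ball_iff c2).2 fun x _ => null_x x
  have hdom : MeasurableSet Dom := by
    have m1 : Measurable fun w : ℝ × ℝ => |w.2| := by fun_prop
    exact (measurableSet_le measurable_const measurable_fst).inter
      ((measurableSet_lt measurable_fst measurable_const).inter
        (measurableSet_lt m1 measurable_const))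
  have a3 : ∀ᵐ w ∂muY, w ∈ Dom := ae_restrict_mem hdom
  filter_upwards [a3, ae_restrict_of_ae (null_snd c1), ae_restrict_of_ae a2,
    ae_restrict_of_ae (null_fst countable_cos)] with w w1 w2 w3 w4
  refine ⟨w1.2.2, w4, fun hc => ?_, fun hx => ?_⟩
  · by_contra hi
    exact w2 ⟨abs_lt.1 hc, hi⟩
  · by_contra hi
    exact w3 _ ⟨abs_lt.1 hx, hi⟩ w1.2.2 rfl

end VisM

theorem specVIS (hP : SpecMPP) (hQ : SpecMPQ) : SpecVIS := by
  intro b s F G h
  have hT : MeasurePreserving (tMap b F G) muY muY := (hP b s F G h).comp (hQ b s F G h)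
  have hg := VisM.ae_good h
  have : ∀ᵐ w ∂muY, ∀ n : ℕ, VisM.Gd b s F G ((tMap b F G)^[n] w) :=
    ae_all_iff.2 fun n => (hT.iterate n).quasiMeasurePreserving.ae hg
  filter_upwards [this] with w hw
  exact VisM.det h w hw

end Pool.Agent.Lib.MP_d2b992_gt.Dyn
end
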